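import Pool.Agent.Run7.h843.C6

/-!
# The weight of the sets with degenerate labels (after `Run7.h238.WBad`)
-/

set_option autoImplicit false

open scoped Classical

namespace Run7.h843.Cnt

open Finset hiding mk
open Pool.Agent.Y703.CX (sm la jj XX eL zz kk S_SIE)
open Pool.Agent.R413.SQ (SS pr1)
open Pool.Agent.Y703.CQ (nr)
open Pool.Agent.Y37.CX (Pm Pm_nonneg Pm_mono Pm_le)
open Pool.Agent.R413.SQ.BAD (prod_pos_of prod_sub_le sub_range params)
open Run7.h238.WSie Run7.h238.WFew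

/-- the weight of the family -/
theorem fam6_wt {C₁ C : ℝ} (h11 : 1 ≤ C₁)
    (hSIE : ∀ (Y : ℕ) (L : Finset (Finset ℕ)), 1 ≤ Y →
      (∀ S ∈ L, (∀ p ∈ S, p.Prime) ∧ ∏ p ∈ S, p ≤ Y) → (∀ S ∈ L, ∀ T, T ⊆ S → T ∈ L) →
      (∑ S ∈ L, (2 : ℝ) ^ S.card) * Real.log Y ≤
        C₁ * Y * (∑ S ∈ L, (1 : ℝ) / ((∏ p ∈ S, p : ℕ) : ℝ)) ^ 2)
    {W : Finset ℕ} {Y : ℕ} (hY : 3 ≤ Y)
    (hle : ∑ T ∈ fam6 W Y, (1 : ℝ) / ((∏ p ∈ T, p : ℕ) : ℝ) ≤ C) :
    wt (fam6 W Y) * Real.log Y ≤ C₁ * Y * C ^ 2 := by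
  have h1 := hSIE Y (fam6 W Y) (by omega) (by
    intro S hS
    exact ⟨fam6_prime hS, (mem_filter.1 hS).2.2⟩) (by
    intro S hS T hTS
    have hp := fam6_prime hS
    rw [fam6, mem_filter, mem_powerset] at hS ⊢
    obtain ⟨h1, h2, h3⟩ := hS
    exact ⟨hTS.trans h1, fun p hp => h2 p (hTS hp), (prod_sub_le hTS hp).trans h3⟩)
  have h0 : 0 ≤ ∑ S ∈ fam6 W Y, (1 : ℝ) / ((∏ p ∈ S, p : ℕ) : ℝ) :=
    sum_nonneg fun _ _ => by positivity
  exact h1.trans (mul_le_mul_of_nonneg_left (pow_le_pow_left₀ h0 hle 2) (by positivity))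

/-- the weight of the sets with given small part -/
theorem fiber6 (I K : Finset ℕ) (X z : ℕ) {S₀ : Finset ℕ} (hS₀ : ∀ u ∈ S₀, u.Prime) :
    wt ((SS I K X).filter fun S => ¬ Nd6 (sm z S) (la z S) ∧ sm z S = S₀) ≤
      2 ^ S₀.card * ∑ W ∈ S₀.powerset, if (∀ u ∈ W, u.Prime ∧ u % 4 = 1) then
        wt (fam6 W (X / ∏ p ∈ S₀, p)) else 0 := by
  set F := (SS I K X).filter fun S => ¬ Nd6 (sm z S) (la z S) ∧ sm z S = S₀ with hF
  set PW := S₀.powerset.filter fun W => (∀ u ∈ W, u.Prime ∧ u % 4 = 1) with hPW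
  have key : ∀ S : Finset ℕ, sm z S ∪ la z S = S := fun S => filter_union_filter_not_eq _ _
  have hcard : ∀ S ∈ F, (2 : ℝ) ^ S.card = 2 ^ S₀.card * 2 ^ (la z S).card := by
    intro S hS
    rw [← pow_add]
    congr 1
    have h1 : (sm z S).card + (la z S).card = S.card := Finset.card_filter_add_card_filter_not _
    rw [hF, mem_filter] at hS
    rw [hS.2.2] at h1
    exact h1.symm
  have hmem : ∀ S ∈ F, la z S ∈ PW.biUnion fun W => fam6 W (X / ∏ p ∈ S₀, p) := by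
    intro S hS
    rw [hF, mem_filter, SS, mem_filter, mem_powerset] at hS
    obtain ⟨⟨h1, h2, h4⟩, h5, h6⟩ := hS
    have hpr : ∀ p ∈ S, p.Prime := fun p hp => (pr1 (h2 p hp)).1
    obtain ⟨W, hWS, h7⟩ := notNd6 h5 fun p hp => (pr1 (h2 p (mem_filter.1 hp).1)).2
    have hWS : W ⊆ S₀ := by rw [← h6]; exact hWS
    rw [mem_biUnion]
    refine ⟨W, ?_, ?_⟩
    · rw [hPW, mem_filter, mem_powerset]
      refine ⟨hWS, fun u hu => ⟨hS₀ u (hWS hu), ?_⟩⟩
      have hu2 := hWS hu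
      rw [← h6, sm, mem_filter] at hu2
      exact (pr1 (h2 u hu2.1)).2
    · rw [fam6, mem_filter, mem_powerset]
      have hN : 0 < ∏ p ∈ S₀, p := prod_pos_of fun p hp => hS₀ p hp
      have hprod : ∏ p ∈ la z S, p ≤ X / ∏ p ∈ S₀, p := by
        rw [Nat.le_div_iff_mul_le hN, mul_comm, ← h6]
        have : (∏ p ∈ sm z S, p) * ∏ p ∈ la z S, p = ∏ p ∈ S, p :=
          prod_filter_mul_prod_filter_not _ _ _
        rw [this]
        exact h4
      refine ⟨sub_range (fun p hp => hpr p (mem_filter.1 hp).1) hprod, ?_, hprod⟩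
      intro p hp
      have hpp := hpr p (mem_filter.1 hp).1
      rcases h7 p hp with h | h
      · left
        refine ⟨hpp, h.1, fun hpW => ?_, h.2⟩
        have h8 := hWS hpW
        rw [← h6, sm, mem_filter] at h8
        exact (mem_filter.1 hp).2 h8.2
      · exact Or.inr ⟨h.1, hpp, h.2⟩
  have hinj : ∀ S ∈ F, ∀ T ∈ F, la z S = la z T → S = T := by
    intro S hS T hT h
    rw [hF, mem_filter] at hS hT
    rw [← key S, ← key T, hS.2.2, hT.2.2, h]
  have h1 : wt F = 2 ^ S₀.card * ∑ S ∈ F, (2 : ℝ) ^ (la z S).card := by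
    unfold wt
    rw [sum_congr rfl hcard, ← mul_sum]
  rw [h1, ← sum_filter, ← hPW]
  refine mul_le_mul_of_nonneg_left ?_ (by positivity)
  have h2 : ∑ S ∈ F, (2 : ℝ) ^ (la z S).card = ∑ T ∈ F.image (la z), (2 : ℝ) ^ T.card := by
    rw [sum_image]
    intro S hS T hT h
    exact hinj S hS T hT h
  rw [h2]
  have h3 : F.image (la z) ⊆ PW.biUnion fun W => fam6 W (X / ∏ p ∈ S₀, p) := by
    intro T hT
    rw [mem_image] at hT
    obtain ⟨S, hS, rfl⟩ := hT
    exact hmem S hS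
  refine (sum_le_sum_of_subset_of_nonneg h3 fun _ _ _ => by positivity).trans ?_
  -- the sum over the union
  have h4 : ∀ (A : Finset (Finset ℕ)) (g : Finset ℕ → Finset (Finset ℕ)),
      ∑ T ∈ A.biUnion g, (2 : ℝ) ^ T.card ≤ ∑ W ∈ A, wt (g W) := by
    intro A g
    induction A using Finset.induction_on with
    | empty => simp
    | insert a s ha ih =>
      rw [biUnion_insert, sum_insert ha]
      exact (wt_union _ _).trans (add_le_add le_rfl ih)
  exact h4 _ _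

/-- **the weight of the sets with degenerate labels** -/
theorem bad6 (hSIE : S_SIE) (I K : Finset ℕ) :
    ∃ (C : ℝ) (X₀ : ℕ), ∀ X : ℕ, X₀ ≤ X →
    wt ((SS I K X).filter fun S => S.card ≤ kk X ∧ ¬ Nd6 (sm (zz X) S) (la (zz X) S)) ≤
      C * X * (Real.log X) ^ (-(1 / 8) : ℝ) := by
  obtain ⟨C₁, h11, h1⟩ := wsie hSIE
  obtain ⟨C₂, h21, h2⟩ := fam6_le
  obtain ⟨C₃, h30, h3⟩ := Pm_le
  obtain ⟨X₀, hX₀⟩ := params
  have hC2 : 0 ≤ C₂ := by linarith
  have hC1 : 0 ≤ C₁ := by linarith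
  set D0 : ℝ := 432 * C₁ * C₂ ^ 2 * Real.exp (4 * C₃) with hD0
  refine ⟨D0, X₀, fun X hX => ?_⟩
  obtain ⟨hX3, hl2, hlog1, h33, hfin⟩ := hX₀ X hX
  set ℓ : ℝ := Real.log (Real.log X) with hℓ
  set z : ℕ := zz X with hz
  set k : ℕ := kk X with hk
  have hlX : 0 < Real.log X := by linarith
  have hl0 : 0 < ℓ := by linarith
  have hk11 : (k : ℝ) ≤ 11 * ℓ := by
    have h := Nat.ceil_lt_add_one (show (0 : ℝ) ≤ 10 * eL X by
      unfold eL; rw [← hℓ]; positivity)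
    have h' : (k : ℝ) < 10 * ℓ + 1 := h
    linarith
  have hl3 : (8 : ℝ) ≤ ℓ ^ 3 := by
    have := pow_le_pow_left₀ (by norm_num : (0 : ℝ) ≤ 2) hl2 3
    linarith
  have hz3 : 3 ≤ z := by
    rw [hz]
    unfold zz
    apply Nat.le_floor
    have h := Real.add_one_le_exp ((eL X) ^ 3)
    have h' : (eL X) ^ 3 = ℓ ^ 3 := rfl
    rw [h'] at h ⊢
    push_cast
    linarith
  have hz1 : 1 ≤ z := by omega
  have hz0 : (0 : ℝ) < z := by exact_mod_cast hz1
  have hzlog : Real.log z ≤ ℓ ^ 3 := by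
    rw [Real.log_le_iff_le_exp hz0]
    exact Nat.floor_le (Real.exp_pos _).le
  have hzlog0 : 0 < Real.log z := Real.log_pos (by exact_mod_cast (by omega : 1 < z))
  have hl4 : (1 : ℝ) ≤ ℓ ^ 4 := one_le_pow₀ (by linarith)
  -- the size of the families
  set R : ℝ := 432 * C₁ * C₂ ^ 2 * ℓ ^ 8 * ((Real.log X) ^ (3 / 8 : ℝ)) ^ 2 / Real.log X with hR
  have hrp0 : 0 < (Real.log X) ^ (3 / 8 : ℝ) := Real.rpow_pos_of_pos hlX _
  have hR0 : 0 ≤ R := by
    rw [hR]
    positivity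
  have key : ∀ S₀ : Finset ℕ, (∀ u ∈ S₀, u.Prime) → (∀ u ∈ S₀, u ≤ z) → S₀.card ≤ k →
      ∀ W ⊆ S₀, (∀ u ∈ W, u.Prime ∧ u % 4 = 1) →
      wt (fam6 W (X / ∏ p ∈ S₀, p)) ≤ (X : ℝ) / ((∏ p ∈ S₀, p : ℕ) : ℝ) * R := by
    intro S₀ hS₀ hSz hSk W hWS hW1
    set N : ℕ := ∏ p ∈ S₀, p with hN
    have hN0 : 0 < N := prod_pos_of fun p hp => hS₀ p hp
    have hN0' : (0 : ℝ) < N := by exact_mod_cast hN0
    have hlN : Real.log N ≤ 11 * ℓ ^ 4 := by
      have e1 : Real.log N = ∑ p ∈ S₀, Real.log p := by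
        rw [hN]
        push_cast
        rw [Real.log_prod]
        intro p hp
        have := (hS₀ p hp).ne_zero
        exact_mod_cast this
      rw [e1]
      calc ∑ p ∈ S₀, Real.log p ≤ ∑ _p ∈ S₀, Real.log z := by
            refine sum_le_sum fun p hp => ?_
            exact Real.log_le_log (by exact_mod_cast (hS₀ p hp).pos) (by exact_mod_cast hSz p hp)
        _ = S₀.card * Real.log z := by rw [sum_const, nsmul_eq_mul]
        _ ≤ (11 * ℓ) * ℓ ^ 3 := by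
            refine mul_le_mul (le_trans (by exact_mod_cast hSk) hk11) hzlog hzlog0.le (by positivity)
        _ = 11 * ℓ ^ 4 := by ring
    set Y : ℕ := X / N with hY
    have hX0 : (0 : ℝ) < X := by exact_mod_cast (by omega : 0 < X)
    have hYle : (Y : ℝ) ≤ (X : ℝ) / N := Nat.cast_div_le
    have hYge : Real.exp (Real.log X / 3) ≤ Y := by
      have e1 : (X : ℝ) / N < Y + 1 := by
        rw [div_lt_iff₀ hN0']
        have := Nat.lt_mul_div_succ X hN0
        rw [← hY] at this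
        have h' : ((X : ℕ) : ℝ) < ((N * (Y + 1) : ℕ) : ℝ) := by exact_mod_cast this
        push_cast at h'
        linarith
      have e2 : Real.exp (Real.log X - Real.log N) = (X : ℝ) / N := by
        rw [Real.exp_sub, Real.exp_log hX0, Real.exp_log hN0']
      have e3 : Real.exp (Real.log X / 3 + 1) ≤ (X : ℝ) / N := by
        rw [← e2]
        apply Real.exp_le_exp.2
        linarith
      rw [Real.exp_add] at e3
      have e4 : (2 : ℝ) ≤ Real.exp 1 := by have := Real.exp_one_gt_d9; linarith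
      have e5 : (1 : ℝ) ≤ Real.exp (Real.log X / 3) := Real.one_le_exp (by positivity)
      nlinarith
    have hX16 : (9 : ℝ) ≤ Real.log X / 3 := by
      have e6 : (16 : ℝ) ≤ ℓ ^ 4 := by
        have := pow_le_pow_left₀ (by norm_num : (0 : ℝ) ≤ 2) hl2 4
        linarith
      linarith
    have hY3 : 3 ≤ Y := by
      have e1 := Real.add_one_le_exp (Real.log X / 3)
      have e2 : (3 : ℝ) ≤ Y := by linarith
      exact_mod_cast e2
    have hY2 : 2 ≤ Y := by omega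
    have hY0 : (0 : ℝ) < Y := by exact_mod_cast (by omega : 0 < Y)
    have hlY : Real.log X / 3 ≤ Real.log Y := by
      rw [Real.le_log_iff_exp_le hY0]
      exact hYge
    have hYX : Y ≤ X := Nat.div_le_self _ _
    have hlYX : Real.log Y ≤ Real.log X := Real.log_le_log hY0 (by exact_mod_cast hYX)
    have hlY0 : 0 < Real.log Y := by linarith
    -- the small factor
    have hlW : (Real.log ((∏ u ∈ W, u : ℕ) : ℝ)) ^ (1 / 2 : ℝ) ≤ 11 * ℓ ^ 4 := by
      have hWp : ∀ u ∈ W, u.Prime := fun u hu => (hW1 u hu).1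
      have e0 : (0 : ℝ) < ((∏ u ∈ W, u : ℕ) : ℝ) := by exact_mod_cast prod_pos_of hWp
      have e1 : Real.log ((∏ u ∈ W, u : ℕ) : ℝ) ≤ 11 * ℓ ^ 4 := by
        refine le_trans (Real.log_le_log e0 ?_) hlN
        exact_mod_cast prod_sub_le hWS hS₀
      have e2 : 0 ≤ Real.log ((∏ u ∈ W, u : ℕ) : ℝ) := Real.log_natCast_nonneg _
      have e3 : (1 : ℝ) ≤ 11 * ℓ ^ 4 := by linarith
      refine (Real.rpow_le_rpow e2 e1 (by norm_num)).trans ?_
      have := Real.rpow_le_rpow_of_exponent_le e3 (show (1 / 2 : ℝ) ≤ 1 by norm_num)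
      rwa [Real.rpow_one] at this
    have hlW0 : 0 ≤ (Real.log ((∏ u ∈ W, u : ℕ) : ℝ)) ^ (1 / 2 : ℝ) :=
      Real.rpow_nonneg (Real.log_natCast_nonneg _) _
    have hfam := h2 W Y hY3 hW1
    have hb : C₂ * (1 + (Real.log ((∏ u ∈ W, u : ℕ) : ℝ)) ^ (1 / 2 : ℝ)) *
        (Real.log Y) ^ (3 / 8 : ℝ) ≤ C₂ * (12 * ℓ ^ 4) * (Real.log X) ^ (3 / 8 : ℝ) := by
      have hrY : (Real.log Y) ^ (3 / 8 : ℝ) ≤ (Real.log X) ^ (3 / 8 : ℝ) :=
        Real.rpow_le_rpow hlY0.le hlYX (by norm_num)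
      have hrY0 : 0 ≤ (Real.log Y) ^ (3 / 8 : ℝ) := Real.rpow_nonneg hlY0.le _
      have hs : 1 + (Real.log ((∏ u ∈ W, u : ℕ) : ℝ)) ^ (1 / 2 : ℝ) ≤ 12 * ℓ ^ 4 := by linarith
      gcongr
    have hmain := fam6_wt h11 h1 hY3 (hfam.trans hb)
    have hc : wt (fam6 W Y) * (Real.log X / 3) ≤
        C₁ * ((X : ℝ) / N) * (C₂ * (12 * ℓ ^ 4) * (Real.log X) ^ (3 / 8 : ℝ)) ^ 2 := by
      refine le_trans (mul_le_mul_of_nonneg_left hlY (wt_nonneg _)) (hmain.trans ?_)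
      gcongr
    have hd : (X : ℝ) / N * R = (C₁ * ((X : ℝ) / N) *
        (C₂ * (12 * ℓ ^ 4) * (Real.log X) ^ (3 / 8 : ℝ)) ^ 2) / (Real.log X / 3) := by
      rw [hR]
      field_simp
      ring
    rw [hd, le_div_iff₀ (by positivity)]
    exact hc
  -- the sum over the small parts
  set B := (SS I K X).filter fun S => S.card ≤ k ∧ ¬ Nd6 (sm z S) (la z S) with hB
  set D := (range (z + 1)).filter fun p => p.Prime with hD
  set W := D.powerset.filter fun S => S.card ≤ k with hW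
  have hmaps : ∀ S ∈ B, sm z S ∈ W := by
    intro S hS
    rw [hB, mem_filter, SS, mem_filter, mem_powerset] at hS
    obtain ⟨⟨k1, k2, k3⟩, k4, k5⟩ := hS
    rw [hW, mem_filter, mem_powerset]
    refine ⟨fun p hp => ?_, (card_le_card (filter_subset _ _)).trans k4⟩
    obtain ⟨l1, l2⟩ := mem_filter.1 hp
    rw [hD, mem_filter, mem_range]
    refine ⟨by omega, ?_⟩
    exact (pr1 (k2 p l1)).1
  have hcard : wt B ≤ ∑ S₀ ∈ W, 4 ^ S₀.card * ((X : ℝ) / ((∏ p ∈ S₀, p : ℕ) : ℝ) * R) := by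
    unfold wt
    rw [← sum_fiberwise_of_maps_to hmaps]
    refine sum_le_sum fun S₀ hS₀ => ?_
    rw [hW, mem_filter, mem_powerset] at hS₀
    have hpr : ∀ u ∈ S₀, u.Prime := fun u hu => (mem_filter.1 (hS₀.1 hu)).2
    have hle : ∀ u ∈ S₀, u ≤ z := fun u hu => by
      have := mem_range.1 (mem_filter.1 (hS₀.1 hu)).1
      omega
    have e1 : wt (B.filter fun S => sm z S = S₀) ≤
        wt ((SS I K X).filter fun S => ¬ Nd6 (sm z S) (la z S) ∧ sm z S = S₀) := by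
      refine wt_mono fun S hS => ?_
      rw [mem_filter, hB, mem_filter] at hS
      rw [mem_filter]
      exact ⟨hS.1.1, hS.1.2.2, hS.2⟩
    have e2 := e1.trans (fiber6 I K X z hpr)
    have e3 : (∑ W ∈ S₀.powerset, if (∀ u ∈ W, u.Prime ∧ u % 4 = 1) then
        wt (fam6 W (X / ∏ p ∈ S₀, p)) else 0) ≤
        ∑ t ∈ S₀.powerset, (X : ℝ) / ((∏ p ∈ S₀, p : ℕ) : ℝ) * R := by
      refine sum_le_sum fun t htS => ?_
      split_ifs with ht
      · exact key S₀ hpr hle hS₀.2 t (mem_powerset.1 htS) ht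
      · exact mul_nonneg (div_nonneg (Nat.cast_nonneg _) (by positivity)) hR0
    refine (e2.trans (mul_le_mul_of_nonneg_left e3 (by positivity))).trans (le_of_eq ?_)
    rw [sum_const, card_powerset, nsmul_eq_mul, ← mul_assoc]
    push_cast
    rw [← mul_pow]
    norm_num
  have hsum : ∑ S₀ ∈ W, 4 ^ S₀.card * ((X : ℝ) / ((∏ p ∈ S₀, p : ℕ) : ℝ) * R) ≤
      X * R * Real.exp (4 * Pm z) := by
    have e1 : ∀ S₀ ∈ W, 4 ^ S₀.card * ((X : ℝ) / ((∏ p ∈ S₀, p : ℕ) : ℝ) * R) =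
        X * R * ∏ p ∈ S₀, (4 / (p : ℝ)) := by
      intro S₀ _
      rw [prod_div_distrib, prod_const]
      push_cast
      ring
    rw [sum_congr rfl e1, ← mul_sum]
    have h2XR : 0 ≤ (X : ℝ) * R := by positivity
    refine mul_le_mul_of_nonneg_left ?_ h2XR
    calc ∑ S₀ ∈ W, ∏ p ∈ S₀, (4 / (p : ℝ)) ≤ ∑ S₀ ∈ D.powerset, ∏ p ∈ S₀, (4 / (p : ℝ)) := by
          refine sum_le_sum_of_subset_of_nonneg (filter_subset _ _) fun S _ _ => ?_
          exact prod_nonneg fun _ _ => by positivity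
      _ = ∏ p ∈ D, (1 + 4 / (p : ℝ)) := by rw [prod_one_add]
      _ ≤ ∏ p ∈ D, Real.exp (4 / (p : ℝ)) := by
          refine prod_le_prod (fun _ _ => by positivity) fun p _ => ?_
          rw [add_comm]
          exact Real.add_one_le_exp _
      _ = Real.exp (∑ p ∈ D, 4 / (p : ℝ)) := by rw [Real.exp_sum]
      _ ≤ Real.exp (4 * Pm z) := by
          apply Real.exp_le_exp.2
          unfold Pm
          rw [mul_sum]
          have e2 : ∀ p : ℕ, 4 / (p : ℝ) = 4 * (1 / p) := fun p => by ring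
          simp_rw [e2]
          refine sum_le_sum_of_subset_of_nonneg ?_ fun _ _ _ => by positivity
          intro p hp
          rw [hD, mem_filter, mem_range] at hp
          rw [mem_filter, mem_Icc]
          exact ⟨⟨hp.2.pos, by omega⟩, hp.2⟩
  have hexp : Real.exp (4 * Pm z) ≤ Real.exp (4 * C₃) * ℓ ^ 12 := by
    have e1 := h3 z hz3
    have e2 : Real.exp (4 * Pm z) ≤ Real.exp (4 * (Real.log (Real.log z) + C₃)) :=
      Real.exp_le_exp.2 (by linarith)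
    refine e2.trans ?_
    have e3 : Real.exp (4 * (Real.log (Real.log z) + C₃)) = Real.exp (4 * C₃) * (Real.log z) ^ 4 := by
      rw [mul_add, Real.exp_add, mul_comm]
      congr 1
      rw [show (4 : ℝ) * Real.log (Real.log z) = Real.log ((Real.log z) ^ 4) by
        rw [Real.log_pow]; push_cast; ring]
      exact Real.exp_log (by positivity)
    rw [e3]
    refine mul_le_mul_of_nonneg_left ?_ (Real.exp_pos _).le
    calc (Real.log z) ^ 4 ≤ (ℓ ^ 3) ^ 4 := pow_le_pow_left₀ hzlog0.le hzlog 4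
      _ = ℓ ^ 12 := by ring
  have hXR : 0 ≤ (X : ℝ) * R := by positivity
  have hX0' : (0 : ℝ) ≤ X := Nat.cast_nonneg _
  have hl20 : ℓ ^ 20 ≤ Real.log X ^ (1 / 16 : ℝ) := by
    have e1 : ℓ ^ 20 = (ℓ ^ 10) ^ 2 := by ring
    rw [e1]
    refine (pow_le_pow_left₀ (by positivity) hfin 2).trans (le_of_eq ?_)
    rw [← Real.rpow_natCast, ← Real.rpow_mul hlX.le]
    norm_num
  have hD00 : 0 ≤ D0 := by
    rw [hD0]
    positivity
  calc wt B ≤ X * R * Real.exp (4 * Pm z) := hcard.trans hsum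
    _ ≤ X * R * (Real.exp (4 * C₃) * ℓ ^ 12) :=
        mul_le_mul_of_nonneg_left hexp hXR
    _ = D0 * X * (ℓ ^ 20 * ((Real.log X) ^ (3 / 8 : ℝ)) ^ 2 / Real.log X) := by
        rw [hR, hD0]
        ring
    _ ≤ D0 * X * ((Real.log X) ^ (1 / 16 : ℝ) * ((Real.log X) ^ (3 / 8 : ℝ)) ^ 2 /
          Real.log X) := by
        gcongr
    _ ≤ D0 * X * (Real.log X) ^ (-(1 / 8) : ℝ) := by
        apply mul_le_mul_of_nonneg_left _ (by positivity)
        rw [← Real.rpow_natCast ((Real.log X) ^ (3 / 8 : ℝ)) 2, ← Real.rpow_mul hlX.le,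
          ← Real.rpow_add hlX]
        nth_rewrite 2 [← Real.rpow_one (Real.log X)]
        rw [← Real.rpow_sub hlX]
        apply Real.rpow_le_rpow_of_exponent_le hlog1.le
        norm_num

end Run7.h843.Cnt
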