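import Pool.Agent.Run7.h238.WFin
import Pool.Agent.Run7.h843.C7

/-!
# The weighted law (after `Run7.h238.WFin`)
-/

set_option autoImplicit false

open scoped Classical

namespace Run7.h843.Cnt

open Finset hiding mk
open Filter hiding mk
open Pool.Agent.Y703.CX (sm la jj XX eL zz kk S_SIE ev_eL X_pos kap zz_pos kap_nonneg kap_pow)
open Pool.Agent.R413.SQ
open Pool.Agent.Y703.CQ (nr S_MER c2)
open Run7.h238.WFew Run7.h238.WTail
open Run7.h238.WFin (c2_pos c2_lt zz_tendsto)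

/-- the indicator function of the good sets, minus the proportion -/
noncomputable def dv6 (S : Finset ℕ) : ℝ := (if Gd6 S then 1 else 0) - c2

theorem dv6_le (S : Finset ℕ) : |dv6 S| ≤ 1 := by
  unfold dv6
  have h1 := c2_pos
  have h2 := c2_lt
  rw [abs_le]
  split_ifs <;> constructor <;> linarith

theorem out_sub6 (I K : Finset ℕ) (X z H k V : ℕ) :
    SS I K X \ ((RR I K X z H k V).filter fun S => Nd6 (sm z S) (la z S)) ⊆
      (((((SS I K X).filter fun S => k < S.card) ∪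
      ((SS I K X).filter fun S => S.card ≤ k ∧
        X < (∏ p ∈ sm z S, p) * ∏ p ∈ la z S, XX H (jj H p))) ∪
      ((SS I K X).filter fun S => ¬ Set.InjOn (jj H) (la z S : Set ℕ))) ∪
      ((SS I K X).filter fun S => ((la z S).filter fun p => mk p = 1).card ≤
        2 * (sm z S).card + V ∨ ∀ p ∈ la z S, mk p = 1)) ∪
      ((SS I K X).filter fun S => S.card ≤ k ∧ ¬ Nd6 (sm z S) (la z S)) := by
  intro S hS
  rw [Finset.mem_sdiff, Finset.mem_filter] at hS
  obtain ⟨h1, h2⟩ := hS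
  simp only [mem_union, mem_filter]
  by_contra hc
  push Not at hc
  obtain ⟨⟨⟨⟨c1, c2⟩, c3⟩, c4⟩, c5⟩ := hc
  have d1 : S.card ≤ k := c1 h1
  have d2 := c2 h1 d1
  have d3 := c3 h1
  have d4 := c4 h1
  have d5 := c5 h1 d1
  apply h2
  refine ⟨?_, d5⟩
  unfold RR
  rw [mem_filter]
  exact ⟨h1, d3, d1, d2, d4.1, d4.2⟩

/-- **the weighted law** -/
theorem law6 (g : Finset ℕ → ℝ) (M : ℝ) (hg0 : ∀ S, 0 ≤ g S) (hgM : ∀ S, g S ≤ M)
    (hgs : ∃ z₀ : ℕ, ∀ z, z₀ ≤ z → ∀ S, g S = g (sm z S)) (ε : ℝ) (hε : 0 < ε) :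
    ∀ᶠ X : ℕ in atTop, |∑ S ∈ SS ∅ ∅ X, g S * 2 ^ S.card * dv6 S| ≤ ε * X := by
  have hO : Ok ∅ ∅ := trivial
  have hM0 : 0 ≤ M := (hg0 ∅).trans (hgM ∅)
  have hsie := Pool.Agent.Y488.CX.t_SIE
  have hmer := Pool.Agent.Y405.CQ.t_MER
  obtain ⟨C, hC1, hkey⟩ := wkey6 BIL.t_BIL Pool.Agent.Y356.CQ.t_EQ
    (Pool.Agent.Y219.CQ.t_LA Pool.Agent.Y839.CQ.t_SYM Pool.Agent.Y948.CQ.t_C2)
  obtain ⟨CB, XB, hbad⟩ := bad6 hsie ∅ ∅
  obtain ⟨CT, hCT, htot⟩ := total hsie hmer ∅ ∅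
  obtain ⟨V, hV⟩ := exists_pow_lt_of_lt_one (show (0 : ℝ) < ε / (16 * (M + 1) * CT) by positivity)
    (show (1 / 2 : ℝ) < 1 by norm_num)
  have s1 := sml_many hO CNT.t_CNT
  have s2 := sml_cut hO CNT.t_CNT
  have s3 := sml_coll hO CNT.t_CNT
  have s4 := sml_few hsie hmer (I := ∅) (K := ∅) V
  have s5 : Sml 0 fun X => wt ((SS ∅ ∅ X).filter fun S => S.card ≤ kk X ∧
      ¬ Nd6 (sm (zz X) S) (la (zz X) S)) := sml_rpow (by norm_num) hbad
  have s6 := Run7.h238.WTail.sml_main hC1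
  have s := sml_add (sml_add (sml_add (sml_add (sml_add s1 s2) s3) s4) s5) s6
  obtain ⟨z₀, hz₀⟩ := hgs
  filter_upwards [s (ε / (4 * (M + 1))) (by positivity), ev_eL 1,
    zz_tendsto.eventually (eventually_ge_atTop z₀)] with X hX hl hzz
  have hl0 : 0 < eL X := by linarith
  have hXp := X_pos hl0
  have hX0 : (0 : ℝ) < X := by exact_mod_cast hXp
  have e0 : (X : ℝ) * Real.exp (-0 * eL X) = X := by
    rw [neg_zero, zero_mul, Real.exp_zero, mul_one]
  rw [e0] at hX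
  have hN : (H2 X : ℝ) * Real.log X < N2 X := by
    unfold N2
    push_cast
    exact Nat.lt_floor_add_one _
  have hmain := hkey ∅ ∅ X (zz X) (H2 X) (kk X) V (N2 X) (kap C X) hO hXp (H2_pos hl0)
    (zz_pos hl) (kap_nonneg hC1 X) (kap_pow hC1 hl) hN g M hg0 hgM (hz₀ _ hzz)
  set T := (RR ∅ ∅ X (zz X) (H2 X) (kk X) V).filter fun S => Nd6 (sm (zz X) S) (la (zz X) S)
    with hT
  have hTG : (RR ∅ ∅ X (zz X) (H2 X) (kk X) V).filter
      (fun S => Nd6 (sm (zz X) S) (la (zz X) S) ∧ Gd6 S) = T.filter Gd6 := by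
    rw [hT, filter_filter]
  rw [hTG] at hmain
  have hTS : T ⊆ SS ∅ ∅ X := (filter_subset _ _).trans (filter_subset _ _)
  -- the regular part
  have e1 : ∑ S ∈ T, g S * 2 ^ S.card * dv6 S =
      ∑ S ∈ T.filter Gd6, g S * 2 ^ S.card - c2 * ∑ S ∈ T, g S * 2 ^ S.card := by
    rw [sum_filter (s := T) (p := Gd6), mul_sum, ← sum_sub_distrib]
    refine sum_congr rfl fun S _ => ?_
    unfold dv6
    split_ifs <;> ring
  have h1 : wt (RR ∅ ∅ X (zz X) (H2 X) (kk X) V) ≤ CT * X :=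
    (wt_mono (filter_subset _ _)).trans (htot X)
  have hV2 : 8 * (1 / 2 : ℝ) ^ V * wt (RR ∅ ∅ X (zz X) (H2 X) (kk X) V) ≤
      ε / (2 * (M + 1)) * X := by
    calc 8 * (1 / 2 : ℝ) ^ V * wt (RR ∅ ∅ X (zz X) (H2 X) (kk X) V) ≤
          8 * (ε / (16 * (M + 1) * CT)) * (CT * X) := by
          refine mul_le_mul ?_ h1 (wt_nonneg _) (by positivity)
          linarith
      _ = _ := by
          have : CT ≠ 0 := by linarith
          field_simp
          ring
  -- the rest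
  have hout : wt (SS ∅ ∅ X \ T) ≤
      (wt ((SS ∅ ∅ X).filter fun S => kk X < S.card) +
      wt ((SS ∅ ∅ X).filter fun S => S.card ≤ kk X ∧
        X < (∏ p ∈ sm (zz X) S, p) * ∏ p ∈ la (zz X) S, XX (H2 X) (jj (H2 X) p)) +
      wt ((SS ∅ ∅ X).filter fun S => ¬ Set.InjOn (jj (H2 X)) (la (zz X) S : Set ℕ)) +
      wt ((SS ∅ ∅ X).filter fun S => ((la (zz X) S).filter fun p => mk p = 1).card ≤
        2 * (sm (zz X) S).card + V ∨ ∀ p ∈ la (zz X) S, mk p = 1)) +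
      wt ((SS ∅ ∅ X).filter fun S => S.card ≤ kk X ∧ ¬ Nd6 (sm (zz X) S) (la (zz X) S)) := by
    have g1 := wt_mono (out_sub6 ∅ ∅ X (zz X) (H2 X) (kk X) V)
    rw [← hT] at g1
    refine g1.trans ((wt_union _ _).trans (add_le_add ((wt_union _ _).trans
      (add_le_add ((wt_union _ _).trans (add_le_add (wt_union _ _) le_rfl)) le_rfl)) le_rfl))
  have e2 : ∑ S ∈ SS ∅ ∅ X, g S * 2 ^ S.card * dv6 S =
      ∑ S ∈ SS ∅ ∅ X \ T, g S * 2 ^ S.card * dv6 S + ∑ S ∈ T, g S * 2 ^ S.card * dv6 S :=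
    (sum_sdiff hTS).symm
  have h2 : |∑ S ∈ SS ∅ ∅ X \ T, g S * 2 ^ S.card * dv6 S| ≤ M * wt (SS ∅ ∅ X \ T) := by
    refine (abs_sum_le_sum_abs _ _).trans ?_
    unfold wt
    rw [mul_sum]
    refine sum_le_sum fun S _ => ?_
    rw [abs_mul, abs_mul, abs_of_nonneg (hg0 S), abs_of_nonneg (by positivity : (0 : ℝ) ≤ 2 ^ S.card)]
    calc g S * 2 ^ S.card * |dv6 S| ≤ g S * 2 ^ S.card * 1 :=
          mul_le_mul_of_nonneg_left (dv6_le S) (mul_nonneg (hg0 S) (by positivity))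
      _ ≤ M * 2 ^ S.card := by
          rw [mul_one]
          exact mul_le_mul_of_nonneg_right (hgM S) (by positivity)
  rw [e2]
  refine (abs_add_le _ _).trans ?_
  rw [e1]
  have h3 := add_le_add h2 hmain
  refine h3.trans ?_
  set E := 2 ^ kk X * ((9 * (N2 X : ℝ) + 9) ^ kk X * (3 ^ (3 * kk X ^ 2) * kap C X) *
    (X * (1 + Real.log X))) with hE
  have h4 : wt (SS ∅ ∅ X \ T) + E ≤ ε / (4 * (M + 1)) * X := by linarith
  have h5 : wt (SS ∅ ∅ X \ T) + (8 * (1 / 2 : ℝ) ^ V * wt (RR ∅ ∅ X (zz X) (H2 X) (kk X) V) + E) ≤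
      ε / (M + 1) * X := by
    have h6 : ε / (4 * (M + 1)) * X + ε / (2 * (M + 1)) * X ≤ ε / (M + 1) * X := by
      rw [← add_mul]
      refine mul_le_mul_of_nonneg_right ?_ hX0.le
      have h7 : (0 : ℝ) < M + 1 := by linarith
      have h8 : ε / (4 * (M + 1)) = 1 / 4 * (ε / (M + 1)) := by
        field_simp
      have h9 : ε / (2 * (M + 1)) = 1 / 2 * (ε / (M + 1)) := by
        field_simp
      have h10 : 0 < ε / (M + 1) := by positivity
      rw [h8, h9]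
      linarith
    linarith
  rw [← mul_add]
  have h6 : M * (ε / (M + 1) * X) ≤ ε * X := by
    have h7 : (0 : ℝ) < M + 1 := by linarith
    have h8 : M / (M + 1) ≤ 1 := by
      rw [div_le_one h7]
      linarith
    calc M * (ε / (M + 1) * X) = M / (M + 1) * (ε * X) := by
          field_simp
      _ ≤ 1 * (ε * X) := mul_le_mul_of_nonneg_right h8 (by positivity)
      _ = ε * X := one_mul _
  exact (mul_le_mul_of_nonneg_left h5 hM0).trans h6

/-- the function that depends on a finite set of primes -/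
theorem law_G6 (G : Finset ℕ) (ε : ℝ) (hε : 0 < ε) :
    ∀ᶠ X : ℕ in atTop, |∑ S ∈ SS ∅ ∅ X, 2 ^ (S ∪ G).card * dv6 S| ≤ ε * X := by
  have h := law6 (fun S => 2 ^ (G \ S).card) (2 ^ G.card) (fun S => by positivity)
    (fun S => pow_le_pow_right₀ (by norm_num) (card_le_card sdiff_subset)) ?_ ε hε
  · filter_upwards [h] with X hX
    refine le_trans (le_of_eq ?_) hX
    congr 1
    refine sum_congr rfl fun S _ => ?_
    rw [← pow_add]
    congr 2
    rw [← card_union_of_disjoint sdiff_disjoint, union_comm, sdiff_union_self_eq_union, union_comm]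
  · refine ⟨G.sup id, fun z hz S => ?_⟩
    have e : G \ S = G \ sm z S := by
      ext p
      rw [Finset.mem_sdiff, Finset.mem_sdiff]
      refine and_congr_right fun hp => ?_
      have h1 : p ≤ z := (le_sup (f := id) hp).trans hz
      unfold sm
      rw [mem_filter]
      tauto
    rw [e]

end Run7.h843.Cnt
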