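import Pool.Agent.Run7.h238.Lim
import Pool.Agent.Run7.h843.C8

/-!
# The limit over the pairs (after `Run7.h238.Lim`)
-/

set_option autoImplicit false

open scoped Classical

namespace Run7.h843.Cnt

open Finset hiding mk
open Filter hiding mk
open Pool.Agent.R413.SQ (SS)
open Run7.h238.Pairs Run7.h238.WFew
open Run7.h238.Lim (two_pow_le)

/-- the inner sum -/
noncomputable def Xi6 (g Y : ℕ) : ℝ :=
  ∑ S ∈ SS ∅ ∅ Y, 2 ^ (S ∪ g.primeFactors).card * dv6 S

theorem Xi6_zero (g : ℕ) : Xi6 g 0 = 0 := by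
  unfold Xi6
  have : SS ∅ ∅ 0 = ∅ := by
    rw [eq_empty_iff_forall_notMem]
    intro S hS
    rw [mem_SS] at hS
    have := prod_pos fun p hp => (hS.1 p hp).1.pos
    omega
  rw [this, sum_empty]

theorem Xi6_le {CT : ℝ} (h : ∀ X : ℕ, wt (SS ∅ ∅ X) ≤ CT * X) (g Y : ℕ) :
    |Xi6 g Y| ≤ 2 ^ g.primeFactors.card * (CT * Y) := by
  unfold Xi6
  refine (abs_sum_le_sum_abs _ _).trans ?_
  refine le_trans ?_ (mul_le_mul_of_nonneg_left (h Y) (by positivity))
  unfold wt
  rw [mul_sum]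
  refine sum_le_sum fun S _ => ?_
  rw [abs_mul, abs_of_nonneg (by positivity : (0 : ℝ) ≤ 2 ^ (S ∪ g.primeFactors).card)]
  calc 2 ^ (S ∪ g.primeFactors).card * |dv6 S| ≤ 2 ^ (S ∪ g.primeFactors).card * 1 :=
        mul_le_mul_of_nonneg_left (dv6_le S) (by positivity)
    _ ≤ 2 ^ (g.primeFactors.card + S.card) := by
        rw [mul_one]
        refine pow_le_pow_right₀ (by norm_num) ?_
        rw [add_comm]
        exact card_union_le _ _
    _ = _ := pow_add _ _ _

/-- the terms -/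
noncomputable def tm6 (X : ℕ) (e : ℕ × ℕ) : ℝ :=
  if e.1 ≠ 0 ∧ e.2 ≠ 0 ∧ N1 e.2 then 4 * Xi6 e.2 (X / (e.1 ^ 2 * e.2 ^ 2)) / X else 0

theorem sum_eq6 (X : ℕ) :
    (∑ v ∈ CX X, dv6 (oddP (nm v))) / X = ∑' e : ℕ × ℕ, tm6 X e := by
  rw [sum_pairs, sum_div]
  rw [tsum_eq_sum (s := (Icc 1 X) ×ˢ ((Icc 1 X).filter N1))]
  · refine sum_congr rfl fun e he => ?_
    rw [mem_product, mem_filter, mem_Icc, mem_Icc] at he
    unfold tm6
    rw [if_pos ⟨by omega, by omega, he.2.2⟩]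
    rfl
  · intro e he
    unfold tm6
    split_ifs with h
    · obtain ⟨h1, h2, h3⟩ := h
      have h4 : X / (e.1 ^ 2 * e.2 ^ 2) = 0 := by
        rw [Nat.div_eq_zero_iff]
        right
        by_contra hc
        push Not at hc
        apply he
        rw [mem_product, mem_filter, mem_Icc, mem_Icc]
        have k1 : e.1 * e.2 ≤ e.1 ^ 2 * e.2 ^ 2 := by
          rw [← mul_pow]
          exact Nat.le_self_pow (by norm_num) _
        have k2 : e.1 ≤ e.1 * e.2 := Nat.le_mul_of_pos_right _ (Nat.pos_of_ne_zero h2)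
        have k3 : e.2 ≤ e.1 * e.2 := Nat.le_mul_of_pos_left _ (Nat.pos_of_ne_zero h1)
        exact ⟨⟨Nat.pos_of_ne_zero h1, by omega⟩, ⟨Nat.pos_of_ne_zero h2, by omega⟩, h3⟩
      rw [h4, Xi6_zero, mul_zero, zero_div]
    · rfl

/-- **the sum over the pairs is small** -/
theorem tendsto_zero6 :
    Tendsto (fun X : ℕ => (∑ v ∈ CX X, dv6 (oddP (nm v))) / X) atTop (nhds 0) := by
  obtain ⟨CT, hCT, htot⟩ := total Pool.Agent.Y488.CX.t_SIE Pool.Agent.Y405.CQ.t_MER ∅ ∅
  simp_rw [sum_eq6]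
  have h0 : ∑' _ : ℕ × ℕ, (0 : ℝ) = 0 := tsum_zero
  rw [← h0]
  have hs1 : Summable fun k : ℕ => 1 / (k : ℝ) ^ 2 := Real.summable_one_div_nat_pow.2 (by norm_num)
  have hs2 : Summable fun g : ℕ => (g : ℝ) ^ (-(3 / 2) : ℝ) := Real.summable_nat_rpow.2 (by norm_num)
  have hs := (hs1.mul_of_nonneg hs2 (fun k => by positivity)
    (fun g => Real.rpow_nonneg (Nat.cast_nonneg g) _)).mul_left (4 * CT)
  refine tendsto_tsum_of_dominated_convergence hs ?_ ?_
  · -- each term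
    rintro ⟨k, g⟩
    unfold tm6
    by_cases h : k ≠ 0 ∧ g ≠ 0 ∧ N1 g
    · simp only [if_pos h]
      obtain ⟨hk, hg, -⟩ := h
      have hkg : 0 < k ^ 2 * g ^ 2 := by positivity
      rw [Metric.tendsto_nhds]
      intro ε hε
      have h1 := law_G6 g.primeFactors (ε / 8) (by positivity)
      have h2 : Tendsto (fun X : ℕ => X / (k ^ 2 * g ^ 2)) atTop atTop :=
        Nat.tendsto_div_const_atTop (by omega)
      filter_upwards [h2.eventually h1, eventually_ge_atTop 1] with X h3 h4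
      have hX : (0 : ℝ) < X := by exact_mod_cast h4
      rw [Real.dist_eq, sub_zero, abs_div, abs_mul, abs_of_pos hX, div_lt_iff₀ hX]
      have h5 : |Xi6 g (X / (k ^ 2 * g ^ 2))| ≤ ε / 8 * ((X / (k ^ 2 * g ^ 2) : ℕ) : ℝ) := h3
      have h6 : ((X / (k ^ 2 * g ^ 2) : ℕ) : ℝ) ≤ X := by exact_mod_cast Nat.div_le_self _ _
      have h7 : ε / 8 * ((X / (k ^ 2 * g ^ 2) : ℕ) : ℝ) ≤ ε / 8 * X :=
        mul_le_mul_of_nonneg_left h6 (by positivity)
      rw [abs_of_pos (by norm_num : (0 : ℝ) < 4)]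
      have h8 : 0 < ε * X := by positivity
      linarith
    · simp only [if_neg h]
      exact tendsto_const_nhds
  · -- the bound
    refine Eventually.of_forall fun X => ?_
    rintro ⟨k, g⟩
    unfold tm6
    have hb : 0 ≤ 4 * CT * (1 / (k : ℝ) ^ 2 * (g : ℝ) ^ (-(3 / 2) : ℝ)) := by
      have := Real.rpow_nonneg (Nat.cast_nonneg g) (-(3 / 2) : ℝ)
      positivity
    split_ifs with h
    · simp only at h ⊢
      obtain ⟨hk, hg, hN⟩ := h
      rcases Nat.eq_zero_or_pos X with hX | hX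
      · rw [hX, Nat.zero_div, Xi6_zero, mul_zero, zero_div, norm_zero]
        exact hb
      · have hX0 : (0 : ℝ) < X := by exact_mod_cast hX
        have hk0 : (0 : ℝ) < k := by exact_mod_cast Nat.pos_of_ne_zero hk
        have hg0 : (0 : ℝ) < g := by exact_mod_cast Nat.pos_of_ne_zero hg
        rw [Real.norm_eq_abs, abs_div, abs_mul, abs_of_pos hX0, abs_of_pos (by norm_num : (0 : ℝ) < 4),
          div_le_iff₀ hX0]
        have h1 := Xi6_le htot g (X / (k ^ 2 * g ^ 2))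
        have h2 : ((X / (k ^ 2 * g ^ 2) : ℕ) : ℝ) ≤ X / ((k : ℝ) ^ 2 * (g : ℝ) ^ 2) := by
          refine Nat.cast_div_le.trans (le_of_eq ?_)
          push_cast
          rfl
        have h3 := two_pow_le hg hN
        calc 4 * |Xi6 g (X / (k ^ 2 * g ^ 2))| ≤
              4 * (2 ^ g.primeFactors.card * (CT * (X / ((k : ℝ) ^ 2 * (g : ℝ) ^ 2)))) := by
              refine mul_le_mul_of_nonneg_left (h1.trans ?_) (by norm_num)
              refine mul_le_mul_of_nonneg_left ?_ (by positivity)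
              exact mul_le_mul_of_nonneg_left h2 (by linarith)
          _ = 4 * CT * (1 / (k : ℝ) ^ 2 * (2 ^ g.primeFactors.card / (g : ℝ) ^ 2)) * X := by
              field_simp
          _ ≤ 4 * CT * (1 / (k : ℝ) ^ 2 * (g : ℝ) ^ (-(3 / 2) : ℝ)) * X := by
              gcongr
    · rw [norm_zero]
      exact hb

end Run7.h843.Cnt
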