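import Pool.Agent.Run7.h238.Half
import Pool.Agent.Run7.h843.C9

/-!
# Pairs with squarefree odd norm: reduction to sets of primes, positive density
-/

set_option autoImplicit false

open scoped Classical

namespace Run7.h843.Sqf

open Finset hiding mk
open Filter hiding mk
open Pool.Agent.R413.SQ (SS)
open Run7.h238.Pairs Run7.h238.WFew Run7.h238.PRep
open Run7.h238.Lim (two_pow_le)
open Run7.h843.Cnt

/-- the pairs with odd squarefree norm -/
noncomputable def QX (X : ℕ) : Finset (ℤ × ℤ) :=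
  (Bx X).filter fun v => nm v % 2 = 1 ∧ Squarefree (nm v)

theorem gc_sq_dvd {v : ℤ × ℤ} (h0 : nm v ≠ 0) : gc v ^ 2 ∣ nm v := by
  obtain ⟨w, -, hmu⟩ := exists_mu (gc_ne h0)
  exact ⟨nm w, by rw [← nm_mu, hmu]⟩

theorem QX_gc {v : ℤ × ℤ} (h : Squarefree (nm v)) : gc v = 1 := by
  have h1 := gc_sq_dvd h.ne_zero
  rw [sq] at h1
  exact Nat.isUnit_iff.1 (h _ h1)

theorem QX_pf {v : ℤ × ℤ} (h1 : nm v % 2 = 1) (h : Squarefree (nm v)) :
    ∀ p ∈ (nm v).primeFactors, p % 4 = 1 :=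
  pf_of_mem (Nat.odd_iff.2 h1) (z := ⟨v.1, v.2⟩) (mem_PR.2 ⟨rfl, QX_gc h⟩)

/-- the sum over the pairs with squarefree odd norm -/
theorem sum_QX (F : Finset ℕ → ℝ) (X : ℕ) :
    ∑ v ∈ QX X, F (nm v).primeFactors = 4 * ∑ S ∈ SS ∅ ∅ X, 2 ^ S.card * F S := by
  have hmaps : ∀ v ∈ QX X, (nm v).primeFactors ∈ SS ∅ ∅ X := by
    intro v hv
    unfold QX at hv
    rw [mem_filter, mem_Bx] at hv
    rw [mem_SS]
    refine ⟨fun p hp => ⟨Nat.prime_of_mem_primeFactors hp, QX_pf hv.2.1 hv.2.2 p hp⟩, ?_⟩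
    rw [Nat.prod_primeFactors_of_squarefree hv.2.2]
    exact hv.1
  rw [← sum_fiberwise_of_maps_to hmaps, mul_sum]
  refine sum_congr rfl fun S hS => ?_
  rw [mem_SS] at hS
  have hSp : ∀ p ∈ S, p.Prime := fun p hp => (hS.1 p hp).1
  have h1 : ∀ v ∈ (QX X).filter (fun v => (nm v).primeFactors = S),
      F (nm v).primeFactors = F S := by
    intro v hv
    rw [(mem_filter.1 hv).2]
  rw [sum_congr rfl h1, sum_const, nsmul_eq_mul]
  have hpf : (∏ p ∈ S, p).primeFactors = S := Nat.primeFactors_prod hSp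
  have hn0 : ∏ p ∈ S, p ≠ 0 := prod_ne hSp
  have hsq : Squarefree (∏ p ∈ S, p) := by
    refine Finset.squarefree_prod_of_pairwise_isCoprime (fun p hp q hq hpq => ?_)
      fun p hp => (hSp p hp).squarefree
    show IsRelPrime p q
    rw [← Nat.coprime_iff_isRelPrime]
    exact (Nat.coprime_primes (hSp p hp) (hSp q hq)).mpr hpq
  have hodd : (∏ p ∈ S, p) % 2 = 1 := by
    rw [← Nat.odd_iff]
    refine Finset.prod_induction _ Odd (fun a b ha hb => ha.mul hb) odd_one fun p hp => ?_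
    have := (hS.1 p hp).2
    rw [Nat.odd_iff]
    omega
  have h2 : (QX X).filter (fun v => (nm v).primeFactors = S) =
      (Bx (∏ p ∈ S, p)).filter fun w => nm w = ∏ p ∈ S, p ∧ gc w = 1 := by
    ext v
    unfold QX
    rw [mem_filter, mem_filter, mem_filter, mem_Bx, mem_Bx]
    constructor
    · rintro ⟨⟨h3, h4, h5⟩, h6⟩
      have h7 : nm v = ∏ p ∈ S, p := by
        rw [← h6, Nat.prod_primeFactors_of_squarefree h5]
      exact ⟨h7.le, h7, QX_gc h5⟩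
    · rintro ⟨-, h3, h4⟩
      rw [h3]
      exact ⟨⟨hS.2, hodd, hsq⟩, hpf⟩
  rw [h2, card_prim hn0 (by rw [hpf]; exact fun p hp => (hS.1 p hp).2), hpf]
  push_cast
  ring

theorem QX_card (X : ℕ) : ((QX X).card : ℝ) = 4 * wt (SS ∅ ∅ X) := by
  have h := sum_QX (fun _ => 1) X
  rw [sum_const, nsmul_eq_mul, mul_one] at h
  rw [h]
  unfold wt
  congr 1
  refine sum_congr rfl fun S _ => ?_
  rw [mul_one]

theorem wt_mono {X Y : ℕ} (h : X ≤ Y) : wt (SS ∅ ∅ X) ≤ wt (SS ∅ ∅ Y) := by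
  unfold wt
  refine sum_le_sum_of_subset_of_nonneg (fun S hS => ?_) fun S _ _ => by positivity
  rw [mem_SS] at hS ⊢
  exact ⟨hS.1, hS.2.trans h⟩

/-- **positive density** -/
theorem wt_ge : ∃ a : ℝ, 0 < a ∧ ∀ᶠ X : ℕ in atTop, a * X ≤ wt (SS ∅ ∅ X) := by
  obtain ⟨CT, hCT, htot⟩ := total Pool.Agent.Y488.CX.t_SIE Pool.Agent.Y405.CQ.t_MER ∅ ∅
  have har := Run7.h238.Disc.ar_pos
  have hs1 : Summable fun k : ℕ => 1 / (k : ℝ) ^ 2 := Real.summable_one_div_nat_pow.2 (by norm_num)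
  have hs2 : Summable fun g : ℕ => (g : ℝ) ^ (-(3 / 2) : ℝ) := Real.summable_nat_rpow.2 (by norm_num)
  have hs := (hs1.mul_of_nonneg hs2 (fun k => by positivity)
    (fun g => Real.rpow_nonneg (Nat.cast_nonneg g) _)).mul_left (4 * CT)
  set b : ℕ × ℕ → ℝ := fun e => 4 * CT * (1 / (e.1 : ℝ) ^ 2 * (e.2 : ℝ) ^ (-(3 / 2) : ℝ)) with hb
  have hb0 : ∀ e, 0 ≤ b e := by
    intro e
    have h1 := Real.rpow_nonneg (Nat.cast_nonneg (α := ℝ) e.2) (-(3 / 2) : ℝ)
    have h2 : (0 : ℝ) ≤ CT := by linarith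
    rw [hb]
    positivity
  obtain ⟨E, hE⟩ := summable_iff_vanishing_norm.1 hs (Run7.h238.Disc.ar / 6) (by positivity)
  set K : ℝ := ∑ e ∈ E, 4 * 2 ^ e.2.primeFactors.card + 1 with hK
  have hK0 : 0 < K := by
    have : 0 ≤ ∑ e ∈ E, 4 * (2 : ℝ) ^ e.2.primeFactors.card := sum_nonneg fun e _ => by positivity
    linarith
  refine ⟨Run7.h238.Disc.ar / (3 * K), by positivity, ?_⟩
  have h1 := Run7.h238.Half.CX_tendsto.eventually
    (lt_mem_nhds (show Run7.h238.Disc.ar / 2 < 2 / 3 * Run7.h238.Disc.ar by linarith))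
  filter_upwards [h1, eventually_ge_atTop 1] with X h2 h3
  have hX : (0 : ℝ) < X := by exact_mod_cast h3
  rw [lt_div_iff₀ hX] at h2
  have h4 := sum_pairs (fun _ => 1) X
  rw [sum_const, nsmul_eq_mul, mul_one] at h4
  -- the bound of a term
  have key : ∀ e : ℕ × ℕ, 4 * ∑ S ∈ SS ∅ ∅ (X / (e.1 ^ 2 * e.2 ^ 2)),
      2 ^ (S ∪ e.2.primeFactors).card * (1 : ℝ) ≤
      4 * 2 ^ e.2.primeFactors.card * wt (SS ∅ ∅ (X / (e.1 ^ 2 * e.2 ^ 2))) := by
    intro e
    unfold wt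
    rw [mul_assoc, mul_sum _ _ ((2 : ℝ) ^ _)]
    refine mul_le_mul_of_nonneg_left (sum_le_sum fun S _ => ?_) (by norm_num)
    rw [mul_one, ← pow_add]
    refine pow_le_pow_right₀ (by norm_num) ?_
    rw [add_comm]
    exact card_union_le _ _
  have h5 : ((CX X).card : ℝ) ≤ K * wt (SS ∅ ∅ X) + Run7.h238.Disc.ar / 6 * X := by
    rw [h4, ← sum_filter_add_sum_filter_not _ (fun e => e ∈ E)]
    refine add_le_add ?_ ?_
    · have hw0 : 0 ≤ wt (SS ∅ ∅ X) := sum_nonneg fun S _ => by positivity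
      refine (sum_le_sum fun e _ => key e).trans ?_
      have h6 : ∀ e ∈ ((Icc 1 X) ×ˢ ((Icc 1 X).filter N1)).filter (fun e => e ∈ E),
          4 * (2 : ℝ) ^ e.2.primeFactors.card * wt (SS ∅ ∅ (X / (e.1 ^ 2 * e.2 ^ 2))) ≤
          4 * (2 : ℝ) ^ e.2.primeFactors.card * wt (SS ∅ ∅ X) := fun e _ =>
        mul_le_mul_of_nonneg_left (wt_mono (Nat.div_le_self _ _)) (by positivity)
      refine (sum_le_sum h6).trans ?_
      rw [← sum_mul]
      refine mul_le_mul_of_nonneg_right ?_ hw0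
      have h7 : ∑ e ∈ ((Icc 1 X) ×ˢ ((Icc 1 X).filter N1)).filter (fun e => e ∈ E),
          4 * (2 : ℝ) ^ e.2.primeFactors.card ≤ ∑ e ∈ E, 4 * (2 : ℝ) ^ e.2.primeFactors.card :=
        sum_le_sum_of_subset_of_nonneg (fun e he => (mem_filter.1 he).2) fun e _ _ => by positivity
      linarith
    · have h6 : ∀ e ∈ ((Icc 1 X) ×ˢ ((Icc 1 X).filter N1)).filter (fun e => ¬ e ∈ E),
          4 * ∑ S ∈ SS ∅ ∅ (X / (e.1 ^ 2 * e.2 ^ 2)),
            2 ^ (S ∪ e.2.primeFactors).card * (1 : ℝ) ≤ b e * X := by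
        intro e he
        rw [mem_filter, mem_product, mem_filter, mem_Icc, mem_Icc] at he
        obtain ⟨⟨⟨hk1, -⟩, ⟨hg1, -⟩, hN⟩, -⟩ := he
        refine (key e).trans ?_
        have hk0 : (0 : ℝ) < e.1 := by exact_mod_cast hk1
        have hg0 : (0 : ℝ) < e.2 := by exact_mod_cast hg1
        have h8 := htot (X / (e.1 ^ 2 * e.2 ^ 2))
        have h9 : ((X / (e.1 ^ 2 * e.2 ^ 2) : ℕ) : ℝ) ≤ X / ((e.1 : ℝ) ^ 2 * (e.2 : ℝ) ^ 2) := by
          refine Nat.cast_div_le.trans (le_of_eq ?_)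
          push_cast
          rfl
        have h10 := two_pow_le (by omega : e.2 ≠ 0) hN
        calc 4 * (2 : ℝ) ^ e.2.primeFactors.card * wt (SS ∅ ∅ (X / (e.1 ^ 2 * e.2 ^ 2))) ≤
              4 * (2 ^ e.2.primeFactors.card * (CT * (X / ((e.1 : ℝ) ^ 2 * (e.2 : ℝ) ^ 2)))) := by
              rw [mul_assoc]
              refine mul_le_mul_of_nonneg_left ?_ (by norm_num)
              refine mul_le_mul_of_nonneg_left (h8.trans ?_) (by positivity)
              exact mul_le_mul_of_nonneg_left h9 (by linarith)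
          _ = 4 * CT * (1 / (e.1 : ℝ) ^ 2 * (2 ^ e.2.primeFactors.card / (e.2 : ℝ) ^ 2)) * X := by
              field_simp
          _ ≤ 4 * CT * (1 / (e.1 : ℝ) ^ 2 * (e.2 : ℝ) ^ (-(3 / 2) : ℝ)) * X := by
              gcongr
      refine (sum_le_sum h6).trans ?_
      rw [← sum_mul]
      refine mul_le_mul_of_nonneg_right ?_ hX.le
      have h7 := hE (((Icc 1 X) ×ˢ ((Icc 1 X).filter N1)).filter (fun e => ¬ e ∈ E)) (by
        rw [Finset.disjoint_left]
        intro e he hE'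
        exact (mem_filter.1 he).2 hE')
      exact ((le_abs_self _).trans h7.le)
  have h6 : Run7.h238.Disc.ar / 3 * X ≤ K * wt (SS ∅ ∅ X) := by linarith
  rw [div_mul_eq_mul_div, div_le_iff₀ (by positivity)]
  linarith

end Run7.h843.Sqf
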