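import Pool.Agent.Run7.h843.F3
import Pool.Agent.Run7.h843.K1

/-!
# The proportion among the pairs of odd integers with squarefree `u² + v²`
-/

set_option autoImplicit false

open scoped Classical

namespace Run7.h843.Sqf

open Finset hiding mk
open Filter hiding mk
open Pool.Agent.R413.SQ (SS)
open Pool.Agent.Y703.CQ (c2)
open Run7.h238.Pairs Run7.h238.WFew
open Run7.h843.Cnt Run7.h843.Fin

/-- **the ratio over the pairs with odd squarefree norm** -/
theorem QX_good : Tendsto (fun X : ℕ => (((QX X).filter fun v => Gd6 (nm v).primeFactors).card : ℝ) /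
    ((QX X).card : ℝ)) atTop (nhds c2) := by
  obtain ⟨a, ha, hW⟩ := wt_ge
  rw [Metric.tendsto_nhds]
  intro ε hε
  have h1 := law_G6 ∅ (a * (ε / 2)) (by positivity)
  filter_upwards [h1, hW, eventually_ge_atTop 1] with X h2 h3 h4
  have hX : (0 : ℝ) < X := by exact_mod_cast h4
  have hw : 0 < wt (SS ∅ ∅ X) := lt_of_lt_of_le (by positivity) h3
  have h5 := QX_card X
  have h6 : (0 : ℝ) < ((QX X).card : ℝ) := by
    rw [h5]
    positivity
  have h7 : (((QX X).filter fun v => Gd6 (nm v).primeFactors).card : ℝ) - c2 * ((QX X).card : ℝ) =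
      4 * ∑ S ∈ SS ∅ ∅ X, 2 ^ S.card * dv6 S := by
    rw [← sum_QX dv6 X]
    unfold dv6
    rw [sum_sub_distrib, sum_const, nsmul_eq_mul, mul_comm ((QX X).card : ℝ)]
    congr 1
    rw [Finset.card_filter]
    push_cast
    rfl
  simp only [union_empty] at h2
  rw [Real.dist_eq, div_sub' h6.ne', abs_div, abs_of_pos h6, div_lt_iff₀ h6,
    mul_comm ((QX X).card : ℝ) c2, h7, h5, abs_mul, abs_of_pos (by norm_num : (0 : ℝ) < 4)]
  have h8 : a * (ε / 2) * X ≤ ε / 2 * wt (SS ∅ ∅ X) := by
    calc a * (ε / 2) * X = ε / 2 * (a * X) := by ring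
      _ ≤ _ := mul_le_mul_of_nonneg_left h3 (by positivity)
  have h9 : 0 < ε * wt (SS ∅ ∅ X) := by positivity
  linarith

/-- the pairs of odd integers with squarefree `u² + v²` -/
noncomputable def WX (X : ℕ) : Finset (ℤ × ℤ) :=
  (Bx X).filter fun v => (Odd v.1 ∧ Odd v.2) ∧ Squarefree (nm v)

theorem WX_card (Q : ℕ → Prop) (X : ℕ) : ((WX X).filter fun v => Q (nm v)).card =
    ((QX (X / 2)).filter fun v => Q (2 * nm v)).card := by
  have h1 := UX_card (fun n => Squarefree n ∧ Q n) X
  have h2 : ((WX X).filter fun v => Q (nm v)) =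
      (UX X).filter fun v => Squarefree (nm v) ∧ Q (nm v) := by
    unfold WX UX
    rw [filter_filter, filter_filter]
    refine filter_congr fun v _ => ?_
    tauto
  have h3 : ((QX (X / 2)).filter fun v => Q (2 * nm v)) =
      (OX (X / 2)).filter fun v => Squarefree (2 * nm v) ∧ Q (2 * nm v) := by
    unfold QX OX
    rw [filter_filter, filter_filter]
    refine filter_congr fun v _ => ?_
    constructor
    · rintro ⟨⟨h4, h5⟩, h6⟩
      refine ⟨h4, ?_, h6⟩
      rw [Nat.squarefree_mul_iff]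
      exact ⟨Nat.coprime_two_left.2 (Nat.odd_iff.2 h4), Nat.prime_two.squarefree, h5⟩
    · rintro ⟨h4, h5, h6⟩
      exact ⟨⟨h4, (Nat.squarefree_mul_iff.1 h5).2.2⟩, h6⟩
  rw [h2, h3]
  convert h1

end Run7.h843.Sqf
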