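import Pool.Agent.Run7.h843.Q4
import Pool.Agent.Run7.h843.K2

/-!
# The final theorem for the quartic twists `y² = x³ + (u² + v²) x`, from the analytic input
-/

set_option autoImplicit false

open Filter Topology

namespace Run7.h843.T8

open Classical in
/-- The rank form of the conjecture for `y² = x³ + a x + b`, with rank zero: the incomplete Euler product
over the primes `p ∤ 2Δ` extends to an entire function `F` with `ord_{s=1} F = 0 = rank`. -/
def RankFormZero (a b : ℤ) : Prop :=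
  ∃ F : ℂ → ℂ, Differentiable ℂ F ∧
    (∀ s : ℂ, (3 : ℝ) / 2 < s.re →
      HasProd
        (fun p : ℕ =>
          if p.Prime ∧ ¬ ((p : ℤ) ∣ 2 * (-4 * a ^ 3 - 27 * b ^ 2)) then
            (1 - ((p : ℂ) - (Nat.card {q : ZMod p × ZMod p //
                q.2 ^ 2 = q.1 ^ 3 + (a : ZMod p) * q.1 + (b : ZMod p)} : ℂ))
                * (p : ℂ) ^ (-s) + (p : ℂ) ^ (1 - 2 * s))⁻¹
          else 1)
        (F s)) ∧
    analyticOrderAt F 1 = 0 ∧
    Module.finrank ℤ
      (WeierstrassCurve.Affine.Point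
        (WeierstrassCurve.toAffine
          ({ a₁ := 0, a₂ := 0, a₃ := 0, a₄ := (a : ℚ), a₆ := (b : ℚ) } :
            WeierstrassCurve ℚ))) = 0

/-- The criterion for `N = 2 m`: if `2 d e = N`, `2 e` is a square modulo each prime divisor
of `d` and `d` is a square modulo each prime divisor of `e`, then `d = 1`. -/
def Criterion (N : ℕ) : Prop := ∀ d e : ℕ, 2 * (d * e) = N →
  (∀ p : ℕ, p.Prime → p ∣ d → IsSquare ((2 * e : ℕ) : ZMod p)) →
  (∀ p : ℕ, p.Prime → p ∣ e → IsSquare ((d : ℕ) : ZMod p)) → d = 1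

/-- the number of the pairs `(u, v)` of odd integers with squarefree `u² + v² ≤ X` such that
`u² + v²` has the property `Q` -/
noncomputable def num (Q : ℕ → Prop) (X : ℕ) : ℕ :=
  Nat.card {v : ℤ × ℤ // Odd v.1 ∧ Odd v.2 ∧ v.1 ^ 2 + v.2 ^ 2 ≤ (X : ℤ) ∧
    Squarefree (v.1 ^ 2 + v.2 ^ 2) ∧ Q (v.1 ^ 2 + v.2 ^ 2).toNat}

/-- the constant `0.4194...` -/
noncomputable def c : ℝ := ∏' i : ℕ, (1 - (1 / 2 : ℝ) ^ (2 * i + 1))

open Run7.h238.Pairs Run7.h843.Fin Run7.h843.Sqf Run7.h843.Quart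
open Run7.h843.Cnt (Gd6)

theorem toNat_eq (v : ℤ × ℤ) : (v.1 ^ 2 + v.2 ^ 2).toNat = nm v := by
  rw [← Run7.h238.Half.nm_int, Int.toNat_natCast]

theorem le_iff (v : ℤ × ℤ) (X : ℕ) : v.1 ^ 2 + v.2 ^ 2 ≤ (X : ℤ) ↔ v ∈ Bx X := by
  rw [mem_Bx, ← Run7.h238.Half.nm_int]
  exact Nat.cast_le

theorem sq_iff (v : ℤ × ℤ) : Squarefree (v.1 ^ 2 + v.2 ^ 2) ↔ Squarefree (nm v) := by
  rw [← Run7.h238.Half.nm_int]
  exact Int.squarefree_natCast

open Classical in
theorem num_eq (Q : ℕ → Prop) (X : ℕ) : num Q X = ((WX X).filter fun v => Q (nm v)).card := by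
  unfold num
  refine Nat.subtype_card _ fun v => ?_
  unfold WX
  rw [Finset.mem_filter, Finset.mem_filter, le_iff, toNat_eq, sq_iff]
  tauto

open Classical in
theorem num_mono {Q Q' : ℕ → Prop} {X : ℕ} (h : ∀ v ∈ WX X, Q (nm v) → Q' (nm v)) :
    num Q X ≤ num Q' X := by
  rw [num_eq, num_eq]
  refine Finset.card_le_card fun v hv => ?_
  rw [Finset.mem_filter] at hv ⊢
  exact ⟨hv.1, h v hv.1 hv.2⟩

/-- the half of the norm -/
theorem half_data {v : ℤ × ℤ} (h1 : Odd v.1) (h2 : Odd v.2) (h3 : Squarefree (nm v)) :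
    ∃ w : ℤ × ℤ, nm v = 2 * nm w ∧ nm w % 2 = 1 ∧ Squarefree (nm w) := by
  rw [Int.odd_iff] at h1 h2
  have h8 : Run7.h238.Half.rho ((v.1 + v.2) / 2, (v.2 - v.1) / 2) = v := by
    unfold Run7.h238.Half.rho
    exact Prod.ext (by simp only; omega) (by simp only; omega)
  have h9 := Run7.h238.Half.nm_rho ((v.1 + v.2) / 2, (v.2 - v.1) / 2)
  rw [h8] at h9
  refine ⟨((v.1 + v.2) / 2, (v.2 - v.1) / 2), h9, ?_, ?_⟩
  · obtain ⟨k, hk⟩ : ∃ k, v.1 = 2 * k + 1 := ⟨v.1 / 2, by omega⟩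
    obtain ⟨l, hl⟩ : ∃ l, v.2 = 2 * l + 1 := ⟨v.2 / 2, by omega⟩
    have h10 := Run7.h238.Half.nm_int ((v.1 + v.2) / 2, (v.2 - v.1) / 2)
    have e1 : (v.1 + v.2) / 2 = k + l + 1 := by omega
    have e2 : (v.2 - v.1) / 2 = l - k := by omega
    simp only at h10
    rw [e1, e2] at h10
    have e3 : (k + l + 1) ^ 2 + (l - k) ^ 2 = 2 * (k ^ 2 + l ^ 2 + k + l) + 1 := by ring
    rw [e3] at h10
    rw [e1, e2]
    omega
  · rw [h9] at h3
    exact h3.of_mul_right

theorem crit_iff {v : ℤ × ℤ} (h : nm v % 2 = 1) (h2 : Squarefree (nm v)) :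
    Criterion (2 * nm v) ↔ Gd6 (nm v).primeFactors := by
  rw [cri_iff h2 (QX_pf h h2)]
  unfold Criterion Cri
  constructor
  · intro hc d e hde
    exact hc d e (by rw [hde])
  · intro hc d e hde
    exact hc d e (by omega)

/-- **the final theorem** from the analytic input -/
theorem main (hA : Ana4) :
    (∀ u v : ℤ, Odd u → Odd v → Squarefree (u ^ 2 + v ^ 2) → Criterion (u ^ 2 + v ^ 2).toNat →
      (∀ x y : ℚ, y ^ 2 = x ^ 3 + ((u : ℚ) ^ 2 + (v : ℚ) ^ 2) * x → x = 0 ∧ y = 0) ∧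
        RankFormZero (u ^ 2 + v ^ 2) 0) ∧
    Tendsto (fun X : ℕ => (num Criterion X : ℝ) / (num (fun _ => True) X : ℝ)) atTop (𝓝 c) ∧
    0.4194 < c ∧ c < 0.4195 ∧
    (∃ a : ℝ, 0 < a ∧ ∀ᶠ X : ℕ in atTop, a * X ≤ (num (fun _ => True) X : ℝ)) ∧
    ∀ᶠ X : ℕ in atTop, 0.4194 * (num (fun _ => True) X : ℝ) ≤
      (num (fun N => RankFormZero (N : ℤ) 0) X : ℝ) := by
  classical
  have hc1 : 0.4194 < c := Pool.Agent.Y948.CQ.t_C2.2.2.2.1
  have hc2 : c < 0.4195 := Pool.Agent.Y948.CQ.t_C2.2.2.2.2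
  have h1 : ∀ u v : ℤ, Odd u → Odd v → Squarefree (u ^ 2 + v ^ 2) →
      Criterion (u ^ 2 + v ^ 2).toNat →
      (∀ x y : ℚ, y ^ 2 = x ^ 3 + ((u : ℚ) ^ 2 + (v : ℚ) ^ 2) * x → x = 0 ∧ y = 0) ∧
        RankFormZero (u ^ 2 + v ^ 2) 0 := by
    intro u v hu hv hs hc
    obtain ⟨w, h2, h3, h3s⟩ := half_data (v := (u, v)) hu hv ((sq_iff (u, v)).1 hs)
    have h4 := toNat_eq (u, v)
    simp only at h4
    rw [h4, h2, crit_iff h3 h3s] at hc
    have hk : Run7.h843.Desc.Nsg (nm w) := hc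
    have h5 := QX_pf h3 h3s
    have h6 : u ^ 2 + v ^ 2 = 2 * (nm w : ℤ) := by
      have h7 : ((nm (u, v) : ℕ) : ℤ) = u ^ 2 + v ^ 2 := Run7.h238.Half.nm_int (u, v)
      rw [← h7, h2]
      push_cast
      ring
    refine ⟨fun x y hxy => ?_, ?_⟩
    · have h7 : ((u : ℚ) ^ 2 + (v : ℚ) ^ 2) = 2 * (nm w : ℚ) := by exact_mod_cast h6
      rw [h7] at hxy
      have hy := no_points4 h3s h5 hk hxy
      refine ⟨?_, hy⟩
      rw [hy] at hxy
      have hmp : (0 : ℚ) < nm w := by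
        have : 0 < nm w := Nat.pos_of_ne_zero h3s.ne_zero
        exact_mod_cast this
      have h8 : x * (x ^ 2 + 2 * nm w) = 0 := by linear_combination -hxy
      rcases mul_eq_zero.1 h8 with h9 | h9
      · exact h9
      · have : (0 : ℚ) < x ^ 2 + 2 * nm w := by positivity
        exact absurd h9 this.ne'
    · rw [h6]
      exact rank4 hA h3s h5 hk
  have hall : ∀ X : ℕ, num (fun _ => True) X = (QX (X / 2)).card := by
    intro X
    have h2 := WX_card (fun _ => True) X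
    rw [num_eq]
    rw [Finset.filter_true, Finset.filter_true] at h2
    rw [Finset.filter_true]
    exact h2
  have hgood : ∀ X : ℕ, num Criterion X =
      ((QX (X / 2)).filter fun v => Gd6 (nm v).primeFactors).card := by
    intro X
    rw [num_eq, WX_card]
    congr 1
    refine Finset.filter_congr fun v hv => ?_
    unfold QX at hv
    rw [Finset.mem_filter] at hv
    exact crit_iff hv.2.1 hv.2.2
  have hdiv : Tendsto (fun X : ℕ => X / 2) atTop atTop := Nat.tendsto_div_const_atTop two_ne_zero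
  have h2 : Tendsto (fun X : ℕ => (num Criterion X : ℝ) / (num (fun _ => True) X : ℝ)) atTop
      (𝓝 c) := by
    have h3 := QX_good.comp hdiv
    refine h3.congr fun X => ?_
    simp only [Function.comp]
    rw [hall, hgood]
  have hpos : ∃ a : ℝ, 0 < a ∧ ∀ᶠ X : ℕ in atTop, a * X ≤ (num (fun _ => True) X : ℝ) := by
    obtain ⟨a, ha, hw⟩ := wt_ge
    refine ⟨a, ha, ?_⟩
    have h3 := hdiv.eventually hw
    filter_upwards [h3, eventually_ge_atTop 4] with X h4 h5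
    rw [hall, QX_card]
    have h6 : (X : ℝ) ≤ 4 * ((X / 2 : ℕ) : ℝ) := by
      have : X ≤ 4 * (X / 2) := by omega
      exact_mod_cast this
    nlinarith
  refine ⟨h1, h2, hc1, hc2, hpos, ?_⟩
  obtain ⟨a, ha, hw⟩ := hpos
  have h3 := h2.eventually (lt_mem_nhds hc1)
  filter_upwards [h3, hw, eventually_ge_atTop 1] with X h5 h6 h7
  have hX0 : (0 : ℝ) < X := by exact_mod_cast h7
  have h8 : (0 : ℝ) < (num (fun _ => True) X : ℝ) := lt_of_lt_of_le (by positivity) h6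
  have h9 := (lt_div_iff₀ h8).1 h5
  have h10 : num Criterion X ≤ num (fun N => RankFormZero (N : ℤ) 0) X := by
    refine num_mono fun v hv hc => ?_
    unfold WX at hv
    rw [Finset.mem_filter] at hv
    have h11 := (h1 v.1 v.2 hv.2.1.1 hv.2.1.2 ((sq_iff v).2 hv.2.2) (by rw [toNat_eq]; exact hc)).2
    rw [← Run7.h238.Half.nm_int] at h11
    exact h11
  have h11 : (num Criterion X : ℝ) ≤ (num (fun N => RankFormZero (N : ℤ) 0) X : ℝ) := by
    exact_mod_cast h10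
  linarith

end Run7.h843.T8
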