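import Pool.Agent.Run7.h843.F1
import Pool.Agent.Run7.h238.Scale
import Pool.Agent.Y19.QT.Forms

/-!
# The rank form for the congruent number curves
-/

set_option autoImplicit false

namespace Run7.h843.Fin

open Finset
open Pool.Agent.Y703.CQ (nr)
open Run7.h843.Desc
open Run7.h843.Cnt (Gd6)
open Run7.h238.Pairs
open Pool.Agent.Y687 (RankBSD finrank_zero_of_finite finite_pt_of_set)
open Pool.Agent.Y19.QT (IsLFun)

/-- the numbers `n` whose odd-exponent primes are `1` modulo `4` -/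
structure Okn (n : ℕ) : Prop where
  ne : n ≠ 0
  pr : ∀ p ∈ oddP n, p % 4 = 1

theorem okn {v : ℤ × ℤ} (h0 : nm v ≠ 0) (h2 : 2 ∉ oddP (nm v)) : Okn (nm v) := by
  obtain ⟨w, -, -, -, -, -, h⟩ := data h0 h2
  exact ⟨h0, fun p hp => (h p hp).2⟩

theorem four {n : ℕ} (h : Okn n) : ∀ p ∈ (sf n).primeFactors, p % 4 = 1 := by
  intro p hp
  rw [sf_pf] at hp
  exact h.pr p hp

/-- the rational points for a good number -/
theorem pts {m : ℕ} (hm : Squarefree m) (h1 : ∀ p ∈ m.primeFactors, p % 4 = 1) (hk : Nsg m) :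
    {q : ℚ × ℚ | q.2 ^ 2 = q.1 ^ 3 + ((-4 * (m : ℤ) ^ 2 : ℤ) : ℚ) * q.1 + ((0 : ℤ) : ℚ)}.Finite := by
  refine Set.Finite.subset (Set.toFinite {((0 : ℚ), (0 : ℚ)), (2 * (m : ℚ), (0 : ℚ)),
    (-(2 * (m : ℚ)), (0 : ℚ))}) ?_
  rintro ⟨x, y⟩ hq
  have hq' : y ^ 2 = x ^ 3 + ((-4 * (m : ℤ) ^ 2 : ℤ) : ℚ) * x + ((0 : ℤ) : ℚ) := hq
  push_cast at hq'
  have h : y ^ 2 = x ^ 3 - 4 * (m : ℚ) ^ 2 * x := by linear_combination hq'
  have hy := no_points hm h1 hk h
  rw [hy] at h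
  have h3 : x * ((x - 2 * m) * (x + 2 * m)) = 0 := by linear_combination -h
  rcases mul_eq_zero.1 h3 with h4 | h4
  · rw [h4, hy]
    simp
  · rcases mul_eq_zero.1 h4 with h5 | h5
    · have : x = 2 * m := by linear_combination h5
      rw [this, hy]
      simp
    · have : x = -(2 * m) := by linear_combination h5
      rw [this, hy]
      simp

/-- the analytic input -/
def Ana : Prop := ∀ m : ℕ, Squarefree m → (∀ p ∈ m.primeFactors, p % 4 = 1) →
  (∀ x : ℕ → ZMod 2, (∀ p ∈ m.primeFactors,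
    ∑ q ∈ m.primeFactors, nr p q * (x q + x p) + f2 p * x p = 0) →
      ∀ p ∈ m.primeFactors, x p = 0) →
  ∃ F : ℂ → ℂ, Differentiable ℂ F ∧ F 1 ≠ 0 ∧ IsLFun (-4 * (m : ℤ) ^ 2) 0 F

theorem rank_m (hA : Ana) {m : ℕ} (hm : Squarefree m) (h1 : ∀ p ∈ m.primeFactors, p % 4 = 1)
    (hk : Nsg m) : RankBSD (-4 * (m : ℤ) ^ 2) 0 := by
  classical
  obtain ⟨F, hF, hF1, hL⟩ := hA m hm h1 hk
  refine ⟨F, hF, ?_, ?_, ?_⟩
  · intro s hs
    have := hL.2 s hs
    refine (congrArg (fun g => HasProd g (F s)) (funext fun p => ?_)).mp this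
    congr
  · exact (hF.analyticAt 1).analyticOrderAt_eq_zero.2 hF1
  · exact finrank_zero_of_finite (finite_pt_of_set (pts hm h1 hk))

theorem rank_n (hA : Ana) {n : ℕ} (h : Okn n) (hG : Gd6 (oddP n)) :
    RankBSD (-4 * (n : ℤ) ^ 2) 0 := by
  obtain ⟨h1, h2⟩ := decomp h.ne
  have hk : Nsg (sf n) := by
    have : Gd6 (sf n).primeFactors := by rw [sf_pf]; exact hG
    exact this
  have h3 := rank_m hA sf_sq (four h) hk
  have h4 := Run7.h238.Scale.scale (t := (gg n : ℤ)) (by exact_mod_cast h1) h3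
    (pts sf_sq (four h) hk)
  have h6 : (n : ℤ) = (gg n : ℤ) ^ 2 * (sf n : ℤ) := by exact_mod_cast h2
  have e1 : -4 * (sf n : ℤ) ^ 2 * (gg n : ℤ) ^ 4 = -4 * (n : ℤ) ^ 2 := by
    rw [h6]
    ring
  rw [e1, zero_mul] at h4
  exact h4

/-- the rational points on the curve of `n` -/
theorem no_points_n {n : ℕ} (h : Okn n) (hG : Gd6 (oddP n)) {x y : ℚ}
    (hxy : y ^ 2 = x ^ 3 - (2 * n) ^ 2 * x) : y = 0 := by
  obtain ⟨h1, h2⟩ := decomp h.ne
  have hk : Nsg (sf n) := by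
    have : Gd6 (sf n).primeFactors := by rw [sf_pf]; exact hG
    exact this
  have hg : (gg n : ℚ) ≠ 0 := by exact_mod_cast h1
  have h6 : (n : ℚ) = (gg n : ℚ) ^ 2 * (sf n : ℚ) := by exact_mod_cast h2
  have h3 : (y / (gg n : ℚ) ^ 3) ^ 2 =
      (x / (gg n : ℚ) ^ 2) ^ 3 - 4 * (sf n : ℚ) ^ 2 * (x / (gg n : ℚ) ^ 2) := by
    rw [div_pow, hxy, h6]
    field_simp
    ring
  have h4 := no_points sf_sq (four h) hk h3
  rcases div_eq_zero_iff.1 h4 with h5 | h5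
  · exact h5
  · exact absurd h5 (pow_ne_zero 3 hg)

/-- `2 n` is not a congruent number -/
theorem not_congruent {n : ℕ} (h : Okn n) (hG : Gd6 (oddP n)) :
    ¬ ∃ a b c : ℚ, a ^ 2 + b ^ 2 = c ^ 2 ∧ a * b / 2 = 2 * n := by
  rintro ⟨a, b, c, h1, h2⟩
  have hn : (n : ℚ) ≠ 0 := by exact_mod_cast h.ne
  have hab : a * b = 4 * n := by linear_combination 2 * h2
  have ha : a ≠ 0 := by
    rintro rfl
    apply hn
    linear_combination -(1 / 4) * hab
  have e : (c * (a ^ 2 - b ^ 2) / 8) ^ 2 = ((c / 2) ^ 2) ^ 3 - (2 * n) ^ 2 * ((c / 2) ^ 2) := by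
    have hn2 : (n : ℚ) = a * b / 4 := by linear_combination -(1 / 4) * hab
    rw [hn2]
    linear_combination c ^ 2 / 64 * (a ^ 2 + b ^ 2 + c ^ 2) * h1
  have h3 := no_points_n h hG e
  have hc : c ≠ 0 := by
    rintro rfl
    have : a ^ 2 = 0 := by nlinarith [sq_nonneg a, sq_nonneg b]
    exact ha (by simpa using this)
  have h4 : a ^ 2 = b ^ 2 := by
    rcases div_eq_zero_iff.1 h3 with h5 | h5
    · rcases mul_eq_zero.1 h5 with h6 | h6
      · exact absurd h6 hc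
      · linear_combination h6
    · norm_num at h5
  have h5 : 2 = (c / a) ^ 2 := by
    rw [div_pow, ← h1, ← h4]
    field_simp
    norm_num
  have h6 : IsSquare ((2 : ℤ) : ℚ) := ⟨c / a, by push_cast; rw [← sq]; exact h5⟩
  rw [Rat.isSquare_intCast_iff] at h6
  obtain ⟨r, hr⟩ := h6
  have h7 : r.natAbs * r.natAbs = 2 := by
    have := congrArg Int.natAbs hr
    rw [Int.natAbs_mul] at this
    exact this.symm
  have h8 : r.natAbs ≤ 1 := by
    by_contra hc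
    have : 2 ≤ r.natAbs := by omega
    nlinarith
  interval_cases r.natAbs <;> omega

end Run7.h843.Fin
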