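import Pool.Agent.Run7.h843.Q3
import Pool.Agent.Run7.h843.F2

/-!
# The rank form for `y² = x³ + 2 m x` from the analytic input
-/

set_option autoImplicit false

namespace Run7.h843.Quart

open Finset
open Run7.h843.Desc
open Pool.Agent.Y687 (RankBSD finrank_zero_of_finite finite_pt_of_set)
open Pool.Agent.Y19.QT (IsLFun)

/-- the rational points for a good number -/
theorem pts4 {m : ℕ} (hm : Squarefree m) (h1 : ∀ p ∈ m.primeFactors, p % 4 = 1) (hk : Nsg m) :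
    {q : ℚ × ℚ | q.2 ^ 2 = q.1 ^ 3 + ((2 * (m : ℤ) : ℤ) : ℚ) * q.1 + ((0 : ℤ) : ℚ)}.Finite := by
  refine Set.Finite.subset (Set.toFinite {((0 : ℚ), (0 : ℚ))}) ?_
  rintro ⟨x, y⟩ hq
  have hq' : y ^ 2 = x ^ 3 + ((2 * (m : ℤ) : ℤ) : ℚ) * x + ((0 : ℤ) : ℚ) := hq
  push_cast at hq'
  have h : y ^ 2 = x ^ 3 + 2 * (m : ℚ) * x := by linear_combination hq'
  have hy := no_points4 hm h1 hk h
  rw [hy] at h
  have hmp : (0 : ℚ) < m := by
    have : 0 < m := Nat.pos_of_ne_zero hm.ne_zero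
    exact_mod_cast this
  have h3 : x * (x ^ 2 + 2 * m) = 0 := by linear_combination -h
  rcases mul_eq_zero.1 h3 with h4 | h4
  · rw [h4, hy]
    simp
  · have : (0 : ℚ) < x ^ 2 + 2 * m := by positivity
    exact absurd h4 this.ne'

/-- the analytic input -/
def Ana4 : Prop := ∀ m : ℕ, Squarefree m → (∀ p ∈ m.primeFactors, p % 4 = 1) → Nsg m →
  ∃ F : ℂ → ℂ, Differentiable ℂ F ∧ F 1 ≠ 0 ∧ IsLFun (2 * (m : ℤ)) 0 F

theorem rank4 (hA : Ana4) {m : ℕ} (hm : Squarefree m) (h1 : ∀ p ∈ m.primeFactors, p % 4 = 1)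
    (hk : Nsg m) : RankBSD (2 * (m : ℤ)) 0 := by
  classical
  obtain ⟨F, hF, hF1, hL⟩ := hA m hm h1 hk
  refine ⟨F, hF, ?_, ?_, ?_⟩
  · intro s hs
    have := hL.2 s hs
    refine (congrArg (fun g => HasProd g (F s)) (funext fun p => ?_)).mp this
    congr
  · exact (hF.analyticAt 1).analyticOrderAt_eq_zero.2 hF1
  · exact finrank_zero_of_finite (finite_pt_of_set (pts4 hm h1 hk))

end Run7.h843.Quart
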