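import Pool.Agent.Run7.h843.B4

/-!
# The two descent maps for `y² = x³ + 2 m x` and `y² = x³ - 8 m x`
-/

set_option autoImplicit false

namespace Run7.h843.Quart

open Pool.Agent.Y703.CQ (nr)
open Run7.h843.Desc

/-- integral representation of a rational point on `y² = x³ + A x` -/
theorem rep4 (A : ℤ) {x y : ℚ} (hy : y ≠ 0) (h : y ^ 2 = x ^ 3 + A * x) :
    ∃ X Z Y : ℤ, Z ≠ 0 ∧ x = X / (Z : ℚ) ^ 2 ∧ IsCoprime X Z ∧ X ≠ 0 ∧
      X ^ 2 + A * Z ^ 4 ≠ 0 ∧ X * (X ^ 2 + A * Z ^ 4) = Y ^ 2 := by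
  set a : ℤ := x.num with ha
  set b : ℤ := (x.den : ℤ) with hb
  have hb0 : b ≠ 0 := by
    rw [hb]
    exact_mod_cast x.den_nz
  have hbq : (b : ℚ) ≠ 0 := by exact_mod_cast hb0
  have hx : x = a / b := by
    rw [ha, hb, Int.cast_natCast]
    exact (Rat.num_div_den x).symm
  have hco : IsCoprime a b := by
    rw [Int.isCoprime_iff_nat_coprime, hb, Int.natAbs_natCast]
    exact x.reduced
  have hsq : IsSquare ((b * (a * (a ^ 2 + A * b ^ 2)) : ℤ) : ℚ) := by
    refine ⟨y * b ^ 2, ?_⟩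
    have e : (y * b ^ 2) * (y * b ^ 2) = y ^ 2 * (b : ℚ) ^ 4 := by ring
    rw [e, h, hx]
    push_cast
    field_simp
  rw [Rat.isSquare_intCast_iff] at hsq
  obtain ⟨W, hW⟩ := hsq
  have hco2 : IsCoprime b (a * (a ^ 2 + A * b ^ 2)) := by
    have h1 : IsCoprime b a := hco.symm
    have h2 : IsCoprime b (a ^ 2 + A * b ^ 2) := by
      have := (h1.pow_right (n := 2)).add_mul_left_right (A * b)
      have e : a ^ 2 + b * (A * b) = a ^ 2 + A * b ^ 2 := by ring
      rwa [e] at this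
    exact h1.mul_right h2
  obtain ⟨Z, hZ⟩ := Int.sq_of_isCoprime hco2 (by rw [hW, sq])
  have hbpos : 0 < b := by
    rw [hb]
    exact_mod_cast x.den_pos
  have hbZ : b = Z ^ 2 := by
    rcases hZ with hZ | hZ
    · exact hZ
    · have := sq_nonneg Z
      omega
  have hZ0 : Z ≠ 0 := by
    rintro rfl
    rw [hbZ] at hb0
    simp at hb0
  have hZq : (Z : ℚ) ≠ 0 := by exact_mod_cast hZ0
  have hxZ : x = a / (Z : ℚ) ^ 2 := by
    rw [hx, hbZ]
    push_cast
    rfl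
  have hprod : ((a * (a ^ 2 + A * Z ^ 4) : ℤ) : ℚ) = (y * Z ^ 3) ^ 2 := by
    have e : (y * (Z : ℚ) ^ 3) ^ 2 = y ^ 2 * (Z : ℚ) ^ 6 := by ring
    rw [e, h, hxZ]
    push_cast
    field_simp
  have hne : a * (a ^ 2 + A * Z ^ 4) ≠ 0 := by
    intro h0
    rw [h0] at hprod
    have : (y * (Z : ℚ) ^ 3) ^ 2 ≠ 0 := pow_ne_zero 2 (mul_ne_zero hy (pow_ne_zero 3 hZq))
    exact this (by rw [← hprod]; simp)
  have hs : IsSquare (a * (a ^ 2 + A * Z ^ 4)) := by
    rw [← Rat.isSquare_intCast_iff, hprod]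
    exact ⟨_, sq _⟩
  obtain ⟨Y, hY⟩ := hs
  refine ⟨a, Z, Y, hZ0, hxZ, ?_, left_ne_zero_of_mul hne, right_ne_zero_of_mul hne,
    by rw [hY, sq]⟩
  rw [hbZ] at hco
  exact (IsCoprime.pow_right_iff (by norm_num)).1 hco

theorem ch_c {p : ℕ} [Fact p.Prime] (hp : p % 4 = 1) {c : ℤ} (hc : c = 2 ∨ c = -8) :
    ((c : ℤ) : ZMod p) ≠ 0 ∧ ch p c = f2 p := by
  have h2 : ((2 : ℤ) : ZMod p) ≠ 0 := by
    rw [cast_ne]
    intro h
    have := Int.le_of_dvd (by norm_num) h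
    have h4 : 1 < p := (Fact.out : p.Prime).one_lt
    omega
  rcases hc with rfl | rfl
  · exact ⟨h2, ch_two hp⟩
  · have h4 : (((2 : ℤ) ^ 2 : ℤ) : ZMod p) ≠ 0 := by
      rw [Int.cast_pow]
      exact pow_ne_zero 2 h2
    have e : (-8 : ℤ) = -(2 * 2 ^ 2) := by norm_num
    rw [e]
    refine ⟨?_, ?_⟩
    · rw [Int.cast_neg, neg_ne_zero, Int.cast_mul]
      exact mul_ne_zero h2 h4
    · rw [ch_neg hp, ch_mul h2 h4, ch_sq, add_zero, ch_two hp]

/-- the local condition at a prime dividing `m` -/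
theorem local4 {p : ℕ} [Fact p.Prime] (hp : p % 4 = 1) {c : ℤ} (hc : c = 2 ∨ c = -8)
    {X Z n : ℤ} (hn : ¬ (p : ℤ) ∣ n) (hco : IsCoprime X Z) (hX : X ≠ 0)
    (hU : X ^ 2 + c * (p * n) * Z ^ 4 ≠ 0)
    (hv : vv p X + vv p (X ^ 2 + c * (p * n) * Z ^ 4) = 0)
    (hl : lam p X + lam p (X ^ 2 + c * (p * n) * Z ^ 4) = 0) :
    lam p X + vv p X * (f2 p + ch p n) = 0 := by
  have hpp : p.Prime := Fact.out
  have hpi : Prime (p : ℤ) := Nat.prime_iff_prime_int.1 hpp
  obtain ⟨hc0, hc1⟩ := ch_c hp hc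
  by_cases hXd : (p : ℤ) ∣ X
  · have hZ : ¬ (p : ℤ) ∣ Z := by
      intro hZ
      exact hpi.not_isUnit (hco.isUnit_of_dvd' hXd hZ)
    obtain ⟨X', rfl⟩ := hXd
    have e2 : ((p : ℤ) * X') ^ 2 + c * (p * n) * Z ^ 4 = p * (p * X' ^ 2 + c * n * Z ^ 4) := by ring
    rw [e2] at hU hv hl
    have k2 : p * X' ^ 2 + c * n * Z ^ 4 ≠ 0 := right_ne_zero_of_mul hU
    have hnp : ((n : ℤ) : ZMod p) ≠ 0 := cast_ne.2 hn
    have hZp : (((Z ^ 2) ^ 2 : ℤ) : ZMod p) ≠ 0 := by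
      rw [Int.cast_pow, Int.cast_pow]
      exact pow_ne_zero 2 (pow_ne_zero 2 (cast_ne.2 hZ))
    have hcn : ((c * n : ℤ) : ZMod p) ≠ 0 := by
      rw [Int.cast_mul]
      exact mul_ne_zero hc0 hnp
    have hcnZ : ((c * n * (Z ^ 2) ^ 2 : ℤ) : ZMod p) ≠ 0 := by
      rw [Int.cast_mul]
      exact mul_ne_zero hcn hZp
    have hch : ch p (c * n * (Z ^ 2) ^ 2) = f2 p + ch p n := by
      rw [ch_mul hcn hZp, ch_mul hc0 hnp, ch_sq, add_zero, hc1]
    have u := unit_of_congr hp (A := p * X' ^ 2 + c * n * Z ^ 4) (B := c * n * (Z ^ 2) ^ 2)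
      (by push_cast; rw [ZMod.natCast_self, zero_mul, zero_add]; ring) hcnZ
    rw [(scale k2).1, u.1, add_zero] at hv
    rw [(scale k2).2, u.2, hch] at hl
    have hv1 : vv p ((p : ℤ) * X') = 1 := by
      rcases zmod2_cases (vv p ((p : ℤ) * X')) with h | h
      · rw [h] at hv
        exact absurd hv (by decide)
      · exact h
    rw [hv1, one_mul]
    exact hl
  · have hXp : ((X : ℤ) : ZMod p) ≠ 0 := cast_ne.2 hXd
    have u := unit_of_congr hp (A := X ^ 2 + c * (p * n) * Z ^ 4) (B := X ^ 2)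
      (by push_cast; simp) (by rw [Int.cast_pow]; exact pow_ne_zero 2 hXp)
    rw [u.2, ch_sq, add_zero] at hl
    rw [hl, vv_not_dvd hXd]
    ring

/-- the exponents of the abscissa -/
theorem exps4 {m : ℕ} (hm : Squarefree m) (h1 : ∀ p ∈ m.primeFactors, p % 4 = 1) (hk : Nsg m)
    {c : ℤ} (hc : c = 2 ∨ c = -8) {X Z Y : ℤ} (hco : IsCoprime X Z) (hX : X ≠ 0)
    (hU : X ^ 2 + c * m * Z ^ 4 ≠ 0) (hY : X * (X ^ 2 + c * m * Z ^ 4) = Y ^ 2) :
    (∀ q : ℕ, q.Prime → q ≠ 2 → q ∉ m.primeFactors → vv q X = 0) ∧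
      (∀ q ∈ m.primeFactors, vv q X = vv 2 X) := by
  have hY0 : Y ≠ 0 := by
    rintro rfl
    have := mul_ne_zero hX hU
    rw [hY] at this
    exact this (by norm_num)
  have hvs : ∀ q : ℕ, vv q X + vv q (X ^ 2 + c * m * Z ^ 4) = 0 := by
    intro q
    have := vv_sq q hY0
    rwa [← hY, vv_mul q hX hU] at this
  have hls : ∀ p : ℕ, lam p X + lam p (X ^ 2 + c * m * Z ^ 4) = 0 := by
    intro q
    have := lam_sq q hY0
    rwa [← hY, lam_mul q hX hU] at this
  have h2m : 2 ∉ m.primeFactors := by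
    intro h
    have := h1 2 h
    omega
  have hout : ∀ q : ℕ, q.Prime → q ≠ 2 → q ∉ m.primeFactors → vv q X = 0 := by
    intro q hq hq2 hqm
    have hqi : Prime (q : ℤ) := Nat.prime_iff_prime_int.1 hq
    have q2 : ¬ (q : ℤ) ∣ 2 := by
      intro h
      have h4 : q ∣ 2 := by exact_mod_cast h
      rw [Nat.prime_dvd_prime_iff_eq hq Nat.prime_two] at h4
      exact hq2 h4
    have qc : ¬ (q : ℤ) ∣ c := by
      rcases hc with rfl | rfl
      · exact q2
      · intro h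
        have e : (-8 : ℤ) = -(2 ^ 3) := by norm_num
        rw [e, dvd_neg] at h
        exact q2 (hqi.dvd_of_dvd_pow h)
    have qm : ¬ (q : ℤ) ∣ m := by
      intro h
      have h4 : q ∣ m := by exact_mod_cast h
      exact hqm (Nat.mem_primeFactors.2 ⟨hq, h4, hm.ne_zero⟩)
    by_cases hXd : (q : ℤ) ∣ X
    · have hUd : ¬ (q : ℤ) ∣ X ^ 2 + c * m * Z ^ 4 := by
        intro h
        have h5 : (q : ℤ) ∣ c * m * Z ^ 4 := by
          have := dvd_sub h (dvd_pow hXd two_ne_zero)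
          rwa [add_sub_cancel_left] at this
        rcases hqi.dvd_or_dvd h5 with h | h
        · rcases hqi.dvd_or_dvd h with h | h
          · exact qc h
          · exact qm h
        · exact hqi.not_isUnit (hco.isUnit_of_dvd' hXd (hqi.dvd_of_dvd_pow h))
      have := hvs q
      rwa [vv_not_dvd hUd, add_zero] at this
    · exact vv_not_dvd hXd
  refine ⟨hout, ?_⟩
  have key : ∀ p ∈ m.primeFactors, lam p X + vv p X * (f2 p + ∑ q ∈ m.primeFactors, nr p q) = 0 := by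
    intro p hp
    have hpp := Nat.prime_of_mem_primeFactors hp
    have : Fact p.Prime := ⟨hpp⟩
    obtain ⟨n, hn⟩ := Nat.dvd_of_mem_primeFactors hp
    have hnp : ¬ (p : ℤ) ∣ (n : ℤ) := by
      intro h
      have h4 : p ∣ n := by exact_mod_cast h
      have h5 : p * p ∣ m := by
        rw [hn]
        exact mul_dvd_mul_left p h4
      exact hpp.not_isUnit (hm p h5)
    have hn0 : (n : ℤ) ≠ 0 := by
      intro h
      rw [h] at hnp
      exact hnp (dvd_zero _)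
    have hmn : (m : ℤ) = (p : ℤ) * (n : ℤ) := by
      rw [hn]
      push_cast
      ring
    have hp4 := h1 p hp
    have e := local4 (p := p) hp4 hc (X := X) (Z := Z) (n := n) hnp hco hX
      (by rw [← hmn]; exact hU) (by rw [← hmn]; exact hvs p) (by rw [← hmn]; exact hls p)
    have hch : ch p (n : ℤ) = ∑ q ∈ m.primeFactors, nr p q := by
      rw [← lam_unit hp4 hnp]
      have h5 : lam p (m : ℤ) = lam p (n : ℤ) := by
        rw [hmn]
        exact (scale hn0).2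
      rw [← h5, lam_eq_sum (S := m.primeFactors) fun q _ hq => vv_not_mem hq]
      refine Finset.sum_congr rfl fun q hq => ?_
      rw [vv_sqfree hm hq, one_mul]
    rwa [hch] at e
  have hlam : ∀ p ∈ m.primeFactors,
      lam p X = vv 2 X * f2 p + ∑ q ∈ m.primeFactors, vv q X * nr p q := by
    intro p hp
    have : Fact p.Prime := ⟨Nat.prime_of_mem_primeFactors hp⟩
    rw [lam_eq_sum (S := insert 2 m.primeFactors), Finset.sum_insert h2m, nr_two (h1 p hp)]
    intro q hq hqs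
    rw [Finset.mem_insert, not_or] at hqs
    exact hout q hq hqs.1 hqs.2
  have a2 : ∀ p ∈ m.primeFactors, vv p X + vv 2 X = 0 := by
    refine hk (fun p => vv p X + vv 2 X) fun p hp => ?_
    have e : ∑ q ∈ m.primeFactors, nr p q * ((vv q X + vv 2 X) + (vv p X + vv 2 X)) =
        ∑ q ∈ m.primeFactors, vv q X * nr p q + vv p X * ∑ q ∈ m.primeFactors, nr p q := by
      rw [Finset.mul_sum, ← Finset.sum_add_distrib]
      refine Finset.sum_congr rfl fun q _ => ?_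
      linear_combination nr p q * add_self2 (vv 2 X)
    rw [e]
    have h5 := key p hp
    rw [hlam p hp] at h5
    linear_combination h5
  intro p hp
  have h5 := a2 p hp
  rcases zmod2_cases (vv p X) with a | a <;> rcases zmod2_cases (vv 2 X) with b | b <;>
    rw [a, b] at h5 ⊢ <;> revert h5 <;> decide

/-- up to sign the abscissa is a square or `2 m` times a square -/
theorem sqs4 {m : ℕ} (hm : Squarefree m) (h1 : ∀ p ∈ m.primeFactors, p % 4 = 1) (hk : Nsg m)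
    {c : ℤ} (hc : c = 2 ∨ c = -8) {X Z Y : ℤ} (hco : IsCoprime X Z) (hX : X ≠ 0)
    (hU : X ^ 2 + c * m * Z ^ 4 ≠ 0) (hY : X * (X ^ 2 + c * m * Z ^ 4) = Y ^ 2) :
    IsSquare |X| ∨ IsSquare (2 * m * |X|) := by
  have h2m : 2 ∉ m.primeFactors := by
    intro h
    have := h1 2 h
    omega
  obtain ⟨a, b⟩ := exps4 hm h1 hk hc hco hX hU hY
  have hv : ∀ q : ℕ, vv q |X| = vv q X := by
    intro q
    unfold vv
    rw [Int.natAbs_abs]
  exact cases2 hm h2m (abs_pos.2 hX) (vv 2 X) (fun q c d e => by rw [hv]; exact a q c d e) (hv 2)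
    fun q hq => by rw [hv]; exact b q hq

end Run7.h843.Quart
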