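import Mathlib
import Pool.Agent.Run7.h843.Q1

/-!
# The valuation of `ℚ_[p]`, squares in `ℚ_[p]` and quadratic residues
-/

set_option autoImplicit false

namespace Run7.h843.Sha

open Run7.h843.Desc
open Pool.Agent.Y703.CQ (nr)

section

variable {p : ℕ} [hp : Fact p.Prime]

/-- the valuation -/
noncomputable abbrev wv (p : ℕ) [Fact p.Prime] : Valuation ℚ_[p] (WithZero (Multiplicative ℤ)) :=
  Padic.mulValuation

theorem w_int (a : ℤ) : wv p (a : ℚ_[p]) = Int.padicValuation p a := by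
  rw [← Padic.comap_mulValuation_eq_int_padicValuation]
  rfl

theorem w_one {a : ℤ} (h : ¬ (p : ℤ) ∣ a) : wv p (a : ℚ_[p]) = 1 := by
  rw [w_int, Int.padicValuation_eq_one_iff]
  exact h

theorem w_self : wv p (p : ℚ_[p]) = WithZero.exp (-1 : ℤ) := by
  have h := w_int (p := p) (p : ℤ)
  rw [Int.padicValuation_self, Int.cast_natCast] at h
  exact h

theorem w_le_iff {x : ℚ_[p]} : wv p x ≤ 1 ↔ ‖x‖ ≤ 1 := by
  have h1 : (1 : ℝ) < p := by exact_mod_cast hp.out.one_lt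
  by_cases hx : x = 0
  · simp [hx]
  · rw [Padic.norm_eq_zpow_neg_valuation hx, Padic.mulValuation_toFun, if_neg hx,
      ← WithZero.exp_zero, WithZero.exp_le_exp, ← zpow_zero (p : ℝ), zpow_le_zpow_iff_right₀ h1]

theorem w_lt_iff {x : ℚ_[p]} : wv p x < 1 ↔ ‖x‖ < 1 := by
  have h1 : (1 : ℝ) < p := by exact_mod_cast hp.out.one_lt
  by_cases hx : x = 0
  · simp [hx]
  · rw [Padic.norm_eq_zpow_neg_valuation hx, Padic.mulValuation_toFun, if_neg hx,
      ← WithZero.exp_zero, WithZero.exp_lt_exp, ← zpow_zero (p : ℝ), zpow_lt_zpow_iff_right₀ h1]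

theorem w_uni {x : ℚ_[p]} (hx : wv p x < 1) : wv p x ≤ WithZero.exp (-1 : ℤ) := by
  by_cases hx0 : wv p x = 0
  · rw [hx0]
    exact zero_le
  · rw [← WithZero.exp_log hx0] at hx ⊢
    rw [← WithZero.exp_zero, WithZero.exp_lt_exp] at hx
    rw [WithZero.exp_le_exp]
    omega

open Polynomial in
/-- square roots -/
theorem hens (h2 : p ≠ 2) (t : ℚ_[p]) (ht : wv p t < 1) : ∃ y : ℚ_[p], y ^ 2 = 1 + t := by
  rw [w_lt_iff] at ht
  set t' : ℤ_[p] := ⟨t, ht.le⟩ with ht'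
  set F : ℤ_[p][X] := X ^ 2 - C (1 + t') with hF
  have e1 : F.aeval (1 : ℤ_[p]) = -t' := by
    rw [hF]
    simp
  have e2 : F.derivative.aeval (1 : ℤ_[p]) = 2 := by
    rw [hF]
    simp
    norm_num
  have hn2 : ‖(2 : ℤ_[p])‖ = 1 := by
    have h3 : ‖((2 : ℤ) : ℤ_[p])‖ = 1 := by
      by_contra h
      have h4 : ‖((2 : ℤ) : ℤ_[p])‖ < 1 := lt_of_le_of_ne (PadicInt.norm_le_one _) h
      rw [PadicInt.norm_int_lt_one_iff_dvd] at h4
      have h5 : p ∣ 2 := by exact_mod_cast h4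
      exact h2 ((Nat.prime_dvd_prime_iff_eq hp.out Nat.prime_two).1 h5)
    exact_mod_cast h3
  obtain ⟨z, hz, -⟩ := hensels_lemma (p := p) (F := F) (a := (1 : ℤ_[p])) (by
    rw [e1, e2, hn2, norm_neg, one_pow]
    exact ht)
  refine ⟨(z : ℚ_[p]), ?_⟩
  have h3 : z ^ 2 = 1 + t' := by
    rw [hF] at hz
    simp only [aeval_sub, map_pow, aeval_X, aeval_C, Algebra.algebraMap_self, RingHom.id_apply] at hz
    exact sub_eq_zero.1 hz
  have h4 := congrArg (fun x : ℤ_[p] => (x : ℚ_[p])) h3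
  simpa using h4

/-- `x` is a square in `ℚ_[p]` -/
def SqP (p : ℕ) [Fact p.Prime] (x : ℚ) : Prop := ∃ c : ℚ_[p], (x : ℚ_[p]) = c ^ 2

theorem SqP.isSquare {a : ℤ} (h : ¬ (p : ℤ) ∣ a) (hs : SqP p (a : ℚ)) : IsSquare (a : ZMod p) := by
  obtain ⟨c, hc⟩ := hs
  rw [Rat.cast_intCast] at hc
  have h1 : ‖c‖ ≤ 1 := by
    rw [← w_le_iff]
    have h2 := congrArg (wv p) hc
    rw [w_one h, map_pow] at h2
    by_contra h3
    exact absurd h2 (ne_of_lt (one_lt_pow₀ (not_le.1 h3) two_ne_zero))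
  obtain ⟨c', hc'⟩ : ∃ c' : ℤ_[p], (c' : ℚ_[p]) = c := ⟨⟨c, h1⟩, rfl⟩
  have h2 : ((a : ℤ) : ℤ_[p]) = c' ^ 2 := by
    apply Subtype.ext
    rw [PadicInt.coe_intCast, PadicInt.coe_pow, hc', hc]
  refine ⟨PadicInt.toZMod c', ?_⟩
  rw [← map_mul, ← sq, ← h2, map_intCast]

theorem exp_odd {g : WithZero (Multiplicative ℤ)} {n : ℤ} (hn : n % 2 = 1)
    (h : g ^ 2 = WithZero.exp n) : False := by
  have h1 := congrArg WithZero.log h
  rw [WithZero.log_pow, WithZero.log_exp] at h1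
  have h2 : (2 : ℤ) * WithZero.log g = n := by
    rw [← h1]; simp
  omega

/-- decomposition of an integer -/
theorem split_p {A : ℤ} (hA : A ≠ 0) : ∃ (k : ℕ) (u : ℤ), ¬ (p : ℤ) ∣ u ∧ A = p ^ k * u ∧
    vv p A = k := by
  have hp1 : p.Prime := hp.out
  have h1 : Int.natAbs A ≠ 0 := Int.natAbs_ne_zero.2 hA
  set k := A.natAbs.factorization p with hk
  have h2 : (p : ℤ) ^ k ∣ A := by
    rw [← Int.natCast_pow, Int.natCast_dvd]
    exact Nat.ordProj_dvd _ _
  obtain ⟨u, hu⟩ := h2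
  refine ⟨k, u, ?_, hu, rfl⟩
  intro h3
  have h4 : (p : ℤ) ^ (k + 1) ∣ A := by
    rw [hu, pow_succ]
    exact mul_dvd_mul_left _ h3
  rw [← Int.natCast_pow, Int.natCast_dvd] at h4
  exact Nat.pow_succ_factorization_not_dvd h1 hp1 h4

/-- a `p`-adic square: the exponent is even and the unit part is a residue -/
theorem SqP.lam {A : ℤ} (hA : A ≠ 0) (h4 : p % 4 = 1) (hs : SqP p (A : ℚ)) :
    vv p A = 0 ∧ Desc.lam p A = 0 := by
  have hp1 : p.Prime := hp.out
  obtain ⟨k, u, hu, hAu, hv⟩ := split_p (p := p) hA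
  have hu0 : u ≠ 0 := by
    rintro rfl
    exact hu (dvd_zero _)
  have hpk : (p : ℚ_[p]) ≠ 0 := by exact_mod_cast hp1.ne_zero
  obtain ⟨c, hc⟩ := hs
  rw [Rat.cast_intCast, hAu, Int.cast_mul, Int.cast_pow, Int.cast_natCast] at hc
  have h1 := congrArg (wv p) hc
  rw [map_mul, map_pow, w_self, w_one hu, mul_one, map_pow, ← WithZero.exp_nsmul] at h1
  have hk : k % 2 = 0 := by
    by_contra hk
    refine exp_odd (n := k • (-1 : ℤ)) ?_ h1.symm
    rw [nsmul_eq_mul]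
    omega
  obtain ⟨j, hj⟩ : ∃ j, k = 2 * j := ⟨k / 2, by omega⟩
  have hs2 : SqP p (u : ℚ) := by
    refine ⟨c / (p : ℚ_[p]) ^ j, ?_⟩
    rw [Rat.cast_intCast, div_pow, ← hc, hj, mul_comm 2 j, pow_mul, eq_div_iff (pow_ne_zero 2 (pow_ne_zero j hpk)),
      mul_comm]
  have h2 := hs2.isSquare hu
  constructor
  · rw [hv, hj]
    push_cast
    have : (2 : ZMod 2) = 0 := by decide
    rw [this, zero_mul]
  · have hpz : (p : ℤ) ≠ 0 := by exact_mod_cast hp1.ne_zero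
    rw [hAu, hj, pow_mul', lam_mul p (pow_ne_zero 2 (pow_ne_zero j hpz)) hu0,
      lam_sq p (pow_ne_zero j hpz), zero_add, lam_unit h4 hu]
    classical
    unfold ch
    rw [if_pos h2]

end

/-- the end of the descent: exponents -/
theorem close {m : ℕ} (hm : Squarefree m) (h1 : ∀ p ∈ m.primeFactors, p % 4 = 1) (hk : Nsg m)
    {X : ℤ} (hX : X ≠ 0) (hout : ∀ q : ℕ, q.Prime → q ≠ 2 → q ∉ m.primeFactors → vv q X = 0)
    (key : ∀ p ∈ m.primeFactors,
      lam p X + vv p X * (f2 p + ∑ q ∈ m.primeFactors, nr p q) = 0) :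
    IsSquare |X| ∨ IsSquare (2 * m * |X|) := by
  have h2m : 2 ∉ m.primeFactors := by
    intro h
    have := h1 2 h
    omega
  have hlam : ∀ p ∈ m.primeFactors,
      lam p X = vv 2 X * f2 p + ∑ q ∈ m.primeFactors, vv q X * nr p q := by
    intro p hp
    have : Fact p.Prime := ⟨Nat.prime_of_mem_primeFactors hp⟩
    rw [lam_eq_sum (S := insert 2 m.primeFactors), Finset.sum_insert h2m, nr_two (h1 p hp)]
    intro q hq hqs
    rw [Finset.mem_insert, not_or] at hqs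
    exact hout q hq hqs.1 hqs.2
  have a2 : ∀ p ∈ m.primeFactors, vv p X + vv 2 X = 0 := by
    refine hk (fun p => vv p X + vv 2 X) fun p hp => ?_
    have e : ∑ q ∈ m.primeFactors, nr p q * ((vv q X + vv 2 X) + (vv p X + vv 2 X)) =
        ∑ q ∈ m.primeFactors, vv q X * nr p q + vv p X * ∑ q ∈ m.primeFactors, nr p q := by
      rw [Finset.mul_sum, ← Finset.sum_add_distrib]
      refine Finset.sum_congr rfl fun q _ => ?_
      linear_combination nr p q * add_self2 (vv 2 X)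
    rw [e]
    have h5 := key p hp
    rw [hlam p hp] at h5
    linear_combination h5
  have b : ∀ q ∈ m.primeFactors, vv q X = vv 2 X := by
    intro p hp
    have h5 := a2 p hp
    rcases zmod2_cases (vv p X) with a | a <;> rcases zmod2_cases (vv 2 X) with b | b <;>
      rw [a, b] at h5 ⊢ <;> revert h5 <;> decide
  have hv : ∀ q : ℕ, vv q |X| = vv q X := by
    intro q
    unfold vv
    rw [Int.natAbs_abs]
  exact cases2 hm h2m (abs_pos.2 hX) (vv 2 X) (fun q c d e => by rw [hv]; exact hout q c d e) (hv 2)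
    fun q hq => by rw [hv]; exact b q hq

end Run7.h843.Sha
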