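import Mathlib

/-!
# The completions of `ℚ`
-/

set_option autoImplicit false

open NumberField IsDedekindDomain

namespace Run7.h843.Sha

/-- the completion of `ℚ` at a prime number -/
noncomputable def toPad (p : ℕ) [hp : Fact p.Prime] :
    ((Rat.HeightOneSpectrum.primesEquiv (R := 𝓞 ℚ)).symm ⟨p, hp.out⟩).adicCompletion ℚ →+* ℚ_[p] :=
  ((Padic.adicCompletionEquiv (𝓞 ℚ) ⟨p, hp.out⟩).symm.toAlgEquiv.toRingEquiv).toRingHom

/-- the completion of `ℚ` at infinity -/
noncomputable def toReal (v : InfinitePlace ℚ) : v.Completion →+* ℝ :=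
  InfinitePlace.Completion.extensionEmbeddingOfIsReal (v := v) (by
    rw [Subsingleton.elim v Rat.infinitePlace]
    exact Rat.isReal_infinitePlace)

end Run7.h843.Sha
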