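import Mathlib
import Pool.Agent.Y682.ZS
import Pool.Agent.Y715.Z.Loc
import Pool.Agent.Run7.h843.S0

/-!
# The local conditions over `ℚ_[p]` and `ℝ`
-/

set_option autoImplicit false

attribute [-instance] DivisionRing.toRatAlgebra

open NumberField IsDedekindDomain

namespace Run7.h843.Sha

open Pool.Agent.Y682 (S1 S2 LL1 LL2)

/-- the first local condition over a field -/
def C1 (F : Type) [Field F] (A B b : ℚ) : Prop :=
  ∃ z m : F, z ≠ 0 ∧ (b : F) * z ^ 2 = m ∧ S1 (A : F) (B : F) m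

/-- the second local condition over a field -/
def C2 (F : Type) [Field F] (A B b : ℚ) : Prop :=
  ∃ z m : F, z ≠ 0 ∧ (b : F) * z ^ 2 = m ∧ S2 (A : F) (B : F) m

section

variable {F F' : Type} [Field F] [Field F'] (φ : F →+* F')

include φ in
theorem S1_map {A B m : F} (h : S1 A B m) : S1 (φ A) (φ B) (φ m) := by
  rcases h with h | h | ⟨h0, y, hy⟩
  · exact Or.inl (by rw [h, map_one])
  · exact Or.inr (Or.inl (by rw [h]))
  · refine Or.inr (Or.inr ⟨(map_ne_zero φ).2 h0, φ y, ?_⟩)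
    rw [← map_pow, hy, map_mul, map_add, map_add, map_pow, map_mul]

include φ in
theorem S2_map {A B m : F} (h : S2 A B m) : S2 (φ A) (φ B) (φ m) := by
  rcases h with h | h | ⟨h0, y, hy⟩
  · exact Or.inl (by rw [h, map_one])
  · exact Or.inr (Or.inl (by rw [h, map_sub, map_pow, map_mul, map_ofNat]))
  · refine Or.inr (Or.inr ⟨(map_ne_zero φ).2 h0, φ y, ?_⟩)
    rw [← map_pow, hy, map_mul, map_sub, map_pow, map_sub, map_mul, map_ofNat]

include φ in
theorem C1_of [Algebra ℚ F] {A B b : ℚ} (h : ∃ z m : F, z ≠ 0 ∧ algebraMap ℚ F b * z ^ 2 = m ∧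
    S1 (algebraMap ℚ F A) (algebraMap ℚ F B) m) : C1 F' A B b := by
  obtain ⟨z, m, hz, h1, h2⟩ := h
  rw [eq_ratCast] at h1
  rw [eq_ratCast, eq_ratCast] at h2
  refine ⟨φ z, φ m, (map_ne_zero φ).2 hz, ?_, ?_⟩
  · rw [← h1, map_mul, map_pow, map_ratCast]
  · have := S1_map φ h2
    rwa [map_ratCast, map_ratCast] at this

include φ in
theorem C2_of [Algebra ℚ F] {A B b : ℚ} (h : ∃ z m : F, z ≠ 0 ∧ algebraMap ℚ F b * z ^ 2 = m ∧
    S2 (algebraMap ℚ F A) (algebraMap ℚ F B) m) : C2 F' A B b := by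
  obtain ⟨z, m, hz, h1, h2⟩ := h
  rw [eq_ratCast] at h1
  rw [eq_ratCast, eq_ratCast] at h2
  refine ⟨φ z, φ m, (map_ne_zero φ).2 hz, ?_, ?_⟩
  · rw [← h1, map_mul, map_pow, map_ratCast]
  · have := S2_map φ h2
    rwa [map_ratCast, map_ratCast] at this

end

theorem LL1_pad {A B b : ℚ} (h : LL1 A B b) (p : ℕ) [hp : Fact p.Prime] : C1 ℚ_[p] A B b :=
  C1_of (toPad p) (h.1 _)

theorem LL2_pad {A B b : ℚ} (h : LL2 A B b) (p : ℕ) [hp : Fact p.Prime] : C2 ℚ_[p] A B b :=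
  C2_of (toPad p) (h.1 _)

theorem LL1_real {A B b : ℚ} (h : LL1 A B b) : C1 ℝ A B b :=
  C1_of (toReal Rat.infinitePlace) (h.2 _)

theorem LL2_real {A B b : ℚ} (h : LL2 A B b) : C2 ℝ A B b :=
  C2_of (toReal Rat.infinitePlace) (h.2 _)

end Run7.h843.Sha
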