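import Mathlib
import Pool.Agent.Run7.h843.S1
import Pool.Agent.Run7.h843.S2

/-!
# The local conditions at the odd primes
-/

set_option autoImplicit false
set_option linter.unusedSectionVars false

attribute [-instance] DivisionRing.toRatAlgebra

namespace Run7.h843.Sha

open Pool.Agent.Y682 (S1 S2)
open Pool.Agent.Y715.Z (even1 cls1 S2_S1)
open Run7.h843.Desc
open Pool.Agent.Y703.CQ (nr)

theorem S2_iff {F : Type} [Field F] {B m : F} : S2 0 B m ↔ S1 0 (-4 * B) m := by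
  unfold S1 S2
  have e1 : (0 : F) ^ 2 - 4 * B = -4 * B := by ring
  have e2 : ∀ y : F, y ^ 2 = m * ((m - 0) ^ 2 - 4 * B) ↔ y ^ 2 = m * (m ^ 2 + 0 * m + -4 * B) := by
    intro y
    have : m * ((m - 0) ^ 2 - 4 * B) = m * (m ^ 2 + 0 * m + -4 * B) := by ring
    rw [this]
  rw [e1]
  simp only [e2]

theorem C2_iff {F : Type} [Field F] [CharZero F] {B b : ℚ} : C2 F 0 B b ↔ C1 F 0 (-4 * B) b := by
  unfold C1 C2
  have e : (((-4 * B : ℚ)) : F) = -4 * (B : F) := by push_cast; ring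
  rw [e, Rat.cast_zero]
  simp only [S2_iff]

section

variable {L : Type} [Field L] (w : Valuation L (WithZero (Multiplicative ℤ)))

/-- the local image of `y² = x³ - N² x` at a prime dividing `N` exactly once -/
lemma cls2 (hens : ∀ t : L, w t < 1 → ∃ y : L, y ^ 2 = 1 + t) {N m i : L} (hN0 : N ≠ 0)
    (hi : i ^ 2 = -1) (hodd : ∀ g : WithZero (Multiplicative ℤ), g ^ 2 ≠ w N)
    (h : S1 0 (-N ^ 2) m) : ∃ c : L, c ≠ 0 ∧ (m = c ^ 2 ∨ m = N * c ^ 2) := by
  have hi0 : i ≠ 0 := by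
    rintro rfl
    rw [zero_pow two_ne_zero] at hi
    have : (1 : L) = 0 := by linear_combination hi
    exact one_ne_zero this
  rcases h with h | h | ⟨hm, y, hy⟩
  · exact ⟨1, one_ne_zero, Or.inl (by rw [h, one_pow])⟩
  · exact ⟨i * N, mul_ne_zero hi0 hN0, Or.inl (by rw [h, mul_pow, hi]; ring)⟩
  · have hwm : w m ≠ 0 := (Valuation.ne_zero_iff _).2 hm
    have hwN : w N ≠ 0 := (Valuation.ne_zero_iff _).2 hN0
    rw [zero_mul, add_zero] at hy
    have hne : ∀ t r : L, r ^ 2 = 1 + t → w t < 1 → r ≠ 0 := by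
      rintro t r hr h1 rfl
      have h2 : t = -1 := by linear_combination -hr
      rw [h2, Valuation.map_neg, map_one] at h1
      exact lt_irrefl _ h1
    rcases lt_trichotomy (w m) (w N) with h1 | h1 | h1
    · have ht : w (-(m ^ 2 / N ^ 2)) < 1 := by
        rw [Valuation.map_neg, map_div₀, map_pow, map_pow, ← div_pow]
        refine pow_lt_one₀ zero_le ?_ two_ne_zero
        rw [div_lt_iff₀ (zero_lt_iff.2 hwN), one_mul]
        exact h1
      obtain ⟨r, hr⟩ := hens _ ht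
      have hr0 := hne _ r hr ht
      have hk : i * N * r ≠ 0 := mul_ne_zero (mul_ne_zero hi0 hN0) hr0
      have h2 : (i * N * r) ^ 2 = m ^ 2 + -N ^ 2 := by
        rw [mul_pow, mul_pow, hi, hr]
        field_simp
        ring
      rw [← h2] at hy
      have hy0 : y ≠ 0 := by
        rintro rfl
        rw [zero_pow two_ne_zero] at hy
        exact mul_ne_zero hm (pow_ne_zero 2 hk) hy.symm
      refine ⟨y / (i * N * r), div_ne_zero hy0 hk, Or.inl ?_⟩
      rw [div_pow, hy]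
      field_simp
    · set u := m / N with hu
      have hmu : m = N * u := by rw [hu]; field_simp
      have hwu : w u = 1 := by rw [hu, map_div₀, h1, div_self hwN]
      have h3 : y ^ 2 = N ^ 3 * u * ((u - 1) * (u + 1)) := by
        rw [hy, hmu]; ring
      have ha : w (u - 1) ≤ 1 := by
        refine (Valuation.map_sub _ _ _).trans ?_
        rw [hwu, map_one, max_self]
      have hb : w (u + 1) ≤ 1 := by
        refine (Valuation.map_add _ _ _).trans ?_
        rw [hwu, map_one, max_self]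
      rcases lt_or_eq_of_le ha with ha' | ha'
      · obtain ⟨r, hr⟩ := hens _ ha'
        have hr0 := hne _ r hr ha'
        refine ⟨r, hr0, Or.inr ?_⟩
        rw [hr, hmu]; ring
      · rcases lt_or_eq_of_le hb with hb' | hb'
        · have hb'' : w (-(u + 1)) < 1 := by rwa [Valuation.map_neg]
          obtain ⟨r, hr⟩ := hens _ hb''
          have hr0 := hne _ r hr hb''
          refine ⟨i * r, mul_ne_zero hi0 hr0, Or.inr ?_⟩
          rw [mul_pow, hr, hi, hmu]; ring
        · exfalso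
          have h4 := congrArg w h3
          rw [map_pow, map_mul, map_mul, map_mul, map_pow, hwu, ha', hb', mul_one, mul_one, mul_one] at h4
          apply hodd (w y / w N)
          rw [div_pow, h4]
          field_simp
    · have ht : w (-(N ^ 2 / m ^ 2)) < 1 := by
        rw [Valuation.map_neg, map_div₀, map_pow, map_pow, ← div_pow]
        refine pow_lt_one₀ zero_le ?_ two_ne_zero
        rw [div_lt_iff₀ (zero_lt_iff.2 hwm), one_mul]
        exact h1
      obtain ⟨r, hr⟩ := hens _ ht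
      have hr0 := hne _ r hr ht
      have hk : m * r ≠ 0 := mul_ne_zero hm hr0
      have h2 : (m * r) ^ 2 = m ^ 2 + -N ^ 2 := by
        rw [mul_pow, hr]
        field_simp
      rw [← h2] at hy
      have hy0 : y ≠ 0 := by
        rintro rfl
        rw [zero_pow two_ne_zero] at hy
        exact mul_ne_zero hm (pow_ne_zero 2 hk) hy.symm
      refine ⟨y / (m * r), div_ne_zero hy0 hk, Or.inl ?_⟩
      rw [div_pow, hy]
      field_simp

end

section

variable {p : ℕ} [hp : Fact p.Prime]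

theorem vv_of_even {X : ℤ} (hX : X ≠ 0) {g : WithZero (Multiplicative ℤ)}
    (h : wv p (X : ℚ_[p]) = g ^ 2) : vv p X = 0 := by
  obtain ⟨k, u, hu, hXu, hv⟩ := split_p (p := p) hX
  rw [hXu, Int.cast_mul, Int.cast_pow, Int.cast_natCast, map_mul, map_pow, w_self, w_one hu, mul_one,
    ← WithZero.exp_nsmul] at h
  have hk : k % 2 = 0 := by
    by_contra hk
    refine exp_odd (n := k • (-1 : ℤ)) ?_ h.symm
    rw [nsmul_eq_mul]
    omega
  obtain ⟨j, hj⟩ : ∃ j, k = 2 * j := ⟨k / 2, by omega⟩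
  rw [hv, hj]
  push_cast
  have : (2 : ZMod 2) = 0 := by decide
  rw [this, zero_mul]

/-- a place at which the curve has good reduction -/
theorem out1 {B X : ℤ} (hB : ¬ (p : ℤ) ∣ B) (hX : X ≠ 0) (h : C1 ℚ_[p] 0 (B : ℚ) (X : ℚ)) :
    vv p X = 0 := by
  obtain ⟨z, m, hz, hzm, hm⟩ := h
  rw [Rat.cast_zero, Rat.cast_intCast] at hm
  rw [Rat.cast_intCast] at hzm
  obtain ⟨g, hg⟩ := even1 (wv p) (w_one hB) hm
  have hwz : wv p z ≠ 0 := (Valuation.ne_zero_iff _).2 hz
  refine vv_of_even (p := p) hX (g := g / wv p z) ?_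
  rw [div_pow, ← hg, ← hzm, map_mul, map_pow]
  field_simp

theorem exists_i (h4 : p % 4 = 1) : ∃ i : ℚ_[p], i ^ 2 = -1 := by
  have hp1 : p.Prime := hp.out
  have h2 : p ≠ 2 := by
    rintro rfl
    omega
  have h1 : IsSquare (-1 : ZMod p) := ZMod.exists_sq_eq_neg_one_iff.2 (by omega)
  obtain ⟨c, hc⟩ := h1
  obtain ⟨n, rfl⟩ := ZMod.intCast_surjective c
  have h3 : ((n * n + 1 : ℤ) : ZMod p) = 0 := by
    push_cast
    rw [← hc]
    ring
  rw [ZMod.intCast_zmod_eq_zero_iff_dvd] at h3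
  have hn : ¬ (p : ℤ) ∣ n := by
    intro h
    have h4 : (p : ℤ) ∣ 1 := by
      have := dvd_sub h3 (h.mul_right n)
      simpa using this
    exact hp1.one_lt.ne' (by exact_mod_cast Int.eq_one_of_dvd_one (by positivity) h4)
  have hn0 : (n : ℚ_[p]) ≠ 0 := by
    intro h
    have : n = 0 := by exact_mod_cast h
    exact hn (by rw [this]; exact dvd_zero _)
  have hlt : wv p (-((n * n + 1 : ℤ) : ℚ_[p]) / (n * n)) < 1 := by
    rw [map_div₀, Valuation.map_neg, map_mul, w_one hn, mul_one, div_one]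
    obtain ⟨k, hk⟩ := h3
    rw [hk, Int.cast_mul, Int.cast_natCast, map_mul, w_self, w_int]
    calc WithZero.exp (-1 : ℤ) * Int.padicValuation p k ≤ WithZero.exp (-1 : ℤ) * 1 :=
          mul_le_mul_right (Int.padicValuation_le_one p k) _
      _ = WithZero.exp (-1 : ℤ) := mul_one _
      _ < 1 := by
        rw [← WithZero.exp_zero, WithZero.exp_lt_exp]
        norm_num
  obtain ⟨y, hy⟩ := hens h2 _ hlt
  refine ⟨y * n, ?_⟩
  rw [mul_pow, hy]
  push_cast
  field_simp
  ring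

theorem wv_2m {m : ℕ} (h2 : p ≠ 2) (hm : Squarefree m) (hpm : p ∈ m.primeFactors) :
    wv p ((2 * m : ℤ) : ℚ_[p]) = WithZero.exp (-1 : ℤ) := by
  have hp1 : p.Prime := hp.out
  obtain ⟨k, hk⟩ := Nat.dvd_of_mem_primeFactors hpm
  have h3 : ¬ (p : ℤ) ∣ 2 * k := by
    intro h3
    have h4 : p ∣ 2 * k := by exact_mod_cast h3
    rcases hp1.dvd_mul.1 h4 with h5 | h5
    · exact h2 ((Nat.prime_dvd_prime_iff_eq hp1 Nat.prime_two).1 h5)
    · have h6 : p * p ∣ m := by
        rw [hk]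
        exact mul_dvd_mul_left _ h5
      exact hp1.one_lt.ne' (Nat.isUnit_iff.1 (hm p h6))
  have e : (2 * m : ℤ) = p * (2 * k) := by
    rw [hk]
    push_cast
    ring
  rw [e, Int.cast_mul, Int.cast_natCast, map_mul, w_self, w_one h3, mul_one]

theorem ends_c {D X : ℤ} {z m' c : ℚ_[p]} (hz : z ≠ 0) (hzm : (X : ℚ_[p]) * z ^ 2 = m')
    (hc : m' = c ^ 2 ∨ m' = (D : ℚ_[p]) * c ^ 2) : SqP p (X : ℚ) ∨ SqP p ((D * X : ℤ) : ℚ) := by
  rcases hc with hc | hc
  · left
    refine ⟨c / z, ?_⟩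
    rw [Rat.cast_intCast, div_pow, ← hc, ← hzm]
    field_simp
  · right
    refine ⟨(D : ℚ_[p]) * c / z, ?_⟩
    rw [Rat.cast_intCast, Int.cast_mul, div_pow, mul_pow, sq (D : ℚ_[p]), mul_assoc, ← hc,
      ← hzm]
    field_simp

/-- a place which divides `m`: the first curve -/
theorem in1 {m : ℕ} (h2 : p ≠ 2) (hm : Squarefree m) (hpm : p ∈ m.primeFactors) {X : ℤ}
    (h : C1 ℚ_[p] 0 ((2 * m : ℤ) : ℚ) (X : ℚ)) : SqP p (X : ℚ) ∨ SqP p ((2 * m * X : ℤ) : ℚ) := by
  obtain ⟨z, m', hz, hzm, hm'⟩ := h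
  rw [Rat.cast_zero, Rat.cast_intCast] at hm'
  rw [Rat.cast_intCast] at hzm
  have hD := wv_2m h2 hm hpm
  have hlt : wv p ((2 * m : ℤ) : ℚ_[p]) < 1 := by
    rw [hD, ← WithZero.exp_zero, WithZero.exp_lt_exp]
    norm_num
  have hD0 : ((2 * m : ℤ) : ℚ_[p]) ≠ 0 := by
    rw [← (Valuation.ne_zero_iff (wv p)), hD]
    exact WithZero.exp_ne_zero
  obtain ⟨c, -, hc⟩ := cls1 (wv p) (hens h2) hD0 hlt (fun x hx => by rw [hD]; exact w_uni hx) hm'
  exact ends_c hz hzm hc

/-- a place which divides `m`: the second curve -/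
theorem in2 {m : ℕ} (h4 : p % 4 = 1) (hm : Squarefree m) (hpm : p ∈ m.primeFactors) {X : ℤ}
    (h : C1 ℚ_[p] 0 ((-4 * m ^ 2 : ℤ) : ℚ) (X : ℚ)) :
    SqP p (X : ℚ) ∨ SqP p ((2 * m * X : ℤ) : ℚ) := by
  have h2 : p ≠ 2 := by
    rintro rfl
    omega
  obtain ⟨z, m', hz, hzm, hm'⟩ := h
  rw [Rat.cast_zero, Rat.cast_intCast] at hm'
  rw [Rat.cast_intCast] at hzm
  have hD := wv_2m h2 hm hpm
  have hD0 : ((2 * m : ℤ) : ℚ_[p]) ≠ 0 := by
    rw [← (Valuation.ne_zero_iff (wv p)), hD]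
    exact WithZero.exp_ne_zero
  obtain ⟨i, hi⟩ := exists_i (p := p) h4
  have e : ((-4 * m ^ 2 : ℤ) : ℚ_[p]) = -((2 * m : ℤ) : ℚ_[p]) ^ 2 := by
    push_cast
    ring
  rw [e] at hm'
  obtain ⟨c, -, hc⟩ := cls2 (wv p) (hens h2) hD0 hi (fun g hg => exp_odd (n := -1) (by norm_num)
    (hg.trans hD)) hm'
  exact ends_c hz hzm hc

/-- at the primes `1` modulo `4` the two local conditions agree -/
theorem C2_C1 (h4 : p % 4 = 1) {B b : ℚ} (h : C2 ℚ_[p] 0 B b) : C1 ℚ_[p] 0 B b := by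
  obtain ⟨i, hi⟩ := exists_i (p := p) h4
  unfold C2 at h
  unfold C1
  rw [Rat.cast_zero] at h ⊢
  exact S2_S1 hi h

/-- the condition of the linear system -/
theorem key_of {m : ℕ} (h4 : p % 4 = 1) (hm : Squarefree m) (hpm : p ∈ m.primeFactors) {X : ℤ}
    (hX : X ≠ 0) (h : SqP p (X : ℚ) ∨ SqP p ((2 * m * X : ℤ) : ℚ)) :
    lam p X + vv p X * (f2 p + ∑ q ∈ m.primeFactors, nr p q) = 0 := by
  have hp1 : p.Prime := hp.out
  have h2 : p ≠ 2 := by
    rintro rfl
    omega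
  have hm0 : (m : ℤ) ≠ 0 := by exact_mod_cast hm.ne_zero
  rcases h with h | h
  · obtain ⟨a, b⟩ := h.lam hX h4
    rw [a, b, zero_mul, add_zero]
  · obtain ⟨a, b⟩ := h.lam (mul_ne_zero (mul_ne_zero two_ne_zero hm0) hX) h4
    have hv2 : vv p (2 : ℤ) = 0 := vv_other hp1 Nat.prime_two h2.symm
    have hl2 : lam p (2 : ℤ) = nr p 2 := lam_prime Nat.prime_two
    rw [vv_mul p (mul_ne_zero two_ne_zero hm0) hX, vv_mul p two_ne_zero hm0,
      vv_sqfree hm hpm, hv2, zero_add] at a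
    rw [lam_mul p (mul_ne_zero two_ne_zero hm0) hX, lam_mul p two_ne_zero hm0, hl2, nr_two h4,
      lam_eq_sum (p := p) (A := m) (S := m.primeFactors) (fun q _ hq => vv_not_mem hq)] at b
    have e : ∑ q ∈ m.primeFactors, vv q (m : ℤ) * nr p q = ∑ q ∈ m.primeFactors, nr p q :=
      Finset.sum_congr rfl fun q hq => by rw [vv_sqfree hm hq, one_mul]
    rw [e] at b
    have a' : vv p X = 1 := by
      rcases zmod2_cases (vv p X) with h | h
      · rw [h] at a
        exact absurd a (by decide)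
      · exact h
    rw [a', one_mul]
    linear_combination b

end

end Run7.h843.Sha
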