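import Mathlib
import Pool.Agent.Run7.h843.S3

/-!
# The local conditions at `2`
-/

set_option autoImplicit false
set_option linter.unusedSimpArgs false

attribute [-instance] DivisionRing.toRatAlgebra

namespace Run7.h843.Sha

open Pool.Agent.Y682 (S1 S2)

theorem int_of_sq {y : ℚ_[2]} {t : ℤ_[2]} (h : y ^ 2 = t) : ∃ Y : ℤ_[2], (Y : ℚ_[2]) = y := by
  have h1 : ‖y‖ ≤ 1 := by
    by_contra h2
    have h3 : 1 < ‖y‖ := not_le.1 h2
    have h4 : ‖y ^ 2‖ ≤ 1 := by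
      rw [h]
      exact PadicInt.norm_le_one t
    rw [norm_pow] at h4
    exact absurd h4 (not_le.2 (one_lt_pow₀ h3 two_ne_zero))
  exact ⟨⟨y, h1⟩, rfl⟩

theorem rep2 (z : ℚ_[2]) : (∃ Z : ℤ_[2], (Z : ℚ_[2]) = z) ∨
    ∃ (k : ℕ) (Z Z' : ℤ_[2]), Z * Z' = 1 ∧ z * 2 ^ (k + 1) = Z := by
  by_cases h : ‖z‖ ≤ 1
  · exact Or.inl ⟨⟨z, h⟩, rfl⟩
  · right
    have hz : z ≠ 0 := by
      rintro rfl
      apply h
      rw [norm_zero]
      exact zero_le_one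
    have h1 : (1 : ℝ) < 2 := by norm_num
    have h2 := Padic.norm_eq_zpow_neg_valuation hz
    rw [Nat.cast_ofNat] at h2
    have h3 : 0 < -z.valuation := by
      rw [h2, ← zpow_zero (2 : ℝ), zpow_le_zpow_iff_right₀ h1] at h
      omega
    obtain ⟨k, hk⟩ : ∃ k : ℕ, -z.valuation = (k : ℤ) + 1 := ⟨(-z.valuation - 1).toNat, by omega⟩
    have h4 : ‖z * 2 ^ (k + 1)‖ = 1 := by
      have h5 : ‖(2 : ℚ_[2])‖ = 2⁻¹ := by
        have := Padic.norm_p (p := 2)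
        rwa [Nat.cast_ofNat, Nat.cast_ofNat] at this
      rw [norm_mul, norm_pow, h5, h2, hk, inv_pow]
      have h6 : (2 : ℝ) ^ ((k : ℤ) + 1) = 2 ^ (k + 1) := by
        rw [← zpow_natCast]
        push_cast
        rfl
      rw [h6]
      exact mul_inv_cancel₀ (by positivity)
    have h0 : z * 2 ^ (k + 1) ≠ 0 := by
      intro h0
      rw [h0, norm_zero] at h4
      exact zero_ne_one h4
    refine ⟨k, ⟨z * 2 ^ (k + 1), h4.le⟩, ⟨(z * 2 ^ (k + 1))⁻¹, by rw [norm_inv, h4, inv_one]⟩, ?_, rfl⟩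
    apply Subtype.ext
    exact mul_inv_cancel₀ h0

theorem nsq {t : ℤ} (n : ℕ) (h : ∀ W : ZMod (2 ^ n), W ^ 2 ≠ (t : ZMod (2 ^ n))) (z : ℚ_[2])
    (hz : z ^ 2 = (t : ℚ_[2])) : False := by
  have h1 : z ^ 2 = ((t : ℤ_[2]) : ℚ_[2]) := by rw [hz, PadicInt.coe_intCast]
  obtain ⟨Z, hZ⟩ := int_of_sq h1
  have h2 : Z ^ 2 = (t : ℤ_[2]) := by
    apply Subtype.ext
    rw [PadicInt.coe_pow, hZ, h1]
  apply h (PadicInt.toZModPow n Z)
  rw [← map_pow, h2, map_intCast]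

theorem cc2 : ((2 : ℤ_[2]) : ℚ_[2]) = 2 := by
  exact_mod_cast PadicInt.coe_natCast 2

theorem cc4 : ((4 : ℤ_[2]) : ℚ_[2]) = 4 := by
  exact_mod_cast PadicInt.coe_natCast 4

theorem cc8 : ((8 : ℤ_[2]) : ℚ_[2]) = 8 := by
  exact_mod_cast PadicInt.coe_natCast 8

/-- the first quartic -/
theorem T1 (j : ℤ) (y z : ℚ_[2]) (h : y ^ 2 = 8 * ((2 * j + 1 : ℤ) : ℚ_[2]) - z ^ 4) : False := by
  rcases rep2 z with ⟨Z, rfl⟩ | ⟨k, Z, Z', hZZ, hZ⟩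
  · have h1 : y ^ 2 = ((8 * ((2 * j + 1 : ℤ) : ℤ_[2]) - Z ^ 4 : ℤ_[2]) : ℚ_[2]) := by
      rw [h]
      push_cast
      simp only [cc2, cc4, cc8]
    obtain ⟨Y, hY⟩ := int_of_sq h1
    have h2 : Y ^ 2 = 8 * ((2 * j + 1 : ℤ) : ℤ_[2]) - Z ^ 4 := by
      apply Subtype.ext
      rw [PadicInt.coe_pow, hY, h1]
    have h3 := congrArg (PadicInt.toZModPow 4) h2
    rw [map_pow, map_sub, map_mul, map_pow, map_ofNat, map_intCast] at h3
    have h4 : (8 : ZMod (2 ^ 4)) * ((2 * j + 1 : ℤ) : ZMod (2 ^ 4)) = 8 := by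
      have : (16 : ZMod (2 ^ 4)) = 0 := by decide
      push_cast
      linear_combination (j : ZMod (2 ^ 4)) * this
    rw [h4] at h3
    have h5 : ∀ Y Z : ZMod (2 ^ 4), Y ^ 2 ≠ 8 - Z ^ 4 := by decide
    exact h5 _ _ h3
  · have h1 : (y * 4 ^ (k + 1)) ^ 2 =
        ((8 * ((2 * j + 1 : ℤ) : ℤ_[2]) * (2 ^ (k + 1)) ^ 4 - Z ^ 4 : ℤ_[2]) : ℚ_[2]) := by
      have e4 : (4 : ℚ_[2]) ^ (k + 1) = (2 ^ (k + 1)) ^ 2 := by
        rw [← pow_mul, mul_comm, pow_mul]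
        norm_num
      push_cast
      simp only [cc2, cc4, cc8]
      rw [← hZ, e4]
      push_cast at h
      linear_combination (2 ^ (k + 1)) ^ 4 * h
    obtain ⟨Y, hY⟩ := int_of_sq h1
    have h2 : Y ^ 2 = 8 * ((2 * j + 1 : ℤ) : ℤ_[2]) * (2 ^ (k + 1)) ^ 4 - Z ^ 4 := by
      apply Subtype.ext
      rw [PadicInt.coe_pow, hY, h1]
    have h3 := congrArg (PadicInt.toZModPow 3) h2
    rw [map_pow, map_sub, map_mul, map_mul, map_pow, map_ofNat, map_intCast] at h3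
    have h4 : (8 : ZMod (2 ^ 3)) = 0 := by decide
    rw [h4, zero_mul, zero_mul, zero_sub, map_pow] at h3
    have h6 := congrArg (PadicInt.toZModPow 3) hZZ
    rw [map_mul, map_one] at h6
    have h5 : ∀ Y Z Z' : ZMod (2 ^ 3), Z * Z' = 1 → Y ^ 2 ≠ - Z ^ 4 := by decide
    exact h5 _ _ _ h6 h3

/-- the second quartic -/
theorem T2 (j : ℤ) (y z : ℚ_[2]) (h : y ^ 2 = 2 * ((2 * j + 1 : ℤ) : ℚ_[2]) * z ^ 4 - 4) : False := by
  rcases rep2 z with ⟨Z, rfl⟩ | ⟨k, Z, Z', hZZ, hZ⟩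
  · have h1 : y ^ 2 = ((2 * ((2 * j + 1 : ℤ) : ℤ_[2]) * Z ^ 4 - 4 : ℤ_[2]) : ℚ_[2]) := by
      rw [h]
      push_cast
      simp only [cc2, cc4, cc8]
    obtain ⟨Y, hY⟩ := int_of_sq h1
    have h2 : Y ^ 2 = 2 * ((2 * j + 1 : ℤ) : ℤ_[2]) * Z ^ 4 - 4 := by
      apply Subtype.ext
      rw [PadicInt.coe_pow, hY, h1]
    have h3 := congrArg (PadicInt.toZModPow 5) h2
    rw [map_pow, map_sub, map_mul, map_mul, map_pow, map_ofNat, map_ofNat, map_intCast] at h3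
    push_cast at h3
    have a1 : ∀ Z : ZMod (2 ^ 5), 2 * Z ^ 4 = 0 ∨ 2 * Z ^ 4 = 2 := by decide
    rcases a1 (PadicInt.toZModPow 5 Z) with h4 | h4
    · have h5 : ∀ Y : ZMod (2 ^ 5), Y ^ 2 ≠ -4 := by decide
      apply h5 (PadicInt.toZModPow 5 Y)
      linear_combination h3 + (2 * (j : ZMod (2 ^ 5)) + 1) * h4
    · have h5 : ∀ Y j : ZMod (2 ^ 5), Y ^ 2 ≠ 4 * j - 2 := by decide
      apply h5 (PadicInt.toZModPow 5 Y) j
      linear_combination h3 + (2 * (j : ZMod (2 ^ 5)) + 1) * h4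
  · have h1 : (y * 4 ^ (k + 1)) ^ 2 =
        ((2 * ((2 * j + 1 : ℤ) : ℤ_[2]) * Z ^ 4 - 4 * (2 ^ (k + 1)) ^ 4 : ℤ_[2]) : ℚ_[2]) := by
      have e4 : (4 : ℚ_[2]) ^ (k + 1) = (2 ^ (k + 1)) ^ 2 := by
        rw [← pow_mul, mul_comm, pow_mul]
        norm_num
      push_cast
      simp only [cc2, cc4, cc8]
      rw [← hZ, e4]
      push_cast at h
      linear_combination (2 ^ (k + 1)) ^ 4 * h
    obtain ⟨Y, hY⟩ := int_of_sq h1
    have h2 : Y ^ 2 = 2 * ((2 * j + 1 : ℤ) : ℤ_[2]) * Z ^ 4 - 4 * (2 ^ (k + 1)) ^ 4 := by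
      apply Subtype.ext
      rw [PadicInt.coe_pow, hY, h1]
    have h3 := congrArg (PadicInt.toZModPow 2) h2
    rw [map_pow, map_sub, map_mul, map_mul, map_mul, map_pow, map_ofNat, map_ofNat, map_intCast] at h3
    have h4 : (4 : ZMod (2 ^ 2)) = 0 := by decide
    rw [h4, zero_mul, sub_zero] at h3
    push_cast at h3
    have h6 := congrArg (PadicInt.toZModPow 2) hZZ
    rw [map_mul, map_one] at h6
    have h5 : ∀ Y Z Z' : ZMod (2 ^ 2), Z * Z' = 1 → Y ^ 2 ≠ 2 * Z ^ 4 := by decide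
    refine h5 (PadicInt.toZModPow 2 Y) _ _ h6 ?_
    linear_combination h3 + (j : ZMod (2 ^ 2)) * PadicInt.toZModPow 2 Z ^ 4 * h4

/-- the third quartic -/
theorem T3 (j : ℤ) (y z : ℚ_[2]) (h : y ^ 2 = 2 * ((2 * j + 1 : ℤ) : ℚ_[2]) * (z ^ 4 + 4)) : False := by
  rcases rep2 z with ⟨Z, rfl⟩ | ⟨k, Z, Z', hZZ, hZ⟩
  · have h1 : y ^ 2 = ((2 * ((2 * j + 1 : ℤ) : ℤ_[2]) * (Z ^ 4 + 4) : ℤ_[2]) : ℚ_[2]) := by
      rw [h]
      push_cast
      simp only [cc2, cc4, cc8]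
    obtain ⟨Y, hY⟩ := int_of_sq h1
    have h2 : Y ^ 2 = 2 * ((2 * j + 1 : ℤ) : ℤ_[2]) * (Z ^ 4 + 4) := by
      apply Subtype.ext
      rw [PadicInt.coe_pow, hY, h1]
    have h3 := congrArg (PadicInt.toZModPow 4) h2
    rw [map_pow, map_mul, map_mul, map_add, map_pow, map_ofNat, map_ofNat, map_intCast] at h3
    push_cast at h3
    have a1 : ∀ Z : ZMod (2 ^ 4), Z ^ 4 = 0 ∨ Z ^ 4 = 1 := by decide
    rcases a1 (PadicInt.toZModPow 4 Z) with h4 | h4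
    · have h5 : ∀ Y j : ZMod (2 ^ 4), Y ^ 2 ≠ 2 * (2 * j + 1) * 4 := by decide
      apply h5 (PadicInt.toZModPow 4 Y) j
      rw [h3, h4, zero_add]
    · have h5 : ∀ Y j : ZMod (2 ^ 4), Y ^ 2 ≠ 2 * (2 * j + 1) * (1 + 4) := by decide
      apply h5 (PadicInt.toZModPow 4 Y) j
      rw [h3, h4]
  · have h1 : (y * 4 ^ (k + 1)) ^ 2 =
        ((2 * ((2 * j + 1 : ℤ) : ℤ_[2]) * (Z ^ 4 + 4 * (2 ^ (k + 1)) ^ 4) : ℤ_[2]) : ℚ_[2]) := by
      have e4 : (4 : ℚ_[2]) ^ (k + 1) = (2 ^ (k + 1)) ^ 2 := by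
        rw [← pow_mul, mul_comm, pow_mul]
        norm_num
      push_cast
      simp only [cc2, cc4, cc8]
      rw [← hZ, e4]
      push_cast at h
      linear_combination (2 ^ (k + 1)) ^ 4 * h
    obtain ⟨Y, hY⟩ := int_of_sq h1
    have h2 : Y ^ 2 = 2 * ((2 * j + 1 : ℤ) : ℤ_[2]) * (Z ^ 4 + 4 * (2 ^ (k + 1)) ^ 4) := by
      apply Subtype.ext
      rw [PadicInt.coe_pow, hY, h1]
    have h3 := congrArg (PadicInt.toZModPow 2) h2
    rw [map_pow, map_mul, map_mul, map_add, map_mul, map_pow, map_ofNat, map_ofNat, map_intCast] at h3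
    have h4 : (4 : ZMod (2 ^ 2)) = 0 := by decide
    rw [h4, zero_mul, add_zero] at h3
    push_cast at h3
    have h6 := congrArg (PadicInt.toZModPow 2) hZZ
    rw [map_mul, map_one] at h6
    have h5 : ∀ Y Z Z' : ZMod (2 ^ 2), Z * Z' = 1 → Y ^ 2 ≠ 2 * Z ^ 4 := by decide
    refine h5 (PadicInt.toZModPow 2 Y) _ _ h6 ?_
    linear_combination h3 + (j : ZMod (2 ^ 2)) * PadicInt.toZModPow 2 Z ^ 4 * h4

theorem no_neg_one (z : ℚ_[2]) (h : z ^ 2 = -1) : False := by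
  refine nsq (t := -1) 2 ?_ z (by rw [h]; push_cast; rfl)
  decide

theorem no_2m (j : ℤ) (z : ℚ_[2]) (h : z ^ 2 = 2 * ((2 * j + 1 : ℤ) : ℚ_[2])) : False := by
  refine nsq (t := 2 * (2 * j + 1)) 2 ?_ z (by rw [h]; push_cast; rfl)
  intro W hW
  have h5 : ∀ W j : ZMod (2 ^ 2), W ^ 2 ≠ 2 * (2 * j + 1) := by decide
  apply h5 W j
  rw [hW]
  push_cast
  rfl

theorem no_8m (j : ℤ) (z : ℚ_[2]) (h : z ^ 2 = 8 * ((2 * j + 1 : ℤ) : ℚ_[2])) : False := by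
  apply no_2m j (z / 2)
  rw [div_pow, h]
  ring

variable {m : ℕ}

/-- `-1` is not in the image of the dual isogeny (curve `C`) -/
theorem nC1 (hm : m % 2 = 1) {z m' : ℚ_[2]} (hz : z ≠ 0) (hzm : -z ^ 2 = m')
    (h : S1 0 (-8 * (m : ℚ_[2])) m') : False := by
  obtain ⟨j, hj⟩ : ∃ j : ℤ, (m : ℤ) = 2 * j + 1 := ⟨(m : ℤ) / 2, by omega⟩
  have hm' : (m : ℚ_[2]) = ((2 * j + 1 : ℤ) : ℚ_[2]) := by
    rw [← hj, Int.cast_natCast]
  rcases h with h | h | ⟨h0, y, hy⟩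
  · exact no_neg_one z (by linear_combination -hzm - h)
  · exact no_8m j z (by rw [← hm']; linear_combination -hzm - h)
  · refine T1 j (y / z) z ?_
    rw [div_pow, hy, ← hzm, ← hm']
    field_simp
    ring

/-- `2 m` is not in the image of the dual isogeny (curve `C`) -/
theorem nC2 (hm : m % 2 = 1) {z m' : ℚ_[2]} (hz : z ≠ 0) (hzm : 2 * (m : ℚ_[2]) * z ^ 2 = m')
    (h : S1 0 (-8 * (m : ℚ_[2])) m') : False := by
  obtain ⟨j, hj⟩ : ∃ j : ℤ, (m : ℤ) = 2 * j + 1 := ⟨(m : ℤ) / 2, by omega⟩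
  have hm0 : (m : ℚ_[2]) ≠ 0 := by
    have : m ≠ 0 := by omega
    exact_mod_cast this
  have hm' : (m : ℚ_[2]) = ((2 * j + 1 : ℤ) : ℚ_[2]) := by
    rw [← hj, Int.cast_natCast]
  rcases h with h | h | ⟨h0, y, hy⟩
  · refine no_2m j (2 * m * z) ?_
    rw [← hm']
    linear_combination 2 * (m : ℚ_[2]) * (hzm + h)
  · refine no_neg_one (z / 2) ?_
    have h1 : 2 * (m : ℚ_[2]) * (z ^ 2 + 4) = 0 := by linear_combination hzm + h
    rcases mul_eq_zero.1 h1 with h2 | h2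
    · exact absurd h2 (mul_ne_zero two_ne_zero hm0)
    · linear_combination h2 / 4
  · refine T2 j (y / (2 * m * z)) z ?_
    rw [div_pow, hy, ← hzm, ← hm']
    field_simp
    ring

/-- `2 m` is not in the image of the dual isogeny (curve `E`) -/
theorem nE (hm : m % 2 = 1) {z m' : ℚ_[2]} (hz : z ≠ 0) (hzm : 2 * (m : ℚ_[2]) * z ^ 2 = m')
    (h : S1 0 (16 * (m : ℚ_[2]) ^ 2) m') : False := by
  obtain ⟨j, hj⟩ : ∃ j : ℤ, (m : ℤ) = 2 * j + 1 := ⟨(m : ℤ) / 2, by omega⟩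
  have hm0 : (m : ℚ_[2]) ≠ 0 := by
    have : m ≠ 0 := by omega
    exact_mod_cast this
  have hm' : (m : ℚ_[2]) = ((2 * j + 1 : ℤ) : ℚ_[2]) := by
    rw [← hj, Int.cast_natCast]
  rcases h with h | h | ⟨h0, y, hy⟩
  · refine no_2m j (2 * m * z) ?_
    rw [← hm']
    linear_combination 2 * (m : ℚ_[2]) * (hzm + h)
  · refine no_8m j z ?_
    rw [← hm']
    have h1 : 2 * (m : ℚ_[2]) * (z ^ 2 - 8 * m) = 0 := by linear_combination hzm + h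
    rcases mul_eq_zero.1 h1 with h2 | h2
    · exact absurd h2 (mul_ne_zero two_ne_zero hm0)
    · linear_combination h2
  · refine T3 j (y / (2 * m * z)) z ?_
    rw [div_pow, hy, ← hzm, ← hm']
    field_simp
    ring

end Run7.h843.Sha
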