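import Mathlib
import Pool.Agent.Run7.h843.S4

/-!
# The Selmer groups of `y² = x³ - 4 m² s⁴ x` and of `y² = x³ + 2 m x`
-/

set_option autoImplicit false

attribute [-instance] DivisionRing.toRatAlgebra

namespace Run7.h843.Sha

open Pool.Agent.Y682 (S1 S2 LL1 LL2 Sq quot_eq IsT Zc Zc_card Zc_lower MP)
open Run7.h843.Desc

section

variable {F : Type} [Field F] [CharZero F]

theorem C1_scale {B s b : ℚ} (hs : s ≠ 0) (h : C1 F 0 (B * s ^ 4) b) : C1 F 0 B b := by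
  have hs' : (s : F) ≠ 0 := Rat.cast_ne_zero.2 hs
  obtain ⟨z, m, hz, hzm, hm⟩ := h
  rw [Rat.cast_zero, Rat.cast_mul, Rat.cast_pow] at hm
  unfold C1
  rw [Rat.cast_zero]
  rcases hm with hm | hm | ⟨hm0, y, hy⟩
  · exact ⟨z, m, hz, hzm, Or.inl hm⟩
  · refine ⟨z / (s : F) ^ 2, (B : F), div_ne_zero hz (pow_ne_zero 2 hs'), ?_, Or.inr (Or.inl rfl)⟩
    rw [div_pow, ← mul_div_assoc, hzm, hm]
    field_simp
  · refine ⟨z / (s : F), m / (s : F) ^ 2, div_ne_zero hz hs', ?_, Or.inr (Or.inr ⟨div_ne_zero hm0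
      (pow_ne_zero 2 hs'), y / (s : F) ^ 3, ?_⟩)⟩
    · rw [div_pow, ← mul_div_assoc, hzm]
    · rw [div_pow, hy]
      field_simp
      ring

theorem C1_mul {A B b d : ℚ} (hd : d ≠ 0) (h : C1 F A B b) : C1 F A B (b * d ^ 2) := by
  have hd' : (d : F) ≠ 0 := Rat.cast_ne_zero.2 hd
  obtain ⟨z, m, hz, hzm, hm⟩ := h
  refine ⟨z / d, m, div_ne_zero hz hd', ?_, hm⟩
  rw [← hzm]
  push_cast
  field_simp

theorem C2_mul {A B b d : ℚ} (hd : d ≠ 0) (h : C2 F A B b) : C2 F A B (b * d ^ 2) := by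
  have hd' : (d : F) ≠ 0 := Rat.cast_ne_zero.2 hd
  obtain ⟨z, m, hz, hzm, hm⟩ := h
  refine ⟨z / d, m, div_ne_zero hz hd', ?_, hm⟩
  rw [← hzm]
  push_cast
  field_simp

end

/-- an integral representative of the class of a rational number -/
theorem exists_X {b : ℚ} (hb : b ≠ 0) : ∃ (X : ℤ) (d : ℚ), X ≠ 0 ∧ d ≠ 0 ∧ (X : ℚ) = b * d ^ 2 := by
  have hd : (b.den : ℚ) ≠ 0 := by exact_mod_cast b.den_ne_zero
  refine ⟨b.num * b.den, b.den, mul_ne_zero (Rat.num_ne_zero.2 hb) (by exact_mod_cast b.den_ne_zero),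
    hd, ?_⟩
  push_cast
  have h2 : (b.num : ℚ) = b * b.den := (Rat.mul_den_eq_num b).symm
  rw [h2]
  ring

section

variable {m : ℕ}

theorem odd_m (h1 : ∀ p ∈ m.primeFactors, p % 4 = 1) (hm : Squarefree m) : m % 2 = 1 := by
  by_contra h
  have h2 : 2 ∈ m.primeFactors := Nat.mem_primeFactors.2 ⟨Nat.prime_two, by omega, hm.ne_zero⟩
  have := h1 2 h2
  omega

/-- the class of a rational number is trivial, or is one of the four -/
theorem four_cases (hm0 : m ≠ 0) {X : ℤ} {b d : ℚ} (hd : d ≠ 0) (hXb : (X : ℚ) = b * d ^ 2)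
    (h : IsSquare |X| ∨ IsSquare (2 * m * |X|)) :
    ∃ c : ℚ, (0 ≤ X ∧ IsSquare X ∧ b = c ^ 2) ∨ (X < 0 ∧ IsSquare (-X) ∧ b = -c ^ 2) ∨
      (0 ≤ X ∧ IsSquare (2 * m * X) ∧ b = 2 * m * c ^ 2) ∨
      (X < 0 ∧ IsSquare (2 * m * (-X)) ∧ b = -(2 * m) * c ^ 2) := by
  have hm' : (m : ℚ) ≠ 0 := by exact_mod_cast hm0
  have hb : b = X / d ^ 2 := by rw [hXb]; field_simp
  rcases lt_or_ge X 0 with hX | hX
  · rw [abs_of_neg hX] at h
    rcases h with h | h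
    · obtain ⟨r, hr⟩ := id h
      refine ⟨r / d, Or.inr (Or.inl ⟨hX, h, ?_⟩)⟩
      have h1 : (X : ℚ) = -(r * r) := by
        have : X = -(r * r) := by omega
        exact_mod_cast this
      rw [hb, h1, div_pow]
      ring
    · obtain ⟨r, hr⟩ := id h
      refine ⟨r / (2 * m * d), Or.inr (Or.inr (Or.inr ⟨hX, h, ?_⟩))⟩
      have h1 : 2 * (m : ℚ) * -(X : ℚ) = r * r := by exact_mod_cast hr
      rw [hb, div_pow, ← sub_eq_zero]
      field_simp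
      linear_combination -h1
  · rw [abs_of_nonneg hX] at h
    rcases h with h | h
    · obtain ⟨r, hr⟩ := id h
      refine ⟨r / d, Or.inl ⟨hX, h, ?_⟩⟩
      have h1 : (X : ℚ) = r * r := by exact_mod_cast hr
      rw [hb, h1, div_pow]
      ring
    · obtain ⟨r, hr⟩ := id h
      refine ⟨r / (2 * m * d), Or.inr (Or.inr (Or.inl ⟨hX, h, ?_⟩))⟩
      have h1 : 2 * (m : ℚ) * (X : ℚ) = r * r := by exact_mod_cast hr
      rw [hb, div_pow, ← sub_eq_zero]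
      field_simp
      linear_combination h1

theorem not_dvd_B {q : ℕ} (hq : q.Prime) (h2 : q ≠ 2) (hm0 : m ≠ 0) (hqm : q ∉ m.primeFactors) :
    ¬ (q : ℤ) ∣ 2 ∧ ¬ (q : ℤ) ∣ m := by
  constructor
  · intro h
    have : q ∣ 2 := by exact_mod_cast h
    exact h2 ((Nat.prime_dvd_prime_iff_eq hq Nat.prime_two).1 this)
  · intro h
    have : q ∣ m := by exact_mod_cast h
    exact hqm (Nat.mem_primeFactors.2 ⟨hq, this, hm0⟩)

theorem ndB {q : ℕ} (hq : q.Prime) (h2 : q ≠ 2) (hm0 : m ≠ 0) (hqm : q ∉ m.primeFactors) {B : ℤ}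
    (hB : B = 2 * m ∨ B = -8 * m ∨ B = -4 * m ^ 2 ∨ B = 16 * m ^ 2) : ¬ (q : ℤ) ∣ B := by
  obtain ⟨h3, h4⟩ := not_dvd_B hq h2 hm0 hqm
  have hqi : Prime (q : ℤ) := Nat.prime_iff_prime_int.1 hq
  have h5 : ∀ (n : ℕ) (k : ℕ), ¬ (q : ℤ) ∣ 2 ^ n * (m : ℤ) ^ k := by
    intro n k h
    rcases hqi.dvd_or_dvd h with h | h
    · exact h3 (hqi.dvd_of_dvd_pow h)
    · exact h4 (hqi.dvd_of_dvd_pow h)
  rcases hB with h | h | h | h
  · rw [h]
    have := h5 1 1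
    rwa [pow_one, pow_one] at this
  · rw [h]
    intro h6
    apply h5 3 1
    have e : (2 : ℤ) ^ 3 * (m : ℤ) ^ 1 = -(-8 * m) := by ring
    rw [e]
    exact h6.neg_right
  · rw [h]
    intro h6
    apply h5 2 2
    have e : (2 : ℤ) ^ 2 * (m : ℤ) ^ 2 = -(-4 * m ^ 2) := by ring
    rw [e]
    exact h6.neg_right
  · rw [h]
    intro h6
    apply h5 4 2
    have e : (2 : ℤ) ^ 4 * (m : ℤ) ^ 2 = 16 * m ^ 2 := by ring
    rw [e]
    exact h6

/-- the common part of the four computations -/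
theorem glob (hm : Squarefree m) (h1 : ∀ p ∈ m.primeFactors, p % 4 = 1) (hk : Nsg m) {X : ℤ}
    (hX : X ≠ 0) {B : ℤ} (hB : B = 2 * m ∨ B = -8 * m ∨ B = -4 * m ^ 2 ∨ B = 16 * m ^ 2)
    (h : ∀ q : ℕ, ∀ hq : q.Prime, q ≠ 2 → @C1 (@Padic q ⟨hq⟩) _ 0 (B : ℚ) (X : ℚ))
    (hin : ∀ p ∈ m.primeFactors, ∀ hp : p.Prime, @SqP p ⟨hp⟩ (X : ℚ) ∨
      @SqP p ⟨hp⟩ ((2 * m * X : ℤ) : ℚ)) :
    IsSquare |X| ∨ IsSquare (2 * m * |X|) := by
  refine close hm h1 hk hX ?_ ?_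
  · intro q hq h2 hqm
    have : Fact q.Prime := ⟨hq⟩
    exact out1 (p := q) (ndB hq h2 hm.ne_zero hqm hB) hX (h q hq h2)
  · intro p hp
    have hpp := Nat.prime_of_mem_primeFactors hp
    have : Fact p.Prime := ⟨hpp⟩
    exact key_of (p := p) (h1 p hp) hm hp hX (hin p hp hpp)

end

end Run7.h843.Sha
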