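import Mathlib
import Pool.Agent.Run7.h843.S5

/-!
# The 2-primary part of Sha of `y² = x³ - 4 m² s⁴ x` and of `y² = x³ + 2 m x`
-/

set_option autoImplicit false

attribute [-instance] DivisionRing.toRatAlgebra

namespace Run7.h843.Sha

open Pool.Agent.Y682 (S1 S2 LL1 LL2 Sq quot_eq IsT Zc Zc_card Zc_lower MP)
open Run7.h843.Desc

section

variable {m : ℕ}

theorem pos_of_C1 {B X : ℚ} (hB : 0 < B) (h : C1 ℝ 0 B X) : 0 ≤ X := by
  obtain ⟨z, m', hz, hzm, hm⟩ := h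
  have hB' : (0 : ℝ) < (B : ℝ) := by exact_mod_cast hB
  rw [Rat.cast_zero] at hm
  have hm' : 0 < m' := by
    rcases hm with hm | hm | ⟨h0, y, hy⟩
    · rw [hm]; exact one_pos
    · rw [hm]; exact hB'
    · by_contra h1
      have h2 : m' < 0 := lt_of_le_of_ne (not_lt.1 h1) h0
      have h3 : 0 < m' ^ 2 + 0 * m' + B := by
        rw [zero_mul, add_zero]
        positivity
      nlinarith [sq_nonneg y, mul_neg_of_neg_of_pos h2 h3]
  by_contra hX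
  have hX' : (X : ℝ) < 0 := by exact_mod_cast not_le.1 hX
  have : (X : ℝ) * z ^ 2 < 0 := mul_neg_of_neg_of_pos hX' (by positivity)
  linarith

/-- the first Selmer bound for `E` -/
theorem selE1 (hm : Squarefree m) (h1 : ∀ p ∈ m.primeFactors, p % 4 = 1) (hk : Nsg m) {s b : ℚ}
    (hs : s ≠ 0) (hb : b ≠ 0) (h : LL1 (0 : ℚ) (((-4 * m ^ 2 : ℤ) : ℚ) * s ^ 4) b) :
    ∃ c : ℚ, b = c ^ 2 ∨ b = -c ^ 2 ∨ b = 2 * m * c ^ 2 ∨ b = -(2 * m) * c ^ 2 := by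
  obtain ⟨X, d, hX, hd, hXb⟩ := exists_X hb
  have hall : ∀ q : ℕ, ∀ hq : q.Prime, @C1 (@Padic q ⟨hq⟩) _ 0 ((-4 * m ^ 2 : ℤ) : ℚ) (X : ℚ) := by
    intro q hq
    have : Fact q.Prime := ⟨hq⟩
    rw [hXb]
    exact C1_mul hd (C1_scale hs (LL1_pad h q))
  have h2 := glob hm h1 hk hX (B := -4 * m ^ 2) (Or.inr (Or.inr (Or.inl rfl)))
    (fun q hq _ => hall q hq) (fun p hp hpp => by
      have : Fact p.Prime := ⟨hpp⟩
      exact in2 (p := p) (h1 p hp) hm hp (hall p hpp))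
  obtain ⟨c, hc⟩ := four_cases hm.ne_zero hd hXb h2
  refine ⟨c, ?_⟩
  rcases hc with hc | hc | hc | hc
  · exact Or.inl hc.2.2
  · exact Or.inr (Or.inl hc.2.2)
  · exact Or.inr (Or.inr (Or.inl hc.2.2))
  · exact Or.inr (Or.inr (Or.inr hc.2.2))

/-- the second Selmer bound for `E` -/
theorem selE2 (hm : Squarefree m) (h1 : ∀ p ∈ m.primeFactors, p % 4 = 1) (hk : Nsg m) {s b : ℚ}
    (hs : s ≠ 0) (hb : b ≠ 0) (h : LL2 (0 : ℚ) (((-4 * m ^ 2 : ℤ) : ℚ) * s ^ 4) b) :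
    ∃ c : ℚ, b = c ^ 2 := by
  obtain ⟨X, d, hX, hd, hXb⟩ := exists_X hb
  have e16 : (-4 : ℚ) * (((-4 * m ^ 2 : ℤ) : ℚ) * s ^ 4) = ((16 * m ^ 2 : ℤ) : ℚ) * s ^ 4 := by
    push_cast
    ring
  have hmq : (0 : ℚ) < m := by exact_mod_cast Nat.pos_of_ne_zero hm.ne_zero
  have hall : ∀ q : ℕ, ∀ hq : q.Prime, @C1 (@Padic q ⟨hq⟩) _ 0 ((16 * m ^ 2 : ℤ) : ℚ) (X : ℚ) := by
    intro q hq
    have : Fact q.Prime := ⟨hq⟩
    rw [hXb]
    refine C1_mul hd (C1_scale hs ?_)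
    rw [← e16]
    exact C2_iff.1 (LL2_pad h q)
  have h2 := glob hm h1 hk hX (B := 16 * m ^ 2) (Or.inr (Or.inr (Or.inr rfl)))
    (fun q hq _ => hall q hq) (fun p hp hpp => by
      have : Fact p.Prime := ⟨hpp⟩
      refine in2 (p := p) (h1 p hp) hm hp ?_
      rw [hXb]
      exact C1_mul hd (C1_scale hs (C2_C1 (h1 p hp) (LL2_pad h p))))
  have hreal : (0 : ℚ) ≤ X := by
    refine pos_of_C1 (B := ((16 * m ^ 2 : ℤ) : ℚ)) (by push_cast; positivity) ?_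
    rw [hXb]
    refine C1_mul hd (C1_scale hs ?_)
    rw [← e16]
    exact C2_iff.1 (LL2_real h)
  have hX0 : 0 ≤ X := by exact_mod_cast hreal
  obtain ⟨c, hc⟩ := four_cases hm.ne_zero hd hXb h2
  rcases hc with hc | hc | hc | hc
  · exact ⟨c, hc.2.2⟩
  · exact absurd hc.1 (not_lt.2 hX0)
  · exfalso
    have hc' := hc.2.2
    have hc0 : c ≠ 0 := by
      rintro rfl
      apply hb
      rw [hc']
      ring
    have h3 : C1 ℚ_[2] 0 (((16 * m ^ 2 : ℤ) : ℚ)) b := by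
      refine C1_scale hs ?_
      rw [← e16]
      exact C2_iff.1 (LL2_pad h 2)
    obtain ⟨z, m', hz, hzm, hm'⟩ := h3
    have hcp : (c : ℚ_[2]) ≠ 0 := Rat.cast_ne_zero.2 hc0
    refine nE (m := m) (odd_m h1 hm) (z := c * z) (m' := m') (mul_ne_zero hcp hz) ?_ ?_
    · rw [← hzm, hc']
      push_cast
      ring
    · rw [Rat.cast_zero, Rat.cast_intCast] at hm'
      have e : ((16 * m ^ 2 : ℤ) : ℚ_[2]) = 16 * (m : ℚ_[2]) ^ 2 := by push_cast; rfl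
      rwa [e] at hm'
  · exact absurd hc.1 (not_lt.2 hX0)

/-- the first Selmer bound for `C` -/
theorem selC1 (hm : Squarefree m) (h1 : ∀ p ∈ m.primeFactors, p % 4 = 1) (hk : Nsg m) {b : ℚ}
    (hb : b ≠ 0) (h : LL1 (0 : ℚ) ((2 * m : ℤ) : ℚ) b) :
    ∃ c : ℚ, b = c ^ 2 ∨ b = 2 * m * c ^ 2 := by
  obtain ⟨X, d, hX, hd, hXb⟩ := exists_X hb
  have hmq : (0 : ℚ) < m := by exact_mod_cast Nat.pos_of_ne_zero hm.ne_zero
  have hall : ∀ q : ℕ, ∀ hq : q.Prime, @C1 (@Padic q ⟨hq⟩) _ 0 ((2 * m : ℤ) : ℚ) (X : ℚ) := by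
    intro q hq
    have : Fact q.Prime := ⟨hq⟩
    rw [hXb]
    exact C1_mul hd (LL1_pad h q)
  have h2 := glob hm h1 hk hX (B := 2 * m) (Or.inl rfl)
    (fun q hq _ => hall q hq) (fun p hp hpp => by
      have : Fact p.Prime := ⟨hpp⟩
      refine in1 (p := p) ?_ hm hp (hall p hpp)
      have := h1 p hp
      omega)
  have hreal : (0 : ℚ) ≤ X := by
    refine pos_of_C1 (B := ((2 * m : ℤ) : ℚ)) (by push_cast; positivity) ?_
    rw [hXb]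
    exact C1_mul hd (LL1_real h)
  have hX0 : 0 ≤ X := by exact_mod_cast hreal
  obtain ⟨c, hc⟩ := four_cases hm.ne_zero hd hXb h2
  rcases hc with hc | hc | hc | hc
  · exact ⟨c, Or.inl hc.2.2⟩
  · exact absurd hc.1 (not_lt.2 hX0)
  · exact ⟨c, Or.inr hc.2.2⟩
  · exact absurd hc.1 (not_lt.2 hX0)

/-- the second Selmer bound for `C` -/
theorem selC2 (hm : Squarefree m) (h1 : ∀ p ∈ m.primeFactors, p % 4 = 1) (hk : Nsg m) {b : ℚ}
    (hb : b ≠ 0) (h : LL2 (0 : ℚ) ((2 * m : ℤ) : ℚ) b) :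
    ∃ c : ℚ, b = c ^ 2 ∨ b = -(2 * m) * c ^ 2 := by
  obtain ⟨X, d, hX, hd, hXb⟩ := exists_X hb
  have e8 : (-4 : ℚ) * ((2 * m : ℤ) : ℚ) = ((-8 * m : ℤ) : ℚ) := by
    push_cast
    ring
  have hall0 : ∀ q : ℕ, ∀ hq : q.Prime, @C1 (@Padic q ⟨hq⟩) _ 0 ((-8 * m : ℤ) : ℚ) b := by
    intro q hq
    have : Fact q.Prime := ⟨hq⟩
    rw [← e8]
    exact C2_iff.1 (LL2_pad h q)
  have hall : ∀ q : ℕ, ∀ hq : q.Prime, @C1 (@Padic q ⟨hq⟩) _ 0 ((-8 * m : ℤ) : ℚ) (X : ℚ) := by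
    intro q hq
    have : Fact q.Prime := ⟨hq⟩
    rw [hXb]
    exact C1_mul hd (hall0 q hq)
  have h2 := glob hm h1 hk hX (B := -8 * m) (Or.inr (Or.inl rfl))
    (fun q hq _ => hall q hq) (fun p hp hpp => by
      have : Fact p.Prime := ⟨hpp⟩
      refine in1 (p := p) ?_ hm hp ?_
      · have := h1 p hp
        omega
      · rw [hXb]
        exact C1_mul hd (C2_C1 (h1 p hp) (LL2_pad h p)))
  obtain ⟨c, hc⟩ := four_cases hm.ne_zero hd hXb h2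
  have e : ((-8 * m : ℤ) : ℚ_[2]) = -8 * (m : ℚ_[2]) := by push_cast; rfl
  rcases hc with hc | hc | hc | hc
  · exact ⟨c, Or.inl hc.2.2⟩
  · exfalso
    have hc' := hc.2.2
    have hc0 : c ≠ 0 := by
      rintro rfl
      apply hb
      rw [hc']
      ring
    obtain ⟨z, m', hz, hzm, hm'⟩ := hall0 2 Nat.prime_two
    have hcp : (c : ℚ_[2]) ≠ 0 := Rat.cast_ne_zero.2 hc0
    refine nC1 (m := m) (odd_m h1 hm) (z := c * z) (m' := m') (mul_ne_zero hcp hz) ?_ ?_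
    · rw [← hzm, hc']
      push_cast
      ring
    · rw [Rat.cast_zero, Rat.cast_intCast, e] at hm'
      exact hm'
  · exfalso
    have hc' := hc.2.2
    have hc0 : c ≠ 0 := by
      rintro rfl
      apply hb
      rw [hc']
      ring
    obtain ⟨z, m', hz, hzm, hm'⟩ := hall0 2 Nat.prime_two
    have hcp : (c : ℚ_[2]) ≠ 0 := Rat.cast_ne_zero.2 hc0
    refine nC2 (m := m) (odd_m h1 hm) (z := c * z) (m' := m') (mul_ne_zero hcp hz) ?_ ?_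
    · rw [← hzm, hc']
      push_cast
      ring
    · rw [Rat.cast_zero, Rat.cast_intCast, e] at hm'
      exact hm'
  · exact ⟨c, Or.inr hc.2.2⟩

end

section

/-- the class of a nonzero rational number -/
noncomputable def cl (r : ℚ) (hr : r ≠ 0) : ℚˣ ⧸ Sq ℚ := ((Units.mk0 r hr : ℚˣ) : ℚˣ ⧸ Sq ℚ)

theorem cl_of {b : ℚˣ} {r c : ℚ} (hr : r ≠ 0) (h : (b : ℚ) = r * c ^ 2) :
    (b : ℚˣ ⧸ Sq ℚ) = cl r hr := by
  have hc0 : c ≠ 0 := by
    rintro rfl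
    rw [zero_pow two_ne_zero, mul_zero] at h
    exact b.ne_zero h
  unfold cl
  rw [eq_comm, quot_eq]
  refine ⟨Units.mk0 c hc0, Units.ext ?_⟩
  rw [Units.val_mul, Units.val_pow_eq_pow_val, Units.val_mk0, Units.val_mk0, h]

theorem one_cl : (1 : ℚˣ ⧸ Sq ℚ) = cl 1 one_ne_zero := by
  have h : (1 : ℚˣ ⧸ Sq ℚ) = ((1 : ℚˣ) : ℚˣ ⧸ Sq ℚ) := rfl
  rw [h]
  exact cl_of (c := 1) one_ne_zero (by rw [Units.val_one]; norm_num)

/-- the end of the argument -/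
theorem end_of {W : WeierstrassCurve ℚ} {A B : ℚ} (hT : IsT W A B) (hf : Finite (Zc W))
    (hc : Nat.card (Zc W) ≤ 4) : Module.finrank ℤ (MP W) = 0 ∧
      ∀ (n : ℕ) (x : Pool.Agent.TH841.NF.D.Sha W), 2 ^ n • x = 0 → x = 0 := by
  obtain ⟨h3, h4⟩ := Zc_lower hT
  have h8 := h4.trans hc
  have h9 : 1 ≤ Nat.card {x : Pool.Agent.TH841.NF.D.Sha W // 2 • x = 0} := by
    have : Nonempty {x : Pool.Agent.TH841.NF.D.Sha W // 2 • x = 0} := ⟨⟨0, smul_zero _⟩⟩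
    exact Nat.card_pos
  have h7 : 1 ≤ 2 ^ (Module.finrank ℤ (MP W)) := Nat.one_le_two_pow
  constructor
  · by_contra h0
    have h10 : 2 ≤ 2 ^ (Module.finrank ℤ (MP W)) := by
      calc 2 = 2 ^ 1 := rfl
        _ ≤ _ := Nat.pow_le_pow_right two_pos (Nat.one_le_iff_ne_zero.2 h0)
    nlinarith
  · have h5 : Nat.card {x : Pool.Agent.TH841.NF.D.Sha W // 2 • x = 0} ≤ 1 := by nlinarith
    have h6 : Subsingleton {x : Pool.Agent.TH841.NF.D.Sha W // 2 • x = 0} :=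
      Finite.card_le_one_iff_subsingleton.1 h5
    have h2 : ∀ x : Pool.Agent.TH841.NF.D.Sha W, 2 • x = 0 → x = 0 := by
      intro x hx
      have h7 := @Subsingleton.elim _ h6 ⟨x, hx⟩ ⟨0, smul_zero _⟩
      exact congrArg Subtype.val h7
    intro n
    induction n with
    | zero =>
      intro x hx
      rwa [pow_zero, one_smul] at hx
    | succ n ih =>
      intro x hx
      apply ih
      apply h2
      rw [smul_smul, mul_comm, ← pow_succ]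
      exact hx

variable {m : ℕ}

/-- **the curve `y² = x³ - 4 m² s⁴ x`** -/
theorem shaE (hm : Squarefree m) (h1 : ∀ p ∈ m.primeFactors, p % 4 = 1) (hk : Nsg m) {s : ℚ}
    (hs : s ≠ 0) {W : WeierstrassCurve ℚ} (hT : IsT W 0 (((-4 * m ^ 2 : ℤ) : ℚ) * s ^ 4)) :
    Module.finrank ℤ (MP W) = 0 ∧
      ∀ (n : ℕ) (x : Pool.Agent.TH841.NF.D.Sha W), 2 ^ n • x = 0 → x = 0 := by
  have hm0 : (m : ℚ) ≠ 0 := by exact_mod_cast hm.ne_zero
  have r2 : (-1 : ℚ) ≠ 0 := by norm_num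
  have r3 : 2 * (m : ℚ) ≠ 0 := mul_ne_zero two_ne_zero hm0
  have r4 : -(2 * (m : ℚ)) ≠ 0 := neg_ne_zero.2 r3
  let U : Set (ℚˣ ⧸ Sq ℚ) := {cl 1 one_ne_zero, cl (-1) r2, cl (2 * (m : ℚ)) r3, cl (-(2 * (m : ℚ))) r4}
  let V : Set (ℚˣ ⧸ Sq ℚ) := {cl 1 one_ne_zero}
  have hUf : U.Finite := Set.toFinite U
  have hVf : V.Finite := Set.toFinite V
  have hfin : Finite U := hUf.to_subtype
  have hfin' : Finite V := hVf.to_subtype
  have hU4 : Nat.card U ≤ 4 := by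
    have h1 : U.ncard ≤ 4 := by
      refine (Set.ncard_insert_le _ _).trans ?_
      refine Nat.succ_le_succ ((Set.ncard_insert_le _ _).trans ?_)
      refine Nat.succ_le_succ ((Set.ncard_insert_le _ _).trans ?_)
      rw [Set.ncard_singleton]
    exact h1
  have hV1 : Nat.card V ≤ 1 := by
    have h1 : V.ncard ≤ 1 := by
      rw [Set.ncard_singleton]
    exact h1
  have H1 : ∀ b : ℚˣ, LL1 (0 : ℚ) (((-4 * m ^ 2 : ℤ) : ℚ) * s ^ 4) (b : ℚ) →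
      (b : ℚˣ ⧸ Sq ℚ) ∈ U := by
    intro b hb
    obtain ⟨c, hc⟩ := selE1 hm h1 hk hs b.ne_zero hb
    rcases hc with hc | hc | hc | hc
    · exact Or.inl (cl_of _ (by rw [one_mul]; exact hc))
    · exact Or.inr (Or.inl (cl_of (c := c) _ (by rw [hc]; ring)))
    · exact Or.inr (Or.inr (Or.inl (cl_of _ hc)))
    · exact Or.inr (Or.inr (Or.inr (cl_of _ hc)))
  have H2 : ∀ b : ℚˣ, LL2 (0 : ℚ) (((-4 * m ^ 2 : ℤ) : ℚ) * s ^ 4) (b : ℚ) →
      (b : ℚˣ ⧸ Sq ℚ) ∈ V := by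
    intro b hb
    obtain ⟨c, hc⟩ := selE2 hm h1 hk hs b.ne_zero hb
    exact cl_of _ (by rw [one_mul]; exact hc)
  obtain ⟨hf, hc⟩ := Zc_card hT (U := U) (V := V) one_cl H1 H2
  exact end_of hT hf (hc.trans (by nlinarith))

/-- **the curve `y² = x³ + 2 m x`** -/
theorem shaC (hm : Squarefree m) (h1 : ∀ p ∈ m.primeFactors, p % 4 = 1) (hk : Nsg m)
    {W : WeierstrassCurve ℚ} (hT : IsT W 0 ((2 * m : ℤ) : ℚ)) :
    Module.finrank ℤ (MP W) = 0 ∧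
      ∀ (n : ℕ) (x : Pool.Agent.TH841.NF.D.Sha W), 2 ^ n • x = 0 → x = 0 := by
  have hm0 : (m : ℚ) ≠ 0 := by exact_mod_cast hm.ne_zero
  have r3 : 2 * (m : ℚ) ≠ 0 := mul_ne_zero two_ne_zero hm0
  have r4 : -(2 * (m : ℚ)) ≠ 0 := neg_ne_zero.2 r3
  let U : Set (ℚˣ ⧸ Sq ℚ) := {cl 1 one_ne_zero, cl (2 * (m : ℚ)) r3}
  let V : Set (ℚˣ ⧸ Sq ℚ) := {cl 1 one_ne_zero, cl (-(2 * (m : ℚ))) r4}
  have hUf : U.Finite := Set.toFinite U
  have hVf : V.Finite := Set.toFinite V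
  have hfin : Finite U := hUf.to_subtype
  have hfin' : Finite V := hVf.to_subtype
  have hU2 : Nat.card U ≤ 2 := by
    have h1 : U.ncard ≤ 2 := by
      refine (Set.ncard_insert_le _ _).trans ?_
      rw [Set.ncard_singleton]
    exact h1
  have hV2 : Nat.card V ≤ 2 := by
    have h1 : V.ncard ≤ 2 := by
      refine (Set.ncard_insert_le _ _).trans ?_
      rw [Set.ncard_singleton]
    exact h1
  have H1 : ∀ b : ℚˣ, LL1 (0 : ℚ) ((2 * m : ℤ) : ℚ) (b : ℚ) → (b : ℚˣ ⧸ Sq ℚ) ∈ U := by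
    intro b hb
    obtain ⟨c, hc⟩ := selC1 hm h1 hk b.ne_zero hb
    rcases hc with hc | hc
    · exact Or.inl (cl_of _ (by rw [one_mul]; exact hc))
    · exact Or.inr (cl_of _ hc)
  have H2 : ∀ b : ℚˣ, LL2 (0 : ℚ) ((2 * m : ℤ) : ℚ) (b : ℚ) → (b : ℚˣ ⧸ Sq ℚ) ∈ V := by
    intro b hb
    obtain ⟨c, hc⟩ := selC2 hm h1 hk b.ne_zero hb
    rcases hc with hc | hc
    · exact Or.inl (cl_of _ (by rw [one_mul]; exact hc))
    · exact Or.inr (cl_of _ hc)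
  obtain ⟨hf, hc⟩ := Zc_card hT (U := U) (V := V) (Or.inl one_cl) H1 H2
  exact end_of hT hf (hc.trans (by nlinarith))

end

end Run7.h843.Sha
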