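import Pool.Agent.Run7.h843.V2
import Pool.Agent.Run7.h843.S6
import Pool.Agent.Run7.h843.Q4

/-!
# The criterion for `y² = x³ + 2 m x`, both directions
-/

set_option autoImplicit false

open NumberField IsDedekindDomain

namespace Run7.h843.Conv

open Pool.Agent.Y698.SG.Cv (WF)
open Pool.Agent.TH841.NF.D (Sha)
open Run7.h843.Desc

theorem iffC {m : ℕ} (hm : Squarefree m) (h1 : ∀ p ∈ m.primeFactors, p % 4 = 1)
    {W : WeierstrassCurve ℚ} (hW : W = ⟨0, 0, 0, ((2 * (m : ℤ) : ℤ) : ℚ), ((0 : ℤ) : ℚ)⟩) :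
    (Finite W.toAffine.Point ∧ ∀ (n : ℕ) (x : Sha W), 2 ^ n • x = 0 → x = 0) ↔ Nsg m := by
  have hW2 : W = WF ℚ 0 (2 * m) := by
    rw [hW]
    unfold WF Pool.Agent.Y668.Wt
    simp
  constructor
  · rintro ⟨hf, hs⟩
    rw [hW2] at hf hs
    refine convC hm h1 hf fun x hx => hs 1 x ?_
    rw [pow_one, two_smul, hx]
  · intro hk
    constructor
    · rw [hW]
      exact Pool.Agent.Y687.finite_pt_of_set (Run7.h843.Quart.pts4 hm h1 hk)
    · intro n x hx
      have hm0 : (m : ℚ) ≠ 0 := by exact_mod_cast hm.ne_zero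
      have hT : Pool.Agent.Y682.IsT W 0 ((2 * (m : ℤ) : ℤ) : ℚ) := by
        rw [hW]
        refine ⟨rfl, rfl, rfl, rfl, by simp, ?_, ?_⟩
        · push_cast
          exact mul_ne_zero two_ne_zero hm0
        · have e : (0 : ℚ) ^ 2 - 4 * ((2 * (m : ℤ) : ℤ) : ℚ) = -(8 * (m : ℚ)) := by
            push_cast
            ring
          rw [e]
          exact neg_ne_zero.2 (mul_ne_zero (by norm_num) hm0)
      exact (Run7.h843.Sha.shaC hm h1 hk hT).2 n x hx

end Run7.h843.Conv
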