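import Pool.Agent.Run7.h843.G2
import Pool.Agent.Run7.h741.NM.Fin
import Pool.Agent.N916.GB.Fin

/-!
# The negative discriminants with 4-rank zero in the classes modulo `M`

The natural proportion is `η = ∏_{i ≥ 1} (1 - 2^{-i})` in every union of classes modulo a multiple
`M` of `8` one of which is prime to `M` (after `Pool/Agent/N916/GB/Tr.lean` by helper916, where
`M = 120`).
-/

set_option autoImplicit false

open scoped Classical
open Finset Filter

namespace Pool.Agent.Run7.h843.G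

open Pool.Agent.N916.GB (Po eta Gd Gd_iff_Qc)
open Pool.Agent.N969.P15 (Qc)
open Pool.Agent.Run7.h741.NM (card_eq low)

theorem dens (M : ℕ) (hM : 8 ∣ M) (hM0 : 0 < M) (t : Bool) (r s : ZMod 2) (K : Finset ℕ)
    (hok : OkM M t r s K) (b : ℕ) (hb : b ∈ K) (hc : b.Coprime M) :
    Tendsto (fun X : ℕ => (((Icc 1 X).filter fun n => Squarefree n ∧ n % M ∈ K ∧
      Gd t r s n.primeFactors).card : ℝ) /
    (((Icc 1 X).filter fun n => Squarefree n ∧ n % M ∈ K).card : ℝ)) atTop (nhds eta) := by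
  have hM2 : 2 ∣ M := Dvd.dvd.trans (by norm_num) hM
  have hK : ∀ b ∈ K, b < M ∧ b % 2 = 1 := by
    intro b hb
    have := hok.2.2 b hb
    refine ⟨this.1, ?_⟩
    have h2 := this.2
    split_ifs at h2 <;> omega
  have hMr : (0 : ℝ) < M := by exact_mod_cast hM0
  rw [Metric.tendsto_atTop]
  intro ε hε
  obtain ⟨X₀, hX₀⟩ := t_DQ M hM hM0 t r s K hok (ε / 2 * (1 / (4 * M))) (by positivity)
  refine ⟨max X₀ (100 * M ^ 2), fun X hX => ?_⟩
  have h1 := hX₀ X ((le_max_left _ _).trans hX)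
  have e1 := card_eq hM2 (fun b hb => (hK b hb).2) X (Gd t r s)
  have e2 := card_eq hM2 (fun b hb => (hK b hb).2) X (fun _ => True)
  rw [Finset.filter_true] at e2
  simp only [and_true] at e2
  rw [← e1, ← e2] at h1
  have h2 := low hM2 hM0 (hK b hb).1 hc X ((le_max_right _ _).trans hX)
  have h3 : (((Icc 1 X).filter fun D => Squarefree D ∧ D % M = b).card : ℝ) ≤
      (((Icc 1 X).filter fun n => Squarefree n ∧ n % M ∈ K).card : ℝ) := by
    refine Nat.cast_le.2 (card_le_card fun n hn => ?_)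
    rw [mem_filter] at hn ⊢
    refine ⟨hn.1, hn.2.1, ?_⟩
    rw [hn.2.2]
    exact hb
  have hX1 : (0 : ℝ) < X := by
    have h4 : 0 < X := by
      have h5 := (le_max_right X₀ (100 * M ^ 2)).trans hX
      have h6 : 0 < 100 * M ^ 2 := by positivity
      omega
    exact_mod_cast h4
  set L : ℝ := (((Icc 1 X).filter fun n => Squarefree n ∧ n % M ∈ K).card : ℝ) with hL
  have hL0 : 0 < L := by
    have : (0 : ℝ) < 1 / (4 * M) * X := by positivity
    linarith
  rw [Real.dist_eq, div_sub' hL0.ne', abs_div, abs_of_pos hL0, div_lt_iff₀ hL0]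
  have h4 : ε / 2 * (1 / (4 * M)) * X ≤ ε / 2 * L := by
    have := h2.trans h3
    calc ε / 2 * (1 / (4 * M)) * X = ε / 2 * (1 / (4 * M) * X) := by ring
      _ ≤ ε / 2 * L := by gcongr
  have h5 : ε / 2 * L < ε * L := by
    apply mul_lt_mul_of_pos_right _ hL0
    linarith
  calc |(((Icc 1 X).filter fun n => Squarefree n ∧ n % M ∈ K ∧
      Gd t r s n.primeFactors).card : ℝ) - L * eta| = |(((Icc 1 X).filter fun n => Squarefree n ∧
        n % M ∈ K ∧ Gd t r s n.primeFactors).card : ℝ) - eta * L| := by rw [mul_comm L]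
    _ ≤ ε / 2 * (1 / (4 * M)) * X := h1
    _ < ε * L := by linarith

/-- **The proportion of `Qc` (no ideal class of order four in `ℚ(√-n)`) among the squarefree `n` with
a property `P` which depends on `n` modulo `M`, `8 ∣ M`, implies `n = 3` modulo `4` and holds for a
number prime to `M`.** -/
theorem dens_Qc (M : ℕ) (hM : 8 ∣ M) (hM0 : 0 < M) (P : ℕ → Prop) (hP : ∀ n, P n ↔ P (n % M))
    (h4 : ∀ n, P n → n % 4 = 3) (b : ℕ) (hb : P b) (hc : b.Coprime M) :
    Tendsto (fun X : ℕ => (((Icc 1 X).filter fun n => Squarefree n ∧ P n ∧ Qc n).card : ℝ) /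
      (((Icc 1 X).filter fun n => Squarefree n ∧ P n).card : ℝ)) atTop (nhds eta) := by
  set K : Finset ℕ := (range M).filter P with hK
  have hm : ∀ n : ℕ, n % M ∈ K ↔ P n := by
    intro n
    rw [hK, mem_filter, mem_range, hP n]
    exact ⟨fun h => h.2, fun h => ⟨Nat.mod_lt _ hM0, h⟩⟩
  have hok : OkM M false 0 0 K := by
    refine ⟨fun _ => rfl, fun h => absurd h (by decide), fun a ha => ?_⟩
    rw [hK, mem_filter, mem_range] at ha
    rw [if_pos rfl]
    exact ⟨ha.1, h4 a ha.2⟩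
  have hbc : (b % M).Coprime M := by
    rw [Nat.Coprime, ← Nat.gcd_rec, Nat.gcd_comm]
    exact hc
  have h := dens M hM hM0 false 0 0 K hok (b % M) ((hm b).2 hb) hbc
  refine h.congr fun X => ?_
  congr 3
  · refine filter_congr fun n _ => ?_
    rw [hm]
    constructor
    · rintro ⟨h1, h2, h3⟩
      exact ⟨h1, h2, (Gd_iff_Qc h1 (h4 n h2)).1 h3⟩
    · rintro ⟨h1, h2, h3⟩
      exact ⟨h1, h2, (Gd_iff_Qc h1 (h4 n h2)).2 h3⟩
  · refine filter_congr fun n _ => ?_
    rw [hm]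

/-- the positive lower density of such a set -/
theorem low_P (M : ℕ) (hM : 8 ∣ M) (hM0 : 0 < M) (P : ℕ → Prop) (hP : ∀ n, P n ↔ P (n % M))
    (b : ℕ) (hb : P b) (hc : b.Coprime M) (X : ℕ) (hX : 100 * M ^ 2 ≤ X) :
    1 / (4 * M) * (X : ℝ) ≤ (((Icc 1 X).filter fun n => Squarefree n ∧ P n).card : ℝ) := by
  have hM2 : 2 ∣ M := Dvd.dvd.trans (by norm_num) hM
  have hbc : (b % M).Coprime M := by
    rw [Nat.Coprime, ← Nat.gcd_rec, Nat.gcd_comm]
    exact hc
  refine (low hM2 hM0 (Nat.mod_lt b hM0) hbc X hX).trans ?_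
  refine Nat.cast_le.2 (card_le_card fun n hn => ?_)
  rw [mem_filter] at hn ⊢
  refine ⟨hn.1, hn.2.1, ?_⟩
  rw [hP, hn.2.2, ← hP]
  exact hb

/-- the classes of `X_0(21)` -/
theorem dens21 : Tendsto
    (fun X : ℕ => (((Icc 1 X).filter fun n => Squarefree n ∧ (n % 84 = 19 ∨ n % 84 = 31 ∨
      n % 84 = 55) ∧ Qc n).card : ℝ) /
      (((Icc 1 X).filter fun n => Squarefree n ∧ (n % 84 = 19 ∨ n % 84 = 31 ∨
      n % 84 = 55)).card : ℝ)) atTop (nhds eta) := by
  have h := dens_Qc 168 (by norm_num) (by norm_num)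
    (fun n => n % 84 = 19 ∨ n % 84 = 31 ∨ n % 84 = 55)
    (fun n => by
      show (n % 84 = 19 ∨ n % 84 = 31 ∨ n % 84 = 55) ↔
        (n % 168 % 84 = 19 ∨ n % 168 % 84 = 31 ∨ n % 168 % 84 = 55)
      omega) (fun n h => by omega) 19 (Or.inl rfl) (by norm_num)
  refine h.congr fun X => ?_
  congr 3 <;> (ext n; simp only [mem_filter])

end Pool.Agent.Run7.h843.G
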