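import Mathlib
import Pool.Agent.Run7.h843.S3

/-!
# The local images of `y² = x (x² + α m x + β m²)`
-/

set_option autoImplicit false
set_option linter.unusedSectionVars false

attribute [-instance] DivisionRing.toRatAlgebra

namespace Run7.h843.R

open Pool.Agent.Y682 (S1 S2)
open Run7.h843.Sha

theorem S2_iff {F : Type} [Field F] {A B m : F} : S2 A B m ↔ S1 (-2 * A) (A ^ 2 - 4 * B) m := by
  unfold S1 S2
  have e2 : ∀ y : F, y ^ 2 = m * ((m - A) ^ 2 - 4 * B) ↔
      y ^ 2 = m * (m ^ 2 + -2 * A * m + (A ^ 2 - 4 * B)) := by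
    intro y
    have : m * ((m - A) ^ 2 - 4 * B) = m * (m ^ 2 + -2 * A * m + (A ^ 2 - 4 * B)) := by ring
    rw [this]
  simp only [e2]

theorem C2_iff {F : Type} [Field F] [CharZero F] {A B b : ℚ} :
    C2 F A B b ↔ C1 F (-2 * A) (A ^ 2 - 4 * B) b := by
  unfold C1 C2
  have e1 : (((-2 * A : ℚ)) : F) = -2 * (A : F) := by push_cast; ring
  have e2 : (((A ^ 2 - 4 * B : ℚ)) : F) = (A : F) ^ 2 - 4 * (B : F) := by push_cast; ring
  rw [e1, e2]
  simp only [S2_iff]

section

variable {L : Type} [Field L] (w : Valuation L (WithZero (Multiplicative ℤ)))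

/-- the value of a member of the local image is a square if `B` is a unit -/
lemma even_gen {A B m : L} (hA : w A ≤ 1) (hB : w B = 1) (h : S1 A B m) : ∃ g, w m = g ^ 2 := by
  rcases h with h | h | ⟨hm, y, hy⟩
  · exact ⟨1, by rw [h, map_one, one_pow]⟩
  · exact ⟨1, by rw [h, hB, one_pow]⟩
  · have hwm : w m ≠ 0 := (Valuation.ne_zero_iff _).2 hm
    have e := congrArg w hy
    rw [map_pow, map_mul] at e
    rcases lt_trichotomy (w m) 1 with h1 | h1 | h1
    · refine ⟨w y, ?_⟩
      have h2 : w (m ^ 2 + A * m + B) = 1 := by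
        rw [Valuation.map_add_eq_of_lt_right, hB]
        rw [hB]
        refine lt_of_le_of_lt (Valuation.map_add _ _ _) (max_lt ?_ ?_)
        · rw [map_pow]
          exact pow_lt_one₀ zero_le h1 two_ne_zero
        · rw [map_mul]
          exact lt_of_le_of_lt (mul_le_of_le_one_left' hA) h1
      rw [h2, mul_one] at e
      exact e.symm
    · exact ⟨1, by rw [h1, one_pow]⟩
    · refine ⟨w y / w m, ?_⟩
      have h2 : w (m ^ 2 + A * m + B) = w m ^ 2 := by
        have h3 : w (m ^ 2 + A * m) = w m ^ 2 := by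
          rw [Valuation.map_add_eq_of_lt_left, map_pow]
          rw [map_mul, map_pow, sq]
          refine lt_of_le_of_lt (mul_le_of_le_one_left' hA) ?_
          calc w m = 1 * w m := (one_mul _).symm
            _ < w m * w m := mul_lt_mul_of_pos_right h1 (zero_lt_iff.2 hwm)
        rw [Valuation.map_add_eq_of_lt_left, h3]
        rw [hB, h3]
        exact one_lt_pow₀ h1 two_ne_zero
      rw [h2] at e
      rw [div_pow, e]
      field_simp

/-- a place which divides `m` exactly once: the three cases -/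
lemma cls3 (hens : ∀ t : L, w t < 1 → ∃ y : L, y ^ 2 = 1 + t) {α β m x : L} (hm0 : m ≠ 0)
    (hα : w α ≤ 1) (hβ : w β = 1) (hβ0 : β ≠ 0)
    (hodd : ∀ g : WithZero (Multiplicative ℤ), g ^ 2 ≠ w m)
    (h : S1 (α * m) (β * m ^ 2) x) :
    (∃ c : L, c ≠ 0 ∧ x = c ^ 2) ∨ (∃ c : L, c ≠ 0 ∧ x = β * c ^ 2) ∨
      (∃ ξ : L, x = m * ξ ∧ w ξ = 1 ∧ w (ξ ^ 2 + α * ξ + β) < 1) := by
  rcases h with h | h | ⟨hx, y, hy⟩
  · exact Or.inl ⟨1, one_ne_zero, by rw [h, one_pow]⟩
  · exact Or.inr (Or.inl ⟨m, hm0, h⟩)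
  · have hwx : w x ≠ 0 := (Valuation.ne_zero_iff _).2 hx
    have hwm : w m ≠ 0 := (Valuation.ne_zero_iff _).2 hm0
    have hne : ∀ t r : L, r ^ 2 = 1 + t → w t < 1 → r ≠ 0 := by
      rintro t r hr h1 rfl
      have h2 : t = -1 := by linear_combination -hr
      rw [h2, Valuation.map_neg, map_one] at h1
      exact lt_irrefl _ h1
    rcases lt_trichotomy (w x) (w m) with h1 | h1 | h1
    · right; left
      have h2 : w (x / m) < 1 := by
        rw [map_div₀, div_lt_iff₀ (zero_lt_iff.2 hwm), one_mul]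
        exact h1
      have ht : w ((α / β) * (x / m) + (x / m) ^ 2 / β) < 1 := by
        refine lt_of_le_of_lt (Valuation.map_add _ _ _) (max_lt ?_ ?_)
        · rw [map_mul, map_div₀ w α β, hβ, div_one]
          exact lt_of_le_of_lt (mul_le_of_le_one_left' hα) h2
        · rw [map_div₀, hβ, div_one, map_pow]
          exact pow_lt_one₀ zero_le h2 two_ne_zero
      obtain ⟨r, hr⟩ := hens _ ht
      have hr0 := hne _ r hr ht
      have hk : m * r ≠ 0 := mul_ne_zero hm0 hr0
      have h3 : β * (m * r) ^ 2 = x ^ 2 + α * m * x + β * m ^ 2 := by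
        rw [mul_pow, hr]
        field_simp
        ring
      rw [← h3] at hy
      have hy0 : y ≠ 0 := by
        rintro rfl
        rw [zero_pow two_ne_zero] at hy
        exact mul_ne_zero hx (mul_ne_zero hβ0 (pow_ne_zero 2 hk)) hy.symm
      refine ⟨y / (β * (m * r)), div_ne_zero hy0 (mul_ne_zero hβ0 hk), ?_⟩
      rw [div_pow, hy]
      field_simp
    · set u := x / m with hu
      have hmu : x = m * u := by rw [hu]; field_simp
      have hwu : w u = 1 := by rw [hu, map_div₀, h1, div_self hwm]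
      have h3 : y ^ 2 = m ^ 3 * u * (u ^ 2 + α * u + β) := by
        rw [hy, hmu]; ring
      have ha : w (u ^ 2 + α * u + β) ≤ 1 := by
        refine (Valuation.map_add _ _ _).trans (max_le ((Valuation.map_add _ _ _).trans
          (max_le ?_ ?_)) hβ.le)
        · rw [map_pow, hwu, one_pow]
        · rw [map_mul, hwu, mul_one]
          exact hα
      rcases lt_or_eq_of_le ha with ha' | ha'
      · exact Or.inr (Or.inr ⟨u, hmu, hwu, ha'⟩)
      · exfalso
        have h4 := congrArg w h3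
        rw [map_pow, map_mul, map_mul, map_pow, hwu, ha', mul_one, mul_one] at h4
        apply hodd (w y / w m)
        rw [div_pow, h4]
        field_simp
    · left
      have h2 : w (m / x) < 1 := by
        rw [map_div₀, div_lt_iff₀ (zero_lt_iff.2 hwx), one_mul]
        exact h1
      have ht : w (α * (m / x) + β * (m / x) ^ 2) < 1 := by
        refine lt_of_le_of_lt (Valuation.map_add _ _ _) (max_lt ?_ ?_)
        · rw [map_mul]
          exact lt_of_le_of_lt (mul_le_of_le_one_left' hα) h2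
        · rw [map_mul, hβ, one_mul, map_pow]
          exact pow_lt_one₀ zero_le h2 two_ne_zero
      obtain ⟨r, hr⟩ := hens _ ht
      have hr0 := hne _ r hr ht
      have hk : x * r ≠ 0 := mul_ne_zero hx hr0
      have h3 : (x * r) ^ 2 = x ^ 2 + α * m * x + β * m ^ 2 := by
        rw [mul_pow, hr]
        field_simp
        ring
      rw [← h3] at hy
      have hy0 : y ≠ 0 := by
        rintro rfl
        rw [zero_pow two_ne_zero] at hy
        exact mul_ne_zero hx (pow_ne_zero 2 hk) hy.symm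
      refine ⟨y / (x * r), div_ne_zero hy0 hk, ?_⟩
      rw [div_pow, hy]
      field_simp

/-- a unit near a root of the quadratic polynomial -/
lemma near (hens : ∀ t : L, w t < 1 → ∃ y : L, y ^ 2 = 1 + t) {α β ρ ρ' ξ : L}
    (h1 : ρ + ρ' = -α) (h2 : ρ * ρ' = β) (hρ : w ρ = 1) (hρ' : w ρ' = 1) (hξ : w ξ = 1)
    (h : w (ξ ^ 2 + α * ξ + β) < 1) : ∃ c : L, c ≠ 0 ∧ (ξ = ρ * c ^ 2 ∨ ξ = ρ' * c ^ 2) := by
  have e : ξ ^ 2 + α * ξ + β = (ξ - ρ) * (ξ - ρ') := by
    rw [← h2]
    linear_combination ξ * h1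
  have key : ∀ σ : L, w σ = 1 → w (ξ - σ) < 1 → ∃ c : L, c ≠ 0 ∧ ξ = σ * c ^ 2 := by
    intro σ hσ hlt
    have hσ0 : σ ≠ 0 := by
      rw [← Valuation.ne_zero_iff w, hσ]
      exact one_ne_zero
    have ht : w ((ξ - σ) / σ) < 1 := by rw [map_div₀, hσ, div_one]; exact hlt
    obtain ⟨r, hr⟩ := hens _ ht
    refine ⟨r, ?_, ?_⟩
    · rintro rfl
      have h3 : (ξ - σ) / σ = -1 := by linear_combination -hr
      rw [h3, Valuation.map_neg, map_one] at ht
      exact lt_irrefl _ ht
    · rw [hr]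
      field_simp
      ring
  by_cases hc : w (ξ - ρ) < 1
  · obtain ⟨c, hc0, hc⟩ := key ρ hρ hc
    exact ⟨c, hc0, Or.inl hc⟩
  · have h3 : w (ξ - ρ) = 1 := by
      refine le_antisymm ?_ (not_lt.1 hc)
      refine (Valuation.map_sub _ _ _).trans ?_
      rw [hξ, hρ, max_self]
    rw [e, map_mul, h3, one_mul] at h
    obtain ⟨c, hc0, hc⟩ := key ρ' hρ' h
    exact ⟨c, hc0, Or.inr hc⟩

end

end Run7.h843.R
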