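import Mathlib
import Pool.Agent.Run7.h843.R1

/-!
# The local images over `ℚ_[p]`
-/

set_option autoImplicit false
set_option linter.unusedSectionVars false

attribute [-instance] DivisionRing.toRatAlgebra

namespace Run7.h843.R

open Pool.Agent.Y682 (S1 S2)
open Run7.h843.Sha Run7.h843.Desc
open Pool.Agent.Y703.CQ (nr)

section

variable {p : ℕ} [hp : Fact p.Prime]

theorem w_int_le (a : ℤ) : wv p (a : ℚ_[p]) ≤ 1 := by
  rw [w_int]
  exact Int.padicValuation_le_one p a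

theorem wv_m {m : ℕ} (hm : Squarefree m) (hpm : p ∈ m.primeFactors) :
    wv p ((m : ℤ) : ℚ_[p]) = WithZero.exp (-1 : ℤ) := by
  have hp1 : p.Prime := hp.out
  obtain ⟨k, hk⟩ := Nat.dvd_of_mem_primeFactors hpm
  have h3 : ¬ (p : ℤ) ∣ k := by
    intro h3
    have h5 : p ∣ k := by exact_mod_cast h3
    have h6 : p * p ∣ m := by
      rw [hk]
      exact mul_dvd_mul_left _ h5
    exact hp1.one_lt.ne' (Nat.isUnit_iff.1 (hm p h6))
  have e : (m : ℤ) = p * k := by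
    rw [hk]
    push_cast
    ring
  rw [e, Int.cast_mul, Int.cast_natCast, map_mul, w_self, w_one h3, mul_one]

theorem w_pow2 (h2 : p ≠ 2) (n : ℕ) : wv p ((2 : ℚ_[p]) ^ n) = 1 := by
  have h : wv p ((2 : ℤ) : ℚ_[p]) = 1 := by
    apply w_one
    intro h
    have : p ∣ 2 := by exact_mod_cast h
    exact h2 ((Nat.prime_dvd_prime_iff_eq hp.out Nat.prime_two).1 this)
  rw [map_pow]
  push_cast at h
  rw [h, one_pow]

/-- a unit `ξ` with `ξ² + α ξ + β` not a unit, if `α² - 4 β = 8 c²` -/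
theorem sq_two (h2 : p ≠ 2) {α β c : ℤ} (h : α ^ 2 - 4 * β = 8 * c ^ 2) (hc : ¬ (p : ℤ) ∣ c)
    {ξ : ℚ_[p]} (hξ : wv p ξ ≤ 1) (hlt : wv p (ξ ^ 2 + α * ξ + β) < 1) : IsSquare (2 : ZMod p) := by
  obtain ⟨x, rfl⟩ : ∃ x : ℤ_[p], (x : ℚ_[p]) = ξ := ⟨⟨ξ, w_le_iff.1 hξ⟩, rfl⟩
  have h3 : ((x ^ 2 + (α : ℤ_[p]) * x + (β : ℤ_[p]) : ℤ_[p]) : ℚ_[p]) =
      (x : ℚ_[p]) ^ 2 + α * x + β := by
    push_cast
    rfl
  rw [← h3, w_lt_iff] at hlt
  have h4 : PadicInt.toZMod (x ^ 2 + (α : ℤ_[p]) * x + (β : ℤ_[p])) = 0 := by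
    rw [← RingHom.mem_ker, PadicInt.ker_toZMod, IsLocalRing.mem_maximalIdeal,
      PadicInt.mem_nonunits]
    exact hlt
  rw [map_add, map_add, map_pow, map_mul, map_intCast, map_intCast] at h4
  have hcz : (c : ZMod p) ≠ 0 := fun h0 => hc ((ZMod.intCast_zmod_eq_zero_iff_dvd c p).1 h0)
  have h2z : (2 : ZMod p) ≠ 0 := by
    intro h0
    have h0' : ((2 : ℤ) : ZMod p) = 0 := by exact_mod_cast h0
    rw [ZMod.intCast_zmod_eq_zero_iff_dvd] at h0'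
    have : p ∣ 2 := by exact_mod_cast h0'
    exact h2 ((Nat.prime_dvd_prime_iff_eq hp.out Nat.prime_two).1 this)
  have h5 : ((α : ZMod p)) ^ 2 - 4 * (β : ZMod p) = 8 * (c : ZMod p) ^ 2 := by
    exact_mod_cast congrArg (fun z : ℤ => (z : ZMod p)) h
  refine ⟨(2 * PadicInt.toZMod x + α) / (2 * c), ?_⟩
  field_simp
  linear_combination (-4) * h4 - h5

/-- the places `3`, `5` modulo `8` which divide `m` -/
theorem inert_even (h2 : p ≠ 2) (hns : ¬ IsSquare (2 : ZMod p)) {m : ℕ} (hm : Squarefree m)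
    (hpm : p ∈ m.primeFactors) {α β c : ℤ} (h : α ^ 2 - 4 * β = 8 * c ^ 2) (hc : ¬ (p : ℤ) ∣ c)
    (hβ : ¬ (p : ℤ) ∣ β) {X : ℤ} (hX : X ≠ 0)
    (hC : C1 ℚ_[p] ((α * m : ℤ) : ℚ) ((β * m ^ 2 : ℤ) : ℚ) (X : ℚ)) : vv p X = 0 := by
  obtain ⟨z, x, hz, hzm, hx⟩ := hC
  rw [Rat.cast_intCast, Rat.cast_intCast] at hx
  rw [Rat.cast_intCast] at hzm
  have hwm := wv_m hm hpm
  have hm0 : ((m : ℤ) : ℚ_[p]) ≠ 0 := by
    rw [← (Valuation.ne_zero_iff (wv p)), hwm]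
    exact WithZero.exp_ne_zero
  have hβ1 := w_one hβ
  have hβ0 : (β : ℚ_[p]) ≠ 0 := by
    rw [← (Valuation.ne_zero_iff (wv p)), hβ1]
    exact one_ne_zero
  have hwz : wv p z ≠ 0 := (Valuation.ne_zero_iff _).2 hz
  rw [Int.cast_mul, Int.cast_mul, Int.cast_pow] at hx
  rcases cls3 (wv p) (hens h2) hm0 (w_int_le α) hβ1 hβ0 (fun g hg => exp_odd (n := -1) (by norm_num)
    (hg.trans hwm)) hx with ⟨c', -, hc'⟩ | ⟨c', -, hc'⟩ | ⟨ξ, -, hξ, hlt⟩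
  · refine vv_of_even (p := p) hX (g := wv p c' / wv p z) ?_
    have h5 := congrArg (wv p) (hzm.trans hc')
    rw [map_mul, map_pow, map_pow] at h5
    rw [div_pow, ← h5]
    field_simp
  · refine vv_of_even (p := p) hX (g := wv p c' / wv p z) ?_
    have h5 := congrArg (wv p) (hzm.trans hc')
    rw [map_mul, map_mul, map_pow, map_pow, hβ1, one_mul] at h5
    rw [div_pow, ← h5]
    field_simp
  · exact absurd (sq_two h2 h hc hξ.le hlt) hns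

/-- good places -/
theorem good_even {A B : ℤ} (hB : ¬ (p : ℤ) ∣ B) {X : ℤ} (hX : X ≠ 0)
    (hC : C1 ℚ_[p] (A : ℚ) (B : ℚ) (X : ℚ)) : vv p X = 0 := by
  obtain ⟨z, x, hz, hzm, hx⟩ := hC
  rw [Rat.cast_intCast, Rat.cast_intCast] at hx
  rw [Rat.cast_intCast] at hzm
  obtain ⟨g, hg⟩ := even_gen (wv p) (w_int_le A) (w_one hB) hx
  have hwz : wv p z ≠ 0 := (Valuation.ne_zero_iff _).2 hz
  refine vv_of_even (p := p) hX (g := g / wv p z) ?_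
  rw [div_pow, ← hg, ← hzm, map_mul, map_pow]
  field_simp

/-- the ends of the two computations at the split places -/
theorem split_end {m : ℕ} {X ε : ℤ} {θ z x : ℚ_[p]} (hz : z ≠ 0) (hzm : (X : ℚ_[p]) * z ^ 2 = x)
    (h : ∃ c : ℚ_[p], c ≠ 0 ∧ (x = c ^ 2 ∨ x = ε * ((m : ℤ) : ℚ_[p]) * θ * c ^ 2)) :
    (∃ c : ℚ_[p], (X : ℚ_[p]) = c ^ 2) ∨ ∃ c : ℚ_[p], ((ε * m * X : ℤ) : ℚ_[p]) * θ = c ^ 2 := by
  obtain ⟨c, -, hc | hc⟩ := h
  · left
    refine ⟨c / z, ?_⟩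
    rw [div_pow, ← hc, ← hzm]
    field_simp
  · right
    refine ⟨ε * ((m : ℤ) : ℚ_[p]) * θ * c / z, ?_⟩
    rw [Int.cast_mul, Int.cast_mul, div_pow, eq_div_iff (pow_ne_zero 2 hz)]
    linear_combination (ε : ℚ_[p]) * ((m : ℤ) : ℚ_[p]) * θ * (hzm.trans hc)

/-- `w (2 ± r) = 1` if `r² = 2` -/
theorem w_theta (h2 : p ≠ 2) {r : ℚ_[p]} (hr : r ^ 2 = 2) : wv p r = 1 ∧ wv p (2 + r) = 1 ∧
    wv p (2 - r) = 1 := by
  have hw2 := w_pow2 (p := p) h2 1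
  rw [pow_one] at hw2
  have h1 : wv p r = 1 := by
    have h3 := congrArg (wv p) hr
    rw [map_pow, hw2] at h3
    rcases lt_trichotomy (wv p r) 1 with h | h | h
    · exact absurd h3 (pow_lt_one₀ zero_le h two_ne_zero).ne
    · exact h
    · exact absurd h3 (one_lt_pow₀ h two_ne_zero).ne'
  have ha : wv p (2 + r) ≤ 1 := by
    refine (Valuation.map_add _ _ _).trans ?_
    rw [h1, hw2, max_self]
  have hb : wv p (2 - r) ≤ 1 := by
    refine (Valuation.map_sub _ _ _).trans ?_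
    rw [h1, hw2, max_self]
  have hprod : wv p (2 + r) * wv p (2 - r) = 1 := by
    rw [← map_mul]
    have : (2 + r) * (2 - r) = 2 := by linear_combination -hr
    rw [this, hw2]
  refine ⟨h1, le_antisymm ha ?_, le_antisymm hb ?_⟩
  · rw [← hprod]
    exact mul_le_of_le_one_right' hb
  · rw [← hprod]
    exact mul_le_of_le_one_left' ha

/-- the split places, first curve -/
theorem split1 (h2 : p ≠ 2) {m : ℕ} (hm : Squarefree m) (hpm : p ∈ m.primeFactors) {r : ℚ_[p]}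
    (hr : r ^ 2 = 2) {X : ℤ}
    (hC : C1 ℚ_[p] ((-4 * m : ℤ) : ℚ) ((2 * m ^ 2 : ℤ) : ℚ) (X : ℚ)) :
    (∃ c : ℚ_[p], (X : ℚ_[p]) = c ^ 2) ∨
      ∃ c : ℚ_[p], ((1 * m * X : ℤ) : ℚ_[p]) * (2 + r) = c ^ 2 := by
  obtain ⟨z, x, hz, hzm, hx⟩ := hC
  rw [Rat.cast_intCast, Rat.cast_intCast] at hx
  rw [Rat.cast_intCast] at hzm
  have hwm := wv_m hm hpm
  have hm0 : ((m : ℤ) : ℚ_[p]) ≠ 0 := by
    rw [← (Valuation.ne_zero_iff (wv p)), hwm]
    exact WithZero.exp_ne_zero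
  have hw2 := w_pow2 (p := p) h2 1
  rw [pow_one] at hw2
  obtain ⟨hr1, hra, hrb⟩ := w_theta h2 hr
  have hr0 : r ≠ 0 := by
    rw [← (Valuation.ne_zero_iff (wv p)), hr1]
    exact one_ne_zero
  refine split_end (ε := 1) hz hzm ?_
  have hx' : S1 (((-4 : ℤ) : ℚ_[p]) * ((m : ℤ) : ℚ_[p])) (2 * ((m : ℤ) : ℚ_[p]) ^ 2) x := by
    push_cast at hx ⊢
    exact hx
  rcases cls3 (wv p) (hens h2) hm0 (w_int_le (-4)) hw2 two_ne_zero (fun g hg => exp_odd (n := -1)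
    (by norm_num) (hg.trans hwm)) hx' with ⟨c', hc0, hc'⟩ | ⟨c', hc0, hc'⟩ | ⟨ξ, hxξ, hξ, hlt⟩
  · exact ⟨c', hc0, Or.inl hc'⟩
  · exact ⟨r * c', mul_ne_zero hr0 hc0, Or.inl (by rw [hc', mul_pow, hr])⟩
  · obtain ⟨c, hc0, hc⟩ := near (wv p) (hens h2) (ρ := 2 + r) (ρ' := 2 - r)
      (by push_cast; ring) (by linear_combination -hr) hra hrb hξ hlt
    rcases hc with hc | hc
    · exact ⟨c, hc0, Or.inr (by rw [hxξ, hc]; push_cast; ring)⟩
    · have h3 : 2 + r ≠ 0 := by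
        rw [← (Valuation.ne_zero_iff (wv p)), hra]
        exact one_ne_zero
      refine ⟨r * c / (2 + r), div_ne_zero (mul_ne_zero hr0 hc0) h3, Or.inr ?_⟩
      rw [hxξ, hc]
      push_cast
      field_simp
      linear_combination (-2 * (m : ℚ_[p])) * hr

/-- the split places, second curve -/
theorem split2 (h2 : p ≠ 2) {m : ℕ} (hm : Squarefree m) (hpm : p ∈ m.primeFactors) {r : ℚ_[p]}
    (hr : r ^ 2 = 2) {X : ℤ}
    (hC : C1 ℚ_[p] ((8 * m : ℤ) : ℚ) ((8 * m ^ 2 : ℤ) : ℚ) (X : ℚ)) :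
    (∃ c : ℚ_[p], (X : ℚ_[p]) = c ^ 2) ∨
      ∃ c : ℚ_[p], ((-1 * m * X : ℤ) : ℚ_[p]) * (2 + r) = c ^ 2 := by
  obtain ⟨z, x, hz, hzm, hx⟩ := hC
  rw [Rat.cast_intCast, Rat.cast_intCast] at hx
  rw [Rat.cast_intCast] at hzm
  have hwm := wv_m hm hpm
  have hm0 : ((m : ℤ) : ℚ_[p]) ≠ 0 := by
    rw [← (Valuation.ne_zero_iff (wv p)), hwm]
    exact WithZero.exp_ne_zero
  have hw2 := w_pow2 (p := p) h2 1
  rw [pow_one] at hw2
  have hw8 : wv p (8 : ℚ_[p]) = 1 := by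
    have := w_pow2 (p := p) h2 3
    have e : (2 : ℚ_[p]) ^ 3 = 8 := by norm_num
    rwa [e] at this
  obtain ⟨hr1, hra, hrb⟩ := w_theta h2 hr
  have hr0 : r ≠ 0 := by
    rw [← (Valuation.ne_zero_iff (wv p)), hr1]
    exact one_ne_zero
  refine split_end (ε := -1) hz hzm ?_
  have hx' : S1 (((8 : ℤ) : ℚ_[p]) * ((m : ℤ) : ℚ_[p])) (8 * ((m : ℤ) : ℚ_[p]) ^ 2) x := by
    push_cast at hx ⊢
    exact hx
  have h3 : 2 + r ≠ 0 := by
    rw [← (Valuation.ne_zero_iff (wv p)), hra]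
    exact one_ne_zero
  rcases cls3 (wv p) (hens h2) hm0 (w_int_le 8) hw8 (by norm_num) (fun g hg => exp_odd (n := -1)
    (by norm_num) (hg.trans hwm)) hx' with ⟨c', hc0, hc'⟩ | ⟨c', hc0, hc'⟩ | ⟨ξ, hxξ, hξ, hlt⟩
  · exact ⟨c', hc0, Or.inl hc'⟩
  · refine ⟨2 * r * c', mul_ne_zero (mul_ne_zero two_ne_zero hr0) hc0, Or.inl ?_⟩
    rw [hc', mul_pow, mul_pow, hr]
    ring
  · obtain ⟨c, hc0, hc⟩ := near (wv p) (hens h2) (ρ := -2 * (2 - r)) (ρ' := -2 * (2 + r))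
      (by push_cast; ring) (by linear_combination (-4) * hr)
      (by rw [map_mul, Valuation.map_neg, hw2, hrb, mul_one])
      (by rw [map_mul, Valuation.map_neg, hw2, hra, mul_one]) hξ hlt
    rcases hc with hc | hc
    · refine ⟨2 * c / (2 + r), div_ne_zero (mul_ne_zero two_ne_zero hc0) h3, Or.inr ?_⟩
      rw [hxξ, hc]
      push_cast
      field_simp
      linear_combination (m : ℚ_[p]) * hr
    · refine ⟨r * c, mul_ne_zero hr0 hc0, Or.inr ?_⟩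
      rw [hxξ, hc]
      push_cast
      linear_combination ((m : ℚ_[p]) * (2 + r) * c ^ 2) * hr

end

end Run7.h843.R
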