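import Mathlib
import Pool.Agent.Run7.h843.R2

/-!
# The symbols: `2 + √2` modulo `p`, signs
-/

set_option autoImplicit false
set_option linter.unusedSectionVars false

attribute [-instance] DivisionRing.toRatAlgebra

namespace Run7.h843.R

open Run7.h843.Sha Run7.h843.Desc
open Pool.Agent.Y703.CQ (nr)

/-- `1` if `p = 7` or `9` modulo `16` -/
def f16 (p : ℕ) : ZMod 2 := if p % 16 = 7 ∨ p % 16 = 9 then 1 else 0

/-- `1` if `p = 3` modulo `4` -/
def e3 (p : ℕ) : ZMod 2 := if p % 4 = 3 then 1 else 0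

/-- the sign -/
def sg (A : ℤ) : ZMod 2 := if A < 0 then 1 else 0

/-- the core of the computation of `(2 + √2)^((p-1)/2)` -/
theorem core16 {p : ℕ} [hp : Fact p.Prime] (h : p % 8 = 1 ∨ p % 8 = 7) {s : ZMod p}
    {K : Type} [Field K] [CharP K p] (φ : ZMod p →+* K) {z : K} (hz : z ^ 8 = -1)
    (hs : φ s = z ^ 2 + (z⁻¹) ^ 2) (hs2 : s ^ 2 = 2) :
    IsSquare (2 + s) ↔ (p % 16 = 1 ∨ p % 16 = 15) := by
  have h2 : (2 : ZMod p) ≠ 0 := by
    intro h0
    have h0' : ((2 : ℕ) : ZMod p) = 0 := by exact_mod_cast h0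
    rw [ZMod.natCast_eq_zero_iff] at h0'
    have := (Nat.prime_dvd_prime_iff_eq hp.out Nat.prime_two).1 h0'
    omega
  have h2K : (2 : K) ≠ 0 := by
    have := (map_ne_zero φ).2 h2
    rwa [map_ofNat] at this
  have hz0 : z ≠ 0 := by
    rintro rfl
    rw [zero_pow (by norm_num)] at hz
    apply h2K
    linear_combination 2 * hz
  have hn1 : (-1 : K) ≠ 1 := by
    intro h0
    apply h2K
    linear_combination -h0
  have hsne : (2 + s) ≠ 0 := by
    intro h0
    apply h2
    have e : s = -2 := by linear_combination h0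
    rw [e] at hs2
    linear_combination hs2
  set a : K := z + z⁻¹ with ha
  have ha2 : φ (2 + s) = a ^ 2 := by
    rw [map_add, map_ofNat, hs, ha]
    field_simp
    ring
  have ha0 : a ≠ 0 := by
    intro h0
    rw [h0, zero_pow two_ne_zero] at ha2
    exact hsne ((map_eq_zero φ).1 ha2)
  have hz16 : z ^ 16 = 1 := by
    have : z ^ 16 = (z ^ 8) ^ 2 := by ring
    rw [this, hz]
    ring
  -- Frobenius
  have hfr : a ^ p = z ^ p + (z⁻¹) ^ p := by
    rw [ha, add_pow_char]
  have hodd : 2 * (p / 2) + 1 = p := by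
    rcases h with h | h <;> omega
  have hap : (φ (2 + s)) ^ (p / 2) * a = a ^ p := by
    rw [ha2, ← pow_mul, ← pow_succ, hodd]
  have hE := ZMod.euler_criterion p hsne
  have hE' : IsSquare (2 + s) ↔ (φ (2 + s)) ^ (p / 2) = 1 := by
    rw [hE, ← map_pow]
    constructor
    · intro h3
      rw [h3, map_one]
    · intro h3
      apply φ.injective
      rw [h3, map_one]
  rw [hE']
  have hpow : ∀ r : ℕ, p % 16 = r → z ^ p = z ^ r ∧ (z⁻¹) ^ p = (z⁻¹) ^ r := by
    intro r hr
    have e : p = 16 * (p / 16) + r := by omega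
    constructor
    · conv_lhs => rw [e, pow_add, pow_mul, hz16, one_pow, one_mul]
    · conv_lhs => rw [e, pow_add, pow_mul, inv_pow z 16, hz16, inv_one, one_pow, one_mul]
  have hr : p % 16 = 1 ∨ p % 16 = 15 ∨ p % 16 = 7 ∨ p % 16 = 9 := by
    rcases h with h | h <;> omega
  rcases hr with h5 | h5 | h5 | h5
  · obtain ⟨b1, b2⟩ := hpow 1 h5
    rw [b1, b2] at hfr
    rw [hfr] at hap
    have h6 : (φ (2 + s)) ^ (p / 2) = 1 := by
      have : ((φ (2 + s)) ^ (p / 2) - 1) * a = 0 := by
        rw [sub_mul, hap, ha]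
        ring
      rcases mul_eq_zero.1 this with h7 | h7
      · exact sub_eq_zero.1 h7
      · exact absurd h7 ha0
    exact ⟨fun _ => Or.inl h5, fun _ => h6⟩
  · obtain ⟨b1, b2⟩ := hpow 15 h5
    have c1 : z ^ 15 = z⁻¹ := by
      apply eq_inv_of_mul_eq_one_left
      rw [← pow_succ]
      exact hz16
    have c2 : (z⁻¹) ^ 15 = z := by
      rw [inv_pow, c1, inv_inv]
    rw [b1, b2, c1, c2] at hfr
    rw [hfr] at hap
    have h6 : (φ (2 + s)) ^ (p / 2) = 1 := by
      have : ((φ (2 + s)) ^ (p / 2) - 1) * a = 0 := by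
        rw [sub_mul, hap, ha]
        ring
      rcases mul_eq_zero.1 this with h7 | h7
      · exact sub_eq_zero.1 h7
      · exact absurd h7 ha0
    exact ⟨fun _ => Or.inr h5, fun _ => h6⟩
  · obtain ⟨b1, b2⟩ := hpow 7 h5
    have c1 : z ^ 7 = -z⁻¹ := by
      have : z ^ 7 * z = -1 := by rw [← pow_succ]; exact hz
      field_simp
      linear_combination this
    have c2 : (z⁻¹) ^ 7 = -z := by
      rw [inv_pow, c1, inv_neg, inv_inv]
    rw [b1, b2, c1, c2] at hfr
    rw [hfr] at hap
    have h6 : (φ (2 + s)) ^ (p / 2) = -1 := by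
      have : ((φ (2 + s)) ^ (p / 2) + 1) * a = 0 := by
        rw [add_mul, hap, ha]
        ring
      rcases mul_eq_zero.1 this with h7 | h7
      · exact eq_neg_of_add_eq_zero_left h7
      · exact absurd h7 ha0
    rw [h6]
    constructor
    · intro h7
      exact absurd h7 hn1
    · omega
  · obtain ⟨b1, b2⟩ := hpow 9 h5
    have c1 : z ^ 9 = -z := by
      have : z ^ 9 = z ^ 8 * z := pow_succ _ _
      rw [this, hz]
      ring
    have c2 : (z⁻¹) ^ 9 = -z⁻¹ := by
      rw [inv_pow, c1, inv_neg]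
    rw [b1, b2, c1, c2] at hfr
    rw [hfr] at hap
    have h6 : (φ (2 + s)) ^ (p / 2) = -1 := by
      have : ((φ (2 + s)) ^ (p / 2) + 1) * a = 0 := by
        rw [add_mul, hap, ha]
        ring
      rcases mul_eq_zero.1 this with h7 | h7
      · exact eq_neg_of_add_eq_zero_left h7
      · exact absurd h7 ha0
    rw [h6]
    constructor
    · intro h7
      exact absurd h7 hn1
    · omega

theorem sym16' {p : ℕ} [hp : Fact p.Prime] (h : p % 8 = 1 ∨ p % 8 = 7) {r : ZMod p}
    (hr : r ^ 2 = 2) {K : Type} [Field K] [Algebra (ZMod p) K] {z : K} (hz : z ^ 8 = -1) :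
    IsSquare (2 + r) ↔ (p % 16 = 1 ∨ p % 16 = 15) := by
  have h2 : (2 : ZMod p) ≠ 0 := by
    intro h0
    have h0' : ((2 : ℕ) : ZMod p) = 0 := by exact_mod_cast h0
    rw [ZMod.natCast_eq_zero_iff] at h0'
    have := (Nat.prime_dvd_prime_iff_eq hp.out Nat.prime_two).1 h0'
    omega
  have h2K : (2 : K) ≠ 0 := by
    have := (map_ne_zero (algebraMap (ZMod p) K)).2 h2
    rwa [map_ofNat] at this
  have hz0 : z ≠ 0 := by
    rintro rfl
    rw [zero_pow (by norm_num)] at hz
    apply h2K
    linear_combination 2 * hz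
  have : CharP K p := charP_of_injective_algebraMap (algebraMap (ZMod p) K).injective p
  have h3 : (z ^ 2 + (z⁻¹) ^ 2 - algebraMap (ZMod p) K r) *
      (z ^ 2 + (z⁻¹) ^ 2 + algebraMap (ZMod p) K r) = 0 := by
    have h4 : (algebraMap (ZMod p) K r) ^ 2 = 2 := by rw [← map_pow, hr, map_ofNat]
    have h5 : (z ^ 2 + (z⁻¹) ^ 2) ^ 2 = 2 := by
      field_simp
      linear_combination hz
    linear_combination h5 - h4
  rcases mul_eq_zero.1 h3 with h4 | h4
  · exact core16 h (algebraMap (ZMod p) K) hz (sub_eq_zero.1 h4).symm hr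
  · have h5 : algebraMap (ZMod p) K (-r) = z ^ 2 + (z⁻¹) ^ 2 := by
      rw [map_neg]
      linear_combination -h4
    rw [← core16 h (algebraMap (ZMod p) K) hz h5 (by rw [neg_sq]; exact hr)]
    have hr0 : r ≠ 0 := by
      rintro rfl
      rw [zero_pow two_ne_zero] at hr
      exact h2 hr.symm
    have key : ∀ u : ZMod p, u ^ 2 = 2 → IsSquare (2 + u) → IsSquare (2 + -u) := by
      rintro u hu ⟨c, hc⟩
      have hu0 : u ≠ 0 := by
        rintro rfl
        rw [zero_pow two_ne_zero] at hu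
        exact h2 hu.symm
      have hc0 : c ≠ 0 := by
        rintro rfl
        apply h2
        have e : u = -2 := by linear_combination hc
        rw [e] at hu
        linear_combination hu
      refine ⟨u / c, ?_⟩
      field_simp
      linear_combination (-(2 - u)) * hc - 2 * hu
    constructor
    · exact key r hr
    · intro h6
      have := key (-r) (by rw [neg_sq]; exact hr) h6
      rwa [neg_neg] at this

/-- `2 + √2` is a square modulo `p` if and only if `p = ± 1` modulo `16` -/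
theorem sym16 {p : ℕ} [hp : Fact p.Prime] (h : p % 8 = 1 ∨ p % 8 = 7) {r : ZMod p}
    (hr : r ^ 2 = 2) : IsSquare (2 + r) ↔ (p % 16 = 1 ∨ p % 16 = 15) := by
  obtain ⟨z, hz⟩ := IsAlgClosed.exists_pow_nat_eq (-1 : AlgebraicClosure (ZMod p)) (n := 8)
    (by norm_num)
  exact sym16' h hr hz

end Run7.h843.R
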