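import Mathlib
import Pool.Agent.Run7.h843.R3
import Pool.Agent.Y971.SG.Lq

/-!
# Squares in `ℚ_[p]` and the signed symbols
-/

set_option autoImplicit false
set_option linter.unusedSectionVars false

attribute [-instance] DivisionRing.toRatAlgebra

namespace Run7.h843.R

open Run7.h843.Sha Run7.h843.Desc
open Pool.Agent.Y703.CQ (nr)

theorem sg_mul {A B : ℤ} (hA : A ≠ 0) (hB : B ≠ 0) : sg (A * B) = sg A + sg B := by
  unfold sg
  rcases lt_or_gt_of_ne hA with h1 | h1 <;> rcases lt_or_gt_of_ne hB with h2 | h2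
  · rw [if_neg (not_lt.2 (mul_pos_of_neg_of_neg h1 h2).le), if_pos h1, if_pos h2]
    decide
  · rw [if_pos (mul_neg_of_neg_of_pos h1 h2), if_pos h1, if_neg (not_lt.2 h2.le)]
    decide
  · rw [if_pos (mul_neg_of_pos_of_neg h1 h2), if_neg (not_lt.2 h1.le), if_pos h2]
    decide
  · rw [if_neg (not_lt.2 (mul_pos h1 h2).le), if_neg (not_lt.2 h1.le), if_neg (not_lt.2 h2.le)]
    decide

theorem sg_pos {A : ℤ} (hA : 0 < A) : sg A = 0 := by
  unfold sg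
  rw [if_neg (not_lt.2 hA.le)]

theorem sg_neg {A : ℤ} (hA : A < 0) : sg A = 1 := by
  unfold sg
  rw [if_pos hA]

section

variable {p : ℕ} [hp : Fact p.Prime]

theorem ch_neg_one (h2 : p ≠ 2) : ch p (-1) = e3 p := by
  classical
  unfold ch e3
  have h3 : p % 2 = 1 := hp.out.eq_two_or_odd.resolve_left h2
  have h1 : IsSquare (((-1 : ℤ) : ℤ) : ZMod p) ↔ p % 4 ≠ 3 := by
    push_cast
    exact ZMod.exists_sq_eq_neg_one_iff
  by_cases h : p % 4 = 3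
  · rw [if_neg (fun h4 => (h1.1 h4) h), if_pos h]
  · rw [if_pos (h1.2 h), if_neg h]

theorem ch_unit (h2 : p ≠ 2) {A : ℤ} (h : ¬ (p : ℤ) ∣ A) : ch p A = lam p A + sg A * e3 p := by
  have hA : A ≠ 0 := by
    rintro rfl
    exact h (dvd_zero _)
  have h1 : ¬ p ∣ A.natAbs := fun h1 => h (Int.natCast_dvd.2 h1)
  have h3 := lam_unit_nat (p := p) A.natAbs (Int.natAbs_ne_zero.2 hA) h1
  rw [lam_natAbs] at h3
  rcases lt_or_gt_of_ne hA with h4 | h4
  · rw [sg_neg h4, one_mul, h3]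
    have e : A = (-1) * (A.natAbs : ℤ) := by omega
    conv_lhs => rw [e]
    have h5 : (((A.natAbs : ℤ)) : ZMod p) ≠ 0 := by
      rw [cast_ne]
      intro h6
      exact h1 (by exact_mod_cast h6)
    rw [ch_mul (by push_cast; exact neg_ne_zero.2 one_ne_zero) h5, ch_neg_one h2, add_comm]
  · rw [sg_pos h4, zero_mul, add_zero, h3]
    congr 1
    omega

theorem two_res (h8 : p % 8 = 1 ∨ p % 8 = 7) : nr p 2 = 0 := by
  classical
  have h2 : p ≠ 2 := by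
    rintro rfl
    omega
  unfold nr
  rw [if_pos]
  push_cast
  exact (ZMod.exists_sq_eq_two_iff h2).2 h8

theorem exists_r (h8 : p % 8 = 1 ∨ p % 8 = 7) : ∃ r : ℚ_[p], r ^ 2 = 2 := by
  have h2 : p ≠ 2 := by
    rintro rfl
    omega
  have hnd : ¬ (p : ℤ) ∣ 2 := by
    intro h
    have h' : p ∣ 2 := by exact_mod_cast h
    exact h2 ((Nat.prime_dvd_prime_iff_eq hp.out Nat.prime_two).1 h')
  have h3 : IsSquare ((2 : ℤ) : ZMod p) := by
    push_cast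
    exact (ZMod.exists_sq_eq_two_iff h2).2 h8
  obtain ⟨r, hr⟩ := Pool.Agent.Y971.SG.Lq.t_SQ p 2 h2 hnd h3
  refine ⟨r, ?_⟩
  push_cast at hr
  rw [sq, ← hr]

theorem red {u : ℤ} (θ : ℤ_[p]) {c : ℚ_[p]} (h : (u : ℚ_[p]) * θ = c ^ 2) :
    IsSquare ((u : ZMod p) * PadicInt.toZMod θ) := by
  have h1 : ‖c‖ ≤ 1 := by
    by_contra h3
    have h4 : ‖c ^ 2‖ ≤ 1 := by
      rw [← h, norm_mul]
      exact mul_le_one₀ (Padic.norm_int_le_one u) (norm_nonneg _) (PadicInt.norm_le_one θ)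
    rw [norm_pow] at h4
    exact absurd h4 (not_le.2 (one_lt_pow₀ (not_le.1 h3) two_ne_zero))
  obtain ⟨c', hc'⟩ : ∃ c' : ℤ_[p], (c' : ℚ_[p]) = c := ⟨⟨c, h1⟩, rfl⟩
  have h2 : ((u : ℤ) : ℤ_[p]) * θ = c' ^ 2 := by
    apply Subtype.ext
    rw [PadicInt.coe_mul, PadicInt.coe_intCast, PadicInt.coe_pow, hc', h]
  refine ⟨PadicInt.toZMod c', ?_⟩
  rw [← map_mul, ← sq, ← h2, map_mul, map_intCast]

/-- reduction to the unit part -/
theorem unit_part {X : ℤ} (hX : X ≠ 0) {θ : ℚ_[p]} (hθ : wv p θ = 1)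
    (hs : ∃ c : ℚ_[p], (X : ℚ_[p]) * θ = c ^ 2) :
    ∃ (j : ℕ) (u : ℤ), ¬ (p : ℤ) ∣ u ∧ X = (p ^ j) ^ 2 * u ∧ vv p X = 0 ∧
      ∃ c : ℚ_[p], (u : ℚ_[p]) * θ = c ^ 2 := by
  have hp1 : p.Prime := hp.out
  obtain ⟨k, u, hu, hAu, hv⟩ := split_p (p := p) hX
  have hpk : (p : ℚ_[p]) ≠ 0 := by exact_mod_cast hp1.ne_zero
  obtain ⟨c, hc⟩ := hs
  rw [hAu, Int.cast_mul, Int.cast_pow, Int.cast_natCast] at hc
  have h1 := congrArg (wv p) hc
  rw [map_mul, map_mul, map_pow, w_self, w_one hu, hθ, mul_one, mul_one, map_pow,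
    ← WithZero.exp_nsmul] at h1
  have hk : k % 2 = 0 := by
    by_contra hk
    refine exp_odd (n := k • (-1 : ℤ)) ?_ h1.symm
    rw [nsmul_eq_mul]
    omega
  obtain ⟨j, hj⟩ : ∃ j, k = 2 * j := ⟨k / 2, by omega⟩
  refine ⟨j, u, hu, ?_, ?_, c / (p : ℚ_[p]) ^ j, ?_⟩
  · rw [hAu, hj, pow_mul']
  · rw [hv, hj]
    push_cast
    have : (2 : ZMod 2) = 0 := by decide
    rw [this, zero_mul]
  · rw [div_pow, ← hc, hj, pow_mul']
    field_simp

theorem lam_part {X : ℤ} {j : ℕ} {u : ℤ} (hu : ¬ (p : ℤ) ∣ u) (h : X = (p ^ j) ^ 2 * u) :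
    lam p X = lam p u ∧ sg X = sg u := by
  have hp1 : p.Prime := hp.out
  have hu0 : u ≠ 0 := by
    rintro rfl
    exact hu (dvd_zero _)
  have hpz : (p : ℤ) ≠ 0 := by exact_mod_cast hp1.ne_zero
  have hpos : (0 : ℤ) < (p ^ j) ^ 2 := by positivity
  constructor
  · rw [h, lam_mul p (pow_ne_zero 2 (pow_ne_zero j hpz)) hu0, lam_sq p (pow_ne_zero j hpz), zero_add]
  · rw [h, sg_mul hpos.ne' hu0, sg_pos hpos, zero_add]

theorem sq_or (h2 : p ≠ 2) {X : ℤ} (hX : X ≠ 0) (hs : ∃ c : ℚ_[p], (X : ℚ_[p]) = c ^ 2) :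
    vv p X = 0 ∧ lam p X + sg X * e3 p = 0 := by
  obtain ⟨c, hc⟩ := hs
  obtain ⟨j, u, hu, h1, h3, c', hc'⟩ := unit_part (p := p) hX (θ := 1) (map_one _)
    ⟨c, by rw [mul_one]; exact hc⟩
  refine ⟨h3, ?_⟩
  have h4 := red (p := p) (1 : ℤ_[p]) (c := c') (by rw [PadicInt.coe_one]; exact hc')
  rw [map_one, mul_one] at h4
  obtain ⟨a, b⟩ := lam_part hu h1
  rw [a, b, ← ch_unit h2 hu]
  classical
  unfold ch
  rw [if_pos h4]

theorem sq_theta (h8 : p % 8 = 1 ∨ p % 8 = 7) {r : ℚ_[p]} (hr : r ^ 2 = 2) {X : ℤ} (hX : X ≠ 0)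
    (hs : ∃ c : ℚ_[p], (X : ℚ_[p]) * (2 + r) = c ^ 2) :
    vv p X = 0 ∧ lam p X + sg X * e3 p + f16 p = 0 := by
  classical
  have h2 : p ≠ 2 := by
    rintro rfl
    omega
  obtain ⟨hr1, hθ, -⟩ := w_theta h2 hr
  obtain ⟨j, u, hu, h1, h3, c', hc'⟩ := unit_part (p := p) hX hθ hs
  refine ⟨h3, ?_⟩
  obtain ⟨r', hr'⟩ : ∃ r' : ℤ_[p], (r' : ℚ_[p]) = r := ⟨⟨r, w_le_iff.1 hr1.le⟩, rfl⟩
  have e2 : ((2 + r' : ℤ_[p]) : ℚ_[p]) = 2 + r := by
    rw [PadicInt.coe_add, hr']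
    congr 1
  have h4 := red (p := p) (2 + r') (c := c') (by rw [e2]; exact hc')
  rw [map_add, map_ofNat] at h4
  have hrr : (PadicInt.toZMod r') ^ 2 = (2 : ZMod p) := by
    have h5 : r' ^ 2 = 2 := by
      apply Subtype.ext
      rw [PadicInt.coe_pow, hr', hr]
      exact_mod_cast (PadicInt.coe_natCast 2).symm
    rw [← map_pow, h5, map_ofNat]
  have hsym := sym16 h8 hrr
  obtain ⟨a, b⟩ := lam_part hu h1
  rw [a, b, ← ch_unit h2 hu]
  have hu0 : (u : ZMod p) ≠ 0 := cast_ne.2 hu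
  have hiff : IsSquare (u : ZMod p) ↔ IsSquare (2 + PadicInt.toZMod r') := by
    obtain ⟨s, hs⟩ := h4
    have h2z : (2 : ZMod p) ≠ 0 := by
      intro h0
      have h0' : ((2 : ℕ) : ZMod p) = 0 := by exact_mod_cast h0
      rw [ZMod.natCast_eq_zero_iff] at h0'
      exact h2 ((Nat.prime_dvd_prime_iff_eq hp.out Nat.prime_two).1 h0')
    have hne : 2 + PadicInt.toZMod r' ≠ 0 := by
      intro h0
      apply h2z
      have e : PadicInt.toZMod r' = -2 := by linear_combination h0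
      rw [e] at hrr
      linear_combination hrr
    constructor
    · rintro ⟨t, ht⟩
      have ht0 : t ≠ 0 := by
        rintro rfl
        rw [mul_zero] at ht
        exact hu0 ht
      refine ⟨s / t, ?_⟩
      field_simp
      rw [ht] at hs
      linear_combination hs
    · rintro ⟨t, ht⟩
      have ht0 : t ≠ 0 := by
        rintro rfl
        rw [mul_zero] at ht
        exact hne ht
      refine ⟨s / t, ?_⟩
      rw [ht] at hs
      field_simp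
      linear_combination hs
  unfold ch f16
  by_cases h9 : p % 16 = 7 ∨ p % 16 = 9
  · rw [if_pos h9, if_neg]
    · decide
    · rw [hiff, hsym]
      omega
  · rw [if_neg h9, if_pos]
    · decide
    · rw [hiff, hsym]
      omega

end

end Run7.h843.R
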