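import Mathlib
import Pool.Agent.Run7.h843.R4
import Pool.Agent.Run7.h843.S6

/-!
# The rows of the two linear systems, and the prime `2`
-/

set_option autoImplicit false
set_option linter.unusedSectionVars false
set_option linter.unusedSimpArgs false

attribute [-instance] DivisionRing.toRatAlgebra

namespace Run7.h843.R

open Finset
open Pool.Agent.Y682 (S1 S2)
open Run7.h843.Sha Run7.h843.Desc
open Pool.Agent.Y703.CQ (nr)

section

variable {p : ℕ} [hp : Fact p.Prime] {m : ℕ}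

/-- the row of a split prime, first curve -/
theorem row1 (h8 : p % 8 = 1 ∨ p % 8 = 7) (hm : Squarefree m) (hpm : p ∈ m.primeFactors)
    {X : ℤ} (hX : 0 < X) (hC : C1 ℚ_[p] ((-4 * m : ℤ) : ℚ) ((2 * m ^ 2 : ℤ) : ℚ) (X : ℚ)) :
    lam p X + vv p X * (lam p m + f16 p) = 0 := by
  have h2 : p ≠ 2 := by
    rintro rfl
    omega
  have hm0 : (m : ℤ) ≠ 0 := by exact_mod_cast hm.ne_zero
  have hmp : (0 : ℤ) < m := by exact_mod_cast Nat.pos_of_ne_zero hm.ne_zero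
  obtain ⟨r, hr⟩ := exists_r (p := p) h8
  rcases split1 h2 hm hpm hr hC with h | h
  · obtain ⟨a, b⟩ := sq_or h2 hX.ne' h
    rw [sg_pos hX, zero_mul, add_zero] at b
    rw [a, b, zero_mul, add_zero]
  · rw [one_mul] at h
    obtain ⟨a, b⟩ := sq_theta h8 hr (mul_ne_zero hm0 hX.ne') h
    rw [vv_mul p hm0 hX.ne', vv_sqfree hm hpm] at a
    rw [sg_pos (mul_pos hmp hX), zero_mul, add_zero, lam_mul p hm0 hX.ne'] at b
    have a' : vv p X = 1 := by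
      rcases zmod2_cases (vv p X) with h | h
      · rw [h] at a
        exact absurd a (by decide)
      · exact h
    rw [a', one_mul]
    linear_combination b

/-- the row of a split prime, second curve -/
theorem row2 (h8 : p % 8 = 1 ∨ p % 8 = 7) (hm : Squarefree m) (hpm : p ∈ m.primeFactors)
    {X : ℤ} (hX : X ≠ 0) (hC : C1 ℚ_[p] ((8 * m : ℤ) : ℚ) ((8 * m ^ 2 : ℤ) : ℚ) (X : ℚ)) :
    lam p X + sg X * e3 p + vv p X * (lam p m + e3 p + f16 p) = 0 := by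
  have h2 : p ≠ 2 := by
    rintro rfl
    omega
  have hm0 : (m : ℤ) ≠ 0 := by exact_mod_cast hm.ne_zero
  have hmp : (0 : ℤ) < m := by exact_mod_cast Nat.pos_of_ne_zero hm.ne_zero
  obtain ⟨r, hr⟩ := exists_r (p := p) h8
  rcases split2 h2 hm hpm hr hC with h | h
  · obtain ⟨a, b⟩ := sq_or h2 hX h
    rw [a, b, zero_mul, add_zero]
  · have e : (-1 * m * X : ℤ) = -(m * X) := by ring
    rw [e] at h
    have hne : (m : ℤ) * X ≠ 0 := mul_ne_zero hm0 hX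
    obtain ⟨a, b⟩ := sq_theta h8 hr (neg_ne_zero.2 hne) h
    have esg : sg (-(m * X)) = 1 + sg X := by
      have e1 : -((m : ℤ) * X) = (-1) * (m * X) := by ring
      rw [e1, sg_mul (by norm_num) hne, sg_mul hm0 hX, sg_pos hmp, zero_add, sg_neg (by norm_num)]
    rw [vv_neg, vv_mul p hm0 hX, vv_sqfree hm hpm] at a
    rw [esg, lam_neg, lam_mul p hm0 hX] at b
    have a' : vv p X = 1 := by
      rcases zmod2_cases (vv p X) with h | h
      · rw [h] at a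
        exact absurd a (by decide)
      · exact h
    rw [a', one_mul]
    linear_combination b

theorem lam_m (hm : Squarefree m) : lam p (m : ℤ) = ∑ q ∈ m.primeFactors, nr p q := by
  rw [lam_eq_sum (S := m.primeFactors) fun q _ hq => vv_not_mem hq]
  exact sum_congr rfl fun q hq => by rw [vv_sqfree hm hq, one_mul]

end

/-- the first quartic at `2` -/
theorem U1 (j : ℤ) (y z : ℚ_[2]) (h : y ^ 2 = -z ^ 4 + 8 * ((2 * j + 1 : ℤ) : ℚ_[2]) * z ^ 2 -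
    8 * ((2 * j + 1 : ℤ) : ℚ_[2]) ^ 2) : False := by
  rcases rep2 z with ⟨Z, rfl⟩ | ⟨k, Z, Z', hZZ, hZ⟩
  · have h1 : y ^ 2 = ((-Z ^ 4 + 8 * ((2 * j + 1 : ℤ) : ℤ_[2]) * Z ^ 2 -
        8 * ((2 * j + 1 : ℤ) : ℤ_[2]) ^ 2 : ℤ_[2]) : ℚ_[2]) := by
      rw [h]
      push_cast
      simp only [cc2, cc4, cc8]
    obtain ⟨Y, hY⟩ := int_of_sq h1
    have h2 : Y ^ 2 = -Z ^ 4 + 8 * ((2 * j + 1 : ℤ) : ℤ_[2]) * Z ^ 2 -
        8 * ((2 * j + 1 : ℤ) : ℤ_[2]) ^ 2 := by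
      apply Subtype.ext
      rw [PadicInt.coe_pow, hY, h1]
    have h3 := congrArg (PadicInt.toZModPow 4) h2
    rw [map_pow, map_sub, map_add, map_neg, map_mul, map_mul, map_mul, map_pow, map_pow, map_pow,
      map_ofNat, map_intCast] at h3
    push_cast at h3
    have h16 : (16 : ZMod (2 ^ 4)) = 0 := by decide
    have h5 : ∀ Y Z : ZMod (2 ^ 4), Y ^ 2 ≠ -Z ^ 4 + 8 * Z ^ 2 - 8 := by decide
    apply h5 (PadicInt.toZModPow 4 Y) (PadicInt.toZModPow 4 Z)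
    linear_combination h3 + (j : ZMod (2 ^ 4)) * PadicInt.toZModPow 4 Z ^ 2 * h16 -
      (2 * (j : ZMod (2 ^ 4)) ^ 2 + 2 * j) * h16
  · have h1 : (y * 4 ^ (k + 1)) ^ 2 =
        ((-Z ^ 4 + 8 * ((2 * j + 1 : ℤ) : ℤ_[2]) * Z ^ 2 * (2 ^ (k + 1)) ^ 2 -
          8 * ((2 * j + 1 : ℤ) : ℤ_[2]) ^ 2 * (2 ^ (k + 1)) ^ 4 : ℤ_[2]) : ℚ_[2]) := by
      have e4 : (4 : ℚ_[2]) ^ (k + 1) = (2 ^ (k + 1)) ^ 2 := by
        rw [← pow_mul, mul_comm, pow_mul]
        norm_num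
      push_cast
      simp only [cc2, cc4, cc8]
      rw [← hZ, e4]
      push_cast at h
      linear_combination (2 ^ (k + 1)) ^ 4 * h
    obtain ⟨Y, hY⟩ := int_of_sq h1
    have h2 : Y ^ 2 = -Z ^ 4 + 8 * ((2 * j + 1 : ℤ) : ℤ_[2]) * Z ^ 2 * (2 ^ (k + 1)) ^ 2 -
          8 * ((2 * j + 1 : ℤ) : ℤ_[2]) ^ 2 * (2 ^ (k + 1)) ^ 4 := by
      apply Subtype.ext
      rw [PadicInt.coe_pow, hY, h1]
    have h3 := congrArg (PadicInt.toZModPow 3) h2
    rw [map_pow, map_sub, map_add, map_neg, map_mul, map_mul, map_mul, map_mul, map_mul,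
      map_ofNat] at h3
    have h4 : (8 : ZMod (2 ^ 3)) = 0 := by decide
    rw [h4, zero_mul, zero_mul, zero_mul, zero_mul, zero_mul, sub_zero, add_zero, map_pow] at h3
    have h6 := congrArg (PadicInt.toZModPow 3) hZZ
    rw [map_mul, map_one] at h6
    have h5 : ∀ Y Z Z' : ZMod (2 ^ 3), Z * Z' = 1 → Y ^ 2 ≠ - Z ^ 4 := by decide
    exact h5 _ _ _ h6 h3

/-- the second quartic at `2` -/
theorem U2 (j : ℤ) (y z : ℚ_[2]) (h : y ^ 2 = -2 * (z ^ 4 - 4 * ((2 * j + 1 : ℤ) : ℚ_[2]) * z ^ 2 +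
    2 * ((2 * j + 1 : ℤ) : ℚ_[2]) ^ 2)) : False := by
  rcases rep2 z with ⟨Z, rfl⟩ | ⟨k, Z, Z', hZZ, hZ⟩
  · have h1 : y ^ 2 = ((-(2 * (Z ^ 4 - 4 * ((2 * j + 1 : ℤ) : ℤ_[2]) * Z ^ 2 +
        2 * ((2 * j + 1 : ℤ) : ℤ_[2]) ^ 2)) : ℤ_[2]) : ℚ_[2]) := by
      rw [h]
      push_cast
      simp only [cc2, cc4, cc8]
      ring
    obtain ⟨Y, hY⟩ := int_of_sq h1
    have h2 : Y ^ 2 = -(2 * (Z ^ 4 - 4 * ((2 * j + 1 : ℤ) : ℤ_[2]) * Z ^ 2 +
        2 * ((2 * j + 1 : ℤ) : ℤ_[2]) ^ 2)) := by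
      apply Subtype.ext
      rw [PadicInt.coe_pow, hY, h1]
    have h3 := congrArg (PadicInt.toZModPow 5) h2
    rw [map_pow, map_neg, map_mul, map_add, map_sub, map_mul, map_mul, map_mul, map_pow, map_pow,
      map_pow, map_ofNat, map_ofNat, map_intCast] at h3
    push_cast at h3
    have h32 : (32 : ZMod (2 ^ 5)) = 0 := by decide
    have a1 : ∀ Z : ZMod (2 ^ 5), (2 * Z ^ 4 = 0 ∧ 8 * Z ^ 2 = 0) ∨ 16 * Z ^ 4 = 16 := by decide
    rcases a1 (PadicInt.toZModPow 5 Z) with ⟨h4, h4'⟩ | h4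
    · have h5 : ∀ Y : ZMod (2 ^ 5), Y ^ 2 ≠ -4 := by decide
      have h6 : ∀ j : ZMod (2 ^ 5), 16 * (j ^ 2 + j) = 0 := by decide
      apply h5 (PadicInt.toZModPow 5 Y)
      linear_combination h3 - h4 + (2 * (j : ZMod (2 ^ 5)) + 1) * h4' - h6 j
    · have h5 : ∀ Y : ZMod (2 ^ 5), 8 * Y ^ 2 ≠ 16 := by decide
      apply h5 (PadicInt.toZModPow 5 Y)
      linear_combination 8 * h3 - h4 + (2 * (2 * (j : ZMod (2 ^ 5)) + 1) *
        PadicInt.toZModPow 5 Z ^ 2 - (2 * (j : ZMod (2 ^ 5)) + 1) ^ 2 - 1) * h32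
  · have h1 : (y * 4 ^ (k + 1)) ^ 2 =
        ((-(2 * Z ^ 4) + 4 * (2 * ((2 * j + 1 : ℤ) : ℤ_[2]) * Z ^ 2 * (2 ^ (k + 1)) ^ 2 -
          ((2 * j + 1 : ℤ) : ℤ_[2]) ^ 2 * (2 ^ (k + 1)) ^ 4) : ℤ_[2]) : ℚ_[2]) := by
      have e4 : (4 : ℚ_[2]) ^ (k + 1) = (2 ^ (k + 1)) ^ 2 := by
        rw [← pow_mul, mul_comm, pow_mul]
        norm_num
      push_cast
      simp only [cc2, cc4, cc8]
      rw [← hZ, e4]
      push_cast at h
      linear_combination (2 ^ (k + 1)) ^ 4 * h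
    obtain ⟨Y, hY⟩ := int_of_sq h1
    have h2 : Y ^ 2 = -(2 * Z ^ 4) + 4 * (2 * ((2 * j + 1 : ℤ) : ℤ_[2]) * Z ^ 2 * (2 ^ (k + 1)) ^ 2 -
          ((2 * j + 1 : ℤ) : ℤ_[2]) ^ 2 * (2 ^ (k + 1)) ^ 4) := by
      apply Subtype.ext
      rw [PadicInt.coe_pow, hY, h1]
    have h3 := congrArg (PadicInt.toZModPow 2) h2
    rw [map_pow, map_add, map_neg, map_mul, map_pow, map_ofNat, map_mul, map_ofNat] at h3
    have h4 : (4 : ZMod (2 ^ 2)) = 0 := by decide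
    rw [h4, zero_mul, add_zero] at h3
    have h6 := congrArg (PadicInt.toZModPow 2) hZZ
    rw [map_mul, map_one] at h6
    have h5 : ∀ Y Z Z' : ZMod (2 ^ 2), Z * Z' = 1 → Y ^ 2 ≠ -(2 * Z ^ 4) := by decide
    exact h5 _ _ _ h6 h3

theorem no_neg_two (z : ℚ_[2]) (h : z ^ 2 = -2) : False := by
  refine nsq (t := -2) 2 ?_ z (by rw [h]; push_cast; rfl)
  decide

/-- the classes of `-1` and `-2` at `2` -/
theorem excl {m : ℕ} (hm : m % 2 = 1) {z x : ℚ_[2]} (hz : z ≠ 0)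
    (hx : -z ^ 2 = x ∨ -2 * z ^ 2 = x) (h : S1 (8 * (m : ℚ_[2])) (8 * (m : ℚ_[2]) ^ 2) x) :
    False := by
  obtain ⟨j, hj⟩ : ∃ j : ℤ, (m : ℤ) = 2 * j + 1 := ⟨(m : ℤ) / 2, by omega⟩
  have hm' : (m : ℚ_[2]) = ((2 * j + 1 : ℤ) : ℚ_[2]) := by
    rw [← hj, Int.cast_natCast]
  have hm0 : (m : ℚ_[2]) ≠ 0 := by
    have : m ≠ 0 := by omega
    exact_mod_cast this
  rcases hx with hx | hx
  · rcases h with h | h | ⟨h0, y, hy⟩
    · exact no_neg_one z (by linear_combination -hx - h)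
    · refine no_neg_two (z / (2 * m)) ?_
      rw [div_pow, div_eq_iff (pow_ne_zero 2 (mul_ne_zero two_ne_zero hm0))]
      linear_combination -hx - h
    · refine U1 j (y / z) z ?_
      rw [div_pow, hy, ← hx, ← hm']
      field_simp
      ring
  · rcases h with h | h | ⟨h0, y, hy⟩
    · refine no_neg_two (2 * z) ?_
      linear_combination -2 * hx - 2 * h
    · refine no_neg_one (z / (2 * m)) ?_
      rw [div_pow, div_eq_iff (pow_ne_zero 2 (mul_ne_zero two_ne_zero hm0))]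
      linear_combination (-hx - h) / 2
    · refine U2 j (y / (2 * z)) z ?_
      rw [div_pow, hy, ← hx, ← hm']
      field_simp
      ring

end Run7.h843.R
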