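import Mathlib
import Pool.Agent.Run7.h843.R5

/-!
# The matrix, and its transpose
-/

set_option autoImplicit false

attribute [-instance] DivisionRing.toRatAlgebra

namespace Run7.h843.R

open Finset
open Run7.h843.Sha Run7.h843.Desc
open Pool.Agent.Y703.CQ (nr)

/-- a function set to zero off the primes `1`, `7` modulo `8` -/
def cv (x : ℕ → ZMod 2) (q : ℕ) : ZMod 2 := if q % 8 = 1 ∨ q % 8 = 7 then x q else 0

/-- the matrix has trivial kernel -/
def NsR (m : ℕ) : Prop := ∀ x : ℕ → ZMod 2,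
  (∀ p ∈ m.primeFactors, (p % 8 = 1 ∨ p % 8 = 7) →
    ∑ q ∈ m.primeFactors, nr p q * (cv x q + x p) + f16 p * x p = 0) →
  ∀ p ∈ m.primeFactors, (p % 8 = 1 ∨ p % 8 = 7) → x p = 0

/-- the primes `1`, `7` modulo `8` of `m` -/
def SR (m : ℕ) : Finset ℕ := m.primeFactors.filter fun q => q % 8 = 1 ∨ q % 8 = 7

/-- the matrix -/
noncomputable def MatR (m : ℕ) : Matrix (SR m) (SR m) (ZMod 2) :=
  fun p q => nr p q + if p = q then ∑ r ∈ m.primeFactors, nr p r + f16 p else 0

theorem mem_SR {m q : ℕ} : q ∈ SR m ↔ q ∈ m.primeFactors ∧ (q % 8 = 1 ∨ q % 8 = 7) := mem_filter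

theorem sum_cv {m : ℕ} (p : ℕ) (x : ℕ → ZMod 2) :
    ∑ q ∈ m.primeFactors, nr p q * (cv x q + x p) =
      ∑ q ∈ SR m, nr p q * x q + (∑ q ∈ m.primeFactors, nr p q) * x p := by
  have h1 : ∑ q ∈ m.primeFactors, nr p q * (cv x q + x p) =
      ∑ q ∈ m.primeFactors, nr p q * cv x q + (∑ q ∈ m.primeFactors, nr p q) * x p := by
    rw [sum_mul, ← sum_add_distrib]
    exact sum_congr rfl fun q _ => by ring
  rw [h1]
  congr 1
  unfold SR
  rw [sum_filter]
  refine sum_congr rfl fun q _ => ?_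
  unfold cv
  split_ifs
  · rfl
  · rw [mul_zero]

theorem mulVec_eq {m : ℕ} (v : SR m → ZMod 2) (p : SR m) : (MatR m).mulVec v p =
    ∑ q : SR m, nr p q * v q + (∑ r ∈ m.primeFactors, nr p r + f16 p) * v p := by
  unfold MatR Matrix.mulVec dotProduct
  have h : ∀ q : SR m, (nr p q + if p = q then ∑ r ∈ m.primeFactors, nr p r + f16 p else 0) * v q =
      nr p q * v q + if p = q then (∑ r ∈ m.primeFactors, nr p r + f16 p) * v p else 0 := by
    intro q
    by_cases hq : p = q
    · rw [if_pos hq, if_pos hq, hq]; ring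
    · rw [if_neg hq, if_neg hq]; ring
  rw [sum_congr rfl fun q _ => h q, sum_add_distrib, sum_ite_eq, if_pos (mem_univ _)]

theorem vecMul_eq {m : ℕ} (v : SR m → ZMod 2) (p : SR m) : (MatR m).vecMul v p =
    ∑ q : SR m, v q * nr q p + v p * (∑ r ∈ m.primeFactors, nr p r + f16 p) := by
  unfold MatR Matrix.vecMul dotProduct
  have h : ∀ q : SR m, v q * (nr q p + if q = p then ∑ r ∈ m.primeFactors, nr q r + f16 q else 0) =
      v q * nr q p + if q = p then v p * (∑ r ∈ m.primeFactors, nr p r + f16 p) else 0 := by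
    intro q
    by_cases hq : q = p
    · rw [if_pos hq, if_pos hq, hq]; ring
    · rw [if_neg hq, if_neg hq]; ring
  rw [sum_congr rfl fun q _ => h q, sum_add_distrib, sum_ite_eq', if_pos (mem_univ _)]

theorem NsR_iff (m : ℕ) : NsR m ↔ (MatR m).det ≠ 0 := by
  classical
  rw [Ne, ← Matrix.exists_mulVec_eq_zero_iff, not_exists]
  constructor
  · rintro h v ⟨hv, hv0⟩
    apply hv
    let x : ℕ → ZMod 2 := fun q => if h : q ∈ SR m then v ⟨q, h⟩ else 0
    have hx : ∀ q : SR m, x q = v q := fun q => dif_pos q.2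
    have h1 := h x (by
      intro p hp hp8
      have hpS : p ∈ SR m := mem_SR.2 ⟨hp, hp8⟩
      have h2 := congrFun hv0 ⟨p, hpS⟩
      rw [mulVec_eq, Pi.zero_apply] at h2
      rw [sum_cv, ← sum_coe_sort (SR m) (fun q => nr p q * x q), hx ⟨p, hpS⟩]
      have h3 : ∑ q : SR m, nr p q * x q = ∑ q : SR m, nr p q * v q :=
        sum_congr rfl fun q _ => by rw [hx]
      rw [h3]
      linear_combination h2)
    funext q
    have h2 := h1 q (mem_SR.1 q.2).1 (mem_SR.1 q.2).2
    rw [hx] at h2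
    rw [h2, Pi.zero_apply]
  · intro h x hx p hp hp8
    by_contra hne
    have hpS : p ∈ SR m := mem_SR.2 ⟨hp, hp8⟩
    refine h (fun q => x q) ⟨fun h0 => hne (congrFun h0 ⟨p, hpS⟩), ?_⟩
    funext q
    rw [mulVec_eq, Pi.zero_apply]
    have h2 := hx q (mem_SR.1 q.2).1 (mem_SR.1 q.2).2
    rw [sum_cv, ← sum_coe_sort (SR m) (fun r => nr q r * x r)] at h2
    linear_combination h2

/-- the transposed system -/
theorem NsR_tr (m : ℕ) : NsR m ↔ ∀ y : ℕ → ZMod 2,
    (∀ p ∈ SR m, ∑ q ∈ SR m, y q * nr q p + y p * (∑ r ∈ m.primeFactors, nr p r + f16 p) = 0) →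
    ∀ p ∈ SR m, y p = 0 := by
  classical
  rw [NsR_iff, Ne, ← Matrix.exists_vecMul_eq_zero_iff, not_exists]
  constructor
  · intro h y hy p hpS
    by_contra hne
    refine h (fun q => y q) ⟨fun h0 => hne (congrFun h0 ⟨p, hpS⟩), ?_⟩
    funext q
    rw [vecMul_eq, Pi.zero_apply]
    have h2 := hy q q.2
    rw [← sum_coe_sort (SR m) (fun r => y r * nr r q)] at h2
    exact h2
  · rintro h v ⟨hv, hv0⟩
    apply hv
    let x : ℕ → ZMod 2 := fun q => if h : q ∈ SR m then v ⟨q, h⟩ else 0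
    have hx : ∀ q : SR m, x q = v q := fun q => dif_pos q.2
    have h1 := h x (by
      intro p hpS
      have h2 := congrFun hv0 ⟨p, hpS⟩
      rw [vecMul_eq, Pi.zero_apply] at h2
      rw [← sum_coe_sort (SR m) (fun q => x q * nr q p), hx ⟨p, hpS⟩]
      have h3 : ∑ q : SR m, x q * nr q p = ∑ q : SR m, v q * nr q p :=
        sum_congr rfl fun q _ => by rw [hx]
      rw [h3]
      exact h2)
    funext q
    have h2 := h1 q q.2
    rw [hx] at h2
    rw [h2, Pi.zero_apply]

/-- quadratic reciprocity -/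
theorem recip {p q : ℕ} (hp : p.Prime) (hq : q.Prime) (hp2 : p ≠ 2) (hq2 : q ≠ 2) (hpq : p ≠ q) :
    nr p q + e3 p * e3 q = nr q p := by
  classical
  have : Fact p.Prime := ⟨hp⟩
  have : Fact q.Prime := ⟨hq⟩
  have h3 : p % 2 = 1 := hp.eq_two_or_odd.resolve_left hp2
  have h4 : q % 2 = 1 := hq.eq_two_or_odd.resolve_left hq2
  by_cases h1 : p % 4 = 1
  · have e : e3 p = 0 := by
      unfold e3
      rw [if_neg (by omega)]
    rw [e, zero_mul, add_zero]
    unfold nr
    have h := ZMod.exists_sq_eq_prime_iff_of_mod_four_eq_one (p := p) (q := q) h1 hq2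
    by_cases h5 : IsSquare (q : ZMod p)
    · rw [if_pos h5, if_pos (h.1 h5)]
    · rw [if_neg h5, if_neg fun h2 => h5 (h.2 h2)]
  · by_cases h2 : q % 4 = 1
    · have e : e3 q = 0 := by
        unfold e3
        rw [if_neg (by omega)]
      rw [e, mul_zero, add_zero]
      unfold nr
      have h := ZMod.exists_sq_eq_prime_iff_of_mod_four_eq_one (p := q) (q := p) h2 hp2
      by_cases h5 : IsSquare (q : ZMod p)
      · rw [if_pos h5, if_pos (h.2 h5)]
      · rw [if_neg h5, if_neg fun h2 => h5 (h.1 h2)]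
    · have ep : e3 p = 1 := by
        unfold e3
        rw [if_pos (by omega)]
      have eq : e3 q = 1 := by
        unfold e3
        rw [if_pos (by omega)]
      rw [ep, eq]
      unfold nr
      have h := ZMod.exists_sq_eq_prime_iff_of_mod_four_eq_three (p := p) (q := q) (by omega)
        (by omega) hpq
      by_cases h5 : IsSquare (p : ZMod q)
      · have h9 : ¬ IsSquare (q : ZMod p) := fun h9 => (h.1 h9) h5
        rw [if_pos h5, if_neg h9]
        decide
      · rw [if_neg h5, if_pos (h.2 h5)]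
        decide

theorem e3_sq (p : ℕ) : e3 p * e3 p = e3 p := by
  unfold e3
  split_ifs <;> decide

end Run7.h843.R
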