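import Mathlib
import Pool.Agent.Run7.h843.R6

/-!
# The Selmer groups of `y² = x³ - 4 m x² + 2 m² x`
-/

set_option autoImplicit false

attribute [-instance] DivisionRing.toRatAlgebra

namespace Run7.h843.R

open Finset
open Pool.Agent.Y682 (S1 S2 LL1 LL2 Sq quot_eq IsT Zc Zc_card Zc_lower MP)
open Run7.h843.Sha Run7.h843.Desc
open Pool.Agent.Y703.CQ (nr)

/-- a positive integer whose odd exponents are at `2` only -/
theorem end12 {X : ℤ} (hX : 0 < X) (h : ∀ q : ℕ, q.Prime → q ≠ 2 → vv q X = 0) {b d : ℚ}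
    (hd : d ≠ 0) (hXb : (X : ℚ) = b * d ^ 2) : ∃ c : ℚ, b = c ^ 2 ∨ b = 2 * c ^ 2 := by
  have hb : b = X / d ^ 2 := by rw [hXb]; field_simp
  rcases zmod2_cases (vv 2 X) with h2 | h2
  · obtain ⟨r, hr⟩ := isSquare_of_vv hX (fun q hq => by
      by_cases h3 : q = 2
      · rw [h3, h2]
      · exact h q hq h3)
    refine ⟨r / d, Or.inl ?_⟩
    rw [hb, hr, div_pow]
    push_cast
    ring
  · have hne : (2 : ℤ) ≠ 0 := by norm_num
    obtain ⟨r, hr⟩ := isSquare_of_vv (A := 2 * X) (by positivity) (fun q hq => by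
      rw [vv_mul q hne hX.ne']
      by_cases h3 : q = 2
      · have e2 : vv 2 (2 : ℤ) = 1 := vv_self Nat.prime_two
        rw [h3, h2, e2]
        decide
      · have e2 : vv q (2 : ℤ) = 0 := vv_other hq Nat.prime_two (Ne.symm h3)
        rw [e2, h q hq h3, add_zero])
    refine ⟨r / (2 * d), Or.inr ?_⟩
    have h3 : (2 : ℚ) * X = r * r := by exact_mod_cast hr
    rw [hb, div_pow]
    field_simp
    linear_combination h3

theorem real_pos {m : ℕ} (hm : m ≠ 0) {X : ℚ}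
    (h : C1 ℝ ((-4 * m : ℤ) : ℚ) ((2 * m ^ 2 : ℤ) : ℚ) X) : 0 < X := by
  obtain ⟨z, m', hz, hzm, hm'⟩ := h
  have hmr : (0 : ℝ) < m := by exact_mod_cast Nat.pos_of_ne_zero hm
  push_cast at hm'
  have hm1 : 0 < m' := by
    rcases hm' with hm' | hm' | ⟨h0, y, hy⟩
    · rw [hm']; exact one_pos
    · rw [hm']; positivity
    · by_contra h1
      have h2 : m' < 0 := lt_of_le_of_ne (not_lt.1 h1) h0
      have h3 : 0 < m' ^ 2 + -4 * (m : ℝ) * m' + 2 * (m : ℝ) ^ 2 := by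
        have h4 : 0 < (m : ℝ) * -m' := mul_pos hmr (by linarith)
        nlinarith [sq_nonneg m', sq_nonneg (m : ℝ)]
      nlinarith [sq_nonneg y, mul_neg_of_neg_of_pos h2 h3]
  have h5 : 0 < (X : ℝ) := by
    by_contra h6
    have h7 : (X : ℝ) * z ^ 2 ≤ 0 := mul_nonpos_of_nonpos_of_nonneg (not_lt.1 h6) (sq_nonneg z)
    linarith
  exact_mod_cast h5

section

variable {m : ℕ}

theorem nd8 {q : ℕ} (hq : q.Prime) (h2 : q ≠ 2) (hm0 : m ≠ 0) (hqm : q ∉ m.primeFactors) (i : ℕ) :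
    ¬ (q : ℤ) ∣ 2 ^ i * m ^ 2 := by
  have hqi : Prime (q : ℤ) := Nat.prime_iff_prime_int.1 hq
  intro h
  rcases hqi.dvd_or_dvd h with h | h
  · have h3 := hqi.dvd_of_dvd_pow h
    have h4 : q ∣ 2 := by exact_mod_cast h3
    exact h2 ((Nat.prime_dvd_prime_iff_eq hq Nat.prime_two).1 h4)
  · have h3 := hqi.dvd_of_dvd_pow h
    have h4 : q ∣ m := by exact_mod_cast h3
    exact hqm (Nat.mem_primeFactors.2 ⟨hq, h4, hm0⟩)

theorem odd_nd {q : ℕ} (hq : q.Prime) (h2 : q ≠ 2) (i : ℕ) : ¬ (q : ℤ) ∣ 2 ^ i := by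
  have hqi : Prime (q : ℤ) := Nat.prime_iff_prime_int.1 hq
  intro h
  have h3 := hqi.dvd_of_dvd_pow h
  have h4 : q ∣ 2 := by exact_mod_cast h3
  exact h2 ((Nat.prime_dvd_prime_iff_eq hq Nat.prime_two).1 h4)

/-- the exponents outside the set `SR m` -/
theorem out_ab (hm : Squarefree m) {α β c X : ℤ} {i k : ℕ} (hβ : β = 2 ^ i) (hc : c = 2 ^ k)
    (h : α ^ 2 - 4 * β = 8 * c ^ 2) (hX : X ≠ 0) {q : ℕ} (hq : q.Prime) (h2 : q ≠ 2)
    (hqS : q ∉ SR m)
    (hC : @C1 (@Padic q ⟨hq⟩) _ ((α * m : ℤ) : ℚ) ((β * m ^ 2 : ℤ) : ℚ) (X : ℚ)) : vv q X = 0 := by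
  have : Fact q.Prime := ⟨hq⟩
  by_cases hqm : q ∈ m.primeFactors
  · have h8 : ¬ (q % 8 = 1 ∨ q % 8 = 7) := fun h8 => hqS (mem_SR.2 ⟨hqm, h8⟩)
    refine inert_even (p := q) h2 ?_ hm hqm h ?_ ?_ hX hC
    · rw [ZMod.exists_sq_eq_two_iff h2]
      exact h8
    · rw [hc]
      exact odd_nd hq h2 k
    · rw [hβ]
      exact odd_nd hq h2 i
  · refine good_even (p := q) ?_ hX hC
    rw [hβ]
    exact nd8 hq h2 hm.ne_zero hqm i

/-- the symbol of `X` as a sum -/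
theorem lam_SR {p : ℕ} [Fact p.Prime] (h8 : p % 8 = 1 ∨ p % 8 = 7) {X : ℤ}
    (hout : ∀ q : ℕ, q.Prime → q ≠ 2 → q ∉ SR m → vv q X = 0) (h2S : 2 ∉ SR m) :
    lam p X = ∑ q ∈ SR m, vv q X * nr p q := by
  rw [lam_eq_sum (S := insert 2 (SR m)), sum_insert h2S, two_res h8, mul_zero, zero_add]
  intro q hq hqs
  rw [mem_insert, not_or] at hqs
  exact hout q hq hqs.1 hqs.2

theorem two_nS : 2 ∉ SR m := by
  intro h
  have := (mem_SR.1 h).2
  omega

/-- the first Selmer bound -/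
theorem sel1 (hm : Squarefree m) (hk : NsR m) {b : ℚ} (hb : b ≠ 0)
    (h : LL1 ((-4 * m : ℤ) : ℚ) ((2 * m ^ 2 : ℤ) : ℚ) b) :
    ∃ c : ℚ, b = c ^ 2 ∨ b = 2 * c ^ 2 := by
  obtain ⟨X, d, hX, hd, hXb⟩ := exists_X hb
  have hall : ∀ q : ℕ, ∀ hq : q.Prime, @C1 (@Padic q ⟨hq⟩) _ ((-4 * m : ℤ) : ℚ)
      ((2 * m ^ 2 : ℤ) : ℚ) (X : ℚ) := by
    intro q hq
    have : Fact q.Prime := ⟨hq⟩
    rw [hXb]
    exact C1_mul hd (LL1_pad h q)
  have hX0 : 0 < X := by
    have : (0 : ℚ) < X := by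
      refine real_pos hm.ne_zero ?_
      rw [hXb]
      exact C1_mul hd (LL1_real h)
    exact_mod_cast this
  have hout : ∀ q : ℕ, q.Prime → q ≠ 2 → q ∉ SR m → vv q X = 0 := fun q hq h2 hqS =>
    out_ab (α := -4) (β := 2) (c := 1) (i := 1) (k := 0) hm (by norm_num) (by norm_num)
      (by norm_num) hX hq h2 hqS (hall q hq)
  have hin : ∀ p ∈ m.primeFactors, (p % 8 = 1 ∨ p % 8 = 7) → vv p X = 0 := by
    refine hk (fun p => vv p X) fun p hp h8 => ?_
    have hpp := Nat.prime_of_mem_primeFactors hp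
    have : Fact p.Prime := ⟨hpp⟩
    have h3 := row1 h8 hm hp hX0 (hall p hpp)
    rw [lam_SR h8 hout two_nS, lam_m hm] at h3
    rw [sum_cv]
    have h4 : ∑ q ∈ SR m, nr p q * vv q X = ∑ q ∈ SR m, vv q X * nr p q :=
      sum_congr rfl fun q _ => mul_comm _ _
    rw [h4]
    linear_combination h3
  refine end12 hX0 (fun q hq h2 => ?_) hd hXb
  by_cases hqS : q ∈ SR m
  · exact hin q (mem_SR.1 hqS).1 (mem_SR.1 hqS).2
  · exact hout q hq h2 hqS

/-- a product of primes `± 1` modulo `8` -/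
theorem prod8 {T : Finset ℕ} (h : ∀ q ∈ T, q % 8 = 1 ∨ q % 8 = 7) :
    ((∏ q ∈ T, q) % 8 = 1 ∧ ∑ q ∈ T, e3 q = 0) ∨ ((∏ q ∈ T, q) % 8 = 7 ∧ ∑ q ∈ T, e3 q = 1) := by
  classical
  induction T using Finset.induction_on with
  | empty => simp
  | insert a s ha ih =>
    have h1 := ih fun p hp => h p (mem_insert_of_mem hp)
    have h2 := h a (mem_insert_self a s)
    rw [prod_insert ha, sum_insert ha, Nat.mul_mod]
    have e : (1 : ZMod 2) + 1 = 0 := by decide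
    have ea : (a % 8 = 1 ∧ e3 a = 0) ∨ (a % 8 = 7 ∧ e3 a = 1) := by
      rcases h2 with h3 | h3
      · left
        refine ⟨h3, ?_⟩
        unfold e3
        rw [if_neg (by omega)]
      · right
        refine ⟨h3, ?_⟩
        unfold e3
        rw [if_pos (by omega)]
    rcases h1 with ⟨h4, h5⟩ | ⟨h4, h5⟩ <;> rcases ea with ⟨h6, h7⟩ | ⟨h6, h7⟩ <;>
      simp [h4, h5, h6, h7, e]

/-- the class of `X` at `2` -/
theorem two_class (hm : Squarefree m) {X : ℤ} (hX : X ≠ 0)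
    (hout : ∀ q : ℕ, q.Prime → q ≠ 2 → q ∉ SR m → vv q X = 0)
    (hne : sg X ≠ ∑ q ∈ SR m, vv q X * e3 q) :
    ∃ c : ℚ_[2], c ≠ 0 ∧ ((X : ℚ_[2]) = -c ^ 2 ∨ (X : ℚ_[2]) = -2 * c ^ 2) := by
  classical
  set T := (SR m).filter fun q => vv q X = 1 with hT
  have hTS : ∀ q ∈ T, q ∈ SR m ∧ vv q X = 1 := fun q hq => mem_filter.1 hq
  have hTm : T ⊆ m.primeFactors := fun q hq => (mem_SR.1 (hTS q hq).1).1
  have hpr : ∀ q ∈ T, q.Prime := fun q hq => Nat.prime_of_mem_primeFactors (hTm hq)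
  set N : ℕ := ∏ q ∈ T, q with hN
  have hN0 : N ≠ 0 := prod_ne_zero_iff.2 fun q hq => (hpr q hq).ne_zero
  have hNf : N.primeFactors = T := Nat.primeFactors_prod hpr
  have hNsq : Squarefree N := by
    refine hm.squarefree_of_dvd ?_
    rw [hN, ← Nat.prod_primeFactors_of_squarefree hm]
    exact prod_dvd_prod_of_subset _ _ _ hTm
  have hsum : ∑ q ∈ SR m, vv q X * e3 q = ∑ q ∈ T, e3 q := by
    rw [hT, sum_filter]
    refine sum_congr rfl fun q _ => ?_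
    rcases zmod2_cases (vv q X) with h | h
    · rw [h, zero_mul, if_neg (by decide)]
    · rw [h, one_mul, if_pos rfl]
  rw [hsum] at hne
  have h8 : ∀ q ∈ T, q % 8 = 1 ∨ q % 8 = 7 := fun q hq => (mem_SR.1 (hTS q hq).1).2
  -- the sign
  obtain ⟨η, hη, hη8⟩ : ∃ η : ℤ, (η = 1 ∧ ∑ q ∈ T, e3 q = 0 ∨ η = -1 ∧ ∑ q ∈ T, e3 q = 1) ∧
      ((N : ℤ) * η) % 8 = 1 := by
    rcases prod8 h8 with ⟨h9, h10⟩ | ⟨h9, h10⟩
    · exact ⟨1, Or.inl ⟨rfl, h10⟩, by rw [← hN] at h9; omega⟩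
    · exact ⟨-1, Or.inr ⟨rfl, h10⟩, by rw [← hN] at h9; omega⟩
  obtain ⟨σ, hσ, hσX⟩ : ∃ σ : ℤ, (σ = 1 ∧ sg X = 0 ∨ σ = -1 ∧ sg X = 1) ∧ X = σ * |X| := by
    rcases lt_or_gt_of_ne hX with h9 | h9
    · exact ⟨-1, Or.inr ⟨rfl, sg_neg h9⟩, by rw [abs_of_neg h9]; ring⟩
    · exact ⟨1, Or.inl ⟨rfl, sg_pos h9⟩, by rw [abs_of_pos h9]; ring⟩
  have hση : σ * η = -1 := by
    rcases hη with ⟨h9, h10⟩ | ⟨h9, h10⟩ <;> rcases hσ with ⟨h11, h12⟩ | ⟨h11, h12⟩ <;>
      rw [h9, h11] <;> first | rfl | (exfalso; apply hne; rw [h10, h12])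
  have hηη : η * η = 1 := by
    rcases hη with ⟨h9, -⟩ | ⟨h9, -⟩ <;> rw [h9] <;> rfl
  -- the square
  obtain ⟨t, ht, htv⟩ : ∃ t : ℤ, (t = 1 ∨ t = 2) ∧ vv 2 t = vv 2 X := by
    rcases zmod2_cases (vv 2 X) with h9 | h9
    · refine ⟨1, Or.inl rfl, ?_⟩
      rw [h9]
      apply vv_not_dvd
      norm_num
    · refine ⟨2, Or.inr rfl, ?_⟩
      rw [h9]
      exact vv_self Nat.prime_two
  have ht0 : t ≠ 0 := by rcases ht with h | h <;> rw [h] <;> norm_num
  have htp : 0 < t := by rcases ht with h | h <;> rw [h] <;> norm_num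
  have hNz : (N : ℤ) ≠ 0 := by exact_mod_cast hN0
  have hNp : (0 : ℤ) < N := by exact_mod_cast Nat.pos_of_ne_zero hN0
  have hXa : 0 < |X| := abs_pos.2 hX
  have hva : ∀ q : ℕ, vv q |X| = vv q X := by
    intro q
    unfold vv
    rw [Int.natAbs_abs]
  obtain ⟨s, hs⟩ := isSquare_of_vv (A := |X| * N * t) (by positivity) (fun q hq => by
    rw [vv_mul q (mul_ne_zero hXa.ne' hNz) ht0, vv_mul q hXa.ne' hNz, hva]
    by_cases h2 : q = 2
    · rw [h2]
      have e1 : vv 2 (N : ℤ) = 0 := by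
        apply vv_not_mem
        rw [hNf]
        exact fun h => two_nS (hTS 2 h).1
      rw [e1, htv, add_zero, add_self2]
    · have e1 : vv q t = 0 := by
        rcases ht with h | h
        · rw [h]
          apply vv_not_dvd
          intro h3
          have h4 : q ∣ 1 := by exact_mod_cast h3
          exact hq.one_lt.ne' (Nat.dvd_one.1 h4)
        · rw [h]
          exact vv_other hq Nat.prime_two (Ne.symm h2)
      rw [e1, add_zero]
      by_cases hqT : q ∈ T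
      · rw [vv_sqfree hNsq (by rw [hNf]; exact hqT), (hTS q hqT).2]
        decide
      · rw [vv_not_mem (by rw [hNf]; exact hqT), add_zero]
        by_cases hqS : q ∈ SR m
        · rcases zmod2_cases (vv q X) with h9 | h9
          · exact h9
          · exact absurd (mem_filter.2 ⟨hqS, h9⟩) hqT
        · exact hout q hq h2 hqS)
  obtain ⟨c, hc⟩ := Pool.Agent.Y971.SG.Lq.padic_sq2 hη8
  have hs0 : s ≠ 0 := by
    rintro rfl
    have : 0 < |X| * N * t := by positivity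
    rw [hs] at this
    norm_num at this
  have hsp : (s : ℚ_[2]) ≠ 0 := by exact_mod_cast hs0
  have hc0 : c ≠ 0 := by
    rintro rfl
    rw [mul_zero] at hc
    have h9 : ((N : ℤ) * η) = 0 := by exact_mod_cast hc
    rw [h9] at hη8
    norm_num at hη8
  -- `X t c² = - s²`
  have key : (X : ℚ_[2]) * t * c ^ 2 = -(s : ℚ_[2]) ^ 2 := by
    have e1 : (X : ℚ_[2]) * t * c ^ 2 = ((X * t * (N * η) : ℤ) : ℚ_[2]) := by
      rw [sq, ← hc]
      push_cast
      ring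
    rw [e1]
    have e2 : X * t * (N * η) = -(s * s) := by
      rw [← hs]
      conv_lhs => rw [hσX]
      linear_combination (|X| * N * t) * hση
    rw [e2]
    push_cast
    ring
  rcases ht with h | h
  · refine ⟨s / c, div_ne_zero hsp hc0, Or.inl ?_⟩
    rw [h, Int.cast_one, mul_one] at key
    rw [div_pow]
    field_simp
    linear_combination key
  · refine ⟨s / (2 * c), div_ne_zero hsp (mul_ne_zero two_ne_zero hc0), Or.inr ?_⟩
    rw [h] at key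
    push_cast at key
    rw [div_pow]
    field_simp
    linear_combination key

end

end Run7.h843.R
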