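import Pool.Agent.Run7.h843.R10
import Pool.Agent.Run7.h741.NT.Fin
import Pool.Agent.Run7.h741.NM.Fin

/-!
# The criterion for `y² = x³ - 4 m x² + 2 m² x` and helper741's count
-/

set_option autoImplicit false

namespace Run7.h843.R

theorem nsR_iff_gd (m : ℕ) : NsR m ↔ Pool.Agent.Run7.h741.NT.Gd 7 f16 m.primeFactors := by
  have hcv : ∀ (x : ℕ → ZMod 2) (q : ℕ), q.Prime →
      Pool.Agent.Run7.h741.NT.cu 7 x q = cv x q := by
    intro x q _
    unfold Pool.Agent.Run7.h741.NT.cu cv Pool.Agent.Run7.h741.NT.Sp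
    split_ifs <;> rfl
  have hs : ∀ (x : ℕ → ZMod 2) (p : ℕ),
      ∑ q ∈ m.primeFactors, Pool.Agent.Y703.CQ.nr p q * (Pool.Agent.Run7.h741.NT.cu 7 x q + x p) =
      ∑ q ∈ m.primeFactors, Pool.Agent.Y703.CQ.nr p q * (cv x q + x p) :=
    fun x p => Finset.sum_congr rfl fun q hq => by rw [hcv x q (Nat.prime_of_mem_primeFactors hq)]
  unfold NsR Pool.Agent.Run7.h741.NT.Gd Pool.Agent.Run7.h741.NT.Sol
  constructor
  · intro h1 x hx p hp hp1
    exact h1 x (fun q hq hq1 => by rw [← hs]; exact hx q hq hq1) p hp hp1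
  · intro h1 x hx p hp hp1
    exact h1 x (fun q hq hq1 => by rw [hs]; exact hx q hq hq1) p hp hp1

end Run7.h843.R
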