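import Pool.Agent.Run7.h843.N6
import Pool.Agent.Run7.h843.R11
import Pool.Agent.Run7.h741.NM.Fin

/-!
# The proportions for finite families of parameters
-/

set_option autoImplicit false

open Finset Filter

namespace Run7.h843.N

open Run7.h843.R
open scoped Classical

/-- the residue conditions -/
def Cond (q : ℤ × ℤ) (n : ℕ) : Prop :=
  (∀ p : ℕ, p.Prime → (p : ℤ) ∣ ss q.1 q.2 → ¬ IsSquare ((-(rr q.1 q.2 * n) : ℤ) : ZMod p)) ∧
  ∀ p : ℕ, p.Prime → (p : ℤ) ∣ tt q.1 q.2 → ¬ IsSquare ((rr q.1 q.2 * n : ℤ) : ZMod p)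

/-- coprime parameters of opposite parity -/
def Good (q : ℤ × ℤ) : Prop := IsCoprime q.1 q.2 ∧ (q.1 + q.2) % 2 = 1

theorem Good.s0 {q : ℤ × ℤ} (h : Good q) : ss q.1 q.2 ≠ 0 := by
  have := (par h.2).1
  omega

theorem Good.t0 {q : ℤ × ℤ} (h : Good q) : tt q.1 q.2 ≠ 0 := by
  have := (par h.2).2.1
  omega

/-- the product of the numbers `s t` -/
def PP (I : Finset (ℤ × ℤ)) : ℕ := ∏ q ∈ I, (ss q.1 q.2 * tt q.1 q.2).natAbs

theorem PP_pos {I : Finset (ℤ × ℤ)} (hI : ∀ q ∈ I, Good q) : 0 < PP I :=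
  prod_pos fun q hq => Int.natAbs_pos.2 (mul_ne_zero (hI q hq).s0 (hI q hq).t0)

theorem dvd_PP {I : Finset (ℤ × ℤ)} {q : ℤ × ℤ} (hq : q ∈ I) {p : ℕ}
    (h : (p : ℤ) ∣ ss q.1 q.2 ∨ (p : ℤ) ∣ tt q.1 q.2) : p ∣ PP I := by
  have h1 : (p : ℤ) ∣ ss q.1 q.2 * tt q.1 q.2 := by
    rcases h with h | h
    · exact Dvd.dvd.mul_right h _
    · exact Dvd.dvd.mul_left h _
  have h2 : p ∣ (ss q.1 q.2 * tt q.1 q.2).natAbs := Int.natCast_dvd.1 h1
  exact h2.trans (dvd_prod_of_mem (fun q : ℤ × ℤ => (ss q.1 q.2 * tt q.1 q.2).natAbs) hq)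

theorem of_dvd_PP {I : Finset (ℤ × ℤ)} {p : ℕ} (hp : p.Prime) (h : p ∣ PP I) :
    ∃ q ∈ I, (p : ℤ) ∣ ss q.1 q.2 ∨ (p : ℤ) ∣ tt q.1 q.2 := by
  obtain ⟨q, hq, h1⟩ := (hp.prime.dvd_finsetProd_iff _).1 h
  refine ⟨q, hq, ?_⟩
  have h2 : (p : ℤ) ∣ ss q.1 q.2 * tt q.1 q.2 := Int.natCast_dvd.2 h1
  exact (Nat.prime_iff_prime_int.1 hp).dvd_or_dvd h2

theorem cond_mod {I : Finset (ℤ × ℤ)} {q : ℤ × ℤ} (hq : q ∈ I) {M n n' : ℕ} (hM : PP I ∣ M)
    (h : n % M = n' % M) : Cond q n → Cond q n' := by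
  have key : ∀ p : ℕ, p ∣ PP I → (n : ZMod p) = (n' : ZMod p) := by
    intro p hp
    rw [ZMod.natCast_eq_natCast_iff']
    rw [← Nat.mod_mod_of_dvd n (hp.trans hM), ← Nat.mod_mod_of_dvd n' (hp.trans hM), h]
  rintro ⟨h1, h2⟩
  refine ⟨fun p hp hd => ?_, fun p hp hd => ?_⟩
  · have := h1 p hp hd
    push_cast at this ⊢
    rwa [← key p (dvd_PP hq (Or.inl hd))]
  · have := h2 p hp hd
    push_cast at this ⊢
    rwa [← key p (dvd_PP hq (Or.inr hd))]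

/-- no prime divides `n` and `s t` -/
theorem Cond.nd {q : ℤ × ℤ} {n : ℕ} (h : Cond q n) {p : ℕ} (hp : p.Prime)
    (hd : (p : ℤ) ∣ ss q.1 q.2 ∨ (p : ℤ) ∣ tt q.1 q.2) : ¬ p ∣ n := by
  intro hn
  have h0 : (n : ZMod p) = 0 := (ZMod.natCast_eq_zero_iff n p).2 hn
  rcases hd with hd | hd
  · apply h.1 p hp hd
    push_cast
    rw [h0, mul_zero, neg_zero]
    exact IsSquare.zero
  · apply h.2 p hp hd
    push_cast
    rw [h0, mul_zero]
    exact IsSquare.zero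

/-- the common class -/
structure Com (I : Finset (ℤ × ℤ)) (m : ℕ) : Prop where
  odd : m % 2 = 1
  cond : ∀ q ∈ I, Cond q m

section

variable {I : Finset (ℤ × ℤ)} {N b : ℕ}

/-- the classes -/
noncomputable def KK (I : Finset (ℤ × ℤ)) (N b : ℕ) : Finset ℕ :=
  (range (8 * N * PP I)).filter fun c => Com I c ∧ c % N = b

theorem mem_KK (hI : ∀ q ∈ I, Good q) (hN : 0 < N) (m : ℕ) :
    m % (8 * N * PP I) ∈ KK I N b ↔ Com I m ∧ m % N = b := by
  have hM : 0 < 8 * N * PP I := Nat.mul_pos (Nat.mul_pos (by norm_num) hN) (PP_pos hI)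
  have hP : PP I ∣ 8 * N * PP I := Dvd.intro_left _ rfl
  have hN' : N ∣ 8 * N * PP I := ⟨8 * PP I, by ring⟩
  have h2 : 2 ∣ 8 * N * PP I := ⟨4 * N * PP I, by ring⟩
  rw [KK, mem_filter, mem_range, Nat.mod_mod_of_dvd m hN']
  constructor
  · rintro ⟨-, ⟨h3, h4⟩, h5⟩
    rw [Nat.mod_mod_of_dvd m h2] at h3
    exact ⟨⟨h3, fun q hq => cond_mod hq hP (Nat.mod_mod _ _) (h4 q hq)⟩, h5⟩
  · rintro ⟨⟨h3, h4⟩, h5⟩
    rw [← Nat.mod_mod_of_dvd m h2] at h3
    exact ⟨Nat.mod_lt _ hM, ⟨h3, fun q hq => cond_mod hq hP (Nat.mod_mod _ _).symm (h4 q hq)⟩, h5⟩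

theorem cop_M (_hN : 0 < N) (hbc : b.Coprime N) {m : ℕ} (h : Com I m ∧ m % N = b) :
    (m % (8 * N * PP I)).Coprime (8 * N * PP I) := by
  have h0 : m.Coprime (8 * N * PP I) := by
    rw [Nat.coprime_comm]
    refine Nat.Coprime.symm (Nat.coprime_of_dvd fun p hp h1 h2 => ?_)
    have h3 : p ∣ 8 * N ∨ p ∣ PP I := hp.dvd_mul.1 h2
    rcases h3 with h3 | h3
    · rcases hp.dvd_mul.1 h3 with h3 | h3
      · have h4 : p ∣ 2 := hp.dvd_of_dvd_pow (show p ∣ 2 ^ 3 by norm_num; exact h3)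
        have h5 : p = 2 := (Nat.prime_dvd_prime_iff_eq hp Nat.prime_two).1 h4
        subst h5
        have := h.1.odd
        omega
      · have h4 : p ∣ b := by
          rw [← h.2]
          exact (Nat.dvd_mod_iff h3).2 h1
        have h5 : p ∣ Nat.gcd b N := Nat.dvd_gcd h4 h3
        rw [hbc] at h5
        exact hp.one_lt.ne' (Nat.dvd_one.1 h5)
    · obtain ⟨q, hq, hd⟩ := of_dvd_PP hp h3
      exact (h.1.cond q hq).nd hp hd h1
  rw [Nat.Coprime, (Nat.mod_modEq m _).gcd_eq]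
  exact h0

theorem dens_joint (hI : ∀ q ∈ I, Good q) (hN : 0 < N) (hbc : b.Coprime N) {m0 : ℕ}
    (h0 : Com I m0 ∧ m0 % N = b) (f : ℕ → ZMod 2) :
    Tendsto (fun X : ℕ => (((Icc 1 X).filter fun n => (Squarefree n ∧ Com I n ∧ n % N = b) ∧
      Pool.Agent.Run7.h741.NT.Gd 7 f n.primeFactors).card : ℝ) /
    (((Icc 1 X).filter fun n => Squarefree n ∧ Com I n ∧ n % N = b).card : ℝ)) atTop
      (nhds Pool.Agent.N916.GB.eta) := by
  have hM0 : 0 < 8 * N * PP I := Nat.mul_pos (Nat.mul_pos (by norm_num) hN) (PP_pos hI)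
  have h8 : 8 ∣ 8 * N * PP I := ⟨N * PP I, by ring⟩
  have hmem := (mem_KK (b := b) hI hN m0).2 h0
  refine (Pool.Agent.Run7.h741.NM.dens (8 * N * PP I) h8 hM0 7 (Or.inr rfl) f (KK I N b)
    (fun c hc => ?_) _ hmem (cop_M hN hbc h0)).congr fun X => ?_
  · unfold KK at hc
    rw [mem_filter, mem_range] at hc
    exact ⟨hc.1, hc.2.1.1⟩
  · congr 3 <;> ext n <;> simp only [mem_filter, mem_KK hI hN, and_assoc]

theorem low_joint (hI : ∀ q ∈ I, Good q) (hN : 0 < N) (hbc : b.Coprime N) {m0 : ℕ}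
    (h0 : Com I m0 ∧ m0 % N = b) :
    ∃ a : ℝ, 0 < a ∧ ∀ᶠ X : ℕ in atTop,
      a * X ≤ (((Icc 1 X).filter fun n => Squarefree n ∧ Com I n ∧ n % N = b).card : ℝ) := by
  have hM0 : 0 < 8 * N * PP I := Nat.mul_pos (Nat.mul_pos (by norm_num) hN) (PP_pos hI)
  have h2 : 2 ∣ 8 * N * PP I := ⟨4 * N * PP I, by ring⟩
  refine ⟨1 / (4 * ((8 * N * PP I : ℕ) : ℝ)), by positivity,
    eventually_atTop.2 ⟨100 * (8 * N * PP I) ^ 2, fun X hX => ?_⟩⟩
  refine (Pool.Agent.Run7.h741.NM.low (M := 8 * N * PP I) (a := m0 % (8 * N * PP I)) h2 hM0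
    (Nat.mod_lt _ hM0) (cop_M hN hbc h0) X hX).trans ?_
  refine Nat.cast_le.2 (card_le_card fun n hn => ?_)
  rw [mem_filter] at hn ⊢
  refine ⟨hn.1, hn.2.1, ?_⟩
  rw [← mem_KK (b := b) hI hN n, hn.2.2]
  exact (mem_KK (b := b) hI hN m0).2 h0

end

/-- one prime -/
theorem exists_res {q : ℤ × ℤ} (hq : Good q) {p : ℕ} (hp : p.Prime) (h2 : p ≠ 2)
    (hd : (p : ℤ) ∣ ss q.1 q.2 ∨ (p : ℤ) ∣ tt q.1 q.2) : ∃ x : ℕ,
      ((p : ℤ) ∣ ss q.1 q.2 → ¬ IsSquare ((-(rr q.1 q.2 * x) : ℤ) : ZMod p)) ∧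
      ((p : ℤ) ∣ tt q.1 q.2 → ¬ IsSquare ((rr q.1 q.2 * x : ℤ) : ZMod p)) := by
  have : Fact p.Prime := ⟨hp⟩
  obtain ⟨a, ha⟩ := FiniteField.exists_nonsquare (F := ZMod p) (by
    rw [ZMod.ringChar_zmod_n]
    exact h2)
  have hr : (rr q.1 q.2 : ZMod p) ≠ 0 := by
    intro h0
    exact cop_rs hq.1 hp h2 ((ZMod.intCast_zmod_eq_zero_iff_dvd _ p).1 h0) hd
  rcases hd with hd | hd
  · refine ⟨(-a / (rr q.1 q.2 : ZMod p)).val, fun _ => ?_, fun ht => ?_⟩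
    · push_cast
      rw [ZMod.natCast_zmod_val]
      have e : -((rr q.1 q.2 : ZMod p) * (-a / (rr q.1 q.2 : ZMod p))) = a := by
        field_simp
      rw [e]
      exact ha
    · exact absurd (cop_st hq.1 hp h2 hd ht) id
  · refine ⟨(a / (rr q.1 q.2 : ZMod p)).val, fun hs => ?_, fun _ => ?_⟩
    · exact absurd (cop_st hq.1 hp h2 hs hd) id
    · push_cast
      rw [ZMod.natCast_zmod_val]
      have e : (rr q.1 q.2 : ZMod p) * (a / (rr q.1 q.2 : ZMod p)) = a := by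
        field_simp
      rw [e]
      exact ha

/-- a common member -/
theorem exists_com {I : Finset (ℤ × ℤ)} (hI : ∀ q ∈ I, Good q)
    (hc : ∀ q ∈ I, ∀ q' ∈ I, q ≠ q' →
      IsCoprime (ss q.1 q.2 * tt q.1 q.2) (ss q'.1 q'.2 * tt q'.1 q'.2)) :
    ∃ m, Squarefree m ∧ Com I m := by
  have hP := PP_pos hI
  have hodd : ∀ p : ℕ, p.Prime → p ∣ PP I → p ≠ 2 := by
    rintro p hp hd rfl
    obtain ⟨q, hq, hd'⟩ := of_dvd_PP Nat.prime_two hd
    obtain ⟨h1, h2, -⟩ := par (hI q hq).2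
    rcases hd' with h | h
    · have : (2 : ℤ) ∣ ss q.1 q.2 := by exact_mod_cast h
      omega
    · have : (2 : ℤ) ∣ tt q.1 q.2 := by exact_mod_cast h
      omega
  -- the residues
  have hx : ∀ p : ℕ, ∃ x : ℕ, p ∈ (PP I).primeFactors → ∀ q ∈ I,
      ((p : ℤ) ∣ ss q.1 q.2 → ¬ IsSquare ((-(rr q.1 q.2 * x) : ℤ) : ZMod p)) ∧
      ((p : ℤ) ∣ tt q.1 q.2 → ¬ IsSquare ((rr q.1 q.2 * x : ℤ) : ZMod p)) := by
    intro p
    by_cases hp : p ∈ (PP I).primeFactors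
    · obtain ⟨hpp, hpd, -⟩ := Nat.mem_primeFactors.1 hp
      obtain ⟨q, hq, hd⟩ := of_dvd_PP hpp hpd
      obtain ⟨x, hx⟩ := exists_res (hI q hq) hpp (hodd p hpp hpd) hd
      refine ⟨x, fun _ q' hq' => ?_⟩
      by_cases hqq : q = q'
      · rw [← hqq]
        exact hx
      · have hpi : Prime (p : ℤ) := Nat.prime_iff_prime_int.1 hpp
        have h1 : (p : ℤ) ∣ ss q.1 q.2 * tt q.1 q.2 := by
          rcases hd with h | h
          · exact Dvd.dvd.mul_right h _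
          · exact Dvd.dvd.mul_left h _
        have h2 : ¬ (p : ℤ) ∣ ss q'.1 q'.2 * tt q'.1 q'.2 := fun h2 =>
          hpi.not_isUnit ((hc q hq q' hq' hqq).isUnit_of_dvd' h1 h2)
        exact ⟨fun h3 => absurd (Dvd.dvd.mul_right h3 _) h2,
          fun h3 => absurd (Dvd.dvd.mul_left h3 _) h2⟩
    · exact ⟨0, fun h => absurd h hp⟩
  choose x hx using hx
  -- the Chinese remainder theorem
  obtain ⟨k, hk⟩ := Nat.chineseRemainderOfFinset (fun i => if i = 8 then 1 else x i) (fun i => i)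
    (insert 8 (PP I).primeFactors) (fun i hi => by
      rcases mem_insert.1 hi with h | h
      · rw [h]; norm_num
      · exact (Nat.prime_of_mem_primeFactors h).ne_zero) (by
      have h8 : ∀ p ∈ (PP I).primeFactors, Nat.Coprime 8 p := by
        intro p hp
        obtain ⟨hpp, hpd, -⟩ := Nat.mem_primeFactors.1 hp
        have : Nat.Coprime 2 p :=
          (Nat.coprime_primes Nat.prime_two hpp).2 (Ne.symm (hodd p hpp hpd))
        exact Nat.Coprime.pow_left 3 this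
      intro i hi j hj hij
      rw [mem_coe, mem_insert] at hi hj
      rcases hi with hi | hi <;> rcases hj with hj | hj
      · exact absurd (hi.trans hj.symm) hij
      · rw [hi]
        exact h8 j hj
      · rw [hj]
        exact (h8 i hi).symm
      · exact (Nat.coprime_primes (Nat.prime_of_mem_primeFactors hi)
          (Nat.prime_of_mem_primeFactors hj)).2 hij)
  have hk8 : k % 8 = 1 := by
    have := hk 8 (mem_insert_self _ _)
    rw [if_pos rfl] at this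
    exact this
  have hkp : ∀ p ∈ (PP I).primeFactors, (k : ZMod p) = (x p : ZMod p) := by
    intro p hp
    have h1 := hk p (mem_insert_of_mem hp)
    have h3 : p ≠ 8 := by
      rintro rfl
      exact absurd (Nat.prime_of_mem_primeFactors hp) (by norm_num)
    rw [if_neg h3] at h1
    exact (ZMod.natCast_eq_natCast_iff _ _ _).2 h1
  have hcom : Com I k := by
    refine ⟨by omega, fun q hq => ⟨fun p hp hd => ?_, fun p hp hd => ?_⟩⟩
    · have hpf : p ∈ (PP I).primeFactors :=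
        Nat.mem_primeFactors.2 ⟨hp, dvd_PP hq (Or.inl hd), hP.ne'⟩
      have := (hx p hpf q hq).1 hd
      push_cast at this ⊢
      rwa [hkp p hpf]
    · have hpf : p ∈ (PP I).primeFactors :=
        Nat.mem_primeFactors.2 ⟨hp, dvd_PP hq (Or.inr hd), hP.ne'⟩
      have := (hx p hpf q hq).2 hd
      push_cast at this ⊢
      rwa [hkp p hpf]
  -- a squarefree number in the class
  have h1 : Com I k ∧ k % 1 = 0 := ⟨hcom, Nat.mod_one k⟩
  have hM0 : 0 < 8 * 1 * PP I := Nat.mul_pos (by norm_num) hP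
  have h2 : 2 ∣ 8 * 1 * PP I := ⟨4 * PP I, by ring⟩
  have h3 := Pool.Agent.Run7.h741.NM.low (M := 8 * 1 * PP I) (a := k % (8 * 1 * PP I)) h2 hM0
    (Nat.mod_lt _ hM0) (cop_M (N := 1) (b := 0) one_pos (by norm_num) h1)
    (100 * (8 * 1 * PP I) ^ 2) le_rfl
  have h4 : (0 : ℝ) < 1 / (4 * ((8 * 1 * PP I : ℕ) : ℝ)) *
      ((100 * (8 * 1 * PP I) ^ 2 : ℕ) : ℝ) := by positivity
  have h5 := h4.trans_le h3
  have h6 : 0 < ((Icc 1 (100 * (8 * 1 * PP I) ^ 2)).filter fun D =>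
    Squarefree D ∧ D % (8 * 1 * PP I) = k % (8 * 1 * PP I)).card := by exact_mod_cast h5
  obtain ⟨m, hm⟩ := Finset.card_pos.1 h6
  rw [mem_filter] at hm
  refine ⟨m, hm.2.1, ?_⟩
  have h7 := (mem_KK (b := 0) hI one_pos k).2 h1
  rw [← hm.2.2] at h7
  exact ((mem_KK (b := 0) hI one_pos m).1 h7).1

end Run7.h843.N
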