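import Pool.Agent.Run7.h843.L10
import Pool.Agent.Run7.h843.N7
import Pool.Agent.N916.GB.Num

/-!
# The law of the corank: the proportions and their sum
-/

set_option autoImplicit false

open Finset Filter Topology

namespace Run7.h843.L

open Run7.h843.R
open Run7.h843.N (Com Good PP PP_pos KK mem_KK cop_M)
open Pool.Agent.N916.GB (eta eta_tendsto eta_bounds)

section

open scoped Classical

variable {I : Finset (ℤ × ℤ)} {N b : ℕ}

theorem dens_jointk (k : ℕ) (hI : ∀ q ∈ I, Good q) (hN : 0 < N) (hbc : b.Coprime N) {m0 : ℕ}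
    (h0 : Com I m0 ∧ m0 % N = b) (f : ℕ → ZMod 2) :
    Tendsto (fun X : ℕ => (((Icc 1 X).filter fun n => (Squarefree n ∧ Com I n ∧ n % N = b) ∧
      Gk k 7 f n.primeFactors).card : ℝ) /
    (((Icc 1 X).filter fun n => Squarefree n ∧ Com I n ∧ n % N = b).card : ℝ)) atTop
      (nhds (gk k)) := by
  have hM0 : 0 < 8 * N * PP I := Nat.mul_pos (Nat.mul_pos (by norm_num) hN) (PP_pos hI)
  have h8 : 8 ∣ 8 * N * PP I := ⟨N * PP I, by ring⟩
  have hmem := (mem_KK (b := b) hI hN m0).2 h0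
  refine (dens k (8 * N * PP I) h8 hM0 7 (Or.inr rfl) f (KK I N b)
    (fun c hc => ?_) _ hmem (cop_M hN hbc h0)).congr fun X => ?_
  · unfold KK at hc
    rw [mem_filter, mem_range] at hc
    exact ⟨hc.1, hc.2.1.1⟩
  · congr 3 <;> ext n <;> simp only [mem_filter, mem_KK hI hN, and_assoc]

end

/-! ### The sum of the proportions -/

theorem Qn_succ (n : ℕ) : Qn (n + 1) = Qn n * (1 - (1 / 2 : ℝ) ^ (n + 1)) := prod_range_succ _ _

theorem Qn_zero : Qn 0 = 1 := prod_range_zero _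

/-- the probability that a square matrix of size `k + j` has corank `k` -/
noncomputable def pn (k j : ℕ) : ℝ := (1 / 2) ^ (k ^ 2) * Qn (k + j) ^ 2 / (Qn k ^ 2 * Qn j)

/-- the flow -/
noncomputable def fl (k j : ℕ) : ℝ :=
  (1 / 2) ^ (k ^ 2 + j + 1) * Qn (k + j) ^ 2 * (1 - (1 / 2) ^ k) ^ 2 / (Qn k ^ 2 * Qn (j + 1))

theorem one_sub_pos (n : ℕ) : (0 : ℝ) < 1 - (1 / 2) ^ (n + 1) := by
  have : (1 / 2 : ℝ) ^ (n + 1) < 1 := pow_lt_one₀ (by norm_num) (by norm_num) (by omega)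
  linarith

theorem step (k j : ℕ) : pn k (j + 1) - pn k j = fl k j - (1 / 2) ^ (2 * k + 1) * (1 / 2) ^ j * pn k j := by
  unfold pn fl
  have e1 : k + (j + 1) = k + j + 1 := rfl
  rw [e1, Qn_succ (k + j), Qn_succ j]
  have h1 := Qn_pos k
  have h2 := Qn_pos j
  have h3 := Qn_pos (k + j)
  have h4 := one_sub_pos j
  have e2 : (1 / 2 : ℝ) ^ (k ^ 2 + j + 1) = (1 / 2) ^ (k ^ 2) * (1 / 2) ^ j * (1 / 2) := by
    rw [pow_add, pow_add, pow_one]
  have e3 : (1 / 2 : ℝ) ^ (k + j + 1) = (1 / 2) ^ k * (1 / 2) ^ j * (1 / 2) := by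
    rw [pow_add, pow_add, pow_one]
  have e4 : (1 / 2 : ℝ) ^ (2 * k + 1) = ((1 / 2) ^ k) ^ 2 * (1 / 2) := by
    rw [pow_add, pow_one, mul_comm 2 k, pow_mul]
  have e5 : (1 / 2 : ℝ) ^ (j + 1) = (1 / 2) ^ j * (1 / 2) := pow_succ _ _
  rw [e5] at h4
  rw [e2, e3, e4, e5]
  generalize (1 / 2 : ℝ) ^ k = x at *
  generalize (1 / 2 : ℝ) ^ j = y at *
  generalize (1 / 2 : ℝ) ^ (k ^ 2) = z at *
  have h5 : (2 - y) ≠ 0 := by
    intro h
    have : y = 2 := by linarith
    rw [this] at h4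
    norm_num at h4
  field_simp
  ring

theorem flow (k j : ℕ) : fl (k + 1) j = (1 / 2) ^ (2 * k + 1) * (1 / 2) ^ (j + 1) * pn k (j + 1) := by
  unfold pn fl
  have e1 : k + (j + 1) = k + 1 + j := by omega
  rw [e1, Qn_succ k]
  have h1 := Qn_pos k
  have h2 := Qn_pos (j + 1)
  have h3 := Qn_pos (k + 1 + j)
  have h4 := one_sub_pos k
  have e2 : (1 / 2 : ℝ) ^ ((k + 1) ^ 2 + j + 1) =
      (1 / 2) ^ (k ^ 2) * (1 / 2) ^ (2 * k + 1) * (1 / 2) ^ (j + 1) := by
    rw [← pow_add, ← pow_add]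
    congr 1
    ring
  rw [e2]
  field_simp

theorem fl_zero (j : ℕ) : fl 0 j = 0 := by
  unfold fl
  rw [pow_zero, sub_self]
  simp

/-- the sum is one -/
theorem sum_pn (n : ℕ) : ∑ k ∈ range (n + 1), pn k (n - k) = 1 := by
  induction n with
  | zero =>
    rw [zero_add, sum_range_one]
    unfold pn
    simp [Qn_zero]
  | succ n ih =>
    rw [sum_range_succ, Nat.sub_self]
    have h1 : ∑ k ∈ range (n + 1), pn k (n + 1 - k) - ∑ k ∈ range (n + 1), pn k (n - k) =
        ∑ k ∈ range (n + 1), (fl k (n - k) - (1 / 2) ^ (2 * k + 1) * (1 / 2) ^ (n - k) * pn k (n - k)) := by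
      rw [← sum_sub_distrib]
      refine sum_congr rfl fun k hk => ?_
      rw [mem_range] at hk
      have e : n + 1 - k = n - k + 1 := by omega
      rw [e, step]
    have h2 : ∀ N : ℕ, N ≤ n → ∑ k ∈ range (N + 1), (fl k (n - k) -
        (1 / 2) ^ (2 * k + 1) * (1 / 2) ^ (n - k) * pn k (n - k)) =
        - ((1 / 2) ^ (2 * N + 1) * (1 / 2) ^ (n - N) * pn N (n - N)) := by
      intro N hN
      induction N with
      | zero =>
        rw [zero_add, sum_range_one, fl_zero]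
        ring
      | succ N ihN =>
        rw [sum_range_succ, ihN (by omega)]
        have e3 : n - N = n - (N + 1) + 1 := by omega
        rw [flow, ← e3]
        ring
    have h3 := h2 n le_rfl
    rw [Nat.sub_self] at h3
    have h4 : pn (n + 1) 0 = (1 / 2) ^ (2 * n + 1) * (1 / 2) ^ 0 * pn n 0 := by
      unfold pn
      rw [add_zero, add_zero, Qn_zero, pow_zero]
      have h5 := Qn_pos n
      have h6 := Qn_pos (n + 1)
      have e : (1 / 2 : ℝ) ^ ((n + 1) ^ 2) = (1 / 2) ^ (n ^ 2) * (1 / 2) ^ (2 * n + 1) := by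
        rw [← pow_add]
        congr 1
        ring
      rw [e]
      field_simp
    rw [h3, ih] at h1
    rw [h4]
    linarith

theorem eta_pos' : 0 < eta := by
  have := eta_bounds.1
  linarith

theorem pn_tendsto (k : ℕ) : Tendsto (fun n : ℕ => if k ≤ n then pn k (n - k) else 0) atTop
    (nhds (gk k)) := by
  have h0 : Tendsto Qn atTop (nhds eta) := eta_tendsto
  have h1 : Tendsto (fun n : ℕ => Qn (n - k)) atTop (nhds eta) :=
    h0.comp (tendsto_sub_atTop_nat k)
  have h2 : Tendsto (fun n : ℕ => (1 / 2 : ℝ) ^ (k ^ 2) * Qn n ^ 2 / (Qn k ^ 2 * Qn (n - k))) atTop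
      (nhds ((1 / 2 : ℝ) ^ (k ^ 2) * eta ^ 2 / (Qn k ^ 2 * eta))) :=
    ((h0.pow 2).const_mul _).div (h1.const_mul _)
      (mul_ne_zero (pow_ne_zero 2 (Qn_pos k).ne') eta_pos'.ne')
  have e : (1 / 2 : ℝ) ^ (k ^ 2) * eta ^ 2 / (Qn k ^ 2 * eta) = gk k := by
    rw [gk_eq, one_div, inv_pow]
    have := eta_pos'.ne'
    have := (Qn_pos k).ne'
    field_simp
  rw [e] at h2
  refine h2.congr' ?_
  filter_upwards [eventually_ge_atTop k] with n hn
  rw [if_pos hn]
  unfold pn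
  rw [show k + (n - k) = n by omega]

theorem pn_bound (n k : ℕ) : ‖(if k ≤ n then pn k (n - k) else 0 : ℝ)‖ ≤ (1 / 2 : ℝ) ^ k * (1 / eta) := by
  have he := eta_pos'
  split_ifs with h
  · unfold pn
    rw [show k + (n - k) = n by omega]
    have h1 := Qn_pos n
    have h2 := Qn_pos k
    have h3 := Qn_pos (n - k)
    have h4 : Qn n ≤ Qn k := Qn_anti h
    have h5 := eta_le (n - k)
    rw [Real.norm_of_nonneg (by positivity)]
    have h6 : (1 / 2 : ℝ) ^ (k ^ 2) ≤ (1 / 2) ^ k :=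
      pow_le_pow_of_le_one (by norm_num) (by norm_num) (by nlinarith [Nat.zero_le k])
    have h7 : Qn n ^ 2 / Qn k ^ 2 ≤ 1 := by
      rw [div_le_one (by positivity)]
      exact pow_le_pow_left₀ h1.le h4 2
    have h8 : 1 / Qn (n - k) ≤ 1 / eta := one_div_le_one_div_of_le he h5
    have e : (1 / 2 : ℝ) ^ (k ^ 2) * Qn n ^ 2 / (Qn k ^ 2 * Qn (n - k)) =
        (1 / 2 : ℝ) ^ (k ^ 2) * (Qn n ^ 2 / Qn k ^ 2) * (1 / Qn (n - k)) := by
      field_simp
    rw [e]
    calc (1 / 2 : ℝ) ^ (k ^ 2) * (Qn n ^ 2 / Qn k ^ 2) * (1 / Qn (n - k))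
        ≤ (1 / 2 : ℝ) ^ k * 1 * (1 / eta) := by
          refine mul_le_mul (mul_le_mul h6 h7 (by positivity) (by positivity)) h8 (by positivity)
            (by positivity)
      _ = (1 / 2 : ℝ) ^ k * (1 / eta) := by rw [mul_one]
  · rw [norm_zero]
    positivity

/-- **the proportions have the sum one** -/
theorem gk_hasSum : HasSum gk 1 := by
  have hs : Summable fun k : ℕ => (1 / 2 : ℝ) ^ k * (1 / eta) := summable_geometric_two.mul_right _
  have h1 := tendsto_tsum_of_dominated_convergence (𝓕 := atTop)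
    (f := fun (n k : ℕ) => (if k ≤ n then pn k (n - k) else 0 : ℝ)) (g := gk) hs
    (fun k => pn_tendsto k) (Eventually.of_forall fun n k => pn_bound n k)
  have h2 : ∀ n : ℕ, ∑' k, (if k ≤ n then pn k (n - k) else 0 : ℝ) = 1 := by
    intro n
    rw [tsum_eq_sum (s := range (n + 1)) fun k hk => by
      rw [mem_range] at hk
      exact if_neg (by omega)]
    rw [← sum_pn n]
    refine sum_congr rfl fun k hk => ?_
    rw [mem_range] at hk
    exact if_pos (by omega)
  simp only [h2] at h1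
  have h3 : ∑' k, gk k = 1 := tendsto_nhds_unique h1 tendsto_const_nhds |>.symm ▸ rfl
  have h4 : Summable gk := by
    refine Summable.of_nonneg_of_le (fun k => (gk_mem k).1) (fun k => ?_) hs
    refine le_of_tendsto (pn_tendsto k) (Eventually.of_forall fun n => ?_)
    exact (le_abs_self _).trans (pn_bound n k)
  rw [← h3]
  exact h4.hasSum

end Run7.h843.L
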