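import Pool.Agent.Run7.h843.G7
import Pool.Agent.Run7.h843.G3
import Pool.Agent.Run7.h843.L11

/-!
# The law of the numbers of solvable factorizations in the classes modulo `M`

The natural proportion of the squarefree `n` in a union of classes modulo a multiple `M` of `8`,
`n = 3` modulo `4`, which have exactly `2 ^ (k + 1)` factorizations `n = b c` with `b` a square
modulo the primes of `c` and `c` a square modulo the primes of `b`, is
`gk k = 2 ^ (-k²) ∏_{i ≥ 1} (1 - 2 ^ (-i)) / ∏_{1 ≤ i ≤ k} (1 - 2 ^ (-i)) ²`.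
-/

set_option autoImplicit false

open scoped Classical
open Finset Filter

namespace Pool.Agent.Run7.h843.G

open Pool.Agent.N916.GB (Po eta Ev Lm Lm_mulVec Vt sy jac_prod nr_recip sum_uu z2 z2_add_self z2_sq
  z2_eq_of_add)
open Pool.Agent.N973.ND (uu)
open Pool.Agent.Y703.CQ (nr)
open Pool.Agent.Run7.h741.NM (card_eq low)
open Run7.h843.L (gk)

theorem densk (m : ℕ) (M : ℕ) (hM : 8 ∣ M) (hM0 : 0 < M) (t : Bool) (r s : ZMod 2) (K : Finset ℕ)
    (hok : OkM M t r s K) (b : ℕ) (hb : b ∈ K) (hc : b.Coprime M) :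
    Tendsto (fun X : ℕ => (((Icc 1 X).filter fun n => Squarefree n ∧ n % M ∈ K ∧
      Gdk m t r s n.primeFactors).card : ℝ) /
    (((Icc 1 X).filter fun n => Squarefree n ∧ n % M ∈ K).card : ℝ)) atTop (nhds (gk m)) := by
  have hM2 : 2 ∣ M := Dvd.dvd.trans (by norm_num) hM
  have hK : ∀ b ∈ K, b < M ∧ b % 2 = 1 := by
    intro b hb
    have := hok.2.2 b hb
    refine ⟨this.1, ?_⟩
    have h2 := this.2
    split_ifs at h2 <;> omega
  have hMr : (0 : ℝ) < M := by exact_mod_cast hM0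
  rw [Metric.tendsto_atTop]
  intro ε hε
  obtain ⟨X₀, hX₀⟩ := t_DQk m M hM hM0 t r s K hok (ε / 2 * (1 / (4 * M))) (by positivity)
  refine ⟨max X₀ (100 * M ^ 2), fun X hX => ?_⟩
  have h1 := hX₀ X ((le_max_left _ _).trans hX)
  have e1 := card_eq hM2 (fun b hb => (hK b hb).2) X (Gdk m t r s)
  have e2 := card_eq hM2 (fun b hb => (hK b hb).2) X (fun _ => True)
  rw [Finset.filter_true] at e2
  simp only [and_true] at e2
  rw [← e1, ← e2] at h1
  have h2 := low hM2 hM0 (hK b hb).1 hc X ((le_max_right _ _).trans hX)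
  have h3 : (((Icc 1 X).filter fun D => Squarefree D ∧ D % M = b).card : ℝ) ≤
      (((Icc 1 X).filter fun n => Squarefree n ∧ n % M ∈ K).card : ℝ) := by
    refine Nat.cast_le.2 (card_le_card fun n hn => ?_)
    rw [mem_filter] at hn ⊢
    refine ⟨hn.1, hn.2.1, ?_⟩
    rw [hn.2.2]
    exact hb
  have hX1 : (0 : ℝ) < X := by
    have h4 : 0 < X := by
      have h5 := (le_max_right X₀ (100 * M ^ 2)).trans hX
      have h6 : 0 < 100 * M ^ 2 := by positivity
      omega
    exact_mod_cast h4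
  set L : ℝ := (((Icc 1 X).filter fun n => Squarefree n ∧ n % M ∈ K).card : ℝ) with hL
  have hL0 : 0 < L := by
    have : (0 : ℝ) < 1 / (4 * M) * X := by positivity
    linarith
  rw [Real.dist_eq, div_sub' hL0.ne', abs_div, abs_of_pos hL0, div_lt_iff₀ hL0]
  have h4 : ε / 2 * (1 / (4 * M)) * X ≤ ε / 2 * L := by
    have := h2.trans h3
    calc ε / 2 * (1 / (4 * M)) * X = ε / 2 * (1 / (4 * M) * X) := by ring
      _ ≤ ε / 2 * L := by gcongr
  have h5 : ε / 2 * L < ε * L := by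
    apply mul_lt_mul_of_pos_right _ hL0
    linarith
  calc |(((Icc 1 X).filter fun n => Squarefree n ∧ n % M ∈ K ∧
      Gdk m t r s n.primeFactors).card : ℝ) - L * gk m| = |(((Icc 1 X).filter fun n => Squarefree n ∧
        n % M ∈ K ∧ Gdk m t r s n.primeFactors).card : ℝ) - gk m * L| := by rw [mul_comm L]
    _ ≤ ε / 2 * (1 / (4 * M)) * X := h1
    _ < ε * L := by linarith

/-! ### the transposed system -/

section lin

variable {V : Type} [Fintype V]

theorem card_ker (N : V → V → ZMod 2) : Nat.card {x : V → ZMod 2 // ∀ q, Ev N x q = 0} =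
    2 ^ (Fintype.card V - (Lm N).rank) := by
  have hk : ∀ x, x ∈ LinearMap.ker (Lm N).mulVecLin ↔ ∀ q, Ev N x q = 0 := by
    intro x
    rw [LinearMap.mem_ker, Matrix.mulVecLin_apply]
    constructor
    · intro h q
      rw [← Lm_mulVec, h]
      rfl
    · intro h
      funext q
      rw [Lm_mulVec]
      exact h q
  have h2 := LinearMap.finrank_range_add_finrank_ker (Lm N).mulVecLin
  rw [Module.finrank_fintype_fun_eq_card] at h2
  have h3 : (Lm N).rank = Module.finrank (ZMod 2) (LinearMap.range (Lm N).mulVecLin) := rfl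
  rw [← h3] at h2
  have h1 : Nat.card (LinearMap.ker (Lm N).mulVecLin) =
      2 ^ Module.finrank (ZMod 2) (LinearMap.ker (Lm N).mulVecLin) := by
    have := Fact.mk Nat.prime_two
    rw [Module.natCard_eq_pow_finrank (K := ZMod 2), Nat.card_zmod]
  have h4 : Nat.card {x : V → ZMod 2 // ∀ q, Ev N x q = 0} =
      Nat.card (LinearMap.ker (Lm N).mulVecLin) :=
    Nat.card_congr (Equiv.subtypeEquivRight fun x => (hk x).symm)
  rw [h4, h1]
  congr 1
  omega

/-- the transposed system has the same number of solutions -/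
theorem card_transpose (N : V → V → ZMod 2)
    (h : ∀ i, ∑ j, (if j = i then 0 else N i j) = ∑ j, (if j = i then 0 else N j i)) :
    Nat.card {x : V → ZMod 2 // ∀ q, Ev N x q = 0} =
      Nat.card {x : V → ZMod 2 // ∀ q, Ev (fun i j => N j i) x q = 0} := by
  rw [card_ker, card_ker]
  have h1 : Lm (fun i j => N j i) = (Lm N).transpose := by
    funext q p
    rw [Matrix.transpose_apply]
    unfold Lm
    by_cases hpq : p = q
    · rw [if_pos hpq, if_pos hpq.symm, ← h q, hpq]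
    · rw [if_neg hpq, if_neg fun h => hpq h.symm]
  rw [h1, Matrix.rank_transpose]

/-- the sums of the rows and of the columns are equal -/
theorem row_eq (N : V → V → ZMod 2) (u : V → ZMod 2) (hu : ∑ j, u j = 1)
    (hN : ∀ i j, j ≠ i → N i j + N j i = u i * u j) (i : V) :
    ∑ j, (if j = i then 0 else N i j) = ∑ j, (if j = i then 0 else N j i) := by
  have h1 : ∑ j, ((if j = i then 0 else N i j) + (if j = i then 0 else N j i)) = 0 := by
    have h2 : ∀ j, (if j = i then 0 else N i j) + (if j = i then 0 else N j i) =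
        u i * u j + (if j = i then u i else 0) := by
      intro j
      by_cases h : j = i
      · rw [if_pos h, if_pos h, if_pos h, h, z2_sq, z2_add_self (u i), add_zero]
      · rw [if_neg h, if_neg h, if_neg h, add_zero, hN i j h]
    rw [sum_congr rfl fun j _ => h2 j, sum_add_distrib, ← mul_sum, hu, sum_ite_eq' univ i,
      if_pos (mem_univ _), mul_one, z2_add_self]
  rw [sum_add_distrib] at h1
  exact z2_eq_of_add h1

end lin

/-! ### the factorizations -/

/-- `n = b c` with `b` a square modulo the primes of `c` and `c` modulo the primes of `b` -/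
def Fz (n : ℕ) (s : ℕ × ℕ) : Prop := s.1 * s.2 = n ∧
  (∀ p ∈ s.2.primeFactors, jacobiSym s.1 p = 1) ∧ ∀ p ∈ s.1.primeFactors, jacobiSym s.2 p = 1

/-- the number of these factorizations -/
noncomputable def Nf (n : ℕ) : ℕ := Nat.card {s : ℕ × ℕ // s.1 * s.2 = n ∧
  (∀ p ∈ s.2.primeFactors, jacobiSym s.1 p = 1) ∧ ∀ p ∈ s.1.primeFactors, jacobiSym s.2 p = 1}

theorem sol_iff {S B C : Finset ℕ} (hS : ∀ p ∈ S, p.Prime ∧ p ≠ 2) (x : S → ZMod 2)
    (hB : B ⊆ S) (hC : C ⊆ S) (hd : Disjoint B C)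
    (hx0 : ∀ p : S, x p = 0 ↔ (p : ℕ) ∈ B) (hx1 : ∀ p : S, x p = 1 ↔ (p : ℕ) ∈ C) :
    (∀ q : S, Ev (fun p q : S => nr (p : ℕ) (q : ℕ)) x q = 0) ↔
    (∀ q ∈ C, jacobiSym ((∏ p ∈ B, p : ℕ) : ℤ) q = 1) ∧
      ∀ q ∈ B, jacobiSym ((∏ p ∈ C, p : ℕ) : ℤ) q = 1 := by
  have hsum : ∀ (D : Finset ℕ) (hD : D ⊆ S) (q : ℕ),
      ∑ p ∈ D, nr q p = ∑ p : S, if (p : ℕ) ∈ D then nr q p else 0 := by
    intro D hD q
    rw [sum_coe_sort S fun p => if p ∈ D then nr q p else 0, ← sum_filter]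
    congr 1
    ext p
    rw [mem_filter]
    exact ⟨fun h => ⟨hD h, h⟩, fun h => h.2⟩
  have h1 : ∀ q : S, (q : ℕ) ∈ C → Ev (fun p q : S => nr (p : ℕ) (q : ℕ)) x q =
      ∑ p ∈ B, nr q p := by
    intro q hq
    rw [hsum B hB]
    unfold Ev
    refine sum_congr rfl fun p _ => ?_
    rw [(hx1 q).2 hq]
    by_cases hp : (p : ℕ) ∈ B
    · rw [if_pos hp, (hx0 p).2 hp, zero_add, one_mul]
    · rw [if_neg hp, (z2 (x p)).resolve_left fun h => hp ((hx0 p).1 h), z2_add_self, zero_mul]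
  have h2 : ∀ q : S, (q : ℕ) ∈ B → Ev (fun p q : S => nr (p : ℕ) (q : ℕ)) x q =
      ∑ p ∈ C, nr q p := by
    intro q hq
    rw [hsum C hC]
    unfold Ev
    refine sum_congr rfl fun p _ => ?_
    rw [(hx0 q).2 hq, add_zero]
    by_cases hp : (p : ℕ) ∈ C
    · rw [if_pos hp, (hx1 p).2 hp, one_mul]
    · rw [if_neg hp, (z2 (x p)).resolve_right fun h => hp ((hx1 p).1 h), zero_mul]
  have hne : (1 : ℤ) ≠ -1 := by norm_num
  have j1 : ∀ q : S, (q : ℕ) ∈ C → (jacobiSym ((∏ p ∈ B, p : ℕ) : ℤ) q = 1 ↔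
      ∑ p ∈ B, nr q p = 0) := by
    intro q hq
    obtain ⟨e1, e2⟩ := hS q q.2
    rw [jac_prod e1 e2 B fun p hp => ⟨(hS p (hB hp)).1, fun h => by
      rw [h] at hp
      exact (Finset.disjoint_left.1 hd hp) hq⟩]
    split_ifs with h
    · exact ⟨fun _ => h, fun _ => rfl⟩
    · exact ⟨fun h' => absurd h' (by norm_num), fun h' => absurd h' h⟩
  have j2 : ∀ q : S, (q : ℕ) ∈ B → (jacobiSym ((∏ p ∈ C, p : ℕ) : ℤ) q = 1 ↔
      ∑ p ∈ C, nr q p = 0) := by
    intro q hq
    obtain ⟨e1, e2⟩ := hS q q.2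
    rw [jac_prod e1 e2 C fun p hp => ⟨(hS p (hC hp)).1, fun h => by
      rw [h] at hp
      exact (Finset.disjoint_left.1 hd hq) hp⟩]
    split_ifs with h
    · exact ⟨fun _ => h, fun _ => rfl⟩
    · exact ⟨fun h' => absurd h' (by norm_num), fun h' => absurd h' h⟩
  constructor
  · intro h
    refine ⟨fun q hq => ?_, fun q hq => ?_⟩
    · exact (j1 ⟨q, hC hq⟩ hq).2 (by rw [← h1 ⟨q, hC hq⟩ hq]; exact h _)
    · exact (j2 ⟨q, hB hq⟩ hq).2 (by rw [← h2 ⟨q, hB hq⟩ hq]; exact h _)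
  · rintro ⟨h3, h4⟩ q
    rcases z2 (x q) with h | h
    · have hq := (hx0 q).1 h
      rw [h2 q hq]
      exact (j2 q hq).1 (h4 q hq)
    · have hq := (hx1 q).1 h
      rw [h1 q hq]
      exact (j1 q hq).1 (h3 q hq)

/-- the two parts of a vector -/
noncomputable def Bx {S : Finset ℕ} (x : S → ZMod 2) : Finset ℕ :=
  S.filter fun p => ∀ h : p ∈ S, x ⟨p, h⟩ = 0

noncomputable def Cx {S : Finset ℕ} (x : S → ZMod 2) : Finset ℕ :=
  S.filter fun p => ¬ ∀ h : p ∈ S, x ⟨p, h⟩ = 0

theorem mem_Bx {S : Finset ℕ} (x : S → ZMod 2) (p : S) : x p = 0 ↔ (p : ℕ) ∈ Bx x := by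
  unfold Bx
  rw [mem_filter]
  exact ⟨fun h => ⟨p.2, fun _ => h⟩, fun h => h.2 p.2⟩

theorem mem_Cx {S : Finset ℕ} (x : S → ZMod 2) (p : S) : x p = 1 ↔ (p : ℕ) ∈ Cx x := by
  unfold Cx
  rw [mem_filter]
  constructor
  · intro h
    refine ⟨p.2, fun h0 => ?_⟩
    have := h0 p.2
    rw [h] at this
    exact one_ne_zero this
  · intro h
    refine (z2 _).resolve_left fun h0 => h.2 fun _ => h0

theorem card_sol {n : ℕ} (hn : Squarefree n) (hodd : ∀ p ∈ n.primeFactors, p.Prime ∧ p ≠ 2) :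
    Nat.card {x : n.primeFactors → ZMod 2 //
      ∀ q, Ev (fun p q : n.primeFactors => nr (p : ℕ) (q : ℕ)) x q = 0} = Nf n := by
  have hprod : ∏ p ∈ n.primeFactors, p = n := Nat.prod_primeFactors_of_squarefree hn
  have hn0 : n ≠ 0 := hn.ne_zero
  have hBp : ∀ B : Finset ℕ, B ⊆ n.primeFactors → (∏ p ∈ B, p).primeFactors = B := fun B hB =>
    Nat.primeFactors_prod fun p hp => (hodd p (hB hp)).1
  have hBs : ∀ x : n.primeFactors → ZMod 2, Bx x ⊆ n.primeFactors := fun x => filter_subset _ _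
  have hCs : ∀ x : n.primeFactors → ZMod 2, Cx x ⊆ n.primeFactors := fun x => filter_subset _ _
  have hd : ∀ x : n.primeFactors → ZMod 2, Disjoint (Bx x) (Cx x) := fun x =>
    disjoint_filter_filter_not _ _ _
  have hBC : ∀ x : n.primeFactors → ZMod 2, (∏ p ∈ Bx x, p) * ∏ p ∈ Cx x, p = n := fun x => by
    unfold Bx Cx
    rw [prod_filter_mul_prod_filter_not, hprod]
  unfold Nf
  refine Nat.card_congr (Equiv.ofBijective (fun x => ⟨(∏ p ∈ Bx x.1, p, ∏ p ∈ Cx x.1, p),
    hBC x.1, ?_, ?_⟩) ⟨?_, ?_⟩)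
  · have h := ((sol_iff hodd x.1 (hBs x.1) (hCs x.1) (hd x.1) (mem_Bx x.1) (mem_Cx x.1)).1 x.2).1
    intro p hp
    rw [hBp _ (hCs x.1)] at hp
    exact h p hp
  · have h := ((sol_iff hodd x.1 (hBs x.1) (hCs x.1) (hd x.1) (mem_Bx x.1) (mem_Cx x.1)).1 x.2).2
    intro p hp
    rw [hBp _ (hBs x.1)] at hp
    exact h p hp
  · intro x y h
    have h1 : ∏ p ∈ Bx x.1, p = ∏ p ∈ Bx y.1, p := congrArg (fun s => s.1.1) h
    have h2 := congrArg Nat.primeFactors h1
    rw [hBp _ (hBs x.1), hBp _ (hBs y.1)] at h2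
    apply Subtype.ext
    funext p
    rcases z2 (x.1 p) with h3 | h3
    · rw [h3]
      have h4 := (mem_Bx x.1 p).1 h3
      rw [h2] at h4
      exact ((mem_Bx y.1 p).2 h4).symm
    · rw [h3]
      refine ((z2 (y.1 p)).resolve_left fun h4 => ?_).symm
      have h5 := (mem_Bx y.1 p).1 h4
      rw [← h2] at h5
      rw [(mem_Bx x.1 p).2 h5] at h3
      exact zero_ne_one h3
  · rintro ⟨⟨b, c⟩, hbc, hc, hb⟩
    simp only at hbc hc hb
    have hb0 : b ≠ 0 := by
      rintro rfl
      rw [zero_mul] at hbc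
      exact hn0 hbc.symm
    have hc0 : c ≠ 0 := by
      rintro rfl
      rw [mul_zero] at hbc
      exact hn0 hbc.symm
    have hsq : Squarefree (b * c) := by rw [hbc]; exact hn
    have hcop : b.Coprime c := Nat.coprime_of_squarefree_mul hsq
    have hbsq : Squarefree b := hsq.squarefree_of_dvd (dvd_mul_right _ _)
    have hcsq : Squarefree c := hsq.squarefree_of_dvd (dvd_mul_left _ _)
    have hun : n.primeFactors = b.primeFactors ∪ c.primeFactors := by
      rw [← hbc, Nat.primeFactors_mul hb0 hc0]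
    have hdis : Disjoint b.primeFactors c.primeFactors := hcop.disjoint_primeFactors
    have hBn : b.primeFactors ⊆ n.primeFactors := by rw [hun]; exact subset_union_left
    have hCn : c.primeFactors ⊆ n.primeFactors := by rw [hun]; exact subset_union_right
    set x : n.primeFactors → ZMod 2 := fun p => if (p : ℕ) ∈ b.primeFactors then 0 else 1 with hx
    have hx0 : ∀ p : n.primeFactors, x p = 0 ↔ (p : ℕ) ∈ b.primeFactors := by
      intro p
      rw [hx]
      simp only
      split_ifs with h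
      · exact ⟨fun _ => h, fun _ => rfl⟩
      · exact ⟨fun h' => absurd h' one_ne_zero, fun h' => absurd h' h⟩
    have hx1 : ∀ p : n.primeFactors, x p = 1 ↔ (p : ℕ) ∈ c.primeFactors := by
      intro p
      have hp := (Finset.ext_iff.1 hun (p : ℕ)).1 p.2
      rw [mem_union] at hp
      rw [hx]
      simp only
      split_ifs with h
      · exact ⟨fun h' => absurd h'.symm one_ne_zero, fun h' =>
          absurd h' (Finset.disjoint_left.1 hdis h)⟩
      · exact ⟨fun _ => hp.resolve_left h, fun _ => rfl⟩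
    have hBx : Bx x = b.primeFactors := by
      ext p
      constructor
      · intro hp
        exact (hx0 ⟨p, hBs x hp⟩).1 ((mem_Bx x ⟨p, hBs x hp⟩).2 hp)
      · intro hp
        exact (mem_Bx x ⟨p, hBn hp⟩).1 ((hx0 ⟨p, hBn hp⟩).2 hp)
    have hCx : Cx x = c.primeFactors := by
      ext p
      constructor
      · intro hp
        exact (hx1 ⟨p, hCs x hp⟩).1 ((mem_Cx x ⟨p, hCs x hp⟩).2 hp)
      · intro hp
        exact (mem_Cx x ⟨p, hCn hp⟩).1 ((hx1 ⟨p, hCn hp⟩).2 hp)
    have pb : ∏ p ∈ b.primeFactors, p = b := Nat.prod_primeFactors_of_squarefree hbsq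
    have pc : ∏ p ∈ c.primeFactors, p = c := Nat.prod_primeFactors_of_squarefree hcsq
    refine ⟨⟨x, (sol_iff hodd x hBn hCn hdis hx0 hx1).2 ⟨?_, ?_⟩⟩, ?_⟩
    · intro q hq
      rw [pb]
      exact hc q hq
    · intro q hq
      rw [pc]
      exact hb q hq
    · apply Subtype.ext
      simp only
      rw [hBx, hCx, pb, pc]

theorem Gdk_iff_Nf (m : ℕ) {n : ℕ} (hn : Squarefree n) (h4 : n % 4 = 3) :
    Gdk m false 0 0 n.primeFactors ↔ Nf n = 2 ^ (m + 1) := by
  have hS : ∀ p ∈ n.primeFactors, Po p := by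
    intro p hp
    refine ⟨Nat.prime_of_mem_primeFactors hp, ?_⟩
    rintro rfl
    have := Nat.dvd_of_mem_primeFactors hp
    omega
  have hV : univ.image (fun p : n.primeFactors => (p : ℕ)) = Vt false n.primeFactors := by
    unfold Vt
    rw [if_neg (by decide)]
    ext p
    simp
  rw [Gdk_iff m false 0 0 Subtype.val_injective hV]
  unfold Gvk
  have e1 : (fun i j : n.primeFactors => sy 0 0 (i : ℕ) (j : ℕ)) =
      fun i j : n.primeFactors => nr (j : ℕ) (i : ℕ) := by
    funext i j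
    unfold sy
    rw [if_neg (hS j j.2).2]
  rw [e1]
  have hu : ∑ p ∈ n.primeFactors, uu p = 1 := by
    have h1 := sum_uu n.primeFactors hS
    rw [Nat.prod_primeFactors_of_squarefree hn, h4] at h1
    refine (z2 _).resolve_left fun h => ?_
    rw [if_pos h] at h1
    omega
  have e2 := card_transpose (fun p q : n.primeFactors => nr (p : ℕ) (q : ℕ))
    (row_eq _ (fun p : n.primeFactors => uu (p : ℕ))
      (by rw [sum_coe_sort n.primeFactors fun p => uu p, hu])
      fun i j hij => nr_recip (hS _ i.2) (hS _ j.2) fun h' => hij (Subtype.ext h').symm)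
  have e3 := card_sol hn fun p hp => hS p hp
  rw [← e2, e3]

/-- **The law of the numbers of solvable factorizations.** `P` depends on `n` modulo `M`, `8 ∣ M`,
implies `n = 3` modulo `4` and holds for a number prime to `M`. -/
theorem dens_Nf (M : ℕ) (hM : 8 ∣ M) (hM0 : 0 < M) (P : ℕ → Prop) (hP : ∀ n, P n ↔ P (n % M))
    (h4 : ∀ n, P n → n % 4 = 3) (b : ℕ) (hb : P b) (hc : b.Coprime M) (k : ℕ) :
    Tendsto (fun X : ℕ => (((Icc 1 X).filter fun n => Squarefree n ∧ P n ∧
      Nf n = 2 ^ (k + 1)).card : ℝ) /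
      (((Icc 1 X).filter fun n => Squarefree n ∧ P n).card : ℝ)) atTop (nhds (gk k)) := by
  set K : Finset ℕ := (range M).filter P with hK
  have hm : ∀ n : ℕ, n % M ∈ K ↔ P n := by
    intro n
    rw [hK, mem_filter, mem_range, hP n]
    exact ⟨fun h => h.2, fun h => ⟨Nat.mod_lt _ hM0, h⟩⟩
  have hok : OkM M false 0 0 K := by
    refine ⟨fun _ => rfl, fun h => absurd h (by decide), fun a ha => ?_⟩
    rw [hK, mem_filter, mem_range] at ha
    rw [if_pos rfl]
    exact ⟨ha.1, h4 a ha.2⟩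
  have hbc : (b % M).Coprime M := by
    rw [Nat.Coprime, ← Nat.gcd_rec, Nat.gcd_comm]
    exact hc
  have h := densk k M hM hM0 false 0 0 K hok (b % M) ((hm b).2 hb) hbc
  refine h.congr fun X => ?_
  congr 3
  · refine filter_congr fun n _ => ?_
    rw [hm]
    constructor
    · rintro ⟨h1, h2, h3⟩
      exact ⟨h1, h2, (Gdk_iff_Nf k h1 (h4 n h2)).1 h3⟩
    · rintro ⟨h1, h2, h3⟩
      exact ⟨h1, h2, (Gdk_iff_Nf k h1 (h4 n h2)).2 h3⟩
  · refine filter_congr fun n _ => ?_
    rw [hm]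

/-- the proportions sum to one -/
theorem gk_hasSum : HasSum gk 1 := Run7.h843.L.gk_hasSum

end Pool.Agent.Run7.h843.G
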