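import Mathlib
import Pool.Agent.Run7.h741.NT.LA

/-!
# The probability that a random completion has corank `r`
-/

set_option autoImplicit false
set_option linter.all false

open scoped Classical

namespace Run7.h843.L

open Finset Filter
open Pool.Agent.N916.GB (eta ps sx pt mm mm_pos mm_one_le In bon_even bon_odd gt gt_summable Gs
  Gs_prod Gs_one eta_tendsto)
open Pool.Agent.Run7.h741.NT (Sp cu Sol Ef Kr mem_Kr T_bound)

/-! ### The constants -/

/-- the constant -/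
noncomputable def gk (r : ℕ) : ℝ := Gs ((1 / 2) ^ r) / In r r

/-- the finite product -/
noncomputable def Qn (n : ℕ) : ℝ := ∏ i ∈ range n, (1 - (1 / 2 : ℝ) ^ (i + 1))

theorem Qn_pos (n : ℕ) : 0 < Qn n := prod_pos fun i _ => by
  have : (1 / 2 : ℝ) ^ (i + 1) < 1 := pow_lt_one₀ (by norm_num) (by norm_num) (by omega)
  linarith

theorem Qn_anti : Antitone Qn := antitone_nat_of_succ_le fun n => by
  unfold Qn
  rw [prod_range_succ]
  have h1 : 0 ≤ ∏ i ∈ range n, (1 - (1 / 2 : ℝ) ^ (i + 1)) := (Qn_pos n).le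
  have h2 : (0 : ℝ) ≤ (1 / 2 : ℝ) ^ (n + 1) := by positivity
  nlinarith

theorem eta_le (n : ℕ) : eta ≤ Qn n := Qn_anti.le_of_tendsto eta_tendsto n

theorem Gs_le (r : ℕ) : Gs ((1 / 2) ^ r) ≤ 1 := by
  have h := Gs_prod r
  rw [Gs_one] at h
  have h1 := Qn_pos r
  have h2 := eta_le r
  have h3 : eta = Qn r * Gs ((1 / 2) ^ r) := h
  by_contra hc
  push Not at hc
  nlinarith

theorem In_rr (r : ℕ) : In r r = 2 ^ (r ^ 2) * Qn r := by
  unfold In Qn
  rw [← prod_range_reflect (fun i => 1 - (1 / 2 : ℝ) ^ (i + 1)) r]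
  have e : (2 : ℝ) ^ (r ^ 2) = ∏ i ∈ range r, (2 : ℝ) ^ r := by
    rw [prod_const, card_range, ← pow_mul, sq]
  rw [e, ← prod_mul_distrib]
  refine prod_congr rfl fun i hi => ?_
  rw [mem_range] at hi
  have e1 : r - 1 - i + 1 = r - i := by omega
  rw [e1, mul_sub, mul_one]
  congr 1
  have e2 : (2 : ℝ) ^ r = 2 ^ i * 2 ^ (r - i) := by rw [← pow_add]; congr 1; omega
  rw [e2, one_div, inv_pow]
  field_simp

theorem In_rr_pos (r : ℕ) : 0 < In r r := by
  rw [In_rr]
  have := Qn_pos r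
  positivity

theorem gk_eq (r : ℕ) : gk r = eta / (2 ^ (r ^ 2) * Qn r ^ 2) := by
  have h := Gs_prod r
  rw [Gs_one] at h
  have h3 : eta = Qn r * Gs ((1 / 2) ^ r) := h
  have h1 := Qn_pos r
  unfold gk
  rw [In_rr, h3]
  field_simp

theorem eta_nonneg : 0 ≤ eta := by
  have h : Tendsto Qn atTop (nhds eta) := eta_tendsto
  exact ge_of_tendsto' h fun n => (Qn_pos n).le

theorem gk_mem (r : ℕ) : 0 ≤ gk r ∧ gk r ≤ 1 := by
  constructor
  · rw [gk_eq]
    have := eta_nonneg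
    have := Qn_pos r
    positivity
  · unfold gk
    rw [div_le_one (In_rr_pos r)]
    refine (Gs_le r).trans ?_
    unfold In
    rw [← prod_const_one (s := range r)]
    refine prod_le_prod (fun _ _ => zero_le_one) fun i hi => ?_
    rw [mem_range] at hi
    have h1 : (2 : ℝ) ^ (i + 1) ≤ 2 ^ r := pow_le_pow_right₀ (by norm_num) (by omega)
    have h2 : (1 : ℝ) ≤ 2 ^ i := one_le_pow₀ (by norm_num)
    rw [pow_succ] at h1
    linarith

/-! ### Bonferroni -/

theorem In_nonneg (r d : ℕ) : 0 ≤ In r d := by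
  unfold In
  rcases le_or_gt r d with h | h
  · refine prod_nonneg fun i hi => ?_
    rw [mem_range] at hi
    have : (2 : ℝ) ^ i ≤ 2 ^ d := pow_le_pow_right₀ (by norm_num) (by omega)
    linarith
  · refine le_of_eq (Eq.symm (prod_eq_zero (mem_range.2 h) (sub_self _)))

theorem In_zero {r d : ℕ} (h : d < r) : In r d = 0 := by
  unfold In
  exact prod_eq_zero (mem_range.2 h) (sub_self _)

theorem In_add (r k d : ℕ) : In r d * In k (d - r) = In (r + k) d / 2 ^ (r * k) := by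
  rcases le_or_gt r d with h | h
  · have e : In (r + k) d = In r d * (2 ^ (r * k) * In k (d - r)) := by
      unfold In
      rw [prod_range_add]
      congr 1
      have e1 : (2 : ℝ) ^ (r * k) = ∏ i ∈ range k, (2 : ℝ) ^ r := by
        rw [prod_const, card_range, ← pow_mul]
      rw [e1, ← prod_mul_distrib]
      refine prod_congr rfl fun i _ => ?_
      have e2 : (2 : ℝ) ^ d = 2 ^ r * 2 ^ (d - r) := by rw [← pow_add]; congr 1; omega
      rw [e2, pow_add]
      ring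
    rw [e]
    field_simp
  · rw [In_zero h, zero_mul, In_zero (show d < r + k by omega), zero_div]

theorem ind_mul (r d : ℕ) : In r r * (if d = r then (1 : ℝ) else 0) =
    In r d * (if d - r = 0 then (1 : ℝ) else 0) := by
  rcases lt_trichotomy d r with h | h | h
  · rw [if_neg h.ne, In_zero h, mul_zero, zero_mul]
  · rw [if_pos h, h, Nat.sub_self, if_pos rfl]
  · rw [if_neg h.ne', if_neg (by omega), mul_zero, mul_zero]

theorem bonr_even {K : ℕ} (hK : Even K) (r d : ℕ) :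
    In r r * (if d = r then (1 : ℝ) else 0) ≤
      ∑ k ∈ range (K + 1), (-1) ^ k * (In (r + k) d / 2 ^ (r * k)) / mm k := by
  rw [ind_mul]
  refine (mul_le_mul_of_nonneg_left (bon_even hK (d - r)) (In_nonneg r d)).trans (le_of_eq ?_)
  rw [mul_sum]
  refine sum_congr rfl fun k _ => ?_
  rw [← In_add]
  ring

theorem bonr_odd {K : ℕ} (hK : Odd K) (r d : ℕ) :
    ∑ k ∈ range (K + 1), (-1) ^ k * (In (r + k) d / 2 ^ (r * k)) / mm k ≤
      In r r * (if d = r then (1 : ℝ) else 0) := by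
  rw [ind_mul]
  refine le_trans (le_of_eq ?_) (mul_le_mul_of_nonneg_left (bon_odd hK (d - r)) (In_nonneg r d))
  rw [mul_sum]
  refine sum_congr rfl fun k _ => ?_
  rw [← In_add]
  ring

theorem gk_sum (r : ℕ) : Tendsto (fun K : ℕ => ∑ k ∈ range K, (-1 : ℝ) ^ k / 2 ^ (r * k) / mm k)
    atTop (nhds (gk r * In r r)) := by
  have hx : |(1 / 2 : ℝ) ^ r| ≤ 1 := by
    rw [abs_of_nonneg (by positivity)]
    exact pow_le_one₀ (by norm_num) (by norm_num)
  have h := (gt_summable hx).hasSum.tendsto_sum_nat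
  have e : gk r * In r r = ∑' i, gt ((1 / 2) ^ r) i := by
    unfold gk
    rw [div_mul_cancel₀ _ (In_rr_pos r).ne']
    rfl
  rw [e]
  refine h.congr fun n => sum_congr rfl fun i _ => ?_
  unfold gt
  rw [← pow_mul, one_div, inv_pow]
  ring

/-! ### The random completion -/

/-- corank `r` -/
def Gw (r : ℕ) {V : Type} [Fintype V] (a f : V → ZMod 2) (M : V → V → ZMod 2) : Prop :=
  Nat.card {x : V → ZMod 2 // (∀ q, a q = 0 → x q = 0) ∧ ∀ q, a q = 1 → Ef f M x q = 0} = 2 ^ r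

theorem Gw_iff {U J : Type} [Fintype U] [Fintype J] (r : ℕ) (a f : U ⊕ J → ZMod 2)
    (M : U ⊕ J → U ⊕ J → ZMod 2) :
    Gw r a f M ↔ Module.finrank (ZMod 2) (Kr a f M) = r := by
  have h1 : Nat.card (Kr a f M) = 2 ^ Module.finrank (ZMod 2) (Kr a f M) := by
    have := Fact.mk Nat.prime_two
    rw [Module.natCard_eq_pow_finrank (K := ZMod 2), Nat.card_zmod]
  have h2 : Nat.card {x : U ⊕ J → ZMod 2 // (∀ q, a q = 0 → x q = 0) ∧
      ∀ q, a q = 1 → Ef f M x q = 0} = Nat.card (Kr a f M) := rfl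
  unfold Gw
  rw [h2, h1]
  exact ⟨fun h => Nat.pow_right_injective le_rfl h, fun h => by rw [h]⟩

/-- the probability that a random completion has corank `r` -/
def S_LA (r : ℕ) : Prop := ∀ ε : ℝ, 0 < ε → ∃ V₀ : ℕ, ∀ (U J : Type) [Fintype U] [Fintype J]
  [LinearOrder J] (a u f : U ⊕ J → ZMod 2) (N : U ⊕ J → U ⊕ J → ZMod 2),
  (∀ i j, i ≠ j → N i j + N j i = u i * u j) →
  (∃ k : J, a (Sum.inr k) = 0) →
  (∀ b : U → ZMod 2, (∃ v, b v ≠ 0) →
    ∃ k, a (Sum.inr k) = 1 ∧ u (Sum.inr k) = 0 ∧ ∑ v, b v * N (Sum.inr k) (Sum.inl v) ≠ 0) →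
  2 * Fintype.card U + V₀ ≤
    (univ.filter fun k : J => a (Sum.inr k) = 1 ∧ u (Sum.inr k) = 1).card →
  |((univ.filter fun σ : ps J → ZMod 2 => Gw r a f (pt N (sx σ))).card : ℝ) / 2 ^ (ps J).card -
    gk r| ≤ ε

theorem t_LA (r : ℕ) : S_LA r := by
  intro ε₀ hε₀
  have hIr := In_rr_pos r
  set ε : ℝ := ε₀ * In r r with hεd
  have hε : 0 < ε := mul_pos hε₀ hIr
  -- the truncation
  have hlim := gk_sum r
  rw [Metric.tendsto_atTop] at hlim
  obtain ⟨K0, hK0⟩ := hlim (ε / 2) (by linarith)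
  set K : ℕ := 2 * K0 with hK
  set M : ℝ := ∑ k ∈ range (K + 2), (2 : ℝ) ^ ((r + k) ^ 2 + (r + k) + 4) with hM
  have hM0 : 0 ≤ M := sum_nonneg fun k _ => by positivity
  obtain ⟨V1, hV1⟩ := pow_unbounded_of_one_lt (M / (ε / 2)) (by norm_num : (1 : ℝ) < 2)
  refine ⟨V1, ?_⟩
  intro U J _ _ _ a u f N h3 h4 h5 hV
  obtain ⟨k0, hk0⟩ := h4
  set P : ℝ := ((univ.filter fun σ : ps J → ZMod 2 => Gw r a f (pt N (sx σ))).card : ℝ) /
    2 ^ (ps J).card with hP
  have hp : (0 : ℝ) < 2 ^ (ps J).card := by positivity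
  set T : ℕ → ℝ := fun k => (∑ σ : ps J → ZMod 2,
    In k (Module.finrank (ZMod 2) (Kr a f (pt N (sx σ))))) / 2 ^ (ps J).card with hT
  have hTb : ∀ k, |T k - 1| ≤ 2 ^ (k ^ 2 + k + 4) / 2 ^ V1 := by
    intro k
    rw [le_div_iff₀ (by positivity)]
    exact T_bound h3 h5 hk0 k V1 hV
  have hPs : In r r * ((univ.filter fun σ : ps J → ZMod 2 => Gw r a f (pt N (sx σ))).card : ℝ) =
      ∑ σ : ps J → ZMod 2, In r r *
        (if Module.finrank (ZMod 2) (Kr a f (pt N (sx σ))) = r then (1 : ℝ) else 0) := by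
    rw [card_filter, Nat.cast_sum, mul_sum]
    refine sum_congr rfl fun σ _ => ?_
    congr 1
    by_cases h : Gw r a f (pt N (sx σ))
    · rw [if_pos h, if_pos ((Gw_iff _ _ _ _).1 h), Nat.cast_one]
    · rw [if_neg h, if_neg fun h' => h ((Gw_iff _ _ _ _).2 h'), Nat.cast_zero]
  have hsw : ∀ n : ℕ, ∑ k ∈ range n, (-1) ^ k * (T (r + k) / 2 ^ (r * k)) / mm k =
      (∑ σ : ps J → ZMod 2, ∑ k ∈ range n,
        (-1) ^ k * (In (r + k) (Module.finrank (ZMod 2) (Kr a f (pt N (sx σ)))) / 2 ^ (r * k)) /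
          mm k) / 2 ^ (ps J).card := by
    intro n
    rw [sum_comm, sum_div]
    refine sum_congr rfl fun k _ => ?_
    rw [hT]
    simp only
    rw [← sum_div, ← mul_sum, ← sum_div]
    ring
  have hPe : In r r * P = (∑ σ : ps J → ZMod 2, In r r *
      (if Module.finrank (ZMod 2) (Kr a f (pt N (sx σ))) = r then (1 : ℝ) else 0)) /
        2 ^ (ps J).card := by
    rw [← hPs, hP]
    ring
  have hup : In r r * P ≤ ∑ k ∈ range (K + 1), (-1) ^ k * (T (r + k) / 2 ^ (r * k)) / mm k := by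
    rw [hsw, hPe]
    refine div_le_div_of_nonneg_right (sum_le_sum fun σ _ => ?_) hp.le
    exact bonr_even ⟨K0, by omega⟩ r _
  have hlo : ∑ k ∈ range (K + 2), (-1) ^ k * (T (r + k) / 2 ^ (r * k)) / mm k ≤ In r r * P := by
    rw [hsw, hPe]
    refine div_le_div_of_nonneg_right (sum_le_sum fun σ _ => ?_) hp.le
    exact bonr_odd (K := K + 1) ⟨K0, by omega⟩ r _
  have herr : ∀ n : ℕ, n ≤ K + 2 → |∑ k ∈ range n, (-1) ^ k * (T (r + k) / 2 ^ (r * k)) / mm k -
      ∑ k ∈ range n, (-1 : ℝ) ^ k / 2 ^ (r * k) / mm k| ≤ ε / 2 := by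
    intro n hn
    rw [← sum_sub_distrib]
    refine (abs_sum_le_sum_abs _ _).trans ?_
    have h1 : ∀ k ∈ range n, |(-1) ^ k * (T (r + k) / 2 ^ (r * k)) / mm k -
        (-1 : ℝ) ^ k / 2 ^ (r * k) / mm k| ≤ 2 ^ ((r + k) ^ 2 + (r + k) + 4) / 2 ^ V1 := by
      intro k _
      have h2 : (-1) ^ k * (T (r + k) / 2 ^ (r * k)) / mm k - (-1 : ℝ) ^ k / 2 ^ (r * k) / mm k =
          (-1) ^ k * ((T (r + k) - 1) / 2 ^ (r * k) / mm k) := by
        ring
      rw [h2, abs_mul, abs_pow, abs_neg, abs_one, one_pow, one_mul, abs_div, abs_of_pos (mm_pos k),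
        abs_div, abs_of_pos (by positivity : (0 : ℝ) < 2 ^ (r * k))]
      refine (div_le_self (by positivity) (mm_one_le k)).trans ?_
      refine (div_le_self (abs_nonneg _) (one_le_pow₀ (by norm_num))).trans (hTb (r + k))
    refine (sum_le_sum h1).trans ?_
    rw [← sum_div]
    have h2 : ∑ k ∈ range n, (2 : ℝ) ^ ((r + k) ^ 2 + (r + k) + 4) ≤ M := by
      rw [hM]
      refine sum_le_sum_of_subset_of_nonneg (fun k hk => ?_) fun k _ _ => by positivity
      rw [mem_range] at hk ⊢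
      omega
    rw [div_le_iff₀ (by positivity)]
    refine h2.trans ?_
    rw [div_lt_iff₀ (by linarith)] at hV1
    linarith
  have h6 := hK0 (K + 1) (by omega)
  have h7 := hK0 (K + 2) (by omega)
  rw [Real.dist_eq] at h6 h7
  have h8 := herr (K + 1) (by omega)
  have h9 := herr (K + 2) le_rfl
  have h10 : |In r r * P - gk r * In r r| ≤ ε := by
    rw [abs_le] at h8 h9 ⊢
    rw [abs_lt] at h6 h7
    constructor
    · linarith [h9.1, h7.1]
    · linarith [h8.2, h6.2]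
  have h11 : In r r * P - gk r * In r r = In r r * (P - gk r) := by ring
  rw [h11, abs_mul, abs_of_pos hIr, hεd, mul_comm] at h10
  exact le_of_mul_le_mul_right h10 hIr

end Run7.h843.L
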