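import Mathlib
import Pool.Agent.N916.GB.LA
import Pool.Agent.Run7.h843.L1

/-!
# The probability that a random completion has `2 ^ (k + 1)` solutions (after `N916/GB/LA.lean` by
helper916, where `k = 0`)
-/

set_option autoImplicit false
set_option linter.all false

open scoped Classical

namespace Pool.Agent.Run7.h843.G

open Finset Filter
open Pool.Agent.N916.GB (eta ps sx pt mm mm_pos mm_one_le In Ev Ev_add Ev_const Kr mem_Kr T_bound
  z2_eq_of_add z2_add_self)
open Run7.h843.L (gk In_rr_pos gk_sum bonr_even bonr_odd)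

/-- the system has `2 ^ (k + 1)` solutions -/
def Gvk (k : ℕ) {V : Type} [Fintype V] (M : V → V → ZMod 2) : Prop :=
  Nat.card {x : V → ZMod 2 // ∀ q, Ev M x q = 0} = 2 ^ (k + 1)

theorem Gvk_iff {U J : Type} [Fintype U] [Fintype J] [LinearOrder J] (k : ℕ)
    (M : U ⊕ J → U ⊕ J → ZMod 2) (k0 : J) :
    Gvk k M ↔ Module.finrank (ZMod 2) (Kr M k0) = k := by
  have h1 : Nat.card (Kr M k0) = 2 ^ Module.finrank (ZMod 2) (Kr M k0) := by
    have := Fact.mk Nat.prime_two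
    rw [Module.natCard_eq_pow_finrank (K := ZMod 2), Nat.card_zmod]
  have h2 : Nat.card {x : U ⊕ J → ZMod 2 // ∀ q, Ev M x q = 0} =
      Nat.card (ZMod 2 × Kr M k0) := by
    refine Nat.card_congr ⟨fun x => (x.1 (Sum.inr k0),
      ⟨x.1 + fun _ => x.1 (Sum.inr k0), ?_⟩), fun y => ⟨y.2.1 + fun _ => y.1, ?_⟩, ?_, ?_⟩
    · rw [mem_Kr]
      refine ⟨?_, fun q => ?_⟩
      · rw [Pi.add_apply, z2_add_self]
      · rw [Ev_add, Ev_const, add_zero]
        exact x.2 q
    · intro q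
      rw [Ev_add, Ev_const, add_zero]
      exact (mem_Kr.1 y.2.2).2 q
    · intro x
      apply Subtype.ext
      funext q
      show x.1 q + x.1 (Sum.inr k0) + x.1 (Sum.inr k0) = x.1 q
      rw [add_assoc, z2_add_self, add_zero]
    · rintro ⟨c, y, hy⟩
      have h0 : y (Sum.inr k0) = 0 := (mem_Kr.1 hy).1
      refine Prod.ext ?_ (Subtype.ext ?_)
      · show y (Sum.inr k0) + c = c
        rw [h0, zero_add]
      · funext q
        show y q + c + (y (Sum.inr k0) + c) = y q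
        rw [h0, zero_add, add_assoc, z2_add_self, add_zero]
  unfold Gvk
  rw [h2, Nat.card_prod, Nat.card_zmod, h1, pow_succ, mul_comm]
  constructor
  · intro h
    exact Nat.pow_right_injective le_rfl (Nat.eq_of_mul_eq_mul_right (by norm_num) h)
  · intro h
    rw [h]

/-- the probability that a random completion has `2 ^ (k + 1)` solutions -/
def S_LAk (k : ℕ) : Prop := ∀ ε : ℝ, 0 < ε → ∃ V₀ : ℕ, ∀ (U J : Type) [Fintype U] [Fintype J]
  [LinearOrder J] (w u : U ⊕ J → ZMod 2) (N : U ⊕ J → U ⊕ J → ZMod 2),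
  (∀ k, w (Sum.inr k) = 1) → ∑ i, u i = 1 →
  (∀ i j, i ≠ j → w i * N i j + w j * N j i = u i * u j) →
  (∀ v, w (Sum.inl v) = 0 → u (Sum.inl v) = 1 ∧ ∀ v', w (Sum.inl v') = 0 → v = v') →
  (∀ (b : U → ZMod 2) (s : ZMod 2), ((∃ v, b v ≠ 0) ∨ s ≠ 0) →
    ∃ k, ∑ v, b v * N (Sum.inl v) (Sum.inr k) + s * u (Sum.inr k) ≠ 0) →
  2 * Fintype.card U + V₀ ≤ (univ.filter fun k : J => u (Sum.inr k) = 1).card →
  |((univ.filter fun σ : ps J → ZMod 2 => Gvk k (pt N (sx σ))).card : ℝ) / 2 ^ (ps J).card -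
    gk k| ≤ ε

theorem t_LAk (r : ℕ) : S_LAk r := by
  intro ε₀ hε₀
  have hIr := In_rr_pos r
  set ε : ℝ := ε₀ * In r r with hεd
  have hε : 0 < ε := mul_pos hε₀ hIr
  -- the truncation
  have hlim := gk_sum r
  rw [Metric.tendsto_atTop] at hlim
  obtain ⟨K0, hK0⟩ := hlim (ε / 2) (by linarith)
  set K : ℕ := 2 * K0 with hK
  set M : ℝ := ∑ k ∈ range (K + 2), (2 : ℝ) ^ ((r + k) ^ 2 + (r + k) + 4) with hM
  have hM0 : 0 ≤ M := sum_nonneg fun k _ => by positivity
  obtain ⟨V1, hV1⟩ := pow_unbounded_of_one_lt (M / (ε / 2)) (by norm_num : (1 : ℝ) < 2)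
  refine ⟨V1 + 1, ?_⟩
  intro U J _ _ _ w u N hw hu h3 h4 h5 hV
  have hne : (univ.filter fun k : J => u (Sum.inr k) = 1).Nonempty := by
    rw [← card_pos]
    omega
  obtain ⟨k0, -⟩ := hne
  set P : ℝ := ((univ.filter fun σ : ps J → ZMod 2 => Gvk r (pt N (sx σ))).card : ℝ) /
    2 ^ (ps J).card with hP
  have hp : (0 : ℝ) < 2 ^ (ps J).card := by positivity
  set T : ℕ → ℝ := fun k => (∑ σ : ps J → ZMod 2,
    In k (Module.finrank (ZMod 2) (Kr (pt N (sx σ)) k0))) / 2 ^ (ps J).card with hT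
  have hTb : ∀ k, |T k - 1| ≤ 2 ^ (k ^ 2 + k + 4) / 2 ^ V1 := by
    intro k
    rw [le_div_iff₀ (by positivity)]
    exact T_bound hw hu h3 h4 h5 k0 k V1 (by omega)
  have hPs : In r r * ((univ.filter fun σ : ps J → ZMod 2 => Gvk r (pt N (sx σ))).card : ℝ) =
      ∑ σ : ps J → ZMod 2, In r r *
        (if Module.finrank (ZMod 2) (Kr (pt N (sx σ)) k0) = r then (1 : ℝ) else 0) := by
    rw [card_filter, Nat.cast_sum, mul_sum]
    refine sum_congr rfl fun σ _ => ?_
    congr 1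
    by_cases h : Gvk r (pt N (sx σ))
    · rw [if_pos h, if_pos ((Gvk_iff _ _ _).1 h), Nat.cast_one]
    · rw [if_neg h, if_neg fun h' => h ((Gvk_iff _ _ _).2 h'), Nat.cast_zero]
  have hsw : ∀ n : ℕ, ∑ k ∈ range n, (-1) ^ k * (T (r + k) / 2 ^ (r * k)) / mm k =
      (∑ σ : ps J → ZMod 2, ∑ k ∈ range n,
        (-1) ^ k * (In (r + k) (Module.finrank (ZMod 2) (Kr (pt N (sx σ)) k0)) / 2 ^ (r * k)) /
          mm k) / 2 ^ (ps J).card := by
    intro n
    rw [sum_comm, sum_div]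
    refine sum_congr rfl fun k _ => ?_
    rw [hT]
    simp only
    rw [← sum_div, ← mul_sum, ← sum_div]
    ring
  have hPe : In r r * P = (∑ σ : ps J → ZMod 2, In r r *
      (if Module.finrank (ZMod 2) (Kr (pt N (sx σ)) k0) = r then (1 : ℝ) else 0)) /
        2 ^ (ps J).card := by
    rw [← hPs, hP]
    ring
  have hup : In r r * P ≤ ∑ k ∈ range (K + 1), (-1) ^ k * (T (r + k) / 2 ^ (r * k)) / mm k := by
    rw [hsw, hPe]
    refine div_le_div_of_nonneg_right (sum_le_sum fun σ _ => ?_) hp.le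
    exact bonr_even ⟨K0, by omega⟩ r _
  have hlo : ∑ k ∈ range (K + 2), (-1) ^ k * (T (r + k) / 2 ^ (r * k)) / mm k ≤ In r r * P := by
    rw [hsw, hPe]
    refine div_le_div_of_nonneg_right (sum_le_sum fun σ _ => ?_) hp.le
    exact bonr_odd (K := K + 1) ⟨K0, by omega⟩ r _
  have herr : ∀ n : ℕ, n ≤ K + 2 → |∑ k ∈ range n, (-1) ^ k * (T (r + k) / 2 ^ (r * k)) / mm k -
      ∑ k ∈ range n, (-1 : ℝ) ^ k / 2 ^ (r * k) / mm k| ≤ ε / 2 := by
    intro n hn
    rw [← sum_sub_distrib]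
    refine (abs_sum_le_sum_abs _ _).trans ?_
    have h1 : ∀ k ∈ range n, |(-1) ^ k * (T (r + k) / 2 ^ (r * k)) / mm k -
        (-1 : ℝ) ^ k / 2 ^ (r * k) / mm k| ≤ 2 ^ ((r + k) ^ 2 + (r + k) + 4) / 2 ^ V1 := by
      intro k _
      have h2 : (-1) ^ k * (T (r + k) / 2 ^ (r * k)) / mm k - (-1 : ℝ) ^ k / 2 ^ (r * k) / mm k =
          (-1) ^ k * ((T (r + k) - 1) / 2 ^ (r * k) / mm k) := by
        ring
      rw [h2, abs_mul, abs_pow, abs_neg, abs_one, one_pow, one_mul, abs_div, abs_of_pos (mm_pos k),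
        abs_div, abs_of_pos (by positivity : (0 : ℝ) < 2 ^ (r * k))]
      refine (div_le_self (by positivity) (mm_one_le k)).trans ?_
      refine (div_le_self (abs_nonneg _) (one_le_pow₀ (by norm_num))).trans (hTb (r + k))
    refine (sum_le_sum h1).trans ?_
    rw [← sum_div]
    have h2 : ∑ k ∈ range n, (2 : ℝ) ^ ((r + k) ^ 2 + (r + k) + 4) ≤ M := by
      rw [hM]
      refine sum_le_sum_of_subset_of_nonneg (fun k hk => ?_) fun k _ _ => by positivity
      rw [mem_range] at hk ⊢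
      omega
    rw [div_le_iff₀ (by positivity)]
    refine h2.trans ?_
    rw [div_lt_iff₀ (by linarith)] at hV1
    linarith
  have h6 := hK0 (K + 1) (by omega)
  have h7 := hK0 (K + 2) (by omega)
  rw [Real.dist_eq] at h6 h7
  have h8 := herr (K + 1) (by omega)
  have h9 := herr (K + 2) le_rfl
  have h10 : |In r r * P - gk r * In r r| ≤ ε := by
    rw [abs_le] at h8 h9 ⊢
    rw [abs_lt] at h6 h7
    constructor
    · linarith [h9.1, h7.1]
    · linarith [h8.2, h6.2]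
  have h11 : In r r * P - gk r * In r r = In r r * (P - gk r) := by ring
  rw [h11, abs_mul, abs_of_pos hIr, hεd, mul_comm] at h10
  exact le_of_mul_le_mul_right h10 hIr

end Pool.Agent.Run7.h843.G
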