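import Pool.Agent.N958.GB.BOX
import Pool.Agent.Run7.h843.G4

/-!
# The count in a box for `2 ^ (m + 1)` solutions (after `N958/GB/BOX.lean` by helper958, where
`m = 0`)
-/

set_option autoImplicit false
set_option linter.all false

open scoped Classical

namespace Pool.Agent.Run7.h843.G

open Finset
open Pool.Agent.Y703.CQ (nr sg)
open Pool.Agent.N973.ND (uu nr_rec nr_self)
open Pool.Agent.N916.GB (Po eta ps sx pt HB S_EQ Nd Vt sy Ev)
open Pool.Agent.N958.GB (Lb lb LN uu_eq mem_Vt Vt_sub nd_iff rr rr_inj rr_im NR sgm sx_self sx_sgm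
  sy_ne sy_two two_tuples HB_sub ud wd sum_uu z2 rec_NR)
open Run7.h843.L (gk)

/-- the sets whose system has `2 ^ (m + 1)` solutions -/
def Gdk (m : ℕ) (t : Bool) (r s : ZMod 2) (S : Finset ℕ) : Prop :=
  Nat.card {x : ℕ → ZMod 2 // (∀ q, q ∉ Vt t S → x q = 0) ∧
    ∀ q ∈ Vt t S, ∑ p ∈ Vt t S, (x p + x q) * sy r s q p = 0} = 2 ^ (m + 1)

/-- the sets from a parametrization -/
theorem Gdk_iff (m : ℕ) {V : Type} [Fintype V] (t : Bool) (r s : ZMod 2) {ρ : V → ℕ}
    (hρ : Function.Injective ρ) {S : Finset ℕ} (hS : univ.image ρ = Vt t S) :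
    Gdk m t r s S ↔ Gvk m fun i j => sy r s (ρ i) (ρ j) := by
  have h1 : ∀ i, ρ i ∈ Vt t S := fun i => by
    rw [← hS]
    exact mem_image_of_mem _ (mem_univ _)
  have h2 : ∀ x ∈ Vt t S, ∃ i, ρ i = x := by
    intro x hx
    rw [← hS, mem_image] at hx
    obtain ⟨i, -, hi⟩ := hx
    exact ⟨i, hi⟩
  have h3 : ∀ f : ℕ → ZMod 2, ∑ p ∈ Vt t S, f p = ∑ i, f (ρ i) := by
    intro f
    rw [← hS, sum_image fun i _ j _ h => hρ h]
  unfold Gdk Gvk
  refine Eq.congr_left (Nat.card_congr ⟨fun x => ⟨fun i => x.1 (ρ i), ?_⟩,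
    fun y => ⟨Function.extend ρ y.1 0, ?_, ?_⟩, ?_, ?_⟩)
  · intro i
    have h4 := x.2.2 (ρ i) (h1 i)
    rw [h3] at h4
    exact h4
  · intro q hq
    rw [Function.extend_apply' _ _ _ fun ⟨i, hi⟩ => hq (hi ▸ h1 i)]
    rfl
  · intro q hq
    obtain ⟨j, rfl⟩ := h2 q hq
    rw [h3]
    simp only [hρ.extend_apply y.1 0]
    exact y.2 j
  · intro x
    apply Subtype.ext
    funext q
    show Function.extend ρ (fun i => x.1 (ρ i)) 0 q = x.1 q
    by_cases hqS : q ∈ Vt t S
    · obtain ⟨i, rfl⟩ := h2 q hqS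
      rw [hρ.extend_apply]
    · rw [Function.extend_apply' _ _ _ fun ⟨i, hi⟩ => hqS (hi ▸ h1 i), x.2.1 q hqS]
      rfl
  · intro y
    apply Subtype.ext
    funext i
    exact hρ.extend_apply y.1 0 i

/-- the count in a box; the class modulo `4` of the primes is `τ`. -/
def S_BOXk (m : ℕ) : Prop := S_EQ → S_LAk m → ∀ ε : ℝ, 0 < ε → ∃ V₀ : ℕ, ∀ (t : Bool) (r s : ZMod 2)
  (ι : Type) [Fintype ι] [LinearOrder ι] (τ : ι → ℕ) (C : ι → Finset ℕ) (X : ι → ℕ) (κ : ℝ)
  (S₀ : Finset ℕ),
  (t = false → s = 0) → (t = true → r ≠ 0 ∨ s ≠ 0) → 0 ≤ κ → (∀ i, (C i).card ≤ X i) → HB C X κ →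
  (∀ v ∈ S₀, Po v) → (∀ i, ∀ p ∈ C i, Po p ∧ p ∉ S₀ ∧ p % 4 = τ i) →
  (∀ i l, i ≠ l → Disjoint (C i) (C l)) →
  ((S₀.filter fun p => p % 4 = 3).card + (univ.filter fun i => τ i = 3).card +
    (if s = 0 then 0 else 1)) % 2 = 1 →
  2 * S₀.card + V₀ ≤ (univ.filter fun i => τ i = 3).card →
  |(((Fintype.piFinset C).filter fun p => Nd S₀ (univ.image p) ∧
        Gdk m t r s (S₀ ∪ univ.image p)).card : ℝ) -
      gk m * (((Fintype.piFinset C).filter fun p => Nd S₀ (univ.image p)).card : ℝ)| ≤
    ε * (((Fintype.piFinset C).filter fun p => Nd S₀ (univ.image p)).card : ℝ) +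
    2 ^ ((2 * S₀.card + 1) * Fintype.card ι + (ps ι).card) * (κ * ∏ j, (X j : ℝ))

/-- **The count in a box.** -/
theorem t_BOXk (m : ℕ) : S_BOXk m := by
  intro hEQ hLA ε hε
  obtain ⟨V₀, hV₀⟩ := hLA ε hε
  refine ⟨V₀ + 2, ?_⟩
  intro t r s ι _ _ τ C X κ S₀ hts htr hκ hCX hHB hS₀ hC hdis hpar hcnt
  set R : ℝ := 2 ^ (ps ι).card * (κ * ∏ j, (X j : ℝ)) with hR
  have hR0 : 0 ≤ R := mul_nonneg (by positivity)
    (mul_nonneg hκ (Finset.prod_nonneg fun j _ => by positivity))
  -- facts on tuples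
  have hinj : ∀ p ∈ Fintype.piFinset C, Function.Injective p := by
    intro p hp i j hij
    rw [Fintype.mem_piFinset] at hp
    by_contra hne
    have h1 := Finset.disjoint_left.1 (hdis i j hne) (hp i)
    rw [hij] at h1
    exact h1 (hp j)
  have hτ : ∀ p ∈ Fintype.piFinset C, ∀ i, p i % 4 = τ i := by
    intro p hp i
    rw [Fintype.mem_piFinset] at hp
    exact (hC i _ (hp i)).2.2
  have hd : ∀ p ∈ Fintype.piFinset C, ∀ i, p i ∉ S₀ := by
    intro p hp i
    rw [Fintype.mem_piFinset] at hp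
    exact (hC i _ (hp i)).2.1
  have hpr : ∀ p ∈ Fintype.piFinset C, ∀ i, Po (p i) := by
    intro p hp i
    rw [Fintype.mem_piFinset] at hp
    exact (hC i _ (hp i)).1
  have h2S : 2 ∉ S₀ := fun h => (hS₀ 2 h).2 rfl
  have ht : ∀ v ∈ Vt t S₀, v = 2 → t = true := by
    intro v hv hv2
    rcases mem_Vt.1 hv with h | h
    · exact h.1
    · exact absurd (hv2 ▸ h) h2S
  -- the part with given labels
  have h1 : ∀ β : ι → Lb S₀, LN S₀ τ β →
      |(((Fintype.piFinset C).filter fun p => (fun i => lb S₀ (p i)) = β ∧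
          Gdk m t r s (S₀ ∪ univ.image p)).card : ℝ) -
        gk m * (((Fintype.piFinset C).filter fun p => (fun i => lb S₀ (p i)) = β).card : ℝ)| ≤
      ε * (((Fintype.piFinset C).filter fun p => (fun i => lb S₀ (p i)) = β).card : ℝ) + R := by
    intro β hβ
    by_cases hemp : ((Fintype.piFinset C).filter fun p => (fun i => lb S₀ (p i)) = β) = ∅
    · have he2 : ((Fintype.piFinset C).filter fun p => (fun i => lb S₀ (p i)) = β ∧
          Gdk m t r s (S₀ ∪ univ.image p)) = ∅ := by
        rw [← Finset.filter_filter, hemp, Finset.filter_empty]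
      rw [he2, hemp]
      simpa using hR0
    obtain ⟨p₀, hp₀⟩ := Finset.nonempty_iff_ne_empty.2 hemp
    rw [Finset.mem_filter] at hp₀
    obtain ⟨hp₀, hp₀β⟩ := hp₀
    set C' : ι → Finset ℕ := fun i => (C i).filter fun q => lb S₀ q = β i with hC'
    have hpi : (Fintype.piFinset C).filter (fun p => (fun i => lb S₀ (p i)) = β) =
        Fintype.piFinset C' := by
      ext p
      simp only [Finset.mem_filter, Fintype.mem_piFinset, hC']
      constructor
      · rintro ⟨h2, h3⟩ i
        exact ⟨h2 i, congrFun h3 i⟩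
      · intro h2
        exact ⟨fun i => (h2 i).1, funext fun i => (h2 i).2⟩
    set r₀ := rr t S₀ p₀ with hr₀
    have hrp : ∀ i, (r₀ i).Prime := by
      rintro (v | k)
      · rcases mem_Vt.1 v.2 with h | h
        · show (v : ℕ).Prime
          rw [h.2]
          exact Nat.prime_two
        · exact (hS₀ _ h).1
      · exact (hpr p₀ hp₀ k).1
    have hrinj : Function.Injective r₀ :=
      rr_inj t (hinj p₀ hp₀) (hd p₀ hp₀) fun i => (hpr p₀ hp₀ i).2
    have hur : ∀ k : ι, ud s r₀ (Sum.inr k) = if τ k = 3 then 1 else 0 := by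
      intro k
      rw [← uu_eq (hτ p₀ hp₀ k)]
      exact if_neg (hpr p₀ hp₀ k).2
    have h2 := hV₀ (Vt t S₀) ι (wd r r₀) (ud s r₀) (NR r s r₀)
      (fun k => if_neg (hpr p₀ hp₀ k).2)
      (by
        rw [Fintype.sum_sum_type]
        have a1 : ∑ i, ud s r₀ (Sum.inr i : (Vt t S₀ : Finset ℕ) ⊕ ι) =
            (((univ.filter fun i => τ i = 3).card : ℕ) : ZMod 2) := by
          rw [card_filter]
          push_cast
          exact sum_congr rfl fun i _ => hur i
        have a2 : ∑ v : (Vt t S₀ : Finset ℕ), ud s r₀ (Sum.inl v : (Vt t S₀ : Finset ℕ) ⊕ ι) =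
            ∑ x ∈ Vt t S₀, if x = 2 then s else uu x := by
          rw [← Finset.sum_coe_sort (Vt t S₀)]
          rfl
        have a3 : ∑ x ∈ S₀, (if x = 2 then s else uu x) = ∑ x ∈ S₀, uu x :=
          sum_congr rfl fun x hx => if_neg (hS₀ x hx).2
        have a4 : ∑ x ∈ Vt t S₀, (if x = 2 then s else uu x) = s + ∑ x ∈ S₀, uu x := by
          cases t with
          | true =>
            show ∑ x ∈ insert 2 S₀, (if x = 2 then s else uu x) = s + ∑ x ∈ S₀, uu x
            rw [sum_insert h2S, a3, if_pos rfl]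
          | false =>
            show ∑ x ∈ S₀, (if x = 2 then s else uu x) = s + ∑ x ∈ S₀, uu x
            rw [a3, hts rfl, zero_add]
        have a5 : s = ((if s = 0 then 0 else 1 : ℕ) : ZMod 2) := by
          rcases z2 s with h | h <;> rw [h] <;> simp
        rw [a1, a2, a4, sum_uu]
        have a6 : s + (((S₀.filter fun p => p % 4 = 3).card : ℕ) : ZMod 2) +
            (((univ.filter fun i => τ i = 3).card : ℕ) : ZMod 2) =
            (((S₀.filter fun p => p % 4 = 3).card + (univ.filter fun i => τ i = 3).card +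
              (if s = 0 then 0 else 1) : ℕ) : ZMod 2) := by
          rw [Nat.cast_add, Nat.cast_add, ← a5]
          ring
        rw [a6, ← ZMod.natCast_mod, hpar]
        rfl)
      (fun i j hij => rec_NR r s hrinj hrp i j hij)
      (by
        intro v hv
        have b1 : ∀ v' : (Vt t S₀ : Finset ℕ), wd r r₀ (Sum.inl v') = 0 → (v' : ℕ) = 2 ∧ r = 0 := by
          intro v' hv'
          have hv'' : (if (v' : ℕ) = 2 then r else 1) = 0 := hv'
          by_cases h : (v' : ℕ) = 2
          · rw [if_pos h] at hv''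
            exact ⟨h, hv''⟩
          · rw [if_neg h] at hv''
            exact absurd hv'' (by decide)
        obtain ⟨b2, b3⟩ := b1 v hv
        refine ⟨?_, fun v' hv' => Subtype.ext (b2.trans (b1 v' hv').1.symm)⟩
        have b4 : s = 1 := by
          rcases z2 s with h | h
          · exact absurd (htr (ht v v.2 b2)) (by
              rintro (h' | h')
              · exact h' b3
              · exact h' h)
          · exact h
        show (if (v : ℕ) = 2 then s else uu v) = 1
        rw [if_pos b2, b4])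
      (by
        intro b s' hbs
        set w : ℕ → ZMod 2 := fun n => if h : n ∈ Vt t S₀ then b ⟨n, h⟩ else 0 with hw
        have hw1 : ∀ v : (Vt t S₀ : Finset ℕ), w v = b v := fun v => by
          rw [hw]
          exact dif_pos v.2
        have hw2 : ∀ n, n ∉ Vt t S₀ → w n = 0 := fun n hn => by
          rw [hw]
          exact dif_neg hn
        obtain ⟨k, hk⟩ := hβ w s' (by
          rcases hbs with ⟨v, hv⟩ | h
          · exact Or.inl ⟨v, Vt_sub t S₀ v.2, by rw [hw1]; exact hv⟩
          · exact Or.inr h)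
        refine ⟨k, ?_⟩
        rw [hur]
        intro h0
        apply hk
        refine Eq.trans ?_ h0
        congr 1
        rw [← hp₀β]
        have c1 : ∑ v : (insert 2 S₀ : Finset ℕ), w v * (lb S₀ (p₀ k)).1 v =
            ∑ v ∈ insert 2 S₀, w v * nr (p₀ k) v := by
          rw [← Finset.sum_coe_sort (insert 2 S₀)]
          rfl
        have c2 : ∑ v ∈ Vt t S₀, w v * nr (p₀ k) v = ∑ v ∈ insert 2 S₀, w v * nr (p₀ k) v :=
          sum_subset (Vt_sub t S₀) fun x _ hx => by rw [hw2 x hx, zero_mul]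
        have c3 : ∑ v : (Vt t S₀ : Finset ℕ), b v * NR r s r₀ (Sum.inl v) (Sum.inr k) =
            ∑ v ∈ Vt t S₀, w v * nr (p₀ k) v := by
          rw [← Finset.sum_coe_sort (Vt t S₀)]
          refine sum_congr rfl fun v _ => ?_
          rw [hw1]
          congr 1
          exact sy_ne r s (hpr p₀ hp₀ k).2
        exact (c1.trans c2.symm).trans c3.symm)
      (by
        have d1 : Fintype.card (Vt t S₀ : Finset ℕ) ≤ S₀.card + 1 := by
          rw [Fintype.card_coe]
          exact (card_le_card (Vt_sub t S₀)).trans (card_insert_le _ _)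
        have d2 : (univ.filter fun k : ι => ud s r₀ (Sum.inr k) = 1) =
            univ.filter fun i => τ i = 3 := by
          refine filter_congr fun k _ => ?_
          rw [hur]
          by_cases h : τ k = 3
          · rw [if_pos h]
            exact ⟨fun _ => h, fun _ => rfl⟩
          · rw [if_neg h]
            exact ⟨fun h' => absurd h' (by decide), fun h' => absurd h' h⟩
        rw [d2]
        omega)
    set Q : (ps ι → ZMod 2) → Prop := fun σ => Gvk m (pt (NR r s r₀) (sx (σ + sgm p₀))) with hQ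
    have h3 := hEQ ι C' X κ hκ
      (fun i => (Finset.card_le_card (Finset.filter_subset _ _)).trans (hCX i))
      (HB_sub hHB fun i q => lb S₀ q = β i) Q
    have h4 : ((Fintype.piFinset C).filter fun p => (fun i => lb S₀ (p i)) = β ∧
        Gdk m t r s (S₀ ∪ univ.image p)) = ((Fintype.piFinset C').filter fun p =>
          Q fun e => nr (p e.1.1) (p e.1.2)) := by
      rw [← hpi, Finset.filter_filter]
      refine Finset.filter_congr fun p hp => ?_
      refine and_congr_right fun hl => ?_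
      rw [Gdk_iff m t r s (rr_inj t (hinj p hp) (hd p hp) fun i => (hpr p hp i).2) (rr_im t)]
      have a0 := two_tuples t r s (hinj p hp) (hinj p₀ hp₀) (hpr p hp) (hpr p₀ hp₀)
        (hτ p hp) (hτ p₀ hp₀) fun i => by
          have a1 := congrFun hl i
          have a2 := congrFun hp₀β i
          exact a1.trans a2.symm
      show Gvk m (NR r s (rr t S₀ p)) ↔ Gvk m (pt (NR r s r₀) (sx (sgm p + sgm p₀)))
      rw [a0]
    have h5 : (((Fintype.piFinset C').card : ℕ) : ℝ) = ∏ j, ((C' j).card : ℝ) := by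
      rw [Fintype.card_piFinset]
      push_cast
      rfl
    rw [h4, hpi, h5]
    have hQc : (univ.filter Q).card =
        (univ.filter fun σ : ps ι → ZMod 2 => Gvk m (pt (NR r s r₀) (sx σ))).card := by
      refine card_bij (fun σ _ => σ + sgm p₀) ?_ ?_ ?_
      · intro σ hσ
        rw [mem_filter] at hσ ⊢
        exact ⟨mem_univ _, hσ.2⟩
      · intro σ _ σ' _ h
        exact add_right_cancel h
      · intro σ hσ
        refine ⟨σ - sgm p₀, ?_, sub_add_cancel _ _⟩
        rw [mem_filter] at hσ ⊢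
        refine ⟨mem_univ _, ?_⟩
        simp only [hQ, sub_add_cancel]
        exact hσ.2
    have h2' : |((univ.filter Q).card : ℝ) / 2 ^ (ps ι).card - gk m| ≤ ε := by
      rw [hQc]
      exact h2
    set n : ℝ := (((Fintype.piFinset C').filter fun p =>
          Q fun e => nr (p e.1.1) (p e.1.2)).card : ℝ) with hn
    set q : ℝ := ((univ.filter Q).card : ℝ) / 2 ^ (ps ι).card with hq
    set P : ℝ := ∏ j, ((C' j).card : ℝ) with hP
    have hP0 : 0 ≤ P := Finset.prod_nonneg fun j _ => by positivity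
    have h6 : |n - gk m * P| ≤ |n - q * P| + |q - gk m| * P := by
      have h7 : n - gk m * P = (n - q * P) + (q - gk m) * P := by ring
      have h8 : |(q - gk m) * P| = |q - gk m| * P := by rw [abs_mul, abs_of_nonneg hP0]
      rw [h7, ← h8]
      exact abs_add_le _ _
    have h7 : |q - gk m| * P ≤ ε * P := mul_le_mul_of_nonneg_right h2' hP0
    have h8 : |n - q * P| ≤ R := h3
    linarith
  -- sum over the labels
  set LL := univ.filter (fun β : ι → Lb S₀ => LN S₀ τ β) with hLL
  have hfib : ∀ T : (ι → ℕ) → Prop,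
      (((Fintype.piFinset C).filter fun p => Nd S₀ (univ.image p) ∧ T p).card : ℝ) =
      ∑ β ∈ LL, (((Fintype.piFinset C).filter fun p =>
        (fun i => lb S₀ (p i)) = β ∧ T p).card : ℝ) := by
    intro T
    rw [Finset.card_eq_sum_card_fiberwise (f := fun (p : ι → ℕ) (i : ι) => lb S₀ (p i))
      (t := LL) (by
        intro p hp
        rw [Finset.mem_coe, Finset.mem_filter] at hp
        rw [Finset.mem_coe, hLL, Finset.mem_filter]
        exact ⟨Finset.mem_univ _, (nd_iff (hτ p hp.1)).1 hp.2.1⟩)]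
    push_cast
    refine Finset.sum_congr rfl fun β hβ => ?_
    rw [hLL, Finset.mem_filter] at hβ
    congr 2
    ext p
    simp only [Finset.mem_filter]
    constructor
    · rintro ⟨⟨h3, h4, h4'⟩, h5⟩
      exact ⟨h3, h5, h4'⟩
    · rintro ⟨h3, h4, h5⟩
      refine ⟨⟨h3, ?_, h5⟩, h4⟩
      rw [nd_iff (hτ p h3), h4]
      exact hβ.2
  have hf1 := hfib fun p => Gdk m t r s (S₀ ∪ univ.image p)
  have hf2 := hfib fun _ => True
  simp only [and_true] at hf2
  rw [hf1, hf2, Finset.mul_sum, ← Finset.sum_sub_distrib]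
  refine (Finset.abs_sum_le_sum_abs _ _).trans ?_
  refine (Finset.sum_le_sum fun β hβ => h1 β (Finset.mem_filter.1 hβ).2).trans ?_
  rw [Finset.sum_add_distrib, ← Finset.mul_sum, Finset.sum_const, nsmul_eq_mul]
  have h5 : ((LL.card : ℕ) : ℝ) ≤ 2 ^ ((2 * S₀.card + 1) * Fintype.card ι) := by
    have h6 : LL.card ≤ Fintype.card (ι → Lb S₀) := Finset.card_le_univ _
    rw [Fintype.card_fun, Fintype.card_prod, Fintype.card_fun, Fintype.card_fun, ZMod.card,
      Fintype.card_coe, Fintype.card_coe, ← pow_add, ← pow_mul, card_insert_of_notMem h2S] at h6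
    have h7 : (S₀.card + 1 + S₀.card) * Fintype.card ι =
        (2 * S₀.card + 1) * Fintype.card ι := by
      ring
    rw [h7] at h6
    exact_mod_cast h6
  have h6 := mul_le_mul_of_nonneg_right h5 hR0
  rw [pow_add, mul_assoc]
  linarith


end Pool.Agent.Run7.h843.G
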