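import Pool.Agent.Y698.SG.Eba
import Pool.Agent.Y587.SG.LG
import Pool.Agent.Y971.SG.Lq

/-!
# Elements of order two in Sha over `ℚ`
-/

set_option autoImplicit false

open NumberField IsDedekindDomain

namespace Run7.h843.Conv

open Pool.Agent.Y698.SG.Cv (LocI WF)
open Pool.Agent.Y698.SG (loc_map sha_inj)
open Pool.Agent.TH841.NF.D (Sha)

/-- the primes of good reduction -/
theorem good_p {a b d : ℤ} (hb : b ≠ 0) (hab : a ^ 2 - 4 * b ≠ 0) (hd0 : d ≠ 0) (p : ℕ)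
    [Fact p.Prime] (h2 : p ≠ 2) (h : ¬ (p : ℤ) ∣ b) (h' : ¬ (p : ℤ) ∣ a ^ 2 - 4 * b)
    (hd : ¬ (p : ℤ) ∣ d) : LocI ℚ_[p] a b d := by
  have hlq := (Pool.Agent.Y971.SG.Lq.t_LQ a b d hb hab hd0).1 p
  have hbz : (b : ZMod p) ≠ 0 := fun h0 => h ((ZMod.intCast_zmod_eq_zero_iff_dvd b p).1 h0)
  have hdz : (d : ZMod p) ≠ 0 := fun h0 => hd ((ZMod.intCast_zmod_eq_zero_iff_dvd d p).1 h0)
  have hcz : ((a ^ 2 - 4 * b : ℤ) : ZMod p) ≠ 0 := fun h0 =>
    h' ((ZMod.intCast_zmod_eq_zero_iff_dvd _ p).1 h0)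
  by_cases h3 : IsSquare (d : ZMod p)
  · exact hlq (Or.inl (Pool.Agent.Y971.SG.Lq.t_SQ p d h2 hd h3))
  · by_cases h4 : IsSquare ((a ^ 2 - 4 * b : ℤ) : ZMod p)
    · refine Pool.Agent.Y587.SG.aux p a b d h2 hbz ?_ hd0 ?_
      · have := (quadraticChar_one_iff_isSquare hcz).2 h4
        push_cast at this
        exact this
      · exact quadraticChar_neg_one_iff_not_isSquare.2 h3
    · have h5 : IsSquare ((d * (a ^ 2 - 4 * b) : ℤ) : ZMod p) := by
        have e1 := quadraticChar_neg_one_iff_not_isSquare.2 h3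
        have e2 := quadraticChar_neg_one_iff_not_isSquare.2 h4
        have hne : ((d * (a ^ 2 - 4 * b) : ℤ) : ZMod p) ≠ 0 := by
          rw [Int.cast_mul]
          exact mul_ne_zero hdz hcz
        rw [← quadraticChar_one_iff_isSquare hne, Int.cast_mul, map_mul, e1, e2]
        norm_num
      have h6 : ¬ (p : ℤ) ∣ d * (a ^ 2 - 4 * b) := by
        intro h7
        rcases (Int.Prime.dvd_mul' (Fact.out : p.Prime) h7) with h8 | h8
        · exact hd h8
        · exact h' h8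
      have h7 := Pool.Agent.Y971.SG.Lq.t_SQ p _ h2 h6 h5
      refine hlq (Or.inr ?_)
      push_cast at h7
      exact h7

/-- local conditions at the finite places of `ℚ` -/
theorem all_v {a b d : ℤ} (h : ∀ (p : ℕ) [Fact p.Prime], LocI ℚ_[p] a b d)
    (v : HeightOneSpectrum (𝓞 ℚ)) : LocI (v.adicCompletion ℚ) a b d := by
  have : Fact ((Rat.HeightOneSpectrum.primesEquiv v : Nat.Primes) : ℕ).Prime :=
    ⟨(Rat.HeightOneSpectrum.primesEquiv v).2⟩
  exact loc_map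
    ((Rat.HeightOneSpectrum.adicCompletion.padicEquiv v).symm.toAlgEquiv.toRingEquiv.toRingHom)
    (h _)

/-- an element of order two -/
theorem exists_two {a b d : ℤ} (hb : b ≠ 0) (hab : a ^ 2 - 4 * b ≠ 0) (nb : ¬ IsSquare (b : ℚ))
    (nab : ¬ IsSquare ((a : ℚ) ^ 2 - 4 * b)) (hf : Finite (WF ℚ a b).toAffine.Point) (hd : d ≠ 0)
    (hl : ∀ (p : ℕ) [Fact p.Prime], LocI ℚ_[p] a b d) (hr : LocI ℝ a b d)
    (n1 : ¬ IsSquare (d : ℚ)) (n2 : ¬ IsSquare ((d : ℚ) * ((a : ℚ) ^ 2 - 4 * b))) :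
    ∃ x : Sha (WF ℚ a b), x ≠ 0 ∧ x + x = 0 := by
  have l1 : (∀ (p : ℕ) [Fact p.Prime], LocI ℚ_[p] a b 1) ∧ LocI ℝ a b 1 := by
    obtain ⟨h1, h2⟩ := Pool.Agent.Y971.SG.Lq.t_LQ a b 1 hb hab one_ne_zero
    exact ⟨fun p _ => h1 p (Or.inl ⟨1, by simp⟩), h2 one_pos⟩
  obtain ⟨f, hfi, hf2⟩ := sha_inj ℚ hb hab nb nab hf (fun i : Bool => if i then d else 1)
    (fun i => by
      cases i
      · exact one_ne_zero
      · exact hd)
    (fun i v => by
      cases i
      · exact all_v (fun p _ => l1.1 p) v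
      · exact all_v (fun p _ => hl p) v)
    (fun i => by
      cases i
      · exact l1.2
      · exact hr)
    (by
      intro i j hij
      have key : (if i then d else 1) * (if j then d else 1) = d := by
        cases i <;> cases j <;> simp at hij ⊢

      rw [key]
      exact ⟨n1, n2⟩)
  by_cases h0 : f true = 0
  · exact ⟨f false, fun h1 => Bool.noConfusion (hfi (h0.trans h1.symm)), hf2 false⟩
  · exact ⟨f true, h0, hf2 true⟩

end Run7.h843.Conv
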