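import Pool.Agent.Run7.h843.V5

/-!
# The criterion for `y² = x³ - (2 n)² x`, both directions
-/

set_option autoImplicit false

open NumberField IsDedekindDomain

namespace Run7.h843.Conv

open Pool.Agent.Y698.SG.Cv (WF)
open Pool.Agent.TH841.NF.D (Sha)
open Run7.h843.Desc Run7.h843.Fin Run7.h238.Pairs
open Run7.h843.Cnt (Gd6)

theorem fin_n {n : ℕ} (h : Okn n) (hG : Gd6 (oddP n)) :
    {q : ℚ × ℚ | q.2 ^ 2 = q.1 ^ 3 + ((-(2 * (n : ℤ)) ^ 2 : ℤ) : ℚ) * q.1 + ((0 : ℤ) : ℚ)}.Finite := by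
  refine Set.Finite.subset (Set.toFinite {((0 : ℚ), (0 : ℚ)), (2 * (n : ℚ), (0 : ℚ)),
    (-(2 * (n : ℚ)), (0 : ℚ))}) ?_
  rintro ⟨x, y⟩ hq
  have hq' : y ^ 2 = x ^ 3 + ((-(2 * (n : ℤ)) ^ 2 : ℤ) : ℚ) * x + ((0 : ℤ) : ℚ) := hq
  push_cast at hq'
  have h0 : y ^ 2 = x ^ 3 - (2 * (n : ℚ)) ^ 2 * x := by linear_combination hq'
  have hy := no_points_n h hG h0
  rw [hy] at h0
  have h3 : x * ((x - 2 * n) * (x + 2 * n)) = 0 := by linear_combination -h0
  rcases mul_eq_zero.1 h3 with h4 | h4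
  · rw [h4, hy]
    simp
  · rcases mul_eq_zero.1 h4 with h5 | h5
    · have : x = 2 * n := by linear_combination h5
      rw [this, hy]
      simp
    · have : x = -(2 * n) := by linear_combination h5
      rw [this, hy]
      simp

theorem iffE {n : ℕ} (h : Okn n) {W : WeierstrassCurve ℚ}
    (hW : W = ⟨0, 0, 0, ((-(2 * (n : ℤ)) ^ 2 : ℤ) : ℚ), ((0 : ℤ) : ℚ)⟩) :
    (Finite W.toAffine.Point ∧ ∀ (k : ℕ) (x : Sha W), 2 ^ k • x = 0 → x = 0) ↔ Gd6 (oddP n) := by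
  obtain ⟨h1, h2⟩ := decomp h.ne
  constructor
  · rintro ⟨hf, hs⟩
    have hW2 : W = WF ℚ 0 (-((2 * (sf n) * (gg n) ^ 2 : ℕ) : ℤ) ^ 2) := by
      rw [hW]
      unfold WF Pool.Agent.Y668.Wt
      have h6 : (n : ℚ) = (gg n : ℚ) ^ 2 * (sf n : ℚ) := by exact_mod_cast h2
      push_cast
      rw [h6]
      simp only [WeierstrassCurve.mk.injEq, true_and, and_true]
      ring
    rw [hW2] at hf hs
    have hk := convE sf_sq (four h) h1 hf fun x hx => hs 1 x (by rw [pow_one, two_smul, hx])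
    have : Gd6 (sf n).primeFactors := hk
    rwa [sf_pf] at this
  · intro hG
    constructor
    · rw [hW]
      exact Pool.Agent.Y687.finite_pt_of_set (fin_n h hG)
    · intro k x hx
      have hn0 : (n : ℚ) ≠ 0 := by exact_mod_cast h.ne
      have hT : Pool.Agent.Y682.IsT W 0 (-(2 * (n : ℚ)) ^ 2) := by
        rw [hW]
        refine ⟨rfl, rfl, rfl, ?_, by simp, ?_, ?_⟩
        · show ((-(2 * (n : ℤ)) ^ 2 : ℤ) : ℚ) = _
          push_cast
          rfl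
        · exact neg_ne_zero.2 (pow_ne_zero 2 (mul_ne_zero two_ne_zero hn0))
        · have e : (0 : ℚ) ^ 2 - 4 * -(2 * (n : ℚ)) ^ 2 = (4 * (n : ℚ)) ^ 2 := by ring
          rw [e]
          exact pow_ne_zero 2 (mul_ne_zero four_ne_zero hn0)
      exact Run7.h843.Sha.sha_n h hG hT k x hx

end Run7.h843.Conv
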