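import Pool.Agent.Run7.h843.C2

/-!
# The count in a box: the estimate
-/

set_option autoImplicit false

open scoped Classical

namespace Run7.h843.Cnt

open Finset
open Pool.Agent.Y703.CQ (nr sg prs HB S_EQ GdA S_LA c2)
open Pool.Agent.R413.SQ.BOX (nr_self nr_symm sum_un lb Lb HB_sub ez0 ez0_coe)
open Run7.h843.Desc (f2)

theorem prs_card {ι : Type} [Fintype ι] [LinearOrder ι] (J1 : Finset ι) :
    (prs J1).card ≤ Fintype.card ι * Fintype.card ι := by
  unfold prs
  refine (Finset.card_filter_le _ _).trans ?_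
  rw [Finset.card_univ, Fintype.card_prod]

/-- **The count in a box.** -/
theorem box6 (hEQ : S_EQ) (hLA : S_LA) (ι : Type) [Fintype ι] [LinearOrder ι]
    (C : ι → Finset ℕ) (X : ι → ℕ) (κ : ℝ) (S₀ : Finset ℕ) (hκ : 0 ≤ κ)
    (hCX : ∀ i, (C i).card ≤ X i) (hHB : HB univ C X κ) (hS₀ : ∀ u ∈ S₀, u.Prime ∧ u % 4 = 1)
    (hC : ∀ i, ∀ p ∈ C i, (p.Prime ∧ p % 4 = 1) ∧ p ∉ S₀)
    (hdis : ∀ i l, i ≠ l → Disjoint (C i) (C l)) (hne : S₀.card + 1 < Fintype.card ι) :
    |(((Fintype.piFinset C).filter fun p => Nd6 S₀ (univ.image p) ∧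
        Gd6 (S₀ ∪ univ.image p)).card : ℝ) -
      c2 * (((Fintype.piFinset C).filter fun p => Nd6 S₀ (univ.image p)).card : ℝ)| ≤
    2 * (4 ^ (S₀.card + 1) / 2 ^ (Fintype.card ι - 1)) *
      (((Fintype.piFinset C).filter fun p => Nd6 S₀ (univ.image p)).card : ℝ) +
    2 ^ ((2 * S₀.card + 1) * Fintype.card ι + Fintype.card ι * Fintype.card ι) *
      (κ * ∏ j, (X j : ℝ)) := by
  set cc : ℝ := 2 * (4 ^ (S₀.card + 1) / 2 ^ (Fintype.card ι - 1)) with hcc
  set R : ℝ := 2 ^ (Fintype.card ι * Fintype.card ι) * (κ * ∏ j, (X j : ℝ)) with hR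
  have hcc0 : 0 ≤ cc := by positivity
  have hκX : 0 ≤ κ * ∏ j, (X j : ℝ) := mul_nonneg hκ (Finset.prod_nonneg fun j _ => by positivity)
  have hR0 : 0 ≤ R := mul_nonneg (by positivity) hκX
  -- facts on tuples
  have hinj : ∀ p ∈ Fintype.piFinset C, Function.Injective p := by
    intro p hp i j hij
    rw [Fintype.mem_piFinset] at hp
    by_contra hne
    have h1 := Finset.disjoint_left.1 (hdis i j hne) (hp i)
    rw [hij] at h1
    exact h1 (hp j)
  have hd : ∀ p ∈ Fintype.piFinset C, ∀ i, p i ∉ S₀ := by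
    intro p hp i
    rw [Fintype.mem_piFinset] at hp
    exact (hC i _ (hp i)).2
  have hpr : ∀ p ∈ Fintype.piFinset C, ∀ i, (p i).Prime ∧ p i % 4 = 1 := by
    intro p hp i
    rw [Fintype.mem_piFinset] at hp
    exact (hC i _ (hp i)).1
  have h2of : ∀ {q : ℕ}, q % 4 = 1 → q ≠ 2 := by
    rintro q h rfl
    omega
  -- the part with given labels
  have h1 : ∀ β : ι → Lb S₀, LN6 S₀ β →
      |(((Fintype.piFinset C).filter fun p => (fun i => lb f2 S₀ (p i)) = β ∧
          Gd6 (S₀ ∪ univ.image p)).card : ℝ) -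
        c2 * (((Fintype.piFinset C).filter fun p => (fun i => lb f2 S₀ (p i)) = β).card : ℝ)| ≤
      cc * (((Fintype.piFinset C).filter fun p => (fun i => lb f2 S₀ (p i)) = β).card : ℝ) + R := by
    intro β hβ
    by_cases hemp : ((Fintype.piFinset C).filter fun p => (fun i => lb f2 S₀ (p i)) = β) = ∅
    · have he2 : ((Fintype.piFinset C).filter fun p => (fun i => lb f2 S₀ (p i)) = β ∧
          Gd6 (S₀ ∪ univ.image p)) = ∅ := by
        rw [← Finset.filter_filter, hemp, Finset.filter_empty]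
      rw [he2, hemp]
      simpa using hR0
    obtain ⟨p₀, hp₀⟩ := Finset.nonempty_iff_ne_empty.2 hemp
    rw [Finset.mem_filter] at hp₀
    obtain ⟨hp₀, hp₀β⟩ := hp₀
    set C' : ι → Finset ℕ := fun i => (C i).filter fun q => lb f2 S₀ q = β i with hC'
    have hpi : (Fintype.piFinset C).filter (fun p => (fun i => lb f2 S₀ (p i)) = β) =
        Fintype.piFinset C' := by
      ext p
      simp only [Finset.mem_filter, Fintype.mem_piFinset, hC']
      constructor
      · rintro ⟨h2, h3⟩ i
        exact ⟨h2 i, congrFun h3 i⟩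
      · intro h2
        exact ⟨fun i => (h2 i).1, funext fun i => (h2 i).2⟩
    -- the root
    obtain ⟨r, hr⟩ := omit_one (fun (i : ι) (u : Option S₀) => u.elim (β i).2.2 (β i).2.1) hβ (by
      rw [Fintype.card_option, Fintype.card_coe]
      exact hne)
    have hcJ : (univ.erase r).card = Fintype.card ι - 1 := by
      rw [Finset.card_erase_of_mem (Finset.mem_univ _), Finset.card_univ]
    have hcU : (univ : Finset (Option S₀)).card = S₀.card + 1 := by
      rw [Finset.card_univ, Fintype.card_option, Fintype.card_coe]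
    have hsm0 : ∀ u v : S₀, nr (u : ℕ) v = nr (v : ℕ) u := fun u v =>
      nr_symm (hS₀ u u.2).1 (hS₀ u u.2).2 (hS₀ v v.2).1 (h2of (hS₀ v v.2).2)
    have h2 := hLA (Option S₀) ι (univ : Finset (Option S₀)) (univ.erase r)
      ⟨r, Finset.notMem_erase _ _⟩ (AA S₀)
      (fun (u : Option S₀) l => u.elim (β l).2.2 (β l).1)
      (fun k (u : Option S₀) => u.elim (β k).2.2 (β k).2.1) (fun _ => 0) (fun _ => 0)
      (by
        intro u _ v _
        rcases u with _ | u <;> rcases v with _ | v
        · rfl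
        · rfl
        · rfl
        · exact hsm0 u v)
      (by
        intro u _ k _
        rcases u with _ | u
        · rfl
        · have h3 := congrFun hp₀β k
          simp only [Option.elim_some]
          rw [← h3]
          exact nr_symm (hS₀ u u.2).1 (hS₀ u u.2).2 (hpr p₀ hp₀ k).1 (h2of (hpr p₀ hp₀ k).2))
      (by
        rintro w - ⟨u, hu⟩
        obtain ⟨k, hk, hk2⟩ := hr w (fun h => hu (by rw [h]; rfl))
        exact ⟨k, Finset.mem_erase.2 ⟨hk, Finset.mem_univ _⟩, hk2⟩)
    rw [hcU, hcJ] at h2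
    set Q : (prs (univ.erase r) → ZMod 2) → Prop := fun α =>
      GdA (univ : Finset (Option S₀)) (univ.erase r) (AA S₀)
      (fun (u : Option S₀) l => u.elim (β l).2.2 (β l).1)
      (fun k (u : Option S₀) => u.elim (β k).2.2 (β k).2.1)
      (Pool.Agent.Y703.CQ.ext α) (fun _ => 0) (fun _ => 0) with hQ
    have hHB' : HB (univ.erase r) C X κ := fun i l hil _ => hHB i l hil (Finset.mem_univ _)
    have h3 := hEQ ι (univ.erase r) C' X κ hκ
      (fun i => (Finset.card_le_card (Finset.filter_subset _ _)).trans (hCX i))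
      (HB_sub hHB' fun i q => lb f2 S₀ q = β i) Q
    have h4 : ((Fintype.piFinset C).filter fun p => (fun i => lb f2 S₀ (p i)) = β ∧
        Gd6 (S₀ ∪ univ.image p)) = ((Fintype.piFinset C').filter fun p =>
          Q fun e => nr (p e.1.1) (p e.1.2)) := by
      rw [← hpi, Finset.filter_filter]
      refine Finset.filter_congr fun p hp => ?_
      refine and_congr_right fun hl => ?_
      rw [gd_iff6 (hinj p hp) (hpr p hp) hS₀ (hd p hp) r]
      subst hl
      exact Iff.rfl
    have h5 : (((Fintype.piFinset C').card : ℕ) : ℝ) = ∏ j, ((C' j).card : ℝ) := by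
      rw [Fintype.card_piFinset]
      push_cast
      rfl
    rw [h4, hpi, h5]
    have h2' : |((univ.filter Q).card : ℝ) / 2 ^ (prs (univ.erase r)).card - c2| ≤ cc := h2
    set n : ℝ := (((Fintype.piFinset C').filter fun p =>
          Q fun e => nr (p e.1.1) (p e.1.2)).card : ℝ) with hn
    set q : ℝ := ((univ.filter Q).card : ℝ) / 2 ^ (prs (univ.erase r)).card with hq
    set P : ℝ := ∏ j, ((C' j).card : ℝ) with hP
    have hP0 : 0 ≤ P := Finset.prod_nonneg fun j _ => by positivity
    have h6 : |n - c2 * P| ≤ |n - q * P| + |q - c2| * P := by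
      have h7 : n - c2 * P = (n - q * P) + (q - c2) * P := by ring
      have h8 : |(q - c2) * P| = |q - c2| * P := by rw [abs_mul, abs_of_nonneg hP0]
      rw [h7, ← h8]
      exact abs_add_le _ _
    have h7 : |q - c2| * P ≤ cc * P := mul_le_mul_of_nonneg_right h2' hP0
    have h8 : |n - q * P| ≤ R := by
      refine h3.trans ?_
      rw [hR]
      refine mul_le_mul_of_nonneg_right ?_ hκX
      exact pow_le_pow_right₀ (by norm_num) (prs_card _)
    linarith
  -- sum over the labels
  set LL := univ.filter (fun β : ι → Lb S₀ => LN6 S₀ β) with hLL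
  have hfib : ∀ T : (ι → ℕ) → Prop,
      (((Fintype.piFinset C).filter fun p => Nd6 S₀ (univ.image p) ∧ T p).card : ℝ) =
      ∑ β ∈ LL, (((Fintype.piFinset C).filter fun p =>
        (fun i => lb f2 S₀ (p i)) = β ∧ T p).card : ℝ) := by
    intro T
    rw [Finset.card_eq_sum_card_fiberwise (f := fun (p : ι → ℕ) (i : ι) => lb f2 S₀ (p i))
      (t := LL) (by
        intro p hp
        rw [Finset.mem_coe, Finset.mem_filter] at hp
        rw [Finset.mem_coe, hLL, Finset.mem_filter]
        exact ⟨Finset.mem_univ _, nd_iff6.1 hp.2.1⟩)]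
    push_cast
    refine Finset.sum_congr rfl fun β hβ => ?_
    rw [hLL, Finset.mem_filter] at hβ
    congr 2
    ext p
    simp only [Finset.mem_filter]
    constructor
    · rintro ⟨⟨h3, h4, h4'⟩, h5⟩
      exact ⟨h3, h5, h4'⟩
    · rintro ⟨h3, h4, h5⟩
      refine ⟨⟨h3, ?_, h5⟩, h4⟩
      rw [nd_iff6, h4]
      exact hβ.2
  have hf1 := hfib fun p => Gd6 (S₀ ∪ univ.image p)
  have hf2 := hfib fun _ => True
  simp only [and_true] at hf2
  rw [hf1, hf2, Finset.mul_sum, ← Finset.sum_sub_distrib]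
  refine (Finset.abs_sum_le_sum_abs _ _).trans ?_
  refine (Finset.sum_le_sum fun β hβ => h1 β (Finset.mem_filter.1 hβ).2).trans ?_
  rw [Finset.sum_add_distrib, ← Finset.mul_sum, Finset.sum_const, nsmul_eq_mul]
  have h5 : ((LL.card : ℕ) : ℝ) ≤ 2 ^ ((2 * S₀.card + 1) * Fintype.card ι) := by
    have h6 : LL.card ≤ Fintype.card (ι → Lb S₀) := Finset.card_le_univ _
    rw [Fintype.card_fun, Fintype.card_prod, Fintype.card_prod, Fintype.card_fun, ZMod.card,
      Fintype.card_coe, ← pow_succ, ← pow_add, ← pow_mul] at h6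
    have h7 : (S₀.card + (S₀.card + 1)) * Fintype.card ι = (2 * S₀.card + 1) * Fintype.card ι := by
      ring
    rw [h7] at h6
    exact_mod_cast h6
  have h6 := mul_le_mul_of_nonneg_right h5 hR0
  rw [pow_add, mul_assoc]
  linarith

end Run7.h843.Cnt
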