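import Mathlib
import Pool.Agent.Y703.CQ.Stm

/-!
# Quadratic symbols and valuations modulo two (additively)
-/

set_option autoImplicit false

namespace Run7.h843.Desc

open Pool.Agent.Y703.CQ (nr)

/-- the quadratic symbol of an integer modulo `p`, additively -/
noncomputable def ch (p : ℕ) (A : ℤ) : ZMod 2 := by
  classical exact if IsSquare (A : ZMod p) then 0 else 1

/-- the valuation modulo two -/
def vv (q : ℕ) (A : ℤ) : ZMod 2 := (A.natAbs.factorization q : ZMod 2)

/-- the quadratic symbol of the part prime to `p` (for `p = 1` modulo `4`) -/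
noncomputable def lam (p : ℕ) (A : ℤ) : ZMod 2 :=
  A.natAbs.factorization.sum fun q k => (k : ZMod 2) * nr p q

theorem ch_nat (p n : ℕ) : ch p (n : ℤ) = nr p n := by
  classical
  unfold ch nr
  rw [Int.cast_natCast]

theorem nr_self (p : ℕ) : nr p p = 0 := by
  classical
  unfold nr
  rw [ZMod.natCast_self, if_pos IsSquare.zero]

theorem ch_mul {p : ℕ} [Fact p.Prime] {A B : ℤ} (hA : (A : ZMod p) ≠ 0)
    (hB : (B : ZMod p) ≠ 0) : ch p (A * B) = ch p A + ch p B := by
  classical
  by_cases hp : p = 2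
  · subst hp
    have h : ∀ a : ZMod 2, IsSquare a := by
      intro a
      fin_cases a
      · exact ⟨0, rfl⟩
      · exact ⟨1, rfl⟩
    simp [ch, h]
  have key : ∀ C : ℤ, (C : ZMod p) ≠ 0 → quadraticChar (ZMod p) (C : ZMod p) =
      if ch p C = 0 then 1 else -1 := by
    intro C hC
    by_cases hs : IsSquare (C : ZMod p)
    · rw [(quadraticChar_one_iff_isSquare hC).2 hs]
      simp [ch, hs]
    · rw [quadraticChar_neg_one_iff_not_isSquare.2 hs]
      simp [ch, hs]
  have hAB : ((A * B : ℤ) : ZMod p) ≠ 0 := by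
    rw [Int.cast_mul]
    exact mul_ne_zero hA hB
  have h1 := key _ hA
  have h2 := key _ hB
  have h3 := key _ hAB
  rw [Int.cast_mul, map_mul, h1, h2] at h3
  have hv : ∀ C : ℤ, ch p C = 0 ∨ ch p C = 1 := by
    intro C
    unfold ch
    by_cases hs : IsSquare (C : ZMod p)
    · left; rw [if_pos hs]
    · right; rw [if_neg hs]
  rcases hv A with a | a <;> rcases hv B with b | b <;> rcases hv (A * B) with c | c <;>
    rw [a, b, c] at h3 <;> simp at h3 <;> rw [a, b, c] <;> rfl

theorem ch_congr {p : ℕ} {A B : ℤ} (h : (A : ZMod p) = B) : ch p A = ch p B := by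
  classical
  unfold ch
  rw [h]

theorem ch_sq {p : ℕ} (A : ℤ) : ch p (A ^ 2) = 0 := by
  classical
  unfold ch
  rw [if_pos]
  rw [Int.cast_pow]
  exact ⟨(A : ZMod p), sq _⟩

theorem ch_neg {p : ℕ} [Fact p.Prime] (hp : p % 4 = 1) (A : ℤ) : ch p (-A) = ch p A := by
  classical
  have h : IsSquare (-1 : ZMod p) := by
    rw [ZMod.exists_sq_eq_neg_one_iff]
    omega
  unfold ch
  have e : IsSquare ((-A : ℤ) : ZMod p) ↔ IsSquare (A : ZMod p) := by
    rw [Int.cast_neg]
    constructor
    · intro h1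
      have := h1.mul h
      rwa [neg_mul_neg, mul_one] at this
    · intro h1
      have := h1.mul h
      rwa [mul_neg, mul_one] at this
  by_cases hs : IsSquare (A : ZMod p)
  · rw [if_pos hs, if_pos (e.2 hs)]
  · rw [if_neg hs, if_neg (fun h1 => hs (e.1 h1))]

theorem ch_natAbs {p : ℕ} [Fact p.Prime] (hp : p % 4 = 1) (A : ℤ) :
    ch p (A.natAbs : ℤ) = ch p A := by
  rcases Int.natAbs_eq A with h | h
  · rw [← h]
  · conv_rhs => rw [h]
    rw [ch_neg hp]

theorem vv_mul (q : ℕ) {A B : ℤ} (hA : A ≠ 0) (hB : B ≠ 0) : vv q (A * B) = vv q A + vv q B := by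
  unfold vv
  rw [Int.natAbs_mul, Nat.factorization_mul (Int.natAbs_ne_zero.2 hA) (Int.natAbs_ne_zero.2 hB),
    Finsupp.add_apply, Nat.cast_add]

theorem lam_mul (p : ℕ) {A B : ℤ} (hA : A ≠ 0) (hB : B ≠ 0) :
    lam p (A * B) = lam p A + lam p B := by
  unfold lam
  rw [Int.natAbs_mul, Nat.factorization_mul (Int.natAbs_ne_zero.2 hA) (Int.natAbs_ne_zero.2 hB)]
  refine Finsupp.sum_add_index' (fun q => ?_) (fun q a b => ?_)
  · simp
  · push_cast
    ring

theorem vv_neg (q : ℕ) (A : ℤ) : vv q (-A) = vv q A := by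
  unfold vv
  rw [Int.natAbs_neg]

theorem lam_neg (q : ℕ) (A : ℤ) : lam q (-A) = lam q A := by
  unfold lam
  rw [Int.natAbs_neg]

theorem add_self2 (a : ZMod 2) : a + a = 0 := CharTwo.add_self_eq_zero a

theorem vv_sq (q : ℕ) {A : ℤ} (hA : A ≠ 0) : vv q (A ^ 2) = 0 := by
  rw [sq, vv_mul q hA hA, add_self2]

theorem lam_sq (p : ℕ) {A : ℤ} (hA : A ≠ 0) : lam p (A ^ 2) = 0 := by
  rw [sq, lam_mul p hA hA, add_self2]

theorem vv_not_dvd {q : ℕ} {A : ℤ} (h : ¬ (q : ℤ) ∣ A) : vv q A = 0 := by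
  unfold vv
  rw [Nat.factorization_eq_zero_of_not_dvd, Nat.cast_zero]
  intro h1
  exact h (Int.natCast_dvd.2 h1)

theorem vv_self {q : ℕ} (hq : q.Prime) : vv q (q : ℤ) = 1 := by
  unfold vv
  rw [Int.natAbs_natCast, hq.factorization_self, Nat.cast_one]

theorem vv_other {q p : ℕ} (hq : q.Prime) (hp : p.Prime) (h : p ≠ q) : vv q (p : ℤ) = 0 := by
  apply vv_not_dvd
  intro h1
  rw [Int.natCast_dvd_natCast, Nat.prime_dvd_prime_iff_eq hq hp] at h1
  exact h h1.symm

theorem lam_prime {p q : ℕ} (hq : q.Prime) : lam p (q : ℤ) = nr p q := by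
  unfold lam
  rw [Int.natAbs_natCast, hq.factorization, Finsupp.sum_single_index]
  · simp
  · simp

theorem lam_self {p : ℕ} (hp : p.Prime) : lam p (p : ℤ) = 0 := by
  rw [lam_prime hp, nr_self]

theorem lam_unit_nat {p : ℕ} [Fact p.Prime] (n : ℕ) (hn : n ≠ 0) (h : ¬ p ∣ n) :
    lam p (n : ℤ) = ch p (n : ℤ) := by
  induction n using Nat.recOnMul with
  | zero => exact absurd rfl hn
  | one =>
    have : ch p ((1 : ℕ) : ℤ) = 0 := by
      have := ch_sq (p := p) 1
      simpa using this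
    rw [this]
    unfold lam
    simp
  | prime q hq => rw [lam_prime hq, ch_nat]
  | mul a b iha ihb =>
    have ha : a ≠ 0 := left_ne_zero_of_mul hn
    have hb : b ≠ 0 := right_ne_zero_of_mul hn
    have ha1 : ¬ p ∣ a := fun h1 => h (h1.mul_right b)
    have hb1 : ¬ p ∣ b := fun h1 => h (h1.mul_left a)
    rw [Nat.cast_mul, lam_mul p (by exact_mod_cast ha) (by exact_mod_cast hb), iha ha ha1,
      ihb hb hb1, ch_mul]
    · rw [Int.cast_natCast]
      intro h1
      exact ha1 ((ZMod.natCast_eq_zero_iff a p).1 h1)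
    · rw [Int.cast_natCast]
      intro h1
      exact hb1 ((ZMod.natCast_eq_zero_iff b p).1 h1)

theorem lam_natAbs (p : ℕ) (A : ℤ) : lam p (A.natAbs : ℤ) = lam p A := by
  unfold lam
  rw [Int.natAbs_natCast]

theorem lam_unit {p : ℕ} [Fact p.Prime] (hp : p % 4 = 1) {A : ℤ} (h : ¬ (p : ℤ) ∣ A) :
    lam p A = ch p A := by
  have h0 : A ≠ 0 := by
    rintro rfl
    exact h (dvd_zero _)
  rw [← lam_natAbs, lam_unit_nat _ (Int.natAbs_ne_zero.2 h0), ch_natAbs hp]
  intro h1
  exact h (Int.natCast_dvd.2 h1)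

/-- `lam` as a sum over any set of primes which contains those of odd exponent -/
theorem lam_eq_sum {p : ℕ} {A : ℤ} {S : Finset ℕ} (h : ∀ q : ℕ, q.Prime → q ∉ S → vv q A = 0) :
    lam p A = ∑ q ∈ S, vv q A * nr p q := by
  classical
  unfold lam vv Finsupp.sum
  have h1 : ∑ q ∈ A.natAbs.factorization.support, (A.natAbs.factorization q : ZMod 2) * nr p q =
      ∑ q ∈ A.natAbs.factorization.support ∪ S, (A.natAbs.factorization q : ZMod 2) * nr p q := by
    refine Finset.sum_subset Finset.subset_union_left fun q _ hq => ?_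
    rw [Finsupp.notMem_support_iff.1 hq]
    simp
  have h2 : ∑ q ∈ S, (A.natAbs.factorization q : ZMod 2) * nr p q =
      ∑ q ∈ A.natAbs.factorization.support ∪ S, (A.natAbs.factorization q : ZMod 2) * nr p q := by
    refine Finset.sum_subset Finset.subset_union_right fun q _ hq => ?_
    by_cases hp : q.Prime
    · have := h q hp hq
      unfold vv at this
      rw [this, zero_mul]
    · rw [Nat.factorization_eq_zero_of_not_prime _ hp]
      simp
  rw [h1, h2]

/-- a positive integer with even exponents is a square -/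
theorem isSquare_of_vv {A : ℤ} (hA : 0 < A) (h : ∀ q : ℕ, q.Prime → vv q A = 0) : IsSquare A := by
  obtain ⟨n, rfl⟩ := Int.eq_ofNat_of_zero_le hA.le
  have hn : n ≠ 0 := by
    rintro rfl
    simp at hA
  have h1 : ∀ q, Even (n.factorization q) := by
    intro q
    by_cases hq : q.Prime
    · have := h q hq
      unfold vv at this
      rw [Int.natAbs_natCast] at this
      exact (ZMod.natCast_eq_zero_iff_even).1 this
    · rw [Nat.factorization_eq_zero_of_not_prime _ hq]
      exact Even.zero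
  have h2 : n = (n.factorization.prod fun q k => q ^ (k / 2)) ^ 2 := by
    conv_lhs => rw [← Nat.prod_factorization_pow_eq_self hn]
    unfold Finsupp.prod
    rw [← Finset.prod_pow]
    refine Finset.prod_congr rfl fun q _ => ?_
    rw [← pow_mul, Nat.div_mul_cancel (h1 q).two_dvd]
  rw [h2]
  push_cast
  exact ⟨_, sq _⟩

end Run7.h843.Desc
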