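import Pool.Agent.Run7.h843.B1

/-!
# The local conditions at the primes dividing `m`
-/

set_option autoImplicit false

namespace Run7.h843.Desc

open Pool.Agent.Y703.CQ (nr)

theorem cast_ne {p : ℕ} {A : ℤ} : (A : ZMod p) ≠ 0 ↔ ¬ (p : ℤ) ∣ A := by
  rw [Ne, ZMod.intCast_zmod_eq_zero_iff_dvd]

theorem unit_of_congr {p : ℕ} [Fact p.Prime] (hp : p % 4 = 1) {A B : ℤ} (h : (A : ZMod p) = B)
    (hB : (B : ZMod p) ≠ 0) : vv p A = 0 ∧ lam p A = ch p B := by
  have hA : (A : ZMod p) ≠ 0 := by rwa [h]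
  exact ⟨vv_not_dvd (cast_ne.1 hA), by rw [lam_unit hp (cast_ne.1 hA), ch_congr h]⟩

theorem scale {p : ℕ} [Fact p.Prime] {B : ℤ} (hB : B ≠ 0) :
    vv p (p * B) = 1 + vv p B ∧ lam p (p * B) = lam p B := by
  have hp : p.Prime := Fact.out
  have hp0 : (p : ℤ) ≠ 0 := by exact_mod_cast hp.ne_zero
  rw [vv_mul p hp0 hB, lam_mul p hp0 hB, vv_self hp, lam_self hp, zero_add]
  exact ⟨rfl, rfl⟩

theorem zmod2_cases (a : ZMod 2) : a = 0 ∨ a = 1 := by
  fin_cases a
  · exact Or.inl rfl
  · exact Or.inr rfl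

theorem triple2 (a : ZMod 2) (h : a + a + a = 0) : a = 0 := by
  rcases zmod2_cases a with rfl | rfl
  · rfl
  · exact absurd h (by decide)

theorem local_rel {p : ℕ} [Fact p.Prime] (hp : p % 4 = 1) {X Z n : ℤ} (hn : ¬ (p : ℤ) ∣ n)
    (hc : IsCoprime X Z) (h1 : X ≠ 0) (h2 : X - 2 * (p * n) * Z ^ 2 ≠ 0)
    (h3 : X + 2 * (p * n) * Z ^ 2 ≠ 0)
    (hv : vv p X + vv p (X - 2 * (p * n) * Z ^ 2) + vv p (X + 2 * (p * n) * Z ^ 2) = 0)
    (hl : lam p X + lam p (X - 2 * (p * n) * Z ^ 2) + lam p (X + 2 * (p * n) * Z ^ 2) = 0) :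
    (lam p (X - 2 * (p * n) * Z ^ 2) + vv p (X - 2 * (p * n) * Z ^ 2) * ch p n +
        vv p (X + 2 * (p * n) * Z ^ 2) * ch p 2 = 0) ∧
      (lam p (X + 2 * (p * n) * Z ^ 2) + vv p (X + 2 * (p * n) * Z ^ 2) * ch p n +
        vv p (X - 2 * (p * n) * Z ^ 2) * ch p 2 = 0) := by
  have hpp : p.Prime := Fact.out
  have hpi : Prime (p : ℤ) := Nat.prime_iff_prime_int.1 hpp
  by_cases hX : (p : ℤ) ∣ X
  · -- `p ∣ X`
    have hZ : ¬ (p : ℤ) ∣ Z := by
      intro hZ
      exact hpi.not_isUnit (hc.isUnit_of_dvd' hX hZ)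
    obtain ⟨X', rfl⟩ := hX
    have e2 : (p : ℤ) * X' - 2 * (p * n) * Z ^ 2 = p * (X' - 2 * n * Z ^ 2) := by ring
    have e3 : (p : ℤ) * X' + 2 * (p * n) * Z ^ 2 = p * (X' + 2 * n * Z ^ 2) := by ring
    rw [e2] at h2 hv hl ⊢
    rw [e3] at h3 hv hl ⊢
    have k1 : X' ≠ 0 := right_ne_zero_of_mul h1
    have k2 : X' - 2 * n * Z ^ 2 ≠ 0 := right_ne_zero_of_mul h2
    have k3 : X' + 2 * n * Z ^ 2 ≠ 0 := right_ne_zero_of_mul h3
    rw [(scale k1).1, (scale k2).1, (scale k3).1] at hv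
    rw [(scale k1).2, (scale k2).2, (scale k3).2] at hl
    rw [(scale k2).1, (scale k2).2, (scale k3).1, (scale k3).2]
    have h2p : ((2 : ℤ) : ZMod p) ≠ 0 := by
      rw [cast_ne]
      intro h
      have := Int.le_of_dvd (by norm_num) h
      have h4 : 1 < p := hpp.one_lt
      omega
    have hnp : ((n : ℤ) : ZMod p) ≠ 0 := cast_ne.2 hn
    have hZp : ((Z ^ 2 : ℤ) : ZMod p) ≠ 0 := by
      rw [Int.cast_pow]
      exact pow_ne_zero 2 (cast_ne.2 hZ)
    have h2n : ((2 * n : ℤ) : ZMod p) ≠ 0 := by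
      rw [Int.cast_mul]
      exact mul_ne_zero h2p hnp
    have h2nZ : ((2 * n * Z ^ 2 : ℤ) : ZMod p) ≠ 0 := by
      rw [Int.cast_mul]
      exact mul_ne_zero h2n hZp
    have c2 : ch p (2 * n * Z ^ 2) = ch p 2 + ch p n := by
      rw [ch_mul h2n hZp, ch_mul h2p hnp, ch_sq, add_zero]
    have h4nZ : ((2 * (2 * n * Z ^ 2) : ℤ) : ZMod p) ≠ 0 := by
      rw [Int.cast_mul]
      exact mul_ne_zero h2p h2nZ
    have c4 : ch p (2 * (2 * n * Z ^ 2)) = ch p n := by
      rw [ch_mul h2p h2nZ, c2, ← add_assoc, add_self2, zero_add]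
    have hneg : ∀ A : ℤ, (A : ZMod p) ≠ 0 → ((-A : ℤ) : ZMod p) ≠ 0 := by
      intro A hA
      rw [Int.cast_neg]
      exact neg_ne_zero.2 hA
    by_cases hX' : ((X' : ℤ) : ZMod p) = 0
    · -- both others are units times `p`
      have u2 := unit_of_congr hp (A := X' - 2 * n * Z ^ 2) (B := -(2 * n * Z ^ 2))
        (by push_cast; rw [hX', zero_sub]) (hneg _ h2nZ)
      have u3 := unit_of_congr hp (A := X' + 2 * n * Z ^ 2) (B := 2 * n * Z ^ 2)
        (by push_cast; rw [hX', zero_add]) h2nZ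
      rw [ch_neg hp] at u2
      rw [u2.1, u2.2, u3.1, u3.2, c2]
      constructor
      · linear_combination add_self2 (ch p 2) + add_self2 (ch p n)
      · linear_combination add_self2 (ch p 2) + add_self2 (ch p n)
    · by_cases hB2 : ((X' - 2 * n * Z ^ 2 : ℤ) : ZMod p) = 0
      · have hX2 : ((X' : ℤ) : ZMod p) = ((2 * n * Z ^ 2 : ℤ) : ZMod p) := by
          rw [Int.cast_sub, sub_eq_zero] at hB2
          exact hB2
        have u1 := unit_of_congr hp hX2 h2nZ
        have u3 := unit_of_congr hp (A := X' + 2 * n * Z ^ 2) (B := 2 * (2 * n * Z ^ 2))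
          (by rw [Int.cast_add, hX2, ← Int.cast_add]; congr 1; ring) h4nZ
        rw [u1.1, u3.1] at hv
        rw [u1.2, u3.2, c2, c4] at hl
        rw [u3.1, u3.2, c4]
        have hv2 : 1 + vv p (X' - 2 * n * Z ^ 2) = 0 := by
          rcases zmod2_cases (vv p (X' - 2 * n * Z ^ 2)) with h | h
          · rw [h] at hv
            exact absurd hv (by decide)
          · rw [h]
            decide
        have hl2 : lam p (X' - 2 * n * Z ^ 2) = ch p 2 := by
          linear_combination hl - add_self2 (ch p n) - add_self2 (ch p 2)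
        rw [hv2, hl2]
        constructor
        · linear_combination add_self2 (ch p 2)
        · linear_combination add_self2 (ch p n)
      · by_cases hB3 : ((X' + 2 * n * Z ^ 2 : ℤ) : ZMod p) = 0
        · have hX3 : ((X' : ℤ) : ZMod p) = ((-(2 * n * Z ^ 2) : ℤ) : ZMod p) := by
            rw [Int.cast_add] at hB3
            rw [Int.cast_neg]
            exact eq_neg_of_add_eq_zero_left hB3
          have u1 := unit_of_congr hp hX3 (hneg _ h2nZ)
          rw [ch_neg hp] at u1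
          have u2 := unit_of_congr hp (A := X' - 2 * n * Z ^ 2) (B := -(2 * (2 * n * Z ^ 2)))
            (by rw [Int.cast_sub, hX3, ← Int.cast_sub]; congr 1; ring) (hneg _ h4nZ)
          rw [ch_neg hp] at u2
          rw [u1.1, u2.1] at hv
          rw [u1.2, u2.2, c2, c4] at hl
          rw [u2.1, u2.2, c4]
          have hv3 : 1 + vv p (X' + 2 * n * Z ^ 2) = 0 := by
            rcases zmod2_cases (vv p (X' + 2 * n * Z ^ 2)) with h | h
            · rw [h] at hv
              exact absurd hv (by decide)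
            · rw [h]
              decide
          have hl3 : lam p (X' + 2 * n * Z ^ 2) = ch p 2 := by
            linear_combination hl - add_self2 (ch p n) - add_self2 (ch p 2)
          rw [hv3, hl3]
          constructor
          · linear_combination add_self2 (ch p n)
          · linear_combination add_self2 (ch p 2)
        · exfalso
          rw [(unit_of_congr hp rfl hX').1, (unit_of_congr hp rfl hB2).1,
            (unit_of_congr hp rfl hB3).1] at hv
          exact absurd hv (by decide)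
  · have hXp : ((X : ℤ) : ZMod p) ≠ 0 := cast_ne.2 hX
    have u1 := unit_of_congr hp (A := X) (B := X) rfl hXp
    have u2 := unit_of_congr hp (A := X - 2 * (p * n) * Z ^ 2) (B := X) (by push_cast; simp) hXp
    have u3 := unit_of_congr hp (A := X + 2 * (p * n) * Z ^ 2) (B := X) (by push_cast; simp) hXp
    rw [u1.2, u2.2, u3.2] at hl
    rw [u2.1, u2.2, u3.1, u3.2, triple2 _ hl]
    constructor <;> ring

end Run7.h843.Desc
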