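import Pool.Agent.Run7.h843.B2

/-!
# The global part of the descent on `y² = x³ - 4 m² x`
-/

set_option autoImplicit false

namespace Run7.h843.Desc

open Pool.Agent.Y703.CQ (nr)

/-- the symbol of `2` modulo `p`, for `p = 1` modulo `4` -/
def f2 (p : ℕ) : ZMod 2 := if p % 8 = 5 then 1 else 0

/-- the matrix (Laplacian of the symbols plus the symbols of `2` on the diagonal) is nonsingular -/
def Nsg (m : ℕ) : Prop := ∀ x : ℕ → ZMod 2,
  (∀ p ∈ m.primeFactors, ∑ q ∈ m.primeFactors, nr p q * (x q + x p) + f2 p * x p = 0) →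
    ∀ p ∈ m.primeFactors, x p = 0

theorem ch_two {p : ℕ} [Fact p.Prime] (hp : p % 4 = 1) : ch p 2 = f2 p := by
  classical
  have h2 : p ≠ 2 := by
    rintro rfl
    omega
  have h := ZMod.exists_sq_eq_two_iff (p := p) h2
  unfold ch f2
  rw [Int.cast_ofNat]
  by_cases h8 : p % 8 = 5
  · rw [if_pos h8, if_neg]
    rw [h]
    omega
  · rw [if_neg h8, if_pos]
    rw [h]
    left
    omega

theorem nr_two {p : ℕ} [Fact p.Prime] (hp : p % 4 = 1) : nr p 2 = f2 p := by
  rw [← ch_nat, ← ch_two hp]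
  rfl

theorem vv_sqfree {m q : ℕ} (hm : Squarefree m) (hq : q ∈ m.primeFactors) : vv q (m : ℤ) = 1 := by
  unfold vv
  rw [Int.natAbs_natCast]
  have h1 := hm.natFactorization_le_one q
  have h2 := (Nat.prime_of_mem_primeFactors hq).factorization_pos_of_dvd hm.ne_zero
    (Nat.dvd_of_mem_primeFactors hq)
  have h3 : m.factorization q = 1 := by omega
  rw [h3, Nat.cast_one]

theorem vv_not_mem {m q : ℕ} (hq : q ∉ m.primeFactors) : vv q (m : ℤ) = 0 := by
  unfold vv
  rw [Int.natAbs_natCast]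
  have h3 : m.factorization q = 0 := by
    rw [← Finsupp.notMem_support_iff]
    exact hq
  rw [h3, Nat.cast_zero]

/-- the relations at the primes dividing `m` -/
theorem rels {m : ℕ} (hm : Squarefree m) (h1 : ∀ p ∈ m.primeFactors, p % 4 = 1)
    {X Z Y : ℤ} (hc : IsCoprime X Z)
    (hX : X ≠ 0) (h2 : X - 2 * m * Z ^ 2 ≠ 0) (h3 : X + 2 * m * Z ^ 2 ≠ 0)
    (hY : X * (X - 2 * m * Z ^ 2) * (X + 2 * m * Z ^ 2) = Y ^ 2) :
    (∀ q : ℕ, q.Prime → q ≠ 2 → q ∉ m.primeFactors → vv q X = 0 ∧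
      vv q (X - 2 * m * Z ^ 2) = 0 ∧ vv q (X + 2 * m * Z ^ 2) = 0) ∧
    (∀ q : ℕ, vv q X = vv q (X - 2 * m * Z ^ 2) + vv q (X + 2 * m * Z ^ 2)) ∧
    (∀ p ∈ m.primeFactors,
      vv 2 (X - 2 * m * Z ^ 2) * f2 p + ∑ q ∈ m.primeFactors, vv q (X - 2 * m * Z ^ 2) * nr p q +
        vv p (X - 2 * m * Z ^ 2) * ∑ q ∈ m.primeFactors, nr p q +
        vv p (X + 2 * m * Z ^ 2) * f2 p = 0) ∧
    (∀ p ∈ m.primeFactors,
      vv 2 (X + 2 * m * Z ^ 2) * f2 p + ∑ q ∈ m.primeFactors, vv q (X + 2 * m * Z ^ 2) * nr p q +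
        vv p (X + 2 * m * Z ^ 2) * ∑ q ∈ m.primeFactors, nr p q +
        vv p (X - 2 * m * Z ^ 2) * f2 p = 0) := by
  have hm0 : (m : ℤ) ≠ 0 := by exact_mod_cast hm.ne_zero
  have hY0 : Y ≠ 0 := by
    rintro rfl
    have := mul_ne_zero (mul_ne_zero hX h2) h3
    rw [hY] at this
    exact this (by norm_num)
  have hvs : ∀ q : ℕ, vv q X + vv q (X - 2 * m * Z ^ 2) + vv q (X + 2 * m * Z ^ 2) = 0 := by
    intro q
    have := vv_sq q hY0
    rwa [← hY, vv_mul q (mul_ne_zero hX h2) h3, vv_mul q hX h2] at this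
  have hls : ∀ p : ℕ, lam p X + lam p (X - 2 * m * Z ^ 2) + lam p (X + 2 * m * Z ^ 2) = 0 := by
    intro q
    have := lam_sq q hY0
    rwa [← hY, lam_mul q (mul_ne_zero hX h2) h3, lam_mul q hX h2] at this
  have hout : ∀ q : ℕ, q.Prime → q ≠ 2 → q ∉ m.primeFactors → vv q X = 0 ∧
      vv q (X - 2 * m * Z ^ 2) = 0 ∧ vv q (X + 2 * m * Z ^ 2) = 0 := by
    intro q hq hq2 hqm
    have hqi : Prime (q : ℤ) := Nat.prime_iff_prime_int.1 hq
    have q2 : ¬ (q : ℤ) ∣ 2 := by
      intro h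
      have h4 : q ∣ 2 := by exact_mod_cast h
      rw [Nat.prime_dvd_prime_iff_eq hq Nat.prime_two] at h4
      exact hq2 h4
    have qm : ¬ (q : ℤ) ∣ m := by
      intro h
      have h4 : q ∣ m := by exact_mod_cast h
      exact hqm (Nat.mem_primeFactors.2 ⟨hq, h4, hm.ne_zero⟩)
    have hZ : ∀ k : ℤ, (q : ℤ) ∣ k * m * Z ^ 2 → ¬ (q : ℤ) ∣ k → (q : ℤ) ∣ X → False := by
      intro k h hk hXd
      rcases hqi.dvd_or_dvd h with h | h
      · rcases hqi.dvd_or_dvd h with h | h
        · exact hk h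
        · exact qm h
      · exact hqi.not_isUnit (hc.isUnit_of_dvd' hXd (hqi.dvd_of_dvd_pow h))
    have q4 : ¬ (q : ℤ) ∣ 4 := by
      intro h
      have h' : (q : ℤ) ∣ 2 * 2 := by
        norm_num
        exact h
      rcases hqi.dvd_or_dvd h' with h | h <;> exact q2 h
    have c12 : (q : ℤ) ∣ X → ¬ (q : ℤ) ∣ X - 2 * m * Z ^ 2 := by
      intro a b
      refine hZ 2 ?_ q2 a
      have := dvd_sub a b
      rwa [sub_sub_cancel] at this
    have c13 : (q : ℤ) ∣ X → ¬ (q : ℤ) ∣ X + 2 * m * Z ^ 2 := by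
      intro a b
      refine hZ 2 ?_ q2 a
      have := dvd_sub b a
      rwa [add_sub_cancel_left] at this
    have c23 : (q : ℤ) ∣ X - 2 * m * Z ^ 2 → ¬ (q : ℤ) ∣ X + 2 * m * Z ^ 2 := by
      intro a b
      have h4 : (q : ℤ) ∣ 4 * m * Z ^ 2 := by
        have := dvd_sub b a
        have e : X + 2 * m * Z ^ 2 - (X - 2 * m * Z ^ 2) = 4 * m * Z ^ 2 := by ring
        rwa [e] at this
      have h5 : (q : ℤ) ∣ X := by
        have h6 : (q : ℤ) ∣ 2 * X := by
          have := dvd_add a b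
          have e : X - 2 * m * Z ^ 2 + (X + 2 * m * Z ^ 2) = 2 * X := by ring
          rwa [e] at this
        rcases hqi.dvd_or_dvd h6 with h | h
        · exact absurd h q2
        · exact h
      exact hZ 4 h4 q4 h5
    have hs := hvs q
    by_cases a1 : (q : ℤ) ∣ X
    · have b2 := vv_not_dvd (c12 a1)
      have b3 := vv_not_dvd (c13 a1)
      rw [b2, b3, add_zero, add_zero] at hs
      exact ⟨hs, b2, b3⟩
    · have b1 := vv_not_dvd a1
      by_cases a2 : (q : ℤ) ∣ X - 2 * m * Z ^ 2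
      · have b3 := vv_not_dvd (c23 a2)
        rw [b1, b3, add_zero, zero_add] at hs
        exact ⟨b1, hs, b3⟩
      · have b2 := vv_not_dvd a2
        rw [b1, b2, zero_add, zero_add] at hs
        exact ⟨b1, b2, hs⟩
  refine ⟨hout, fun q => ?_, ?_⟩
  · have := hvs q
    rcases zmod2_cases (vv q X) with a | a <;>
      rcases zmod2_cases (vv q (X - 2 * m * Z ^ 2)) with b | b <;>
      rcases zmod2_cases (vv q (X + 2 * m * Z ^ 2)) with c | c <;>
      rw [a, b, c] at this ⊢ <;> revert this <;> decide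
  · have h2m : 2 ∉ m.primeFactors := by
      intro h
      have := h1 2 h
      omega
    have key : ∀ p ∈ m.primeFactors,
        (lam p (X - 2 * m * Z ^ 2) + vv p (X - 2 * m * Z ^ 2) * ∑ q ∈ m.primeFactors, nr p q +
          vv p (X + 2 * m * Z ^ 2) * f2 p = 0) ∧
        (lam p (X + 2 * m * Z ^ 2) + vv p (X + 2 * m * Z ^ 2) * ∑ q ∈ m.primeFactors, nr p q +
          vv p (X - 2 * m * Z ^ 2) * f2 p = 0) := by
      intro p hp
      have hpp := Nat.prime_of_mem_primeFactors hp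
      have : Fact p.Prime := ⟨hpp⟩
      obtain ⟨n, hn⟩ := Nat.dvd_of_mem_primeFactors hp
      have hnp : ¬ (p : ℤ) ∣ (n : ℤ) := by
        intro h
        have h4 : p ∣ n := by exact_mod_cast h
        have h5 : p * p ∣ m := by
          rw [hn]
          exact mul_dvd_mul_left p h4
        exact hpp.not_isUnit (hm p h5)
      have hn0 : (n : ℤ) ≠ 0 := by
        intro h
        rw [h] at hnp
        exact hnp (dvd_zero _)
      have hmn : (m : ℤ) = (p : ℤ) * (n : ℤ) := by
        rw [hn]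
        push_cast
        ring
      have hp4 := h1 p hp
      have e := local_rel (p := p) hp4 (X := X) (Z := Z) (n := n) hnp hc hX
        (by rw [← hmn]; exact h2) (by rw [← hmn]; exact h3) (by rw [← hmn]; exact hvs p)
        (by rw [← hmn]; exact hls p)
      rw [← hmn, ch_two hp4] at e
      have hch : ch p (n : ℤ) = ∑ q ∈ m.primeFactors, nr p q := by
        rw [← lam_unit hp4 hnp]
        have h5 : lam p (m : ℤ) = lam p (n : ℤ) := by
          rw [hmn]
          exact (scale hn0).2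
        rw [← h5, lam_eq_sum (S := m.primeFactors) fun q _ hq => vv_not_mem hq]
        refine Finset.sum_congr rfl fun q hq => ?_
        rw [vv_sqfree hm hq, one_mul]
      rw [hch] at e
      exact e
    have hlam : ∀ p ∈ m.primeFactors, ∀ A : ℤ, (∀ q : ℕ, q.Prime → q ≠ 2 → q ∉ m.primeFactors →
        vv q A = 0) → lam p A = vv 2 A * f2 p + ∑ q ∈ m.primeFactors, vv q A * nr p q := by
      intro p hp A hA
      have : Fact p.Prime := ⟨Nat.prime_of_mem_primeFactors hp⟩
      rw [lam_eq_sum (S := insert 2 m.primeFactors), Finset.sum_insert h2m, nr_two (h1 p hp)]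
      intro q hq hqs
      rw [Finset.mem_insert, not_or] at hqs
      exact hA q hq hqs.1 hqs.2
    constructor
    · intro p hp
      have := (key p hp).1
      rwa [hlam p hp _ fun q a b c => (hout q a b c).2.1] at this
    · intro p hp
      have := (key p hp).2
      rwa [hlam p hp _ fun q a b c => (hout q a b c).2.2] at this

/-- the exponents of `X - 2 m Z²` and `X + 2 m Z²` -/
theorem exps {m : ℕ} (hm : Squarefree m) (h1 : ∀ p ∈ m.primeFactors, p % 4 = 1) (hk : Nsg m)
    {X Z Y : ℤ} (hc : IsCoprime X Z)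
    (hX : X ≠ 0) (h2 : X - 2 * m * Z ^ 2 ≠ 0) (h3 : X + 2 * m * Z ^ 2 ≠ 0)
    (hY : X * (X - 2 * m * Z ^ 2) * (X + 2 * m * Z ^ 2) = Y ^ 2) :
    ∀ p ∈ m.primeFactors, vv p (X - 2 * m * Z ^ 2) = vv 2 (X + 2 * m * Z ^ 2) ∧
      vv p (X + 2 * m * Z ^ 2) = vv 2 (X - 2 * m * Z ^ 2) := by
  obtain ⟨-, -, r2, r3⟩ := rels hm h1 hc hX h2 h3 hY
  set al : ℕ → ZMod 2 := fun q => vv q (X - 2 * m * Z ^ 2) with hal
  set be : ℕ → ZMod 2 := fun q => vv q (X + 2 * m * Z ^ 2) with hbe
  have s2 : ∀ p ∈ m.primeFactors,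
      al 2 * f2 p + ∑ q ∈ m.primeFactors, al q * nr p q + al p * ∑ q ∈ m.primeFactors, nr p q +
        be p * f2 p = 0 := r2
  have s3 : ∀ p ∈ m.primeFactors,
      be 2 * f2 p + ∑ q ∈ m.primeFactors, be q * nr p q + be p * ∑ q ∈ m.primeFactors, nr p q +
        al p * f2 p = 0 := r3
  have a1 : ∀ p ∈ m.primeFactors, al p + be p + al 2 + be 2 = 0 := by
    refine hk (fun p => al p + be p + al 2 + be 2) fun p hp => ?_
    have e : ∑ q ∈ m.primeFactors, nr p q * ((al q + be q + al 2 + be 2) +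
        (al p + be p + al 2 + be 2)) = ∑ q ∈ m.primeFactors, al q * nr p q +
        al p * ∑ q ∈ m.primeFactors, nr p q + (∑ q ∈ m.primeFactors, be q * nr p q +
        be p * ∑ q ∈ m.primeFactors, nr p q) := by
      rw [Finset.mul_sum, Finset.mul_sum, ← Finset.sum_add_distrib, ← Finset.sum_add_distrib,
        ← Finset.sum_add_distrib]
      refine Finset.sum_congr rfl fun q _ => ?_
      linear_combination nr p q * (add_self2 (al 2) + add_self2 (be 2))
    rw [e]
    linear_combination s2 p hp + s3 p hp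
  have a2 : ∀ p ∈ m.primeFactors, al p + be 2 = 0 := by
    refine hk (fun p => al p + be 2) fun p hp => ?_
    have e : ∑ q ∈ m.primeFactors, nr p q * ((al q + be 2) + (al p + be 2)) =
        ∑ q ∈ m.primeFactors, al q * nr p q + al p * ∑ q ∈ m.primeFactors, nr p q := by
      rw [Finset.mul_sum, ← Finset.sum_add_distrib]
      refine Finset.sum_congr rfl fun q _ => ?_
      linear_combination nr p q * add_self2 (be 2)
    rw [e]
    linear_combination s2 p hp - f2 p * a1 p hp + f2 p * add_self2 (al p) + f2 p * add_self2 (be 2)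
  have c2 : ∀ a b : ZMod 2, a + b = 0 → a = b := by
    intro a b hab
    rcases zmod2_cases a with rfl | rfl <;> rcases zmod2_cases b with rfl | rfl <;>
      revert hab <;> decide
  intro p hp
  refine ⟨c2 _ _ (a2 p hp), c2 _ _ ?_⟩
  change be p + al 2 = 0
  linear_combination a1 p hp - a2 p hp

end Run7.h843.Desc
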