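import Pool.Agent.Run7.h843.B3

/-!
# The descent on `y² = x³ - 4 m² x` over `ℚ`: there is no rational point with `y ≠ 0`
-/

set_option autoImplicit false

namespace Run7.h843.Desc

open Pool.Agent.Y703.CQ (nr)

/-- integral representation of a rational point -/
theorem rep (m : ℕ) (hm : m ≠ 0) {x y : ℚ} (hy : y ≠ 0) (h : y ^ 2 = x ^ 3 - 4 * m ^ 2 * x) :
    ∃ X Z Y : ℤ, Z ≠ 0 ∧ x = X / (Z : ℚ) ^ 2 ∧ IsCoprime X Z ∧ X ≠ 0 ∧
      X - 2 * m * Z ^ 2 ≠ 0 ∧ X + 2 * m * Z ^ 2 ≠ 0 ∧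
      X * (X - 2 * m * Z ^ 2) * (X + 2 * m * Z ^ 2) = Y ^ 2 := by
  set a : ℤ := x.num with ha
  set b : ℤ := (x.den : ℤ) with hb
  have hb0 : b ≠ 0 := by
    rw [hb]
    exact_mod_cast x.den_nz
  have hbq : (b : ℚ) ≠ 0 := by exact_mod_cast hb0
  have hx : x = a / b := by
    rw [ha, hb, Int.cast_natCast]
    exact (Rat.num_div_den x).symm
  have hco : IsCoprime a b := by
    rw [Int.isCoprime_iff_nat_coprime, hb, Int.natAbs_natCast]
    exact x.reduced
  have hsq : IsSquare ((b * (a * (a - 2 * m * b) * (a + 2 * m * b)) : ℤ) : ℚ) := by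
    refine ⟨y * b ^ 2, ?_⟩
    have e : (y * b ^ 2) * (y * b ^ 2) = y ^ 2 * (b : ℚ) ^ 4 := by ring
    rw [e, h, hx]
    push_cast
    field_simp
    ring
  rw [Rat.isSquare_intCast_iff] at hsq
  obtain ⟨W, hW⟩ := hsq
  have hco2 : IsCoprime b (a * (a - 2 * m * b) * (a + 2 * m * b)) := by
    have h1 : IsCoprime b a := hco.symm
    have h2 : IsCoprime b (a - 2 * m * b) := by
      have := h1.add_mul_left_right (-(2 * m : ℤ))
      have e : a + b * (-(2 * m : ℤ)) = a - 2 * m * b := by ring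
      rwa [e] at this
    have h3 : IsCoprime b (a + 2 * m * b) := by
      have := h1.add_mul_left_right (2 * m : ℤ)
      have e : a + b * (2 * m : ℤ) = a + 2 * m * b := by ring
      rwa [e] at this
    exact (h1.mul_right h2).mul_right h3
  obtain ⟨Z, hZ⟩ := Int.sq_of_isCoprime hco2 (by rw [hW, sq])
  have hbpos : 0 < b := by
    rw [hb]
    exact_mod_cast x.den_pos
  have hbZ : b = Z ^ 2 := by
    rcases hZ with hZ | hZ
    · exact hZ
    · have := sq_nonneg Z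
      omega
  have hZ0 : Z ≠ 0 := by
    rintro rfl
    rw [hbZ] at hb0
    simp at hb0
  have hZq : (Z : ℚ) ≠ 0 := by exact_mod_cast hZ0
  have hxZ : x = a / (Z : ℚ) ^ 2 := by
    rw [hx, hbZ]
    push_cast
    rfl
  have hprod : ((a * (a - 2 * m * Z ^ 2) * (a + 2 * m * Z ^ 2) : ℤ) : ℚ) = (y * Z ^ 3) ^ 2 := by
    have e : (y * (Z : ℚ) ^ 3) ^ 2 = y ^ 2 * (Z : ℚ) ^ 6 := by ring
    rw [e, h, hxZ]
    push_cast
    field_simp
    ring
  have hne : a * (a - 2 * m * Z ^ 2) * (a + 2 * m * Z ^ 2) ≠ 0 := by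
    intro h0
    rw [h0] at hprod
    have : (y * (Z : ℚ) ^ 3) ^ 2 ≠ 0 := pow_ne_zero 2 (mul_ne_zero hy (pow_ne_zero 3 hZq))
    exact this (by rw [← hprod]; simp)
  have hs : IsSquare (a * (a - 2 * m * Z ^ 2) * (a + 2 * m * Z ^ 2)) := by
    rw [← Rat.isSquare_intCast_iff, hprod]
    exact ⟨_, sq _⟩
  obtain ⟨Y, hY⟩ := hs
  refine ⟨a, Z, Y, hZ0, hxZ, ?_, left_ne_zero_of_mul (left_ne_zero_of_mul hne),
    right_ne_zero_of_mul (left_ne_zero_of_mul hne), right_ne_zero_of_mul hne, by rw [hY, sq]⟩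
  rw [hbZ] at hco
  exact (IsCoprime.pow_right_iff (by norm_num)).1 hco

theorem isSquare_div {X Z : ℤ} (hZ : Z ≠ 0) : IsSquare ((X : ℚ) / (Z : ℚ) ^ 2) ↔ IsSquare X := by
  have hZq : (Z : ℚ) ≠ 0 := by exact_mod_cast hZ
  rw [← Rat.isSquare_intCast_iff]
  constructor
  · rintro ⟨r, hr⟩
    refine ⟨r * Z, ?_⟩
    have : (X : ℚ) = X / (Z : ℚ) ^ 2 * (Z : ℚ) ^ 2 := by field_simp
    rw [this, hr]
    ring
  · rintro ⟨r, hr⟩
    refine ⟨r / Z, ?_⟩
    rw [hr]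
    field_simp

theorem cases2 {m : ℕ} (hm : Squarefree m) (h2m : 2 ∉ m.primeFactors) {A : ℤ} (hA : 0 < A)
    (e : ZMod 2) (h : ∀ q : ℕ, q.Prime → q ≠ 2 → q ∉ m.primeFactors → vv q A = 0)
    (h2 : vv 2 A = e) (hq : ∀ q ∈ m.primeFactors, vv q A = e) :
    IsSquare A ∨ IsSquare (2 * m * A) := by
  have hm0 : (0 : ℤ) < m := by exact_mod_cast Nat.pos_of_ne_zero hm.ne_zero
  rcases zmod2_cases e with rfl | rfl
  · left
    refine isSquare_of_vv hA fun q hqp => ?_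
    by_cases a : q = 2
    · rw [a]
      exact h2
    · by_cases b : q ∈ m.primeFactors
      · exact hq q b
      · exact h q hqp a b
  · right
    refine isSquare_of_vv (by positivity) fun q hqp => ?_
    rw [vv_mul q (by positivity) hA.ne', vv_mul q (by norm_num) hm0.ne']
    by_cases a : q = 2
    · rw [a, h2, vv_not_mem h2m]
      have : vv 2 (2 : ℤ) = 1 := vv_self Nat.prime_two
      rw [this]
      decide
    · have c : vv q (2 : ℤ) = 0 := vv_other hqp Nat.prime_two (Ne.symm a)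
      by_cases b : q ∈ m.primeFactors
      · rw [c, vv_sqfree hm b, hq q b]
        decide
      · rw [c, vv_not_mem b, h q hqp a b]
        decide

theorem sqs {m : ℕ} (hm : Squarefree m) (h1 : ∀ p ∈ m.primeFactors, p % 4 = 1) (hk : Nsg m)
    {x y : ℚ} (hy : y ≠ 0) (h : y ^ 2 = x ^ 3 - 4 * m ^ 2 * x) (hx : 0 < x) :
    (IsSquare x ∨ IsSquare (2 * m * x)) ∧
      (IsSquare x → IsSquare (x - 2 * m) ∨ IsSquare (2 * m * (x - 2 * m))) := by
  have h2m : 2 ∉ m.primeFactors := by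
    intro h
    have := h1 2 h
    omega
  obtain ⟨X, Z, Y, hZ, hxX, hc, hX, h2, h3, hY⟩ := rep m hm.ne_zero hy h
  have hZq : (Z : ℚ) ≠ 0 := by exact_mod_cast hZ
  have hm0 : (0 : ℤ) < m := by exact_mod_cast Nat.pos_of_ne_zero hm.ne_zero
  have hZ2 : 0 < Z ^ 2 := by positivity
  have hXpos : 0 < X := by
    have h4 : (0 : ℚ) < X := by
      have h5 : (0 : ℚ) < (Z : ℚ) ^ 2 := by positivity
      rw [hxX] at hx
      exact (div_pos_iff_of_pos_right h5).1 hx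
    exact_mod_cast h4
  have hA3 : 0 < X + 2 * m * Z ^ 2 := by positivity
  have hA2 : 0 < X - 2 * m * Z ^ 2 := by
    have h5 : 0 < Y ^ 2 := by
      have : Y ≠ 0 := by
        rintro rfl
        have := mul_ne_zero (mul_ne_zero hX h2) h3
        rw [hY] at this
        exact this (by norm_num)
      positivity
    rw [← hY] at h5
    exact (mul_pos_iff_of_pos_left hXpos).1 ((mul_pos_iff_of_pos_right hA3).1 h5)
  obtain ⟨hout, hsum, -, -⟩ := rels hm h1 hc hX h2 h3 hY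
  have hex := exps hm h1 hk hc hX h2 h3 hY
  have e1 : 2 * (m : ℚ) * x = ((2 * m * X : ℤ) : ℚ) / (Z : ℚ) ^ 2 := by
    rw [hxX]
    push_cast
    ring
  have e2 : x - 2 * m = ((X - 2 * m * Z ^ 2 : ℤ) : ℚ) / (Z : ℚ) ^ 2 := by
    rw [hxX]
    push_cast
    field_simp
  have e3 : 2 * (m : ℚ) * (x - 2 * m) = ((2 * m * (X - 2 * m * Z ^ 2) : ℤ) : ℚ) / (Z : ℚ) ^ 2 := by
    rw [e2]
    push_cast
    ring
  constructor
  · rw [e1, hxX, isSquare_div hZ, isSquare_div hZ]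
    refine cases2 hm h2m hXpos (vv 2 X) (fun q a b c => (hout q a b c).1) rfl fun q hq => ?_
    rw [hsum q, hsum 2, (hex q hq).1, (hex q hq).2, add_comm]
  · intro hsx
    rw [hxX, isSquare_div hZ] at hsx
    rw [e3, e2, isSquare_div hZ, isSquare_div hZ]
    have hv : ∀ q : ℕ, vv q (X - 2 * m * Z ^ 2) + vv q (X + 2 * m * Z ^ 2) = 0 := by
      intro q
      rw [← hsum q]
      obtain ⟨r, hr⟩ := hsx
      have hr0 : r ≠ 0 := by
        rintro rfl
        exact hX (by rw [hr]; ring)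
      rw [hr, ← sq]
      exact vv_sq q hr0
    refine cases2 hm h2m hA2 (vv 2 (X - 2 * m * Z ^ 2)) (fun q a b c => (hout q a b c).2.1) rfl
      fun q hq => ?_
    have h5 := hv q
    rw [(hex q hq).2] at h5
    have h6 := add_self2 (vv 2 (X - 2 * m * Z ^ 2))
    linear_combination h5 - h6

/-- doubling of the abscissa -/
noncomputable def dbl (m : ℚ) (x : ℚ) : ℚ := (x ^ 2 + 4 * m ^ 2) ^ 2 / (4 * (x ^ 3 - 4 * m ^ 2 * x))

/-- the abscissae of the rational points with `y ≠ 0` -/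
def XS (m : ℚ) : Set ℚ := {x | ∃ y : ℚ, y ≠ 0 ∧ y ^ 2 = x ^ 3 - 4 * m ^ 2 * x}

theorem XS_ne {m x : ℚ} (hx : x ∈ XS m) : x ≠ 0 ∧ x - 2 * m ≠ 0 ∧ x + 2 * m ≠ 0 := by
  obtain ⟨y, hy, h⟩ := hx
  have h0 : x * (x - 2 * m) * (x + 2 * m) ≠ 0 := by
    have e : x * (x - 2 * m) * (x + 2 * m) = y ^ 2 := by
      rw [h]
      ring
    rw [e]
    exact pow_ne_zero 2 hy
  exact ⟨left_ne_zero_of_mul (left_ne_zero_of_mul h0), right_ne_zero_of_mul (left_ne_zero_of_mul h0),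
    right_ne_zero_of_mul h0⟩

theorem cub_eq (m x : ℚ) : x ^ 3 - 4 * m ^ 2 * x = x * (x - 2 * m) * (x + 2 * m) := by ring

/-- translation by `(0, 0)` -/
theorem trans0 {m x : ℚ} (hm : m ≠ 0) (hx : x ∈ XS m) :
    -(4 * m ^ 2) / x ∈ XS m ∧ dbl m (-(4 * m ^ 2) / x) = dbl m x := by
  obtain ⟨h0, h1, h2⟩ := XS_ne hx
  obtain ⟨y, hy, h⟩ := hx
  constructor
  · refine ⟨4 * m ^ 2 * y / x ^ 2, by positivity, ?_⟩
    rw [div_pow, mul_pow, h]
    field_simp
    ring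
  · unfold dbl
    have h3 : (x ^ 3 - 4 * m ^ 2 * x) ≠ 0 := by
      rw [cub_eq]
      exact mul_ne_zero (mul_ne_zero h0 h1) h2
    have h4 : (-(4 * m ^ 2) / x) ^ 3 - 4 * m ^ 2 * (-(4 * m ^ 2) / x) =
        16 * m ^ 4 * (x ^ 3 - 4 * m ^ 2 * x) / x ^ 4 := by
      field_simp
      ring
    rw [h4]
    field_simp
    ring

/-- translation by `(2 m, 0)` -/
theorem trans1 {m x : ℚ} (hm : m ≠ 0) (hx : x ∈ XS m) :
    2 * m * (x + 2 * m) / (x - 2 * m) ∈ XS m ∧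
      dbl m (2 * m * (x + 2 * m) / (x - 2 * m)) = dbl m x := by
  obtain ⟨h0, h1, h2⟩ := XS_ne hx
  obtain ⟨y, hy, h⟩ := hx
  have h4 : (2 * m * (x + 2 * m) / (x - 2 * m)) ^ 3 -
      4 * m ^ 2 * (2 * m * (x + 2 * m) / (x - 2 * m)) =
        64 * m ^ 4 * (x * (x - 2 * m) * (x + 2 * m)) / (x - 2 * m) ^ 4 := by
    field_simp
    ring
  constructor
  · refine ⟨8 * m ^ 2 * y / (x - 2 * m) ^ 2, by positivity, ?_⟩
    rw [h4, ← cub_eq, ← h]
    field_simp
    ring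
  · unfold dbl
    rw [h4, cub_eq]
    field_simp
    ring

/-- halving -/
theorem half {m x r s t : ℚ} (hm : m ≠ 0) (hr : x = r ^ 2) (hs : x - 2 * m = s ^ 2)
    (ht : x + 2 * m = t ^ 2) (hx : x ∈ XS m) : ∃ x' ∈ XS m, dbl m x' = x := by
  have hrs : r + s ≠ 0 := by
    intro h
    have h1 : r = -s := by linear_combination h
    rw [hr, h1] at hs
    exact hm (by linear_combination -(1 / 2) * hs)
  have hrt : r + t ≠ 0 := by
    intro h
    have h1 : r = -t := by linear_combination h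
    rw [hr, h1] at ht
    exact hm (by linear_combination (1 / 2) * ht)
  have hst : s + t ≠ 0 := by
    intro h
    have h1 : s = -t := by linear_combination h
    rw [h1] at hs
    exact hm (by linear_combination (1 / 4) * (ht - hs))
  have e1 : 2 * m = r ^ 2 - s ^ 2 := by linear_combination hr - hs
  have e2 : t ^ 2 = 2 * r ^ 2 - s ^ 2 := by linear_combination (2 : ℚ) * hr - hs - ht
  have e3 : 4 * m ^ 2 = (r ^ 2 - s ^ 2) * (t ^ 2 - r ^ 2) := by
    rw [e2]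
    linear_combination (2 * m + (r ^ 2 - s ^ 2)) * e1
  have e4 : ((r + s) * (r + t)) ^ 3 - 4 * m ^ 2 * ((r + s) * (r + t)) =
      ((r + s) * (s + t) * (r + t)) ^ 2 := by
    rw [e3]
    linear_combination (-(r + s) ^ 2 * (r + t) ^ 2) * e2
  refine ⟨(r + s) * (r + t), ⟨(r + s) * (s + t) * (r + t), ?_, e4.symm⟩, ?_⟩
  · exact mul_ne_zero (mul_ne_zero hrs hst) hrt
  · unfold dbl
    have e5 : ((r + s) * (r + t)) ^ 2 + 4 * m ^ 2 = 2 * r * ((r + s) * (s + t) * (r + t)) := by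
      rw [e3]
      ring
    rw [e4, e5, hr]
    field_simp
    ring

end Run7.h843.Desc
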