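import Pool.Agent.Run7.h843.B4

/-!
# The two-adic part: `y² = x³ - 4 m² x` has no rational point with `y ≠ 0`
-/

set_option autoImplicit false

namespace Run7.h843.Desc

theorem mod4 : ∀ m : ZMod 4, 2 * m = 2 → ∀ U W : ZMod 4, ∀ R D : ZMod 4,
    U ^ 2 + W ^ 2 = m * R ^ 2 → W ^ 2 - U ^ 2 = 2 * m ^ 2 * D ^ 2 →
      2 * U = 0 ∧ 2 * W = 0 ∧ 2 * R = 0 ∧ 2 * D = 0 := by decide

theorem even_of {U : ℤ} (h : 2 * (U : ZMod 4) = 0) : ∃ a : ℤ, U = 2 * a := by
  have h1 : ((2 * U : ℤ) : ZMod 4) = 0 := by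
    push_cast
    exact h
  rw [ZMod.intCast_zmod_eq_zero_iff_dvd] at h1
  obtain ⟨c, hc⟩ := h1
  exact ⟨c, by push_cast at hc; omega⟩

/-- the class `(1, 2m, 2m)` does not occur -/
theorem desc_int (m : ℕ) (hm : m % 2 = 1) : ∀ n : ℕ, ∀ D U W R : ℤ, D.natAbs = n → D ≠ 0 →
    U ^ 2 + W ^ 2 = m * R ^ 2 → W ^ 2 - U ^ 2 = 2 * m ^ 2 * D ^ 2 → False := by
  intro n
  induction n using Nat.strong_induction_on with
  | _ n ih =>
    intro D U W R hn hD h1 h2
    have hm4 : 2 * ((m : ℕ) : ZMod 4) = 2 := by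
      obtain ⟨k, hk⟩ : ∃ k, m = 2 * k + 1 := ⟨m / 2, by omega⟩
      have e : 2 * ((m : ℕ) : ZMod 4) = 4 * (k : ZMod 4) + 2 := by
        rw [hk]
        push_cast
        ring
      have h4 : (4 : ZMod 4) = 0 := by decide
      rw [e, h4, zero_mul, zero_add]
    have c1 : ((U : ℤ) : ZMod 4) ^ 2 + ((W : ℤ) : ZMod 4) ^ 2 =
        ((m : ℕ) : ZMod 4) * ((R : ℤ) : ZMod 4) ^ 2 := by
      exact_mod_cast congrArg (fun z : ℤ => (z : ZMod 4)) h1
    have c2 : ((W : ℤ) : ZMod 4) ^ 2 - ((U : ℤ) : ZMod 4) ^ 2 =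
        2 * ((m : ℕ) : ZMod 4) ^ 2 * ((D : ℤ) : ZMod 4) ^ 2 := by
      exact_mod_cast congrArg (fun z : ℤ => (z : ZMod 4)) h2
    obtain ⟨a, b, c, d⟩ := mod4 _ hm4 _ _ _ _ c1 c2
    obtain ⟨U', rfl⟩ := even_of a
    obtain ⟨W', rfl⟩ := even_of b
    obtain ⟨R', rfl⟩ := even_of c
    obtain ⟨D', rfl⟩ := even_of d
    have hD' : D' ≠ 0 := by
      rintro rfl
      exact hD (by ring)
    refine ih D'.natAbs ?_ D' U' W' R' rfl hD' ?_ ?_
    · rw [← hn, Int.natAbs_mul]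
      have : 0 < D'.natAbs := Int.natAbs_pos.2 hD'
      have e : (2 : ℤ).natAbs = 2 := rfl
      rw [e]
      omega
    · exact mul_left_cancel₀ (show (4 : ℤ) ≠ 0 by norm_num) (by linear_combination h1)
    · exact mul_left_cancel₀ (show (4 : ℤ) ≠ 0 by norm_num) (by linear_combination h2)

theorem desc_rat (m : ℕ) (hm : m % 2 = 1) {u w r : ℚ} (h1 : u ^ 2 + w ^ 2 = 4 * m * r ^ 2)
    (h2 : w ^ 2 - u ^ 2 = 8 * m ^ 2) : False := by
  set a : ℚ := u / 2 with ha
  set b : ℚ := w / 2 with hb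
  have k1 : a ^ 2 + b ^ 2 = m * r ^ 2 := by
    rw [ha, hb]
    linear_combination (1 / 4) * h1
  have k2 : b ^ 2 - a ^ 2 = 2 * m ^ 2 := by
    rw [ha, hb]
    linear_combination (1 / 4) * h2
  have ea := Rat.mul_den_eq_num a
  have eb := Rat.mul_den_eq_num b
  have er := Rat.mul_den_eq_num r
  have e1 : a * (a.den * b.den * r.den) = a.num * b.den * r.den := by
    rw [← ea]; ring
  have e2 : b * (a.den * b.den * r.den) = b.num * a.den * r.den := by
    rw [← eb]; ring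
  have e3 : r * (a.den * b.den * r.den) = r.num * a.den * b.den := by
    rw [← er]; ring
  refine desc_int m hm _ ((a.den : ℤ) * b.den * r.den) (a.num * b.den * r.den)
    (b.num * a.den * r.den) (r.num * a.den * b.den) rfl ?_ ?_ ?_
  · have := a.den_nz
    have := b.den_nz
    have := r.den_nz
    positivity
  · have : ((a.num * b.den * r.den : ℤ) : ℚ) ^ 2 + ((b.num * a.den * r.den : ℤ) : ℚ) ^ 2 =
        m * ((r.num * a.den * b.den : ℤ) : ℚ) ^ 2 := by
      push_cast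
      rw [← e1, ← e2, ← e3]
      linear_combination (a.den * b.den * r.den : ℚ) ^ 2 * k1
    exact_mod_cast this
  · have : ((b.num * a.den * r.den : ℤ) : ℚ) ^ 2 - ((a.num * b.den * r.den : ℤ) : ℚ) ^ 2 =
        2 * m ^ 2 * (((a.den : ℤ) * b.den * r.den : ℤ) : ℚ) ^ 2 := by
      push_cast
      rw [← e1, ← e2]
      linear_combination (a.den * b.den * r.den : ℚ) ^ 2 * k2
    exact_mod_cast this

/-- every `dbl x` is `dbl (dbl x')` -/
theorem step {m : ℕ} (hm : Squarefree m) (h1 : ∀ p ∈ m.primeFactors, p % 4 = 1) (hk : Nsg m)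
    (hm2 : m % 2 = 1) {x : ℚ} (hx : x ∈ XS (m : ℚ)) :
    ∃ x' ∈ XS (m : ℚ), dbl m x = dbl m (dbl m x') := by
  have hm0 : (m : ℚ) ≠ 0 := by exact_mod_cast hm.ne_zero
  have hmp : (0 : ℚ) < m := by
    have : 0 < m := Nat.pos_of_ne_zero hm.ne_zero
    exact_mod_cast this
  -- the points with a square abscissa
  have A : ∀ x : ℚ, x ∈ XS (m : ℚ) → 0 < x → IsSquare x →
      ∃ x' ∈ XS (m : ℚ), dbl m x = dbl m (dbl m x') := by
    intro x hx hx0 hsx
    obtain ⟨k0, k1, k2⟩ := XS_ne hx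
    obtain ⟨y, hy, h⟩ := hx
    obtain ⟨r, hr⟩ := hsx
    have hprod : x * (x - 2 * m) * (x + 2 * m) = y ^ 2 := by
      rw [h]
      ring
    rcases (sqs hm h1 hk hy h hx0).2 ⟨r, hr⟩ with ⟨s, hs⟩ | ⟨u, hu⟩
    · have hs0 : s ≠ 0 := by
        rintro rfl
        exact k1 (by rw [hs]; ring)
      have hr0 : r ≠ 0 := by
        rintro rfl
        exact k0 (by rw [hr]; ring)
      have ht : x + 2 * m = (y / (r * s)) ^ 2 := by
        rw [div_pow, ← hprod, mul_pow]
        have e1 : r ^ 2 = x := by rw [hr]; ring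
        have e2 : s ^ 2 = x - 2 * m := by rw [hs]; ring
        rw [e1, e2]
        field_simp
      obtain ⟨x', hx', he⟩ := half hm0 (by rw [hr]; ring) (by rw [hs]; ring) ht ⟨y, hy, h⟩
      exact ⟨x', hx', by rw [he]⟩
    · exfalso
      have hu0 : u ≠ 0 := by
        rintro rfl
        have : 2 * (m : ℚ) * (x - 2 * m) ≠ 0 := mul_ne_zero (mul_ne_zero two_ne_zero hm0) k1
        exact this (by rw [hu]; ring)
      have hr0 : r ≠ 0 := by
        rintro rfl
        exact k0 (by rw [hr]; ring)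
      have hw : 2 * m * (x + 2 * m) = (2 * m * y / (r * u)) ^ 2 := by
        have e1 : r ^ 2 = x := by rw [hr]; ring
        have e2 : u ^ 2 = 2 * m * (x - 2 * m) := by rw [hu]; ring
        rw [div_pow, mul_pow, mul_pow r u, ← hprod, e1, e2]
        field_simp
      refine desc_rat m hm2 (u := u) (w := 2 * m * y / (r * u)) (r := r) ?_ ?_
      · rw [← hw]
        linear_combination 4 * (m : ℚ) * hr - hu
      · rw [← hw]
        linear_combination hu
  -- the points with a positive abscissa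
  have B : ∀ x : ℚ, x ∈ XS (m : ℚ) → 0 < x → ∃ x' ∈ XS (m : ℚ), dbl m x = dbl m (dbl m x') := by
    intro x hx hx0
    obtain ⟨k0, k1, k2⟩ := XS_ne hx
    obtain ⟨y, hy, h⟩ := id hx
    have hprod : x * (x - 2 * m) * (x + 2 * m) = y ^ 2 := by
      rw [h]
      ring
    rcases (sqs hm h1 hk hy h hx0).1 with hs | ⟨u, hu⟩
    · exact A x hx hx0 hs
    · obtain ⟨t1, t2⟩ := trans1 hm0 hx
      have hsub : 0 < x - 2 * m := by
        have h5 : 0 < y ^ 2 := by positivity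
        rw [← hprod] at h5
        exact (mul_pos_iff_of_pos_left hx0).1 ((mul_pos_iff_of_pos_right (by positivity)).1 h5)
      obtain ⟨x', hx', he⟩ := A _ t1 (by positivity) ⟨u * y / (x * (x - 2 * m)), by
        have : u * y / (x * (x - 2 * m)) * (u * y / (x * (x - 2 * m))) =
            (u * u) * y ^ 2 / (x * (x - 2 * m)) ^ 2 := by
          field_simp
        rw [this, ← hu, ← hprod]
        field_simp⟩
      exact ⟨x', hx', by rw [← he, t2]⟩
  rcases lt_or_gt_of_ne (XS_ne hx).1 with h0 | h0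
  · obtain ⟨t1, t2⟩ := trans0 hm0 hx
    have h5 : 0 < -(4 * (m : ℚ) ^ 2) / x := by
      refine div_pos_of_neg_of_neg ?_ h0
      have : 0 < 4 * (m : ℚ) ^ 2 := by positivity
      linarith
    obtain ⟨x', hx', he⟩ := B _ t1 h5
    exact ⟨x', hx', by rw [← he, t2]⟩
  · exact B x hx h0

end Run7.h843.Desc
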