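import Pool.Agent.Run7.h843.B5

/-!
# `y² = x³ - 4 m² x` has no rational point with `y ≠ 0`
-/

set_option autoImplicit false

namespace Run7.h843.Desc

theorem mod4b : ∀ m : ZMod 4, 2 * m = 2 → ∀ W S D : ZMod 4, 2 * D = 2 →
    W ^ 2 - 2 * m * D ^ 2 = S ^ 2 → False := by decide

theorem two_mul_of_odd {n : ℕ} (h : n % 2 = 1) : 2 * (n : ZMod 4) = 2 := by
  obtain ⟨k, hk⟩ : ∃ k, n = 2 * k + 1 := ⟨n / 2, by omega⟩
  have e : 2 * ((n : ℕ) : ZMod 4) = 4 * (k : ZMod 4) + 2 := by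
    rw [hk]
    push_cast
    ring
  have h4 : (4 : ZMod 4) = 0 := by decide
  rw [e, h4, zero_mul, zero_add]

theorem val_w {m : ℕ} (hm : m % 2 = 1) {w s : ℚ} (h : w ^ 2 - 2 * m = s ^ 2) :
    padicValRat 2 w ≤ -1 := by
  have hD : w.den % 2 = 0 := by
    by_contra hD
    have hD1 : w.den % 2 = 1 := by omega
    have ew := Rat.mul_den_eq_num w
    have hsq : IsSquare ((w.num ^ 2 - 2 * m * w.den ^ 2 : ℤ) : ℚ) := by
      refine ⟨s * w.den, ?_⟩
      push_cast
      rw [← ew]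
      linear_combination (w.den : ℚ) ^ 2 * h
    rw [Rat.isSquare_intCast_iff] at hsq
    obtain ⟨S, hS⟩ := hsq
    have c := congrArg (fun z : ℤ => (z : ZMod 4)) hS
    push_cast at c
    exact mod4b _ (two_mul_of_odd hm) _ (S : ZMod 4) _ (two_mul_of_odd hD1) (by rw [c]; ring)
  have h2 : (2 : ℕ) ∣ w.den := Nat.dvd_of_mod_eq_zero hD
  have hn : ¬ (2 : ℤ) ∣ w.num := by
    intro h3
    have h4 : (2 : ℕ) ∣ w.num.natAbs := Int.natCast_dvd.1 h3
    have := Nat.dvd_gcd h4 h2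
    rw [w.reduced] at this
    exact absurd this (by norm_num)
  rw [padicValRat_def, padicValInt.eq_zero_of_not_dvd hn]
  have h5 : 1 ≤ padicValNat 2 w.den := one_le_padicValNat_of_dvd w.den_nz h2
  have h6 : (1 : ℤ) ≤ (padicValNat 2 w.den : ℤ) := by exact_mod_cast h5
  push_cast
  linarith

theorem val_two : padicValRat 2 (4 : ℚ) = 2 := by
  have h : (4 : ℚ) = 2 ^ 2 := by norm_num
  rw [h, padicValRat.pow]
  have h2 : padicValRat 2 (2 : ℚ) = 1 := by
    have := padicValRat.self (p := 2) (by norm_num)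
    exact_mod_cast this
  rw [h2]
  norm_num

theorem val_odd {m : ℕ} (hm : m % 2 = 1) : padicValRat 2 (m : ℚ) = 0 := by
  rw [padicValRat.of_nat, padicValNat.eq_zero_of_not_dvd, Nat.cast_zero]
  omega

/-- the first valuation -/
theorem val_dbl {m : ℕ} (hm : m % 2 = 1) {x : ℚ} (hx : x ∈ XS (m : ℚ)) :
    padicValRat 2 (dbl m x) ≤ -2 := by
  have hm0 : (m : ℚ) ≠ 0 := by
    have : m ≠ 0 := by omega
    exact_mod_cast this
  obtain ⟨k0, k1, k2⟩ := XS_ne hx
  obtain ⟨y, hy, h⟩ := hx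
  have hw : dbl m x = ((x ^ 2 + 4 * m ^ 2) / (2 * y)) ^ 2 := by
    unfold dbl
    rw [← h, div_pow, mul_pow]
    norm_num
  have hne : (x ^ 2 + 4 * (m : ℚ) ^ 2) / (2 * y) ≠ 0 := by positivity
  have hs : ((x ^ 2 + 4 * (m : ℚ) ^ 2) / (2 * y)) ^ 2 - 2 * m =
      ((x ^ 2 - 4 * m * x - 4 * m ^ 2) / (2 * y)) ^ 2 := by
    have e : (2 : ℚ) * m = (8 * m * y ^ 2) / (2 * y) ^ 2 := by
      field_simp
      norm_num
    rw [div_pow, div_pow, e, ← sub_div]
    congr 1
    rw [h]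
    ring
  have h5 := val_w hm hs
  rw [hw, padicValRat.pow]
  push_cast
  linarith

/-- doubling lowers the valuation -/
theorem val_step {m : ℕ} (hm : m % 2 = 1) {x : ℚ} (hx : padicValRat 2 x ≤ -2) :
    padicValRat 2 (dbl m x) = padicValRat 2 x - 2 := by
  have hm0 : (m : ℚ) ≠ 0 := by
    have : m ≠ 0 := by omega
    exact_mod_cast this
  have hx0 : x ≠ 0 := by
    rintro rfl
    simp at hx
  have v4 : padicValRat 2 (4 * (m : ℚ) ^ 2) = 2 := by
    rw [padicValRat.mul (by norm_num) (by positivity), val_two, padicValRat.pow, val_odd hm]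
    norm_num
  have v2 : padicValRat 2 (x ^ 2) = 2 * padicValRat 2 x := by
    rw [padicValRat.pow]
    push_cast
    ring
  have hlt : padicValRat 2 (x ^ 2) < padicValRat 2 (4 * (m : ℚ) ^ 2) := by
    rw [v4, v2]
    linarith
  have hp : x ^ 2 + 4 * (m : ℚ) ^ 2 ≠ 0 := by positivity
  have hq : x ^ 2 + -(4 * (m : ℚ) ^ 2) ≠ 0 := by
    intro h
    have h1 : x ^ 2 = 4 * (m : ℚ) ^ 2 := by linear_combination h
    rw [h1] at hlt
    exact lt_irrefl _ hlt
  have a1 : padicValRat 2 (x ^ 2 + 4 * (m : ℚ) ^ 2) = 2 * padicValRat 2 x := by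
    rw [padicValRat.add_eq_of_lt hp (by positivity) (by positivity) hlt, v2]
  have a2 : padicValRat 2 (x ^ 2 + -(4 * (m : ℚ) ^ 2)) = 2 * padicValRat 2 x := by
    rw [padicValRat.add_eq_of_lt hq (by positivity) (by
      have : 4 * (m : ℚ) ^ 2 ≠ 0 := by positivity
      exact neg_ne_zero.2 this) (by rwa [padicValRat.neg]), v2]
  unfold dbl
  have e : x ^ 3 - 4 * (m : ℚ) ^ 2 * x = x * (x ^ 2 + -(4 * (m : ℚ) ^ 2)) := by ring
  rw [e, padicValRat.div (pow_ne_zero 2 hp) (mul_ne_zero (by norm_num) (mul_ne_zero hx0 hq)),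
    padicValRat.pow, padicValRat.mul (by norm_num) (mul_ne_zero hx0 hq),
    padicValRat.mul hx0 hq, a1, a2, val_two]
  push_cast
  ring

theorem no_points {m : ℕ} (hm : Squarefree m) (h1 : ∀ p ∈ m.primeFactors, p % 4 = 1)
    (hk : Nsg m) {x y : ℚ} (h : y ^ 2 = x ^ 3 - 4 * m ^ 2 * x) : y = 0 := by
  by_contra hy
  have hm2 : m % 2 = 1 := by
    by_contra hc
    have h2 : 2 ∣ m := by omega
    have := h1 2 (Nat.mem_primeFactors.2 ⟨Nat.prime_two, h2, hm.ne_zero⟩)
    omega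
  have key : ∀ k : ℕ, ∀ x : ℚ, x ∈ XS (m : ℚ) → padicValRat 2 (dbl m x) ≤ -2 - 2 * k := by
    intro k
    induction k with
    | zero =>
      intro x hx
      have := val_dbl hm2 hx
      push_cast
      linarith
    | succ k ih =>
      intro x hx
      obtain ⟨x', hx', he⟩ := step hm h1 hk hm2 hx
      have h5 := ih x' hx'
      have h6 := val_dbl hm2 hx'
      rw [he, val_step hm2 h6]
      push_cast
      linarith
  have h7 := key (padicValRat 2 (dbl m x)).natAbs x ⟨y, hy, h⟩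
  omega

end Run7.h843.Desc
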