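import Pool.Agent.R413.SQ.BOX
import Pool.Agent.Run7.h843.B3

/-!
# The reduced Laplacian at another root

The matrix of the congruent number curve is the Laplacian of the symbols on `S ∪ {2}` reduced at the
vertex `2`. It is nonsingular if and only if the reduction at any other vertex is.
-/

set_option autoImplicit false

open scoped Classical

namespace Run7.h843.Cnt

open Finset
open Pool.Agent.Y703.CQ (nr sg prs HB S_EQ GdA S_LA c2)
open Pool.Agent.R413.SQ.BOX (nr_self nr_symm sum_un lb Lb HB_sub ez0 ez0_coe)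
open Run7.h843.Desc (f2)

/-- the good sets: the matrix (Laplacian plus the symbols of `2`) is nonsingular -/
def Gd6 (S : Finset ℕ) : Prop := ∀ x : ℕ → ZMod 2,
  (∀ p ∈ S, ∑ q ∈ S, nr p q * (x q + x p) + f2 p * x p = 0) → ∀ p ∈ S, x p = 0

/-- the labels of the large primes with respect to the small ones and `2` are not degenerate -/
def Nd6 (S₀ S₁ : Finset ℕ) : Prop :=
  ∀ (w : ℕ → ZMod 2) (w2 : ZMod 2), ((∃ u ∈ S₀, w u ≠ 0) ∨ w2 ≠ 0) →
    ∃ p ∈ S₁, ∑ u ∈ S₀, w u * nr p u + w2 * f2 p ≠ 0

/-- the reduction at the vertex `q` -/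
def Rt (S : Finset ℕ) (q : ℕ) : Prop := ∀ (x : ℕ → ZMod 2) (y : ZMod 2), x q = 0 →
  (∀ p ∈ S, p ≠ q → ∑ s ∈ S, nr p s * (x s + x p) + f2 p * (y + x p) = 0) →
  ∑ s ∈ S, f2 s * (x s + y) = 0 → (∀ p ∈ S, x p = 0) ∧ y = 0

theorem add2 (a : ZMod 2) : a + a = 0 := CharTwo.add_self_eq_zero a

/-- the sum of all rows of a Laplacian -/
theorem sum_rows {S : Finset ℕ} (hs : ∀ p ∈ S, ∀ q ∈ S, nr p q = nr q p) (x : ℕ → ZMod 2) :
    ∑ p ∈ S, ∑ s ∈ S, nr p s * (x s + x p) = 0 := by
  have h1 : ∑ p ∈ S, ∑ s ∈ S, nr p s * (x s + x p) =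
      ∑ p ∈ S, ∑ s ∈ S, nr p s * x s + ∑ p ∈ S, ∑ s ∈ S, nr p s * x p := by
    rw [← sum_add_distrib]
    refine sum_congr rfl fun p _ => ?_
    rw [← sum_add_distrib]
    exact sum_congr rfl fun s _ => by ring
  have h2 : ∑ p ∈ S, ∑ s ∈ S, nr p s * x s = ∑ p ∈ S, ∑ s ∈ S, nr p s * x p := by
    rw [sum_comm]
    refine sum_congr rfl fun p hp => sum_congr rfl fun s hs' => ?_
    rw [hs s hs' p hp]
  rw [h1, h2, add2]

theorem root {S : Finset ℕ} {q : ℕ} (hq : q ∈ S) (hs : ∀ p ∈ S, ∀ q ∈ S, nr p q = nr q p) :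
    Gd6 S ↔ Rt S q := by
  constructor
  · intro h x y hx h1 h2
    -- the row of the root
    have h3 : ∀ p ∈ S, ∑ s ∈ S, nr p s * (x s + x p) + f2 p * (y + x p) = 0 := by
      have h4 : ∑ p ∈ S, (∑ s ∈ S, nr p s * (x s + x p) + f2 p * (y + x p)) = 0 := by
        rw [sum_add_distrib, sum_rows hs, zero_add, ← h2]
        exact sum_congr rfl fun p _ => by ring
      rw [← add_sum_erase _ _ hq] at h4
      have h5 : ∑ p ∈ S.erase q, (∑ s ∈ S, nr p s * (x s + x p) + f2 p * (y + x p)) = 0 :=
        sum_eq_zero fun p hp => h1 p (mem_of_mem_erase hp) (ne_of_mem_erase hp)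
      rw [h5, add_zero] at h4
      intro p hp
      by_cases hpq : p = q
      · rw [hpq]
        exact h4
      · exact h1 p hp hpq
    have h4 := h (fun p => x p + y) fun p hp => by
      rw [← h3 p hp]
      congr 1
      · refine sum_congr rfl fun s _ => ?_
        linear_combination nr p s * add2 y
      · ring
    have h5 : y = 0 := by
      have := h4 q hq
      simp only [hx, zero_add] at this
      exact this
    refine ⟨fun p hp => ?_, h5⟩
    have := h4 p hp
    simp only [h5, add_zero] at this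
    exact this
  · intro h x h1
    have h2 : ∑ s ∈ S, f2 s * x s = 0 := by
      have h4 : ∑ p ∈ S, (∑ s ∈ S, nr p s * (x s + x p) + f2 p * x p) = 0 :=
        sum_eq_zero fun p hp => h1 p hp
      rw [sum_add_distrib, sum_rows hs, zero_add] at h4
      exact h4
    obtain ⟨h5, h6⟩ := h (fun p => x p + x q) (x q) (add2 _) (fun p hp _ => by
      rw [← h1 p hp]
      congr 1
      · refine sum_congr rfl fun s _ => ?_
        linear_combination nr p s * add2 (x q)
      · linear_combination f2 p * add2 (x q)) (by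
      rw [← h2]
      refine sum_congr rfl fun s _ => ?_
      linear_combination f2 s * add2 (x q))
    intro p hp
    have := h5 p hp
    simp only [h6, add_zero] at this
    exact this

section lin

variable {ι U : Type} [Fintype ι] [Fintype U]

/-- one vector of a large spanning family can be omitted -/
theorem omit_one (v : ι → U → ZMod 2) (h : ∀ w : U → ZMod 2, w ≠ 0 → ∃ i, ∑ u, w u * v i u ≠ 0)
    (hc : Fintype.card U < Fintype.card ι) :
    ∃ r : ι, ∀ w : U → ZMod 2, w ≠ 0 → ∃ i, i ≠ r ∧ ∑ u, w u * v i u ≠ 0 := by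
  by_contra hcon
  push Not at hcon
  choose w hw0 hw using hcon
  have hr : ∀ r, ∑ u, w r u * v r u = 1 := by
    intro r
    obtain ⟨i, hi⟩ := h (w r) (hw0 r)
    by_cases hir : i = r
    · rw [hir] at hi
      rcases Run7.h843.Desc.zmod2_cases (∑ u, w r u * v r u) with h0 | h0
      · exact absurd h0 hi
      · exact h0
    · exact absurd (hw r i hir) hi
  have hli : LinearIndependent (ZMod 2) w := by
    rw [Fintype.linearIndependent_iff]
    intro g hg i
    have h1 : ∑ u, (∑ r, g r • w r) u * v i u = 0 := by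
      rw [hg]
      simp
    have h2 : ∑ u, (∑ r, g r • w r) u * v i u = ∑ r, g r * ∑ u, w r u * v i u := by
      simp only [Finset.sum_apply, Pi.smul_apply, smul_eq_mul, Finset.sum_mul, Finset.mul_sum]
      rw [sum_comm]
      exact sum_congr rfl fun r _ => sum_congr rfl fun u _ => by ring
    rw [h2, Finset.sum_eq_single i] at h1
    · rw [hr, mul_one] at h1
      exact h1
    · intro r _ hri
      rw [hw r i (Ne.symm hri), mul_zero]
    · intro h3
      exact absurd (mem_univ i) h3
  have := hli.fintype_card_le_finrank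
  rw [Module.finrank_fintype_fun_eq_card] at this
  omega

end lin

end Run7.h843.Cnt
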