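import Pool.Agent.Run7.h843.C1

/-!
# The count in a box
-/

set_option autoImplicit false

open scoped Classical

namespace Run7.h843.Cnt

open Finset
open Pool.Agent.Y703.CQ (nr sg prs HB S_EQ GdA S_LA c2)
open Pool.Agent.R413.SQ.BOX (nr_self nr_symm sum_un lb Lb HB_sub ez0 ez0_coe)
open Run7.h843.Desc (f2)

/-- the good labels -/
def LN6 {ι : Type} (S₀ : Finset ℕ) (β : ι → Lb S₀) : Prop :=
  ∀ w : Option S₀ → ZMod 2, w ≠ 0 →
    ∃ i : ι, ∑ u : Option S₀, w u * (u.elim (β i).2.2 (β i).2.1) ≠ 0

/-- the small part of the matrix -/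
noncomputable def AA (S₀ : Finset ℕ) : Option S₀ → Option S₀ → ZMod 2
  | some u, some v => nr u v
  | some u, none => f2 u
  | none, some v => f2 v
  | none, none => 0

section one
variable {ι : Type} [Fintype ι] [LinearOrder ι] {S₀ : Finset ℕ} {p : ι → ℕ}

omit [LinearOrder ι] in
theorem nd_iff6 : Nd6 S₀ (univ.image p) ↔ LN6 S₀ (fun i => lb f2 S₀ (p i)) := by
  have key : ∀ (w : ℕ → ZMod 2) (w2 : ZMod 2) (i : ι),
      ∑ u : Option S₀, (u.elim w2 fun v => w v) * (u.elim (lb f2 S₀ (p i)).2.2 (lb f2 S₀ (p i)).2.1)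
        = ∑ u ∈ S₀, w u * nr (p i) u + w2 * f2 (p i) := by
    intro w w2 i
    rw [Fintype.sum_option, ← Finset.sum_coe_sort S₀, add_comm]
    rfl
  unfold Nd6 LN6
  constructor
  · intro h w hw
    have h1 : (∃ u ∈ S₀, ez0 (fun u => w (some u)) u ≠ 0) ∨ w none ≠ 0 := by
      by_contra hcon
      push Not at hcon
      apply hw
      funext u
      rcases u with _ | u
      · exact hcon.2
      · have := hcon.1 u u.2
        rwa [ez0_coe] at this
    obtain ⟨x, hx, hx2⟩ := h (ez0 fun u => w (some u)) (w none) h1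
    rw [Finset.mem_image] at hx
    obtain ⟨i, -, rfl⟩ := hx
    refine ⟨i, ?_⟩
    rw [← key] at hx2
    intro h0
    apply hx2
    rw [← h0]
    refine Finset.sum_congr rfl fun u _ => ?_
    rcases u with _ | u
    · rfl
    · simp only [Option.elim_some, ez0_coe]
  · intro h w w2 hw
    obtain ⟨i, hi⟩ := h (fun u => u.elim w2 fun v => w v) (by
      intro h0
      rcases hw with ⟨u, hu, hu2⟩ | h2
      · exact hu2 (congrFun h0 (some ⟨u, hu⟩))
      · exact h2 (congrFun h0 none))
    refine ⟨p i, Finset.mem_image_of_mem _ (Finset.mem_univ _), ?_⟩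
    rw [← key]
    exact hi

theorem ext_sum6 (hpr : ∀ i, (p i).Prime ∧ p i % 4 = 1) {r : ι}
    (k : ι) (hk : k ∈ univ.erase r) (y : ι → ZMod 2) (yk : ZMod 2) :
    ∑ l, Pool.Agent.Y703.CQ.ext (fun e : prs (univ.erase r) => nr (p e.1.1) (p e.1.2)) k l *
      (y l + yk) = ∑ l, nr (p k) (p l) * (y l + yk) := by
  have h2 : ∀ i, p i ≠ 2 := by
    intro i h
    have := (hpr i).2
    omega
  refine Finset.sum_congr rfl fun l _ => ?_
  congr 1
  unfold Pool.Agent.Y703.CQ.ext
  by_cases h : (k, l) ∈ prs (univ.erase r)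
  · rw [dif_pos h]
  · rw [dif_neg h]
    by_cases hlk : l = k
    · subst hlk
      rw [dif_neg (fun h' => h h'.1), nr_self]
    · have h1 : l ∈ univ.erase r ∧ ¬ k < l := by
        by_contra hcon
        apply h
        unfold prs
        refine Finset.mem_filter.2 ⟨Finset.mem_univ _, hk, hlk, fun hl => ?_⟩
        by_contra hkl
        exact hcon ⟨hl, hkl⟩
      have h2' : (l, k) ∈ prs (univ.erase r) := by
        unfold prs
        exact Finset.mem_filter.2 ⟨Finset.mem_univ _, h1.1, fun h => hlk h.symm,
          fun _ => lt_of_le_of_ne (not_lt.1 h1.2) hlk⟩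
      rw [dif_pos ⟨h2', hk⟩]
      exact nr_symm (hpr l).1 (hpr l).2 (hpr k).1 (h2 k)

theorem gd_iff6 (hp : Function.Injective p) (hpr : ∀ i, (p i).Prime ∧ p i % 4 = 1)
    (hS₀ : ∀ u ∈ S₀, u.Prime ∧ u % 4 = 1) (hd : ∀ i, p i ∉ S₀) (r : ι) :
    Gd6 (S₀ ∪ univ.image p) ↔ GdA (univ : Finset (Option S₀)) (univ.erase r) (AA S₀)
      (fun (u : Option S₀) l => u.elim (f2 (p l)) fun v => nr v (p l))
      (fun k (u : Option S₀) => u.elim (f2 (p k)) fun v => nr (p k) v)
      (Pool.Agent.Y703.CQ.ext fun e : prs (univ.erase r) => nr (p e.1.1) (p e.1.2))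
      (fun _ => 0) (fun _ => 0) := by
  have hr : p r ∈ S₀ ∪ univ.image p :=
    Finset.mem_union_right _ (Finset.mem_image_of_mem _ (Finset.mem_univ _))
  have hcl : ∀ q ∈ S₀ ∪ univ.image p, q.Prime ∧ q % 4 = 1 := by
    intro q hq
    rw [Finset.mem_union, Finset.mem_image] at hq
    rcases hq with hq | ⟨i, -, rfl⟩
    · exact hS₀ q hq
    · exact hpr i
  rw [root hr (fun a ha b hb => nr_symm (hcl a ha).1 (hcl a ha).2 (hcl b hb).1 (by
    rintro rfl
    have := (hcl 2 hb).2
    omega))]
  have hne : ∀ u : S₀, (u : ℕ) ≠ p r := by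
    intro u h
    exact hd r (h ▸ u.2)
  unfold Rt GdA
  constructor
  · intro h c d _ hd0 h1 h2
    set c' : ℕ → ZMod 2 := fun n => if h : n ∈ S₀ then c (some ⟨n, h⟩) else
      if h : ∃ l, p l = n then d h.choose else 0 with hc'
    have e1 : ∀ u : S₀, c' u = c (some u) := by
      intro u
      simp only [hc']
      rw [dif_pos u.2]
    have e2 : ∀ l, c' (p l) = d l := by
      intro l
      have hex : ∃ l', p l' = p l := ⟨l, rfl⟩
      simp only [hc']
      rw [dif_neg (hd l), dif_pos hex]
      exact congrArg d (hp hex.choose_spec)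
    have hdr : d r = 0 := hd0 r (Finset.notMem_erase _ _)
    obtain ⟨h3, h4⟩ := h c' (c none) (by rw [e2, hdr]) (by
      intro q hq hqr
      rw [sum_un hp hd]
      rw [Finset.mem_union, Finset.mem_image] at hq
      rcases hq with hq | ⟨k, -, rfl⟩
      · have h5 := h1 (some ⟨q, hq⟩) (Finset.mem_univ _)
        rw [Fintype.sum_option] at h5
        have e3 := e1 ⟨q, hq⟩
        simp only [AA, Option.elim_some, zero_mul, add_zero] at h5
        simp only [e1, e2]
        simp only at e3
        rw [e3]
        rw [← h5]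
        ring
      · have hk : k ∈ univ.erase r := Finset.mem_erase.2 ⟨fun h => hqr (by rw [h]), Finset.mem_univ _⟩
        have h5 := h2 k hk
        rw [Fintype.sum_option, ext_sum6 hpr k hk] at h5
        simp only [Option.elim_none, Option.elim_some, zero_mul, add_zero] at h5
        simp only [e1, e2]
        rw [← h5]
        ring) (by
      rw [sum_un hp hd]
      have h5 := h1 none (Finset.mem_univ _)
      rw [Fintype.sum_option] at h5
      simp only [AA, Option.elim_none, zero_mul, add_zero, zero_add] at h5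
      simp only [e1, e2]
      exact h5)
    refine ⟨fun u => ?_, fun l => ?_⟩
    · rcases u with _ | u
      · exact h4
      · rw [← e1]
        exact h3 _ (Finset.mem_union_left _ u.2)
    · rw [← e2]
      exact h3 _ (Finset.mem_union_right _ (Finset.mem_image_of_mem _ (Finset.mem_univ _)))
  · intro h x y hx h1 h2
    obtain ⟨ht1, ht2⟩ := h (fun u => u.elim y fun v => x v) (fun l => x (p l))
      (fun u hu => absurd (Finset.mem_univ u) hu)
      (fun k hk => by
        have : k = r := by
          by_contra hkr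
          exact hk (Finset.mem_erase.2 ⟨hkr, Finset.mem_univ _⟩)
        rw [this]
        exact hx)
      (fun u _ => by
        rcases u with _ | u
        · rw [sum_un hp hd] at h2
          rw [Fintype.sum_option]
          simp only [AA, Option.elim_none, Option.elim_some, zero_mul, add_zero, zero_add]
          exact h2
        · have h5 := h1 u (Finset.mem_union_left _ u.2) (hne u)
          rw [sum_un hp hd] at h5
          rw [Fintype.sum_option]
          simp only [AA, Option.elim_none, Option.elim_some, zero_mul, add_zero]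
          rw [← h5]
          ring)
      (fun k hk => by
        have hkr := (Finset.mem_erase.1 hk).1
        have h5 := h1 (p k) (Finset.mem_union_right _ (Finset.mem_image_of_mem _ (Finset.mem_univ _)))
          (fun h => hkr (hp h))
        rw [sum_un hp hd] at h5
        rw [Fintype.sum_option, ext_sum6 hpr k hk (fun l => x (p l))]
        simp only [Option.elim_none, Option.elim_some, zero_mul, add_zero]
        rw [← h5]
        ring)
    refine ⟨fun q hq => ?_, ht1 none⟩
    rw [Finset.mem_union, Finset.mem_image] at hq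
    rcases hq with hq | ⟨k, -, rfl⟩
    · exact ht1 (some ⟨q, hq⟩)
    · exact ht2 k

end one

end Run7.h843.Cnt
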