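import Pool.Agent.Run7.h843.C3
import Pool.Agent.R413.SQ.KEY

/-!
# The sets with a given key
-/

set_option autoImplicit false

open scoped Classical

namespace Run7.h843.Cnt

open Finset
open Pool.Agent.Y703.CX (sm la jj XX)
open Pool.Agent.Y703.CQ (nr sg prs HB S_EQ S_LA c2)
open Pool.Agent.R413.SQ (RR Ok pr1 Sp In)
open Pool.Agent.R413.SQ.KEY (ph ky KP CC CC_facts CC_disj cl_prime cl_ne root12 sm_fill la_fill
  key_bij)

theorem hb_box6 {C₁ : ℝ} {I K : Finset ℕ} (hok : Ok I K)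
    (h1 : ∀ (P Q : Finset ℕ) (A B z : ℕ) (c d : ℕ → ℂ),
      (∀ p ∈ P, p.Prime ∧ p % 4 = 1 ∧ p ≤ A) → (∀ q ∈ Q, q.Prime ∧ q ≠ 2 ∧ q ≤ B) →
      Disjoint P Q → 1 ≤ z → z ≤ A → z ≤ B →
      (∀ p, ‖c p‖ ≤ 1) → (∀ q, ‖d q‖ ≤ 1) →
      ‖∑ p ∈ P, ∑ q ∈ Q, c p * d q * sg (nr p q)‖ ^ 12 * z ≤
        C₁ * ((A : ℝ) * B) ^ 12)
    {z H : ℕ} (hH : 1 ≤ H) (hz : 1 ≤ z) {κ : ℝ} (hκ : 0 ≤ κ) (hκ1 : C₁ ≤ κ ^ 12 * z)
    {J : Finset (ℕ × ℕ)} :
    HB (univ : Finset J) (fun i : J => CC I z H i) (fun i => XX H i.1.1) κ := by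
  intro i l hil _ c d hc hd
  show ‖∑ x ∈ CC I z H i, ∑ y ∈ CC I z H l, c x * d y * sg (nr x y)‖ ≤
    κ * ((XX H i.1.1 : ℝ) * (XX H l.1.1 : ℝ))
  have hz0 : (0 : ℝ) < z := by exact_mod_cast hz
  have hk0 : (0 : ℝ) ≤ κ * ((XX H i.1.1 : ℝ) * (XX H l.1.1 : ℝ)) := by positivity
  rcases (CC I z H i).eq_empty_or_nonempty with he | ⟨p₀, hp₀⟩
  · rw [he, Finset.sum_empty, norm_zero]
    exact hk0
  rcases (CC I z H l).eq_empty_or_nonempty with he | ⟨q₀, hq₀⟩
  · rw [he]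
    simp only [Finset.sum_empty, Finset.sum_const_zero, norm_zero]
    exact hk0
  have hzi : z ≤ XX H i.1.1 := by
    have := CC_facts hH hp₀
    omega
  have hzl : z ≤ XX H l.1.1 := by
    have := CC_facts hH hq₀
    omega
  have h3 := h1 (CC I z H i) (CC I z H l) (XX H i.1.1) (XX H l.1.1) z c d
    (fun p hp => by
      obtain ⟨h3, -, h4, h5⟩ := CC_facts hH hp
      exact ⟨cl_prime h3, (pr1 h3).2, h4⟩)
    (fun p hp => by
      obtain ⟨h3, -, h4, h5⟩ := CC_facts hH hp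
      exact ⟨cl_prime h3, cl_ne hok h3, h4⟩)
    (CC_disj hH i l hil) hz hzi hzl hc hd
  exact root12 (norm_nonneg _) hκ (Nat.cast_nonneg _) (Nat.cast_nonneg _) hz0 h3 hκ1

theorem box_dec6 (hEQ : S_EQ) (hLA : S_LA) (ι : Type) [Fintype ι]
    [inst : DecidableEq ι] (lo : LinearOrder ι)
    (C : ι → Finset ℕ) (X : ι → ℕ) (κ : ℝ) (S₀ : Finset ℕ) (h1 : 0 ≤ κ)
    (h2 : ∀ i, (C i).card ≤ X i) (h3 : HB univ C X κ) (h4 : ∀ u ∈ S₀, u.Prime ∧ u % 4 = 1)
    (h5 : ∀ i, ∀ p ∈ C i, (p.Prime ∧ p % 4 = 1) ∧ p ∉ S₀)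
    (h6 : ∀ i l, i ≠ l → Disjoint (C i) (C l)) (h7 : S₀.card + 1 < Fintype.card ι) :
    |(((Fintype.piFinset C).filter fun p => Nd6 S₀ (univ.image p) ∧
        Gd6 (S₀ ∪ univ.image p)).card : ℝ) -
      c2 * (((Fintype.piFinset C).filter fun p => Nd6 S₀ (univ.image p)).card : ℝ)| ≤
    2 * (4 ^ (S₀.card + 1) / 2 ^ (Fintype.card ι - 1)) *
      (((Fintype.piFinset C).filter fun p => Nd6 S₀ (univ.image p)).card : ℝ) +
    2 ^ ((2 * S₀.card + 1) * Fintype.card ι + Fintype.card ι * Fintype.card ι) *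
      (κ * ∏ j, (X j : ℝ)) := by
  have h := box6 hEQ hLA ι C X κ S₀ h1 h2 h3 h4 h5 h6 h7
  have e : inst = fun a b => lo.toDecidableEq a b := Subsingleton.elim _ _
  subst e
  exact h

theorem per_key6 (hEQ : S_EQ) (hLA : S_LA) {I K : Finset ℕ}
    (hok : Ok I K) {X z H k V : ℕ} (hH : 1 ≤ H)
    {κ : ℝ} (hκ : 0 ≤ κ) {S₀ : Finset ℕ} {J : Finset (ℕ × ℕ)} (hk : KP I K X z H k V S₀ J)
    (hHB : HB (univ : Finset J) (fun i : J => CC I z H i) (fun i => XX H i.1.1) κ) :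
    |(((RR I K X z H k V).filter fun S => ky z H S = (S₀, J) ∧
        (Nd6 (sm z S) (la z S) ∧ Gd6 S)).card : ℝ) -
      c2 * (((RR I K X z H k V).filter fun S => ky z H S = (S₀, J) ∧
        Nd6 (sm z S) (la z S)).card : ℝ)| ≤
    8 * (1 / 2 : ℝ) ^ V *
        (((RR I K X z H k V).filter fun S => ky z H S = (S₀, J)).card : ℝ) +
      (3 ^ (3 * k ^ 2) * κ) * (X / ((∏ p ∈ S₀, p : ℕ) : ℝ)) := by
  have hcJ : Fintype.card J = J.card := Fintype.card_coe J
  have hfewJ : 2 * S₀.card + V + 2 ≤ J.card := by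
    obtain ⟨e, he, hne⟩ := hk.ine
    have h1 := hk.few
    have h2 : (J.filter fun e => e.2 = 1) ⊆ J.erase e := by
      intro a ha
      rw [Finset.mem_filter] at ha
      refine Finset.mem_erase.2 ⟨?_, ha.1⟩
      rintro rfl
      exact hne ha.2
    have h3 := Finset.card_le_card h2
    rw [Finset.card_erase_of_mem he] at h3
    omega
  have hinj : Function.Injective (fun i : J => i.1.1) := by
    intro a b hab
    exact Subtype.ext (hk.inj (Finset.mem_coe.2 a.2) (Finset.mem_coe.2 b.2) hab)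
  let lo : LinearOrder J := LinearOrder.lift' (fun i : J => i.1.1) hinj
  have hbox := box_dec6 hEQ hLA J lo (fun i => CC I z H i) (fun i => XX H i.1.1) κ S₀ hκ
    (fun i => by
      refine (Finset.card_filter_le _ _).trans ?_
      rw [Nat.card_Icc]
      omega)
    hHB (fun u hu => pr1 (hk.cl u hu))
    (fun i p hp => by
      obtain ⟨h3, h3', h4, h5⟩ := CC_facts hH hp
      refine ⟨pr1 h3, fun h => ?_⟩
      have := hk.le p h
      omega)
    (fun i l hil => CC_disj hH i l hil)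
    (by
      rw [hcJ]
      omega)
  have e1 : ((Fintype.piFinset fun i : J => CC I z H i).filter fun p => Nd6 S₀ (univ.image p) ∧
      Gd6 (S₀ ∪ univ.image p)).card = ((RR I K X z H k V).filter fun S => ky z H S = (S₀, J) ∧
        (Nd6 (sm z S) (la z S) ∧ Gd6 S)).card := by
    rw [← key_bij hH hk (fun S => Nd6 (sm z S) (la z S) ∧ Gd6 S)]
    congr 1
    refine Finset.filter_congr fun p hp => ?_
    rw [Fintype.mem_piFinset] at hp
    rw [sm_fill hH hk.le hp, la_fill hH hk.le hp]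
  have e2 : ((Fintype.piFinset fun i : J => CC I z H i).filter fun p =>
      Nd6 S₀ (univ.image p)).card = ((RR I K X z H k V).filter fun S => ky z H S = (S₀, J) ∧
        Nd6 (sm z S) (la z S)).card := by
    rw [← key_bij hH hk (fun S => Nd6 (sm z S) (la z S))]
    congr 1
    refine Finset.filter_congr fun p hp => ?_
    rw [Fintype.mem_piFinset] at hp
    rw [sm_fill hH hk.le hp, la_fill hH hk.le hp]
  rw [e1, e2] at hbox
  refine hbox.trans (add_le_add ?_ ?_)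
  · have h3 : 2 * ((4 : ℝ) ^ (S₀.card + 1) / 2 ^ (Fintype.card J - 1)) ≤ 8 * (1 / 2) ^ V := by
      rw [hcJ]
      have h4 : (2 : ℝ) ^ (2 * S₀.card + V) ≤ 2 ^ (J.card - 1) :=
        pow_le_pow_right₀ (by norm_num) (by omega)
      have h5 : (1 / 2 : ℝ) ^ V * 2 ^ (2 * S₀.card + V) = 4 ^ S₀.card := by
        rw [pow_add, mul_comm, mul_assoc, ← mul_pow, pow_mul]
        norm_num
      have h6 : (4 : ℝ) ^ (S₀.card + 1) / 2 ^ (J.card - 1) ≤ 4 * (1 / 2) ^ V := by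
        rw [div_le_iff₀ (by positivity), pow_succ, ← h5]
        have h7 : 0 ≤ (1 / 2 : ℝ) ^ V := by positivity
        calc (1 / 2 : ℝ) ^ V * 2 ^ (2 * S₀.card + V) * 4 ≤ (1 / 2 : ℝ) ^ V * 2 ^ (J.card - 1) * 4 := by
              gcongr
          _ = _ := by ring
      linarith
    have h4 : (((RR I K X z H k V).filter fun S => ky z H S = (S₀, J) ∧
        Nd6 (sm z S) (la z S)).card : ℝ) ≤
        (((RR I K X z H k V).filter fun S => ky z H S = (S₀, J)).card : ℝ) := by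
      have : (RR I K X z H k V).filter (fun S => ky z H S = (S₀, J) ∧ Nd6 (sm z S) (la z S)) ⊆
          (RR I K X z H k V).filter fun S => ky z H S = (S₀, J) := by
        intro S hS
        rw [Finset.mem_filter] at hS ⊢
        exact ⟨hS.1, hS.2.1⟩
      exact_mod_cast Finset.card_le_card this
    exact mul_le_mul h3 h4 (Nat.cast_nonneg _) (by positivity)
  · have hcard := hk.card
    have hJK : J.card ≤ k := by omega
    have hSK : S₀.card ≤ k := by omega
    have h5 : (2 : ℝ) ^ ((2 * S₀.card + 1) * Fintype.card J + Fintype.card J * Fintype.card J) ≤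
        3 ^ (3 * k ^ 2) := by
      have hexp : (2 * S₀.card + 1) * Fintype.card J + Fintype.card J * Fintype.card J ≤
          4 * k ^ 2 := by
        rw [hcJ]
        have h6 : S₀.card * J.card ≤ k * k := Nat.mul_le_mul hSK hJK
        have h7 : J.card ≤ k * k := hJK.trans (Nat.le_mul_self k)
        have h8 : J.card * J.card ≤ k * k := Nat.mul_le_mul hJK hJK
        calc (2 * S₀.card + 1) * J.card + J.card * J.card =
            2 * (S₀.card * J.card) + J.card + J.card * J.card := by ring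
          _ ≤ 2 * (k * k) + k * k + k * k := by omega
          _ = 4 * k ^ 2 := by ring
      calc (2 : ℝ) ^ ((2 * S₀.card + 1) * Fintype.card J + Fintype.card J * Fintype.card J) ≤
            2 ^ (4 * k ^ 2) := pow_le_pow_right₀ (by norm_num) hexp
        _ = (16 : ℝ) ^ (k ^ 2) := by rw [pow_mul]; norm_num
        _ ≤ (27 : ℝ) ^ (k ^ 2) := by
            apply pow_le_pow_left₀ <;> norm_num
        _ = 3 ^ (3 * k ^ 2) := by rw [pow_mul]; norm_num
    have hN0 : (0 : ℝ) < ((∏ p ∈ S₀, p : ℕ) : ℝ) := by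
      exact_mod_cast Finset.prod_pos fun p hp => (cl_prime (hk.cl p hp)).pos
    have hprod : ∏ j : J, (XX H j.1.1 : ℝ) ≤ X / ((∏ p ∈ S₀, p : ℕ) : ℝ) := by
      have h5 : ∏ j : J, (XX H j.1.1 : ℝ) = ((∏ k ∈ J, XX H k.1 : ℕ) : ℝ) := by
        rw [← Finset.prod_coe_sort J (fun k => XX H k.1)]
        push_cast
        rfl
      rw [h5, le_div_iff₀ hN0, mul_comm]
      exact_mod_cast hk.prod
    calc (2 : ℝ) ^ ((2 * S₀.card + 1) * Fintype.card J + Fintype.card J * Fintype.card J) *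
        (κ * ∏ j : J, (XX H j.1.1 : ℝ)) ≤
        3 ^ (3 * k ^ 2) * (κ * (X / ((∏ p ∈ S₀, p : ℕ) : ℝ))) := by gcongr
      _ = _ := by ring

end Run7.h843.Cnt
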