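import Pool.Agent.Run7.h238.WKey
import Pool.Agent.Run7.h843.C4

/-!
# The weighted sum over the boxes (after `Run7.h238.WKey`)
-/

set_option autoImplicit false

open scoped Classical

namespace Run7.h843.Cnt

open Finset hiding mk
open Pool.Agent.Y703.CX (sm la jj XX)
open Pool.Agent.R413.SQ
open Pool.Agent.Y703.CQ (nr sg prs HB S_EQ S_LA c2)
open Pool.Agent.R413.SQ.KEY (ph ky KP rr_iff rr_facts inj_ph card_sub TT mem_TT
  harm_TT cl_prime sm_la_card)
open Run7.h238.WFew
open Run7.h238.WKey (card_ky)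

/-- **the weighted form of KEY** -/
theorem wkey6 (hB1 : S_BIL) (hEQ : S_EQ) (hLA : S_LA) : ∃ C : ℝ, 1 ≤ C ∧
    ∀ (I K : Finset ℕ) (X z H k V N : ℕ) (κ : ℝ), Ok I K → 1 ≤ X → 1 ≤ H →
    1 ≤ z → 0 ≤ κ → C ≤ κ ^ 12 * z → (H : ℝ) * Real.log X < N →
    ∀ (g : Finset ℕ → ℝ) (M : ℝ), (∀ S, 0 ≤ g S) → (∀ S, g S ≤ M) → (∀ S, g S = g (sm z S)) →
    |∑ S ∈ (RR I K X z H k V).filter (fun S => Nd6 (sm z S) (la z S) ∧ Gd6 S),
        g S * 2 ^ S.card -
      c2 * ∑ S ∈ (RR I K X z H k V).filter (fun S => Nd6 (sm z S) (la z S)), g S * 2 ^ S.card| ≤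
    M * (8 * (1 / 2 : ℝ) ^ V * wt (RR I K X z H k V) +
    2 ^ k * ((9 * N + 9 : ℝ) ^ k * (3 ^ (3 * k ^ 2) * κ) * (X * (1 + Real.log X)))) := by
  obtain ⟨C₁, hC₁, h1⟩ := hB1
  refine ⟨C₁, hC₁, ?_⟩
  intro I K X z H k V N κ hok hX hH hz hκ hκz hN g M hg0 hgM hgs
  have hM : 0 ≤ M := (hg0 ∅).trans (hgM ∅)
  set T := (RR I K X z H k V).image (ky z H) with hT
  obtain ⟨B, hB⟩ : ∃ B : ℝ, B = 3 ^ (3 * k ^ 2) * κ := ⟨_, rfl⟩
  rw [← hB]
  have hB0 : 0 ≤ B := by
    rw [hB]
    positivity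
  -- the weight of a key
  set W : Finset ℕ × Finset (ℕ × ℕ) → ℝ := fun e => g e.1 * 2 ^ (e.1.card + e.2.card) with hW
  have hfib : ∀ (P : Finset ℕ → Prop) [DecidablePred P],
      ∑ S ∈ (RR I K X z H k V).filter (fun S => P S), g S * 2 ^ S.card =
      ∑ e ∈ T, W e * (((RR I K X z H k V).filter fun S => ky z H S = e ∧ P S).card : ℝ) := by
    intro P _
    rw [← sum_fiberwise_of_maps_to (g := ky z H) (t := T) (by
      intro S hS
      rw [Finset.mem_filter] at hS
      exact Finset.mem_image_of_mem _ hS.1)]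
    refine Finset.sum_congr rfl fun e _ => ?_
    have e1 : ((RR I K X z H k V).filter (fun S => P S)).filter (fun S => ky z H S = e) =
        (RR I K X z H k V).filter fun S => ky z H S = e ∧ P S := by
      ext S
      simp only [Finset.mem_filter]
      tauto
    rw [e1]
    have e2 : ∀ S ∈ (RR I K X z H k V).filter (fun S => ky z H S = e ∧ P S),
        g S * 2 ^ S.card = W e := by
      intro S hS
      rw [Finset.mem_filter] at hS
      rw [hW]
      simp only
      rw [card_ky hS.1, hgs S]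
      have e3 : sm z S = (ky z H S).1 := rfl
      rw [e3, hS.2.1]
    rw [sum_congr rfl e2, sum_const, nsmul_eq_mul, mul_comm]
  have hKP : ∀ e ∈ T, KP I K X z H k V e.1 e.2 := by
    intro e he
    rw [hT, Finset.mem_image] at he
    obtain ⟨S, hS, rfl⟩ := he
    obtain ⟨f1, f2, f3⟩ := rr_facts hS
    exact (rr_iff hH f1 (inj_ph f2)).1 hS
  have hf1 := hfib fun S => Nd6 (sm z S) (la z S) ∧ Gd6 S
  have hf2 := hfib fun S => Nd6 (sm z S) (la z S)
  have hW0 : ∀ e, 0 ≤ W e := fun e => mul_nonneg (hg0 _) (by positivity)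
  rw [hf1, hf2, Finset.mul_sum, ← Finset.sum_sub_distrib]
  refine (Finset.abs_sum_le_sum_abs _ _).trans ?_
  have h3 : ∀ e ∈ T, |W e * (((RR I K X z H k V).filter fun S => ky z H S = e ∧
        (Nd6 (sm z S) (la z S) ∧ Gd6 S)).card : ℝ) -
      c2 * (W e * (((RR I K X z H k V).filter fun S => ky z H S = e ∧
        Nd6 (sm z S) (la z S)).card : ℝ))| ≤
      M * (8 * (1 / 2 : ℝ) ^ V * (2 ^ (e.1.card + e.2.card) *
        (((RR I K X z H k V).filter fun S => ky z H S = e).card : ℝ)) +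
      2 ^ k * (B * (X / ((∏ p ∈ e.1, p : ℕ) : ℝ)))) := by
    intro e he
    obtain ⟨S₀, J⟩ := e
    have hk' := hKP _ he
    have h4 := per_key6 hEQ hLA hok (V := V) hH hκ hk' (hb_box6 hok h1 hH hz hκ hκz)
    rw [← hB] at h4
    have e4 : W (S₀, J) * (((RR I K X z H k V).filter fun S => ky z H S = (S₀, J) ∧
        (Nd6 (sm z S) (la z S) ∧ Gd6 S)).card : ℝ) -
      c2 * (W (S₀, J) * (((RR I K X z H k V).filter fun S => ky z H S = (S₀, J) ∧
        Nd6 (sm z S) (la z S)).card : ℝ)) = W (S₀, J) *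
      ((((RR I K X z H k V).filter fun S => ky z H S = (S₀, J) ∧
        (Nd6 (sm z S) (la z S) ∧ Gd6 S)).card : ℝ) -
      c2 * (((RR I K X z H k V).filter fun S => ky z H S = (S₀, J) ∧
        Nd6 (sm z S) (la z S)).card : ℝ)) := by ring
    rw [e4, abs_mul, abs_of_nonneg (hW0 _)]
    refine (mul_le_mul_of_nonneg_left h4 (hW0 _)).trans ?_
    have h5 : W (S₀, J) ≤ M * 2 ^ (S₀.card + J.card) :=
      mul_le_mul_of_nonneg_right (hgM _) (by positivity)
    have h6 : (2 : ℝ) ^ (S₀.card + J.card) ≤ 2 ^ k :=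
      pow_le_pow_right₀ (by norm_num) hk'.card
    have h7 : 0 ≤ B * ((X : ℝ) / ((∏ p ∈ S₀, p : ℕ) : ℝ)) := by positivity
    refine (mul_le_mul_of_nonneg_right h5 (add_nonneg (mul_nonneg (by positivity)
      (Nat.cast_nonneg _)) h7)).trans ?_
    simp only
    calc M * 2 ^ (S₀.card + J.card) * (8 * (1 / 2 : ℝ) ^ V *
        (((RR I K X z H k V).filter fun S => ky z H S = (S₀, J)).card : ℝ) +
        B * (X / ((∏ p ∈ S₀, p : ℕ) : ℝ))) =
        M * (8 * (1 / 2 : ℝ) ^ V * (2 ^ (S₀.card + J.card) *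
        (((RR I K X z H k V).filter fun S => ky z H S = (S₀, J)).card : ℝ)) +
        2 ^ (S₀.card + J.card) * (B * (X / ((∏ p ∈ S₀, p : ℕ) : ℝ)))) := by ring
      _ ≤ _ := by
        refine mul_le_mul_of_nonneg_left (add_le_add le_rfl ?_) hM
        exact mul_le_mul_of_nonneg_right h6 h7
  refine (Finset.sum_le_sum h3).trans ?_
  rw [← Finset.mul_sum, Finset.sum_add_distrib]
  refine mul_le_mul_of_nonneg_left (add_le_add (le_of_eq ?_) ?_) hM
  · rw [← Finset.mul_sum]
    congr 1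
    unfold wt
    rw [← sum_fiberwise_of_maps_to (g := ky z H) (t := T) (s := RR I K X z H k V)
      (fun S hS => Finset.mem_image_of_mem _ hS)]
    refine Finset.sum_congr rfl fun e _ => ?_
    have e2 : ∀ S ∈ (RR I K X z H k V).filter (fun S => ky z H S = e),
        (2 : ℝ) ^ S.card = 2 ^ (e.1.card + e.2.card) := by
      intro S hS
      rw [Finset.mem_filter] at hS
      rw [card_ky hS.1, hS.2]
    rw [sum_congr rfl e2, sum_const, nsmul_eq_mul, mul_comm]
  rw [← Finset.mul_sum]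
  refine mul_le_mul_of_nonneg_left ?_ (by positivity)
  have hsub : T ⊆ (TT X) ×ˢ ((range N ×ˢ range 8).powerset.filter fun J => J.card ≤ k) := by
    intro e he
    have hk' := hKP e he
    rw [hT, Finset.mem_image] at he
    obtain ⟨S, hS, rfl⟩ := he
    obtain ⟨f1, f2, f3⟩ := rr_facts hS
    rw [Finset.mem_product, Finset.mem_filter, Finset.mem_powerset]
    refine ⟨mem_TT (fun q hq => cl_prime (hk'.cl q hq)) ?_, ?_, ?_⟩
    · refine le_trans ?_ f3
      exact Nat.le_of_dvd (Finset.prod_pos fun p hp => (cl_prime (f1 p hp)).pos)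
        (Finset.prod_dvd_prod_of_subset _ _ _ (Finset.filter_subset _ _))
    · intro e he
      unfold ky at he
      rw [Finset.mem_image] at he
      obtain ⟨q, hq, rfl⟩ := he
      have hqS := (Finset.mem_filter.1 hq).1
      have hq0 := (cl_prime (f1 q hqS)).pos
      have hqX : q ≤ X := by
        refine le_trans ?_ f3
        exact Nat.le_of_dvd (Finset.prod_pos fun p hp => (cl_prime (f1 p hp)).pos)
          (Finset.dvd_prod_of_mem _ hqS)
      unfold ph
      rw [Finset.mem_product, Finset.mem_range, Finset.mem_range]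
      refine ⟨?_, mk_lt _⟩
      have h3 : ((jj H q : ℕ) : ℝ) < N := by
        refine lt_of_le_of_lt (Nat.floor_le (mul_nonneg (Nat.cast_nonneg _)
          (Real.log_nonneg (by exact_mod_cast hq0)))) ?_
        refine lt_of_le_of_lt ?_ hN
        refine mul_le_mul_of_nonneg_left ?_ (Nat.cast_nonneg _)
        exact Real.log_le_log (by exact_mod_cast hq0) (by exact_mod_cast hqX)
      exact_mod_cast h3
    · have := hk'.card
      omega
  refine (Finset.sum_le_sum_of_subset_of_nonneg hsub fun _ _ _ => by positivity).trans ?_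
  rw [Finset.sum_product]
  simp only [Finset.sum_const, nsmul_eq_mul]
  rw [← Finset.mul_sum]
  have h4 : ((((range N ×ˢ range 8).powerset.filter fun J => J.card ≤ k).card : ℕ) : ℝ) ≤
      (9 * N + 9 : ℝ) ^ k := by
    have h5 := card_sub (range N ×ˢ range 8) k
    rw [Finset.card_product, Finset.card_range, Finset.card_range] at h5
    calc ((((range N ×ˢ range 8).powerset.filter fun J => J.card ≤ k).card : ℕ) : ℝ) ≤
          (((N * 8 + 1) ^ k : ℕ) : ℝ) := by exact_mod_cast h5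
      _ = (N * 8 + 1 : ℝ) ^ k := by push_cast; ring
      _ ≤ _ := by
        apply pow_le_pow_left₀ (by positivity)
        have : (0 : ℝ) ≤ N := Nat.cast_nonneg _
        linarith
  have h5 : ∑ S ∈ TT X, B * (X / ((∏ p ∈ S, p : ℕ) : ℝ)) ≤ B * (X * (1 + Real.log X)) := by
    have h6 : ∀ S ∈ TT X, B * ((X : ℝ) / ((∏ p ∈ S, p : ℕ) : ℝ)) =
        B * X * (1 / ((∏ p ∈ S, p : ℕ) : ℝ)) := by
      intro S _
      ring
    rw [Finset.sum_congr rfl h6, ← Finset.mul_sum]
    have h7 := mul_le_mul_of_nonneg_left (harm_TT X) (mul_nonneg hB0 (Nat.cast_nonneg X))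
    refine h7.trans (le_of_eq ?_)
    ring
  have h6 : 0 ≤ ∑ S ∈ TT X, B * ((X : ℝ) / ((∏ p ∈ S, p : ℕ) : ℝ)) :=
    Finset.sum_nonneg fun _ _ => by positivity
  rw [mul_assoc]
  exact mul_le_mul h4 h5 h6 (by positivity)

end Run7.h843.Cnt
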