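import Pool.Agent.Run7.h843.C5
import Pool.Agent.Run7.h238.WBad
import Pool.Agent.N148.GB.HAL
import Pool.Agent.Y405.CQ.MER

/-!
# Sets with degenerate labels: the families
-/

set_option autoImplicit false

open scoped Classical

namespace Run7.h843.Cnt

open Finset
open Pool.Agent.Y699.E (sum_le_inj)
open Pool.Agent.Y703.CX (sm la)
open Pool.Agent.Y703.CQ (nr)
open Pool.Agent.R413.SQ (SS pr1 of_pr1)
open Pool.Agent.R413.SQ.BAD (prod_pos_of prod_sub_le sub_range)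
open Run7.h238.WFew (wt wt_nonneg wt_mono wt_union)
open Run7.h843.Desc (f2)

/-- the family of the possible large parts -/
noncomputable def fam6 (W : Finset ℕ) (Y : ℕ) : Finset (Finset ℕ) :=
  (range (Y + 1)).powerset.filter fun T =>
    (∀ p ∈ T, (p.Prime ∧ p % 8 = 1 ∧ p ∉ W ∧ ∑ u ∈ W, nr p u = 0) ∨
      (W.Nonempty ∧ p.Prime ∧ p % 8 = 5)) ∧ ∏ p ∈ T, p ≤ Y

/-- the primes of a class modulo `8` up to `Y` -/
noncomputable def NC (a Y : ℕ) : Finset ℕ := (range (Y + 1)).filter fun r => r.Prime ∧ r % 8 = a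

theorem mer8 (a : ℕ) (ha : a = 1 ∨ a = 5) : ∃ C : ℝ, 0 ≤ C ∧ ∀ y : ℕ, 3 ≤ y →
    ∑ r ∈ NC a y, (1 : ℝ) / r ≤ 1 / 4 * Real.log (Real.log y) + C := by
  have ha' : a.Coprime 8 := by rcases ha with rfl | rfl <;> decide
  have ha8 : a < 8 := by omega
  obtain ⟨C, -, hC⟩ := Pool.Agent.Y405.CQ.mertens_ap 8 (by norm_num) a ha8 ha'
  refine ⟨|C|, abs_nonneg _, fun y hy => ?_⟩
  have h1 := hC y hy
  have h2 : Nat.totient 8 = 4 := by decide
  rw [h2] at h1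
  have h3 : NC a y = (Icc 1 y).filter (fun p => p.Prime ∧ p % 8 = a) := by
    unfold NC
    ext p
    rw [mem_filter, mem_filter, mem_range, mem_Icc]
    constructor
    · rintro ⟨g1, g2, g3⟩
      exact ⟨⟨g2.one_lt.le, by omega⟩, g2, g3⟩
    · rintro ⟨⟨g0, g1⟩, g2, g3⟩
      exact ⟨by omega, g2, g3⟩
  have h4 := (abs_le.1 h1).2
  rw [h3]
  push_cast at h4
  have h5 := le_abs_self C
  linarith

/-- the sum over the sets of primes of a class -/
theorem sum_NC (a : ℕ) (Y : ℕ) :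
    ∑ T ∈ (NC a Y).powerset, (1 : ℝ) / ((∏ p ∈ T, p : ℕ) : ℝ) ≤
      Real.exp (∑ r ∈ NC a Y, (1 : ℝ) / r) := by
  have e1 : ∀ T ∈ (NC a Y).powerset, (1 : ℝ) / ((∏ p ∈ T, p : ℕ) : ℝ) = ∏ p ∈ T, (1 / (p : ℝ)) := by
    intro T _
    rw [prod_div_distrib, prod_const_one]
    push_cast
    rfl
  rw [sum_congr rfl e1]
  calc ∑ S ∈ (NC a Y).powerset, ∏ p ∈ S, (1 / (p : ℝ)) = ∏ p ∈ NC a Y, (1 + 1 / (p : ℝ)) := by
        rw [prod_one_add]
    _ ≤ ∏ p ∈ NC a Y, Real.exp (1 / (p : ℝ)) := by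
        refine prod_le_prod (fun _ _ => by positivity) fun p _ => ?_
        rw [add_comm]
        exact Real.add_one_le_exp _
    _ = Real.exp (∑ p ∈ NC a Y, 1 / (p : ℝ)) := by rw [Real.exp_sum]

theorem fam6_prime {W : Finset ℕ} {Y : ℕ} {T : Finset ℕ} (hT : T ∈ fam6 W Y) :
    ∀ p ∈ T, p.Prime := by
  intro p hp
  rw [fam6, mem_filter] at hT
  rcases hT.2.1 p hp with h | h
  · exact h.1
  · exact h.2.1

/-- the logarithmic sum over the family -/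
theorem fam6_sum (W : Finset ℕ) (Y : ℕ) :
    ∑ T ∈ fam6 W Y, (1 : ℝ) / ((∏ p ∈ T, p : ℕ) : ℝ) ≤
      (∑ S ∈ Pool.Agent.N916.GB.HD W Y, (1 : ℝ) / ((∏ p ∈ S, p : ℕ) : ℝ)) *
        ∑ T ∈ (NC 5 Y).powerset, (1 : ℝ) / ((∏ p ∈ T, p : ℕ) : ℝ) := by
  rw [sum_mul_sum, ← sum_product' (f := fun S T => (1 : ℝ) / ((∏ p ∈ S, p : ℕ) : ℝ) *
    ((1 : ℝ) / ((∏ p ∈ T, p : ℕ) : ℝ)))]
  refine sum_le_inj (fun T => (T.filter (fun p => p % 8 = 1), T.filter (fun p => ¬ p % 8 = 1)))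
    ?_ ?_ ?_ ?_
  · intro T hT
    have hp0 := fam6_prime hT
    rw [fam6, mem_filter, mem_powerset] at hT
    obtain ⟨h1, h2, h3⟩ := hT
    rw [mem_product]
    refine ⟨?_, ?_⟩
    · rw [Pool.Agent.N916.GB.HD, mem_filter, mem_powerset]
      refine ⟨(filter_subset _ _).trans h1, fun p hp => ?_,
        (prod_sub_le (filter_subset _ _) hp0).trans h3⟩
      obtain ⟨k1, k2⟩ := mem_filter.1 hp
      rcases h2 p k1 with h | h
      · exact h
      · omega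
    · rw [mem_powerset]
      intro p hp
      obtain ⟨k1, k2⟩ := mem_filter.1 hp
      rw [NC, mem_filter]
      refine ⟨h1 k1, ?_⟩
      rcases h2 p k1 with h | h
      · exact absurd h.2.1 k2
      · exact h.2
  · intro S hS T hT h
    simp only [Prod.mk.injEq] at h
    rw [← filter_union_filter_not_eq (fun p => p % 8 = 1) S,
      ← filter_union_filter_not_eq (fun p => p % 8 = 1) T, h.1, h.2]
  · intro T hT
    apply le_of_eq
    have e1 : ∏ p ∈ T, p = (∏ p ∈ T.filter (fun p => p % 8 = 1), p) *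
        ∏ p ∈ T.filter (fun p => ¬ p % 8 = 1), p :=
      (prod_filter_mul_prod_filter_not T (fun p => p % 8 = 1) _).symm
    simp only
    rw [e1]
    push_cast
    rw [one_div_mul_one_div]
  · intro x _
    positivity

/-- the bound for the logarithmic sum -/
theorem fam6_le : ∃ C : ℝ, 1 ≤ C ∧ ∀ (W : Finset ℕ) (Y : ℕ), 3 ≤ Y →
    (∀ u ∈ W, u.Prime ∧ u % 4 = 1) →
    ∑ T ∈ fam6 W Y, (1 : ℝ) / ((∏ p ∈ T, p : ℕ) : ℝ) ≤
      C * (1 + (Real.log ((∏ u ∈ W, u : ℕ) : ℝ)) ^ (1 / 2 : ℝ)) * (Real.log Y) ^ (3 / 8 : ℝ) := by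
  obtain ⟨C₂, h21, h2⟩ := Pool.Agent.N148.GB.t_HAL
  obtain ⟨c1, hc10, hc1⟩ := mer8 1 (Or.inl rfl)
  obtain ⟨c5, hc50, hc5⟩ := mer8 5 (Or.inr rfl)
  refine ⟨C₂ * Real.exp c5 + Real.exp c1, ?_, fun W Y hY hW => ?_⟩
  · have := Real.one_le_exp hc10
    have h3 := Real.exp_pos c5
    nlinarith
  have hY0 : (3 : ℝ) ≤ Y := by exact_mod_cast hY
  have hl : 1 < Real.log Y := by
    rw [Real.lt_log_iff_exp_lt (by linarith)]
    have := Real.exp_one_lt_d9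
    linarith
  have hl0 : 0 < Real.log Y := by linarith
  have hrt : 0 ≤ (Real.log ((∏ u ∈ W, u : ℕ) : ℝ)) ^ (1 / 2 : ℝ) :=
    Real.rpow_nonneg (Real.log_natCast_nonneg _) _
  have hexp : ∀ c : ℝ, Real.exp (1 / 4 * Real.log (Real.log Y) + c) =
      Real.exp c * (Real.log Y) ^ (1 / 4 : ℝ) := by
    intro c
    rw [Real.exp_add, Real.rpow_def_of_pos hl0, mul_comm]
    congr 2
    ring
  rcases W.eq_empty_or_nonempty with rfl | hWn
  · have h3 : fam6 ∅ Y ⊆ (NC 1 Y).powerset := by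
      intro T hT
      rw [fam6, mem_filter, mem_powerset] at hT
      rw [mem_powerset]
      intro p hp
      rw [NC, mem_filter]
      refine ⟨hT.1 hp, ?_⟩
      rcases hT.2.1 p hp with h | h
      · exact ⟨h.1, h.2.1⟩
      · exact absurd h.1 not_nonempty_empty
    have h4 := (sum_le_sum_of_subset_of_nonneg (f := fun T : Finset ℕ =>
      (1 : ℝ) / ((∏ p ∈ T, p : ℕ) : ℝ)) h3 fun _ _ _ => by positivity).trans (sum_NC 1 Y)
    refine h4.trans ((Real.exp_le_exp.2 (hc1 Y hY)).trans ?_)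
    rw [hexp]
    have h5 : (Real.log Y) ^ (1 / 4 : ℝ) ≤ (Real.log Y) ^ (3 / 8 : ℝ) :=
      Real.rpow_le_rpow_of_exponent_le hl.le (by norm_num)
    have h6 : 0 ≤ (Real.log Y) ^ (3 / 8 : ℝ) := Real.rpow_nonneg hl0.le _
    have h7 : Real.exp c1 ≤ (C₂ * Real.exp c5 + Real.exp c1) *
        (1 + (Real.log ((∏ u ∈ (∅ : Finset ℕ), u : ℕ) : ℝ)) ^ (1 / 2 : ℝ)) := by
      have h8 : Real.exp c1 ≤ C₂ * Real.exp c5 + Real.exp c1 := by
        have := Real.exp_pos c5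
        nlinarith
      have h9 : 0 ≤ C₂ * Real.exp c5 + Real.exp c1 := (Real.exp_pos _).le.trans h8
      nlinarith
    exact mul_le_mul h7 h5 (Real.rpow_nonneg hl0.le _) ((Real.exp_pos _).le.trans h7)
  · have h3 := h2 W Y hWn (fun u hu => ⟨(hW u hu).1, by
      rintro rfl
      have := (hW 2 hu).2
      omega⟩) (by omega)
    have h4 := (sum_NC 5 Y).trans (Real.exp_le_exp.2 (hc5 Y hY))
    rw [hexp] at h4
    have h5 : 0 ≤ ∑ T ∈ (NC 5 Y).powerset, (1 : ℝ) / ((∏ p ∈ T, p : ℕ) : ℝ) :=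
      sum_nonneg fun _ _ => by positivity
    have h6 : 0 ≤ ∑ S ∈ Pool.Agent.N916.GB.HD W Y, (1 : ℝ) / ((∏ p ∈ S, p : ℕ) : ℝ) :=
      sum_nonneg fun _ _ => by positivity
    have h7 := (fam6_sum W Y).trans (mul_le_mul h3 h4 h5 (h6.trans h3))
    refine h7.trans ?_
    have h8 : (Real.log Y) ^ (1 / 8 : ℝ) * (Real.log Y) ^ (1 / 4 : ℝ) =
        (Real.log Y) ^ (3 / 8 : ℝ) := by
      rw [← Real.rpow_add hl0]
      norm_num
    have h9 : 0 ≤ (Real.log Y) ^ (3 / 8 : ℝ) := Real.rpow_nonneg hl0.le _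
    calc C₂ * Real.log ((∏ u ∈ W, u : ℕ) : ℝ) ^ (1 / 2 : ℝ) * Real.log Y ^ (1 / 8 : ℝ) *
          (Real.exp c5 * Real.log Y ^ (1 / 4 : ℝ)) =
          (C₂ * Real.exp c5) * Real.log ((∏ u ∈ W, u : ℕ) : ℝ) ^ (1 / 2 : ℝ) *
            (Real.log Y ^ (1 / 8 : ℝ) * Real.log Y ^ (1 / 4 : ℝ)) := by ring
      _ = (C₂ * Real.exp c5) * Real.log ((∏ u ∈ W, u : ℕ) : ℝ) ^ (1 / 2 : ℝ) *
            Real.log Y ^ (3 / 8 : ℝ) := by rw [h8]
      _ ≤ _ := by
          refine mul_le_mul_of_nonneg_right ?_ h9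
          have k1 := Real.exp_pos c1
          have k2 := Real.exp_pos c5
          have k3 : 0 < C₂ * Real.exp c5 := by positivity
          exact mul_le_mul (by linarith) (by linarith) hrt (by linarith)

/-- degenerate labels -/
theorem notNd6 {S T : Finset ℕ} (h : ¬ Nd6 S T) (hT : ∀ p ∈ T, p % 4 = 1) :
    ∃ W : Finset ℕ, W ⊆ S ∧ ∀ p ∈ T, (p % 8 = 1 ∧ ∑ u ∈ W, nr p u = 0) ∨
      (W.Nonempty ∧ p % 8 = 5) := by
  unfold Nd6 at h
  push Not at h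
  obtain ⟨w, w2, h1, h2⟩ := h
  refine ⟨S.filter fun u => w u ≠ 0, filter_subset _ _, fun p hp => ?_⟩
  have h4 := hT p hp
  have e : ∑ u ∈ S.filter (fun u => w u ≠ 0), nr p u = ∑ u ∈ S, w u * nr p u := by
    rw [sum_filter]
    refine sum_congr rfl fun u _ => ?_
    rcases Run7.h843.Desc.zmod2_cases (w u) with h | h
    · rw [h]
      simp
    · rw [h]
      simp
  rcases (show p % 8 = 1 ∨ p % 8 = 5 by omega) with h8 | h8
  · left
    refine ⟨h8, ?_⟩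
    have h5 := h2 p hp
    have h6 : f2 p = 0 := by
      unfold Run7.h843.Desc.f2
      rw [if_neg (by omega)]
    rw [h6, mul_zero, add_zero] at h5
    rw [e, h5]
  · right
    refine ⟨?_, h8⟩
    rcases h1 with ⟨u, hu, hu2⟩ | h1
    · exact ⟨u, mem_filter.2 ⟨hu, hu2⟩⟩
    · rw [nonempty_iff_ne_empty]
      intro h0
      have h5 := h2 p hp
      have h6 : f2 p = 1 := by
        unfold Run7.h843.Desc.f2
        rw [if_pos h8]
      rw [h6, mul_one, ← e, h0, sum_empty, zero_add] at h5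
      exact h1 h5

end Run7.h843.Cnt
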