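import Pool.Agent.Run7.h843.B6
import Pool.Agent.Run7.h843.C9

/-!
# The criterion in elementary terms
-/

set_option autoImplicit false

namespace Run7.h843.Fin

open Finset
open Pool.Agent.Y703.CQ (nr)
open Run7.h843.Desc
open Run7.h843.Cnt (Gd6)
open Run7.h238.Pairs

/-- the squarefree part of `n` -/
def sf (n : ℕ) : ℕ := ∏ p ∈ oddP n, p

theorem sf_pf {n : ℕ} : (sf n).primeFactors = oddP n :=
  Nat.primeFactors_prod fun _ hp => prime_oddP hp

theorem sf_sq {n : ℕ} : Squarefree (sf n) := by
  refine Finset.squarefree_prod_of_pairwise_isCoprime (fun p hp q hq hpq => ?_)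
    fun p hp => (prime_oddP hp).squarefree
  show IsRelPrime p q
  rw [← Nat.coprime_iff_isRelPrime]
  exact (Nat.coprime_primes (prime_oddP hp) (prime_oddP hq)).mpr hpq

/-- the criterion: `D = d e` and `2 e` is a square modulo each prime divisor of `d` and `d` is a
square modulo each prime divisor of `e` only for `d = 1` -/
def Cri (D : ℕ) : Prop := ∀ d e : ℕ, d * e = D →
  (∀ p : ℕ, p.Prime → p ∣ d → IsSquare ((2 * e : ℕ) : ZMod p)) →
  (∀ p : ℕ, p.Prime → p ∣ e → IsSquare ((d : ℕ) : ZMod p)) → d = 1

theorem ch_zero_iff {p : ℕ} {A : ℤ} : ch p A = 0 ↔ IsSquare (A : ZMod p) := by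
  classical
  unfold ch
  split_ifs with h
  · exact ⟨fun _ => h, fun _ => rfl⟩
  · exact ⟨fun h1 => absurd h1 (by decide), fun h1 => absurd h1 h⟩

/-- the symbol of a squarefree number prime to `p` -/
theorem ch_prod {p : ℕ} [Fact p.Prime] (hp : p % 4 = 1) {d : ℕ} (hd : Squarefree d)
    (hpd : ¬ p ∣ d) : ch p (d : ℤ) = ∑ q ∈ d.primeFactors, nr p q := by
  have h1 : ¬ (p : ℤ) ∣ (d : ℤ) := by exact_mod_cast hpd
  rw [← lam_unit hp h1, lam_eq_sum (S := d.primeFactors) fun q _ hq => vv_not_mem hq]
  exact sum_congr rfl fun q hq => by rw [vv_sqfree hd hq, one_mul]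

theorem cri_iff {D : ℕ} (hD : Squarefree D) (h4 : ∀ p ∈ D.primeFactors, p % 4 = 1) :
    Gd6 D.primeFactors ↔ Cri D := by
  classical
  have h2D : ¬ 2 ∣ D := by
    intro h
    have := h4 2 (Nat.mem_primeFactors.2 ⟨Nat.prime_two, h, hD.ne_zero⟩)
    omega
  constructor
  · intro hG d e hde h1 h2
    have hsq : Squarefree (d * e) := hde ▸ hD
    have hd : Squarefree d := hsq.of_mul_left
    have he : Squarefree e := hsq.of_mul_right
    have hco : Nat.Coprime d e := (Nat.squarefree_mul_iff.1 hsq).1
    have hpf : D.primeFactors = d.primeFactors ∪ e.primeFactors := by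
      rw [← hde]
      exact Nat.primeFactors_mul hd.ne_zero he.ne_zero
    have hdisj : Disjoint d.primeFactors e.primeFactors := hco.disjoint_primeFactors
    set x : ℕ → ZMod 2 := fun p => if p ∣ d then 1 else 0 with hx
    have hxd : ∀ q ∈ d.primeFactors, x q = 1 := fun q hq => by
      rw [hx]
      simp only
      rw [if_pos (Nat.dvd_of_mem_primeFactors hq)]
    have hxe : ∀ q ∈ e.primeFactors, x q = 0 := fun q hq => by
      rw [hx]
      simp only
      rw [if_neg]
      intro h
      have h3 : q ∈ d.primeFactors :=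
        Nat.mem_primeFactors.2 ⟨Nat.prime_of_mem_primeFactors hq, h, hd.ne_zero⟩
      exact Finset.disjoint_left.1 hdisj h3 hq
    have hz := hG x (by
      intro p hp
      have hpp := Nat.prime_of_mem_primeFactors hp
      have : Fact p.Prime := ⟨hpp⟩
      have hp4 := h4 p hp
      rw [hpf, sum_union hdisj]
      rw [hpf, mem_union] at hp
      rcases hp with hp | hp
      · have hpe : ¬ p ∣ e := by
          intro h
          have h3 : p ∈ e.primeFactors := Nat.mem_primeFactors.2 ⟨hpp, h, he.ne_zero⟩
          exact Finset.disjoint_left.1 hdisj hp h3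
        have e1 : ∑ q ∈ d.primeFactors, nr p q * (x q + x p) = 0 := by
          refine sum_eq_zero fun q hq => ?_
          rw [hxd q hq, hxd p hp]
          have : (1 : ZMod 2) + 1 = 0 := by decide
          rw [this, mul_zero]
        have e2 : ∑ q ∈ e.primeFactors, nr p q * (x q + x p) = ∑ q ∈ e.primeFactors, nr p q := by
          refine sum_congr rfl fun q hq => ?_
          rw [hxe q hq, hxd p hp, zero_add, mul_one]
        rw [e1, e2, hxd p hp, zero_add, mul_one, ← ch_prod hp4 he hpe, ← ch_two hp4, add_comm,
          ← ch_mul]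
        · rw [ch_zero_iff]
          have := h1 p hpp (Nat.dvd_of_mem_primeFactors hp)
          push_cast at this ⊢
          exact this
        · rw [cast_ne]
          intro h
          have h5 : p ∣ 2 := by exact_mod_cast h
          have h6 := (Nat.prime_dvd_prime_iff_eq hpp Nat.prime_two).1 h5
          rw [h6] at hp4
          omega
        · rw [cast_ne]
          intro h
          exact hpe (by exact_mod_cast h)
      · have hpd : ¬ p ∣ d := by
          intro h
          have h3 : p ∈ d.primeFactors := Nat.mem_primeFactors.2 ⟨hpp, h, hd.ne_zero⟩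
          exact Finset.disjoint_left.1 hdisj h3 hp
        have e1 : ∑ q ∈ d.primeFactors, nr p q * (x q + x p) = ∑ q ∈ d.primeFactors, nr p q := by
          refine sum_congr rfl fun q hq => ?_
          rw [hxd q hq, hxe p hp, add_zero, mul_one]
        have e2 : ∑ q ∈ e.primeFactors, nr p q * (x q + x p) = 0 := by
          refine sum_eq_zero fun q hq => ?_
          rw [hxe q hq, hxe p hp, add_zero, mul_zero]
        rw [e1, e2, hxe p hp, add_zero, mul_zero, add_zero, ← ch_prod hp4 hd hpd, ch_zero_iff]
        exact_mod_cast h2 p hpp (Nat.dvd_of_mem_primeFactors hp))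
    by_contra hne
    obtain ⟨q, hq, hqd⟩ := Nat.exists_prime_and_dvd hne
    have h3 : q ∈ d.primeFactors := Nat.mem_primeFactors.2 ⟨hq, hqd, hd.ne_zero⟩
    have h5 := hz q (by rw [hpf]; exact mem_union_left _ h3)
    rw [hxd q h3] at h5
    exact absurd h5 (by decide)
  · intro hC x hx
    set T := D.primeFactors.filter fun p => x p ≠ 0 with hT
    set T' := D.primeFactors.filter fun p => ¬ x p ≠ 0 with hT'
    set d := ∏ p ∈ T, p with hd
    set e := ∏ p ∈ T', p with he
    have hTp : ∀ p ∈ T, p.Prime := fun p hp => Nat.prime_of_mem_primeFactors (mem_filter.1 hp).1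
    have hTp' : ∀ p ∈ T', p.Prime := fun p hp => Nat.prime_of_mem_primeFactors (mem_filter.1 hp).1
    have hde : d * e = D := by
      rw [hd, he, hT, hT', prod_filter_mul_prod_filter_not]
      exact Nat.prod_primeFactors_of_squarefree hD
    have hsq : Squarefree (d * e) := hde.symm ▸ hD
    have hds : Squarefree d := hsq.of_mul_left
    have hes : Squarefree e := hsq.of_mul_right
    have hdp : d.primeFactors = T := Nat.primeFactors_prod hTp
    have hep : e.primeFactors = T' := Nat.primeFactors_prod hTp'
    have hdisj : Disjoint T T' := disjoint_filter_filter_not _ _ _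
    have hun : D.primeFactors = T ∪ T' := (filter_union_filter_not_eq _ _).symm
    have hxT : ∀ p ∈ T, x p = 1 := by
      intro p hp
      rcases zmod2_cases (x p) with h | h
      · exact absurd h (mem_filter.1 hp).2
      · exact h
    have hxT' : ∀ p ∈ T', x p = 0 := by
      intro p hp
      exact not_not.1 (mem_filter.1 hp).2
    have h1 := hC d e hde (by
      intro p hpp hpd
      have : Fact p.Prime := ⟨hpp⟩
      have hpT : p ∈ T := by
        rw [← hdp]
        exact Nat.mem_primeFactors.2 ⟨hpp, hpd, hds.ne_zero⟩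
      have hpD : p ∈ D.primeFactors := by
        rw [hun]
        exact mem_union_left _ hpT
      have hp4 := h4 p hpD
      have hpe : ¬ p ∣ e := by
        intro h
        have h3 : p ∈ T' := by
          rw [← hep]
          exact Nat.mem_primeFactors.2 ⟨hpp, h, hes.ne_zero⟩
        exact Finset.disjoint_left.1 hdisj hpT h3
      have h3 := hx p hpD
      rw [hun, sum_union hdisj] at h3
      have e1 : ∑ q ∈ T, nr p q * (x q + x p) = 0 := by
        refine sum_eq_zero fun q hq => ?_
        rw [hxT q hq, hxT p hpT]
        have : (1 : ZMod 2) + 1 = 0 := by decide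
        rw [this, mul_zero]
      have e2 : ∑ q ∈ T', nr p q * (x q + x p) = ∑ q ∈ T', nr p q := by
        refine sum_congr rfl fun q hq => ?_
        rw [hxT' q hq, hxT p hpT, zero_add, mul_one]
      rw [e1, e2, hxT p hpT, zero_add, mul_one, ← hep, ← ch_prod hp4 hes hpe, ← ch_two hp4,
        add_comm, ← ch_mul, ch_zero_iff] at h3
      · push_cast at h3 ⊢
        exact h3
      · rw [cast_ne]
        intro h
        have h5 : p ∣ 2 := by exact_mod_cast h
        have h6 := (Nat.prime_dvd_prime_iff_eq hpp Nat.prime_two).1 h5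
        rw [h6] at hp4
        omega
      · rw [cast_ne]
        intro h
        exact hpe (by exact_mod_cast h)) (by
      intro p hpp hpe
      have : Fact p.Prime := ⟨hpp⟩
      have hpT' : p ∈ T' := by
        rw [← hep]
        exact Nat.mem_primeFactors.2 ⟨hpp, hpe, hes.ne_zero⟩
      have hpD : p ∈ D.primeFactors := by
        rw [hun]
        exact mem_union_right _ hpT'
      have hp4 := h4 p hpD
      have hpd : ¬ p ∣ d := by
        intro h
        have h3 : p ∈ T := by
          rw [← hdp]
          exact Nat.mem_primeFactors.2 ⟨hpp, h, hds.ne_zero⟩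
        exact Finset.disjoint_left.1 hdisj h3 hpT'
      have h3 := hx p hpD
      rw [hun, sum_union hdisj] at h3
      have e1 : ∑ q ∈ T, nr p q * (x q + x p) = ∑ q ∈ T, nr p q := by
        refine sum_congr rfl fun q hq => ?_
        rw [hxT q hq, hxT' p hpT', add_zero, mul_one]
      have e2 : ∑ q ∈ T', nr p q * (x q + x p) = 0 := by
        refine sum_eq_zero fun q hq => ?_
        rw [hxT' q hq, hxT' p hpT', add_zero, mul_zero]
      rw [e1, e2, hxT' p hpT', mul_zero, add_zero, add_zero, ← hdp, ← ch_prod hp4 hds hpd,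
        ch_zero_iff] at h3
      exact_mod_cast h3)
    intro p hp
    by_contra hne
    have hpT : p ∈ T := mem_filter.2 ⟨hp, hne⟩
    have : p ∣ d := dvd_prod_of_mem _ hpT
    rw [h1] at this
    exact (Nat.prime_of_mem_primeFactors hp).one_lt.ne' (Nat.dvd_one.1 this)

end Run7.h843.Fin
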