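import Pool.Agent.Run7.h843.F2
import Pool.Agent.Run7.h238.Half

/-!
# Pairs of odd integers
-/

set_option autoImplicit false

open scoped Classical

namespace Run7.h843.Fin

open Finset Filter
open Run7.h238.Pairs Run7.h238.Disc
open Run7.h238.Half (nm_int rho nm_rho rho_inj CX_tendsto)
open Run7.h843.Cnt (Gd6 dv6 tendsto_zero6)
open Pool.Agent.Y703.CQ (c2)

/-- the pairs of odd norm -/
noncomputable def OX (X : ℕ) : Finset (ℤ × ℤ) := (Bx X).filter fun v => nm v % 2 = 1

theorem even_even {v : ℤ × ℤ} (h0 : nm v ≠ 0) (h2 : 2 ∉ oddP (nm v)) (he : ¬ nm v % 2 = 1) :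
    ∃ w : ℤ × ℤ, mu 2 w = v := by
  have h4 : 4 ∣ nm v := by
    have h5 : 2 ∣ nm v := by omega
    have h6 : Even ((nm v).factorization 2) := by
      rw [mem_oddP, Nat.not_odd_iff_even] at h2
      exact h2
    have h7 := Nat.prime_two.factorization_pos_of_dvd h0 h5
    obtain ⟨k, hk⟩ := h6
    have h8 : 2 ^ 2 ∣ nm v := (Nat.prime_two.pow_dvd_iff_le_factorization h0).2 (by omega)
    exact h8
  have h6 := nm_int v
  have h7 : (v.1 ^ 2 + v.2 ^ 2) % 4 = 0 := by omega
  have key : ∀ a : ℤ, (a % 2 = 0 ∧ a ^ 2 % 4 = 0) ∨ (a % 2 = 1 ∧ a ^ 2 % 4 = 1) := by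
    intro a
    rcases Int.emod_two_eq_zero_or_one a with h | h
    · left
      refine ⟨h, ?_⟩
      obtain ⟨k, rfl⟩ : ∃ k, a = 2 * k := ⟨a / 2, by omega⟩
      have : (2 * k) ^ 2 = 4 * k ^ 2 := by ring
      omega
    · right
      refine ⟨h, ?_⟩
      obtain ⟨k, rfl⟩ : ∃ k, a = 2 * k + 1 := ⟨a / 2, by omega⟩
      have : (2 * k + 1) ^ 2 = 4 * (k ^ 2 + k) + 1 := by ring
      omega
  rcases key v.1 with ⟨a1, a2⟩ | ⟨a1, a2⟩ <;> rcases key v.2 with ⟨b1, b2⟩ | ⟨b1, b2⟩
  · refine ⟨(v.1 / 2, v.2 / 2), ?_⟩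
    unfold mu
    refine Prod.ext ?_ ?_
    · simp only
      push_cast
      omega
    · simp only
      push_cast
      omega
  · omega
  · omega
  · omega

theorem split (G : Finset ℕ → Prop) (X : ℕ) :
    ((CX X).filter fun v => G (oddP (nm v))).card =
      ((OX X).filter fun v => G (oddP (nm v))).card +
        ((CX (X / 4)).filter fun v => G (oddP (nm v))).card := by
  have h1 : ((CX X).filter fun v => G (oddP (nm v))).card =
      (((CX X).filter fun v => G (oddP (nm v))).filter fun v => nm v % 2 = 1).card +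
      (((CX X).filter fun v => G (oddP (nm v))).filter fun v => ¬ nm v % 2 = 1).card :=
    (card_filter_add_card_filter_not _).symm
  rw [h1]
  congr 1
  · congr 1
    ext v
    unfold CX OX
    simp only [mem_filter, mem_Bx]
    constructor
    · rintro ⟨⟨⟨a, -⟩, b⟩, c⟩
      exact ⟨⟨a, c⟩, b⟩
    · rintro ⟨⟨a, c⟩, b⟩
      refine ⟨⟨⟨a, by omega, ?_⟩, b⟩, c⟩
      intro h
      have := Run7.h238.Half.even_of h
      omega
  · symm
    refine card_bij (fun v _ => mu 2 v) ?_ (fun v _ w _ h => mu_inj two_ne_zero h) ?_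
    · intro v hv
      unfold CX at hv ⊢
      simp only [mem_filter, mem_Bx] at hv ⊢
      obtain ⟨⟨a, b, c⟩, d⟩ := hv
      have e1 := oddP_sq (k := 2) (n := nm v) two_ne_zero b
      rw [nm_mu, e1]
      exact ⟨⟨⟨by omega, by omega, c⟩, d⟩, by omega⟩
    · intro v hv
      unfold CX at hv
      simp only [mem_filter, mem_Bx] at hv
      obtain ⟨⟨⟨a, b, c⟩, d⟩, e⟩ := hv
      obtain ⟨w, rfl⟩ := even_even b c e
      refine ⟨w, ?_, rfl⟩
      rw [nm_mu] at a b c d
      have b' : nm w ≠ 0 := by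
        intro h
        rw [h] at b
        exact b (by norm_num)
      have e1 := oddP_sq (k := 2) (n := nm w) two_ne_zero b'
      rw [e1] at c d
      unfold CX
      simp only [mem_filter, mem_Bx]
      exact ⟨⟨by omega, b', c⟩, d⟩

/-- rescaling of a limit -/
theorem tend_div {f : ℕ → ℝ} {l : ℝ} (h : Tendsto (fun X : ℕ => f X / X) atTop (nhds l)) {k : ℕ}
    (hk : k ≠ 0) : Tendsto (fun X : ℕ => f (X / k) / X) atTop (nhds (l / k)) := by
  have h1 : Tendsto (fun X : ℕ => X / k) atTop atTop := Nat.tendsto_div_const_atTop hk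
  have h2 := h.comp h1
  have hk0 : (0 : ℝ) < k := by exact_mod_cast Nat.pos_of_ne_zero hk
  have h3 : Tendsto (fun X : ℕ => ((X / k : ℕ) : ℝ) / X) atTop (nhds (1 / k)) := by
    have h4 := tendsto_nat_floor_mul_div_atTop (R := ℝ) (a := 1 / k) (by positivity)
    have h5 := h4.comp tendsto_natCast_atTop_atTop (α := ℕ) (β := ℝ)
    refine h5.congr fun X => ?_
    simp only [Function.comp]
    congr 2
    rw [one_div_mul_eq_div]
    exact Nat.floor_div_eq_div X k
  have h4 := h2.mul h3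
  rw [mul_one_div] at h4
  refine h4.congr' ?_
  filter_upwards [h1.eventually (eventually_ge_atTop 1)] with X hX
  have : ((X / k : ℕ) : ℝ) ≠ 0 := by
    have : (0 : ℝ) < ((X / k : ℕ) : ℝ) := by exact_mod_cast hX
    exact this.ne'
  simp only [Function.comp]
  field_simp

/-- the good pairs of the class -/
theorem CX_good : Tendsto (fun X : ℕ => (((CX X).filter fun v => Gd6 (oddP (nm v))).card : ℝ) / X)
    atTop (nhds (2 / 3 * ar * c2)) := by
  have h1 := tendsto_zero6
  have h2 := CX_tendsto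
  have h3 := h1.add (h2.mul_const c2)
  rw [zero_add] at h3
  refine h3.congr fun X => ?_
  have e : ∑ v ∈ CX X, dv6 (oddP (nm v)) =
      (((CX X).filter fun v => Gd6 (oddP (nm v))).card : ℝ) - c2 * ((CX X).card : ℝ) := by
    unfold dv6
    rw [Finset.sum_sub_distrib, Finset.sum_const, nsmul_eq_mul, mul_comm ((CX X).card : ℝ)]
    congr 1
    rw [Finset.card_filter]
    push_cast
    rfl
  rw [e]
  ring

theorem OX_of {G : Finset ℕ → Prop} {l : ℝ}
    (h : Tendsto (fun X : ℕ => (((CX X).filter fun v => G (oddP (nm v))).card : ℝ) / X) atTop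
      (nhds l)) :
    Tendsto (fun X : ℕ => (((OX X).filter fun v => G (oddP (nm v))).card : ℝ) / X) atTop
      (nhds (3 / 4 * l)) := by
  have h1 := tend_div h (k := 4) (by norm_num)
  have h2 := h.sub h1
  have e : l - l / ((4 : ℕ) : ℝ) = 3 / 4 * l := by
    push_cast
    ring
  rw [e] at h2
  refine h2.congr fun X => ?_
  rw [← sub_div, split G X]
  push_cast
  rw [add_sub_cancel_right]

/-- pairs of odd integers with `u² + v² ≤ X` -/
noncomputable def UX (X : ℕ) : Finset (ℤ × ℤ) := (Bx X).filter fun v => Odd v.1 ∧ Odd v.2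

theorem UX_card (Q : ℕ → Prop) (X : ℕ) :
    ((UX X).filter fun v => Q (nm v)).card = ((OX (X / 2)).filter fun v => Q (2 * nm v)).card := by
  symm
  refine card_bij (fun v _ => rho v) ?_ (fun v _ w _ h => rho_inj h) ?_
  · intro v hv
    unfold OX at hv
    unfold UX
    simp only [mem_filter, mem_Bx] at hv ⊢
    obtain ⟨⟨a, b⟩, c⟩ := hv
    rw [nm_rho]
    have h6 := nm_int v
    have h7 : (v.1 ^ 2 + v.2 ^ 2) % 2 = 1 := by omega
    have h8 : (v.1 + v.2) % 2 = 1 := by
      rcases Int.emod_two_eq_zero_or_one v.1 with k1 | k1 <;>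
        rcases Int.emod_two_eq_zero_or_one v.2 with k2 | k2 <;>
        simp [Int.add_emod, pow_two, Int.mul_emod, k1, k2] at h7 ⊢
    refine ⟨⟨by omega, ?_, ?_⟩, c⟩
    · rw [Int.odd_iff]
      unfold rho
      simp only
      omega
    · rw [Int.odd_iff]
      unfold rho
      simp only
      omega
  · intro v hv
    unfold UX at hv
    simp only [mem_filter, mem_Bx] at hv
    obtain ⟨⟨a, b1, b2⟩, c⟩ := hv
    rw [Int.odd_iff] at b1 b2
    have h8 : rho ((v.1 + v.2) / 2, (v.2 - v.1) / 2) = v := by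
      unfold rho
      exact Prod.ext (by simp only; omega) (by simp only; omega)
    have h9 := nm_rho ((v.1 + v.2) / 2, (v.2 - v.1) / 2)
    rw [h8] at h9
    refine ⟨((v.1 + v.2) / 2, (v.2 - v.1) / 2), ?_, h8⟩
    unfold OX
    simp only [mem_filter, mem_Bx]
    refine ⟨⟨by omega, ?_⟩, by rw [← h9]; exact c⟩
    obtain ⟨k, hk⟩ : ∃ k, v.1 = 2 * k + 1 := ⟨v.1 / 2, by omega⟩
    obtain ⟨l, hl⟩ : ∃ l, v.2 = 2 * l + 1 := ⟨v.2 / 2, by omega⟩
    have h10 := nm_int ((v.1 + v.2) / 2, (v.2 - v.1) / 2)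
    have e1 : (v.1 + v.2) / 2 = k + l + 1 := by omega
    have e2 : (v.2 - v.1) / 2 = l - k := by omega
    simp only at h10
    rw [e1, e2] at h10
    have e3 : (k + l + 1) ^ 2 + (l - k) ^ 2 = 2 * (k ^ 2 + l ^ 2 + k + l) + 1 := by ring
    rw [e3] at h10
    rw [e1, e2]
    omega

theorem oddP_two {n : ℕ} (h : n % 2 = 1) : oddP (2 * n) = insert 2 (oddP n) ∧ 2 ∉ oddP n := by
  have hn : n ≠ 0 := by
    rintro rfl
    omega
  have h2 : 2 ∉ oddP n := by
    intro h2
    have := Run7.h238.Half.even_of h2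
    omega
  refine ⟨?_, h2⟩
  ext p
  rw [mem_insert, mem_oddP, mem_oddP, Nat.factorization_mul two_ne_zero hn, Finsupp.add_apply]
  by_cases hp : p = 2
  · subst hp
    rw [Nat.prime_two.factorization_self]
    rw [mem_oddP] at h2
    constructor
    · intro _
      exact Or.inl rfl
    · intro _
      rw [Nat.not_odd_iff_even] at h2
      obtain ⟨k, hk⟩ := h2
      exact ⟨k, by omega⟩
  · rw [Nat.prime_two.factorization, Finsupp.single_apply, if_neg (fun h => hp h.symm), zero_add]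
    constructor
    · exact Or.inr
    · rintro (h | h)
      · exact absurd h hp
      · exact h

end Run7.h843.Fin
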