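import Pool.Agent.Run7.h843.G1
import Pool.Agent.Run7.h741.NM.Asy
import Pool.Agent.N218.GB.Fin

/-!
# The final asymptotics of project GB for the classes modulo any multiple of `8` (after
`Pool/Agent/N218/GB/Asy.lean` by helper218 and `Pool/Agent/Run7/h741/NM/Asy.lean` by helper741)
-/

set_option autoImplicit false

open scoped Classical
open Finset Filter

namespace Pool.Agent.Run7.h843.G

open Pool.Agent.N916.GB (Po SA eta ps S_BIL HB S_EQ CntP S_ME8 S_HAL N8 S_BAD S_FE1 S_FE2 S_LA S_BOX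
  Nd Gd S_ND)
open Pool.Agent.Y703.CX (sm la jj XX eL zz kk S_SIE eL_tendsto logX_eq HH NN ev_eL one_le_exp
  HH_ge HH_le HH_pos kk_ge kk_le X_pos one_add_log lin_le kap zz_ge zz_pos kap_nonneg kap_pow kap_le)
open Pool.Agent.N218.GB.Asy (eta_mem Sml sml_of sml_add sml_eps sml_many sml_cut sml_coll
  log_three SA_card cmp)
open Pool.Agent.Run7.h741.NM (Cl SS sml_main)

theorem SS_sub (M : ℕ) (K : Finset ℕ) (X : ℕ) : SS M K X ⊆ SA X := by
  intro S hS
  unfold SS SA at *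
  rw [mem_filter] at hS ⊢
  exact ⟨hS.1, hS.2.1.1, hS.2.2⟩

/-- the sets outside the regular part -/
theorem out_sub (hND : S_ND) (M : ℕ) (K : Finset ℕ) (X z H k V : ℕ) :
    SS M K X \ ((RR M K X z H k V).filter fun S => Nd (sm z S) (la z S)) ⊆
      ((((((SA X).filter fun S => k < S.card) ∪
      ((SA X).filter fun S => S.card ≤ k ∧
        X < (∏ p ∈ sm z S, p) * ∏ p ∈ la z S, XX H (jj H p))) ∪
      ((SA X).filter fun S => ¬ Set.InjOn (jj H) (la z S : Set ℕ))) ∪
      ((SA X).filter fun S => ((la z S).filter fun p => p % 4 = 3).card <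
        2 * (sm z S).card + V)) ∪
      ((SA X).filter fun S => S.card ≤ k ∧ ¬ N8 (sm z S) (la z S))) ∪
      (((SA X).filter fun S => ∀ p ∈ la z S, p % 8 ≠ 3 % 8) ∪
      ((SA X).filter fun S => ∀ p ∈ la z S, p % 8 ≠ 5 % 8)) := by
  intro S hS
  rw [Finset.mem_sdiff, Finset.mem_filter] at hS
  obtain ⟨h1', h2⟩ := hS
  have h1 := SS_sub M K X h1'
  simp only [mem_union, mem_filter]
  by_contra hc
  push Not at hc
  obtain ⟨⟨⟨⟨⟨c1, c2⟩, c3⟩, c4⟩, c5⟩, c6, c7⟩ := hc
  have d1 : S.card ≤ k := c1 h1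
  have d2 := c2 h1 d1
  have d3 := c3 h1
  have d4 := c4 h1
  have d5 := c5 h1 d1
  obtain ⟨p3, hp3, hp3'⟩ := c6 h1
  obtain ⟨p5, hp5, hp5'⟩ := c7 h1
  have hS : ∀ p ∈ S, Po p := by
    unfold SA at h1
    exact (mem_filter.1 h1).2.1
  have d6 : Nd (sm z S) (la z S) := by
    apply hND _ _ _ _ d5
    · exact ⟨p3, hp3, by simpa using hp3'⟩
    · exact ⟨p5, hp5, by simpa using hp5'⟩
    · exact fun p hp => hS p (mem_filter.1 hp).1
    · exact fun p hp => hS p (mem_filter.1 hp).1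
  apply h2
  refine ⟨?_, d6⟩
  unfold RR
  rw [mem_filter]
  exact ⟨h1', d3, d1, d2, d4⟩

/-- FINAL: the proportion of the good sets -/
def S_DQ : Prop := ∀ (M : ℕ), 8 ∣ M → 0 < M → ∀ (t : Bool) (r s : ZMod 2) (K : Finset ℕ),
  OkM M t r s K → ∀ ε : ℝ, 0 < ε → ∃ X₀ : ℕ, ∀ X : ℕ, X₀ ≤ X →
  |(((SS M K X).filter (Gd t r s)).card : ℝ) - eta * ((SS M K X).card : ℝ)| ≤ ε * X

/-- **The proportion of the good sets, from the parts.** -/
theorem t_DQ' (h1 : S_BIL) (h3 : S_EQ) (h4 : S_LA) (h5 : S_BOX) (hK : S_KEY) (hC : CntP)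
    (hS : S_SIE) (hH : S_HAL) (hM : S_ME8) (hB : S_BAD) (hF1 : S_FE1) (hF2 : S_FE2)
    (hND : S_ND) : S_DQ := by
  intro L hL8 hL0 t r s K hOk ε hε
  obtain ⟨V, C, hC1, hkey⟩ := hK h1 h3 h4 h5 (ε / 2) (by linarith)
  have s1 := sml_many hC
  have s2 := sml_cut hC
  have s3 := sml_coll hC
  have s4 := sml_eps (hF2 hS hM V)
  have s5 := sml_eps (hB hS hH hM)
  have s6 := sml_eps (hF1 hS hM 3 (by norm_num))
  have s7 := sml_eps (hF1 hS hM 5 (by norm_num))
  have s8 := sml_main hC1 L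
  have stot := sml_add (sml_add (sml_add (sml_add (sml_add (sml_add s1 s2) s3) s4) s5)
    (sml_add s6 s7)) s8
  have hev := stot (ε / 2) (by linarith)
  have hev2 : ∀ᶠ X : ℕ in atTop, |(((SS L K X).filter (Gd t r s)).card : ℝ) -
      eta * ((SS L K X).card : ℝ)| ≤ ε * X := by
    filter_upwards [hev, ev_eL 1] with X hX hl
    have hl0 : 0 < eL X := by linarith
    have hXp := X_pos hl0
    have hNN : (HH X : ℝ) * Real.log X < NN X := by
      unfold NN
      push_cast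
      exact Nat.lt_floor_add_one _
    have hmain := hkey L hL8 hL0 t r s K hOk X (zz X) (HH X) (kk X) (NN X) (kap C X) hXp (HH_pos hl0)
      (zz_pos hl) (kap_nonneg hC1 X) (kap_pow hC1 hl) hNN
    set T := (RR L K X (zz X) (HH X) (kk X) V).filter fun S => Nd (sm (zz X) S) (la (zz X) S) with hT
    have hTG : (RR L K X (zz X) (HH X) (kk X) V).filter
        (fun S => Nd (sm (zz X) S) (la (zz X) S) ∧ Gd t r s S) = T.filter (Gd t r s) := by
      rw [hT, filter_filter]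
    rw [hTG] at hmain
    have hTS : T ⊆ SS L K X := (filter_subset _ _).trans (filter_subset _ _)
    have hRS : ((RR L K X (zz X) (HH X) (kk X) V).card : ℝ) ≤ X := by
      exact_mod_cast (card_le_card ((filter_subset _ _).trans (SS_sub L K X))).trans (SA_card X)
    have hcmp := cmp (Gd t r s) T (SS L K X) hTS eta eta_mem.1 eta_mem.2
    have hout : ((SS L K X \ T).card : ℝ) ≤
        ((((((SA X).filter fun S => kk X < S.card).card : ℝ) +
        (((SA X).filter fun S => S.card ≤ kk X ∧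
          X < (∏ p ∈ sm (zz X) S, p) * ∏ p ∈ la (zz X) S, XX (HH X) (jj (HH X) p)).card : ℝ)) +
        (((SA X).filter fun S => ¬ Set.InjOn (jj (HH X)) (la (zz X) S : Set ℕ)).card : ℝ)) +
        (((SA X).filter fun S => ((la (zz X) S).filter fun p => p % 4 = 3).card <
          2 * (sm (zz X) S).card + V).card : ℝ) +
        (((SA X).filter fun S => S.card ≤ kk X ∧ ¬ N8 (sm (zz X) S) (la (zz X) S)).card : ℝ)) +
        ((((SA X).filter fun S => ∀ p ∈ la (zz X) S, p % 8 ≠ 3 % 8).card : ℝ) +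
        (((SA X).filter fun S => ∀ p ∈ la (zz X) S, p % 8 ≠ 5 % 8).card : ℝ)) := by
      have g := card_le_card (out_sub hND L K X (zz X) (HH X) (kk X) V)
      rw [← hT] at g
      have g2 := (g.trans (card_union_le _ _)).trans (Nat.add_le_add ((card_union_le _ _).trans
        (Nat.add_le_add_right ((card_union_le _ _).trans
        (Nat.add_le_add_right ((card_union_le _ _).trans
        (Nat.add_le_add_right (card_union_le _ _) _)) _)) _)) (card_union_le _ _))
      exact_mod_cast g2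
    have g1 : ε / 2 * ((RR L K X (zz X) (HH X) (kk X) V).card : ℝ) ≤ ε / 2 * X :=
      mul_le_mul_of_nonneg_left hRS (by positivity)
    linarith
  obtain ⟨X₀, h0⟩ := eventually_atTop.1 hev2
  exact ⟨X₀, fun X hX => h0 X hX⟩

/-- **The proportion of the good sets is `η = (1 - 1/2) (1 - 1/4) (1 - 1/8) ⋯`.** -/
theorem t_DQ : S_DQ :=
  t_DQ' Pool.Agent.N19.GB.t_BIL Pool.Agent.N19.GB.t_EQ Pool.Agent.N916.GB.t_LA
    Pool.Agent.N958.GB.t_BOX t_KEY Pool.Agent.N502.GB.CNT.t_CNT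
    Pool.Agent.Y488.CX.t_SIE Pool.Agent.N148.GB.t_HAL Pool.Agent.N19.GB.t_ME8
    Pool.Agent.N148.GB.t_BAD Pool.Agent.N502.GB.FE1.t_FE1 Pool.Agent.N509.GB.FE2.t_FE2
    Pool.Agent.N19.GB.t_ND

end Pool.Agent.Run7.h843.G
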