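import Pool.Agent.Run7.h843.L9

/-!
# The lower bound for Sha
-/

set_option autoImplicit false

open NumberField IsDedekindDomain

namespace Run7.h843.L

open Finset
open Pool.Agent.Y698.SG.Cv (LocI WF)
open Pool.Agent.TH841.NF.D (Sha)
open Pool.Agent.Y703.CQ (nr)
open Run7.h843.Desc Run7.h843.Sha Run7.h843.Conv Run7.h843.R
open Run7.h843.N (rr ss tt rel Adm rr_pos par)

variable {u v : ℤ} {m : ℕ}

/-- a squarefree rational number which is not one is no square -/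
theorem nsq_nat {n : ℕ} (hn : Squarefree n) (hn1 : n ≠ 1) : ¬ IsSquare (n : ℚ) := by
  intro h
  have h5 : IsSquare ((n : ℤ) : ℚ) := by rwa [Int.cast_natCast]
  rw [Rat.isSquare_intCast_iff] at h5
  obtain ⟨r, hr⟩ := h5
  have h6 : n = r.natAbs * r.natAbs := by
    have := congrArg Int.natAbs hr
    rw [Int.natAbs_mul] at this
    exact this
  have h7 := Nat.isUnit_iff.1 (hn r.natAbs ⟨1, by rw [mul_one]; exact h6⟩)
  rw [h7] at h6
  exact hn1 h6

/-- the product of two different numbers of the family is no square, not even up to two -/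
theorem dd_ns (hm : Squarefree m) {x y : ℕ → ZMod 2}
    (hx : ∀ q, q ∉ SR m → x q = 0) (hy : ∀ q, q ∉ SR m → y q = 0) (hxy : x ≠ y) {c : ℤ}
    (hc : c = 1 ∨ c = 2) : ¬ ∃ s : ℤ, c * (dd m x * dd m y) = s * s := by
  rintro ⟨s, hs⟩
  have hc0 : c ≠ 0 := by rcases hc with h | h <;> rw [h] <;> norm_num
  have hs0 : s ≠ 0 := by
    rintro rfl
    rw [mul_zero] at hs
    exact mul_ne_zero hc0 (mul_ne_zero dd_ne dd_ne) hs
  apply hxy
  funext q
  by_cases hq : q ∈ SR m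
  · have hqp := Nat.prime_of_mem_primeFactors (mem_SR.1 hq).1
    have hq2 : q ≠ 2 := by
      rintro rfl
      exact two_nS hq
    have hcq : vv q c = 0 := by
      rcases hc with h | h
      · rw [h]
        exact vv_not_dvd fun h => (Nat.prime_iff_prime_int.1 hqp).not_isUnit
          (isUnit_of_dvd_one h)
      · rw [h]
        exact vv_other hqp Nat.prime_two (Ne.symm hq2)
    have h1 := congrArg (vv q) hs
    rw [vv_mul q hc0 (mul_ne_zero dd_ne dd_ne), vv_mul q dd_ne dd_ne, vv_mul q hs0 hs0, add_self2,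
      hcq, zero_add, dd_vv, dd_vv, NN_vv hm hx, NN_vv hm hy] at h1
    rcases zmod2_cases (x q) with h2 | h2 <;> rcases zmod2_cases (y q) with h3 | h3 <;>
      rw [h2, h3] at h1 ⊢ <;> exact absurd h1 (by decide)
  · rw [hx q hq, hy q hq]

theorem sha_low (huv : IsCoprime u v) (hpar : (u + v) % 2 = 1) (ha : Adm u v m)
    (hf : Finite (WF ℚ (-4 * rr u v * m) (2 * ss u v ^ 2 * m ^ 2)).toAffine.Point) :
    ∃ f : K2 m → Sha (WF ℚ (-4 * rr u v * m) (2 * ss u v ^ 2 * m ^ 2)),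
      Function.Injective f ∧ ∀ i, f i + f i = 0 := by
  have hm := ha.sq
  have hm0 : m ≠ 0 := hm.ne_zero
  have hmz : (m : ℤ) ≠ 0 := by exact_mod_cast hm0
  have hrel := rel u v
  have hs0 : ss u v ≠ 0 := by
    have := (par hpar).1
    omega
  have ht0 : tt u v ≠ 0 := by
    have := (par hpar).2.1
    omega
  have hb : (2 * ss u v ^ 2 * m ^ 2 : ℤ) ≠ 0 :=
    mul_ne_zero (mul_ne_zero two_ne_zero (pow_ne_zero 2 hs0)) (pow_ne_zero 2 hmz)
  have eab : (-4 * rr u v * m : ℤ) ^ 2 - 4 * (2 * ss u v ^ 2 * m ^ 2) =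
      2 ^ 3 * m ^ 2 * tt u v ^ 2 := by
    linear_combination (-8 * (m : ℤ) ^ 2) * hrel
  have hab : (-4 * rr u v * m : ℤ) ^ 2 - 4 * (2 * ss u v ^ 2 * m ^ 2) ≠ 0 := by
    rw [eab]
    exact mul_ne_zero (mul_ne_zero (by norm_num) (pow_ne_zero 2 hmz)) (pow_ne_zero 2 ht0)
  have hmq : (m : ℚ) ≠ 0 := by exact_mod_cast hm0
  have hsq : (ss u v : ℚ) ≠ 0 := by exact_mod_cast hs0
  have htq : (tt u v : ℚ) ≠ 0 := by exact_mod_cast ht0
  have hrelq : (ss u v : ℚ) ^ 2 + (tt u v : ℚ) ^ 2 = 2 * (rr u v : ℚ) ^ 2 := by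
    have := congrArg (fun z : ℤ => (z : ℚ)) hrel
    push_cast at this
    exact this
  have n20 : ¬ IsSquare ((2 : ℕ) : ℚ) := nsq_nat Nat.prime_two.squarefree (by norm_num)
  have nb : ¬ IsSquare ((2 * ss u v ^ 2 * m ^ 2 : ℤ) : ℚ) := by
    rintro ⟨s, hs⟩
    apply n20
    refine ⟨s / (ss u v * m), ?_⟩
    push_cast at hs ⊢
    field_simp
    linear_combination hs
  have nab : ¬ IsSquare (((-4 * rr u v * m : ℤ) : ℚ) ^ 2 -
      4 * ((2 * ss u v ^ 2 * m ^ 2 : ℤ) : ℚ)) := by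
    rintro ⟨s, hs⟩
    apply n20
    refine ⟨s / (2 * tt u v * m), ?_⟩
    push_cast at hs ⊢
    field_simp
    linear_combination hs + (8 * (m : ℚ) ^ 2) * hrelq
  refine Pool.Agent.Y698.SG.sha_inj ℚ hb hab nb nab hf (fun i : K2 m => dd m i.1) (fun _ => dd_ne)
    (fun i v => all_v (fun p _ => (loc2 huv hpar ha i.2).1 p) v)
    (fun i => (loc2 huv hpar ha i.2).2) fun i j hij => ?_
  have hne : i.1 ≠ j.1 := fun h => hij (Subtype.ext h)
  constructor
  · intro h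
    rw [Rat.isSquare_intCast_iff] at h
    obtain ⟨s, hs⟩ := h
    exact dd_ns hm i.2.1 j.2.1 hne (Or.inl rfl) ⟨s, by rw [one_mul]; exact hs⟩
  · rintro ⟨s, hs⟩
    have h1 : IsSquare ((2 * (dd m i.1 * dd m j.1) : ℤ) : ℚ) := by
      refine ⟨s / (2 * tt u v * m), ?_⟩
      push_cast at hs ⊢
      field_simp
      linear_combination hs + (8 * (m : ℚ) ^ 2 * dd m i.1 * dd m j.1) * hrelq
    rw [Rat.isSquare_intCast_iff] at h1
    obtain ⟨s, hs⟩ := h1
    exact dd_ns hm i.2.1 j.2.1 hne (Or.inr rfl) ⟨s, hs⟩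

theorem sha_lower (huv : IsCoprime u v) (hpar : (u + v) % 2 = 1) (ha : Adm u v m) {k : ℕ}
    (hk : (MatR m).rank + k = (SR m).card)
    (hf : Finite (WF ℚ (-4 * rr u v * m) (2 * ss u v ^ 2 * m ^ 2)).toAffine.Point)
    (hfs : Finite {x : Sha (WF ℚ (-4 * rr u v * m) (2 * ss u v ^ 2 * m ^ 2)) // 2 • x = 0}) :
    2 ^ k ≤ Nat.card {x : Sha (WF ℚ (-4 * rr u v * m) (2 * ss u v ^ 2 * m ^ 2)) // 2 • x = 0} := by
  obtain ⟨f, hf1, hf2⟩ := sha_low huv hpar ha hf
  rw [← (card_K2 m k).2 hk]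
  refine Nat.card_le_card_of_injective (fun i => ⟨f i, by rw [two_smul, hf2]⟩) ?_
  intro i j hij
  exact hf1 (congrArg Subtype.val hij)

end Run7.h843.L
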