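import Pool.Agent.Run7.h741.NT.BOX
import Pool.Agent.Run7.h843.L1

/-!
# The count in a box, for the corank `r` (after `Run7/h741/NT/BOX.lean`)
-/

set_option autoImplicit false
set_option linter.unusedSectionVars false
set_option linter.unusedVariables false

open scoped Classical

namespace Run7.h843.L

open Finset
open Pool.Agent.Y703.CQ (nr sg)
open Pool.Agent.N973.ND (uu nr_rec nr_self)
open Pool.Agent.N916.GB (Po eta ps sx pt S_EQ HB N8)
open Pool.Agent.N958.GB (sgm sx_self HB_sub)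
open Pool.Agent.Run7.h741.NT (Sp cu Sol Ef Kr mem_Kr Lb lb LN uu_eq8 sp sp_one sp_zero sp_eq nd_iff
  rr rr_inj rr_im NR sx_sgm two_tuples)

/-- corank `r` -/
def Gk (r : ℕ) (a : ℕ) (f : ℕ → ZMod 2) (S : Finset ℕ) : Prop :=
  Nat.card {x : ℕ → ZMod 2 // (∀ q, ¬ (q ∈ S ∧ Sp a q) → x q = 0) ∧ Sol a f S x} = 2 ^ r

/-- the good sets from a parametrization -/
theorem Gk_iff (r : ℕ) {V : Type} [Fintype V] (a : ℕ) (f : ℕ → ZMod 2) {ρ : V → ℕ}
    (hρ : Function.Injective ρ) {S : Finset ℕ} (hS : univ.image ρ = S) :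
    Gk r a f S ↔ Gw r (fun i => sp a (ρ i)) (fun i => f (ρ i)) fun i j => nr (ρ i) (ρ j) := by
  have h1 : ∀ i, ρ i ∈ S := fun i => by
    rw [← hS]
    exact mem_image_of_mem _ (mem_univ _)
  have h2 : ∀ x ∈ S, ∃ i, ρ i = x := by
    intro x hx
    rw [← hS, mem_image] at hx
    obtain ⟨i, -, hi⟩ := hx
    exact ⟨i, hi⟩
  have h3 : ∀ g : ℕ → ZMod 2, ∑ p ∈ S, g p = ∑ i, g (ρ i) := by
    intro g
    rw [← hS, sum_image fun i _ j _ h => hρ h]
  -- the two systems for one vector
  have key : ∀ x : ℕ → ZMod 2, (∀ q, ¬ (q ∈ S ∧ Sp a q) → x q = 0) → ∀ j,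
      ∑ q ∈ S, nr (ρ j) q * (cu a x q + x (ρ j)) + f (ρ j) * x (ρ j) =
      Ef (fun i => f (ρ i)) (fun i j => nr (ρ i) (ρ j)) (fun i => x (ρ i)) j := by
    intro x hx j
    rw [h3]
    unfold Ef Pool.Agent.N916.GB.Ev
    congr 1
    refine sum_congr rfl fun l _ => ?_
    have h7 : cu a x (ρ l) = x (ρ l) := by
      unfold cu
      by_cases hl : Sp a (ρ l)
      · rw [if_pos hl]
      · rw [if_neg hl, hx _ fun h => hl h.2]
    rw [h7, mul_comm]
  unfold Gk Gw
  refine Eq.congr_left (Nat.card_congr ⟨fun x => ⟨fun i => x.1 (ρ i), ?_, ?_⟩,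
    fun y => ⟨Function.extend ρ y.1 0, ?_, ?_⟩, ?_, ?_⟩)
  · intro i hi
    exact x.2.1 _ fun h => sp_zero.1 hi h.2
  · intro i hi
    rw [← key x.1 x.2.1 i]
    exact x.2.2 _ (h1 i) (sp_one.1 hi)
  · intro q hq
    by_cases hqS : q ∈ S
    · obtain ⟨i, rfl⟩ := h2 q hqS
      rw [hρ.extend_apply]
      exact y.2.1 i (sp_zero.2 fun h => hq ⟨hqS, h⟩)
    · rw [Function.extend_apply' _ _ _ fun ⟨i, hi⟩ => hqS (hi ▸ h1 i)]
      rfl
  · intro q hq hsq
    obtain ⟨j, rfl⟩ := h2 q hq
    have h0 : ∀ q, ¬ (q ∈ S ∧ Sp a q) → Function.extend ρ y.1 0 q = 0 := by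
      intro q hq
      by_cases hqS : q ∈ S
      · obtain ⟨i, rfl⟩ := h2 q hqS
        rw [hρ.extend_apply]
        exact y.2.1 i (sp_zero.2 fun h => hq ⟨hqS, h⟩)
      · rw [Function.extend_apply' _ _ _ fun ⟨i, hi⟩ => hqS (hi ▸ h1 i)]
        rfl
    rw [key _ h0 j]
    have h5 : (fun i => Function.extend ρ y.1 0 (ρ i)) = y.1 := funext fun i =>
      hρ.extend_apply y.1 0 i
    rw [h5]
    exact y.2.2 j (sp_one.2 hsq)
  · intro x
    apply Subtype.ext
    funext q
    show Function.extend ρ (fun i => x.1 (ρ i)) 0 q = x.1 q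
    by_cases hqS : q ∈ S
    · obtain ⟨i, rfl⟩ := h2 q hqS
      rw [hρ.extend_apply]
    · rw [Function.extend_apply' _ _ _ fun ⟨i, hi⟩ => hqS (hi ▸ h1 i), x.2.1 q fun h => hqS h.1]
      rfl
  · intro y
    apply Subtype.ext
    funext i
    exact hρ.extend_apply y.1 0 i

/-- the count in a box; the class modulo `8` of the primes is `τ`. -/
def S_BOX (r : ℕ) : Prop := S_EQ → S_LA r → ∀ ε : ℝ, 0 < ε → ∃ V₀ : ℕ, ∀ (a : ℕ) (f : ℕ → ZMod 2)
  (ι : Type) [Fintype ι] [LinearOrder ι] (τ : ι → ℕ) (C : ι → Finset ℕ) (X : ι → ℕ) (κ : ℝ)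
  (S₀ : Finset ℕ), (a = 3 ∨ a = 7) → 0 ≤ κ → (∀ i, (C i).card ≤ X i) → HB C X κ →
  (∀ v ∈ S₀, Po v) → (∀ i, ∀ p ∈ C i, Po p ∧ p ∉ S₀ ∧ p % 8 = τ i) →
  (∀ i l, i ≠ l → Disjoint (C i) (C l)) →
  (∃ i, τ i = 5) →
  2 * S₀.card + V₀ ≤ (univ.filter fun i => τ i = a).card →
  |(((Fintype.piFinset C).filter fun p => N8 S₀ (univ.image p) ∧
        Gk r a f (S₀ ∪ univ.image p)).card : ℝ) -
      gk r * (((Fintype.piFinset C).filter fun p => N8 S₀ (univ.image p)).card : ℝ)| ≤
    ε * (((Fintype.piFinset C).filter fun p => N8 S₀ (univ.image p)).card : ℝ) +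
    2 ^ ((2 * S₀.card + 1) * Fintype.card ι + (ps ι).card) * (κ * ∏ j, (X j : ℝ))

/-- **The count in a box.** -/
theorem t_BOX (r : ℕ) : S_BOX r := by
  intro hEQ hLA ε hε
  obtain ⟨V₀, hV₀⟩ := hLA ε hε
  refine ⟨V₀, ?_⟩
  intro a f ι _ _ τ C X κ S₀ ha hκ hCX hHB hS₀ hC hdis h5 hcnt
  set R : ℝ := 2 ^ (ps ι).card * (κ * ∏ j, (X j : ℝ)) with hR
  have hR0 : 0 ≤ R := mul_nonneg (by positivity)
    (mul_nonneg hκ (Finset.prod_nonneg fun j _ => by positivity))
  -- facts on tuples
  have hinj : ∀ p ∈ Fintype.piFinset C, Function.Injective p := by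
    intro p hp i j hij
    rw [Fintype.mem_piFinset] at hp
    by_contra hne
    have h1 := Finset.disjoint_left.1 (hdis i j hne) (hp i)
    rw [hij] at h1
    exact h1 (hp j)
  have hτ : ∀ p ∈ Fintype.piFinset C, ∀ i, p i % 8 = τ i := by
    intro p hp i
    rw [Fintype.mem_piFinset] at hp
    exact (hC i _ (hp i)).2.2
  have hd : ∀ p ∈ Fintype.piFinset C, ∀ i, p i ∉ S₀ := by
    intro p hp i
    rw [Fintype.mem_piFinset] at hp
    exact (hC i _ (hp i)).2.1
  have hpr : ∀ p ∈ Fintype.piFinset C, ∀ i, Po (p i) := by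
    intro p hp i
    rw [Fintype.mem_piFinset] at hp
    exact (hC i _ (hp i)).1
  -- the part with given labels
  have h1 : ∀ β : ι → Lb S₀, LN S₀ τ β →
      |(((Fintype.piFinset C).filter fun p => (fun i => lb f S₀ (p i)) = β ∧
          Gk r a f (S₀ ∪ univ.image p)).card : ℝ) -
        gk r * (((Fintype.piFinset C).filter fun p => (fun i => lb f S₀ (p i)) = β).card : ℝ)| ≤
      ε * (((Fintype.piFinset C).filter fun p => (fun i => lb f S₀ (p i)) = β).card : ℝ) +
        R := by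
    intro β hβ
    by_cases hemp : ((Fintype.piFinset C).filter fun p => (fun i => lb f S₀ (p i)) = β) = ∅
    · have he2 : ((Fintype.piFinset C).filter fun p => (fun i => lb f S₀ (p i)) = β ∧
          Gk r a f (S₀ ∪ univ.image p)) = ∅ := by
        rw [← Finset.filter_filter, hemp, Finset.filter_empty]
      rw [he2, hemp]
      simpa using hR0
    obtain ⟨p₀, hp₀⟩ := Finset.nonempty_iff_ne_empty.2 hemp
    rw [Finset.mem_filter] at hp₀
    obtain ⟨hp₀, hp₀β⟩ := hp₀
    set C' : ι → Finset ℕ := fun i => (C i).filter fun q => lb f S₀ q = β i with hC'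
    have hpi : (Fintype.piFinset C).filter (fun p => (fun i => lb f S₀ (p i)) = β) =
        Fintype.piFinset C' := by
      ext p
      simp only [Finset.mem_filter, Fintype.mem_piFinset, hC']
      constructor
      · rintro ⟨h2, h3⟩ i
        exact ⟨h2 i, congrFun h3 i⟩
      · intro h2
        exact ⟨fun i => (h2 i).1, funext fun i => (h2 i).2⟩
    set r₀ := rr S₀ p₀ with hr₀
    have hrp : ∀ i, Po (r₀ i) := by
      rintro (v | k)
      · exact hS₀ _ v.2
      · exact hpr p₀ hp₀ k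
    have hrinj : Function.Injective r₀ := rr_inj (hinj p₀ hp₀) (hd p₀ hp₀)
    have h2 := hV₀ S₀ ι (fun i => sp a (r₀ i)) (fun i => uu (r₀ i)) (fun i => f (r₀ i)) (NR r₀)
      (fun i j hij => by
        have hne : r₀ j ≠ r₀ i := fun h => hij (hrinj h).symm
        show nr (r₀ i) (r₀ j) + nr (r₀ j) (r₀ i) = uu (r₀ i) * uu (r₀ j)
        rw [nr_rec (hrp j).1 (hrp j).2 (hrp i).1 (hrp i).2 hne]
        have : ∀ x y z : ZMod 2, x + y * z + x = z * y := by decide
        exact this _ _ _)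
      (by
        obtain ⟨i, hi⟩ := h5
        refine ⟨i, ?_⟩
        show sp a (p₀ i) = 0
        rw [sp_eq (hτ p₀ hp₀ i), hi, if_neg]
        omega)
      (by
        intro b hbs
        set w : ℕ → ZMod 2 := fun n => if h : n ∈ S₀ then b ⟨n, h⟩ else 0 with hw
        have hw1 : ∀ v : S₀, w v = b v := fun v => by
          rw [hw]
          exact dif_pos v.2
        obtain ⟨k, hk1, hk⟩ := hβ w (by
          obtain ⟨v, hv⟩ := hbs
          exact ⟨v, v.2, by rw [hw1]; exact hv⟩)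
        refine ⟨k, ?_, ?_, ?_⟩
        · show sp a (p₀ k) = 1
          rw [sp_eq (hτ p₀ hp₀ k), hk1, if_pos (Or.inl rfl)]
        · show uu (p₀ k) = 0
          rw [uu_eq8 (hτ p₀ hp₀ k), hk1]
          rfl
        · intro h0
          apply hk
          rw [← h0, ← hp₀β]
          refine sum_congr rfl fun v _ => ?_
          rw [hw1]
          rfl)
      (by
        rw [Fintype.card_coe]
        refine hcnt.trans (card_le_card fun k hk => ?_)
        rw [mem_filter] at hk ⊢
        refine ⟨mem_univ _, ?_, ?_⟩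
        · show sp a (p₀ k) = 1
          rw [sp_eq (hτ p₀ hp₀ k), if_pos (Or.inr hk.2)]
        · show uu (p₀ k) = 1
          rw [uu_eq8 (hτ p₀ hp₀ k), hk.2, if_pos]
          omega)
    set Q : (ps ι → ZMod 2) → Prop := fun σ => Gw r (fun i => sp a (r₀ i)) (fun i => f (r₀ i))
      (pt (NR r₀) (sx (σ + sgm p₀))) with hQ
    have h3 := hEQ ι C' X κ hκ
      (fun i => (Finset.card_le_card (Finset.filter_subset _ _)).trans (hCX i))
      (HB_sub hHB fun i q => lb f S₀ q = β i) Q
    have h4 : ((Fintype.piFinset C).filter fun p => (fun i => lb f S₀ (p i)) = β ∧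
        Gk r a f (S₀ ∪ univ.image p)) = ((Fintype.piFinset C').filter fun p =>
          Q fun e => nr (p e.1.1) (p e.1.2)) := by
      rw [← hpi, Finset.filter_filter]
      refine Finset.filter_congr fun p hp => ?_
      refine and_congr_right fun hl => ?_
      have hlb : ∀ i, lb f S₀ (p i) = lb f S₀ (p₀ i) := fun i => by
        have a1 := congrFun hl i
        have a2 := congrFun hp₀β i
        exact a1.trans a2.symm
      rw [Gk_iff r a f (rr_inj (hinj p hp) (hd p hp)) rr_im]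
      have a0 := two_tuples f (hinj p hp) (hinj p₀ hp₀) (hpr p hp) (hpr p₀ hp₀)
        (hτ p hp) (hτ p₀ hp₀) hlb
      have a1 : (fun i => sp a (rr S₀ p i)) = fun i => sp a (r₀ i) := by
        funext i
        rcases i with v | k
        · rfl
        · show sp a (p k) = sp a (p₀ k)
          rw [sp_eq (hτ p hp k), sp_eq (hτ p₀ hp₀ k)]
      have a2 : (fun i => f (rr S₀ p i)) = fun i => f (r₀ i) := by
        funext i
        rcases i with v | k
        · rfl
        · exact congrArg (fun t => t.2.2) (hlb k)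
      show Gw r (fun i => sp a (rr S₀ p i)) (fun i => f (rr S₀ p i)) (NR (rr S₀ p)) ↔
        Gw r (fun i => sp a (r₀ i)) (fun i => f (r₀ i)) (pt (NR r₀) (sx (sgm p + sgm p₀)))
      rw [a0, a1, a2]
    have h5 : (((Fintype.piFinset C').card : ℕ) : ℝ) = ∏ j, ((C' j).card : ℝ) := by
      rw [Fintype.card_piFinset]
      push_cast
      rfl
    rw [h4, hpi, h5]
    have hQc : (univ.filter Q).card =
        (univ.filter fun σ : ps ι → ZMod 2 => Gw r (fun i => sp a (r₀ i)) (fun i => f (r₀ i))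
          (pt (NR r₀) (sx σ))).card := by
      refine card_bij (fun σ _ => σ + sgm p₀) ?_ ?_ ?_
      · intro σ hσ
        rw [mem_filter] at hσ ⊢
        exact ⟨mem_univ _, hσ.2⟩
      · intro σ _ σ' _ h
        exact add_right_cancel h
      · intro σ hσ
        refine ⟨σ - sgm p₀, ?_, sub_add_cancel _ _⟩
        rw [mem_filter] at hσ ⊢
        refine ⟨mem_univ _, ?_⟩
        simp only [hQ, sub_add_cancel]
        exact hσ.2
    have h2' : |((univ.filter Q).card : ℝ) / 2 ^ (ps ι).card - gk r| ≤ ε := by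
      rw [hQc]
      exact h2
    set n : ℝ := (((Fintype.piFinset C').filter fun p =>
          Q fun e => nr (p e.1.1) (p e.1.2)).card : ℝ) with hn
    set q : ℝ := ((univ.filter Q).card : ℝ) / 2 ^ (ps ι).card with hq
    set P : ℝ := ∏ j, ((C' j).card : ℝ) with hP
    have hP0 : 0 ≤ P := Finset.prod_nonneg fun j _ => by positivity
    have h6 : |n - gk r * P| ≤ |n - q * P| + |q - gk r| * P := by
      have h7 : n - gk r * P = (n - q * P) + (q - gk r) * P := by ring
      have h8 : |(q - gk r) * P| = |q - gk r| * P := by rw [abs_mul, abs_of_nonneg hP0]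
      rw [h7, ← h8]
      exact abs_add_le _ _
    have h7 : |q - gk r| * P ≤ ε * P := mul_le_mul_of_nonneg_right h2' hP0
    have h8 : |n - q * P| ≤ R := h3
    linarith
  -- sum over the labels
  set LL := univ.filter (fun β : ι → Lb S₀ => LN S₀ τ β) with hLL
  have hfib : ∀ T : (ι → ℕ) → Prop,
      (((Fintype.piFinset C).filter fun p => N8 S₀ (univ.image p) ∧ T p).card : ℝ) =
      ∑ β ∈ LL, (((Fintype.piFinset C).filter fun p =>
        (fun i => lb f S₀ (p i)) = β ∧ T p).card : ℝ) := by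
    intro T
    rw [Finset.card_eq_sum_card_fiberwise (f := fun (p : ι → ℕ) (i : ι) => lb f S₀ (p i))
      (t := LL) (by
        intro p hp
        rw [Finset.mem_coe, Finset.mem_filter] at hp
        rw [Finset.mem_coe, hLL, Finset.mem_filter]
        exact ⟨Finset.mem_univ _, (nd_iff f (hτ p hp.1)).1 hp.2.1⟩)]
    push_cast
    refine Finset.sum_congr rfl fun β hβ => ?_
    rw [hLL, Finset.mem_filter] at hβ
    congr 2
    ext p
    simp only [Finset.mem_filter]
    constructor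
    · rintro ⟨⟨h3, h4, h4'⟩, h5⟩
      exact ⟨h3, h5, h4'⟩
    · rintro ⟨h3, h4, h5⟩
      refine ⟨⟨h3, ?_, h5⟩, h4⟩
      rw [nd_iff f (hτ p h3), h4]
      exact hβ.2
  have hf1 := hfib fun p => Gk r a f (S₀ ∪ univ.image p)
  have hf2 := hfib fun _ => True
  simp only [and_true] at hf2
  rw [hf1, hf2, Finset.mul_sum, ← Finset.sum_sub_distrib]
  refine (Finset.abs_sum_le_sum_abs _ _).trans ?_
  refine (Finset.sum_le_sum fun β hβ => h1 β (Finset.mem_filter.1 hβ).2).trans ?_
  rw [Finset.sum_add_distrib, ← Finset.mul_sum, Finset.sum_const, nsmul_eq_mul]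
  have h5 : ((LL.card : ℕ) : ℝ) ≤ 2 ^ ((2 * S₀.card + 1) * Fintype.card ι) := by
    have h6 : LL.card ≤ Fintype.card (ι → Lb S₀) := Finset.card_le_univ _
    rw [Fintype.card_fun, Fintype.card_prod, Fintype.card_prod, Fintype.card_fun, ZMod.card,
      Fintype.card_coe, ← pow_succ, ← pow_add, ← pow_mul] at h6
    have h7 : (S₀.card + (S₀.card + 1)) * Fintype.card ι =
        (2 * S₀.card + 1) * Fintype.card ι := by
      ring
    rw [h7] at h6
    exact_mod_cast h6
  have h6 := mul_le_mul_of_nonneg_right h5 hR0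
  rw [pow_add, mul_assoc]
  linarith

end Run7.h843.L
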