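import Pool.Agent.Run7.h741.NM.Fin
import Pool.Agent.Run7.h843.L3

/-!
# The proportion of the matrices with corank `r` (after `Run7/h741/NM`)
-/

set_option autoImplicit false

open scoped Classical
open Finset Filter

namespace Run7.h843.L

open Pool.Agent.N916.GB (Po SA eta ps S_BIL HB S_EQ CntP S_ME8 S_HAL N8 S_BAD S_FE1)
open Pool.Agent.Y703.CX (sm la jj XX eL zz kk S_SIE eL_tendsto logX_eq HH NN ev_eL one_le_exp
  HH_ge HH_le HH_pos kk_ge kk_le X_pos one_add_log lin_le kap zz_ge zz_pos kap_nonneg kap_pow kap_le)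
open Pool.Agent.N218.GB.Asy (Sml sml_of sml_add sml_eps sml_many sml_cut sml_coll log_three SA_card
  cmp)
open Pool.Agent.Run7.h741.NT (S_FE2)
open Pool.Agent.Run7.h741.NM (Cl SS RR sml_main SS_sub out_sub cl_iff card_eq low)

/-- FINAL: the proportion of the good sets -/
def S_DQ (r : ℕ) : Prop := ∀ (M : ℕ), 8 ∣ M → 0 < M → ∀ (a : ℕ) (f : ℕ → ZMod 2) (K : Finset ℕ),
  (a = 3 ∨ a = 7) → ∀ ε : ℝ, 0 < ε → ∃ X₀ : ℕ, ∀ X : ℕ, X₀ ≤ X →
  |(((SS M K X).filter (Gk r a f)).card : ℝ) - gk r * ((SS M K X).card : ℝ)| ≤ ε * X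

/-- **The proportion of the good sets, from the parts.** -/
theorem t_DQ' (r : ℕ) (h1 : S_BIL) (h3 : S_EQ) (h4 : S_LA r) (h5 : S_BOX r) (hK : S_KEY r) (hC : CntP)
    (hS : S_SIE) (hH : S_HAL) (hM : S_ME8) (hB : S_BAD) (hF1 : S_FE1) (hF2 : S_FE2) : S_DQ r := by
  intro M hM8 hM0 a f K ha ε hε
  obtain ⟨V, C, hC1, hkey⟩ := hK h1 h3 h4 h5 (ε / 2) (by linarith)
  have s1 := sml_many hC
  have s2 := sml_cut hC
  have s3 := sml_coll hC
  have s4 := sml_eps (hF2 hS hM a (by omega) (by omega) V)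
  have s5 := sml_eps (hB hS hH hM)
  have s7 := sml_eps (hF1 hS hM 5 (by norm_num))
  have s8 := sml_main hC1 M
  have stot := sml_add (sml_add (sml_add (sml_add (sml_add (sml_add s1 s2) s3) s4) s5)
    s7) s8
  have hev := stot (ε / 2) (by linarith)
  have hev2 : ∀ᶠ X : ℕ in atTop, |(((SS M K X).filter (Gk r a f)).card : ℝ) -
      gk r * ((SS M K X).card : ℝ)| ≤ ε * X := by
    filter_upwards [hev, ev_eL 1] with X hX hl
    have hl0 : 0 < eL X := by linarith
    have hXp := X_pos hl0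
    have hNN : (HH X : ℝ) * Real.log X < NN X := by
      unfold NN
      push_cast
      exact Nat.lt_floor_add_one _
    have hmain := hkey M hM8 hM0 a f K ha X (zz X) (HH X) (kk X) (NN X) (kap C X) hXp (HH_pos hl0)
      (zz_pos hl) (kap_nonneg hC1 X) (kap_pow hC1 hl) hNN
    set T := (RR M a K X (zz X) (HH X) (kk X) V).filter fun S => N8 (sm (zz X) S) (la (zz X) S)
      with hT
    have hTG : (RR M a K X (zz X) (HH X) (kk X) V).filter
        (fun S => N8 (sm (zz X) S) (la (zz X) S) ∧ Gk r a f S) = T.filter (Gk r a f) := by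
      rw [hT, filter_filter]
    rw [hTG] at hmain
    have hTS : T ⊆ SS M K X := (filter_subset _ _).trans (filter_subset _ _)
    have hRS : ((RR M a K X (zz X) (HH X) (kk X) V).card : ℝ) ≤ X := by
      exact_mod_cast (card_le_card ((filter_subset _ _).trans (SS_sub M K X))).trans (SA_card X)
    have hcmp := cmp (Gk r a f) T (SS M K X) hTS (gk r) (gk_mem r).1 (gk_mem r).2
    have hout : ((SS M K X \ T).card : ℝ) ≤
        ((((((SA X).filter fun S => kk X < S.card).card : ℝ) +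
        (((SA X).filter fun S => S.card ≤ kk X ∧
          X < (∏ p ∈ sm (zz X) S, p) * ∏ p ∈ la (zz X) S, XX (HH X) (jj (HH X) p)).card : ℝ)) +
        (((SA X).filter fun S => ¬ Set.InjOn (jj (HH X)) (la (zz X) S : Set ℕ)).card : ℝ)) +
        (((SA X).filter fun S => ((la (zz X) S).filter fun p => p % 8 = a).card <
          2 * (sm (zz X) S).card + V).card : ℝ) +
        (((SA X).filter fun S => S.card ≤ kk X ∧ ¬ N8 (sm (zz X) S) (la (zz X) S)).card : ℝ)) +
        (((SA X).filter fun S => ∀ p ∈ la (zz X) S, p % 8 ≠ 5 % 8).card : ℝ) := by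
      have g := card_le_card (out_sub M a K X (zz X) (HH X) (kk X) V)
      rw [← hT] at g
      have g2 := (g.trans (card_union_le _ _)).trans (Nat.add_le_add_right ((card_union_le _ _).trans
        (Nat.add_le_add_right ((card_union_le _ _).trans
        (Nat.add_le_add_right ((card_union_le _ _).trans
        (Nat.add_le_add_right (card_union_le _ _) _)) _)) _)) _)
      exact_mod_cast g2
    have g1 : ε / 2 * ((RR M a K X (zz X) (HH X) (kk X) V).card : ℝ) ≤ ε / 2 * X :=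
      mul_le_mul_of_nonneg_left hRS (by positivity)
    linarith
  obtain ⟨X₀, h0⟩ := eventually_atTop.1 hev2
  exact ⟨X₀, fun X hX => h0 X hX⟩

/-- **The proportion of the sets with corank `r`.** -/
theorem t_DQ (r : ℕ) : S_DQ r :=
  t_DQ' r Pool.Agent.N19.GB.t_BIL Pool.Agent.N19.GB.t_EQ (t_LA r) (t_BOX r) (t_KEY r)
    Pool.Agent.N502.GB.CNT.t_CNT Pool.Agent.Y488.CX.t_SIE Pool.Agent.N148.GB.t_HAL
    Pool.Agent.N19.GB.t_ME8 Pool.Agent.N148.GB.t_BAD Pool.Agent.N502.GB.FE1.t_FE1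
    Pool.Agent.Run7.h741.NT.FE2.t_FE2

/-- **The proportion of the matrices with corank `r` among the squarefree numbers in a union `K` of odd
classes modulo `M`, `8 ∣ M`, one of which is prime to `M`.** -/
theorem dens (r : ℕ) (M : ℕ) (hM : 8 ∣ M) (hM0 : 0 < M) (a : ℕ) (ha : a = 3 ∨ a = 7) (f : ℕ → ZMod 2)
    (K : Finset ℕ) (hK : ∀ b ∈ K, b < M ∧ b % 2 = 1) (b : ℕ) (hb : b ∈ K) (hc : b.Coprime M) :
    Tendsto (fun X : ℕ => (((Icc 1 X).filter fun n => Squarefree n ∧ n % M ∈ K ∧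
      Gk r a f n.primeFactors).card : ℝ) /
    (((Icc 1 X).filter fun n => Squarefree n ∧ n % M ∈ K).card : ℝ)) atTop (nhds (gk r)) := by
  have hM2 : 2 ∣ M := Dvd.dvd.trans (by norm_num) hM
  have hMr : (0 : ℝ) < M := by exact_mod_cast hM0
  rw [Metric.tendsto_atTop]
  intro ε hε
  obtain ⟨X₀, hX₀⟩ := t_DQ r M hM hM0 a f K ha (ε / 2 * (1 / (4 * M))) (by positivity)
  refine ⟨max X₀ (100 * M ^ 2), fun X hX => ?_⟩
  have h1 := hX₀ X ((le_max_left _ _).trans hX)
  have e1 := card_eq hM2 (fun b hb => (hK b hb).2) X (Gk r a f)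
  have e2 := card_eq hM2 (fun b hb => (hK b hb).2) X (fun _ => True)
  rw [Finset.filter_true] at e2
  simp only [and_true] at e2
  rw [← e1, ← e2] at h1
  have h2 := low hM2 hM0 (hK b hb).1 hc X ((le_max_right _ _).trans hX)
  have h3 : (((Icc 1 X).filter fun D => Squarefree D ∧ D % M = b).card : ℝ) ≤
      (((Icc 1 X).filter fun n => Squarefree n ∧ n % M ∈ K).card : ℝ) := by
    refine Nat.cast_le.2 (card_le_card fun n hn => ?_)
    rw [mem_filter] at hn ⊢
    refine ⟨hn.1, hn.2.1, ?_⟩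
    rw [hn.2.2]
    exact hb
  have hX1 : (0 : ℝ) < X := by
    have h4 : 0 < X := by
      have h5 := (le_max_right X₀ (100 * M ^ 2)).trans hX
      have h6 : 0 < 100 * M ^ 2 := by positivity
      omega
    exact_mod_cast h4
  set L : ℝ := (((Icc 1 X).filter fun n => Squarefree n ∧ n % M ∈ K).card : ℝ) with hL
  have hL0 : 0 < L := by
    have : (0 : ℝ) < 1 / (4 * M) * X := by positivity
    linarith
  rw [Real.dist_eq, div_sub' hL0.ne', abs_div, abs_of_pos hL0, div_lt_iff₀ hL0]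
  have h4 : ε / 2 * (1 / (4 * M)) * X ≤ ε / 2 * L := by
    have := h2.trans h3
    calc ε / 2 * (1 / (4 * M)) * X = ε / 2 * (1 / (4 * M) * X) := by ring
      _ ≤ ε / 2 * L := by gcongr
  have h5 : ε / 2 * L < ε * L := by
    apply mul_lt_mul_of_pos_right _ hL0
    linarith
  calc |(((Icc 1 X).filter fun n => Squarefree n ∧ n % M ∈ K ∧
      Gk r a f n.primeFactors).card : ℝ) - L * gk r| = |(((Icc 1 X).filter fun n => Squarefree n ∧
        n % M ∈ K ∧ Gk r a f n.primeFactors).card : ℝ) - gk r * L| := by rw [mul_comm L]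
    _ ≤ ε / 2 * (1 / (4 * M)) * X := h1
    _ < ε * L := by linarith

end Run7.h843.L
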