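import Pool.Agent.Run7.h843.L4
import Pool.Agent.Run7.h843.R11
import Pool.Agent.Run7.h843.R6

/-!
# The kernels of the matrix and of its transpose
-/

set_option autoImplicit false

namespace Run7.h843.L

open Finset
open Run7.h843.R
open Run7.h843.Desc (zmod2_cases add_self2 nr_self)
open Pool.Agent.Y703.CQ (nr)

/-- the kernel of the matrix -/
def K1 (m : ℕ) : Set (ℕ → ZMod 2) := {x | (∀ q, q ∉ SR m → x q = 0) ∧
  ∀ p ∈ SR m, ∑ q ∈ SR m, nr p q * x q + (∑ l ∈ m.primeFactors, nr p l + f16 p) * x p = 0}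

/-- the kernel of the transpose -/
def K2 (m : ℕ) : Set (ℕ → ZMod 2) := {x | (∀ q, q ∉ SR m → x q = 0) ∧
  ∀ p ∈ SR m, ∑ q ∈ SR m, x q * nr q p + x p * (∑ l ∈ m.primeFactors, nr p l + f16 p) = 0}

theorem card_ker {n : Type} [Fintype n] [DecidableEq n] (A : Matrix n n (ZMod 2)) (r : ℕ) :
    Nat.card {v : n → ZMod 2 // A.mulVec v = 0} = 2 ^ r ↔ A.rank + r = Fintype.card n := by
  have := Fact.mk Nat.prime_two
  have h1 : Nat.card {v : n → ZMod 2 // A.mulVec v = 0} = Nat.card (LinearMap.ker A.mulVecLin) :=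
    Nat.card_congr (Equiv.subtypeEquivRight fun v => by rw [LinearMap.mem_ker, Matrix.mulVecLin_apply])
  have h2 : Nat.card (LinearMap.ker A.mulVecLin) =
      2 ^ Module.finrank (ZMod 2) (LinearMap.ker A.mulVecLin) := by
    rw [Module.natCard_eq_pow_finrank (K := ZMod 2), Nat.card_zmod]
  have h3 := A.mulVecLin.finrank_range_add_finrank_ker
  rw [Module.finrank_fintype_fun_eq_card] at h3
  have h4 : A.rank = Module.finrank (ZMod 2) (LinearMap.range A.mulVecLin) := rfl
  rw [h1, h2, h4]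
  constructor
  · intro h
    have h5 := Nat.pow_right_injective le_rfl h
    omega
  · intro h
    congr 1
    omega

/-- functions on the set and functions supported on it -/
noncomputable def ext (m : ℕ) (P : (ℕ → ZMod 2) → Prop) (Q : (SR m → ZMod 2) → Prop)
    (h : ∀ x : ℕ → ZMod 2, (∀ q, q ∉ SR m → x q = 0) → (P x ↔ Q fun q => x q)) :
    {x : ℕ → ZMod 2 // (∀ q, q ∉ SR m → x q = 0) ∧ P x} ≃ {v : SR m → ZMod 2 // Q v} where
  toFun x := ⟨fun q => x.1 q, (h x.1 x.2.1).1 x.2.2⟩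
  invFun v := ⟨fun q => if hq : q ∈ SR m then v.1 ⟨q, hq⟩ else 0, fun q hq => dif_neg hq,
    (h _ fun q hq => dif_neg hq).2 (by
      have e : (fun q : SR m => (fun q : ℕ => if hq : q ∈ SR m then v.1 ⟨q, hq⟩ else 0) (q : ℕ)) =
          v.1 := funext fun q => dif_pos q.2
      rw [e]
      exact v.2)⟩
  left_inv x := by
    apply Subtype.ext
    funext q
    show (if hq : q ∈ SR m then x.1 q else 0) = x.1 q
    by_cases hq : q ∈ SR m
    · rw [dif_pos hq]
    · rw [dif_neg hq, x.2.1 q hq]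
  right_inv v := by
    apply Subtype.ext
    funext q
    show (if hq : (q : ℕ) ∈ SR m then v.1 ⟨q, hq⟩ else 0) = v.1 q
    rw [dif_pos q.2]

theorem card_K1 (m r : ℕ) : Nat.card (K1 m) = 2 ^ r ↔ (MatR m).rank + r = (SR m).card := by
  classical
  rw [← Fintype.card_coe (SR m), ← card_ker (MatR m) r]
  refine Eq.congr_left ?_
  refine Nat.card_congr (ext m (fun x => ∀ p ∈ SR m, ∑ q ∈ SR m, nr p q * x q +
    (∑ l ∈ m.primeFactors, nr p l + f16 p) * x p = 0) (fun v => (MatR m).mulVec v = 0) ?_)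
  intro x hx
  constructor
  · intro h
    funext p
    rw [mulVec_eq, Pi.zero_apply]
    have := h p p.2
    rw [← sum_coe_sort (SR m) (fun q => nr p q * x q)] at this
    exact this
  · intro h p hp
    have := congrFun h ⟨p, hp⟩
    rw [mulVec_eq, Pi.zero_apply] at this
    rw [← sum_coe_sort (SR m) (fun q => nr p q * x q)]
    exact this

theorem card_K2 (m r : ℕ) : Nat.card (K2 m) = 2 ^ r ↔ (MatR m).rank + r = (SR m).card := by
  classical
  rw [← Fintype.card_coe (SR m), ← Matrix.rank_transpose, ← card_ker (MatR m).transpose r]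
  refine Eq.congr_left ?_
  refine Nat.card_congr (ext m (fun x => ∀ p ∈ SR m, ∑ q ∈ SR m, x q * nr q p +
    x p * (∑ l ∈ m.primeFactors, nr p l + f16 p) = 0)
    (fun v => (MatR m).transpose.mulVec v = 0) ?_)
  intro x hx
  rw [Matrix.mulVec_transpose]
  constructor
  · intro h
    funext p
    rw [vecMul_eq, Pi.zero_apply]
    have := h p p.2
    rw [← sum_coe_sort (SR m) (fun q => x q * nr q p)] at this
    exact this
  · intro h p hp
    have := congrFun h ⟨p, hp⟩
    rw [vecMul_eq, Pi.zero_apply] at this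
    rw [← sum_coe_sort (SR m) (fun q => x q * nr q p)]
    exact this

theorem cv_cu (x : ℕ → ZMod 2) (q : ℕ) : cv x q = Pool.Agent.Run7.h741.NT.cu 7 x q := by
  unfold cv Pool.Agent.Run7.h741.NT.cu Pool.Agent.Run7.h741.NT.Sp
  congr

/-- the bridge to the counts -/
theorem gk_iff (m r : ℕ) : Gk r 7 f16 m.primeFactors ↔ (MatR m).rank + r = (SR m).card := by
  rw [← card_K1]
  unfold Gk K1
  refine Eq.congr_left ?_
  refine Nat.card_congr (Equiv.subtypeEquivRight fun x => ?_)
  have h1 : ∀ q, (q ∈ m.primeFactors ∧ Pool.Agent.Run7.h741.NT.Sp 7 q) ↔ q ∈ SR m := fun q => by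
    rw [mem_SR]
    rfl
  constructor
  · rintro ⟨h2, h3⟩
    refine ⟨fun q hq => h2 q fun h => hq ((h1 q).1 h), fun p hp => ?_⟩
    obtain ⟨hpf, hp8⟩ := mem_SR.1 hp
    have h4 := h3 p hpf hp8
    have h5 := sum_cv (m := m) p x
    have h6 : ∀ q, cv x q = Pool.Agent.Run7.h741.NT.cu 7 x q := fun q => cv_cu x q
    simp only [← h6] at h4
    rw [h5] at h4
    linear_combination h4
  · rintro ⟨h2, h3⟩
    refine ⟨fun q hq => h2 q fun h => hq ((h1 q).2 h), fun p hpf hp8 => ?_⟩
    have h4 := h3 p (mem_SR.2 ⟨hpf, hp8⟩)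
    have h5 := sum_cv (m := m) p x
    have h6 : ∀ q, cv x q = Pool.Agent.Run7.h741.NT.cu 7 x q := fun q => cv_cu x q
    simp only [← h6]
    rw [h5]
    linear_combination h4

end Run7.h843.L
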