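import Pool.Agent.Run7.h843.N7

/-!
# The parameters: infinitely many, and the j-invariants
-/

set_option autoImplicit false

open Finset

namespace Run7.h843.N

theorem dvd_PP' {I : Finset (ℤ × ℤ)} {q : ℤ × ℤ} (hq : q ∈ I) :
    ss q.1 q.2 * tt q.1 q.2 ∣ (PP I : ℤ) := by
  have h2 : (ss q.1 q.2 * tt q.1 q.2).natAbs ∣ PP I :=
    dvd_prod_of_mem (fun q : ℤ × ℤ => (ss q.1 q.2 * tt q.1 q.2).natAbs) hq
  exact Int.natAbs_dvd.1 (Int.natCast_dvd_natCast.2 h2)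

/-- an infinite sequence of parameters -/
theorem exists_pairs : ∃ w : ℕ → ℤ × ℤ,
    (∀ i, Good (w i) ∧ 1 < (ss (w i).1 (w i).2 * tt (w i).1 (w i).2).natAbs) ∧
    Pairwise fun i j => IsCoprime (ss (w i).1 (w i).2 * tt (w i).1 (w i).2)
      (ss (w j).1 (w j).2 * tt (w j).1 (w j).2) := by
  have hsymm : Std.Symm fun x y : ℤ × ℤ =>
      IsCoprime (ss x.1 x.2 * tt x.1 x.2) (ss y.1 y.2 * tt y.1 y.2) := ⟨fun _ _ h => h.symm⟩
  obtain ⟨f, h1, h2⟩ := exists_seq_of_forall_finset_exists'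
    (fun x : ℤ × ℤ => Good x ∧ 1 < (ss x.1 x.2 * tt x.1 x.2).natAbs)
    (fun x y : ℤ × ℤ => IsCoprime (ss x.1 x.2 * tt x.1 x.2) (ss y.1 y.2 * tt y.1 y.2))
    (fun I hI => by
      have hP : (0 : ℤ) < PP I := by exact_mod_cast PP_pos fun q hq => (hI q hq).1
      refine ⟨(2 * (PP I : ℤ), 1), ⟨⟨isCoprime_one_right, ?_⟩, ?_⟩, fun x hx => ?_⟩
      · show (2 * (PP I : ℤ) + 1) % 2 = 1
        omega
      · have hs : ss (2 * (PP I : ℤ)) 1 ≠ 0 := by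
          unfold ss
          intro h
          have h3 : (2 * (PP I : ℤ)) ^ 2 - 2 * (2 * (PP I : ℤ)) * 1 - 1 ^ 2 =
            2 * (2 * (PP I : ℤ) ^ 2 - 2 * (PP I : ℤ)) - 1 := by ring
          rw [h3] at h
          omega
        have ht : 1 < tt (2 * (PP I : ℤ)) 1 := by
          unfold tt
          nlinarith
        rw [Int.natAbs_mul]
        have h3 : 0 < (ss (2 * (PP I : ℤ)) 1).natAbs := Int.natAbs_pos.2 hs
        have h4 : 1 < (tt (2 * (PP I : ℤ)) 1).natAbs := by omega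
        exact h4.trans_le (Nat.le_mul_of_pos_left _ h3)
      · obtain ⟨k, hk⟩ := dvd_PP' hx
        set a := ss x.1 x.2 * tt x.1 x.2 with ha
        have e : ss (2 * (PP I : ℤ)) 1 * tt (2 * (PP I : ℤ)) 1 =
            1 + a * (k * (4 * PP I * (4 * PP I ^ 2 - 6))) := by
          unfold ss tt
          linear_combination (4 * (PP I : ℤ) * (4 * PP I ^ 2 - 6)) * hk
        show IsCoprime a (ss (2 * (PP I : ℤ)) 1 * tt (2 * (PP I : ℤ)) 1)
        rw [e]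
        exact ⟨-(k * (4 * PP I * (4 * PP I ^ 2 - 6))), 1, by ring⟩)
  exact ⟨f, h1, h2⟩

/-- the numerator and the denominator of the j-invariant are coprime -/
theorem cop_j {u v : ℤ} (h : Good (u, v)) :
    IsCoprime (64 * (8 * rr u v ^ 2 - 3 * ss u v ^ 2) ^ 3) (ss u v ^ 4 * tt u v ^ 2) := by
  have hs0 := h.s0
  have ht0 := h.t0
  obtain ⟨p1, p2, p3⟩ := par h.2
  refine isCoprime_of_prime_dvd (fun h0 => mul_ne_zero (pow_ne_zero 4 hs0) (pow_ne_zero 2 ht0)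
    h0.2) fun z hz h1 h2 => ?_
  have hq : z.natAbs.Prime := Int.prime_iff_natAbs_prime.1 hz
  have hzq : ∀ n : ℤ, z ∣ n ↔ ((z.natAbs : ℕ) : ℤ) ∣ n := fun n => Int.natAbs_dvd.symm
  set q := z.natAbs with hqd
  have hqi : Prime (q : ℤ) := Nat.prime_iff_prime_int.1 hq
  rw [hzq] at h1 h2
  have hst : (q : ℤ) ∣ ss u v ∨ (q : ℤ) ∣ tt u v := by
    rcases hqi.dvd_or_dvd h2 with h | h
    · exact Or.inl (hqi.dvd_of_dvd_pow h)
    · exact Or.inr (hqi.dvd_of_dvd_pow h)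
  have hq2 : q ≠ 2 := by
    intro h3
    rw [h3] at hst
    rcases hst with h | h
    · have : (2 : ℤ) ∣ ss u v := by exact_mod_cast h
      simp only at p1
      omega
    · have : (2 : ℤ) ∣ tt u v := by exact_mod_cast h
      simp only at p2
      omega
  have h3 : (q : ℤ) ∣ 8 * rr u v ^ 2 - 3 * ss u v ^ 2 := by
    rcases hqi.dvd_or_dvd h1 with h | h
    · have := R.odd_nd hq hq2 6
      norm_num at this
      exact absurd h this
    · exact hqi.dvd_of_dvd_pow h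
  have hrel := rel u v
  refine cop_rs h.1 hq hq2 ?_ hst
  rcases hst with h4 | h4
  · have h5 : (q : ℤ) ∣ 2 ^ 3 * rr u v ^ 2 := by
      have e : 2 ^ 3 * rr u v ^ 2 = (8 * rr u v ^ 2 - 3 * ss u v ^ 2) + 3 * ss u v ^ 2 := by ring
      rw [e]
      exact dvd_add h3 (Dvd.dvd.mul_left (Dvd.dvd.pow h4 two_ne_zero) _)
    rcases hqi.dvd_or_dvd h5 with h | h
    · exact absurd h (R.odd_nd hq hq2 3)
    · exact hqi.dvd_of_dvd_pow h
  · have h5 : (q : ℤ) ∣ 2 ^ 1 * rr u v ^ 2 := by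
      have e : 2 ^ 1 * rr u v ^ 2 = (8 * rr u v ^ 2 - 3 * ss u v ^ 2) - 3 * tt u v ^ 2 := by
        linear_combination 3 * hrel
      rw [e]
      exact dvd_sub h3 (Dvd.dvd.mul_left (Dvd.dvd.pow h4 two_ne_zero) _)
    rcases hqi.dvd_or_dvd h5 with h | h
    · exact absurd h (R.odd_nd hq hq2 1)
    · exact hqi.dvd_of_dvd_pow h

/-- the j-invariant -/
theorem j_eq {u v : ℤ} (h : Good (u, v)) {m : ℕ} (hm : m ≠ 0) {W : WeierstrassCurve ℚ}
    (hW : W = ⟨0, -4 * (rr u v : ℚ) * m, 0, 2 * (ss u v : ℚ) ^ 2 * m ^ 2, 0⟩) :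
    W.Δ ≠ 0 ∧ W.c₄ ^ 3 / W.Δ =
      (64 * (8 * rr u v ^ 2 - 3 * ss u v ^ 2) ^ 3 : ℤ) / (ss u v ^ 4 * tt u v ^ 2 : ℤ) := by
  have hs0 : (ss u v : ℚ) ≠ 0 := by exact_mod_cast h.s0
  have ht0 : (tt u v : ℚ) ≠ 0 := by exact_mod_cast h.t0
  have hm0 : (m : ℚ) ≠ 0 := by exact_mod_cast hm
  have hrel : (ss u v : ℚ) ^ 2 + (tt u v : ℚ) ^ 2 = 2 * (rr u v : ℚ) ^ 2 := by
    have := congrArg (fun z : ℤ => (z : ℚ)) (rel u v)
    push_cast at this
    exact this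
  have hΔ : W.Δ = 512 * (ss u v : ℚ) ^ 4 * (tt u v : ℚ) ^ 2 * (m : ℚ) ^ 6 := by
    rw [hW]
    simp only [WeierstrassCurve.Δ, WeierstrassCurve.b₂, WeierstrassCurve.b₄, WeierstrassCurve.b₆,
      WeierstrassCurve.b₈]
    linear_combination (-512 * (ss u v : ℚ) ^ 4 * (m : ℚ) ^ 6) * hrel
  have hc : W.c₄ = 32 * (m : ℚ) ^ 2 * (8 * (rr u v : ℚ) ^ 2 - 3 * (ss u v : ℚ) ^ 2) := by
    rw [hW]
    simp only [WeierstrassCurve.c₄, WeierstrassCurve.b₂, WeierstrassCurve.b₄]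
    ring
  constructor
  · rw [hΔ]
    positivity
  · rw [hΔ, hc]
    push_cast
    field_simp
    ring

end Run7.h843.N
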