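import Pool.Agent.Run7.h843.L5
import Pool.Agent.Run7.h843.N8

/-!
# The local conditions for the vectors of the two kernels
-/

set_option autoImplicit false

open NumberField IsDedekindDomain

namespace Run7.h843.L

open Finset
open Pool.Agent.Y698.SG.Cv (LocI WF)
open Pool.Agent.TH841.NF.D (Sha)
open Pool.Agent.Y703.CQ (nr)
open Run7.h843.Desc Run7.h843.Sha Run7.h843.Conv Run7.h843.R
open Run7.h843.N (rr ss tt rel Adm rr_pos par root_class two_ne ns_mul_ns s_mul_ns loc_s loc_t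
  two_sq_st)

section

variable {m : ℕ} {x : ℕ → ZMod 2}

/-- the support of a vector -/
def TT (m : ℕ) (x : ℕ → ZMod 2) : Finset ℕ := (SR m).filter fun p => x p = 1

/-- the product of the primes of the support -/
def NN (m : ℕ) (x : ℕ → ZMod 2) : ℕ := ∏ p ∈ TT m x, p

theorem mem_TT {p : ℕ} : p ∈ TT m x ↔ p ∈ SR m ∧ x p = 1 := mem_filter

theorem TT_pf {p : ℕ} (h : p ∈ TT m x) : p ∈ m.primeFactors := (mem_SR.1 (mem_TT.1 h).1).1

theorem TT_prime {p : ℕ} (h : p ∈ TT m x) : p.Prime := Nat.prime_of_mem_primeFactors (TT_pf h)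

theorem NN_ne : NN m x ≠ 0 := prod_ne_zero_iff.2 fun _ hp => (TT_prime hp).ne_zero

theorem NN_pf : (NN m x).primeFactors = TT m x := Nat.primeFactors_prod fun _ h => TT_prime h

theorem NN_dvd (hm : Squarefree m) : NN m x ∣ m := by
  have h : ∏ p ∈ TT m x, p ∣ ∏ p ∈ m.primeFactors, p :=
    prod_dvd_prod_of_subset _ _ _ fun _ h => TT_pf h
  rw [Nat.prod_primeFactors_of_squarefree hm] at h
  exact h

theorem NN_sq (hm : Squarefree m) : Squarefree (NN m x) := hm.squarefree_of_dvd (NN_dvd hm)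

theorem NN_odd (hm : Squarefree m) (h2 : m % 2 = 1) : NN m x % 2 = 1 := by
  obtain ⟨k, hk⟩ := NN_dvd (x := x) hm
  rcases Nat.mod_two_eq_zero_or_one (NN m x) with h | h
  · rw [hk, Nat.mul_mod, h, zero_mul] at h2
    exact absurd h2 (by norm_num)
  · exact h

theorem NN_vv (hm : Squarefree m) (hx : ∀ q, q ∉ SR m → x q = 0) (q : ℕ) :
    vv q (NN m x : ℤ) = x q := by
  by_cases h : q ∈ TT m x
  · rw [vv_sqfree (NN_sq hm) (by rw [NN_pf]; exact h), (mem_TT.1 h).2]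
  · rw [vv_not_mem (by rw [NN_pf]; exact h)]
    rcases zmod2_cases (x q) with h0 | h0
    · exact h0.symm
    · exfalso
      apply h
      refine mem_TT.2 ⟨?_, h0⟩
      by_contra hq
      rw [hx q hq] at h0
      exact absurd h0 (by decide)

theorem NN_nd (hx : ∀ q, q ∉ SR m → x q = 0) {p : ℕ} (hp : p.Prime) :
    ((p : ℤ) ∣ (NN m x : ℤ)) ↔ x p = 1 := by
  have h1 : ((p : ℤ) ∣ (NN m x : ℤ)) ↔ p ∈ TT m x := by
    rw [← NN_pf, Nat.mem_primeFactors]
    constructor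
    · intro h6
      exact ⟨hp, by exact_mod_cast h6, NN_ne⟩
    · intro h6
      exact_mod_cast h6.2.1
  rw [h1, mem_TT]
  refine ⟨fun h => h.2, fun h => ⟨?_, h⟩⟩
  by_contra hq
  rw [hx p hq] at h
  exact absurd h (by decide)

theorem NN_lam (p : ℕ) : lam p (NN m x : ℤ) = ∑ q ∈ TT m x, nr p q := by
  rw [lam_eq_sum (S := TT m x) fun q _ hq => vv_not_mem (by rw [NN_pf]; exact hq)]
  have hsq : ∀ q ∈ TT m x, vv q (NN m x : ℤ) = 1 := by
    intro q hq
    unfold vv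
    rw [Int.natAbs_natCast]
    unfold NN
    have hpr : ∀ p ∈ TT m x, p ≠ 0 := fun p hp => (TT_prime hp).ne_zero
    rw [Nat.factorization_prod hpr, Finsupp.finsetSum_apply,
      sum_congr rfl fun p hp => by rw [(TT_prime hp).factorization, Finsupp.single_apply]]
    rw [sum_ite_eq' (TT m x) q (fun _ => 1), if_pos hq, Nat.cast_one]
  exact sum_congr rfl fun q hq => by rw [hsq q hq, one_mul]

theorem sum_TT (g : ℕ → ZMod 2) : ∑ q ∈ SR m, x q * g q = ∑ q ∈ TT m x, g q := by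
  unfold TT
  rw [sum_filter]
  refine sum_congr rfl fun q _ => ?_
  rcases zmod2_cases (x q) with h | h
  · rw [h, zero_mul, if_neg (by decide)]
  · rw [h, one_mul, if_pos rfl]

/-- the signed product -/
def dd (m : ℕ) (x : ℕ → ZMod 2) : ℤ := if NN m x % 8 = 1 then NN m x else -(NN m x)

theorem dd_cases : dd m x = NN m x ∨ dd m x = -(NN m x) := by
  unfold dd
  split_ifs
  · exact Or.inl rfl
  · exact Or.inr rfl

theorem NN_8 : (NN m x % 8 = 1 ∧ ∑ q ∈ TT m x, e3 q = 0) ∨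
    (NN m x % 8 = 7 ∧ ∑ q ∈ TT m x, e3 q = 1) :=
  prod8 fun _ hq => (mem_SR.1 (mem_TT.1 hq).1).2

theorem dd_8 : dd m x % 8 = 1 ∧ sg (dd m x) = ∑ q ∈ TT m x, e3 q := by
  have hp : (0 : ℤ) < NN m x := by exact_mod_cast Nat.pos_of_ne_zero NN_ne
  unfold dd
  rcases NN_8 (m := m) (x := x) with ⟨h1, h2⟩ | ⟨h1, h2⟩
  · rw [if_pos h1, h2, sg_pos hp]
    exact ⟨by omega, rfl⟩
  · rw [if_neg (by omega), h2, sg_neg (by omega)]
    exact ⟨by omega, rfl⟩

theorem dd_ne : dd m x ≠ 0 := by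
  have h : (NN m x : ℤ) ≠ 0 := by exact_mod_cast NN_ne
  rcases dd_cases (m := m) (x := x) with h1 | h1 <;> rw [h1]
  · exact h
  · exact neg_ne_zero.2 h

theorem dd_vv (q : ℕ) : vv q (dd m x) = vv q (NN m x : ℤ) := by
  rcases dd_cases (m := m) (x := x) with h1 | h1 <;> rw [h1]
  rw [vv_neg]

theorem dd_lam (q : ℕ) : lam q (dd m x) = lam q (NN m x : ℤ) := by
  rcases dd_cases (m := m) (x := x) with h1 | h1 <;> rw [h1]
  rw [lam_neg]

theorem dd_dvd {n : ℤ} : n ∣ dd m x ↔ n ∣ (NN m x : ℤ) := by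
  rcases dd_cases (m := m) (x := x) with h1 | h1 <;> rw [h1]
  rw [dvd_neg]

end

section

variable {p : ℕ} [hp : Fact p.Prime] {m : ℕ}

/-- at a prime dividing `m` and `d` exactly once -/
theorem root_sq (h8 : p % 8 = 1 ∨ p % 8 = 7) (hp2 : p ≠ 2) (hm : Squarefree m)
    (hpf : p ∈ m.primeFactors) {d : ℤ} (hd0 : d ≠ 0) (hpd : (p : ℤ) ∣ d) (hd : Squarefree d)
    {ε : ℤ} (hε : ε = 1 ∨ ε = -1) {s : ZMod 2} (hs : sg (ε * d) = s)
    (hrow : lam p (m : ℤ) + lam p d + s * e3 p + f16 p = 0) {r : ℚ_[p]} (hr : r ^ 2 = 2) :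
    ∃ c : ℚ_[p], (ε * (m * d) : ℚ_[p]) * (2 + r) = c ^ 2 := by
  have hpp := hp.out
  have hmz : (m : ℤ) ≠ 0 := by exact_mod_cast hm.ne_zero
  have hmp : (0 : ℤ) < m := by exact_mod_cast Nat.pos_of_ne_zero hm.ne_zero
  obtain ⟨m', hm'⟩ := Nat.dvd_of_mem_primeFactors hpf
  obtain ⟨d', hd'⟩ := hpd
  have hpz : (p : ℤ) ≠ 0 := by exact_mod_cast hpp.ne_zero
  have hmm : (m : ℤ) = p * m' := by rw [hm']; push_cast; ring
  have hpm' : ¬ (p : ℤ) ∣ m' := by
    intro h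
    have h4 : p ∣ m' := by exact_mod_cast h
    have h5 : p * p ∣ m := by
      rw [hm']
      exact mul_dvd_mul_left p h4
    exact hpp.not_isUnit (hm p h5)
  have hpd' : ¬ (p : ℤ) ∣ d' := by
    intro h
    have h5 : (p : ℤ) * p ∣ d := by
      rw [hd']
      exact mul_dvd_mul_left _ h
    exact (Nat.prime_iff_prime_int.1 hpp).not_isUnit (hd _ h5)
  have hm'0 : (m' : ℤ) ≠ 0 := by
    intro h
    rw [h] at hpm'
    exact hpm' (dvd_zero _)
  have hd'0 : d' ≠ 0 := by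
    intro h
    rw [h] at hpd'
    exact hpd' (dvd_zero _)
  have hε0 : ε ≠ 0 := by rcases hε with h | h <;> rw [h] <;> norm_num
  have hlε : lam p ε = 0 := by
    rcases hε with h | h <;> rw [h]
    · exact lam_sq p (A := 1) one_ne_zero
    · rw [lam_neg]
      exact lam_sq p (A := 1) one_ne_zero
  have hu : ¬ (p : ℤ) ∣ ε * (m' * d') := by
    intro h
    rcases (Int.Prime.dvd_mul' hpp h) with h | h
    · rcases hε with h5 | h5 <;> rw [h5] at h
      · exact (Nat.prime_iff_prime_int.1 hpp).not_isUnit (isUnit_of_dvd_one h)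
      · rw [dvd_neg] at h
        exact (Nat.prime_iff_prime_int.1 hpp).not_isUnit (isUnit_of_dvd_one h)
    · rcases (Int.Prime.dvd_mul' hpp h) with h | h
      · exact hpm' h
      · exact hpd' h
  have hu0 : (ε * (m' * d') : ℤ) ≠ 0 := mul_ne_zero hε0 (mul_ne_zero hm'0 hd'0)
  have e1 : (ε * (m' * d') : ℤ) * p ^ 2 = ε * (m * d) := by
    rw [hmm, hd']
    ring
  have e2 : lam p (ε * (m' * d')) = lam p (m : ℤ) + lam p d := by
    have h5 := congrArg (lam p) e1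
    rw [lam_mul p hu0 (pow_ne_zero 2 hpz), lam_sq p hpz, add_zero,
      lam_mul p hε0 (mul_ne_zero hmz hd0), lam_mul p hmz hd0, hlε, zero_add] at h5
    exact h5
  have e3' : sg (ε * (m' * d')) = s := by
    have h5 := congrArg sg e1
    have hp2' : (0 : ℤ) < p ^ 2 := by positivity
    have e4 : ε * ((m : ℤ) * d) = m * (ε * d) := by ring
    rw [sg_mul hu0 hp2'.ne', sg_pos hp2', add_zero, e4, sg_mul hmz (mul_ne_zero hε0 hd0),
      sg_pos hmp, zero_add, hs] at h5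
    exact h5
  have hch : ch p (ε * (m' * d')) + f16 p = 0 := by
    rw [ch_unit hp2 hu, e2, e3']
    exact hrow
  obtain ⟨c, hc⟩ := theta_sq h8 hr hu hch
  refine ⟨c * p, ?_⟩
  have h5 : ((ε * (m' * d') : ℤ) : ℚ_[p]) * p ^ 2 = ε * (m * d) := by
    have h6 : ((ε * (m' * d') * p ^ 2 : ℤ) : ℚ_[p]) = ((ε * (m * d) : ℤ) : ℚ_[p]) := by rw [e1]
    push_cast at h6 ⊢
    exact h6
  rw [← h5, mul_pow, ← hc]
  ring

end

end Run7.h843.L
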