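import Pool.Agent.Run7.h843.L6

/-!
# The local conditions for the vectors of the two kernels, continued
-/

set_option autoImplicit false

open NumberField IsDedekindDomain

namespace Run7.h843.L

open Finset
open Pool.Agent.Y698.SG.Cv (LocI WF)
open Pool.Agent.TH841.NF.D (Sha)
open Pool.Agent.Y703.CQ (nr)
open Run7.h843.Desc Run7.h843.Sha Run7.h843.Conv Run7.h843.R
open Run7.h843.N (rr ss tt rel Adm rr_pos par root_class two_ne ns_mul_ns s_mul_ns loc_s loc_t
  two_sq_st)

variable {u v : ℤ} {m : ℕ} {x : ℕ → ZMod 2}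

theorem NN_sqz (hm : Squarefree m) : Squarefree (NN m x : ℤ) := Int.squarefree_natCast.2 (NN_sq hm)

theorem dd_sqz (hm : Squarefree m) : Squarefree (dd m x) := by
  rcases dd_cases (m := m) (x := x) with h | h <;> rw [h]
  · exact NN_sqz hm
  · rw [← Int.squarefree_natAbs, Int.natAbs_neg, Int.squarefree_natAbs]
    exact NN_sqz hm

/-- **the first kernel** -/
theorem loc1 (huv : IsCoprime u v) (hpar : (u + v) % 2 = 1) (ha : Adm u v m) (hx : x ∈ K1 m) :
    (∀ (p : ℕ) [Fact p.Prime], LocI ℚ_[p] (8 * rr u v * m) (8 * tt u v ^ 2 * m ^ 2) (NN m x)) ∧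
      LocI ℝ (8 * rr u v * m) (8 * tt u v ^ 2 * m ^ 2) (NN m x) := by
  classical
  have hm := ha.sq
  have hm2 := ha.odd
  have hm0 : m ≠ 0 := hm.ne_zero
  have hmz : (m : ℤ) ≠ 0 := by exact_mod_cast hm0
  have hmp : (0 : ℤ) < m := by exact_mod_cast Nat.pos_of_ne_zero hm0
  have hR := rr_pos huv
  have hrel := rel u v
  obtain ⟨q1, q2, q3⟩ := par hpar
  have hs0 : ss u v ≠ 0 := by omega
  have ht0 : tt u v ≠ 0 := by omega
  have hNp : (0 : ℤ) < NN m x := by exact_mod_cast Nat.pos_of_ne_zero NN_ne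
  have hd0 := hNp.ne'
  have hb : (8 * tt u v ^ 2 * m ^ 2 : ℤ) ≠ 0 :=
    mul_ne_zero (mul_ne_zero (by norm_num) (pow_ne_zero 2 ht0)) (pow_ne_zero 2 hmz)
  have eab : (8 * rr u v * m : ℤ) ^ 2 - 4 * (8 * tt u v ^ 2 * m ^ 2) =
      2 ^ 5 * m ^ 2 * ss u v ^ 2 := by
    linear_combination (-32 * (m : ℤ) ^ 2) * hrel
  have hab : (8 * rr u v * m : ℤ) ^ 2 - 4 * (8 * tt u v ^ 2 * m ^ 2) ≠ 0 := by
    rw [eab]
    exact mul_ne_zero (mul_ne_zero (by norm_num) (pow_ne_zero 2 hmz)) (pow_ne_zero 2 hs0)
  obtain ⟨lq1, lq2⟩ := Pool.Agent.Y971.SG.Lq.t_LQ (8 * rr u v * m) (8 * tt u v ^ 2 * m ^ 2)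
    (NN m x) hb hab hd0
  refine ⟨?_, lq2 hNp⟩
  intro p hp
  have hpp : p.Prime := hp.out
  have hpi : Prime (p : ℤ) := Nat.prime_iff_prime_int.1 hpp
  have hrelp : (ss u v : ℚ_[p]) ^ 2 + (tt u v : ℚ_[p]) ^ 2 = 2 * (rr u v : ℚ_[p]) ^ 2 := by
    have := congrArg (fun z : ℤ => (z : ℚ_[p])) hrel
    push_cast at this
    exact this
  by_cases hp2 : p = 2
  · subst hp2
    rcases NN_8 (m := m) (x := x) with ⟨h8, -⟩ | ⟨h8, -⟩
    · exact lq1 2 (Or.inl (Pool.Agent.Y971.SG.Lq.padic_sq2 (by omega)))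
    · obtain ⟨c, hc⟩ := Pool.Agent.Y971.SG.Lq.padic_sq2 (n := -(NN m x : ℤ)) (by omega)
      obtain ⟨e, he⟩ := Pool.Agent.Y971.SG.Lq.padic_sq2
        (n := -(1 + 4 * rr u v * m + 2 * ss u v ^ 2 * m ^ 2)) (by
          obtain ⟨i, hi⟩ : ∃ i, rr u v * m = 2 * i + 1 := by
            have : (rr u v * m) % 2 = 1 := by
              rw [Int.mul_emod, q3]
              have : (m : ℤ) % 2 = 1 := by omega
              rw [this]
              rfl
            exact ⟨rr u v * m / 2, by omega⟩
          obtain ⟨j, hj⟩ : ∃ j, ss u v * m = 2 * j + 1 := by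
            have : (ss u v * m) % 2 = 1 := by
              rw [Int.mul_emod, q1]
              have : (m : ℤ) % 2 = 1 := by omega
              rw [this]
              rfl
            exact ⟨ss u v * m / 2, by omega⟩
          have e : -(1 + 4 * rr u v * m + 2 * ss u v ^ 2 * m ^ 2) =
              8 * (-1 - i - j ^ 2 - j) + 1 := by
            linear_combination (-4) * hi - 2 * (ss u v * m + (2 * j + 1)) * hj
          rw [e]
          omega)
      have hNq : (NN m x : ℚ_[2]) ≠ 0 := by exact_mod_cast NN_ne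
      refine ⟨-4, 8 * e, 2 * c / NN m x, by norm_num, ?_, ?_⟩
      · push_cast at he ⊢
        linear_combination (-64) * he - (128 * (m : ℚ_[2]) ^ 2) * hrelp
      · push_cast at hc ⊢
        rw [div_pow]
        field_simp
        linear_combination (4 : ℚ_[2]) * hc
  · by_cases hpS : p ∈ SR m
    · obtain ⟨hpf, h8⟩ := mem_SR.1 hpS
      have hxe := hx.2 p hpS
      have hsum : ∑ q ∈ SR m, nr p q * x q = lam p (NN m x : ℤ) := by
        rw [NN_lam, ← sum_TT]
        exact sum_congr rfl fun q _ => mul_comm _ _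
      rw [hsum] at hxe
      by_cases hpT : x p = 1
      · rw [hpT, mul_one] at hxe
        obtain ⟨r, hr⟩ := exists_r (p := p) h8
        obtain ⟨c, hc⟩ := root_sq h8 hp2 hm hpf hd0 ((NN_nd hx.1 hpp).2 hpT) (NN_sqz hm)
          (ε := 1) (Or.inl rfl) (s := 0) (by rw [one_mul]; exact sg_pos hNp) (by
            rw [lam_m hm]
            linear_combination hxe) hr
        obtain ⟨rc1, rc2⟩ := root_class (p := p) (u := (u : ℚ_[p])) (v := (v : ℚ_[p])) hr
        have hRe : (rr u v : ℚ_[p]) = u ^ 2 + v ^ 2 := by unfold rr; push_cast; ring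
        have hTe : (tt u v : ℚ_[p]) = u ^ 2 + 2 * u * v - v ^ 2 := by unfold tt; push_cast; ring
        have hρ : 2 * (rr u v : ℚ_[p]) + tt u v * r = (2 + r) * (u - (1 - r) * v) ^ 2 := by
          rw [hRe, hTe]
          linear_combination rc1
        have hS0p : (ss u v : ℚ_[p]) ≠ 0 := by exact_mod_cast hs0
        have hmq : (m : ℚ_[p]) ≠ 0 := by exact_mod_cast hm0
        have hNq : (NN m x : ℚ_[p]) ≠ 0 := by exact_mod_cast NN_ne
        have hρ0 : 2 * (rr u v : ℚ_[p]) + tt u v * r ≠ 0 := by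
          intro h
          have h5 : (2 * (rr u v : ℚ_[p]) + tt u v * r) * (2 * rr u v - tt u v * r) =
              2 * (ss u v : ℚ_[p]) ^ 2 := by
            linear_combination (-(tt u v : ℚ_[p]) ^ 2) * hr - 2 * hrelp
          rw [h, zero_mul] at h5
          exact mul_ne_zero two_ne_zero (pow_ne_zero 2 hS0p) h5.symm
        refine ⟨4 * m * (2 * rr u v + tt u v * r), 0,
          2 * c * (u - (1 - r) * v) / NN m x,
          mul_ne_zero (mul_ne_zero (by norm_num) hmq) hρ0, ?_, ?_⟩
        · push_cast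
          have e5 : (4 * (m : ℚ_[p]) * (2 * rr u v + tt u v * r)) ^ 2 -
              2 * (8 * (rr u v : ℚ_[p]) * m) * (4 * m * (2 * rr u v + tt u v * r)) +
              ((8 * (rr u v : ℚ_[p]) * m) ^ 2 - 4 * (8 * (tt u v : ℚ_[p]) ^ 2 * m ^ 2)) = 0 := by
            linear_combination (16 * (m : ℚ_[p]) ^ 2 * (tt u v : ℚ_[p]) ^ 2) * hr
          linear_combination (-(4 * (m : ℚ_[p]) * (2 * rr u v + tt u v * r))) * e5
        · push_cast at hc
          rw [div_pow, mul_pow, mul_pow, ← hc, hρ]
          push_cast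
          field_simp
          ring
      · refine lq1 p (Or.inl ?_)
        have hxp : x p = 0 := (zmod2_cases (x p)).resolve_right hpT
        rw [hxp, mul_zero, add_zero] at hxe
        have hpd : ¬ (p : ℤ) ∣ (NN m x : ℤ) := fun h => hpT ((NN_nd hx.1 hpp).1 h)
        refine Pool.Agent.Y971.SG.Lq.t_SQ p _ hp2 hpd (Fin.ch_zero_iff.1 ?_)
        rw [ch_unit hp2 hpd, sg_pos hNp, zero_mul, add_zero]
        exact hxe
    · have hpd : ¬ (p : ℤ) ∣ (NN m x : ℤ) := fun h => by
        have := (NN_nd hx.1 hpp).1 h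
        rw [hx.1 p hpS] at this
        exact absurd this (by decide)
      by_cases h5 : IsSquare ((NN m x : ℤ) : ZMod p)
      · exact lq1 p (Or.inl (Pool.Agent.Y971.SG.Lq.t_SQ p _ hp2 hpd h5))
      · by_cases hpm : p ∈ m.primeFactors
        · -- two is not a residue
          have h8 : ¬ (p % 8 = 1 ∨ p % 8 = 7) := fun h8 => hpS (mem_SR.2 ⟨hpm, h8⟩)
          have h2n : ¬ IsSquare (2 : ZMod p) := by
            rw [ZMod.exists_sq_eq_two_iff hp2]
            exact h8
          have hp2d : ¬ (p : ℤ) ∣ 2 * (NN m x : ℤ) := by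
            intro h
            rcases (Int.Prime.dvd_mul' hpp h) with h | h
            · have := odd_nd hpp hp2 1
              rw [pow_one] at this
              exact this h
            · exact hpd h
          have h6 : IsSquare ((2 * (NN m x : ℤ) : ℤ) : ZMod p) := by
            rw [Int.cast_mul, Int.cast_ofNat]
            exact ns_mul_ns h2n h5
          obtain ⟨t, ht⟩ := Pool.Agent.Y971.SG.Lq.t_SQ p _ hp2 hp2d h6
          refine lq1 p (Or.inr ⟨4 * m * ss u v * t, ?_⟩)
          push_cast at ht ⊢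
          linear_combination 16 * (m : ℚ_[p]) ^ 2 * (ss u v : ℚ_[p]) ^ 2 * ht -
            32 * (m : ℚ_[p]) ^ 2 * (NN m x) * hrelp
        · have ea : (-4 * rr u v * (-2 * m) : ℤ) = 8 * rr u v * m := by ring
          have eb : (2 * tt u v ^ 2 * (-2 * m) ^ 2 : ℤ) = 8 * tt u v ^ 2 * m ^ 2 := by ring
          have hrel' : tt u v ^ 2 + ss u v ^ 2 = 2 * rr u v ^ 2 := by linear_combination hrel
          by_cases hps : (p : ℤ) ∣ ss u v
          · have h2s := two_sq_st huv hp2 (Or.inl hps)
            have h := loc_t (p := p) hp2 (R := rr u v) (S := tt u v) (T := ss u v) (m := -2 * m)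
              (d := NN m x) hrel' hps hs0 (by
                have e : ((rr u v * (-2 * m) : ℤ) : ZMod p) =
                    2 * ((-(rr u v * m) : ℤ) : ZMod p) := by push_cast; ring
                rw [e]
                exact s_mul_ns h2s (two_ne hp2) (ha.ns p hpp hps)) h2s hpd h5
            rwa [ea, eb] at h
          · by_cases hpt : (p : ℤ) ∣ tt u v
            · have h2s := two_sq_st huv hp2 (Or.inr hpt)
              have h := loc_s (p := p) hp2 (R := rr u v) (S := tt u v) (T := ss u v) (m := -2 * m)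
                (d := NN m x) hrel' hpt (by
                  have e : ((-(rr u v * (-2 * m)) : ℤ) : ZMod p) =
                      2 * ((rr u v * m : ℤ) : ZMod p) := by push_cast; ring
                  rw [e]
                  exact s_mul_ns h2s (two_ne hp2) (ha.nt p hpp hpt)) hpd h5
              rwa [ea, eb] at h
            · refine good_p hb hab hd0 p hp2 ?_ ?_ hpd
              · intro h
                have e : (8 * tt u v ^ 2 * m ^ 2 : ℤ) = 2 ^ 3 * m ^ 2 * tt u v ^ 2 := by ring
                rw [e] at h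
                rcases hpi.dvd_or_dvd h with h | h
                · exact nd8 hpp hp2 hm0 hpm 3 h
                · exact hpt (hpi.dvd_of_dvd_pow h)
              · rw [eab]
                intro h
                rcases hpi.dvd_or_dvd h with h | h
                · exact nd8 hpp hp2 hm0 hpm 5 h
                · exact hps (hpi.dvd_of_dvd_pow h)

/-- **the second kernel** -/
theorem loc2 (huv : IsCoprime u v) (hpar : (u + v) % 2 = 1) (ha : Adm u v m) (hx : x ∈ K2 m) :
    (∀ (p : ℕ) [Fact p.Prime], LocI ℚ_[p] (-4 * rr u v * m) (2 * ss u v ^ 2 * m ^ 2) (dd m x)) ∧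
      LocI ℝ (-4 * rr u v * m) (2 * ss u v ^ 2 * m ^ 2) (dd m x) := by
  classical
  have hm := ha.sq
  have hm2 := ha.odd
  have hm0 : m ≠ 0 := hm.ne_zero
  have hmz : (m : ℤ) ≠ 0 := by exact_mod_cast hm0
  have hmp : (0 : ℤ) < m := by exact_mod_cast Nat.pos_of_ne_zero hm0
  have hR := rr_pos huv
  have hrel := rel u v
  obtain ⟨q1, q2, q3⟩ := par hpar
  have hs0 : ss u v ≠ 0 := by omega
  have ht0 : tt u v ≠ 0 := by omega
  have hd0 := dd_ne (m := m) (x := x)
  obtain ⟨hd8, hsgd⟩ := dd_8 (m := m) (x := x)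
  have hb : (2 * ss u v ^ 2 * m ^ 2 : ℤ) ≠ 0 :=
    mul_ne_zero (mul_ne_zero two_ne_zero (pow_ne_zero 2 hs0)) (pow_ne_zero 2 hmz)
  have eab : (-4 * rr u v * m : ℤ) ^ 2 - 4 * (2 * ss u v ^ 2 * m ^ 2) =
      2 ^ 3 * m ^ 2 * tt u v ^ 2 := by
    linear_combination (-8 * (m : ℤ) ^ 2) * hrel
  have hab : (-4 * rr u v * m : ℤ) ^ 2 - 4 * (2 * ss u v ^ 2 * m ^ 2) ≠ 0 := by
    rw [eab]
    exact mul_ne_zero (mul_ne_zero (by norm_num) (pow_ne_zero 2 hmz)) (pow_ne_zero 2 ht0)
  obtain ⟨lq1, lq2⟩ := Pool.Agent.Y971.SG.Lq.t_LQ (-4 * rr u v * m) (2 * ss u v ^ 2 * m ^ 2)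
    (dd m x) hb hab hd0
  have hTS : TT m x ⊆ SR m := fun q hq => (mem_TT.1 hq).1
  refine ⟨?_, ?_⟩
  · intro p hp
    have hpp : p.Prime := hp.out
    have hpi : Prime (p : ℤ) := Nat.prime_iff_prime_int.1 hpp
    have hrelp : (ss u v : ℚ_[p]) ^ 2 + (tt u v : ℚ_[p]) ^ 2 = 2 * (rr u v : ℚ_[p]) ^ 2 := by
      have := congrArg (fun z : ℤ => (z : ℚ_[p])) hrel
      push_cast at this
      exact this
    by_cases hp2 : p = 2
    · subst hp2
      exact lq1 2 (Or.inl (Pool.Agent.Y971.SG.Lq.padic_sq2 hd8))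
    · have hdv : (p : ℤ) ∣ dd m x ↔ x p = 1 := dd_dvd.trans (NN_nd hx.1 hpp)
      by_cases hpS : p ∈ SR m
      · obtain ⟨hpf, h8⟩ := mem_SR.1 hpS
        have hxe := hx.2 p hpS
        rw [sum_TT] at hxe
        have hrec := sum_recip hTS hpS
        have hlam : lam p (dd m x) = ∑ q ∈ TT m x, nr p q := by rw [dd_lam, NN_lam]
        by_cases hpT : x p = 1
        · rw [hpT, one_mul] at hxe
          rw [if_pos (mem_TT.2 ⟨hpS, hpT⟩)] at hrec
          obtain ⟨r, hr⟩ := exists_r (p := p) h8
          obtain ⟨c, hc⟩ := root_sq h8 hp2 hm hpf hd0 (hdv.2 hpT) (dd_sqz hm)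
            (ε := -1) (Or.inr rfl) (s := 1 + ∑ q ∈ TT m x, e3 q) (by
              have e : (-1 : ℤ) * dd m x = -1 * dd m x := rfl
              rw [sg_mul (by norm_num) hd0, hsgd, sg_neg (A := -1) (by norm_num)]) (by
              rw [lam_m hm, hlam]
              rw [hrec] at hxe
              linear_combination hxe) hr
          obtain ⟨rc1, rc2⟩ := root_class (p := p) (u := (u : ℚ_[p])) (v := (-v : ℚ_[p])) hr
          have hRe : (rr u v : ℚ_[p]) = u ^ 2 + v ^ 2 := by unfold rr; push_cast; ring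
          have hSe : (ss u v : ℚ_[p]) = u ^ 2 - 2 * u * v - v ^ 2 := by unfold ss; push_cast; ring
          have hρ : 2 * (rr u v : ℚ_[p]) + ss u v * r = (2 + r) * (u + (1 - r) * v) ^ 2 := by
            rw [hRe, hSe]
            linear_combination rc1
          have hT0p : (tt u v : ℚ_[p]) ≠ 0 := by exact_mod_cast ht0
          have hmq : (m : ℚ_[p]) ≠ 0 := by exact_mod_cast hm0
          have hdq : (dd m x : ℚ_[p]) ≠ 0 := by exact_mod_cast hd0
          have hρ0 : 2 * (rr u v : ℚ_[p]) + ss u v * r ≠ 0 := by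
            intro h
            have h5 : (2 * (rr u v : ℚ_[p]) + ss u v * r) * (2 * rr u v - ss u v * r) =
                2 * (tt u v : ℚ_[p]) ^ 2 := by
              linear_combination (-(ss u v : ℚ_[p]) ^ 2) * hr - 2 * hrelp
            rw [h, zero_mul] at h5
            exact mul_ne_zero two_ne_zero (pow_ne_zero 2 hT0p) h5.symm
          have hc' : -((m : ℚ_[p]) * dd m x) * (2 + r) = c ^ 2 := by
            rw [← hc]
            push_cast
            ring
          refine ⟨-2 * m * (2 * rr u v + ss u v * r), 0,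
            r * c * (u + (1 - r) * v) / dd m x,
            mul_ne_zero (mul_ne_zero (by norm_num) hmq) hρ0, ?_, ?_⟩
          · push_cast
            have e5 : (-2 * (m : ℚ_[p]) * (2 * rr u v + ss u v * r)) ^ 2 -
                2 * (-4 * (rr u v : ℚ_[p]) * m) * (-2 * m * (2 * rr u v + ss u v * r)) +
                ((-4 * (rr u v : ℚ_[p]) * m) ^ 2 - 4 * (2 * (ss u v : ℚ_[p]) ^ 2 * m ^ 2)) = 0 := by
              linear_combination (4 * (m : ℚ_[p]) ^ 2 * (ss u v : ℚ_[p]) ^ 2) * hr
            linear_combination (-(-2 * (m : ℚ_[p]) * (2 * rr u v + ss u v * r))) * e5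
          · rw [div_pow, mul_pow, mul_pow, hr, ← hc', hρ]
            field_simp
        · refine lq1 p (Or.inl ?_)
          have hxp : x p = 0 := (zmod2_cases (x p)).resolve_right hpT
          rw [hxp, zero_mul, add_zero, hrec, if_neg (fun h => hpT (mem_TT.1 h).2), add_zero] at hxe
          have hpd : ¬ (p : ℤ) ∣ dd m x := fun h => hpT (hdv.1 h)
          refine Pool.Agent.Y971.SG.Lq.t_SQ p _ hp2 hpd (Fin.ch_zero_iff.1 ?_)
          rw [ch_unit hp2 hpd, hlam, hsgd]
          exact hxe
      · have hpd : ¬ (p : ℤ) ∣ dd m x := fun h => by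
          have := hdv.1 h
          rw [hx.1 p hpS] at this
          exact absurd this (by decide)
        by_cases h5 : IsSquare ((dd m x : ℤ) : ZMod p)
        · exact lq1 p (Or.inl (Pool.Agent.Y971.SG.Lq.t_SQ p _ hp2 hpd h5))
        · by_cases hpm : p ∈ m.primeFactors
          · -- two is not a residue
            have h8 : ¬ (p % 8 = 1 ∨ p % 8 = 7) := fun h8 => hpS (mem_SR.2 ⟨hpm, h8⟩)
            have h2n : ¬ IsSquare (2 : ZMod p) := by
              rw [ZMod.exists_sq_eq_two_iff hp2]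
              exact h8
            have hp2d : ¬ (p : ℤ) ∣ 2 * dd m x := by
              intro h
              rcases (Int.Prime.dvd_mul' hpp h) with h | h
              · have := odd_nd hpp hp2 1
                rw [pow_one] at this
                exact this h
              · exact hpd h
            have h6 : IsSquare ((2 * dd m x : ℤ) : ZMod p) := by
              rw [Int.cast_mul, Int.cast_ofNat]
              exact ns_mul_ns h2n h5
            obtain ⟨t, ht⟩ := Pool.Agent.Y971.SG.Lq.t_SQ p _ hp2 hp2d h6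
            refine lq1 p (Or.inr ⟨2 * m * tt u v * t, ?_⟩)
            push_cast at ht ⊢
            linear_combination 4 * (m : ℚ_[p]) ^ 2 * (tt u v : ℚ_[p]) ^ 2 * ht -
              8 * (m : ℚ_[p]) ^ 2 * dd m x * hrelp
          · by_cases hps : (p : ℤ) ∣ ss u v
            · exact loc_s hp2 hrel hps (ha.ns p hpp hps) hpd h5
            · by_cases hpt : (p : ℤ) ∣ tt u v
              · exact loc_t hp2 hrel hpt ht0 (ha.nt p hpp hpt) (two_sq_st huv hp2 (Or.inr hpt))
                  hpd h5
              · refine good_p hb hab hd0 p hp2 ?_ ?_ hpd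
                · intro h
                  have e : (2 * ss u v ^ 2 * m ^ 2 : ℤ) = 2 ^ 1 * m ^ 2 * ss u v ^ 2 := by ring
                  rw [e] at h
                  rcases hpi.dvd_or_dvd h with h | h
                  · exact nd8 hpp hp2 hm0 hpm 1 h
                  · exact hps (hpi.dvd_of_dvd_pow h)
                · rw [eab]
                  intro h
                  rcases hpi.dvd_or_dvd h with h | h
                  · exact nd8 hpp hp2 hm0 hpm 3 h
                  · exact hpt (hpi.dvd_of_dvd_pow h)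
  · have hmr : (0 : ℝ) < m := by exact_mod_cast Nat.pos_of_ne_zero hm0
    have hRr : (0 : ℝ) < rr u v := by exact_mod_cast hR
    have hrelr : (ss u v : ℝ) ^ 2 + (tt u v : ℝ) ^ 2 = 2 * (rr u v : ℝ) ^ 2 := by
      have := congrArg (fun z : ℤ => (z : ℝ)) hrel
      push_cast at this
      exact this
    rcases lt_or_gt_of_ne hd0 with h | h
    · have hdr : (dd m x : ℝ) < 0 := by exact_mod_cast h
      have h32 : (0 : ℝ) ≤ 32 * rr u v * ss u v ^ 2 * m ^ 3 := by positivity
      have hrm : (0 : ℝ) < rr u v * m := by positivity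
      have h4d : (0 : ℝ) ≤ -4 * rr u v * m / dd m x := by
        apply div_nonneg_of_nonpos
        · nlinarith
        · exact hdr.le
      refine ⟨-4 * rr u v * m, Real.sqrt (32 * rr u v * ss u v ^ 2 * m ^ 3),
        Real.sqrt (-4 * rr u v * m / dd m x), ?_, ?_, ?_⟩
      · exact mul_ne_zero (mul_ne_zero (by norm_num) hRr.ne') hmr.ne'
      · rw [Real.sq_sqrt h32]
        push_cast
        ring
      · rw [Real.sq_sqrt h4d]
        have := hdr.ne
        field_simp
    · exact lq2 h

end Run7.h843.L
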