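import Pool.Agent.Run7.h843.L7

/-!
# The two Selmer groups
-/

set_option autoImplicit false

open NumberField IsDedekindDomain

namespace Run7.h843.L

open Finset
open Pool.Agent.Y698.SG.Cv (LocI WF)
open Pool.Agent.Y682 (S1 S2 LL1 LL2 Sq quot_eq IsT Zc Zc_card Zc_lower MP)
open Pool.Agent.Y703.CQ (nr)
open Run7.h843.Desc Run7.h843.Sha Run7.h843.Conv Run7.h843.R
open Run7.h843.N (rr ss tt rel Adm rr_pos par real_pos out1 out2 row1 row2 excl)

/-! ### Integers and exponents -/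

theorem sq_of {X Y : ℤ} (h0 : 0 < X * Y) (h : ∀ q : ℕ, q.Prime → vv q X = vv q Y) :
    ∃ s : ℤ, X * Y = s * s := by
  have hX : X ≠ 0 := left_ne_zero_of_mul h0.ne'
  have hY : Y ≠ 0 := right_ne_zero_of_mul h0.ne'
  exact isSquare_of_vv h0 fun q hq => by rw [vv_mul q hX hY, h q hq, add_self2]

theorem vv_sqf {d : ℤ} (hd : Squarefree d) {q : ℕ} (hq : q.Prime) :
    vv q d = 1 ↔ q ∣ d.natAbs := by
  have hn : Squarefree d.natAbs := Int.squarefree_natAbs.2 hd
  have h1 := hn.natFactorization_le_one q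
  unfold vv
  constructor
  · intro h
    by_contra h2
    rw [Nat.factorization_eq_zero_of_not_dvd h2, Nat.cast_zero] at h
    exact absurd h (by decide)
  · intro h
    have h2 := (hq.dvd_iff_one_le_factorization hn.ne_zero).1 h
    have h3 : d.natAbs.factorization q = 1 := le_antisymm h1 h2
    rw [h3, Nat.cast_one]

theorem sq_ext {d e : ℤ} (hd : Squarefree d) (he : Squarefree e) (hs : sg d = sg e)
    (hv : ∀ q : ℕ, q.Prime → vv q d = vv q e) : d = e := by
  have hd0 := hd.ne_zero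
  have he0 := he.ne_zero
  have h1 : d.natAbs.primeFactors = e.natAbs.primeFactors := by
    ext q
    rw [Nat.mem_primeFactors, Nat.mem_primeFactors]
    constructor
    · rintro ⟨hq, h, -⟩
      exact ⟨hq, (vv_sqf he hq).1 ((hv q hq).symm.trans ((vv_sqf hd hq).2 h)),
        Int.natAbs_ne_zero.2 he0⟩
    · rintro ⟨hq, h, -⟩
      exact ⟨hq, (vv_sqf hd hq).1 ((hv q hq).trans ((vv_sqf he hq).2 h)),
        Int.natAbs_ne_zero.2 hd0⟩
  have h2 : d.natAbs = e.natAbs := by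
    rw [← Nat.prod_primeFactors_of_squarefree (Int.squarefree_natAbs.2 hd),
      ← Nat.prod_primeFactors_of_squarefree (Int.squarefree_natAbs.2 he), h1]
  rcases lt_or_gt_of_ne hd0 with h3 | h3 <;> rcases lt_or_gt_of_ne he0 with h4 | h4
  · omega
  · rw [sg_neg h3, sg_pos h4] at hs
    exact absurd hs (by decide)
  · rw [sg_pos h3, sg_neg h4] at hs
    exact absurd hs (by decide)
  · omega

/-- `1` or `2` -/
def two (b : ZMod 2) : ℤ := if b = 1 then 2 else 1

theorem two_pos (b : ZMod 2) : 0 < two b := by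
  unfold two
  split_ifs <;> norm_num

theorem two_vv (b : ZMod 2) {q : ℕ} (hq : q.Prime) : vv q (two b) = if q = 2 then b else 0 := by
  unfold two
  rcases zmod2_cases b with h | h
  · rw [h, if_neg (by decide)]
    have : vv q 1 = 0 := vv_not_dvd fun h => (Nat.prime_iff_prime_int.1 hq).not_isUnit
      (isUnit_of_dvd_one h)
    rw [this]
    split_ifs <;> rfl
  · rw [h, if_pos rfl]
    by_cases h2 : q = 2
    · rw [if_pos h2, h2]
      exact vv_self Nat.prime_two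
    · rw [if_neg h2]
      exact vv_other hq Nat.prime_two (Ne.symm h2)

section

variable {m : ℕ} {x : ℕ → ZMod 2}

theorem two_sqf (hm : Squarefree m) (h2 : m % 2 = 1) (b : ZMod 2) {d : ℤ}
    (hd : d.natAbs = NN m x) : Squarefree (two b * d) := by
  rw [← Int.squarefree_natAbs, Int.natAbs_mul, hd]
  unfold two
  have h3 := NN_sq (x := x) hm
  split_ifs
  · show Squarefree (2 * NN m x)
    rw [Nat.squarefree_mul_iff]
    exact ⟨(Nat.coprime_two_left).2 (Nat.odd_iff.2 (NN_odd hm h2)), Nat.prime_two.squarefree, h3⟩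
  · show Squarefree (1 * NN m x)
    rwa [one_mul]

theorem dd_abs : (dd m x).natAbs = NN m x := by
  rcases dd_cases (m := m) (x := x) with h | h <;> rw [h]
  · exact Int.natAbs_natCast _
  · rw [Int.natAbs_neg]
    exact Int.natAbs_natCast _

/-- the vector of an integer -/
def vx (m : ℕ) (X : ℤ) (q : ℕ) : ZMod 2 := if q ∈ SR m then vv q X else 0

theorem vx_off {X : ℤ} (q : ℕ) (hq : q ∉ SR m) : vx m X q = 0 := if_neg hq

theorem vx_on {X : ℤ} {q : ℕ} (hq : q ∈ SR m) : vx m X q = vv q X := if_pos hq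

/-- the exponents of an integer and of the product -/
theorem vv_eq (hm : Squarefree m) {X : ℤ}
    (hout : ∀ q : ℕ, q.Prime → q ≠ 2 → q ∉ SR m → vv q X = 0) {d : ℤ} (hd0 : d ≠ 0)
    (hd : ∀ q, vv q d = vv q (NN m (vx m X) : ℤ)) (q : ℕ) (hq : q.Prime) :
    vv q X = vv q (two (vv 2 X) * d) := by
  rw [vv_mul q (two_pos _).ne' hd0, two_vv _ hq, hd, NN_vv hm (fun q hq => vx_off q hq)]
  by_cases h2 : q = 2
  · rw [if_pos h2, h2, vx_off 2 two_nS, add_zero]
  · rw [if_neg h2, zero_add]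
    by_cases hS : q ∈ SR m
    · rw [vx_on hS]
    · rw [vx_off q hS, hout q hq h2 hS]

end

/-! ### The local conditions -/

/-- a point of `y² = x (x² + A x + B)` over `F` with `x ∈ d F*²` -/
def Loc (F : Type) [Field F] (A B : F) (d : ℤ) : Prop :=
  ∃ x y z : F, x ≠ 0 ∧ y ^ 2 = x * (x ^ 2 + A * x + B) ∧ x = d * z ^ 2

theorem Loc.c1 {F : Type} [Field F] [CharZero F] {A B d : ℤ} (h : Loc F (A : F) (B : F) d) :
    C1 F (A : ℚ) (B : ℚ) (d : ℚ) := by
  obtain ⟨x, y, z, hx, hy, hz⟩ := h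
  refine ⟨z, x, ?_, ?_, Or.inr (Or.inr ⟨hx, y, ?_⟩)⟩
  · rintro rfl
    rw [zero_pow two_ne_zero, mul_zero] at hz
    exact hx hz
  · rw [hz, Rat.cast_intCast]
  · rw [Rat.cast_intCast, Rat.cast_intCast]
    exact hy

/-- the translation by the point of order two -/
theorem locI_two {L : Type} [Field L] [CharZero L] {a b d k : ℤ} (hk : k ≠ 0)
    (e : a ^ 2 - 4 * b = 2 * k ^ 2) (h : LocI L a b d) : LocI L a b (2 * d) := by
  obtain ⟨X, Y, r, hX, hY, hr⟩ := h
  have e' : (a : L) ^ 2 - 4 * (b : L) = 2 * (k : L) ^ 2 := by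
    have := congrArg (fun z : ℤ => (z : L)) e
    push_cast at this
    exact this
  have hkL : (k : L) ≠ 0 := by exact_mod_cast hk
  have hr0 : r ≠ 0 := by
    rintro rfl
    rw [zero_pow two_ne_zero, mul_zero] at hr
    exact hX hr
  have hd0 : (d : L) ≠ 0 := by
    intro h
    rw [h, zero_mul] at hr
    exact hX hr
  refine ⟨2 * k ^ 2 / X, 2 * k ^ 2 * Y / X ^ 2, k / (d * r), ?_, ?_, ?_⟩
  · exact div_ne_zero (mul_ne_zero two_ne_zero (pow_ne_zero 2 hkL)) hX
  · rw [div_pow, mul_pow, hY, e']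
    field_simp
    ring
  · rw [hr]
    push_cast
    field_simp

section

variable {u v : ℤ} {m : ℕ}

theorem loc_iff1 {L : Type} [Field L] [CharZero L] (d : ℤ) :
    LocI L (8 * rr u v * m) (8 * tt u v ^ 2 * m ^ 2) d ↔
      Loc L ((-4 * rr u v * m : ℤ) : L) ((2 * ss u v ^ 2 * m ^ 2 : ℤ) : L) d := by
  have hrel : (ss u v : L) ^ 2 + (tt u v : L) ^ 2 = 2 * (rr u v : L) ^ 2 := by
    have := congrArg (fun z : ℤ => (z : L)) (rel u v)
    push_cast at this
    exact this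
  constructor
  · rintro ⟨X, Y, r, hX, hY, hr⟩
    refine ⟨X / 4, Y / 8, r / 2, div_ne_zero hX (by norm_num), ?_, ?_⟩
    · push_cast at hY ⊢
      linear_combination (1 / 64 : L) * hY - (1 / 2 : L) * X * m ^ 2 * hrel
    · rw [hr]
      ring
  · rintro ⟨x, y, z, hx, hy, hz⟩
    refine ⟨4 * x, 8 * y, 2 * z, mul_ne_zero (by norm_num) hx, ?_, ?_⟩
    · push_cast at hy ⊢
      linear_combination (64 : L) * hy + (128 : L) * x * m ^ 2 * hrel
    · rw [hz]
      ring

theorem loc_iff2 {L : Type} [Field L] [CharZero L] (d : ℤ) :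
    LocI L (-4 * rr u v * m) (2 * ss u v ^ 2 * m ^ 2) d ↔
      Loc L ((8 * rr u v * m : ℤ) : L) ((8 * tt u v ^ 2 * m ^ 2 : ℤ) : L) d := by
  have hrel : (ss u v : L) ^ 2 + (tt u v : L) ^ 2 = 2 * (rr u v : L) ^ 2 := by
    have := congrArg (fun z : ℤ => (z : L)) (rel u v)
    push_cast at this
    exact this
  constructor
  · rintro ⟨X, Y, r, hX, hY, hr⟩
    refine ⟨X, Y, r, hX, ?_, hr⟩
    push_cast at hY ⊢
    linear_combination hY - (8 : L) * X * m ^ 2 * hrel
  · rintro ⟨x, y, z, hx, hy, hz⟩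
    refine ⟨x, y, z, hx, ?_, hz⟩
    push_cast at hy ⊢
    linear_combination hy + (8 : L) * x * m ^ 2 * hrel

/-- the upper bound for the first group -/
theorem up1 (huv : IsCoprime u v) (hpar : (u + v) % 2 = 1) (ha : Adm u v m) {X : ℤ} (hX : X ≠ 0)
    (hall : ∀ q : ℕ, ∀ hq : q.Prime, @C1 (@Padic q ⟨hq⟩) _ ((-4 * rr u v * m : ℤ) : ℚ)
      ((2 * ss u v ^ 2 * m ^ 2 : ℤ) : ℚ) (X : ℚ))
    (hre : C1 ℝ ((-4 * rr u v * m : ℤ) : ℚ) ((2 * ss u v ^ 2 * m ^ 2 : ℤ) : ℚ) (X : ℚ)) :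
    0 < X ∧ (∀ q : ℕ, q.Prime → q ≠ 2 → q ∉ SR m → vv q X = 0) ∧ vx m X ∈ K1 m := by
  have hm := ha.sq
  have hs0 : ss u v ≠ 0 := by
    have := (par hpar).1
    omega
  have hX0 : 0 < X := by
    have : (0 : ℚ) < X := real_pos hm.ne_zero (rr_pos huv) hs0 hre
    exact_mod_cast this
  have hout : ∀ q : ℕ, q.Prime → q ≠ 2 → q ∉ SR m → vv q X = 0 := fun q hq h2 hqS =>
    out1 huv ha hX hq h2 hqS (hall q hq)
  refine ⟨hX0, hout, fun q hq => vx_off q hq, fun p hpS => ?_⟩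
  obtain ⟨hp, h8⟩ := mem_SR.1 hpS
  have hpp := Nat.prime_of_mem_primeFactors hp
  have : Fact p.Prime := ⟨hpp⟩
  have h3 := row1 h8 ha hp hX0 (hall p hpp)
  rw [lam_SR h8 hout two_nS, lam_m hm] at h3
  have h4 : ∑ q ∈ SR m, nr p q * vx m X q = ∑ q ∈ SR m, vv q X * nr p q :=
    sum_congr rfl fun q hq => by rw [vx_on hq, mul_comm]
  rw [h4, vx_on hpS]
  linear_combination h3

/-- the upper bound for the second group -/
theorem up2 (huv : IsCoprime u v) (hpar : (u + v) % 2 = 1) (ha : Adm u v m) {X : ℤ} (hX : X ≠ 0)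
    (hall : ∀ q : ℕ, ∀ hq : q.Prime, @C1 (@Padic q ⟨hq⟩) _ ((8 * rr u v * m : ℤ) : ℚ)
      ((8 * tt u v ^ 2 * m ^ 2 : ℤ) : ℚ) (X : ℚ)) :
    sg X = ∑ q ∈ TT m (vx m X), e3 q ∧
      (∀ q : ℕ, q.Prime → q ≠ 2 → q ∉ SR m → vv q X = 0) ∧ vx m X ∈ K2 m := by
  have hm := ha.sq
  have hout : ∀ q : ℕ, q.Prime → q ≠ 2 → q ∉ SR m → vv q X = 0 := fun q hq h2 hqS =>
    out2 huv ha hX hq h2 hqS (hall q hq)
  have hsg : sg X = ∑ q ∈ SR m, vv q X * e3 q := by
    by_contra hne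
    obtain ⟨c, hc0, hc⟩ := two_class hm hX hout hne
    obtain ⟨z, x, hz, hzx, hx⟩ := hall 2 Nat.prime_two
    rw [Rat.cast_intCast] at hzx
    rw [Rat.cast_intCast, Rat.cast_intCast] at hx
    have hmo : (m : ℤ) % 2 = 1 := by
      have := ha.odd
      omega
    obtain ⟨p1, p2, p3⟩ := par hpar
    have ho : ∀ a b : ℤ, a % 2 = 1 → b % 2 = 1 → (a * b) % 2 = 1 := by
      intro a b h1 h2
      rw [Int.mul_emod, h1, h2]
      rfl
    have ex : S1 (8 * (((rr u v * m : ℤ)) : ℚ_[2])) (8 * (((tt u v * m : ℤ)) : ℚ_[2]) ^ 2) x := by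
      have e1 : ((8 * rr u v * m : ℤ) : ℚ_[2]) = 8 * (((rr u v * m : ℤ)) : ℚ_[2]) := by
        push_cast; ring
      have e2 : ((8 * tt u v ^ 2 * m ^ 2 : ℤ) : ℚ_[2]) = 8 * (((tt u v * m : ℤ)) : ℚ_[2]) ^ 2 := by
        push_cast; ring
      rw [← e1, ← e2]
      exact hx
    refine excl (ho _ _ p3 hmo) (ho _ _ p2 hmo) (z := c * z) (x := x) (mul_ne_zero hc0 hz) ?_ ex
    rcases hc with hc | hc
    · left
      rw [← hzx, hc]
      ring
    · right
      rw [← hzx, hc]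
      ring
  have hsg' : ∑ q ∈ SR m, vv q X * e3 q = ∑ q ∈ TT m (vx m X), e3 q := by
    rw [← sum_TT]
    exact sum_congr rfl fun q hq => by rw [vx_on hq]
  refine ⟨hsg.trans hsg', hout, fun q hq => vx_off q hq, fun p hpS => ?_⟩
  obtain ⟨hp, h8⟩ := mem_SR.1 hpS
  have hpp := Nat.prime_of_mem_primeFactors hp
  have hp2 : p ≠ 2 := by
    rintro rfl
    omega
  have : Fact p.Prime := ⟨hpp⟩
  have h3 := row2 h8 ha hp hX (hall p hpp)
  rw [lam_SR h8 hout two_nS, lam_m hm, hsg] at h3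
  have h4 : ∑ q ∈ SR m, vv q X * nr q p = ∑ q ∈ SR m, vv q X * nr p q +
      (∑ q ∈ SR m, vv q X * e3 q) * e3 p + vv p X * e3 p := by
    have h5 : ∀ q ∈ SR m, vv q X * nr q p = vv q X * nr p q + vv q X * e3 q * e3 p +
        if q = p then vv p X * e3 p else 0 := by
      intro q hqS
      obtain ⟨hq, hq8⟩ := mem_SR.1 hqS
      have hqq := Nat.prime_of_mem_primeFactors hq
      have hq2 : q ≠ 2 := by
        rintro rfl
        omega
      by_cases hqp : q = p
      · rw [if_pos hqp, hqp, nr_self, mul_assoc, e3_sq]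
        linear_combination -add_self2 (vv p X * e3 p)
      · rw [if_neg hqp, ← recip hpp hqq hp2 hq2 (Ne.symm hqp)]
        ring
    rw [sum_congr rfl h5, sum_add_distrib, sum_add_distrib, sum_ite_eq', if_pos hpS, sum_mul]
  have h6 : ∑ q ∈ SR m, vx m X q * nr q p = ∑ q ∈ SR m, vv q X * nr q p :=
    sum_congr rfl fun q hq => by rw [vx_on hq]
  rw [h6, vx_on hpS, h4]
  linear_combination h3

end

end Run7.h843.L
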