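import Pool.Agent.Run7.h843.L8

/-!
# The orders of the Selmer groups, the rank and Sha
-/

set_option autoImplicit false

open NumberField IsDedekindDomain

namespace Run7.h843.L

open Finset
open Pool.Agent.Y698.SG.Cv (LocI WF)
open Pool.Agent.Y682 (S1 S2 LL1 LL2 Sq quot_eq IsT Zc Zc_card Zc_lower MP)
open Pool.Agent.TH841.NF.D (Sha)
open Pool.Agent.Y703.CQ (nr)
open Run7.h843.Desc Run7.h843.Sha Run7.h843.Conv Run7.h843.R
open Run7.h843.N (rr ss tt rel Adm rr_pos par)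

/-- the integers which satisfy the local conditions -/
def Sel (A B : ℤ) : Set ℤ := {d | Squarefree d ∧ (∀ (p : ℕ) [Fact p.Prime],
  Loc ℚ_[p] (A : ℚ_[p]) (B : ℚ_[p]) d) ∧ Loc ℝ (A : ℝ) (B : ℝ) d}

section

variable {u v : ℤ} {m : ℕ}

theorem NN_abs {x : ℕ → ZMod 2} : ((NN m x : ℤ)).natAbs = NN m x := Int.natAbs_natCast _

theorem mem_Sel1 (huv : IsCoprime u v) (hpar : (u + v) % 2 = 1) (ha : Adm u v m)
    (y : ZMod 2 × K1 m) : two y.1 * (NN m y.2.1 : ℤ) ∈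
      Sel (-4 * rr u v * m) (2 * ss u v ^ 2 * m ^ 2) := by
  obtain ⟨b, x, hx⟩ := y
  obtain ⟨h1, h2⟩ := loc1 huv hpar ha hx
  have hm0 : (m : ℤ) ≠ 0 := by exact_mod_cast ha.sq.ne_zero
  have hs0 : ss u v ≠ 0 := by
    have := (par hpar).1
    omega
  have hk : (4 * ss u v * m : ℤ) ≠ 0 := mul_ne_zero (mul_ne_zero (by norm_num) hs0) hm0
  have e : (8 * rr u v * m : ℤ) ^ 2 - 4 * (8 * tt u v ^ 2 * m ^ 2) = 2 * (4 * ss u v * m) ^ 2 := by
    linear_combination (-32 * (m : ℤ) ^ 2) * rel u v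
  refine ⟨two_sqf ha.sq ha.odd b NN_abs, fun p _ => ?_, ?_⟩
  · rw [← loc_iff1]
    unfold two
    split_ifs
    · exact locI_two hk e (h1 p)
    · rw [one_mul]
      exact h1 p
  · rw [← loc_iff1]
    unfold two
    split_ifs
    · exact locI_two hk e h2
    · rw [one_mul]
      exact h2

theorem mem_Sel2 (huv : IsCoprime u v) (hpar : (u + v) % 2 = 1) (ha : Adm u v m)
    (y : ZMod 2 × K2 m) : two y.1 * dd m y.2.1 ∈
      Sel (8 * rr u v * m) (8 * tt u v ^ 2 * m ^ 2) := by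
  obtain ⟨b, x, hx⟩ := y
  obtain ⟨h1, h2⟩ := loc2 huv hpar ha hx
  have hm0 : (m : ℤ) ≠ 0 := by exact_mod_cast ha.sq.ne_zero
  have ht0 : tt u v ≠ 0 := by
    have := (par hpar).2.1
    omega
  have hk : (2 * tt u v * m : ℤ) ≠ 0 := mul_ne_zero (mul_ne_zero (by norm_num) ht0) hm0
  have e : (-4 * rr u v * m : ℤ) ^ 2 - 4 * (2 * ss u v ^ 2 * m ^ 2) = 2 * (2 * tt u v * m) ^ 2 := by
    linear_combination (-8 * (m : ℤ) ^ 2) * rel u v
  refine ⟨two_sqf ha.sq ha.odd b dd_abs, fun p _ => ?_, ?_⟩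
  · rw [← loc_iff2]
    unfold two
    split_ifs
    · exact locI_two hk e (h1 p)
    · rw [one_mul]
      exact h1 p
  · rw [← loc_iff2]
    unfold two
    split_ifs
    · exact locI_two hk e h2
    · rw [one_mul]
      exact h2

theorem sg_two (b : ZMod 2) {d : ℤ} (hd : d ≠ 0) : sg (two b * d) = sg d := by
  rw [sg_mul (two_pos b).ne' hd, sg_pos (two_pos b), zero_add]

theorem fst_eq (hm : Squarefree m) {x : ℕ → ZMod 2} (hx : ∀ q, q ∉ SR m → x q = 0) (b : ZMod 2)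
    {d : ℤ} (hd0 : d ≠ 0) (hd : ∀ q, vv q d = vv q (NN m x : ℤ)) :
    vv 2 (two b * d) = b ∧ ∀ q ∈ SR m, vv q (two b * d) = x q := by
  constructor
  · rw [vv_mul 2 (two_pos b).ne' hd0, two_vv b Nat.prime_two, if_pos rfl, hd, NN_vv hm hx,
      hx 2 two_nS, add_zero]
  · intro q hq
    have hqp := Nat.prime_of_mem_primeFactors (mem_SR.1 hq).1
    have hq2 : q ≠ 2 := by
      rintro rfl
      exact two_nS hq
    rw [vv_mul q (two_pos b).ne' hd0, two_vv b hqp, if_neg hq2, hd, NN_vv hm hx, zero_add]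

theorem NNz_ne {x : ℕ → ZMod 2} : (NN m x : ℤ) ≠ 0 := by exact_mod_cast NN_ne

/-- **the order of the first group** -/
theorem card_Sel1 (huv : IsCoprime u v) (hpar : (u + v) % 2 = 1) (ha : Adm u v m) :
    Nat.card (Sel (-4 * rr u v * m) (2 * ss u v ^ 2 * m ^ 2)) = 2 * Nat.card (K1 m) := by
  have hm := ha.sq
  have e2 : 2 * Nat.card (K1 m) = Nat.card (ZMod 2 × K1 m) := by
    rw [Nat.card_prod, Nat.card_zmod]
  rw [e2]
  refine (Nat.card_congr (Equiv.ofBijective (fun y : ZMod 2 × K1 m =>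
    (⟨two y.1 * (NN m y.2.1 : ℤ), mem_Sel1 huv hpar ha y⟩ :
      Sel (-4 * rr u v * m) (2 * ss u v ^ 2 * m ^ 2))) ⟨?_, ?_⟩)).symm
  · rintro ⟨b, x, hx⟩ ⟨b', x', hx'⟩ h
    have h1 : two b * (NN m x : ℤ) = two b' * (NN m x' : ℤ) := congrArg Subtype.val h
    obtain ⟨f1, f2⟩ := fst_eq hm hx.1 b NNz_ne (fun _ => rfl)
    obtain ⟨g1, g2⟩ := fst_eq hm hx'.1 b' NNz_ne (fun _ => rfl)
    rw [h1] at f1 f2
    have hb : b = b' := f1.symm.trans g1
    have hxx : x = x' := by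
      funext q
      by_cases hq : q ∈ SR m
      · exact (f2 q hq).symm.trans (g2 q hq)
      · rw [hx.1 q hq, hx'.1 q hq]
    subst hb
    subst hxx
    rfl
  · rintro ⟨d, hsq, hl, hr⟩
    obtain ⟨h1, h2, h3⟩ := up1 huv hpar ha hsq.ne_zero (fun q hq => by
      have : Fact q.Prime := ⟨hq⟩
      exact (hl q).c1) hr.c1
    refine ⟨(vv 2 d, ⟨vx m d, h3⟩), Subtype.ext ?_⟩
    show two (vv 2 d) * (NN m (vx m d) : ℤ) = d
    have hp : (0 : ℤ) < NN m (vx m d) := by exact_mod_cast Nat.pos_of_ne_zero NN_ne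
    refine sq_ext (two_sqf hm ha.odd _ NN_abs) hsq ?_ fun q hq =>
      (vv_eq hm h2 NNz_ne (fun _ => rfl) q hq).symm
    rw [sg_two _ NNz_ne, sg_pos hp, sg_pos h1]

/-- **the order of the second group** -/
theorem card_Sel2 (huv : IsCoprime u v) (hpar : (u + v) % 2 = 1) (ha : Adm u v m) :
    Nat.card (Sel (8 * rr u v * m) (8 * tt u v ^ 2 * m ^ 2)) = 2 * Nat.card (K2 m) := by
  have hm := ha.sq
  have e2 : 2 * Nat.card (K2 m) = Nat.card (ZMod 2 × K2 m) := by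
    rw [Nat.card_prod, Nat.card_zmod]
  rw [e2]
  refine (Nat.card_congr (Equiv.ofBijective (fun y : ZMod 2 × K2 m =>
    (⟨two y.1 * dd m y.2.1, mem_Sel2 huv hpar ha y⟩ :
      Sel (8 * rr u v * m) (8 * tt u v ^ 2 * m ^ 2))) ⟨?_, ?_⟩)).symm
  · rintro ⟨b, x, hx⟩ ⟨b', x', hx'⟩ h
    have h1 : two b * dd m x = two b' * dd m x' := congrArg Subtype.val h
    obtain ⟨f1, f2⟩ := fst_eq hm hx.1 b dd_ne dd_vv
    obtain ⟨g1, g2⟩ := fst_eq hm hx'.1 b' dd_ne dd_vv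
    rw [h1] at f1 f2
    have hb : b = b' := f1.symm.trans g1
    have hxx : x = x' := by
      funext q
      by_cases hq : q ∈ SR m
      · exact (f2 q hq).symm.trans (g2 q hq)
      · rw [hx.1 q hq, hx'.1 q hq]
    subst hb
    subst hxx
    rfl
  · rintro ⟨d, hsq, hl, hr⟩
    obtain ⟨h1, h2, h3⟩ := up2 huv hpar ha hsq.ne_zero (fun q hq => by
      have : Fact q.Prime := ⟨hq⟩
      exact (hl q).c1)
    refine ⟨(vv 2 d, ⟨vx m d, h3⟩), Subtype.ext ?_⟩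
    show two (vv 2 d) * dd m (vx m d) = d
    refine sq_ext (two_sqf hm ha.odd _ dd_abs) hsq ?_ fun q hq =>
      (vv_eq hm h2 dd_ne dd_vv q hq).symm
    rw [sg_two _ dd_ne, dd_8.2, h1]

/-- the class of a square multiple -/
theorem cl_sq {b : ℚˣ} {X D : ℤ} {d : ℚ} (hd : d ≠ 0) (hXb : (X : ℚ) = b * d ^ 2)
    (hD : (D : ℚ) ≠ 0) {s : ℤ} (hs : X * D = s * s) : (b : ℚˣ ⧸ Sq ℚ) = cl D hD := by
  refine cl_of (c := s / (D * d)) hD ?_
  have h1 : (X : ℚ) * D = s * s := by exact_mod_cast hs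
  have h2 : (b : ℚ) = X / d ^ 2 := by rw [hXb]; field_simp
  rw [h2, div_pow, mul_pow]
  field_simp
  linear_combination h1

/-- **the rank and Sha** -/
theorem rank_sha (huv : IsCoprime u v) (hpar : (u + v) % 2 = 1) (ha : Adm u v m) {k : ℕ}
    (hk : (MatR m).rank + k = (SR m).card) {W : WeierstrassCurve ℚ}
    (hT : IsT W ((-4 * rr u v * m : ℤ) : ℚ) ((2 * ss u v ^ 2 * m ^ 2 : ℤ) : ℚ)) :
    Finite {x : Sha W // 2 • x = 0} ∧
      2 ^ Module.finrank ℤ (MP W) * Nat.card {x : Sha W // 2 • x = 0} ≤ 4 ^ k := by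
  classical
  have hm := ha.sq
  have c1 := (card_K1 m k).2 hk
  have c2 := (card_K2 m k).2 hk
  have f1 : Finite (K1 m) := Nat.finite_of_card_ne_zero (by rw [c1]; positivity)
  have f2 : Finite (K2 m) := Nat.finite_of_card_ne_zero (by rw [c2]; positivity)
  have n1 : ∀ y : ZMod 2 × K1 m, ((two y.1 * (NN m y.2.1 : ℤ) : ℤ) : ℚ) ≠ 0 := fun y => by
    exact_mod_cast mul_ne_zero (two_pos y.1).ne' NNz_ne
  have n2 : ∀ y : ZMod 2 × K2 m, ((two y.1 * dd m y.2.1 : ℤ) : ℚ) ≠ 0 := fun y => by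
    exact_mod_cast mul_ne_zero (two_pos y.1).ne' dd_ne
  let U : Set (ℚˣ ⧸ Sq ℚ) := Set.range fun y : ZMod 2 × K1 m =>
    cl ((two y.1 * (NN m y.2.1 : ℤ) : ℤ) : ℚ) (n1 y)
  let V : Set (ℚˣ ⧸ Sq ℚ) := Set.range fun y : ZMod 2 × K2 m =>
    cl ((two y.1 * dd m y.2.1 : ℤ) : ℚ) (n2 y)
  have hU : Finite U := Set.finite_range _
  have hV : Finite V := Set.finite_range _
  have hUc : Nat.card U ≤ 2 * 2 ^ k := by
    refine (Nat.card_le_card_of_surjective _ Set.rangeFactorization_surjective).trans ?_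
    rw [Nat.card_prod, Nat.card_zmod, c1]
  have hVc : Nat.card V ≤ 2 * 2 ^ k := by
    refine (Nat.card_le_card_of_surjective _ Set.rangeFactorization_surjective).trans ?_
    rw [Nat.card_prod, Nat.card_zmod, c2]
  have H1 : ∀ b : ℚˣ, LL1 ((-4 * rr u v * m : ℤ) : ℚ) ((2 * ss u v ^ 2 * m ^ 2 : ℤ) : ℚ) (b : ℚ) →
      (b : ℚˣ ⧸ Sq ℚ) ∈ U := by
    intro b h
    obtain ⟨X, d, hX, hd, hXb⟩ := exists_X b.ne_zero
    obtain ⟨h1, h2, h3⟩ := up1 huv hpar ha hX (fun q hq => by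
      have : Fact q.Prime := ⟨hq⟩
      rw [hXb]
      exact C1_mul hd (LL1_pad h q)) (by
      rw [hXb]
      exact C1_mul hd (LL1_real h))
    have hp : (0 : ℤ) < NN m (vx m X) := by exact_mod_cast Nat.pos_of_ne_zero NN_ne
    obtain ⟨s, hs⟩ := sq_of (mul_pos h1 (mul_pos (two_pos (vv 2 X)) hp))
      (vv_eq hm h2 NNz_ne (fun _ => rfl))
    exact ⟨(vv 2 X, ⟨vx m X, h3⟩), (cl_sq hd hXb (n1 (vv 2 X, ⟨vx m X, h3⟩)) hs).symm⟩
  have H2 : ∀ b : ℚˣ, LL2 ((-4 * rr u v * m : ℤ) : ℚ) ((2 * ss u v ^ 2 * m ^ 2 : ℤ) : ℚ) (b : ℚ) →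
      (b : ℚˣ ⧸ Sq ℚ) ∈ V := by
    intro b h
    obtain ⟨X, d, hX, hd, hXb⟩ := exists_X b.ne_zero
    have eA : (-2 * ((-4 * rr u v * m : ℤ) : ℚ)) = ((8 * rr u v * m : ℤ) : ℚ) := by push_cast; ring
    have eB : (((-4 * rr u v * m : ℤ) : ℚ) ^ 2 - 4 * ((2 * ss u v ^ 2 * m ^ 2 : ℤ) : ℚ)) =
        ((8 * tt u v ^ 2 * m ^ 2 : ℤ) : ℚ) := by
      have e := rel u v
      have e' : (-4 * rr u v * m) ^ 2 - 4 * (2 * ss u v ^ 2 * m ^ 2) =
          (8 * tt u v ^ 2 * m ^ 2 : ℤ) := by linear_combination (-8 * (m : ℤ) ^ 2) * e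
      exact_mod_cast congrArg (fun z : ℤ => (z : ℚ)) e'
    obtain ⟨h1, h2, h3⟩ := up2 huv hpar ha hX (fun q hq => by
      have : Fact q.Prime := ⟨hq⟩
      rw [hXb]
      refine C1_mul hd ?_
      rw [← eA, ← eB]
      exact C2_iff.1 (LL2_pad h q))
    have hpos : 0 < X * (two (vv 2 X) * dd m (vx m X)) := by
      have h4 : sg X = sg (dd m (vx m X)) := h1.trans dd_8.2.symm
      have h5 := two_pos (vv 2 X)
      rcases lt_or_gt_of_ne hX with h6 | h6 <;>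
        rcases lt_or_gt_of_ne (dd_ne (m := m) (x := vx m X)) with h7 | h7
      · exact mul_pos_of_neg_of_neg h6 (mul_neg_of_pos_of_neg h5 h7)
      · rw [sg_neg h6, sg_pos h7] at h4
        exact absurd h4 (by decide)
      · rw [sg_pos h6, sg_neg h7] at h4
        exact absurd h4 (by decide)
      · exact mul_pos h6 (mul_pos h5 h7)
    obtain ⟨s, hs⟩ := sq_of hpos (vv_eq hm h2 dd_ne dd_vv)
    exact ⟨(vv 2 X, ⟨vx m X, h3⟩), (cl_sq hd hXb (n2 (vv 2 X, ⟨vx m X, h3⟩)) hs).symm⟩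
  have hone : (1 : ℚˣ ⧸ Sq ℚ) ∈ V := by
    have z2 : (0 : ℕ → ZMod 2) ∈ K2 m := by
      refine ⟨fun _ _ => rfl, fun p _ => ?_⟩
      simp only [Pi.zero_apply, zero_mul, sum_const_zero, add_zero]
    have e0 : TT m (0 : ℕ → ZMod 2) = ∅ := by
      unfold TT
      refine filter_eq_empty_iff.2 fun p _ => ?_
      rw [Pi.zero_apply]
      decide
    have e1 : NN m (0 : ℕ → ZMod 2) = 1 := by
      unfold NN
      rw [e0, prod_empty]
    have e2 : (two 0 * dd m (0 : ℕ → ZMod 2) : ℤ) = 1 := by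
      have e3 : dd m (0 : ℕ → ZMod 2) = 1 := by
        unfold dd
        rw [e1, if_pos (by norm_num), Nat.cast_one]
      rw [e3]
      rfl
    refine ⟨(0, ⟨0, z2⟩), ?_⟩
    have h1 : (1 : ℚˣ ⧸ Sq ℚ) = ((1 : ℚˣ) : ℚˣ ⧸ Sq ℚ) := rfl
    rw [h1]
    refine (cl_of (c := 1) (n2 (0, ⟨0, z2⟩)) ?_).symm
    show ((1 : ℚˣ) : ℚ) = ((two 0 * dd m (0 : ℕ → ZMod 2) : ℤ) : ℚ) * 1 ^ 2
    rw [e2, Int.cast_one, Units.val_one]
    norm_num
  obtain ⟨hf, hc⟩ := Zc_card hT (U := U) (V := V) hone H1 H2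
  obtain ⟨g1, g2⟩ := Zc_lower hT
  refine ⟨g1, ?_⟩
  have h5 : Nat.card (Zc W) ≤ 4 * 4 ^ k := by
    calc Nat.card (Zc W) ≤ Nat.card U * Nat.card V := hc
      _ ≤ (2 * 2 ^ k) * (2 * 2 ^ k) := Nat.mul_le_mul hUc hVc
      _ = 4 * 4 ^ k := by
        have : (4 : ℕ) ^ k = 2 ^ k * 2 ^ k := by
          rw [← mul_pow]
          norm_num
        rw [this]
        ring
  have h6 := g2.trans h5
  have h7 : 4 * (2 ^ Module.finrank ℤ (MP W) * Nat.card {x : Sha W // 2 • x = 0}) ≤ 4 * 4 ^ k := by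
    rw [← mul_assoc]
    exact h6
  exact Nat.le_of_mul_le_mul_left h7 (by norm_num)

end

end Run7.h843.L
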