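import Mathlib
import Pool.Agent.Run7.h843.R7

/-!
# The rank and the 2-primary part of Sha of `y² = x³ - 4 m x² + 2 m² x`
-/

set_option autoImplicit false

attribute [-instance] DivisionRing.toRatAlgebra

namespace Run7.h843.R

open Finset
open Pool.Agent.Y682 (S1 S2 LL1 LL2 Sq quot_eq IsT Zc Zc_card Zc_lower MP)
open Run7.h843.Sha Run7.h843.Desc
open Pool.Agent.Y703.CQ (nr)

section

variable {m : ℕ}

/-- the second Selmer bound -/
theorem sel2 (hm : Squarefree m) (hm2 : m % 2 = 1) (hk : NsR m) {b : ℚ} (hb : b ≠ 0)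
    (h : LL2 ((-4 * m : ℤ) : ℚ) ((2 * m ^ 2 : ℤ) : ℚ) b) :
    ∃ c : ℚ, b = c ^ 2 ∨ b = 2 * c ^ 2 := by
  obtain ⟨X, d, hX, hd, hXb⟩ := exists_X hb
  have eA : (-2 * ((-4 * m : ℤ) : ℚ)) = ((8 * m : ℤ) : ℚ) := by push_cast; ring
  have eB : (((-4 * m : ℤ) : ℚ) ^ 2 - 4 * ((2 * m ^ 2 : ℤ) : ℚ)) = ((8 * m ^ 2 : ℤ) : ℚ) := by
    push_cast; ring
  have hall : ∀ q : ℕ, ∀ hq : q.Prime, @C1 (@Padic q ⟨hq⟩) _ ((8 * m : ℤ) : ℚ)
      ((8 * m ^ 2 : ℤ) : ℚ) (X : ℚ) := by
    intro q hq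
    have : Fact q.Prime := ⟨hq⟩
    rw [hXb]
    refine C1_mul hd ?_
    rw [← eA, ← eB]
    exact C2_iff.1 (LL2_pad h q)
  have hout : ∀ q : ℕ, q.Prime → q ≠ 2 → q ∉ SR m → vv q X = 0 := fun q hq h2 hqS =>
    out_ab (α := 8) (β := 8) (c := 2) (i := 3) (k := 1) hm (by norm_num) (by norm_num)
      (by norm_num) hX hq h2 hqS (hall q hq)
  have hsg : sg X = ∑ q ∈ SR m, vv q X * e3 q := by
    by_contra hne
    obtain ⟨c, hc0, hc⟩ := two_class hm hX hout hne
    obtain ⟨z, x, hz, hzx, hx⟩ := hall 2 Nat.prime_two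
    rw [Rat.cast_intCast] at hzx
    rw [Rat.cast_intCast, Rat.cast_intCast] at hx
    push_cast at hx
    refine excl hm2 (z := c * z) (x := x) (mul_ne_zero hc0 hz) ?_ hx
    rcases hc with hc | hc
    · left
      rw [← hzx, hc]
      ring
    · right
      rw [← hzx, hc]
      ring
  have hin : ∀ p ∈ SR m, vv p X = 0 := by
    refine (NsR_tr m).1 hk (fun p => vv p X) fun p hpS => ?_
    obtain ⟨hp, h8⟩ := mem_SR.1 hpS
    have hpp := Nat.prime_of_mem_primeFactors hp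
    have hp2 : p ≠ 2 := by
      rintro rfl
      omega
    have : Fact p.Prime := ⟨hpp⟩
    have h3 := row2 h8 hm hp hX (hall p hpp)
    rw [lam_SR h8 hout two_nS, lam_m hm, hsg] at h3
    have h4 : ∑ q ∈ SR m, vv q X * nr q p = ∑ q ∈ SR m, vv q X * nr p q +
        (∑ q ∈ SR m, vv q X * e3 q) * e3 p + vv p X * e3 p := by
      have h5 : ∀ q ∈ SR m, vv q X * nr q p = vv q X * nr p q + vv q X * e3 q * e3 p +
          if q = p then vv p X * e3 p else 0 := by
        intro q hqS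
        obtain ⟨hq, hq8⟩ := mem_SR.1 hqS
        have hqq := Nat.prime_of_mem_primeFactors hq
        have hq2 : q ≠ 2 := by
          rintro rfl
          omega
        by_cases hqp : q = p
        · rw [if_pos hqp, hqp, nr_self, mul_assoc, e3_sq]
          linear_combination -add_self2 (vv p X * e3 p)
        · rw [if_neg hqp, ← recip hpp hqq hp2 hq2 (Ne.symm hqp)]
          ring
      rw [sum_congr rfl h5, sum_add_distrib, sum_add_distrib, sum_ite_eq', if_pos hpS, sum_mul]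
    rw [h4]
    linear_combination h3
  have hs0 : sg X = 0 := by
    rw [hsg]
    exact sum_eq_zero fun q hq => by rw [hin q hq, zero_mul]
  have hX0 : 0 < X := by
    rcases lt_or_gt_of_ne hX with h9 | h9
    · rw [sg_neg h9] at hs0
      exact absurd hs0 (by decide)
    · exact h9
  refine end12 hX0 (fun q hq h2 => ?_) hd hXb
  by_cases hqS : q ∈ SR m
  · exact hin q hqS
  · exact hout q hq h2 hqS

/-- **rank zero and no element of order two in Sha** -/
theorem shaR (hm : Squarefree m) (hm2 : m % 2 = 1) (hk : NsR m) {W : WeierstrassCurve ℚ}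
    (hT : IsT W ((-4 * m : ℤ) : ℚ) ((2 * m ^ 2 : ℤ) : ℚ)) :
    Module.finrank ℤ (MP W) = 0 ∧
      ∀ (n : ℕ) (x : Pool.Agent.TH841.NF.D.Sha W), 2 ^ n • x = 0 → x = 0 := by
  have r2 : (2 : ℚ) ≠ 0 := two_ne_zero
  let U : Set (ℚˣ ⧸ Sq ℚ) := {cl 1 one_ne_zero, cl 2 r2}
  have hUf : U.Finite := Set.toFinite U
  have hfin : Finite U := hUf.to_subtype
  have hU2 : Nat.card U ≤ 2 := by
    have h1 : U.ncard ≤ 2 := by
      refine (Set.ncard_insert_le _ _).trans ?_
      rw [Set.ncard_singleton]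
    exact h1
  have H : ∀ b : ℚˣ, (∃ c : ℚ, (b : ℚ) = c ^ 2 ∨ (b : ℚ) = 2 * c ^ 2) → (b : ℚˣ ⧸ Sq ℚ) ∈ U := by
    rintro b ⟨c, hc | hc⟩
    · exact Or.inl (cl_of _ (by rw [one_mul]; exact hc))
    · exact Or.inr (cl_of _ hc)
  obtain ⟨hf, hc⟩ := Zc_card hT (U := U) (V := U) (Or.inl one_cl)
    (fun b hb => H b (sel1 hm hk b.ne_zero hb)) (fun b hb => H b (sel2 hm hm2 hk b.ne_zero hb))
  exact end_of hT hf (hc.trans (by nlinarith))

end

end Run7.h843.R
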