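import Mathlib
import Pool.Agent.Run7.h843.R8

/-!
# The local images of `y² = x³ - 4 r m x² + 2 s² m² x`, `s² + t² = 2 r²`
-/

set_option autoImplicit false
set_option linter.unusedSectionVars false
set_option linter.unusedSimpArgs false

attribute [-instance] DivisionRing.toRatAlgebra

namespace Run7.h843.N

open Finset
open Pool.Agent.Y682 (S1 S2 LL1 LL2 Sq quot_eq IsT Zc Zc_card Zc_lower MP)
open Run7.h843.Sha Run7.h843.Desc Run7.h843.R
open Pool.Agent.Y703.CQ (nr)

/-- the parameters -/
def rr (u v : ℤ) : ℤ := u ^ 2 + v ^ 2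

/-- the parameters -/
def ss (u v : ℤ) : ℤ := u ^ 2 - 2 * u * v - v ^ 2

/-- the parameters -/
def tt (u v : ℤ) : ℤ := u ^ 2 + 2 * u * v - v ^ 2

theorem rel (u v : ℤ) : ss u v ^ 2 + tt u v ^ 2 = 2 * rr u v ^ 2 := by
  unfold ss tt rr
  ring

section

variable {L : Type} [Field L] (w : Valuation L (WithZero (Multiplicative ℤ)))

/-- multiplicative reduction which is not split: the values are squares -/
lemma even_ns (hens : ∀ t : L, w t < 1 → ∃ y : L, y ^ 2 = 1 + t) {A B x : L} (hA : w A = 1)
    (hB1 : w B < 1) {g : WithZero (Multiplicative ℤ)} (hg : w B = g ^ 2)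
    (hns : ∀ c : L, A ≠ c ^ 2) (h : S1 A B x) : ∃ g, w x = g ^ 2 := by
  rcases h with h | h | ⟨hx, y, hy⟩
  · exact ⟨1, by rw [h, map_one, one_pow]⟩
  · exact ⟨g, by rw [h, hg]⟩
  · have hwx : w x ≠ 0 := (Valuation.ne_zero_iff _).2 hx
    have hA0 : A ≠ 0 := by
      rw [← (Valuation.ne_zero_iff w), hA]
      exact one_ne_zero
    have e := congrArg w hy
    rw [map_pow, map_mul] at e
    rcases lt_trichotomy (w x) 1 with h1 | h1 | h1
    · rcases lt_trichotomy (w x) (w B) with h2 | h2 | h2
      · have h3 : w (x ^ 2 + A * x + B) = w B := by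
          rw [Valuation.map_add_eq_of_lt_right]
          refine lt_of_le_of_lt (Valuation.map_add _ _ _) (max_lt ?_ ?_)
          · rw [map_pow, sq]
            exact lt_of_le_of_lt (mul_le_of_le_one_left' h1.le) h2
          · rw [map_mul, hA, one_mul]
            exact h2
        have hB0 : w B ≠ 0 := fun h0 => by
          rw [h0] at h2
          exact not_lt_zero h2
        have hg0 : g ≠ 0 := by
          rintro rfl
          rw [zero_pow two_ne_zero] at hg
          exact hB0 hg
        refine ⟨w y / g, ?_⟩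
        rw [h3, hg] at e
        rw [div_pow, e]
        field_simp
      · exact ⟨g, by rw [h2, hg]⟩
      · exfalso
        have ht : w (x / A + B / (A * x)) < 1 := by
          refine lt_of_le_of_lt (Valuation.map_add _ _ _) (max_lt ?_ ?_)
          · rw [map_div₀, hA, div_one]
            exact h1
          · rw [map_div₀, map_mul, hA, one_mul, div_lt_iff₀ (zero_lt_iff.2 hwx), one_mul]
            exact h2
        obtain ⟨k, hk⟩ := hens _ ht
        have hk0 : k ≠ 0 := by
          rintro rfl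
          have h3 : x / A + B / (A * x) = -1 := by linear_combination -hk
          rw [h3, Valuation.map_neg, map_one] at ht
          exact lt_irrefl _ ht
        apply hns (y / (x * k))
        have h4 : y ^ 2 = A * (x * k) ^ 2 := by
          rw [hy, mul_pow, hk]
          field_simp
          ring
        rw [div_pow, h4]
        field_simp
    · exact ⟨1, by rw [h1, one_pow]⟩
    · refine ⟨w y / w x, ?_⟩
      have h2 : w (x ^ 2 + A * x + B) = w x ^ 2 := by
        have h3 : w (x ^ 2 + A * x) = w x ^ 2 := by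
          rw [Valuation.map_add_eq_of_lt_left, map_pow]
          rw [map_mul, map_pow, sq, hA, one_mul]
          calc w x = 1 * w x := (one_mul _).symm
            _ < w x * w x := mul_lt_mul_of_pos_right h1 (zero_lt_iff.2 hwx)
        rw [Valuation.map_add_eq_of_lt_left, h3]
        rw [h3]
        exact hB1.trans (one_lt_pow₀ h1 two_ne_zero)
      rw [h2] at e
      rw [div_pow, e]
      field_simp

end

section

variable {p : ℕ} [hp : Fact p.Prime]

/-- multiplicative reduction which is not split -/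
theorem ns_even (h2 : p ≠ 2) {A b k : ℤ} (hA : ¬ IsSquare (A : ZMod p)) {X : ℤ} (hX : X ≠ 0)
    (hk : ¬ (p : ℤ) ∣ k) (hb : (p : ℤ) ∣ b)
    (hC : C1 ℚ_[p] (A : ℚ) ((k * b ^ 2 : ℤ) : ℚ) (X : ℚ)) : vv p X = 0 := by
  obtain ⟨z, x, hz, hzm, hx⟩ := hC
  rw [Rat.cast_intCast, Rat.cast_intCast] at hx
  rw [Rat.cast_intCast] at hzm
  have hAd : ¬ (p : ℤ) ∣ A := by
    intro h
    apply hA
    rw [(ZMod.intCast_zmod_eq_zero_iff_dvd A p).2 h]
    exact IsSquare.zero
  have hwb : wv p (b : ℚ_[p]) < 1 := by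
    obtain ⟨b', rfl⟩ := hb
    rw [Int.cast_mul, Int.cast_natCast, map_mul, w_self]
    calc WithZero.exp (-1 : ℤ) * wv p (b' : ℚ_[p]) ≤ WithZero.exp (-1 : ℤ) * 1 :=
          mul_le_mul_right (w_int_le b') _
      _ = WithZero.exp (-1 : ℤ) := mul_one _
      _ < 1 := by
        rw [← WithZero.exp_zero, WithZero.exp_lt_exp]
        norm_num
  have hB : wv p (((k * b ^ 2 : ℤ)) : ℚ_[p]) = (wv p (b : ℚ_[p])) ^ 2 := by
    rw [Int.cast_mul, Int.cast_pow, map_mul, w_one hk, one_mul, map_pow]
  obtain ⟨g, hg⟩ := even_ns (wv p) (hens h2) (w_one hAd)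
    (by rw [hB]; exact pow_lt_one₀ zero_le hwb two_ne_zero) hB (fun c hc => hA (by
      refine SqP.isSquare hAd ⟨c, ?_⟩
      rw [Rat.cast_intCast]
      exact hc)) hx
  have hwz : wv p z ≠ 0 := (Valuation.ne_zero_iff _).2 hz
  refine vv_of_even (p := p) hX (g := g / wv p z) ?_
  rw [div_pow, ← hg, ← hzm, map_mul, map_pow]
  field_simp

/-- the class of the roots -/
theorem root_class {r u v : ℚ_[p]} (hr : r ^ 2 = 2) :
    2 * (u ^ 2 + v ^ 2) + (u ^ 2 + 2 * u * v - v ^ 2) * r = (2 + r) * (u - (1 - r) * v) ^ 2 ∧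
    2 * (u ^ 2 + v ^ 2) - (u ^ 2 + 2 * u * v - v ^ 2) * r = (2 - r) * (u - (1 + r) * v) ^ 2 := by
  constructor
  · linear_combination (-(2 * u * v) - r * v ^ 2) * hr
  · linear_combination (-(2 * u * v) + r * v ^ 2) * hr

end

end Run7.h843.N
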