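import Mathlib
import Pool.Agent.Run7.h843.N1

/-!
# The split primes and the prime `2`
-/

set_option autoImplicit false
set_option linter.unusedSectionVars false
set_option linter.unusedSimpArgs false

attribute [-instance] DivisionRing.toRatAlgebra

namespace Run7.h843.N

open Finset
open Pool.Agent.Y682 (S1 S2 LL1 LL2 Sq quot_eq IsT Zc Zc_card Zc_lower MP)
open Run7.h843.Sha Run7.h843.Desc Run7.h843.R
open Pool.Agent.Y703.CQ (nr)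

section

variable {p : ℕ} [hp : Fact p.Prime]

/-- the split primes, general form -/
theorem splitN (h2 : p ≠ 2) {m : ℕ} (hm : Squarefree m) (hpm : p ∈ m.primeFactors) {r : ℚ_[p]}
    (hr : r ^ 2 = 2) {α β ε c : ℤ} {g g' : ℚ_[p]} (hβ : ¬ (p : ℤ) ∣ β) {X : ℤ}
    (hβc : ∃ k : ℚ_[p], (β : ℚ_[p]) = k ^ 2) (hε : ε = 1 ∨ ε = -1)
    (h1 : ε * (2 + r) * g ^ 2 * c + ε * (2 - r) * g' ^ 2 * c = -(α : ℚ_[p]))
    (h3 : ε * (2 + r) * g ^ 2 * c * (ε * (2 - r) * g' ^ 2 * c) = (β : ℚ_[p]))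
    (hg : wv p (ε * (2 + r) * g ^ 2 * c) ≤ 1) (hg' : wv p (ε * (2 - r) * g' ^ 2 * c) ≤ 1)
    (hc : ∃ k : ℚ_[p], (c : ℚ_[p]) = k ^ 2)
    (hC : C1 ℚ_[p] ((α * m : ℤ) : ℚ) ((β * m ^ 2 : ℤ) : ℚ) (X : ℚ)) :
    (∃ c : ℚ_[p], (X : ℚ_[p]) = c ^ 2) ∨
      ∃ c : ℚ_[p], ((ε * m * X : ℤ) : ℚ_[p]) * (2 + r) = c ^ 2 := by
  obtain ⟨z, x, hz, hzm, hx⟩ := hC
  rw [Rat.cast_intCast, Rat.cast_intCast] at hx
  rw [Rat.cast_intCast] at hzm
  have hwm := wv_m hm hpm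
  have hm0 : ((m : ℤ) : ℚ_[p]) ≠ 0 := by
    rw [← (Valuation.ne_zero_iff (wv p)), hwm]
    exact WithZero.exp_ne_zero
  obtain ⟨hr1, hra, hrb⟩ := w_theta h2 hr
  have hr0 : r ≠ 0 := by
    rw [← (Valuation.ne_zero_iff (wv p)), hr1]
    exact one_ne_zero
  have h2r : 2 + r ≠ 0 := by
    rw [← (Valuation.ne_zero_iff (wv p)), hra]
    exact one_ne_zero
  have hβ1 := w_one hβ
  have hβ0 : (β : ℚ_[p]) ≠ 0 := by
    rw [← (Valuation.ne_zero_iff (wv p)), hβ1]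
    exact one_ne_zero
  have hprod : wv p (ε * (2 + r) * g ^ 2 * c) * wv p (ε * (2 - r) * g' ^ 2 * c) = 1 := by
    rw [← map_mul, h3, hβ1]
  have hg1 : wv p (ε * (2 + r) * g ^ 2 * c) = 1 := by
    refine le_antisymm hg ?_
    rw [← hprod]
    exact mul_le_of_le_one_right' hg'
  have hg1' : wv p (ε * (2 - r) * g' ^ 2 * c) = 1 := by
    refine le_antisymm hg' ?_
    rw [← hprod]
    exact mul_le_of_le_one_left' hg
  have hρ0 : (ε * (2 + r) * g ^ 2 * c : ℚ_[p]) ≠ 0 := by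
    rw [← (Valuation.ne_zero_iff (wv p)), hg1]
    exact one_ne_zero
  have hρ0' : (ε * (2 - r) * g' ^ 2 * c : ℚ_[p]) ≠ 0 := by
    rw [← (Valuation.ne_zero_iff (wv p)), hg1']
    exact one_ne_zero
  obtain ⟨kc, hkc⟩ := hc
  have hkc0 : kc ≠ 0 := by
    rintro rfl
    rw [zero_pow two_ne_zero] at hkc
    rw [hkc, mul_zero] at hρ0
    exact hρ0 rfl
  have hgn : g ≠ 0 := by
    rintro rfl
    rw [zero_pow two_ne_zero, mul_zero, zero_mul] at hρ0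
    exact hρ0 rfl
  have hgn' : g' ≠ 0 := by
    rintro rfl
    rw [zero_pow two_ne_zero, mul_zero, zero_mul] at hρ0'
    exact hρ0' rfl
  have hεε : (ε : ℚ_[p]) * ε = 1 := by
    rcases hε with h | h <;> rw [h] <;> norm_num
  refine split_end (ε := ε) hz hzm ?_
  have hx' : S1 ((α : ℚ_[p]) * ((m : ℤ) : ℚ_[p])) ((β : ℚ_[p]) * ((m : ℤ) : ℚ_[p]) ^ 2) x := by
    rw [Int.cast_mul, Int.cast_mul, Int.cast_pow] at hx
    exact hx
  obtain ⟨k, hk⟩ := hβc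
  have hk0 : k ≠ 0 := by
    rintro rfl
    rw [zero_pow two_ne_zero] at hk
    exact hβ0 hk
  rcases cls3 (wv p) (hens h2) hm0 (w_int_le α) hβ1 hβ0 (fun g hg => exp_odd (n := -1)
    (by norm_num) (hg.trans hwm)) hx' with ⟨c', hc0, hc'⟩ | ⟨c', hc0, hc'⟩ | ⟨ξ, hxξ, hξ, hlt⟩
  · exact ⟨c', hc0, Or.inl hc'⟩
  · exact ⟨k * c', mul_ne_zero hk0 hc0, Or.inl (by rw [hc', hk, mul_pow])⟩
  · obtain ⟨y, hy0, hy⟩ := near (wv p) (hens h2) h1 h3 hg1 hg1' hξ hlt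
    rcases hy with hy | hy
    · refine ⟨g * kc * y, mul_ne_zero (mul_ne_zero hgn hkc0) hy0, Or.inr ?_⟩
      rw [hxξ, hy, hkc]
      ring
    · refine ⟨r * (g' * kc * y) / (2 + r), div_ne_zero (mul_ne_zero hr0 (mul_ne_zero
        (mul_ne_zero hgn' hkc0) hy0)) h2r, Or.inr ?_⟩
      rw [hxξ, hy, hkc]
      field_simp
      linear_combination (-2 * (ε : ℚ_[p])) * hr

end

end Run7.h843.N
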