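import Mathlib
import Pool.Agent.Run7.h843.N2

/-!
# The rows of the two linear systems, and the prime `2`
-/

set_option autoImplicit false
set_option linter.unusedSectionVars false
set_option linter.unusedSimpArgs false

attribute [-instance] DivisionRing.toRatAlgebra

namespace Run7.h843.N

open Finset
open Pool.Agent.Y682 (S1 S2 LL1 LL2 Sq quot_eq IsT Zc Zc_card Zc_lower MP)
open Run7.h843.Sha Run7.h843.Desc Run7.h843.R
open Pool.Agent.Y703.CQ (nr)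

/-- the admissible twists -/
structure Adm (u v : ℤ) (m : ℕ) : Prop where
  sq : Squarefree m
  odd : m % 2 = 1
  ns : ∀ p : ℕ, p.Prime → (p : ℤ) ∣ ss u v → ¬ IsSquare ((-(rr u v * m) : ℤ) : ZMod p)
  nt : ∀ p : ℕ, p.Prime → (p : ℤ) ∣ tt u v → ¬ IsSquare ((rr u v * m : ℤ) : ZMod p)

theorem Adm.cs {u v : ℤ} {m : ℕ} (h : Adm u v m) {p : ℕ} (hp : p ∈ m.primeFactors) :
    ¬ (p : ℤ) ∣ ss u v := by
  intro hd
  apply h.ns p (Nat.prime_of_mem_primeFactors hp) hd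
  have : ((-(rr u v * m) : ℤ) : ZMod p) = 0 := by
    rw [ZMod.intCast_zmod_eq_zero_iff_dvd, dvd_neg]
    refine Dvd.dvd.mul_left ?_ _
    exact_mod_cast Nat.dvd_of_mem_primeFactors hp
  rw [this]
  exact IsSquare.zero

theorem Adm.ct {u v : ℤ} {m : ℕ} (h : Adm u v m) {p : ℕ} (hp : p ∈ m.primeFactors) :
    ¬ (p : ℤ) ∣ tt u v := by
  intro hd
  apply h.nt p (Nat.prime_of_mem_primeFactors hp) hd
  have : ((rr u v * m : ℤ) : ZMod p) = 0 := by
    rw [ZMod.intCast_zmod_eq_zero_iff_dvd]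
    refine Dvd.dvd.mul_left ?_ _
    exact_mod_cast Nat.dvd_of_mem_primeFactors hp
  rw [this]
  exact IsSquare.zero

section

variable {p : ℕ} [hp : Fact p.Prime] {m : ℕ} {u v : ℤ}

theorem nd_two_sq (h2 : p ≠ 2) {s : ℤ} (hs : ¬ (p : ℤ) ∣ s) (i : ℕ) : ¬ (p : ℤ) ∣ 2 ^ i * s ^ 2 := by
  have hpi : Prime (p : ℤ) := Nat.prime_iff_prime_int.1 hp.out
  intro h
  rcases hpi.dvd_or_dvd h with h | h
  · exact odd_nd hp.out h2 i h
  · exact hs (hpi.dvd_of_dvd_pow h)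

/-- the row of a split prime, first curve -/
theorem row1 (h8 : p % 8 = 1 ∨ p % 8 = 7) (ha : Adm u v m) (hpm : p ∈ m.primeFactors)
    {X : ℤ} (hX : 0 < X)
    (hC : C1 ℚ_[p] ((-4 * rr u v * m : ℤ) : ℚ) ((2 * ss u v ^ 2 * m ^ 2 : ℤ) : ℚ) (X : ℚ)) :
    lam p X + vv p X * (lam p m + f16 p) = 0 := by
  have hm := ha.sq
  have h2 : p ≠ 2 := by
    rintro rfl
    omega
  have hm0 : (m : ℤ) ≠ 0 := by exact_mod_cast hm.ne_zero
  have hmp : (0 : ℤ) < m := by exact_mod_cast Nat.pos_of_ne_zero hm.ne_zero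
  obtain ⟨r, hr⟩ := exists_r (p := p) h8
  obtain ⟨rc1, rc2⟩ := root_class (p := p) (u := (u : ℚ_[p])) (v := (v : ℚ_[p])) hr
  obtain ⟨hr1, hra, hrb⟩ := w_theta h2 hr
  have hs2 : ¬ (p : ℤ) ∣ 2 * ss u v ^ 2 := by
    have := nd_two_sq (p := p) h2 (ha.cs hpm) 1
    rwa [pow_one] at this
  have hle : ∀ x : ℚ_[p], wv p x = 1 → wv p ((u : ℚ_[p]) - (1 - x) * v) ≤ 1 := by
    intro x hx
    refine (Valuation.map_sub _ _ _).trans (max_le (w_int_le u) ?_)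
    rw [map_mul]
    refine mul_le_one' ((Valuation.map_sub _ _ _).trans (max_le ?_ hx.le)) (w_int_le v)
    rw [map_one]
  have hle' : ∀ x : ℚ_[p], wv p x = 1 → wv p ((u : ℚ_[p]) - (1 + x) * v) ≤ 1 := by
    intro x hx
    refine (Valuation.map_sub _ _ _).trans (max_le (w_int_le u) ?_)
    rw [map_mul]
    refine mul_le_one' ((Valuation.map_add _ _ _).trans (max_le ?_ hx.le)) (w_int_le v)
    rw [map_one]
  have h := splitN (p := p) h2 hm hpm hr (α := -4 * rr u v) (β := 2 * ss u v ^ 2) (ε := 1) (c := 1)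
    (g := u - (1 - r) * v) (g' := u - (1 + r) * v) (X := X) hs2
    ⟨r * ss u v, by push_cast; rw [mul_pow, hr]⟩ (Or.inl rfl)
    (by unfold rr; push_cast; linear_combination -rc1 - rc2)
    (by
      push_cast
      have e : (1 * (2 + r) * ((u : ℚ_[p]) - (1 - r) * v) ^ 2 * 1 *
          (1 * (2 - r) * ((u : ℚ_[p]) - (1 + r) * v) ^ 2 * 1)) =
          ((2 + r) * ((u : ℚ_[p]) - (1 - r) * v) ^ 2) * ((2 - r) * (u - (1 + r) * v) ^ 2) := by ring
      rw [e, ← rc1, ← rc2]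
      unfold ss
      push_cast
      linear_combination (-((u : ℚ_[p]) ^ 2 + 2 * u * v - v ^ 2) ^ 2) * hr)
    (by
      rw [Int.cast_one, one_mul, mul_one, map_mul, hra, one_mul, map_pow]
      exact pow_le_one₀ zero_le (hle r hr1))
    (by
      rw [Int.cast_one, one_mul, mul_one, map_mul, hrb, one_mul, map_pow]
      exact pow_le_one₀ zero_le (hle' r hr1))
    ⟨1, by simp⟩ hC
  rcases h with h | h
  · obtain ⟨a, b⟩ := sq_or h2 hX.ne' h
    rw [sg_pos hX, zero_mul, add_zero] at b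
    rw [a, b, zero_mul, add_zero]
  · rw [one_mul] at h
    obtain ⟨a, b⟩ := sq_theta h8 hr (mul_ne_zero hm0 hX.ne') h
    rw [vv_mul p hm0 hX.ne', vv_sqfree hm hpm] at a
    rw [sg_pos (mul_pos hmp hX), zero_mul, add_zero, lam_mul p hm0 hX.ne'] at b
    have a' : vv p X = 1 := by
      rcases zmod2_cases (vv p X) with h | h
      · rw [h] at a
        exact absurd a (by decide)
      · exact h
    rw [a', one_mul]
    linear_combination b

/-- the row of a split prime, second curve -/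
theorem row2 (h8 : p % 8 = 1 ∨ p % 8 = 7) (ha : Adm u v m) (hpm : p ∈ m.primeFactors)
    {X : ℤ} (hX : X ≠ 0)
    (hC : C1 ℚ_[p] ((8 * rr u v * m : ℤ) : ℚ) ((8 * tt u v ^ 2 * m ^ 2 : ℤ) : ℚ) (X : ℚ)) :
    lam p X + sg X * e3 p + vv p X * (lam p m + e3 p + f16 p) = 0 := by
  have hm := ha.sq
  have h2 : p ≠ 2 := by
    rintro rfl
    omega
  have hm0 : (m : ℤ) ≠ 0 := by exact_mod_cast hm.ne_zero
  have hmp : (0 : ℤ) < m := by exact_mod_cast Nat.pos_of_ne_zero hm.ne_zero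
  obtain ⟨r, hr⟩ := exists_r (p := p) h8
  obtain ⟨rc1, rc2⟩ := root_class (p := p) (u := (u : ℚ_[p])) (v := (-v : ℚ_[p])) hr
  obtain ⟨hr1, hra, hrb⟩ := w_theta h2 hr
  have ht2 : ¬ (p : ℤ) ∣ 8 * tt u v ^ 2 := by
    have := nd_two_sq (p := p) h2 (ha.ct hpm) 3
    norm_num at this
    exact this
  have hle : ∀ x : ℚ_[p], wv p x = 1 → wv p ((u : ℚ_[p]) - (1 - x) * -v) ≤ 1 := by
    intro x hx
    refine (Valuation.map_sub _ _ _).trans (max_le (w_int_le u) ?_)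
    rw [map_mul, Valuation.map_neg]
    refine mul_le_one' ((Valuation.map_sub _ _ _).trans (max_le ?_ hx.le)) (w_int_le v)
    rw [map_one]
  have hle' : ∀ x : ℚ_[p], wv p x = 1 → wv p ((u : ℚ_[p]) - (1 + x) * -v) ≤ 1 := by
    intro x hx
    refine (Valuation.map_sub _ _ _).trans (max_le (w_int_le u) ?_)
    rw [map_mul, Valuation.map_neg]
    refine mul_le_one' ((Valuation.map_add _ _ _).trans (max_le ?_ hx.le)) (w_int_le v)
    rw [map_one]
  have hw2 : wv p (2 : ℚ_[p]) = 1 := by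
    have := w_pow2 (p := p) h2 1
    rwa [pow_one] at this
  have h := splitN (p := p) h2 hm hpm hr (α := 8 * rr u v) (β := 8 * tt u v ^ 2) (ε := -1) (c := 2)
    (g := u - (1 - r) * -v) (g' := u - (1 + r) * -v) (X := X) ht2
    ⟨2 * r * tt u v, by push_cast; rw [mul_pow, mul_pow, hr]; ring⟩ (Or.inr rfl)
    (by unfold rr; push_cast; linear_combination 2 * rc1 + 2 * rc2)
    (by
      push_cast
      have e : (-1 * (2 + r) * ((u : ℚ_[p]) - (1 - r) * -v) ^ 2 * 2 *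
          (-1 * (2 - r) * ((u : ℚ_[p]) - (1 + r) * -v) ^ 2 * 2)) =
          4 * (((2 + r) * ((u : ℚ_[p]) - (1 - r) * -v) ^ 2) *
            ((2 - r) * (u - (1 + r) * -v) ^ 2)) := by ring
      rw [e, ← rc1, ← rc2]
      unfold tt
      push_cast
      linear_combination (-4 * ((u : ℚ_[p]) ^ 2 - 2 * u * v - v ^ 2) ^ 2) * hr)
    (by
      rw [map_mul, map_mul, map_mul, map_pow, hra]
      have e1 : wv p (((-1 : ℤ)) : ℚ_[p]) = 1 := by
        rw [Int.cast_neg, Int.cast_one, Valuation.map_neg, map_one]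
      have e2 : wv p (((2 : ℤ)) : ℚ_[p]) = 1 := by
        rw [Int.cast_ofNat]
        exact hw2
      rw [e1, e2, one_mul, one_mul, mul_one]
      exact pow_le_one₀ zero_le (hle r hr1))
    (by
      rw [map_mul, map_mul, map_mul, map_pow, hrb]
      have e1 : wv p (((-1 : ℤ)) : ℚ_[p]) = 1 := by
        rw [Int.cast_neg, Int.cast_one, Valuation.map_neg, map_one]
      have e2 : wv p (((2 : ℤ)) : ℚ_[p]) = 1 := by
        rw [Int.cast_ofNat]
        exact hw2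
      rw [e1, e2, one_mul, one_mul, mul_one]
      exact pow_le_one₀ zero_le (hle' r hr1))
    ?_ hC
  · rcases h with h | h
    · obtain ⟨a, b⟩ := sq_or h2 hX h
      rw [a, b, zero_mul, add_zero]
    · have e : (-1 * m * X : ℤ) = -(m * X) := by ring
      rw [e] at h
      have hne : (m : ℤ) * X ≠ 0 := mul_ne_zero hm0 hX
      obtain ⟨a, b⟩ := sq_theta h8 hr (neg_ne_zero.2 hne) h
      have esg : sg (-(m * X)) = 1 + sg X := by
        have e1 : -((m : ℤ) * X) = (-1) * (m * X) := by ring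
        rw [e1, sg_mul (by norm_num) hne, sg_mul hm0 hX, sg_pos hmp, zero_add, sg_neg (by norm_num)]
      rw [vv_neg, vv_mul p hm0 hX, vv_sqfree hm hpm] at a
      rw [esg, lam_neg, lam_mul p hm0 hX] at b
      have a' : vv p X = 1 := by
        rcases zmod2_cases (vv p X) with h | h
        · rw [h] at a
          exact absurd a (by decide)
        · exact h
      rw [a', one_mul]
      linear_combination b
  · exact ⟨r, by push_cast; exact hr.symm⟩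

end

/-- the first quartic at `2` -/
theorem U1 (j i : ℤ) (y z : ℚ_[2]) (h : y ^ 2 = -z ^ 4 + 8 * ((2 * j + 1 : ℤ) : ℚ_[2]) * z ^ 2 -
    8 * ((2 * i + 1 : ℤ) : ℚ_[2]) ^ 2) : False := by
  rcases rep2 z with ⟨Z, rfl⟩ | ⟨k, Z, Z', hZZ, hZ⟩
  · have h1 : y ^ 2 = ((-Z ^ 4 + 8 * ((2 * j + 1 : ℤ) : ℤ_[2]) * Z ^ 2 -
        8 * ((2 * i + 1 : ℤ) : ℤ_[2]) ^ 2 : ℤ_[2]) : ℚ_[2]) := by
      rw [h]
      push_cast
      simp only [cc2, cc4, cc8]
    obtain ⟨Y, hY⟩ := int_of_sq h1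
    have h2 : Y ^ 2 = -Z ^ 4 + 8 * ((2 * j + 1 : ℤ) : ℤ_[2]) * Z ^ 2 -
        8 * ((2 * i + 1 : ℤ) : ℤ_[2]) ^ 2 := by
      apply Subtype.ext
      rw [PadicInt.coe_pow, hY, h1]
    have h3 := congrArg (PadicInt.toZModPow 4) h2
    rw [map_pow, map_sub, map_add, map_neg, map_mul, map_mul, map_mul, map_pow, map_pow, map_pow,
      map_ofNat, map_intCast, map_intCast] at h3
    push_cast at h3
    have h16 : (16 : ZMod (2 ^ 4)) = 0 := by decide
    have h5 : ∀ Y Z : ZMod (2 ^ 4), Y ^ 2 ≠ -Z ^ 4 + 8 * Z ^ 2 - 8 := by decide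
    apply h5 (PadicInt.toZModPow 4 Y) (PadicInt.toZModPow 4 Z)
    linear_combination h3 + (j : ZMod (2 ^ 4)) * PadicInt.toZModPow 4 Z ^ 2 * h16 -
      (2 * (i : ZMod (2 ^ 4)) ^ 2 + 2 * i) * h16
  · have h1 : (y * 4 ^ (k + 1)) ^ 2 =
        ((-Z ^ 4 + 8 * ((2 * j + 1 : ℤ) : ℤ_[2]) * Z ^ 2 * (2 ^ (k + 1)) ^ 2 -
          8 * ((2 * i + 1 : ℤ) : ℤ_[2]) ^ 2 * (2 ^ (k + 1)) ^ 4 : ℤ_[2]) : ℚ_[2]) := by
      have e4 : (4 : ℚ_[2]) ^ (k + 1) = (2 ^ (k + 1)) ^ 2 := by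
        rw [← pow_mul, mul_comm, pow_mul]
        norm_num
      push_cast
      simp only [cc2, cc4, cc8]
      rw [← hZ, e4]
      push_cast at h
      linear_combination (2 ^ (k + 1)) ^ 4 * h
    obtain ⟨Y, hY⟩ := int_of_sq h1
    have h2 : Y ^ 2 = -Z ^ 4 + 8 * ((2 * j + 1 : ℤ) : ℤ_[2]) * Z ^ 2 * (2 ^ (k + 1)) ^ 2 -
          8 * ((2 * i + 1 : ℤ) : ℤ_[2]) ^ 2 * (2 ^ (k + 1)) ^ 4 := by
      apply Subtype.ext
      rw [PadicInt.coe_pow, hY, h1]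
    have h3 := congrArg (PadicInt.toZModPow 3) h2
    rw [map_pow, map_sub, map_add, map_neg, map_mul, map_mul, map_mul, map_mul, map_mul,
      map_ofNat] at h3
    have h4 : (8 : ZMod (2 ^ 3)) = 0 := by decide
    rw [h4, zero_mul, zero_mul, zero_mul, zero_mul, zero_mul, sub_zero, add_zero, map_pow] at h3
    have h6 := congrArg (PadicInt.toZModPow 3) hZZ
    rw [map_mul, map_one] at h6
    have h5 : ∀ Y Z Z' : ZMod (2 ^ 3), Z * Z' = 1 → Y ^ 2 ≠ - Z ^ 4 := by decide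
    exact h5 _ _ _ h6 h3

/-- the second quartic at `2` -/
theorem U2 (j i : ℤ) (y z : ℚ_[2]) (h : y ^ 2 = -2 * (z ^ 4 - 4 * ((2 * j + 1 : ℤ) : ℚ_[2]) * z ^ 2 +
    2 * ((2 * i + 1 : ℤ) : ℚ_[2]) ^ 2)) : False := by
  rcases rep2 z with ⟨Z, rfl⟩ | ⟨k, Z, Z', hZZ, hZ⟩
  · have h1 : y ^ 2 = ((-(2 * (Z ^ 4 - 4 * ((2 * j + 1 : ℤ) : ℤ_[2]) * Z ^ 2 +
        2 * ((2 * i + 1 : ℤ) : ℤ_[2]) ^ 2)) : ℤ_[2]) : ℚ_[2]) := by
      rw [h]
      push_cast
      simp only [cc2, cc4, cc8]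
      ring
    obtain ⟨Y, hY⟩ := int_of_sq h1
    have h2 : Y ^ 2 = -(2 * (Z ^ 4 - 4 * ((2 * j + 1 : ℤ) : ℤ_[2]) * Z ^ 2 +
        2 * ((2 * i + 1 : ℤ) : ℤ_[2]) ^ 2)) := by
      apply Subtype.ext
      rw [PadicInt.coe_pow, hY, h1]
    have h3 := congrArg (PadicInt.toZModPow 5) h2
    rw [map_pow, map_neg, map_mul, map_add, map_sub, map_mul, map_mul, map_mul, map_pow, map_pow,
      map_pow, map_ofNat, map_ofNat, map_intCast, map_intCast] at h3
    push_cast at h3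
    have h32 : (32 : ZMod (2 ^ 5)) = 0 := by decide
    have a1 : ∀ Z : ZMod (2 ^ 5), (2 * Z ^ 4 = 0 ∧ 8 * Z ^ 2 = 0) ∨ 16 * Z ^ 4 = 16 := by decide
    have h6 : ∀ j : ZMod (2 ^ 5), 16 * (j ^ 2 + j) = 0 := by decide
    rcases a1 (PadicInt.toZModPow 5 Z) with ⟨h4, h4'⟩ | h4
    · have h5 : ∀ Y : ZMod (2 ^ 5), Y ^ 2 ≠ -4 := by decide
      apply h5 (PadicInt.toZModPow 5 Y)
      linear_combination h3 - h4 + (2 * (j : ZMod (2 ^ 5)) + 1) * h4' - h6 i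
    · have h5 : ∀ Y : ZMod (2 ^ 5), 8 * Y ^ 2 ≠ 16 := by decide
      apply h5 (PadicInt.toZModPow 5 Y)
      linear_combination 8 * h3 - h4 + (2 * (2 * (j : ZMod (2 ^ 5)) + 1) *
        PadicInt.toZModPow 5 Z ^ 2 - (2 * (i : ZMod (2 ^ 5)) + 1) ^ 2 - 1) * h32
  · have h1 : (y * 4 ^ (k + 1)) ^ 2 =
        ((-(2 * Z ^ 4) + 4 * (2 * ((2 * j + 1 : ℤ) : ℤ_[2]) * Z ^ 2 * (2 ^ (k + 1)) ^ 2 -
          ((2 * i + 1 : ℤ) : ℤ_[2]) ^ 2 * (2 ^ (k + 1)) ^ 4) : ℤ_[2]) : ℚ_[2]) := by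
      have e4 : (4 : ℚ_[2]) ^ (k + 1) = (2 ^ (k + 1)) ^ 2 := by
        rw [← pow_mul, mul_comm, pow_mul]
        norm_num
      push_cast
      simp only [cc2, cc4, cc8]
      rw [← hZ, e4]
      push_cast at h
      linear_combination (2 ^ (k + 1)) ^ 4 * h
    obtain ⟨Y, hY⟩ := int_of_sq h1
    have h2 : Y ^ 2 = -(2 * Z ^ 4) + 4 * (2 * ((2 * j + 1 : ℤ) : ℤ_[2]) * Z ^ 2 * (2 ^ (k + 1)) ^ 2 -
          ((2 * i + 1 : ℤ) : ℤ_[2]) ^ 2 * (2 ^ (k + 1)) ^ 4) := by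
      apply Subtype.ext
      rw [PadicInt.coe_pow, hY, h1]
    have h3 := congrArg (PadicInt.toZModPow 2) h2
    rw [map_pow, map_add, map_neg, map_mul, map_pow, map_ofNat, map_mul, map_ofNat] at h3
    have h4 : (4 : ZMod (2 ^ 2)) = 0 := by decide
    rw [h4, zero_mul, add_zero] at h3
    have h6 := congrArg (PadicInt.toZModPow 2) hZZ
    rw [map_mul, map_one] at h6
    have h5 : ∀ Y Z Z' : ZMod (2 ^ 2), Z * Z' = 1 → Y ^ 2 ≠ -(2 * Z ^ 4) := by decide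
    exact h5 _ _ _ h6 h3

/-- the classes of `-1` and `-2` at `2` -/
theorem excl {a b : ℤ} (ha : a % 2 = 1) (hb : b % 2 = 1) {z x : ℚ_[2]} (hz : z ≠ 0)
    (hx : -z ^ 2 = x ∨ -2 * z ^ 2 = x) (h : S1 (8 * (a : ℚ_[2])) (8 * (b : ℚ_[2]) ^ 2) x) :
    False := by
  obtain ⟨j, hj⟩ : ∃ j : ℤ, a = 2 * j + 1 := ⟨a / 2, by omega⟩
  obtain ⟨i, hi⟩ : ∃ i : ℤ, b = 2 * i + 1 := ⟨b / 2, by omega⟩
  have hb0 : (b : ℚ_[2]) ≠ 0 := by
    have : b ≠ 0 := by omega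
    exact_mod_cast this
  rcases hx with hx | hx
  · rcases h with h | h | ⟨h0, y, hy⟩
    · exact no_neg_one z (by linear_combination -hx - h)
    · refine no_neg_two (z / (2 * b)) ?_
      rw [div_pow, div_eq_iff (pow_ne_zero 2 (mul_ne_zero two_ne_zero hb0))]
      linear_combination -hx - h
    · refine U1 j i (y / z) z ?_
      rw [div_pow, hy, ← hx, ← hj, ← hi]
      field_simp
      ring
  · rcases h with h | h | ⟨h0, y, hy⟩
    · refine no_neg_two (2 * z) ?_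
      linear_combination -2 * hx - 2 * h
    · refine no_neg_one (z / (2 * b)) ?_
      rw [div_pow, div_eq_iff (pow_ne_zero 2 (mul_ne_zero two_ne_zero hb0))]
      linear_combination (-hx - h) / 2
    · refine U2 j i (y / (2 * z)) z ?_
      rw [div_pow, hy, ← hx, ← hj, ← hi]
      field_simp
      ring

end Run7.h843.N
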