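import Mathlib
import Pool.Agent.Run7.h843.N3

/-!
# The Selmer groups of `y² = x³ - 4 r m x² + 2 s² m² x`
-/

set_option autoImplicit false

attribute [-instance] DivisionRing.toRatAlgebra

namespace Run7.h843.N

open Finset
open Pool.Agent.Y682 (S1 S2 LL1 LL2 Sq quot_eq IsT Zc Zc_card Zc_lower MP)
open Run7.h843.Sha Run7.h843.Desc Run7.h843.R
open Pool.Agent.Y703.CQ (nr)

section

variable {u v : ℤ} {m : ℕ}

/-- the parameters are coprime to each other -/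
theorem cop_rs (huv : IsCoprime u v) {q : ℕ} (hq : q.Prime) (h2 : q ≠ 2) (hr : (q : ℤ) ∣ rr u v)
    (hst : (q : ℤ) ∣ ss u v ∨ (q : ℤ) ∣ tt u v) : False := by
  have hqi : Prime (q : ℤ) := Nat.prime_iff_prime_int.1 hq
  have h4 : ∀ k : ℕ, ¬ (q : ℤ) ∣ 2 ^ k := fun k => odd_nd hq h2 k
  have hs : (q : ℤ) ∣ ss u v ∧ (q : ℤ) ∣ tt u v := by
    have e := rel u v
    rcases hst with h | h
    · refine ⟨h, ?_⟩
      have h5 : (q : ℤ) ∣ tt u v ^ 2 := by
        have : tt u v ^ 2 = 2 * rr u v ^ 2 - ss u v ^ 2 := by linear_combination e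
        rw [this]
        exact dvd_sub (Dvd.dvd.mul_left (Dvd.dvd.pow hr two_ne_zero) _) (Dvd.dvd.pow h two_ne_zero)
      exact hqi.dvd_of_dvd_pow h5
    · refine ⟨?_, h⟩
      have h5 : (q : ℤ) ∣ ss u v ^ 2 := by
        have : ss u v ^ 2 = 2 * rr u v ^ 2 - tt u v ^ 2 := by linear_combination e
        rw [this]
        exact dvd_sub (Dvd.dvd.mul_left (Dvd.dvd.pow hr two_ne_zero) _) (Dvd.dvd.pow h two_ne_zero)
      exact hqi.dvd_of_dvd_pow h5
  -- `4 u² = 2 r + s + t`, `4 v² = 2 r - s - t`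
  have hu : (q : ℤ) ∣ u := by
    have h5 : (q : ℤ) ∣ 2 ^ 2 * u ^ 2 := by
      have : 2 ^ 2 * u ^ 2 = 2 * rr u v + ss u v + tt u v := by unfold rr ss tt; ring
      rw [this]
      exact dvd_add (dvd_add (Dvd.dvd.mul_left hr _) hs.1) hs.2
    rcases hqi.dvd_or_dvd h5 with h | h
    · exact absurd h (h4 2)
    · exact hqi.dvd_of_dvd_pow h
  have hv : (q : ℤ) ∣ v := by
    have h5 : (q : ℤ) ∣ 2 ^ 2 * v ^ 2 := by
      have : 2 ^ 2 * v ^ 2 = 2 * rr u v - ss u v - tt u v := by unfold rr ss tt; ring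
      rw [this]
      exact dvd_sub (dvd_sub (Dvd.dvd.mul_left hr _) hs.1) hs.2
    rcases hqi.dvd_or_dvd h5 with h | h
    · exact absurd h (h4 2)
    · exact hqi.dvd_of_dvd_pow h
  exact hqi.not_isUnit (huv.isUnit_of_dvd' hu hv)

theorem cop_st (huv : IsCoprime u v) {q : ℕ} (hq : q.Prime) (h2 : q ≠ 2) (hs : (q : ℤ) ∣ ss u v)
    (ht : (q : ℤ) ∣ tt u v) : False := by
  have hqi : Prime (q : ℤ) := Nat.prime_iff_prime_int.1 hq
  refine cop_rs huv hq h2 ?_ (Or.inl hs)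
  have h5 : (q : ℤ) ∣ 2 ^ 1 * rr u v ^ 2 := by
    have e := rel u v
    have : 2 ^ 1 * rr u v ^ 2 = ss u v ^ 2 + tt u v ^ 2 := by linear_combination -e
    rw [this]
    exact dvd_add (Dvd.dvd.pow hs two_ne_zero) (Dvd.dvd.pow ht two_ne_zero)
  rcases hqi.dvd_or_dvd h5 with h | h
  · exact absurd h (odd_nd hq h2 1)
  · exact hqi.dvd_of_dvd_pow h

/-- the primes of `s t` are `± 1` modulo `8` -/
theorem two_sq_st (huv : IsCoprime u v) {q : ℕ} [Fact q.Prime] (h2 : q ≠ 2)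
    (h : (q : ℤ) ∣ ss u v ∨ (q : ℤ) ∣ tt u v) : IsSquare (2 : ZMod q) := by
  have hq : q.Prime := Fact.out
  have e : ((ss u v : ZMod q)) ^ 2 + (tt u v : ZMod q) ^ 2 = 2 * (rr u v : ZMod q) ^ 2 := by
    have := congrArg (fun z : ℤ => (z : ZMod q)) (rel u v)
    push_cast at this
    exact this
  have hr0 : (rr u v : ZMod q) ≠ 0 := by
    intro h0
    exact cop_rs huv hq h2 ((ZMod.intCast_zmod_eq_zero_iff_dvd _ q).1 h0) h
  rcases h with h | h
  · have h0 : (ss u v : ZMod q) = 0 := (ZMod.intCast_zmod_eq_zero_iff_dvd _ q).2 h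
    rw [h0] at e
    refine ⟨tt u v / rr u v, ?_⟩
    field_simp
    linear_combination -e
  · have h0 : (tt u v : ZMod q) = 0 := (ZMod.intCast_zmod_eq_zero_iff_dvd _ q).2 h
    rw [h0] at e
    refine ⟨ss u v / rr u v, ?_⟩
    field_simp
    linear_combination -e

theorem rr_pos (huv : IsCoprime u v) : 0 < rr u v := by
  unfold rr
  by_contra h
  have hu : u = 0 := by nlinarith [sq_nonneg u, sq_nonneg v]
  have hv : v = 0 := by nlinarith [sq_nonneg u, sq_nonneg v]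
  rw [hu, hv] at huv
  exact not_isCoprime_zero_zero huv

theorem par (h : (u + v) % 2 = 1) : ss u v % 2 = 1 ∧ tt u v % 2 = 1 ∧ rr u v % 2 = 1 := by
  unfold ss tt rr
  obtain ⟨k, hk⟩ : ∃ k, u = 2 * k + 1 - v := ⟨(u + v) / 2, by omega⟩
  refine ⟨?_, ?_, ?_⟩
  · have e : u ^ 2 - 2 * u * v - v ^ 2 = 2 * (2 * k ^ 2 + 2 * k - 4 * k * v - 2 * v + v ^ 2) + 1 := by
      rw [hk]; ring
    rw [e]
    omega
  · have e : u ^ 2 + 2 * u * v - v ^ 2 = 2 * (2 * k ^ 2 + 2 * k - v ^ 2) + 1 := by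
      rw [hk]; ring
    rw [e]
    omega
  · have e : u ^ 2 + v ^ 2 = 2 * (2 * k ^ 2 + 2 * k - 2 * k * v - v + v ^ 2) + 1 := by
      rw [hk]; ring
    rw [e]
    omega

theorem real_pos (hm : m ≠ 0) (hr : 0 < rr u v) (hs : ss u v ≠ 0) {X : ℚ}
    (h : C1 ℝ ((-4 * rr u v * m : ℤ) : ℚ) ((2 * ss u v ^ 2 * m ^ 2 : ℤ) : ℚ) X) : 0 < X := by
  obtain ⟨z, m', hz, hzm, hm'⟩ := h
  have hmr : (0 : ℝ) < m := by exact_mod_cast Nat.pos_of_ne_zero hm
  have hrr : (0 : ℝ) < rr u v := by exact_mod_cast hr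
  have hsr : (ss u v : ℝ) ≠ 0 := by exact_mod_cast hs
  have hss : (0 : ℝ) < ss u v ^ 2 := by positivity
  push_cast at hm'
  have hm1 : 0 < m' := by
    rcases hm' with hm' | hm' | ⟨h0, y, hy⟩
    · rw [hm']; exact one_pos
    · rw [hm']; positivity
    · by_contra h1
      have h2 : m' < 0 := lt_of_le_of_ne (not_lt.1 h1) h0
      have h3 : 0 < m' ^ 2 + -4 * (rr u v : ℝ) * (m : ℝ) * m' + 2 * (ss u v : ℝ) ^ 2 * (m : ℝ) ^ 2 := by
        have h4 : 0 < (rr u v : ℝ) * (m : ℝ) * -m' := mul_pos (mul_pos hrr hmr) (by linarith)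
        have h5 : 0 < 2 * (ss u v : ℝ) ^ 2 * (m : ℝ) ^ 2 := by positivity
        nlinarith [sq_nonneg m', sq_nonneg (m : ℝ)]
      nlinarith [sq_nonneg y, mul_neg_of_neg_of_pos h2 h3]
  have h5 : 0 < (X : ℝ) := by
    by_contra h6
    have h7 : (X : ℝ) * z ^ 2 ≤ 0 := mul_nonpos_of_nonpos_of_nonneg (not_lt.1 h6) (sq_nonneg z)
    linarith
  exact_mod_cast h5

/-- the exponents of the first curve outside the set `SR m` -/
theorem out1 (huv : IsCoprime u v) (ha : Adm u v m) {X : ℤ} (hX : X ≠ 0) {q : ℕ} (hq : q.Prime)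
    (h2 : q ≠ 2) (hqS : q ∉ SR m)
    (hC : @C1 (@Padic q ⟨hq⟩) _ ((-4 * rr u v * m : ℤ) : ℚ) ((2 * ss u v ^ 2 * m ^ 2 : ℤ) : ℚ)
      (X : ℚ)) : vv q X = 0 := by
  have : Fact q.Prime := ⟨hq⟩
  by_cases hqm : q ∈ m.primeFactors
  · have h8 : ¬ (q % 8 = 1 ∨ q % 8 = 7) := fun h8 => hqS (mem_SR.2 ⟨hqm, h8⟩)
    refine inert_even (p := q) h2 ?_ ha.sq hqm (c := tt u v) ?_ (ha.ct hqm) ?_ hX hC
    · rw [ZMod.exists_sq_eq_two_iff h2]
      exact h8
    · have := rel u v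
      linear_combination -8 * this
    · have := nd_two_sq (p := q) h2 (ha.cs hqm) 1
      rwa [pow_one] at this
  · by_cases hqs : (q : ℤ) ∣ ss u v
    · have hqm' : ¬ (q : ℤ) ∣ m := by
        intro h
        apply hqm
        exact Nat.mem_primeFactors.2 ⟨hq, by exact_mod_cast h, ha.sq.ne_zero⟩
      have e : (2 * ss u v ^ 2 * m ^ 2 : ℤ) = 2 * (ss u v * m) ^ 2 := by ring
      rw [e] at hC
      refine ns_even (p := q) h2 (A := -4 * rr u v * m) (b := ss u v * m) (k := 2) ?_ hX ?_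
        (Dvd.dvd.mul_right hqs _) hC
      · intro hsq
        apply ha.ns q hq hqs
        obtain ⟨c, hc⟩ := hsq
        have h2z : (2 : ZMod q) ≠ 0 := by
          intro h0
          have h0' : ((2 : ℕ) : ZMod q) = 0 := by exact_mod_cast h0
          rw [ZMod.natCast_eq_zero_iff] at h0'
          exact h2 ((Nat.prime_dvd_prime_iff_eq hq Nat.prime_two).1 h0')
        refine ⟨c / 2, ?_⟩
        push_cast at hc ⊢
        field_simp
        linear_combination hc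
      · have := odd_nd hq h2 1
        rwa [pow_one] at this
    · refine good_even (p := q) ?_ hX hC
      intro h
      have hqi : Prime (q : ℤ) := Nat.prime_iff_prime_int.1 hq
      have e : (2 * ss u v ^ 2 * m ^ 2 : ℤ) = 2 ^ 1 * m ^ 2 * ss u v ^ 2 := by ring
      rw [e] at h
      rcases hqi.dvd_or_dvd h with h | h
      · exact nd8 hq h2 ha.sq.ne_zero hqm 1 h
      · exact hqs (hqi.dvd_of_dvd_pow h)

/-- the exponents of the second curve outside the set `SR m` -/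
theorem out2 (huv : IsCoprime u v) (ha : Adm u v m) {X : ℤ} (hX : X ≠ 0) {q : ℕ} (hq : q.Prime)
    (h2 : q ≠ 2) (hqS : q ∉ SR m)
    (hC : @C1 (@Padic q ⟨hq⟩) _ ((8 * rr u v * m : ℤ) : ℚ) ((8 * tt u v ^ 2 * m ^ 2 : ℤ) : ℚ)
      (X : ℚ)) : vv q X = 0 := by
  have : Fact q.Prime := ⟨hq⟩
  have hqi : Prime (q : ℤ) := Nat.prime_iff_prime_int.1 hq
  by_cases hqm : q ∈ m.primeFactors
  · have h8 : ¬ (q % 8 = 1 ∨ q % 8 = 7) := fun h8 => hqS (mem_SR.2 ⟨hqm, h8⟩)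
    refine inert_even (p := q) h2 ?_ ha.sq hqm (c := 2 * ss u v) ?_ ?_ ?_ hX hC
    · rw [ZMod.exists_sq_eq_two_iff h2]
      exact h8
    · have := rel u v
      linear_combination -32 * this
    · intro h
      rcases hqi.dvd_or_dvd h with h | h
      · have := odd_nd hq h2 1
        rw [pow_one] at this
        exact this h
      · exact ha.cs hqm h
    · have := nd_two_sq (p := q) h2 (ha.ct hqm) 3
      norm_num at this
      exact this
  · by_cases hqt : (q : ℤ) ∣ tt u v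
    · have hqm' : ¬ (q : ℤ) ∣ m := by
        intro h
        apply hqm
        exact Nat.mem_primeFactors.2 ⟨hq, by exact_mod_cast h, ha.sq.ne_zero⟩
      have e : (8 * tt u v ^ 2 * m ^ 2 : ℤ) = 8 * (tt u v * m) ^ 2 := by ring
      rw [e] at hC
      refine ns_even (p := q) h2 (A := 8 * rr u v * m) (b := tt u v * m) (k := 8) ?_ hX ?_
        (Dvd.dvd.mul_right hqt _) hC
      · intro hsq
        apply ha.nt q hq hqt
        obtain ⟨c, hc⟩ := hsq
        obtain ⟨w, hw⟩ := two_sq_st (q := q) huv h2 (Or.inr hqt)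
        have h2z : (2 : ZMod q) ≠ 0 := by
          intro h0
          have h0' : ((2 : ℕ) : ZMod q) = 0 := by exact_mod_cast h0
          rw [ZMod.natCast_eq_zero_iff] at h0'
          exact h2 ((Nat.prime_dvd_prime_iff_eq hq Nat.prime_two).1 h0')
        refine ⟨c * w / 4, ?_⟩
        have h4z : (4 : ZMod q) ≠ 0 := by
          have : (4 : ZMod q) = 2 * 2 := by norm_num
          rw [this]
          exact mul_ne_zero h2z h2z
        push_cast at hc ⊢
        field_simp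
        linear_combination 2 * hc + c ^ 2 * hw
      · have := odd_nd hq h2 3
        norm_num at this
        exact this
    · refine good_even (p := q) ?_ hX hC
      intro h
      have e : (8 * tt u v ^ 2 * m ^ 2 : ℤ) = 2 ^ 3 * m ^ 2 * tt u v ^ 2 := by ring
      rw [e] at h
      rcases hqi.dvd_or_dvd h with h | h
      · exact nd8 hq h2 ha.sq.ne_zero hqm 3 h
      · exact hqt (hqi.dvd_of_dvd_pow h)

/-- the first Selmer bound -/
theorem sel1 (huv : IsCoprime u v) (hpar : (u + v) % 2 = 1) (ha : Adm u v m) (hk : NsR m) {b : ℚ}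
    (hb : b ≠ 0)
    (h : LL1 ((-4 * rr u v * m : ℤ) : ℚ) ((2 * ss u v ^ 2 * m ^ 2 : ℤ) : ℚ) b) :
    ∃ c : ℚ, b = c ^ 2 ∨ b = 2 * c ^ 2 := by
  have hm := ha.sq
  obtain ⟨X, d, hX, hd, hXb⟩ := exists_X hb
  have hall : ∀ q : ℕ, ∀ hq : q.Prime, @C1 (@Padic q ⟨hq⟩) _ ((-4 * rr u v * m : ℤ) : ℚ)
      ((2 * ss u v ^ 2 * m ^ 2 : ℤ) : ℚ) (X : ℚ) := by
    intro q hq
    have : Fact q.Prime := ⟨hq⟩
    rw [hXb]
    exact C1_mul hd (LL1_pad h q)
  have hs0 : ss u v ≠ 0 := by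
    have := (par hpar).1
    omega
  have hX0 : 0 < X := by
    have : (0 : ℚ) < X := by
      refine real_pos hm.ne_zero (rr_pos huv) hs0 ?_
      rw [hXb]
      exact C1_mul hd (LL1_real h)
    exact_mod_cast this
  have hout : ∀ q : ℕ, q.Prime → q ≠ 2 → q ∉ SR m → vv q X = 0 := fun q hq h2 hqS =>
    out1 huv ha hX hq h2 hqS (hall q hq)
  have hin : ∀ p ∈ m.primeFactors, (p % 8 = 1 ∨ p % 8 = 7) → vv p X = 0 := by
    refine hk (fun p => vv p X) fun p hp h8 => ?_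
    have hpp := Nat.prime_of_mem_primeFactors hp
    have : Fact p.Prime := ⟨hpp⟩
    have h3 := row1 h8 ha hp hX0 (hall p hpp)
    rw [lam_SR h8 hout two_nS, lam_m hm] at h3
    rw [sum_cv]
    have h4 : ∑ q ∈ SR m, nr p q * vv q X = ∑ q ∈ SR m, vv q X * nr p q :=
      sum_congr rfl fun q _ => mul_comm _ _
    rw [h4]
    linear_combination h3
  refine end12 hX0 (fun q hq h2 => ?_) hd hXb
  by_cases hqS : q ∈ SR m
  · exact hin q (mem_SR.1 hqS).1 (mem_SR.1 hqS).2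
  · exact hout q hq h2 hqS

/-- the second Selmer bound -/
theorem sel2 (huv : IsCoprime u v) (hpar : (u + v) % 2 = 1) (ha : Adm u v m) (hk : NsR m) {b : ℚ}
    (hb : b ≠ 0)
    (h : LL2 ((-4 * rr u v * m : ℤ) : ℚ) ((2 * ss u v ^ 2 * m ^ 2 : ℤ) : ℚ) b) :
    ∃ c : ℚ, b = c ^ 2 ∨ b = 2 * c ^ 2 := by
  have hm := ha.sq
  obtain ⟨X, d, hX, hd, hXb⟩ := exists_X hb
  have eA : (-2 * ((-4 * rr u v * m : ℤ) : ℚ)) = ((8 * rr u v * m : ℤ) : ℚ) := by push_cast; ring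
  have eB : (((-4 * rr u v * m : ℤ) : ℚ) ^ 2 - 4 * ((2 * ss u v ^ 2 * m ^ 2 : ℤ) : ℚ)) =
      ((8 * tt u v ^ 2 * m ^ 2 : ℤ) : ℚ) := by
    have e := rel u v
    have e' : (-4 * rr u v * m) ^ 2 - 4 * (2 * ss u v ^ 2 * m ^ 2) =
        (8 * tt u v ^ 2 * m ^ 2 : ℤ) := by linear_combination (-8 * (m : ℤ) ^ 2) * e
    exact_mod_cast congrArg (fun z : ℤ => (z : ℚ)) e'
  have hall : ∀ q : ℕ, ∀ hq : q.Prime, @C1 (@Padic q ⟨hq⟩) _ ((8 * rr u v * m : ℤ) : ℚ)
      ((8 * tt u v ^ 2 * m ^ 2 : ℤ) : ℚ) (X : ℚ) := by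
    intro q hq
    have : Fact q.Prime := ⟨hq⟩
    rw [hXb]
    refine C1_mul hd ?_
    rw [← eA, ← eB]
    exact C2_iff.1 (LL2_pad h q)
  have hout : ∀ q : ℕ, q.Prime → q ≠ 2 → q ∉ SR m → vv q X = 0 := fun q hq h2 hqS =>
    out2 huv ha hX hq h2 hqS (hall q hq)
  have hsg : sg X = ∑ q ∈ SR m, vv q X * e3 q := by
    by_contra hne
    obtain ⟨c, hc0, hc⟩ := two_class hm hX hout hne
    obtain ⟨z, x, hz, hzx, hx⟩ := hall 2 Nat.prime_two
    rw [Rat.cast_intCast] at hzx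
    rw [Rat.cast_intCast, Rat.cast_intCast] at hx
    have hmo : (m : ℤ) % 2 = 1 := by
      have := ha.odd
      omega
    obtain ⟨p1, p2, p3⟩ := par hpar
    have ho : ∀ a b : ℤ, a % 2 = 1 → b % 2 = 1 → (a * b) % 2 = 1 := by
      intro a b h1 h2
      rw [Int.mul_emod, h1, h2]
      rfl
    have ex : S1 (8 * (((rr u v * m : ℤ)) : ℚ_[2])) (8 * (((tt u v * m : ℤ)) : ℚ_[2]) ^ 2) x := by
      have e1 : ((8 * rr u v * m : ℤ) : ℚ_[2]) = 8 * (((rr u v * m : ℤ)) : ℚ_[2]) := by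
        push_cast; ring
      have e2 : ((8 * tt u v ^ 2 * m ^ 2 : ℤ) : ℚ_[2]) = 8 * (((tt u v * m : ℤ)) : ℚ_[2]) ^ 2 := by
        push_cast; ring
      rw [← e1, ← e2]
      exact hx
    refine excl (ho _ _ p3 hmo) (ho _ _ p2 hmo) (z := c * z) (x := x) (mul_ne_zero hc0 hz) ?_ ex
    rcases hc with hc | hc
    · left
      rw [← hzx, hc]
      ring
    · right
      rw [← hzx, hc]
      ring
  have hin : ∀ p ∈ SR m, vv p X = 0 := by
    refine (NsR_tr m).1 hk (fun p => vv p X) fun p hpS => ?_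
    obtain ⟨hp, h8⟩ := mem_SR.1 hpS
    have hpp := Nat.prime_of_mem_primeFactors hp
    have hp2 : p ≠ 2 := by
      rintro rfl
      omega
    have : Fact p.Prime := ⟨hpp⟩
    have h3 := row2 h8 ha hp hX (hall p hpp)
    rw [lam_SR h8 hout two_nS, lam_m hm, hsg] at h3
    have h4 : ∑ q ∈ SR m, vv q X * nr q p = ∑ q ∈ SR m, vv q X * nr p q +
        (∑ q ∈ SR m, vv q X * e3 q) * e3 p + vv p X * e3 p := by
      have h5 : ∀ q ∈ SR m, vv q X * nr q p = vv q X * nr p q + vv q X * e3 q * e3 p +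
          if q = p then vv p X * e3 p else 0 := by
        intro q hqS
        obtain ⟨hq, hq8⟩ := mem_SR.1 hqS
        have hqq := Nat.prime_of_mem_primeFactors hq
        have hq2 : q ≠ 2 := by
          rintro rfl
          omega
        by_cases hqp : q = p
        · rw [if_pos hqp, hqp, nr_self, mul_assoc, e3_sq]
          linear_combination -add_self2 (vv p X * e3 p)
        · rw [if_neg hqp, ← recip hpp hqq hp2 hq2 (Ne.symm hqp)]
          ring
      rw [sum_congr rfl h5, sum_add_distrib, sum_add_distrib, sum_ite_eq', if_pos hpS, sum_mul]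
    rw [h4]
    linear_combination h3
  have hs0 : sg X = 0 := by
    rw [hsg]
    exact sum_eq_zero fun q hq => by rw [hin q hq, zero_mul]
  have hX0 : 0 < X := by
    rcases lt_or_gt_of_ne hX with h9 | h9
    · rw [sg_neg h9] at hs0
      exact absurd hs0 (by decide)
    · exact h9
  refine end12 hX0 (fun q hq h2 => ?_) hd hXb
  by_cases hqS : q ∈ SR m
  · exact hin q hqS
  · exact hout q hq h2 hqS

/-- **rank zero and no element of order two in Sha** -/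
theorem shaN (huv : IsCoprime u v) (hpar : (u + v) % 2 = 1) (ha : Adm u v m) (hk : NsR m)
    {W : WeierstrassCurve ℚ}
    (hT : IsT W ((-4 * rr u v * m : ℤ) : ℚ) ((2 * ss u v ^ 2 * m ^ 2 : ℤ) : ℚ)) :
    Module.finrank ℤ (MP W) = 0 ∧
      ∀ (n : ℕ) (x : Pool.Agent.TH841.NF.D.Sha W), 2 ^ n • x = 0 → x = 0 := by
  have r2 : (2 : ℚ) ≠ 0 := two_ne_zero
  let U : Set (ℚˣ ⧸ Sq ℚ) := {cl 1 one_ne_zero, cl 2 r2}
  have hUf : U.Finite := Set.toFinite U
  have hfin : Finite U := hUf.to_subtype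
  have hU2 : Nat.card U ≤ 2 := by
    have h1 : U.ncard ≤ 2 := by
      refine (Set.ncard_insert_le _ _).trans ?_
      rw [Set.ncard_singleton]
    exact h1
  have H : ∀ b : ℚˣ, (∃ c : ℚ, (b : ℚ) = c ^ 2 ∨ (b : ℚ) = 2 * c ^ 2) → (b : ℚˣ ⧸ Sq ℚ) ∈ U := by
    rintro b ⟨c, hc | hc⟩
    · exact Or.inl (cl_of _ (by rw [one_mul]; exact hc))
    · exact Or.inr (cl_of _ hc)
  obtain ⟨hf, hc⟩ := Zc_card hT (U := U) (V := U) (Or.inl one_cl)
    (fun b hb => H b (sel1 huv hpar ha hk b.ne_zero hb))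
    (fun b hb => H b (sel2 huv hpar ha hk b.ne_zero hb))
  exact end_of hT hf (hc.trans (by nlinarith))

end

end Run7.h843.N
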