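import Pool.Agent.Run7.h843.R9

/-!
# The criterion for `y² = x³ - 4 m x² + 2 m² x`, both directions
-/

set_option autoImplicit false

attribute [-instance] DivisionRing.toRatAlgebra

open NumberField IsDedekindDomain

namespace Run7.h843.R

open Pool.Agent.Y698.SG.Cv (WF)
open Pool.Agent.TH841.NF.D (Sha)

/-- finitely many points if the rank is zero -/
theorem fin_of_rank {W : WeierstrassCurve ℚ} {A B : ℚ} (hT : Pool.Agent.Y682.IsT W A B)
    (h : Module.finrank ℤ (Pool.Agent.Y682.MP W) = 0) : Finite W.toAffine.Point := by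
  have h1 : Module.Finite ℤ (Pool.Agent.Y682.MP W) := Pool.Agent.Y682.fg_MP hT
  have h2 : Module.IsTorsion ℤ (Pool.Agent.Y682.MP W) := Module.finrank_eq_zero_iff_isTorsion.1 h
  have h3 : Finite (Pool.Agent.Y682.MP W) := Module.finite_of_fg_torsion (Pool.Agent.Y682.MP W) h2
  exact h3

theorem iffA {m : ℕ} (hm : Squarefree m) (hm2 : m % 2 = 1)
    {W : WeierstrassCurve ℚ} (hW : W = ⟨0, ((-4 * (m : ℤ) : ℤ) : ℚ), 0,
      ((2 * (m : ℤ) ^ 2 : ℤ) : ℚ), 0⟩) :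
    (Finite W.toAffine.Point ∧ ∀ (n : ℕ) (x : Sha W), 2 ^ n • x = 0 → x = 0) ↔ NsR m := by
  have hW2 : W = WF ℚ (-4 * m) (2 * m ^ 2) := by
    rw [hW]
    unfold WF Pool.Agent.Y668.Wt
    simp
  constructor
  · rintro ⟨hf, hs⟩
    rw [hW2] at hf hs
    refine convR hm hm2 hf fun x hx => hs 1 x ?_
    rw [pow_one, two_smul, hx]
  · intro hk
    have hm0 : (m : ℚ) ≠ 0 := by exact_mod_cast hm.ne_zero
    have hT : Pool.Agent.Y682.IsT W ((-4 * (m : ℤ) : ℤ) : ℚ) ((2 * (m : ℤ) ^ 2 : ℤ) : ℚ) := by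
      rw [hW]
      refine ⟨rfl, rfl, rfl, rfl, rfl, ?_, ?_⟩
      · push_cast
        exact mul_ne_zero two_ne_zero (pow_ne_zero 2 hm0)
      · have e : (((-4 * (m : ℤ) : ℤ) : ℚ)) ^ 2 - 4 * ((2 * (m : ℤ) ^ 2 : ℤ) : ℚ) =
            8 * (m : ℚ) ^ 2 := by
          push_cast
          ring
        rw [e]
        exact mul_ne_zero (by norm_num) (pow_ne_zero 2 hm0)
    obtain ⟨h1, h2⟩ := shaR hm hm2 hk hT
    exact ⟨fin_of_rank hT h1, h2⟩

/-- the determinant form -/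
theorem iffA_det {m : ℕ} (hm : Squarefree m) (hm2 : m % 2 = 1)
    {W : WeierstrassCurve ℚ} (hW : W = ⟨0, ((-4 * (m : ℤ) : ℤ) : ℚ), 0,
      ((2 * (m : ℤ) ^ 2 : ℤ) : ℚ), 0⟩) :
    (Finite W.toAffine.Point ∧ ∀ (n : ℕ) (x : Sha W), 2 ^ n • x = 0 → x = 0) ↔
      (MatR m).det ≠ 0 :=
  (iffA hm hm2 hW).trans (NsR_iff m)

end Run7.h843.R
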