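import Pool.Agent.Run7.h843.R8
import Pool.Agent.Run7.h843.V1
import Pool.Agent.Run7.h843.F1

/-!
# The converse for `y² = x³ - 4 m x² + 2 m² x`
-/

set_option autoImplicit false

open NumberField IsDedekindDomain

namespace Run7.h843.R

open Finset
open Pool.Agent.Y698.SG.Cv (LocI WF)
open Pool.Agent.TH841.NF.D (Sha)
open Pool.Agent.Y703.CQ (nr)
open Run7.h843.Desc Run7.h843.Sha Run7.h843.Conv

section

variable {p : ℕ} [hp : Fact p.Prime]

/-- a unit times `2 + √2` is a square -/
theorem theta_sq (h8 : p % 8 = 1 ∨ p % 8 = 7) {r : ℚ_[p]} (hr : r ^ 2 = 2) {u : ℤ}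
    (hu : ¬ (p : ℤ) ∣ u) (h : ch p u + f16 p = 0) : ∃ c : ℚ_[p], (u : ℚ_[p]) * (2 + r) = c ^ 2 := by
  classical
  have h2 : p ≠ 2 := by
    rintro rfl
    omega
  obtain ⟨hr1, hθ, -⟩ := w_theta h2 hr
  obtain ⟨r', hr'⟩ : ∃ r' : ℤ_[p], (r' : ℚ_[p]) = r := ⟨⟨r, w_le_iff.1 hr1.le⟩, rfl⟩
  have hc2 : ((2 : ℤ_[p]) : ℚ_[p]) = 2 := by exact_mod_cast PadicInt.coe_natCast 2
  have hrr : (PadicInt.toZMod r') ^ 2 = (2 : ZMod p) := by
    have h5 : r' ^ 2 = 2 := by
      apply Subtype.ext
      rw [PadicInt.coe_pow, hr', hr, hc2]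
    rw [← map_pow, h5, map_ofNat]
  have hsym := sym16 h8 hrr
  have hu0 : (u : ZMod p) ≠ 0 := cast_ne.2 hu
  have h2z : (2 : ZMod p) ≠ 0 := by
    intro h0
    have h0' : ((2 : ℕ) : ZMod p) = 0 := by exact_mod_cast h0
    rw [ZMod.natCast_eq_zero_iff] at h0'
    exact h2 ((Nat.prime_dvd_prime_iff_eq hp.out Nat.prime_two).1 h0')
  have hne : 2 + PadicInt.toZMod r' ≠ 0 := by
    intro h0
    apply h2z
    have e : PadicInt.toZMod r' = -2 := by linear_combination h0
    rw [e] at hrr
    linear_combination hrr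
  have hsq : IsSquare ((u : ZMod p) * (2 + PadicInt.toZMod r')) := by
    have hne2 := mul_ne_zero hu0 hne
    by_cases h9 : p % 16 = 7 ∨ p % 16 = 9
    · have e1 : f16 p = 1 := by unfold f16; rw [if_pos h9]
      have e2 : ¬ IsSquare (2 + PadicInt.toZMod r') := by
        rw [hsym]
        omega
      have e3 : ¬ IsSquare (u : ZMod p) := by
        intro h10
        unfold ch at h
        rw [if_pos h10, e1] at h
        exact absurd h (by decide)
      rw [← quadraticChar_one_iff_isSquare hne2, map_mul,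
        quadraticChar_neg_one_iff_not_isSquare.2 e2, quadraticChar_neg_one_iff_not_isSquare.2 e3]
      norm_num
    · have e1 : f16 p = 0 := by unfold f16; rw [if_neg h9]
      have e2 : IsSquare (2 + PadicInt.toZMod r') := by
        rw [hsym]
        omega
      have e3 : IsSquare (u : ZMod p) := by
        by_contra h10
        unfold ch at h
        rw [if_neg h10, e1] at h
        exact absurd h (by decide)
      exact e3.mul e2
  obtain ⟨c, hc⟩ := hsq
  obtain ⟨n, rfl⟩ := ZMod.intCast_surjective c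
  have hn : ¬ (p : ℤ) ∣ n := by
    intro h3
    have h4 : (n : ZMod p) = 0 := (ZMod.intCast_zmod_eq_zero_iff_dvd n p).2 h3
    rw [h4, mul_zero] at hc
    exact mul_ne_zero hu0 hne hc
  have hn0 : (n : ℚ_[p]) ≠ 0 := by
    intro h0
    have : n = 0 := by exact_mod_cast h0
    exact hn (by rw [this]; exact dvd_zero _)
  have hlt : wv p (((u : ℚ_[p]) * (2 + r) - n * n) / (n * n)) < 1 := by
    have hnn : wv p ((n : ℚ_[p]) * n) = 1 := by rw [map_mul, w_one hn, mul_one]
    rw [map_div₀, hnn, div_one]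
    have e : (((u : ℤ_[p]) * (2 + r') - (n : ℤ_[p]) * (n : ℤ_[p]) : ℤ_[p]) : ℚ_[p]) =
        (u : ℚ_[p]) * (2 + r) - n * n := by
      push_cast
      rw [hr', hc2]
    rw [← e, w_lt_iff]
    have h4 : PadicInt.toZMod ((u : ℤ_[p]) * (2 + r') - (n : ℤ_[p]) * (n : ℤ_[p])) = 0 := by
      rw [map_sub, map_mul, map_mul, map_add, map_ofNat, map_intCast, map_intCast, hc, sub_self]
    rw [← RingHom.mem_ker, PadicInt.ker_toZMod, IsLocalRing.mem_maximalIdeal,
      PadicInt.mem_nonunits] at h4
    exact h4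
  obtain ⟨y, hy⟩ := hens h2 _ hlt
  refine ⟨y * n, ?_⟩
  rw [mul_pow, hy]
  field_simp
  ring

end

/-- the sum of the reciprocity laws -/
theorem sum_recip {m : ℕ} {T : Finset ℕ} (hT : T ⊆ SR m) {p : ℕ} (hpS : p ∈ SR m) :
    ∑ q ∈ T, nr q p = ∑ q ∈ T, nr p q + (∑ q ∈ T, e3 q) * e3 p + if p ∈ T then e3 p else 0 := by
  classical
  obtain ⟨hp, h8⟩ := mem_SR.1 hpS
  have hpp := Nat.prime_of_mem_primeFactors hp
  have hp2 : p ≠ 2 := by
    rintro rfl
    omega
  have h5 : ∀ q ∈ T, nr q p = nr p q + e3 q * e3 p + if q = p then e3 p else 0 := by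
    intro q hqT
    obtain ⟨hq, hq8⟩ := mem_SR.1 (hT hqT)
    have hqq := Nat.prime_of_mem_primeFactors hq
    have hq2 : q ≠ 2 := by
      rintro rfl
      omega
    by_cases hqp : q = p
    · rw [if_pos hqp, hqp, nr_self, e3_sq]
      linear_combination -add_self2 (e3 p)
    · rw [if_neg hqp, ← recip hpp hqq hp2 hq2 (Ne.symm hqp)]
      ring
  rw [sum_congr rfl h5, sum_add_distrib, sum_add_distrib, sum_mul, sum_ite_eq']

section

variable {m : ℕ}

/-- **the converse** -/
theorem convR (hm : Squarefree m) (hm2 : m % 2 = 1)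
    (hf : Finite (WF ℚ (-4 * m) (2 * m ^ 2)).toAffine.Point)
    (hs : ∀ x : Sha (WF ℚ (-4 * m) (2 * m ^ 2)), x + x = 0 → x = 0) : NsR m := by
  classical
  rw [NsR_tr]
  intro x hx
  by_contra hcon
  push Not at hcon
  obtain ⟨p0, hp0, hxp0⟩ := hcon
  have hm0 : m ≠ 0 := hm.ne_zero
  have hmz : (m : ℤ) ≠ 0 := by exact_mod_cast hm0
  have hmp : (0 : ℤ) < m := by exact_mod_cast Nat.pos_of_ne_zero hm0
  set T := (SR m).filter fun p => x p = 1 with hT
  have hTm : ∀ p ∈ T, p ∈ SR m ∧ x p = 1 := fun p hp => mem_filter.1 hp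
  have hTS : T ⊆ SR m := filter_subset _ _
  have hTmf : T ⊆ m.primeFactors := fun q hq => (mem_SR.1 (hTS hq)).1
  have hx1 : x p0 = 1 := (zmod2_cases (x p0)).resolve_left hxp0
  have hp0T : p0 ∈ T := mem_filter.2 ⟨hp0, hx1⟩
  have hpr : ∀ p ∈ T, p.Prime := fun p hp => Nat.prime_of_mem_primeFactors (hTmf hp)
  have h8T : ∀ q ∈ T, q % 8 = 1 ∨ q % 8 = 7 := fun q hq => (mem_SR.1 (hTS hq)).2
  set N : ℕ := ∏ p ∈ T, p with hN
  have hN0 : N ≠ 0 := prod_ne_zero_iff.2 fun p hp => (hpr p hp).ne_zero
  have hNz : (N : ℤ) ≠ 0 := by exact_mod_cast hN0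
  have hNp : (0 : ℤ) < N := by exact_mod_cast Nat.pos_of_ne_zero hN0
  have hNf : N.primeFactors = T := Nat.primeFactors_prod hpr
  have hNm : N ∣ m := by
    rw [hN, ← Nat.prod_primeFactors_of_squarefree hm]
    exact prod_dvd_prod_of_subset _ _ _ hTmf
  have hNsq : Squarefree N := hm.squarefree_of_dvd hNm
  have hN1 : 1 < N := by
    have h5 : p0 ∣ N := dvd_prod_of_mem _ hp0T
    exact lt_of_lt_of_le (hpr p0 hp0T).one_lt (Nat.le_of_dvd (Nat.pos_of_ne_zero hN0) h5)
  -- the number `d`
  obtain ⟨d, hd8, hdN, hsgd⟩ : ∃ d : ℤ, d % 8 = 1 ∧ (d = N ∨ d = -N) ∧ sg d = ∑ q ∈ T, e3 q := by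
    rcases prod8 h8T with ⟨h9, h10⟩ | ⟨h9, h10⟩
    · exact ⟨N, by rw [← hN] at h9; omega, Or.inl rfl, by rw [h10, sg_pos hNp]⟩
    · exact ⟨-N, by rw [← hN] at h9; omega, Or.inr rfl, by rw [h10, sg_neg (by omega)]⟩
  have hd0 : d ≠ 0 := by
    rcases hdN with h | h <;> rw [h]
    · exact hNz
    · exact neg_ne_zero.2 hNz
  have hlamd : ∀ p : ℕ, lam p d = ∑ q ∈ T, nr p q := by
    intro p
    have h5 : lam p (N : ℤ) = ∑ q ∈ T, nr p q := by
      rw [lam_eq_sum (S := T) fun q _ hq => vv_not_mem (by rw [hNf]; exact hq)]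
      exact sum_congr rfl fun q hq => by rw [vv_sqfree hNsq (by rw [hNf]; exact hq), one_mul]
    rcases hdN with h | h <;> rw [h]
    · exact h5
    · rw [lam_neg]
      exact h5
  have hdvd : ∀ p : ℕ, p.Prime → ((p : ℤ) ∣ d ↔ p ∈ T) := by
    intro p hpp
    have h5 : (p : ℤ) ∣ (N : ℤ) ↔ p ∈ T := by
      rw [← hNf, Nat.mem_primeFactors]
      constructor
      · intro h6
        exact ⟨hpp, by exact_mod_cast h6, hN0⟩
      · intro h6
        exact_mod_cast h6.2.1
    rcases hdN with h | h <;> rw [h]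
    · exact h5
    · rw [dvd_neg]
      exact h5
  have hsumx : ∀ p : ℕ, ∑ q ∈ SR m, x q * nr q p = ∑ q ∈ T, nr q p := by
    intro p
    rw [hT, sum_filter]
    refine sum_congr rfl fun q _ => ?_
    rcases zmod2_cases (x q) with h | h
    · rw [h, zero_mul, if_neg (by decide)]
    · rw [h, one_mul, if_pos rfl]
  have hb : (2 * m ^ 2 : ℤ) ≠ 0 := mul_ne_zero two_ne_zero (pow_ne_zero 2 hmz)
  have eab : (-4 * m : ℤ) ^ 2 - 4 * (2 * m ^ 2) = 2 ^ 3 * m ^ 2 := by ring
  have hab : (-4 * m : ℤ) ^ 2 - 4 * (2 * m ^ 2) ≠ 0 := by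
    rw [eab]
    exact mul_ne_zero (by norm_num) (pow_ne_zero 2 hmz)
  obtain ⟨lq1, lq2⟩ := Pool.Agent.Y971.SG.Lq.t_LQ (-4 * m) (2 * m ^ 2) d hb hab hd0
  have hloc : ∀ (p : ℕ) [Fact p.Prime], LocI ℚ_[p] (-4 * m) (2 * m ^ 2) d := by
    intro p hp
    have hpp : p.Prime := hp.out
    by_cases hp2 : p = 2
    · subst hp2
      exact lq1 2 (Or.inl (Pool.Agent.Y971.SG.Lq.padic_sq2 hd8))
    · by_cases hpS : p ∈ SR m
      · obtain ⟨hpf, h8⟩ := mem_SR.1 hpS
        have hxe := hx p hpS
        rw [hsumx] at hxe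
        have hrec := sum_recip hTS hpS
        by_cases hpT : p ∈ T
        · -- the root of the quadratic polynomial
          have hxp := (hTm p hpT).2
          rw [hxp, one_mul] at hxe
          rw [if_pos hpT] at hrec
          obtain ⟨m', hm'⟩ := Nat.dvd_of_mem_primeFactors hpf
          obtain ⟨d', hd'⟩ := (hdvd p hpp).2 hpT
          have hpz : (p : ℤ) ≠ 0 := by exact_mod_cast hpp.ne_zero
          have hmm : (m : ℤ) = p * m' := by rw [hm']; push_cast; ring
          have hpm' : ¬ (p : ℤ) ∣ m' := by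
            intro h
            have h4 : p ∣ m' := by exact_mod_cast h
            have h5 : p * p ∣ m := by
              rw [hm']
              exact mul_dvd_mul_left p h4
            exact hpp.not_isUnit (hm p h5)
          have hpd' : ¬ (p : ℤ) ∣ d' := by
            intro h
            have h5 : (p : ℤ) * p ∣ d := by
              rw [hd']
              exact mul_dvd_mul_left _ h
            have h6 : (p : ℤ) * p ∣ (N : ℤ) := by
              rcases hdN with h7 | h7
              · rwa [h7] at h5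
              · rw [h7, dvd_neg] at h5
                exact h5
            have h7 : p * p ∣ N := by exact_mod_cast h6
            exact hpp.not_isUnit (hNsq p h7)
          have hm'0 : (m' : ℤ) ≠ 0 := by
            intro h
            rw [h] at hpm'
            exact hpm' (dvd_zero _)
          have hd'0 : d' ≠ 0 := by
            intro h
            rw [h] at hpd'
            exact hpd' (dvd_zero _)
          have hu : ¬ (p : ℤ) ∣ -(m' * d') := by
            rw [dvd_neg]
            intro h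
            rcases (Int.Prime.dvd_mul' hpp h) with h | h
            · exact hpm' h
            · exact hpd' h
          have hu0 : (-(m' * d') : ℤ) ≠ 0 := neg_ne_zero.2 (mul_ne_zero hm'0 hd'0)
          have e1 : (-(m' * d') : ℤ) * p ^ 2 = -(m * d) := by
            rw [hmm, hd']
            ring
          have e2 : lam p (-(m' * d')) = lam p (m : ℤ) + lam p d := by
            have h5 := congrArg (lam p) e1
            rw [lam_mul p hu0 (pow_ne_zero 2 hpz), lam_sq p hpz, add_zero, lam_neg p (m * d),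
              lam_mul p hmz hd0] at h5
            exact h5
          have e3' : sg (-(m' * d')) = 1 + sg d := by
            have h5 := congrArg sg e1
            have hp2' : (0 : ℤ) < p ^ 2 := by positivity
            have e4 : -((m : ℤ) * d) = (-1) * (m * d) := by ring
            rw [sg_mul hu0 hp2'.ne', sg_pos hp2', add_zero, e4, sg_mul (by norm_num)
              (mul_ne_zero hmz hd0), sg_mul hmz hd0, sg_pos hmp, zero_add,
              sg_neg (A := -1) (by norm_num)] at h5
            exact h5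
          have hch : ch p (-(m' * d')) + f16 p = 0 := by
            rw [ch_unit hp2 hu, e2, e3', lam_m hm, hlamd, hsgd]
            rw [hrec] at hxe
            linear_combination hxe
          obtain ⟨r, hr⟩ := exists_r (p := p) h8
          obtain ⟨c, hc⟩ := theta_sq h8 hr hu hch
          have hdp : (d : ℚ_[p]) ≠ 0 := by exact_mod_cast hd0
          have hmp' : (m : ℚ_[p]) ≠ 0 := by exact_mod_cast hm0
          have h2r : (2 + r) ≠ 0 := by
            intro h
            have e : r = -2 := by linear_combination h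
            rw [e] at hr
            have h5 : (2 : ℚ_[p]) = 0 := by linear_combination hr
            exact two_ne_zero h5
          have hmd : (-(m * d) : ℚ_[p]) * (2 + r) = (c * p) ^ 2 := by
            have h5 : ((-(m' * d') : ℤ) : ℚ_[p]) * p ^ 2 = -(m * d) := by
              have h6 : ((-(m' * d') * p ^ 2 : ℤ) : ℚ_[p]) = ((-(m * d) : ℤ) : ℚ_[p]) := by rw [e1]
              push_cast at h6 ⊢
              exact h6
            rw [← h5, mul_pow, ← hc]
            ring
          refine ⟨-2 * m * (2 + r), 0, r * (c * p) / d, mul_ne_zero (mul_ne_zero (by norm_num) hmp')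
            h2r, ?_, ?_⟩
          · push_cast
            linear_combination (-(-2 * (m : ℚ_[p]) * (2 + r)) * 4 * (m : ℚ_[p]) ^ 2) * hr
          · rw [div_pow, mul_pow, hr, ← hmd]
            field_simp
        · refine lq1 p (Or.inl ?_)
          have hxp : x p = 0 := by
            rcases zmod2_cases (x p) with h | h
            · exact h
            · exact absurd (mem_filter.2 ⟨hpS, h⟩) hpT
          rw [hxp, zero_mul, add_zero, hrec, if_neg hpT, add_zero] at hxe
          have hpd : ¬ (p : ℤ) ∣ d := fun h => hpT ((hdvd p hpp).1 h)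
          refine Pool.Agent.Y971.SG.Lq.t_SQ p _ hp2 hpd (Fin.ch_zero_iff.1 ?_)
          rw [ch_unit hp2 hpd, hlamd, hsgd]
          exact hxe
      · have hpT : p ∉ T := fun h => hpS (hTS h)
        have hpd : ¬ (p : ℤ) ∣ d := fun h => hpT ((hdvd p hpp).1 h)
        by_cases hpm : p ∈ m.primeFactors
        · -- two is not a residue
          have h8 : ¬ (p % 8 = 1 ∨ p % 8 = 7) := fun h8 => hpS (mem_SR.2 ⟨hpm, h8⟩)
          have h2n : ¬ IsSquare (2 : ZMod p) := by
            rw [ZMod.exists_sq_eq_two_iff hp2]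
            exact h8
          by_cases h5 : IsSquare (d : ZMod p)
          · exact lq1 p (Or.inl (Pool.Agent.Y971.SG.Lq.t_SQ p _ hp2 hpd h5))
          · have hp2d : ¬ (p : ℤ) ∣ 2 * d := by
              intro h
              rcases (Int.Prime.dvd_mul' hpp h) with h | h
              · have := odd_nd hpp hp2 1
                rw [pow_one] at this
                exact this h
              · exact hpd h
            have hne : ((2 * d : ℤ) : ZMod p) ≠ 0 := cast_ne.2 hp2d
            have h6 : IsSquare ((2 * d : ℤ) : ZMod p) := by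
              rw [← quadraticChar_one_iff_isSquare hne, Int.cast_mul, map_mul, Int.cast_ofNat,
                quadraticChar_neg_one_iff_not_isSquare.2 h2n,
                quadraticChar_neg_one_iff_not_isSquare.2 h5]
              norm_num
            obtain ⟨t, ht⟩ := Pool.Agent.Y971.SG.Lq.t_SQ p _ hp2 hp2d h6
            refine lq1 p (Or.inr ⟨2 * m * t, ?_⟩)
            push_cast at ht ⊢
            linear_combination 4 * (m : ℚ_[p]) ^ 2 * ht
        · have h5 := fun i => nd8 hpp hp2 hm0 hpm i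
          refine good_p hb hab hd0 p hp2 ?_ ?_ hpd
          · have := h5 1
            rwa [pow_one] at this
          · rw [eab]
            exact h5 3
  have hmr : (0 : ℝ) < m := by exact_mod_cast Nat.pos_of_ne_zero hm0
  have hreal : LocI ℝ (-4 * m) (2 * m ^ 2) d := by
    rcases lt_or_gt_of_ne hd0 with h | h
    · have hdr : (d : ℝ) < 0 := by exact_mod_cast h
      have h32 : (0 : ℝ) ≤ 32 * m ^ 3 := by positivity
      have h4d : (0 : ℝ) ≤ -4 * m / d := by
        apply div_nonneg_of_nonpos <;> linarith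
      refine ⟨-4 * m, Real.sqrt (32 * m ^ 3), Real.sqrt (-4 * m / d), ?_, ?_, ?_⟩
      · exact mul_ne_zero (by norm_num) hmr.ne'
      · rw [Real.sq_sqrt h32]
        push_cast
        ring
      · rw [Real.sq_sqrt h4d]
        have := hdr.ne
        field_simp
    · exact lq2 h
  have hnsq : ∀ {n : ℕ}, Squarefree n → n ≠ 1 → ¬ IsSquare (n : ℚ) := by
    intro n hn hn1 h
    have h5 : IsSquare ((n : ℤ) : ℚ) := by rwa [Int.cast_natCast]
    rw [Rat.isSquare_intCast_iff] at h5
    obtain ⟨r, hr⟩ := h5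
    have h6 : n = r.natAbs * r.natAbs := by
      have := congrArg Int.natAbs hr
      rw [Int.natAbs_mul] at this
      exact this
    have h7 := Nat.isUnit_iff.1 (hn r.natAbs ⟨1, by rw [mul_one]; exact h6⟩)
    rw [h7] at h6
    exact hn1 h6
  have hN2 : N % 2 = 1 := by
    obtain ⟨k, hk⟩ := hNm
    rcases Nat.mod_two_eq_zero_or_one N with h | h
    · rw [hk, Nat.mul_mod, h, zero_mul] at hm2
      exact absurd hm2 (by norm_num)
    · exact h
  have hsq2N : Squarefree (2 * N) := by
    rw [Nat.squarefree_mul_iff]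
    exact ⟨(Nat.coprime_two_left).2 (Nat.odd_iff.2 hN2), Nat.prime_two.squarefree, hNsq⟩
  have hmq : (m : ℚ) ≠ 0 := by exact_mod_cast hm0
  have hmqp : (0 : ℚ) < m := by exact_mod_cast Nat.pos_of_ne_zero hm0
  have n20 : ¬ IsSquare ((2 : ℕ) : ℚ) := hnsq Nat.prime_two.squarefree (by norm_num)
  have nb : ¬ IsSquare ((2 * m ^ 2 : ℤ) : ℚ) := by
    rintro ⟨s, hs⟩
    apply n20
    refine ⟨s / m, ?_⟩
    push_cast at hs ⊢
    field_simp
    linear_combination hs
  have nab : ¬ IsSquare (((-4 * m : ℤ) : ℚ) ^ 2 - 4 * ((2 * m ^ 2 : ℤ) : ℚ)) := by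
    rintro ⟨s, hs⟩
    apply n20
    refine ⟨s / (2 * m), ?_⟩
    push_cast at hs ⊢
    field_simp
    linear_combination hs
  have n1 : ¬ IsSquare ((d : ℤ) : ℚ) := by
    rcases hdN with h | h
    · rw [h, Int.cast_natCast]
      exact hnsq hNsq hN1.ne'
    · rintro ⟨s, hs⟩
      have h5 : ((d : ℤ) : ℚ) < 0 := by
        rw [h]
        push_cast
        have : (0 : ℚ) < N := by exact_mod_cast Nat.pos_of_ne_zero hN0
        linarith
      nlinarith [mul_self_nonneg s]
  have n2 : ¬ IsSquare (((d : ℤ) : ℚ) * (((-4 * m : ℤ) : ℚ) ^ 2 - 4 * ((2 * m ^ 2 : ℤ) : ℚ))) := by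
    have hNq : (0 : ℚ) < N := by exact_mod_cast Nat.pos_of_ne_zero hN0
    rintro ⟨s, hs⟩
    rcases hdN with h | h
    · apply hnsq hsq2N (by omega)
      refine ⟨s / (2 * m), ?_⟩
      rw [h] at hs
      push_cast at hs ⊢
      field_simp
      linear_combination hs
    · rw [h] at hs
      push_cast at hs
      have h5 : (0 : ℚ) < N * m ^ 2 := by positivity
      nlinarith [mul_self_nonneg s]
  obtain ⟨y, hy0, hy2⟩ := exists_two hb hab nb nab hf hd0 hloc hreal n1 n2
  exact hy0 (hs y hy2)

end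

end Run7.h843.R
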