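import Pool.Agent.Run7.h843.N4
import Pool.Agent.Run7.h843.R9
import Pool.Agent.Run7.h843.R10

/-!
# The converse for `y² = x³ - 4 r m x² + 2 s² m² x`
-/

set_option autoImplicit false

open NumberField IsDedekindDomain

namespace Run7.h843.N

open Finset
open Pool.Agent.Y698.SG.Cv (LocI WF)
open Pool.Agent.TH841.NF.D (Sha)
open Pool.Agent.Y703.CQ (nr)
open Run7.h843.Desc Run7.h843.Sha Run7.h843.Conv Run7.h843.R

section

variable {p : ℕ} [hp : Fact p.Prime]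

theorem two_ne (h2 : p ≠ 2) : (2 : ZMod p) ≠ 0 := by
  intro h0
  have h0' : ((2 : ℕ) : ZMod p) = 0 := by exact_mod_cast h0
  rw [ZMod.natCast_eq_zero_iff] at h0'
  exact h2 ((Nat.prime_dvd_prime_iff_eq hp.out Nat.prime_two).1 h0')

/-- the squares are not closed under the addition of `c` -/
theorem exists_ns (h2 : p ≠ 2) {c : ZMod p} (hc : c ≠ 0) :
    ∃ z : ZMod p, ¬ IsSquare (z ^ 2 + c) := by
  by_contra hcon
  push Not at hcon
  have h : ∀ n : ℕ, IsSquare ((n : ZMod p) * c) := by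
    intro n
    induction n with
    | zero => rw [Nat.cast_zero, zero_mul]; exact IsSquare.zero
    | succ n ih =>
      obtain ⟨t, ht⟩ := ih
      have := hcon t
      have e : (((n + 1 : ℕ)) : ZMod p) * c = t ^ 2 + c := by
        push_cast
        linear_combination ht
      rw [e]
      exact this
  obtain ⟨a, ha⟩ := FiniteField.exists_nonsquare (F := ZMod p) (by
    rw [ZMod.ringChar_zmod_n]
    exact h2)
  apply ha
  have h3 := h (a / c).val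
  rw [ZMod.natCast_zmod_val, div_mul_cancel₀ _ hc] at h3
  exact h3

theorem ns_mul_ns {a b : ZMod p} (ha : ¬ IsSquare a) (hb : ¬ IsSquare b) : IsSquare (a * b) := by
  have h1 : a ≠ 0 := by
    rintro rfl
    exact ha IsSquare.zero
  have h2 : b ≠ 0 := by
    rintro rfl
    exact hb IsSquare.zero
  rw [← quadraticChar_one_iff_isSquare (mul_ne_zero h1 h2), map_mul,
    quadraticChar_neg_one_iff_not_isSquare.2 ha, quadraticChar_neg_one_iff_not_isSquare.2 hb]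
  norm_num

theorem s_mul_ns {a b : ZMod p} (ha : IsSquare a) (ha0 : a ≠ 0) (hb : ¬ IsSquare b) :
    ¬ IsSquare (a * b) := by
  rintro ⟨c, hc⟩
  apply hb
  obtain ⟨t, rfl⟩ := ha
  have ht : t ≠ 0 := by
    rintro rfl
    exact ha0 (mul_zero _)
  refine ⟨c / t, ?_⟩
  field_simp
  linear_combination hc

/-- the primes of `s` -/
theorem loc_s (h2 : p ≠ 2) {R S T m d : ℤ} (hrel : S ^ 2 + T ^ 2 = 2 * R ^ 2)
    (hS : (p : ℤ) ∣ S) (hns : ¬ IsSquare ((-(R * m) : ℤ) : ZMod p)) (hd : ¬ (p : ℤ) ∣ d)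
    (hdn : ¬ IsSquare (d : ZMod p)) : LocI ℚ_[p] (-4 * R * m) (2 * S ^ 2 * m ^ 2) d := by
  have h2z := two_ne h2
  have h8z : (-8 : ZMod p) ≠ 0 := by
    have : (-8 : ZMod p) = -(2 * 2 * 2) := by norm_num
    rw [this]
    exact neg_ne_zero.2 (mul_ne_zero (mul_ne_zero h2z h2z) h2z)
  obtain ⟨z0, hz0⟩ := exists_ns h2 h8z
  obtain ⟨z, rfl⟩ := ZMod.intCast_surjective z0
  have hS0 : (S : ZMod p) = 0 := (ZMod.intCast_zmod_eq_zero_iff_dvd S p).2 hS
  set X : ℤ := -4 * R * m + S * m * z with hX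
  have hXc : (X : ZMod p) = 2 ^ 2 * ((-(R * m) : ℤ) : ZMod p) := by
    rw [hX]
    push_cast
    rw [hS0]
    ring
  have hXn : ¬ IsSquare (X : ZMod p) := by
    rw [hXc]
    exact s_mul_ns ⟨2, by ring⟩ (pow_ne_zero 2 h2z) hns
  have hX0 : (X : ZMod p) ≠ 0 := by
    intro h
    rw [h] at hXn
    exact hXn IsSquare.zero
  have hXd : ¬ (p : ℤ) ∣ X := fun h => hX0 ((ZMod.intCast_zmod_eq_zero_iff_dvd X p).2 h)
  have hX1 : (X : ℚ_[p]) ≠ 0 := by
    intro h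
    have : X = 0 := by exact_mod_cast h
    rw [this] at hXd
    exact hXd (dvd_zero _)
  have hd1 : (d : ℚ_[p]) ≠ 0 := by
    intro h
    have : d = 0 := by exact_mod_cast h
    rw [this] at hd
    exact hd (dvd_zero _)
  have sq1 : IsSquare ((X * (z ^ 2 - 8) : ℤ) : ZMod p) := by
    have := ns_mul_ns hXn hz0
    have e : ((X * (z ^ 2 - 8) : ℤ) : ZMod p) = (X : ZMod p) * ((z : ZMod p) ^ 2 + -8) := by
      push_cast
      ring
    rw [e]
    exact this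
  have sq2 : IsSquare ((X * d : ℤ) : ZMod p) := by
    have := ns_mul_ns hXn hdn
    rw [Int.cast_mul]
    exact this
  have hz8 : ¬ (p : ℤ) ∣ z ^ 2 - 8 := by
    intro h
    have h5 := (ZMod.intCast_zmod_eq_zero_iff_dvd _ p).2 h
    apply hz0
    have e : (z : ZMod p) ^ 2 + -8 = ((z ^ 2 - 8 : ℤ) : ZMod p) := by push_cast; ring
    rw [e, h5]
    exact IsSquare.zero
  have hpi : Prime (p : ℤ) := Nat.prime_iff_prime_int.1 hp.out
  obtain ⟨e, he⟩ := Pool.Agent.Y971.SG.Lq.t_SQ p _ h2 (fun h => (hpi.dvd_or_dvd h).elim hXd hz8) sq1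
  obtain ⟨f, hf⟩ := Pool.Agent.Y971.SG.Lq.t_SQ p _ h2 (fun h => (hpi.dvd_or_dvd h).elim hXd hd) sq2
  have hrel' : (S : ℚ_[p]) ^ 2 + (T : ℚ_[p]) ^ 2 = 2 * (R : ℚ_[p]) ^ 2 := by
    have := congrArg (fun z : ℤ => (z : ℚ_[p])) hrel
    push_cast at this
    exact this
  refine ⟨X, S * m * e, f / d, hX1, ?_, ?_⟩
  · push_cast at he
    have hXe : (X : ℚ_[p]) = -4 * R * m + S * m * z := by rw [hX]; push_cast; ring
    have e1 : ((S : ℚ_[p]) * m * e) ^ 2 = (S * m) ^ 2 * (X * ((z : ℚ_[p]) ^ 2 - 8)) := by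
      rw [he]; ring
    rw [e1]
    push_cast
    rw [hXe]
    ring
  · push_cast at hf
    rw [div_pow]
    field_simp
    linear_combination hf

/-- the primes of `t` -/
theorem loc_t (h2 : p ≠ 2) {R S T m d : ℤ} (hrel : S ^ 2 + T ^ 2 = 2 * R ^ 2)
    (hT : (p : ℤ) ∣ T) (hT0 : T ≠ 0) (hnt : ¬ IsSquare ((R * m : ℤ) : ZMod p))
    (h2s : IsSquare (2 : ZMod p)) (hd : ¬ (p : ℤ) ∣ d)
    (hdn : ¬ IsSquare (d : ZMod p)) : LocI ℚ_[p] (-4 * R * m) (2 * S ^ 2 * m ^ 2) d := by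
  have h2z := two_ne h2
  have hpi : Prime (p : ℤ) := Nat.prime_iff_prime_int.1 hp.out
  obtain ⟨z0, hz0⟩ := exists_ns h2 (one_ne_zero (α := ZMod p))
  have hRm : ((R * m : ℤ) : ZMod p) ≠ 0 := by
    intro h
    rw [h] at hnt
    exact hnt IsSquare.zero
  have hRz : (R : ZMod p) ≠ 0 := by
    intro h
    apply hRm
    rw [Int.cast_mul, h, zero_mul]
  obtain ⟨k, hk⟩ := ZMod.intCast_surjective (z0 / (R : ZMod p))
  have hk1 : (R : ZMod p) ^ 2 * (k : ZMod p) ^ 2 = z0 ^ 2 := by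
    rw [hk]
    field_simp
  have hT' : (T : ZMod p) = 0 := (ZMod.intCast_zmod_eq_zero_iff_dvd T p).2 hT
  have hRmd : ¬ (p : ℤ) ∣ R * m := fun h => hRm ((ZMod.intCast_zmod_eq_zero_iff_dvd _ p).2 h)
  have hR0 : R ≠ 0 := by
    rintro rfl
    exact hRmd (by rw [zero_mul]; exact dvd_zero _)
  have hm0 : m ≠ 0 := by
    rintro rfl
    exact hRmd (by rw [mul_zero]; exact dvd_zero _)
  have hk0 : k ≠ 0 := by
    rintro rfl
    rw [Int.cast_zero, zero_pow two_ne_zero, mul_zero] at hk1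
    rw [← hk1, zero_add] at hz0
    exact hz0 IsSquare.one
  have sq1 : IsSquare ((R * m * (T ^ 2 * R ^ 2 * k ^ 4 + 8 * (R ^ 2 * k ^ 2 + 1)) : ℤ) : ZMod p) := by
    have h5 := ns_mul_ns hnt hz0
    have e : ((R * m * (T ^ 2 * R ^ 2 * k ^ 4 + 8 * (R ^ 2 * k ^ 2 + 1)) : ℤ) : ZMod p) =
        (2 * 2 ^ 2) * (((R * m : ℤ) : ZMod p) * (z0 ^ 2 + 1)) := by
      push_cast
      rw [hT', ← hk1]
      ring
    rw [e]
    exact (h2s.mul ⟨2, by ring⟩).mul h5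
  have hnz : ((R * m * (T ^ 2 * R ^ 2 * k ^ 4 + 8 * (R ^ 2 * k ^ 2 + 1)) : ℤ) : ZMod p) ≠ 0 := by
    have e : ((R * m * (T ^ 2 * R ^ 2 * k ^ 4 + 8 * (R ^ 2 * k ^ 2 + 1)) : ℤ) : ZMod p) =
        (2 * 2 ^ 2) * (((R * m : ℤ) : ZMod p) * (z0 ^ 2 + 1)) := by
      push_cast
      rw [hT', ← hk1]
      ring
    rw [e]
    refine mul_ne_zero (mul_ne_zero h2z (pow_ne_zero 2 h2z)) (mul_ne_zero hRm ?_)
    intro h
    rw [h] at hz0
    exact hz0 IsSquare.zero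
  have sq2 : IsSquare ((R * m * d : ℤ) : ZMod p) := by
    have := ns_mul_ns hnt hdn
    rw [Int.cast_mul (R * m)]
    exact this
  obtain ⟨e, he⟩ := Pool.Agent.Y971.SG.Lq.t_SQ p _ h2
    (fun h => hnz ((ZMod.intCast_zmod_eq_zero_iff_dvd _ p).2 h)) sq1
  obtain ⟨f, hf⟩ := Pool.Agent.Y971.SG.Lq.t_SQ p _ h2 (fun h => (hpi.dvd_or_dvd h).elim hRmd hd) sq2
  have hrel' : (S : ℚ_[p]) ^ 2 + (T : ℚ_[p]) ^ 2 = 2 * (R : ℚ_[p]) ^ 2 := by
    have := congrArg (fun z : ℤ => (z : ℚ_[p])) hrel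
    push_cast at this
    exact this
  have hd1 : (d : ℚ_[p]) ≠ 0 := by
    intro h
    have : d = 0 := by exact_mod_cast h
    rw [this] at hd
    exact hd (dvd_zero _)
  have hTp : (T : ℚ_[p]) ≠ 0 := by exact_mod_cast hT0
  have hRp : (R : ℚ_[p]) ≠ 0 := by exact_mod_cast hR0
  have hmp : (m : ℚ_[p]) ≠ 0 := by exact_mod_cast hm0
  have hkp : (k : ℚ_[p]) ≠ 0 := by exact_mod_cast hk0
  refine ⟨T ^ 2 * m * R * k ^ 2, T ^ 2 * m * k * e, T * k * f / d, ?_, ?_, ?_⟩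
  · exact mul_ne_zero (mul_ne_zero (mul_ne_zero (pow_ne_zero 2 hTp) hmp) hRp) (pow_ne_zero 2 hkp)
  · push_cast at he
    have e1 : ((T : ℚ_[p]) ^ 2 * m * k * e) ^ 2 = (T ^ 2 * m * k) ^ 2 *
        (R * m * (T ^ 2 * R ^ 2 * k ^ 4 + 8 * (R ^ 2 * k ^ 2 + 1))) := by
      rw [he]; ring
    rw [e1]
    push_cast
    linear_combination (8 * (m : ℚ_[p]) ^ 3 * T ^ 2 * R * k ^ 2) * hrel'
  · push_cast at hf
    rw [div_pow]
    field_simp
    linear_combination hf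

end

end Run7.h843.N
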