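import Pool.Agent.Run7.h843.N5

/-!
# The converse for `y² = x³ - 4 r m x² + 2 s² m² x`
-/

set_option autoImplicit false

open NumberField IsDedekindDomain

namespace Run7.h843.N

open Finset
open Pool.Agent.Y698.SG.Cv (LocI WF)
open Pool.Agent.TH841.NF.D (Sha)
open Pool.Agent.Y703.CQ (nr)
open Run7.h843.Desc Run7.h843.Sha Run7.h843.Conv Run7.h843.R

variable {u v : ℤ} {m : ℕ}

/-- **the converse** -/
theorem convN (huv : IsCoprime u v) (hpar : (u + v) % 2 = 1) (ha : Adm u v m)
    (hf : Finite (WF ℚ (-4 * rr u v * m) (2 * ss u v ^ 2 * m ^ 2)).toAffine.Point)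
    (hs : ∀ x : Sha (WF ℚ (-4 * rr u v * m) (2 * ss u v ^ 2 * m ^ 2)), x + x = 0 → x = 0) :
    NsR m := by
  classical
  have hm := ha.sq
  have hm2 := ha.odd
  rw [NsR_tr]
  intro x hx
  by_contra hcon
  push Not at hcon
  obtain ⟨p0, hp0, hxp0⟩ := hcon
  have hm0 : m ≠ 0 := hm.ne_zero
  have hmz : (m : ℤ) ≠ 0 := by exact_mod_cast hm0
  have hmp : (0 : ℤ) < m := by exact_mod_cast Nat.pos_of_ne_zero hm0
  have hR := rr_pos huv
  have hrel := rel u v
  have hs0 : ss u v ≠ 0 := by
    have := (par hpar).1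
    omega
  have ht0 : tt u v ≠ 0 := by
    have := (par hpar).2.1
    omega
  set T := (SR m).filter fun p => x p = 1 with hT
  have hTm : ∀ p ∈ T, p ∈ SR m ∧ x p = 1 := fun p hp => mem_filter.1 hp
  have hTS : T ⊆ SR m := filter_subset _ _
  have hTmf : T ⊆ m.primeFactors := fun q hq => (mem_SR.1 (hTS hq)).1
  have hx1 : x p0 = 1 := (zmod2_cases (x p0)).resolve_left hxp0
  have hp0T : p0 ∈ T := mem_filter.2 ⟨hp0, hx1⟩
  have hpr : ∀ p ∈ T, p.Prime := fun p hp => Nat.prime_of_mem_primeFactors (hTmf hp)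
  have h8T : ∀ q ∈ T, q % 8 = 1 ∨ q % 8 = 7 := fun q hq => (mem_SR.1 (hTS hq)).2
  set N : ℕ := ∏ p ∈ T, p with hN
  have hN0 : N ≠ 0 := prod_ne_zero_iff.2 fun p hp => (hpr p hp).ne_zero
  have hNz : (N : ℤ) ≠ 0 := by exact_mod_cast hN0
  have hNp : (0 : ℤ) < N := by exact_mod_cast Nat.pos_of_ne_zero hN0
  have hNf : N.primeFactors = T := Nat.primeFactors_prod hpr
  have hNm : N ∣ m := by
    rw [hN, ← Nat.prod_primeFactors_of_squarefree hm]
    exact prod_dvd_prod_of_subset _ _ _ hTmf
  have hNsq : Squarefree N := hm.squarefree_of_dvd hNm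
  have hN1 : 1 < N := by
    have h5 : p0 ∣ N := dvd_prod_of_mem _ hp0T
    exact lt_of_lt_of_le (hpr p0 hp0T).one_lt (Nat.le_of_dvd (Nat.pos_of_ne_zero hN0) h5)
  -- the number `d`
  obtain ⟨d, hd8, hdN, hsgd⟩ : ∃ d : ℤ, d % 8 = 1 ∧ (d = N ∨ d = -N) ∧ sg d = ∑ q ∈ T, e3 q := by
    rcases prod8 h8T with ⟨h9, h10⟩ | ⟨h9, h10⟩
    · exact ⟨N, by rw [← hN] at h9; omega, Or.inl rfl, by rw [h10, sg_pos hNp]⟩
    · exact ⟨-N, by rw [← hN] at h9; omega, Or.inr rfl, by rw [h10, sg_neg (by omega)]⟩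
  have hd0 : d ≠ 0 := by
    rcases hdN with h | h <;> rw [h]
    · exact hNz
    · exact neg_ne_zero.2 hNz
  have hlamd : ∀ p : ℕ, lam p d = ∑ q ∈ T, nr p q := by
    intro p
    have h5 : lam p (N : ℤ) = ∑ q ∈ T, nr p q := by
      rw [lam_eq_sum (S := T) fun q _ hq => vv_not_mem (by rw [hNf]; exact hq)]
      exact sum_congr rfl fun q hq => by rw [vv_sqfree hNsq (by rw [hNf]; exact hq), one_mul]
    rcases hdN with h | h <;> rw [h]
    · exact h5
    · rw [lam_neg]
      exact h5
  have hdvd : ∀ p : ℕ, p.Prime → ((p : ℤ) ∣ d ↔ p ∈ T) := by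
    intro p hpp
    have h5 : (p : ℤ) ∣ (N : ℤ) ↔ p ∈ T := by
      rw [← hNf, Nat.mem_primeFactors]
      constructor
      · intro h6
        exact ⟨hpp, by exact_mod_cast h6, hN0⟩
      · intro h6
        exact_mod_cast h6.2.1
    rcases hdN with h | h <;> rw [h]
    · exact h5
    · rw [dvd_neg]
      exact h5
  have hsumx : ∀ p : ℕ, ∑ q ∈ SR m, x q * nr q p = ∑ q ∈ T, nr q p := by
    intro p
    rw [hT, sum_filter]
    refine sum_congr rfl fun q _ => ?_
    rcases zmod2_cases (x q) with h | h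
    · rw [h, zero_mul, if_neg (by decide)]
    · rw [h, one_mul, if_pos rfl]
  have hb : (2 * ss u v ^ 2 * m ^ 2 : ℤ) ≠ 0 :=
    mul_ne_zero (mul_ne_zero two_ne_zero (pow_ne_zero 2 hs0)) (pow_ne_zero 2 hmz)
  have eab : (-4 * rr u v * m : ℤ) ^ 2 - 4 * (2 * ss u v ^ 2 * m ^ 2) =
      2 ^ 3 * m ^ 2 * tt u v ^ 2 := by
    linear_combination (-8 * (m : ℤ) ^ 2) * hrel
  have hab : (-4 * rr u v * m : ℤ) ^ 2 - 4 * (2 * ss u v ^ 2 * m ^ 2) ≠ 0 := by
    rw [eab]
    exact mul_ne_zero (mul_ne_zero (by norm_num) (pow_ne_zero 2 hmz)) (pow_ne_zero 2 ht0)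
  obtain ⟨lq1, lq2⟩ := Pool.Agent.Y971.SG.Lq.t_LQ (-4 * rr u v * m) (2 * ss u v ^ 2 * m ^ 2) d
    hb hab hd0
  have hloc : ∀ (p : ℕ) [Fact p.Prime],
      LocI ℚ_[p] (-4 * rr u v * m) (2 * ss u v ^ 2 * m ^ 2) d := by
    intro p hp
    have hpp : p.Prime := hp.out
    have hpi : Prime (p : ℤ) := Nat.prime_iff_prime_int.1 hpp
    have hrelp : (ss u v : ℚ_[p]) ^ 2 + (tt u v : ℚ_[p]) ^ 2 = 2 * (rr u v : ℚ_[p]) ^ 2 := by
      have := congrArg (fun z : ℤ => (z : ℚ_[p])) hrel
      push_cast at this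
      exact this
    by_cases hp2 : p = 2
    · subst hp2
      exact lq1 2 (Or.inl (Pool.Agent.Y971.SG.Lq.padic_sq2 hd8))
    · by_cases hpS : p ∈ SR m
      · obtain ⟨hpf, h8⟩ := mem_SR.1 hpS
        have hxe := hx p hpS
        rw [hsumx] at hxe
        have hrec := sum_recip hTS hpS
        by_cases hpT : p ∈ T
        · -- the root of the quadratic polynomial
          have hxp := (hTm p hpT).2
          rw [hxp, one_mul] at hxe
          rw [if_pos hpT] at hrec
          obtain ⟨m', hm'⟩ := Nat.dvd_of_mem_primeFactors hpf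
          obtain ⟨d', hd'⟩ := (hdvd p hpp).2 hpT
          have hpz : (p : ℤ) ≠ 0 := by exact_mod_cast hpp.ne_zero
          have hmm : (m : ℤ) = p * m' := by rw [hm']; push_cast; ring
          have hpm' : ¬ (p : ℤ) ∣ m' := by
            intro h
            have h4 : p ∣ m' := by exact_mod_cast h
            have h5 : p * p ∣ m := by
              rw [hm']
              exact mul_dvd_mul_left p h4
            exact hpp.not_isUnit (hm p h5)
          have hpd' : ¬ (p : ℤ) ∣ d' := by
            intro h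
            have h5 : (p : ℤ) * p ∣ d := by
              rw [hd']
              exact mul_dvd_mul_left _ h
            have h6 : (p : ℤ) * p ∣ (N : ℤ) := by
              rcases hdN with h7 | h7
              · rwa [h7] at h5
              · rw [h7, dvd_neg] at h5
                exact h5
            have h7 : p * p ∣ N := by exact_mod_cast h6
            exact hpp.not_isUnit (hNsq p h7)
          have hm'0 : (m' : ℤ) ≠ 0 := by
            intro h
            rw [h] at hpm'
            exact hpm' (dvd_zero _)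
          have hd'0 : d' ≠ 0 := by
            intro h
            rw [h] at hpd'
            exact hpd' (dvd_zero _)
          have hu : ¬ (p : ℤ) ∣ -(m' * d') := by
            rw [dvd_neg]
            intro h
            rcases (Int.Prime.dvd_mul' hpp h) with h | h
            · exact hpm' h
            · exact hpd' h
          have hu0 : (-(m' * d') : ℤ) ≠ 0 := neg_ne_zero.2 (mul_ne_zero hm'0 hd'0)
          have e1 : (-(m' * d') : ℤ) * p ^ 2 = -(m * d) := by
            rw [hmm, hd']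
            ring
          have e2 : lam p (-(m' * d')) = lam p (m : ℤ) + lam p d := by
            have h5 := congrArg (lam p) e1
            rw [lam_mul p hu0 (pow_ne_zero 2 hpz), lam_sq p hpz, add_zero, lam_neg p (m * d),
              lam_mul p hmz hd0] at h5
            exact h5
          have e3' : sg (-(m' * d')) = 1 + sg d := by
            have h5 := congrArg sg e1
            have hp2' : (0 : ℤ) < p ^ 2 := by positivity
            have e4 : -((m : ℤ) * d) = (-1) * (m * d) := by ring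
            rw [sg_mul hu0 hp2'.ne', sg_pos hp2', add_zero, e4, sg_mul (by norm_num)
              (mul_ne_zero hmz hd0), sg_mul hmz hd0, sg_pos hmp, zero_add,
              sg_neg (A := -1) (by norm_num)] at h5
            exact h5
          have hch : ch p (-(m' * d')) + f16 p = 0 := by
            rw [ch_unit hp2 hu, e2, e3', lam_m hm, hlamd, hsgd]
            rw [hrec] at hxe
            linear_combination hxe
          obtain ⟨r, hr⟩ := exists_r (p := p) h8
          obtain ⟨c, hc⟩ := theta_sq h8 hr hu hch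
          have hdp : (d : ℚ_[p]) ≠ 0 := by exact_mod_cast hd0
          have hmp' : (m : ℚ_[p]) ≠ 0 := by exact_mod_cast hm0
          have h2r : (2 + r) ≠ 0 := by
            intro h
            have e : r = -2 := by linear_combination h
            rw [e] at hr
            have h5 : (2 : ℚ_[p]) = 0 := by linear_combination hr
            exact two_ne_zero h5
          have hmd : (-(m * d) : ℚ_[p]) * (2 + r) = (c * p) ^ 2 := by
            have h5 : ((-(m' * d') : ℤ) : ℚ_[p]) * p ^ 2 = -(m * d) := by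
              have h6 : ((-(m' * d') * p ^ 2 : ℤ) : ℚ_[p]) = ((-(m * d) : ℤ) : ℚ_[p]) := by rw [e1]
              push_cast at h6 ⊢
              exact h6
            rw [← h5, mul_pow, ← hc]
            ring
          obtain ⟨rc1, rc2⟩ := root_class (p := p) (u := (u : ℚ_[p])) (v := (-v : ℚ_[p])) hr
          have hRe : (rr u v : ℚ_[p]) = u ^ 2 + v ^ 2 := by unfold rr; push_cast; ring
          have hSe : (ss u v : ℚ_[p]) = u ^ 2 - 2 * u * v - v ^ 2 := by unfold ss; push_cast; ring
          have hρ : 2 * (rr u v : ℚ_[p]) + ss u v * r = (2 + r) * (u + (1 - r) * v) ^ 2 := by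
            rw [hRe, hSe]
            linear_combination rc1
          have hS0p : (ss u v : ℚ_[p]) ≠ 0 := by exact_mod_cast hs0
          have hT0p : (tt u v : ℚ_[p]) ≠ 0 := by exact_mod_cast ht0
          have hρ0 : 2 * (rr u v : ℚ_[p]) + ss u v * r ≠ 0 := by
            intro h
            -- the product of the roots is `2 t²`
            have h5 : (2 * (rr u v : ℚ_[p]) + ss u v * r) * (2 * rr u v - ss u v * r) =
                2 * (tt u v : ℚ_[p]) ^ 2 := by
              linear_combination (-(ss u v : ℚ_[p]) ^ 2) * hr - 2 * hrelp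
            rw [h, zero_mul] at h5
            exact mul_ne_zero two_ne_zero (pow_ne_zero 2 hT0p) h5.symm
          refine ⟨-2 * m * (2 * rr u v + ss u v * r), 0,
            r * (c * p) * (u + (1 - r) * v) / d,
            mul_ne_zero (mul_ne_zero (by norm_num) hmp') hρ0, ?_, ?_⟩
          · push_cast
            have e5 : (-2 * (m : ℚ_[p]) * (2 * rr u v + ss u v * r)) ^ 2 -
                2 * (-4 * (rr u v : ℚ_[p]) * m) * (-2 * m * (2 * rr u v + ss u v * r)) +
                ((-4 * (rr u v : ℚ_[p]) * m) ^ 2 - 4 * (2 * (ss u v : ℚ_[p]) ^ 2 * m ^ 2)) = 0 := by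
              linear_combination (4 * (m : ℚ_[p]) ^ 2 * (ss u v : ℚ_[p]) ^ 2) * hr
            linear_combination (-(-2 * (m : ℚ_[p]) * (2 * rr u v + ss u v * r))) * e5
          · rw [div_pow, mul_pow, mul_pow, hr, ← hmd, hρ]
            field_simp
        · refine lq1 p (Or.inl ?_)
          have hxp : x p = 0 := by
            rcases zmod2_cases (x p) with h | h
            · exact h
            · exact absurd (mem_filter.2 ⟨hpS, h⟩) hpT
          rw [hxp, zero_mul, add_zero, hrec, if_neg hpT, add_zero] at hxe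
          have hpd : ¬ (p : ℤ) ∣ d := fun h => hpT ((hdvd p hpp).1 h)
          refine Pool.Agent.Y971.SG.Lq.t_SQ p _ hp2 hpd (Fin.ch_zero_iff.1 ?_)
          rw [ch_unit hp2 hpd, hlamd, hsgd]
          exact hxe
      · have hpT : p ∉ T := fun h => hpS (hTS h)
        have hpd : ¬ (p : ℤ) ∣ d := fun h => hpT ((hdvd p hpp).1 h)
        by_cases h5 : IsSquare (d : ZMod p)
        · exact lq1 p (Or.inl (Pool.Agent.Y971.SG.Lq.t_SQ p _ hp2 hpd h5))
        · by_cases hpm : p ∈ m.primeFactors
          · -- two is not a residue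
            have h8 : ¬ (p % 8 = 1 ∨ p % 8 = 7) := fun h8 => hpS (mem_SR.2 ⟨hpm, h8⟩)
            have h2n : ¬ IsSquare (2 : ZMod p) := by
              rw [ZMod.exists_sq_eq_two_iff hp2]
              exact h8
            have hp2d : ¬ (p : ℤ) ∣ 2 * d := by
              intro h
              rcases (Int.Prime.dvd_mul' hpp h) with h | h
              · have := odd_nd hpp hp2 1
                rw [pow_one] at this
                exact this h
              · exact hpd h
            have h6 : IsSquare ((2 * d : ℤ) : ZMod p) := by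
              rw [Int.cast_mul, Int.cast_ofNat]
              exact ns_mul_ns h2n h5
            obtain ⟨t, ht⟩ := Pool.Agent.Y971.SG.Lq.t_SQ p _ hp2 hp2d h6
            refine lq1 p (Or.inr ⟨2 * m * tt u v * t, ?_⟩)
            push_cast at ht ⊢
            linear_combination 4 * (m : ℚ_[p]) ^ 2 * (tt u v : ℚ_[p]) ^ 2 * ht -
              8 * (m : ℚ_[p]) ^ 2 * d * hrelp
          · by_cases hps : (p : ℤ) ∣ ss u v
            · exact loc_s hp2 hrel hps (ha.ns p hpp hps) hpd h5
            · by_cases hpt : (p : ℤ) ∣ tt u v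
              · exact loc_t hp2 hrel hpt ht0 (ha.nt p hpp hpt) (two_sq_st huv hp2 (Or.inr hpt))
                  hpd h5
              · refine good_p hb hab hd0 p hp2 ?_ ?_ hpd
                · intro h
                  have e : (2 * ss u v ^ 2 * m ^ 2 : ℤ) = 2 ^ 1 * m ^ 2 * ss u v ^ 2 := by ring
                  rw [e] at h
                  rcases hpi.dvd_or_dvd h with h | h
                  · exact nd8 hpp hp2 hm0 hpm 1 h
                  · exact hps (hpi.dvd_of_dvd_pow h)
                · rw [eab]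
                  intro h
                  rcases hpi.dvd_or_dvd h with h | h
                  · exact nd8 hpp hp2 hm0 hpm 3 h
                  · exact hpt (hpi.dvd_of_dvd_pow h)
  have hmr : (0 : ℝ) < m := by exact_mod_cast Nat.pos_of_ne_zero hm0
  have hRr : (0 : ℝ) < rr u v := by exact_mod_cast hR
  have hrelr : (ss u v : ℝ) ^ 2 + (tt u v : ℝ) ^ 2 = 2 * (rr u v : ℝ) ^ 2 := by
    have := congrArg (fun z : ℤ => (z : ℝ)) hrel
    push_cast at this
    exact this
  have hreal : LocI ℝ (-4 * rr u v * m) (2 * ss u v ^ 2 * m ^ 2) d := by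
    rcases lt_or_gt_of_ne hd0 with h | h
    · have hdr : (d : ℝ) < 0 := by exact_mod_cast h
      have h32 : (0 : ℝ) ≤ 32 * rr u v * ss u v ^ 2 * m ^ 3 := by positivity
      have hrm : (0 : ℝ) < rr u v * m := by positivity
      have h4d : (0 : ℝ) ≤ -4 * rr u v * m / d := by
        apply div_nonneg_of_nonpos
        · nlinarith
        · exact hdr.le
      refine ⟨-4 * rr u v * m, Real.sqrt (32 * rr u v * ss u v ^ 2 * m ^ 3),
        Real.sqrt (-4 * rr u v * m / d), ?_, ?_, ?_⟩
      · exact mul_ne_zero (mul_ne_zero (by norm_num) hRr.ne') hmr.ne'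
      · rw [Real.sq_sqrt h32]
        push_cast
        ring
      · rw [Real.sq_sqrt h4d]
        have := hdr.ne
        field_simp
    · exact lq2 h
  have hnsq : ∀ {n : ℕ}, Squarefree n → n ≠ 1 → ¬ IsSquare (n : ℚ) := by
    intro n hn hn1 h
    have h5 : IsSquare ((n : ℤ) : ℚ) := by rwa [Int.cast_natCast]
    rw [Rat.isSquare_intCast_iff] at h5
    obtain ⟨r, hr⟩ := h5
    have h6 : n = r.natAbs * r.natAbs := by
      have := congrArg Int.natAbs hr
      rw [Int.natAbs_mul] at this
      exact this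
    have h7 := Nat.isUnit_iff.1 (hn r.natAbs ⟨1, by rw [mul_one]; exact h6⟩)
    rw [h7] at h6
    exact hn1 h6
  have hN2 : N % 2 = 1 := by
    obtain ⟨k, hk⟩ := hNm
    rcases Nat.mod_two_eq_zero_or_one N with h | h
    · rw [hk, Nat.mul_mod, h, zero_mul] at hm2
      exact absurd hm2 (by norm_num)
    · exact h
  have hsq2N : Squarefree (2 * N) := by
    rw [Nat.squarefree_mul_iff]
    exact ⟨(Nat.coprime_two_left).2 (Nat.odd_iff.2 hN2), Nat.prime_two.squarefree, hNsq⟩
  have hmq : (m : ℚ) ≠ 0 := by exact_mod_cast hm0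
  have hsq : (ss u v : ℚ) ≠ 0 := by exact_mod_cast hs0
  have htq : (tt u v : ℚ) ≠ 0 := by exact_mod_cast ht0
  have hrelq : (ss u v : ℚ) ^ 2 + (tt u v : ℚ) ^ 2 = 2 * (rr u v : ℚ) ^ 2 := by
    have := congrArg (fun z : ℤ => (z : ℚ)) hrel
    push_cast at this
    exact this
  have hmqp : (0 : ℚ) < m := by exact_mod_cast Nat.pos_of_ne_zero hm0
  have n20 : ¬ IsSquare ((2 : ℕ) : ℚ) := hnsq Nat.prime_two.squarefree (by norm_num)
  have nb : ¬ IsSquare ((2 * ss u v ^ 2 * m ^ 2 : ℤ) : ℚ) := by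
    rintro ⟨s, hs⟩
    apply n20
    refine ⟨s / (ss u v * m), ?_⟩
    push_cast at hs ⊢
    field_simp
    linear_combination hs
  have nab : ¬ IsSquare (((-4 * rr u v * m : ℤ) : ℚ) ^ 2 -
      4 * ((2 * ss u v ^ 2 * m ^ 2 : ℤ) : ℚ)) := by
    rintro ⟨s, hs⟩
    apply n20
    refine ⟨s / (2 * tt u v * m), ?_⟩
    push_cast at hs ⊢
    field_simp
    linear_combination hs + (8 * (m : ℚ) ^ 2) * hrelq
  have n1 : ¬ IsSquare ((d : ℤ) : ℚ) := by
    rcases hdN with h | h
    · rw [h, Int.cast_natCast]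
      exact hnsq hNsq hN1.ne'
    · rintro ⟨s, hs⟩
      have h5 : ((d : ℤ) : ℚ) < 0 := by
        rw [h]
        push_cast
        have : (0 : ℚ) < N := by exact_mod_cast Nat.pos_of_ne_zero hN0
        linarith
      nlinarith [mul_self_nonneg s]
  have n2 : ¬ IsSquare (((d : ℤ) : ℚ) * (((-4 * rr u v * m : ℤ) : ℚ) ^ 2 -
      4 * ((2 * ss u v ^ 2 * m ^ 2 : ℤ) : ℚ))) := by
    have hNq : (0 : ℚ) < N := by exact_mod_cast Nat.pos_of_ne_zero hN0
    have e7 : (((-4 * rr u v * m : ℤ) : ℚ) ^ 2 - 4 * ((2 * ss u v ^ 2 * m ^ 2 : ℤ) : ℚ)) =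
        8 * (m : ℚ) ^ 2 * (tt u v : ℚ) ^ 2 := by
      push_cast
      linear_combination (-8 * (m : ℚ) ^ 2) * hrelq
    rw [e7]
    rintro ⟨s, hs⟩
    rcases hdN with h | h
    · apply hnsq hsq2N (by omega)
      refine ⟨s / (2 * tt u v * m), ?_⟩
      rw [h] at hs
      push_cast at hs ⊢
      field_simp
      linear_combination hs
    · rw [h] at hs
      push_cast at hs
      have h5 : (0 : ℚ) < N * m ^ 2 * (tt u v) ^ 2 := by positivity
      nlinarith [mul_self_nonneg s]
  obtain ⟨y, hy0, hy2⟩ := exists_two hb hab nb nab hf hd0 hloc hreal n1 n2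
  exact hy0 (hs y hy2)

theorem iffN (huv : IsCoprime u v) (hpar : (u + v) % 2 = 1) (ha : Adm u v m)
    {W : WeierstrassCurve ℚ} (hW : W = ⟨0, ((-4 * rr u v * (m : ℤ) : ℤ) : ℚ), 0,
      ((2 * ss u v ^ 2 * (m : ℤ) ^ 2 : ℤ) : ℚ), 0⟩) :
    (Finite W.toAffine.Point ∧ ∀ (n : ℕ) (x : Sha W), 2 ^ n • x = 0 → x = 0) ↔ NsR m := by
  have hW2 : W = WF ℚ (-4 * rr u v * m) (2 * ss u v ^ 2 * m ^ 2) := by
    rw [hW]
    unfold WF Pool.Agent.Y668.Wt
    simp
  constructor
  · rintro ⟨hf, hs⟩
    rw [hW2] at hf hs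
    refine convN huv hpar ha hf fun x hx => hs 1 x ?_
    rw [pow_one, two_smul, hx]
  · intro hk
    have hm0 : (m : ℚ) ≠ 0 := by exact_mod_cast ha.sq.ne_zero
    have hs0 : (ss u v : ℚ) ≠ 0 := by
      have := (par hpar).1
      have h : ss u v ≠ 0 := by omega
      exact_mod_cast h
    have ht0 : (tt u v : ℚ) ≠ 0 := by
      have := (par hpar).2.1
      have h : tt u v ≠ 0 := by omega
      exact_mod_cast h
    have hrelq : (ss u v : ℚ) ^ 2 + (tt u v : ℚ) ^ 2 = 2 * (rr u v : ℚ) ^ 2 := by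
      have := congrArg (fun z : ℤ => (z : ℚ)) (rel u v)
      push_cast at this
      exact this
    have hT : Pool.Agent.Y682.IsT W ((-4 * rr u v * (m : ℤ) : ℤ) : ℚ)
        ((2 * ss u v ^ 2 * (m : ℤ) ^ 2 : ℤ) : ℚ) := by
      rw [hW]
      refine ⟨rfl, rfl, rfl, rfl, rfl, ?_, ?_⟩
      · push_cast
        exact mul_ne_zero (mul_ne_zero two_ne_zero (pow_ne_zero 2 hs0)) (pow_ne_zero 2 hm0)
      · have e : (((-4 * rr u v * (m : ℤ) : ℤ) : ℚ)) ^ 2 -
            4 * ((2 * ss u v ^ 2 * (m : ℤ) ^ 2 : ℤ) : ℚ) =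
            8 * (tt u v : ℚ) ^ 2 * (m : ℚ) ^ 2 := by
          push_cast
          linear_combination (-8 * (m : ℚ) ^ 2) * hrelq
        rw [e]
        exact mul_ne_zero (mul_ne_zero (by norm_num) (pow_ne_zero 2 ht0)) (pow_ne_zero 2 hm0)
    obtain ⟨h1, h2⟩ := shaN huv hpar ha hk hT
    exact ⟨fin_of_rank hT h1, h2⟩

end Run7.h843.N
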