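import Pool.Agent.Run7.h843.Q1
import Pool.Agent.Run7.h843.B6

/-!
# The descent on `y² = x³ + 2 m x`: there is no rational point with `y ≠ 0`
-/

set_option autoImplicit false

namespace Run7.h843.Quart

open Pool.Agent.Y703.CQ (nr)
open Run7.h843.Desc

theorem odd_m {m : ℕ} (hm : Squarefree m) (h1 : ∀ p ∈ m.primeFactors, p % 4 = 1) : m % 2 = 1 := by
  by_contra hc
  have h2 : 2 ∣ m := by omega
  have := h1 2 (Nat.mem_primeFactors.2 ⟨Nat.prime_two, h2, hm.ne_zero⟩)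
  omega

/-- on `y² = x³ + 2 m x` -/
theorem sq_pos {m : ℕ} (hm : Squarefree m) (h1 : ∀ p ∈ m.primeFactors, p % 4 = 1) (hk : Nsg m)
    {x y : ℚ} (hy : y ≠ 0) (h : y ^ 2 = x ^ 3 + 2 * m * x) : IsSquare x ∨ IsSquare (2 * m * x) := by
  have h' : y ^ 2 = x ^ 3 + ((2 * m : ℤ) : ℚ) * x := by
    rw [h]
    push_cast
    ring
  obtain ⟨X, Z, Y, hZ, hxX, hc, hX, hU, hY⟩ := rep4 (2 * m) hy h'
  have hZq : (Z : ℚ) ≠ 0 := by exact_mod_cast hZ
  have hx : 0 < x := by
    by_contra hx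
    have hx' : x ≤ 0 := not_lt.1 hx
    have h5 : 0 < y ^ 2 := by positivity
    have h6 : x ^ 3 + 2 * m * x ≤ 0 := by
      have e : x ^ 3 + 2 * m * x = x * (x ^ 2 + 2 * m) := by ring
      rw [e]
      exact mul_nonpos_of_nonpos_of_nonneg hx' (by positivity)
    linarith
  have hXpos : 0 < X := by
    have h4 : (0 : ℚ) < X := by
      have h5 : (0 : ℚ) < (Z : ℚ) ^ 2 := by positivity
      rw [hxX] at hx
      exact (div_pos_iff_of_pos_right h5).1 hx
    exact_mod_cast h4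
  have e1 : 2 * (m : ℚ) * x = ((2 * m * X : ℤ) : ℚ) / (Z : ℚ) ^ 2 := by
    rw [hxX]
    push_cast
    ring
  rw [e1, hxX, isSquare_div hZ, isSquare_div hZ]
  have := sqs4 hm h1 hk (c := 2) (Or.inl rfl) hc hX hU hY
  rwa [abs_of_pos hXpos] at this

theorem no8 : ∀ W a : ZMod 8, 4 * a = 4 → W ^ 2 = -a ^ 4 → False := by decide

theorem no16 : ∀ W b Z : ZMod 16, 8 * Z = 8 → W ^ 2 = 8 * Z ^ 4 - 16 * b ^ 4 → False := by decide

theorem odd8 {a : ℤ} (h : a % 2 = 1) : 4 * (a : ZMod 8) = 4 := by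
  obtain ⟨k, hk⟩ : ∃ k, a = 2 * k + 1 := ⟨a / 2, by omega⟩
  have e : 4 * ((a : ℤ) : ZMod 8) = 8 * (k : ZMod 8) + 4 := by
    rw [hk]
    push_cast
    ring
  have h4 : (8 : ZMod 8) = 0 := by decide
  rw [e, h4, zero_mul, zero_add]

theorem odd16 {a : ℤ} (h : a % 2 = 1) : 8 * (a : ZMod 16) = 8 := by
  obtain ⟨k, hk⟩ : ∃ k, a = 2 * k + 1 := ⟨a / 2, by omega⟩
  have e : 8 * ((a : ℤ) : ZMod 16) = 16 * (k : ZMod 16) + 8 := by
    rw [hk]
    push_cast
    ring
  have h4 : (16 : ZMod 16) = 0 := by decide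
  rw [e, h4, zero_mul, zero_add]

/-- `W² = 8 m b⁴ - Z⁴` with `Z` odd is impossible -/
theorem imp1 {m W b Z : ℤ} (hZ : Z % 2 = 1) (h : W ^ 2 = 8 * m * b ^ 4 - Z ^ 4) : False := by
  have c := congrArg (fun z : ℤ => (z : ZMod 8)) h
  push_cast at c
  have h8 : (8 : ZMod 8) = 0 := by decide
  refine no8 (W : ZMod 8) (Z : ZMod 8) (odd8 hZ) ?_
  rw [c, h8]
  ring

/-- `W² = 8 m Z⁴ - a⁴` with coprime `a`, `Z` and odd `m` is impossible -/
theorem imp2 {m W a Z : ℤ} (hm : m % 2 = 1) (hc : IsCoprime a Z) (h : W ^ 2 = 8 * m * Z ^ 4 - a ^ 4) :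
    False := by
  by_cases ha : a % 2 = 1
  · exact imp1 ha h
  · have ha0 : (2 : ℤ) ∣ a := by omega
    obtain ⟨b, rfl⟩ := ha0
    have hZ : Z % 2 = 1 := by
      by_contra hZ
      have h2 : (2 : ℤ) ∣ Z := by omega
      exact Int.prime_two.not_isUnit (hc.isUnit_of_dvd' (dvd_mul_right 2 b) h2)
    have c := congrArg (fun z : ℤ => (z : ZMod 16)) h
    push_cast at c
    refine no16 (W : ZMod 16) (b : ZMod 16) (Z : ZMod 16) (odd16 hZ) ?_
    rw [c, odd16 hm]
    ring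

/-- on `y² = x³ - 8 m x` -/
theorem sq_neg {m : ℕ} (hm : Squarefree m) (h1 : ∀ p ∈ m.primeFactors, p % 4 = 1) (hk : Nsg m)
    {x y : ℚ} (hy : y ≠ 0) (h : y ^ 2 = x ^ 3 - 8 * m * x) :
    IsSquare x ∨ IsSquare (-(2 * m * x)) := by
  have hm2 := odd_m hm h1
  have hm2' : (m : ℤ) % 2 = 1 := by omega
  have hm0 : (m : ℤ) ≠ 0 := by
    have : m ≠ 0 := hm.ne_zero
    exact_mod_cast this
  have hmp : (0 : ℤ) < m := by
    have : 0 < m := Nat.pos_of_ne_zero hm.ne_zero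
    exact_mod_cast this
  have h' : y ^ 2 = x ^ 3 + ((-8 * m : ℤ) : ℚ) * x := by
    rw [h]
    push_cast
    ring
  obtain ⟨X, Z, Y, hZ, hxX, hc, hX, hU, hY⟩ := rep4 (-8 * m) hy h'
  have hZq : (Z : ℚ) ≠ 0 := by exact_mod_cast hZ
  have e1 : -(2 * (m : ℚ) * x) = ((-(2 * m * X) : ℤ) : ℚ) / (Z : ℚ) ^ 2 := by
    rw [hxX]
    push_cast
    ring
  have hY0 : Y ≠ 0 := by
    rintro rfl
    have := mul_ne_zero hX hU
    rw [hY] at this
    exact this (by norm_num)
  rw [e1, hxX, isSquare_div hZ, isSquare_div hZ]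
  rcases sqs4 hm h1 hk (c := -8) (Or.inr rfl) hc hX hU hY with hs | hs
  · left
    rcases lt_or_gt_of_ne hX with h0 | h0
    · exfalso
      rw [abs_of_neg h0] at hs
      obtain ⟨a, ha⟩ := hs
      have ha0 : a ≠ 0 := by
        rintro rfl
        omega
      have haq : (a : ℚ) ≠ 0 := by exact_mod_cast ha0
      have hXa : X = -a ^ 2 := by linear_combination -ha
      have hsq : IsSquare ((8 * m * Z ^ 4 - a ^ 4 : ℤ) : ℚ) := by
        refine ⟨Y / a, ?_⟩
        have e : (Y : ℚ) / a * (Y / a) = ((Y ^ 2 : ℤ) : ℚ) / a ^ 2 := by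
          push_cast
          field_simp
        rw [e, ← hY, hXa]
        push_cast
        field_simp
        ring
      rw [Rat.isSquare_intCast_iff] at hsq
      obtain ⟨W, hW⟩ := hsq
      refine imp2 hm2' (a := a) (Z := Z) (W := W) ?_ (by rw [sq, ← hW])
      rw [hXa] at hc
      have hc2 : IsCoprime (a ^ 2) Z := (IsCoprime.neg_left_iff _ _).1 hc
      exact (IsCoprime.pow_left_iff (by norm_num)).1 hc2
    · rwa [abs_of_pos h0] at hs
  · right
    rcases lt_or_gt_of_ne hX with h0 | h0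
    · rw [abs_of_neg h0] at hs
      rwa [mul_neg] at hs
    · exfalso
      rw [abs_of_pos h0] at hs
      obtain ⟨k, hk2⟩ := hs
      have h2m : Squarefree (2 * (m : ℤ)) := by
        have h5 : Squarefree (2 * m) := by
          rw [Nat.squarefree_mul_iff]
          refine ⟨?_, Nat.prime_two.squarefree, hm⟩
          rw [Nat.coprime_two_left, Nat.odd_iff]
          exact hm2
        have h6 : Squarefree ((2 * m : ℕ) : ℤ) := Int.squarefree_natCast.2 h5
        rwa [Nat.cast_mul, Nat.cast_ofNat] at h6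
      have h2m0 : (2 * (m : ℤ)) ≠ 0 := by positivity
      have hd : 2 * (m : ℤ) ∣ k := by
        rw [← h2m.dvd_pow_iff_dvd two_ne_zero, sq, ← hk2]
        exact dvd_mul_right _ _
      obtain ⟨b, rfl⟩ := hd
      have hXb : X = 2 * m * b ^ 2 := mul_left_cancel₀ h2m0 (by linear_combination hk2)
      have hb0 : b ≠ 0 := by
        rintro rfl
        apply hX
        rw [hXb]
        ring
      have hZ1 : Z % 2 = 1 := by
        by_contra hZ1
        have h2 : (2 : ℤ) ∣ Z := by omega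
        refine Int.prime_two.not_isUnit (hc.isUnit_of_dvd' ?_ h2)
        rw [hXb, mul_assoc]
        exact dvd_mul_right _ _
      -- `U = 2 m l²`
      have hYd : 2 * (m : ℤ) ∣ Y := by
        have h5 : 2 * (m : ℤ) ∣ Y ^ 2 := by
          rw [← hY, hXb]
          exact ⟨b ^ 2 * ((2 * m * b ^ 2) ^ 2 + -8 * m * Z ^ 4), by ring⟩
        exact (h2m.dvd_pow_iff_dvd two_ne_zero).1 h5
      obtain ⟨Y1, rfl⟩ := hYd
      have hq : b ^ 2 * (2 * m * b ^ 4 - 4 * Z ^ 4) = Y1 ^ 2 := by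
        refine mul_left_cancel₀ (mul_ne_zero h2m0 h2m0) ?_
        rw [hXb] at hY
        linear_combination hY
      have hbY : b ∣ Y1 := by
        have h5 : b ^ 2 ∣ Y1 ^ 2 := ⟨_, hq.symm⟩
        exact (Int.pow_dvd_pow_iff two_ne_zero).1 h5
      obtain ⟨l, rfl⟩ := hbY
      have hl : 2 * m * b ^ 4 - 4 * Z ^ 4 = l ^ 2 := by
        refine mul_left_cancel₀ (pow_ne_zero 2 hb0) ?_
        linear_combination hq
      have hl2 : (2 : ℤ) ∣ l := by
        have h5 : (2 : ℤ) ∣ l ^ 2 := ⟨m * b ^ 4 - 2 * Z ^ 4, by rw [← hl]; ring⟩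
        exact Int.prime_two.dvd_of_dvd_pow h5
      obtain ⟨w, rfl⟩ := hl2
      have hb2 : (2 : ℤ) ∣ b := by
        have h5 : (2 : ℤ) ∣ m * b ^ 4 := ⟨w ^ 2 + Z ^ 4,
          mul_left_cancel₀ (two_ne_zero) (by linear_combination hl)⟩
        rcases Int.prime_two.dvd_or_dvd h5 with h | h
        · omega
        · exact Int.prime_two.dvd_of_dvd_pow h
      obtain ⟨d, rfl⟩ := hb2
      refine imp1 (m := m) (W := w) (b := d) hZ1 (mul_left_cancel₀ (show (4 : ℤ) ≠ 0 by norm_num) ?_)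
      linear_combination -hl

end Run7.h843.Quart
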