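import Pool.Agent.Run7.h843.Q2

/-!
# The infinite descent on `y² = x³ + 2 m x`
-/

set_option autoImplicit false

namespace Run7.h843.Quart

open Pool.Agent.Y703.CQ (nr)
open Run7.h843.Desc

/-- doubling of the abscissa -/
noncomputable def dbl4 (N : ℚ) (x : ℚ) : ℚ := (x ^ 2 - N) ^ 2 / (4 * (x ^ 3 + N * x))

/-- the abscissae of the rational points with `y ≠ 0` -/
def XS4 (N : ℚ) : Set ℚ := {x | ∃ y : ℚ, y ≠ 0 ∧ y ^ 2 = x ^ 3 + N * x}

theorem XS4_ne {N x : ℚ} (hx : x ∈ XS4 N) : x ≠ 0 ∧ x ^ 2 + N ≠ 0 := by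
  obtain ⟨y, hy, h⟩ := hx
  have h0 : x * (x ^ 2 + N) ≠ 0 := by
    have e : x * (x ^ 2 + N) = y ^ 2 := by
      rw [h]
      ring
    rw [e]
    exact pow_ne_zero 2 hy
  exact ⟨left_ne_zero_of_mul h0, right_ne_zero_of_mul h0⟩

/-- translation by `(0, 0)` -/
theorem trans4 {N x : ℚ} (hN : N ≠ 0) (hx : x ∈ XS4 N) :
    N / x ∈ XS4 N ∧ dbl4 N (N / x) = dbl4 N x := by
  obtain ⟨h0, h1⟩ := XS4_ne hx
  obtain ⟨y, hy, h⟩ := hx
  have h4 : (N / x) ^ 3 + N * (N / x) = N ^ 2 * (x ^ 3 + N * x) / x ^ 4 := by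
    field_simp
    ring
  constructor
  · refine ⟨N * y / x ^ 2, by positivity, ?_⟩
    rw [h4, div_pow, mul_pow, h]
    field_simp
  · unfold dbl4
    have h3 : x ^ 3 + N * x ≠ 0 := by
      rw [← h]
      exact pow_ne_zero 2 hy
    rw [h4]
    field_simp
    ring

/-- halving -/
theorem half4 {N r k : ℚ} (hN : N ≠ 0) (hk : k ≠ 0) (hr : r ≠ 0)
    (h : k ^ 4 - 4 * k ^ 2 * r ^ 2 = 4 * N) : ∃ x' ∈ XS4 N, dbl4 N x' = r ^ 2 := by
  have hkr : k + 2 * r ≠ 0 := by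
    intro h1
    apply hN
    have h2 : k = -(2 * r) := by linear_combination h1
    rw [h2] at h
    linear_combination -(1 / 4) * h
  have e1 : (k * (k + 2 * r) / 2) ^ 2 + N = k ^ 2 * (k * (k + 2 * r) / 2) := by
    linear_combination -(1 / 4) * h
  have e2 : (k * (k + 2 * r) / 2) ^ 3 + N * (k * (k + 2 * r) / 2) =
      (k * (k * (k + 2 * r) / 2)) ^ 2 := by
    linear_combination (k * (k + 2 * r) / 2) * e1
  have hx0 : k * (k + 2 * r) / 2 ≠ 0 := div_ne_zero (mul_ne_zero hk hkr) two_ne_zero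
  refine ⟨k * (k + 2 * r) / 2, ⟨k * (k * (k + 2 * r) / 2), mul_ne_zero hk hx0, e2.symm⟩, ?_⟩
  unfold dbl4
  have e3 : (k * (k + 2 * r) / 2) ^ 2 - N = k * (k + 2 * r) / 2 * (2 * k * r) := by
    linear_combination (1 / 4) * h
  rw [e2, e3]
  field_simp
  norm_num

/-- every `dbl4 x` is `dbl4 (dbl4 x')` -/
theorem step4 {m : ℕ} (hm : Squarefree m) (h1 : ∀ p ∈ m.primeFactors, p % 4 = 1) (hk : Nsg m)
    {x : ℚ} (hx : x ∈ XS4 (2 * (m : ℚ))) :
    ∃ x' ∈ XS4 (2 * (m : ℚ)), dbl4 (2 * m) x = dbl4 (2 * m) (dbl4 (2 * m) x') := by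
  have hm0 : (m : ℚ) ≠ 0 := by exact_mod_cast hm.ne_zero
  have hN : 2 * (m : ℚ) ≠ 0 := mul_ne_zero two_ne_zero hm0
  -- the points with a square abscissa
  have A : ∀ x : ℚ, x ∈ XS4 (2 * (m : ℚ)) → IsSquare x →
      ∃ x' ∈ XS4 (2 * (m : ℚ)), dbl4 (2 * m) x = dbl4 (2 * m) (dbl4 (2 * m) x') := by
    intro x hx hsx
    obtain ⟨k0, k1⟩ := XS4_ne hx
    obtain ⟨y, hy, h⟩ := hx
    obtain ⟨r, hr⟩ := hsx
    have hr0 : r ≠ 0 := by
      rintro rfl
      exact k0 (by rw [hr]; ring)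
    have hs : (y / r) ^ 2 = r ^ 4 + 2 * m := by
      rw [div_pow, h, hr]
      field_simp
    set s := y / r with hsd
    set u := 2 * (r ^ 2 + s) with hu
    set u' := 2 * (r ^ 2 - s) with hu'
    have huu : u * u' = -(8 * m) := by
      rw [hu, hu']
      linear_combination -4 * hs
    have hu0 : u ≠ 0 := by
      intro h0
      rw [h0, zero_mul] at huu
      apply hm0
      linear_combination (1 / 8) * huu
    have hsum : u + u' = 4 * r ^ 2 := by
      rw [hu, hu']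
      ring
    have hE : (2 * r * u) ^ 2 = u ^ 3 - 8 * m * u := by
      linear_combination -u ^ 2 * hsum + u * huu
    have key : ∃ k : ℚ, k ≠ 0 ∧ k ^ 4 - 4 * k ^ 2 * r ^ 2 = 4 * (2 * m) := by
      rcases sq_neg hm h1 hk (mul_ne_zero (mul_ne_zero two_ne_zero hr0) hu0) hE with ⟨k, hk1⟩ | ⟨k, hk1⟩
      · refine ⟨k, ?_, ?_⟩
        · rintro rfl
          exact hu0 (by rw [hk1]; ring)
        · have e : k ^ 2 = u := by rw [hk1]; ring
          have e4 : k ^ 4 = u ^ 2 := by rw [← e]; ring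
          rw [e4, e]
          linear_combination u * hsum - huu
      · have hk0 : k ≠ 0 := by
          rintro rfl
          have : 2 * (m : ℚ) * u = 0 := by linear_combination -hk1
          exact mul_ne_zero hN hu0 this
        refine ⟨2 * k / u, div_ne_zero (mul_ne_zero two_ne_zero hk0) hu0, ?_⟩
        have e : (2 * k / u) ^ 2 = u' := by
          rw [div_pow, div_eq_iff (pow_ne_zero 2 hu0)]
          linear_combination -4 * hk1 - u * huu
        have e4 : (2 * k / u) ^ 4 = u' ^ 2 := by rw [← e]; ring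
        rw [e4, e]
        linear_combination u' * hsum - huu
    obtain ⟨k, hk0, hk1⟩ := key
    obtain ⟨x', hx', he⟩ := half4 hN hk0 hr0 hk1
    exact ⟨x', hx', by rw [he, hr, sq]⟩
  obtain ⟨y, hy, h⟩ := id hx
  rcases sq_pos hm h1 hk hy h with hs | ⟨u, hu⟩
  · exact A x hx hs
  · obtain ⟨t1, t2⟩ := trans4 hN hx
    have hx0 := (XS4_ne hx).1
    obtain ⟨x', hx', he⟩ := A _ t1 ⟨u / x, by
      rw [div_mul_div_comm, ← hu]
      field_simp⟩
    exact ⟨x', hx', by rw [← he, t2]⟩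

theorem mod4c : ∀ m : ZMod 4, 2 * m = 2 → ∀ W S D : ZMod 4, 2 * D = 2 →
    W ^ 4 + 2 * m * D ^ 4 = S ^ 2 → False := by decide

theorem val_w4 {m : ℕ} (hm : m % 2 = 1) {w s : ℚ} (h : w ^ 4 + 2 * m = s ^ 2) :
    padicValRat 2 w ≤ -1 := by
  have hD : w.den % 2 = 0 := by
    by_contra hD
    have hD1 : w.den % 2 = 1 := by omega
    have ew := Rat.mul_den_eq_num w
    have hsq : IsSquare ((w.num ^ 4 + 2 * m * w.den ^ 4 : ℤ) : ℚ) := by
      refine ⟨s * w.den ^ 2, ?_⟩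
      push_cast
      rw [← ew]
      linear_combination (w.den : ℚ) ^ 4 * h
    rw [Rat.isSquare_intCast_iff] at hsq
    obtain ⟨S, hS⟩ := hsq
    have c := congrArg (fun z : ℤ => (z : ZMod 4)) hS
    push_cast at c
    exact mod4c _ (two_mul_of_odd hm) _ (S : ZMod 4) _ (two_mul_of_odd hD1) (by rw [c]; ring)
  have h2 : (2 : ℕ) ∣ w.den := Nat.dvd_of_mod_eq_zero hD
  have hn : ¬ (2 : ℤ) ∣ w.num := by
    intro h3
    have h4 : (2 : ℕ) ∣ w.num.natAbs := Int.natCast_dvd.1 h3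
    have := Nat.dvd_gcd h4 h2
    rw [w.reduced] at this
    exact absurd this (by norm_num)
  rw [padicValRat_def, padicValInt.eq_zero_of_not_dvd hn]
  have h5 : 1 ≤ padicValNat 2 w.den := one_le_padicValNat_of_dvd w.den_nz h2
  have h6 : (1 : ℤ) ≤ (padicValNat 2 w.den : ℤ) := by exact_mod_cast h5
  push_cast
  linarith

theorem val_two1 : padicValRat 2 (2 : ℚ) = 1 := by
  have := padicValRat.self (p := 2) (by norm_num)
  exact_mod_cast this

theorem val_N {m : ℕ} (hm : m % 2 = 1) : padicValRat 2 (2 * (m : ℚ)) = 1 := by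
  have hm0 : (m : ℚ) ≠ 0 := by
    have : m ≠ 0 := by omega
    exact_mod_cast this
  rw [padicValRat.mul two_ne_zero hm0, val_two1, val_odd hm]
  norm_num

/-- the first valuation -/
theorem val_dbl4 {m : ℕ} (hm : m % 2 = 1) {x : ℚ} (hx : x ∈ XS4 (2 * (m : ℚ))) :
    padicValRat 2 (dbl4 (2 * m) x) ≤ -2 := by
  obtain ⟨k0, k1⟩ := XS4_ne hx
  obtain ⟨y, hy, h⟩ := hx
  have hw : dbl4 (2 * m) x = ((x ^ 2 - 2 * m) / (2 * y)) ^ 2 := by
    unfold dbl4
    rw [← h, div_pow, mul_pow]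
    norm_num
  have hs : ((x ^ 2 - 2 * (m : ℚ)) / (2 * y)) ^ 4 + 2 * m =
      ((x ^ 4 + 6 * (2 * m) * x ^ 2 + (2 * m) ^ 2) / (4 * y ^ 2)) ^ 2 := by
    have e : (2 : ℚ) * m = (2 * m) * (16 * (x ^ 3 + 2 * m * x) ^ 2) / (2 * y) ^ 4 := by
      rw [← h]
      field_simp
      ring
    have e4 : (4 * y ^ 2) ^ 2 = (2 * y) ^ 4 := by ring
    have e5 : (x ^ 2 - 2 * (m : ℚ)) ^ 4 / (2 * y) ^ 4 + 2 * m = (x ^ 2 - 2 * (m : ℚ)) ^ 4 / (2 * y) ^ 4 +
        (2 * m) * (16 * (x ^ 3 + 2 * m * x) ^ 2) / (2 * y) ^ 4 := by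
      rw [← e]
    rw [div_pow, div_pow, e4, e5, ← add_div]
    congr 1
    ring
  have h5 := val_w4 hm hs
  rw [hw, padicValRat.pow]
  push_cast
  linarith

/-- doubling lowers the valuation -/
theorem val_step4 {m : ℕ} (hm : m % 2 = 1) {x : ℚ} (hx : padicValRat 2 x ≤ -2) :
    padicValRat 2 (dbl4 (2 * m) x) = padicValRat 2 x - 2 := by
  have hm0 : (m : ℚ) ≠ 0 := by
    have : m ≠ 0 := by omega
    exact_mod_cast this
  have hx0 : x ≠ 0 := by
    rintro rfl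
    simp at hx
  have v4 := val_N hm
  have v2 : padicValRat 2 (x ^ 2) = 2 * padicValRat 2 x := by
    rw [padicValRat.pow]
    push_cast
    ring
  have hN0 : 2 * (m : ℚ) ≠ 0 := mul_ne_zero two_ne_zero hm0
  have hlt : padicValRat 2 (x ^ 2) < padicValRat 2 (2 * (m : ℚ)) := by
    rw [v4, v2]
    linarith
  have hp : x ^ 2 + 2 * (m : ℚ) ≠ 0 := by positivity
  have hq : x ^ 2 + -(2 * (m : ℚ)) ≠ 0 := by
    intro h
    have h1 : x ^ 2 = 2 * (m : ℚ) := by linear_combination h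
    rw [h1] at hlt
    exact lt_irrefl _ hlt
  have a1 : padicValRat 2 (x ^ 2 + 2 * (m : ℚ)) = 2 * padicValRat 2 x := by
    rw [padicValRat.add_eq_of_lt hp (by positivity) hN0 hlt, v2]
  have a2 : padicValRat 2 (x ^ 2 + -(2 * (m : ℚ))) = 2 * padicValRat 2 x := by
    rw [padicValRat.add_eq_of_lt hq (by positivity) (neg_ne_zero.2 hN0)
      (by rwa [padicValRat.neg]), v2]
  unfold dbl4
  have e : x ^ 3 + 2 * (m : ℚ) * x = x * (x ^ 2 + 2 * (m : ℚ)) := by ring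
  rw [e, sub_eq_add_neg, padicValRat.div (pow_ne_zero 2 hq)
    (mul_ne_zero (by norm_num) (mul_ne_zero hx0 hp)),
    padicValRat.pow, padicValRat.mul (by norm_num) (mul_ne_zero hx0 hp),
    padicValRat.mul hx0 hp, a1, a2, val_two]
  push_cast
  ring

/-- `y² = x³ + 2 m x` has no rational point with `y ≠ 0` -/
theorem no_points4 {m : ℕ} (hm : Squarefree m) (h1 : ∀ p ∈ m.primeFactors, p % 4 = 1)
    (hk : Nsg m) {x y : ℚ} (h : y ^ 2 = x ^ 3 + 2 * m * x) : y = 0 := by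
  by_contra hy
  have hm2 := odd_m hm h1
  have key : ∀ k : ℕ, ∀ x : ℚ, x ∈ XS4 (2 * (m : ℚ)) →
      padicValRat 2 (dbl4 (2 * m) x) ≤ -2 - 2 * k := by
    intro k
    induction k with
    | zero =>
      intro x hx
      have := val_dbl4 hm2 hx
      push_cast
      linarith
    | succ k ih =>
      intro x hx
      obtain ⟨x', hx', he⟩ := step4 hm h1 hk hx
      have h5 := ih x' hx'
      have h6 := val_dbl4 hm2 hx'
      rw [he, val_step4 hm2 h6]
      push_cast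
      linarith
  have h7 := key (padicValRat 2 (dbl4 (2 * m) x)).natAbs x ⟨y, hy, h⟩
  omega

end Run7.h843.Quart
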