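import Mathlib
import Pool.Agent.Run7.h843.S6
import Pool.Agent.Run7.h843.F2

/-!
# The 2-primary part of Sha for all the good numbers
-/

set_option autoImplicit false

attribute [-instance] DivisionRing.toRatAlgebra

namespace Run7.h843.Sha

open Pool.Agent.Y682 (IsT MP)
open Run7.h843.Desc Run7.h843.Fin Run7.h238.Pairs
open Run7.h843.Cnt (Gd6)

theorem sha_n {n : ℕ} (h : Okn n) (hG : Gd6 (oddP n)) {W : WeierstrassCurve ℚ}
    (hT : IsT W 0 (-(2 * (n : ℚ)) ^ 2)) (k : ℕ) (x : Pool.Agent.TH841.NF.D.Sha W)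
    (hx : 2 ^ k • x = 0) : x = 0 := by
  obtain ⟨h1, h2⟩ := decomp h.ne
  have hk : Nsg (sf n) := by
    have : Gd6 (sf n).primeFactors := by rw [sf_pf]; exact hG
    exact this
  have hg : (gg n : ℚ) ≠ 0 := by exact_mod_cast h1
  have h6 : (n : ℚ) = (gg n : ℚ) ^ 2 * (sf n : ℚ) := by exact_mod_cast h2
  have e : (-(2 * (n : ℚ)) ^ 2) = ((-4 * (sf n : ℕ) ^ 2 : ℤ) : ℚ) * (gg n : ℚ) ^ 4 := by
    rw [h6]
    push_cast
    ring
  rw [e] at hT
  exact (shaE sf_sq (four h) hk hg hT).2 k x hx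

end Run7.h843.Sha
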