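import Pool.Agent.Run7.h843.V1
import Pool.Agent.Run7.h843.F1
import Pool.Agent.Run7.h843.Q1

/-!
# The converse for `y² = x³ + 2 m x`
-/

set_option autoImplicit false

open NumberField IsDedekindDomain

namespace Run7.h843.Conv

open Finset
open Pool.Agent.Y698.SG.Cv (LocI WF)
open Pool.Agent.TH841.NF.D (Sha)
open Pool.Agent.Y703.CQ (nr)
open Run7.h843.Desc

theorem nr_symm {p q : ℕ} (hp : p.Prime) (hp1 : p % 4 = 1) (hq : q.Prime) (hq2 : q ≠ 2) :
    nr p q = nr q p := by
  classical
  have : Fact p.Prime := ⟨hp⟩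
  have : Fact q.Prime := ⟨hq⟩
  unfold nr
  have h := ZMod.exists_sq_eq_prime_iff_of_mod_four_eq_one (p := p) (q := q) hp1 hq2
  by_cases h1 : IsSquare (q : ZMod p)
  · rw [if_pos h1, if_pos (h.1 h1)]
  · rw [if_neg h1, if_neg fun h2 => h1 (h.2 h2)]

section

variable {m : ℕ}

/-- the class modulo eight of a product of primes `1` modulo `4` -/
theorem mod8 {T : Finset ℕ} (h : ∀ p ∈ T, p % 4 = 1) :
    ((∏ p ∈ T, p) % 8 = 1 ∧ ∑ p ∈ T, f2 p = 0) ∨ ((∏ p ∈ T, p) % 8 = 5 ∧ ∑ p ∈ T, f2 p = 1) := by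
  classical
  induction T using Finset.induction_on with
  | empty => simp
  | insert a s ha ih =>
    have h1 := ih fun p hp => h p (mem_insert_of_mem hp)
    have h2 := h a (mem_insert_self a s)
    rw [prod_insert ha, sum_insert ha, Nat.mul_mod]
    have h3 : a % 8 = 1 ∨ a % 8 = 5 := by omega
    unfold f2
    have e : (1 : ZMod 2) + 1 = 0 := by decide
    rcases h1 with ⟨h4, h5⟩ | ⟨h4, h5⟩ <;> unfold f2 at h5 <;> rcases h3 with h6 | h6 <;>
      simp [h4, h5, h6, e]

/-- the sum of the equations of the kernel -/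
theorem sum_f2 (h1 : ∀ p ∈ m.primeFactors, p % 4 = 1)
    {x : ℕ → ZMod 2} (hx : ∀ p ∈ m.primeFactors,
      ∑ q ∈ m.primeFactors, nr p q * (x q + x p) + f2 p * x p = 0) :
    ∑ p ∈ m.primeFactors, f2 p * x p = 0 := by
  have h2 : ∑ p ∈ m.primeFactors,
      (∑ q ∈ m.primeFactors, nr p q * (x q + x p) + f2 p * x p) = 0 :=
    sum_eq_zero hx
  rw [sum_add_distrib] at h2
  have h3 : ∑ p ∈ m.primeFactors, ∑ q ∈ m.primeFactors, nr p q * (x q + x p) = 0 := by
    have h4 : ∑ p ∈ m.primeFactors, ∑ q ∈ m.primeFactors, nr p q * (x q + x p) =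
        ∑ p ∈ m.primeFactors, ∑ q ∈ m.primeFactors, nr p q * x q +
        ∑ p ∈ m.primeFactors, ∑ q ∈ m.primeFactors, nr p q * x p := by
      rw [← sum_add_distrib]
      refine sum_congr rfl fun p _ => ?_
      rw [← sum_add_distrib]
      exact sum_congr rfl fun q _ => by ring
    have h5 : ∑ p ∈ m.primeFactors, ∑ q ∈ m.primeFactors, nr p q * x p =
        ∑ p ∈ m.primeFactors, ∑ q ∈ m.primeFactors, nr p q * x q := by
      rw [sum_comm]
      refine sum_congr rfl fun p hp => sum_congr rfl fun q hq => ?_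
      have hpp := Nat.prime_of_mem_primeFactors hp
      have hqq := Nat.prime_of_mem_primeFactors hq
      have hp2 : p ≠ 2 := by
        rintro rfl
        have := h1 2 hp
        omega
      rw [nr_symm hqq (h1 q hq) hpp hp2]
    rw [h4, h5]
    exact add_self2 _
  rw [h3, zero_add] at h2
  exact h2

/-- **the converse for `y² = x³ + 2 m x`** -/
theorem convC (hm : Squarefree m) (h1 : ∀ p ∈ m.primeFactors, p % 4 = 1)
    (hf : Finite (WF ℚ 0 (2 * m)).toAffine.Point)
    (hs : ∀ x : Sha (WF ℚ 0 (2 * m)), x + x = 0 → x = 0) : Nsg m := by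
  classical
  intro x hx
  by_contra hcon
  push Not at hcon
  obtain ⟨p0, hp0, hxp0⟩ := hcon
  have hm0 : m ≠ 0 := hm.ne_zero
  have hmz : (m : ℤ) ≠ 0 := by exact_mod_cast hm0
  set T := m.primeFactors.filter fun p => x p = 1 with hT
  have hTm : ∀ p ∈ T, p ∈ m.primeFactors ∧ x p = 1 := fun p hp => mem_filter.1 hp
  have hx1 : x p0 = 1 := (zmod2_cases (x p0)).resolve_left hxp0
  have hp0T : p0 ∈ T := mem_filter.2 ⟨hp0, hx1⟩
  have hpr : ∀ p ∈ T, p.Prime := fun p hp => Nat.prime_of_mem_primeFactors (hTm p hp).1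
  have h4 : ∀ p ∈ T, p % 4 = 1 := fun p hp => h1 p (hTm p hp).1
  set d : ℕ := ∏ p ∈ T, p with hd
  set e : ℕ := ∏ p ∈ m.primeFactors \ T, p with he
  have hde : d * e = m := by
    rw [hd, he, mul_comm, prod_sdiff (filter_subset _ _)]
    exact Nat.prod_primeFactors_of_squarefree hm
  have hd0 : d ≠ 0 := prod_ne_zero_iff.2 fun p hp => (hpr p hp).ne_zero
  have hdz : (d : ℤ) ≠ 0 := by exact_mod_cast hd0
  have hdf : d.primeFactors = T := Nat.primeFactors_prod hpr
  have hprE : ∀ p ∈ m.primeFactors \ T, p.Prime := fun p hp =>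
    Nat.prime_of_mem_primeFactors (mem_sdiff.1 hp).1
  have hef : e.primeFactors = m.primeFactors \ T := Nat.primeFactors_prod hprE
  have hdsq : Squarefree d := hm.squarefree_of_dvd ⟨e, hde.symm⟩
  have hesq : Squarefree e := hm.squarefree_of_dvd ⟨d, by rw [mul_comm]; exact hde.symm⟩
  have he0 : e ≠ 0 := hesq.ne_zero
  have hez : (e : ℤ) ≠ 0 := by exact_mod_cast he0
  -- modulo eight
  have h8 : (d : ℤ) % 8 = 1 := by
    have h5 := sum_f2 h1 hx
    have h6 : ∑ p ∈ m.primeFactors, f2 p * x p = ∑ p ∈ T, f2 p := by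
      rw [hT, sum_filter]
      refine sum_congr rfl fun p _ => ?_
      rcases zmod2_cases (x p) with h | h
      · rw [h, mul_zero, if_neg (by decide)]
      · rw [h, mul_one, if_pos rfl]
    rw [h6] at h5
    rcases mod8 h4 with h7 | h7
    · have := h7.1
      rw [← hd] at this
      omega
    · rw [h7.2] at h5
      exact absurd h5 (by decide)
  have hb : (2 * m : ℤ) ≠ 0 := mul_ne_zero two_ne_zero hmz
  have hab : (0 : ℤ) ^ 2 - 4 * (2 * m) ≠ 0 := by
    have : (0 : ℤ) ^ 2 - 4 * (2 * m) = -(8 * m) := by ring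
    rw [this]
    exact neg_ne_zero.2 (mul_ne_zero (by norm_num) hmz)
  obtain ⟨lq1, lq2⟩ := Pool.Agent.Y971.SG.Lq.t_LQ 0 (2 * m) d hb hab hdz
  have hnd : ∀ q : ℕ, q.Prime → q ≠ 2 → ¬ q ∣ m → ¬ (q : ℤ) ∣ 2 * m := by
    intro q hq h2 hqm h
    have h3 : q ∣ 2 * m := by exact_mod_cast h
    rcases hq.dvd_mul.1 h3 with h5 | h5
    · exact h2 ((Nat.prime_dvd_prime_iff_eq hq Nat.prime_two).1 h5)
    · exact hqm h5
  have hloc : ∀ (p : ℕ) [Fact p.Prime], LocI ℚ_[p] 0 (2 * m) d := by
    intro p hp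
    have hpp : p.Prime := hp.out
    by_cases hp2 : p = 2
    · subst hp2
      exact lq1 2 (Or.inl (Pool.Agent.Y971.SG.Lq.padic_sq2 h8))
    · by_cases hpm : p ∣ m
      · have hpf : p ∈ m.primeFactors := Nat.mem_primeFactors.2 ⟨hpp, hpm, hm0⟩
        have hp4 := h1 p hpf
        have hxe := hx p hpf
        by_cases hpT : p ∈ T
        · -- `-2 e` is a square
          refine lq1 p (Or.inr ?_)
          have hxp := (hTm p hpT).2
          have hpe : ¬ p ∣ e := by
            intro h
            have : p ∈ e.primeFactors := Nat.mem_primeFactors.2 ⟨hpp, h, he0⟩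
            rw [hef] at this
            exact (mem_sdiff.1 this).2 hpT
          have h5 : ch p (e : ℤ) = ∑ q ∈ m.primeFactors \ T, nr p q := by
            rw [Fin.ch_prod hp4 hesq hpe, hef]
          have h6 : ∑ q ∈ m.primeFactors, nr p q * (x q + x p) = ∑ q ∈ m.primeFactors \ T, nr p q := by
            rw [← sum_sdiff (filter_subset (fun p => x p = 1) m.primeFactors), ← hT]
            have h7 : ∑ q ∈ T, nr p q * (x q + x p) = 0 := by
              refine sum_eq_zero fun q hq => ?_
              rw [(hTm q hq).2, hxp]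
              have : (1 : ZMod 2) + 1 = 0 := by decide
              rw [this, mul_zero]
            rw [h7, add_zero]
            refine sum_congr rfl fun q hq => ?_
            have h8 : x q = 0 := by
              rcases zmod2_cases (x q) with h | h
              · exact h
              · exact absurd (mem_filter.2 ⟨(mem_sdiff.1 hq).1, h⟩) (mem_sdiff.1 hq).2
            rw [h8, hxp, zero_add, mul_one]
          rw [h6, hxp, mul_one] at hxe
          have h2p : ¬ (p : ℤ) ∣ 2 := by
            intro h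
            have h' : p ∣ 2 := by exact_mod_cast h
            exact hp2 ((Nat.prime_dvd_prime_iff_eq hpp Nat.prime_two).1 h')
          have hpez : ¬ (p : ℤ) ∣ e := by exact_mod_cast hpe
          have h7 : ch p (2 * e : ℤ) = 0 := by
            rw [ch_mul (cast_ne.2 h2p) (cast_ne.2 hpez), ch_two hp4, h5, add_comm]
            exact hxe
          have h8 : IsSquare ((-(2 * e) : ℤ) : ZMod p) := by
            rw [← Fin.ch_zero_iff, ch_neg hp4, h7]
          have h9 : ¬ (p : ℤ) ∣ -(2 * e) := by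
            rw [dvd_neg]
            intro h
            rcases (Int.Prime.dvd_mul' hpp h) with h | h
            · exact h2p h
            · exact hpez h
          obtain ⟨t, ht⟩ := Pool.Agent.Y971.SG.Lq.t_SQ p _ hp2 h9 h8
          refine ⟨2 * d * t, ?_⟩
          have hmm : (m : ℚ_[p]) = d * e := by
            rw [← hde]
            push_cast
            rfl
          push_cast at ht ⊢
          rw [hmm]
          linear_combination 4 * (d : ℚ_[p]) ^ 2 * ht
        · refine lq1 p (Or.inl ?_)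
          have hxp : x p = 0 := by
            rcases zmod2_cases (x p) with h | h
            · exact h
            · exact absurd (mem_filter.2 ⟨hpf, h⟩) hpT
          have hpd : ¬ p ∣ d := by
            intro h
            have : p ∈ d.primeFactors := Nat.mem_primeFactors.2 ⟨hpp, h, hd0⟩
            rw [hdf] at this
            exact hpT this
          have h5 : ch p (d : ℤ) = ∑ q ∈ T, nr p q := by
            rw [Fin.ch_prod hp4 hdsq hpd, hdf]
          have h6 : ∑ q ∈ m.primeFactors, nr p q * (x q + x p) = ∑ q ∈ T, nr p q := by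
            rw [hT, sum_filter]
            refine sum_congr rfl fun q hq => ?_
            rw [hxp, add_zero]
            rcases zmod2_cases (x q) with h | h
            · rw [h, mul_zero, if_neg (by decide)]
            · rw [h, mul_one, if_pos rfl]
          rw [h6, hxp, mul_zero, add_zero, ← h5] at hxe
          have hpdz : ¬ (p : ℤ) ∣ d := by exact_mod_cast hpd
          exact Pool.Agent.Y971.SG.Lq.t_SQ p _ hp2 hpdz (Fin.ch_zero_iff.1 hxe)
      · have h5 := hnd p hpp hp2 hpm
        refine good_p hb hab hdz p hp2 h5 ?_ ?_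
        · intro h
          have e1 : (0 : ℤ) ^ 2 - 4 * (2 * m) = -(2 * 2) * (2 * m) := by ring
          rw [e1] at h
          rcases (Int.Prime.dvd_mul' hpp h) with h | h
          · rw [dvd_neg] at h
            have h' : p ∣ 2 * 2 := by exact_mod_cast h
            rcases hpp.dvd_mul.1 h' with h' | h' <;>
              exact hp2 ((Nat.prime_dvd_prime_iff_eq hpp Nat.prime_two).1 h')
          · exact h5 h
        · intro h
          have h' : p ∣ d := by exact_mod_cast h
          exact hpm (h'.trans ⟨e, hde.symm⟩)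
  have hd1 : 1 < d := by
    have h5 : p0 ∣ d := dvd_prod_of_mem _ hp0T
    exact lt_of_lt_of_le (hpr p0 hp0T).one_lt (Nat.le_of_dvd (Nat.pos_of_ne_zero hd0) h5)
  have hnsq : ∀ {n : ℕ}, Squarefree n → n ≠ 1 → ¬ IsSquare (n : ℚ) := by
    intro n hn hn1 h
    have h5 : IsSquare ((n : ℤ) : ℚ) := by rwa [Int.cast_natCast]
    rw [Rat.isSquare_intCast_iff] at h5
    obtain ⟨r, hr⟩ := h5
    have h6 : n = r.natAbs * r.natAbs := by
      have := congrArg Int.natAbs hr
      rw [Int.natAbs_mul] at this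
      exact this
    have h7 := Nat.isUnit_iff.1 (hn r.natAbs ⟨1, by rw [mul_one]; exact h6⟩)
    rw [h7] at h6
    exact hn1 h6
  have hm2 : m % 2 = 1 := by
    by_contra h
    have h2 : 2 ∈ m.primeFactors := Nat.mem_primeFactors.2 ⟨Nat.prime_two, by omega, hm0⟩
    have := h1 2 h2
    omega
  have hsq2m : Squarefree (2 * m) := by
    rw [Nat.squarefree_mul_iff]
    exact ⟨(Nat.coprime_two_left).2 (Nat.odd_iff.2 hm2), Nat.prime_two.squarefree, hm⟩
  have hmq : (0 : ℚ) < m := by exact_mod_cast Nat.pos_of_ne_zero hm0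
  have nb : ¬ IsSquare ((2 * m : ℤ) : ℚ) := by
    have := hnsq hsq2m (by omega)
    push_cast at this ⊢
    exact this
  have nab : ¬ IsSquare (((0 : ℤ) : ℚ) ^ 2 - 4 * ((2 * m : ℤ) : ℚ)) := by
    rintro ⟨s, hs⟩
    push_cast at hs
    nlinarith [mul_self_nonneg s]
  have n1 : ¬ IsSquare ((d : ℤ) : ℚ) := by
    rw [Int.cast_natCast]
    exact hnsq hdsq hd1.ne'
  have hdq : (0 : ℚ) < d := by exact_mod_cast Nat.pos_of_ne_zero hd0
  have n2 : ¬ IsSquare (((d : ℤ) : ℚ) * (((0 : ℤ) : ℚ) ^ 2 - 4 * ((2 * m : ℤ) : ℚ))) := by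
    rintro ⟨s, hs⟩
    push_cast at hs
    have : (0 : ℚ) < d * m := by positivity
    nlinarith [mul_self_nonneg s]
  obtain ⟨y, hy0, hy2⟩ := exists_two hb hab nb nab hf hdz hloc
    (lq2 (by exact_mod_cast Nat.pos_of_ne_zero hd0)) n1 n2
  exact hy0 (hs y hy2)

end

end Run7.h843.Conv
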