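import Pool.Agent.Run7.h843.V1

/-!
# Elements of order two in Sha of `y² = x³ - N² x` over `ℚ`: torsion
-/

set_option autoImplicit false

open NumberField IsDedekindDomain WeierstrassCurve

namespace Run7.h843.Conv

open Pool.Agent.Y698.SG.Cv (LocI WF coc)
open Pool.Agent.Y698.SG (loc_map)
open Pool.Agent.TH841.NF.D (Sha shaCoc)
open Pool.Agent.TH841.SH.D (Pt act Coch IsCoc IsCob LocTriv cob cob_zero Gal)
open Pool.Agent.Y668
open Pool.Agent.Y542.SGT (ns_of fin_iso)

/-- an element of order two, general form -/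
theorem exists_two' {a b d : ℤ} (hb : b ≠ 0) (hab : a ^ 2 - 4 * b ≠ 0) (hd : d ≠ 0)
    (hl : ∀ (p : ℕ) [Fact p.Prime], LocI ℚ_[p] a b d) (hr : LocI ℝ a b d)
    (n1 : ¬ IsSquare (d : ℚ)) (n2 : ¬ IsSquare ((d : ℚ) * ((a : ℚ) ^ 2 - 4 * b)))
    (n3 : ¬ LocI ℚ a b d) : ∃ x : Sha (WF ℚ a b), x ≠ 0 ∧ x + x = 0 := by
  have hc : coc ℚ hb d ∈ shaCoc (WF ℚ a b) := by
    refine ⟨(Pool.Agent.Y79.SG.t_COC ℚ a b hb d).1, fun v => ?_, fun v => ?_⟩
    · exact Pool.Agent.Y79.SG.Lot.t_LOT ℚ a b hb d hab hd _ (all_v (fun p _ => hl p) v)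
    · rcases v.isReal_or_isComplex with h | h
      · exact Pool.Agent.Y79.SG.Lot.t_LOT ℚ a b hb d hab hd _
          (loc_map (InfinitePlace.Completion.ringEquivRealOfIsReal h).symm.toRingHom hr)
      · exact Pool.Agent.Y79.SG.Lot.t_LOT ℚ a b hb d hab hd _
          (loc_map (InfinitePlace.Completion.ringEquivComplexOfIsComplex h).symm.toRingHom
            (loc_map (algebraMap ℝ ℂ) hr))
  let N : AddSubgroup (shaCoc (WF ℚ a b)) := (cob (WF ℚ a b)).addSubgroupOf (shaCoc (WF ℚ a b))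
  let y : shaCoc (WF ℚ a b) := ⟨coc ℚ hb d, hc⟩
  refine ⟨(QuotientAddGroup.mk y : shaCoc (WF ℚ a b) ⧸ N), ?_, ?_⟩
  · intro h
    have h0 : (QuotientAddGroup.mk y : shaCoc (WF ℚ a b) ⧸ N) = 0 := h
    rw [QuotientAddGroup.eq_zero_iff, AddSubgroup.mem_addSubgroupOf] at h0
    rcases Pool.Agent.Y945.SG.t_COB ℚ a b hb d hab hd h0 with h | h | h
    · exact n1 h
    · exact n2 h
    · exact n3 h
  · have h5 : (QuotientAddGroup.mk (y + y) : shaCoc (WF ℚ a b) ⧸ N) = 0 := by
      rw [QuotientAddGroup.eq_zero_iff, AddSubgroup.mem_addSubgroupOf]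
      have h6 : ((y + y : shaCoc (WF ℚ a b)) : Coch (WF ℚ a b)) = 0 :=
        (Pool.Agent.Y79.SG.t_COC ℚ a b hb d).2
      rw [h6]
      exact cob_zero _
    exact h5

section

variable {F : Type} [Field F] [CharZero F]

/-- every point is twice a point, or differs from such a point by `(0, 0)` -/
lemma half' [DecidableEq F] {A C : F} (hC : C ≠ 0) (hD : A ^ 2 - 4 * C ≠ 0)
    (hDs : ¬ IsSquare (A ^ 2 - 4 * C)) (hf : Finite (Wt A C).toAffine.Point)
    (hTn : ∀ Q : (Wt A C).toAffine.Point,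
      Q + Q ≠ Affine.Point.some 0 0 (ns_of (x := 0) (y := 0) hC hD (by ring)))
    (P : (Wt A C).toAffine.Point) :
    ∃ Q, P = Q + Q ∨ P = Affine.Point.some 0 0 (ns_of (x := 0) (y := 0) hC hD (by ring)) + (Q + Q) := by
  set T : (Wt A C).toAffine.Point :=
    Affine.Point.some 0 0 (ns_of (x := 0) (y := 0) hC hD (by ring)) with hT
  let f : (Wt A C).toAffine.Point →+ (Wt A C).toAffine.Point := AddMonoidHom.id _ + AddMonoidHom.id _
  have hfa : ∀ Q, f Q = Q + Q := fun Q => rfl
  have hker : (f.ker : Set (Wt A C).toAffine.Point) = {0, T} := by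
    ext Q
    simp only [SetLike.mem_coe, AddMonoidHom.mem_ker, hfa, Set.mem_insert_iff,
      Set.mem_singleton_iff]
    constructor
    · intro h
      cases Q with
      | zero => left; rfl
      | some x y hn =>
        right
        have h1 : (Affine.Point.some x y hn : (Wt A C).toAffine.Point) =
            -Affine.Point.some x y hn := eq_neg_of_add_eq_zero_left h
        rw [Affine.Point.neg_some] at h1
        have h2 : y = (Wt A C).toAffine.negY x y := by
          simpa using h1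
        have h3 : y = 0 := by
          simp only [Affine.negY, Wt] at h2
          have h2' : (2 : F) * y = 0 := by linear_combination h2
          exact (mul_eq_zero.1 h2').resolve_left two_ne_zero
        subst h3
        have h4 := Wt_eqn.mp hn.1
        have h5 : x * (x ^ 2 + A * x + C) = 0 := by linear_combination -h4
        rcases mul_eq_zero.1 h5 with h6 | h6
        · subst h6; rfl
        · exfalso
          apply hDs
          refine ⟨2 * x + A, ?_⟩
          linear_combination -4 * h6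
    · rintro (rfl | rfl)
      · exact add_zero 0
      · have h1 : T = -T := by
          rw [hT, Affine.Point.neg_some]
          congr 1
          simp [Affine.negY, Wt]
        nth_rewrite 2 [h1]
        exact add_neg_cancel T
  have hT0 : T ≠ 0 := by
    rw [hT]
    exact Affine.Point.some_ne_zero _
  have hcard : Nat.card f.ker = 2 := by
    have : Nat.card f.ker = Nat.card (f.ker : Set (Wt A C).toAffine.Point) := rfl
    rw [this, hker, Nat.card_coe_set_eq, Set.ncard_pair hT0.symm]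
  have hidx : f.range.index = 2 := by
    have h1 := f.ker.card_mul_index
    have h2 := f.range.card_mul_index
    rw [AddSubgroup.index_ker, hcard] at h1
    have h3 : 0 < Nat.card f.range := Nat.card_pos
    have h4 : Nat.card f.range * f.range.index = Nat.card f.range * 2 := by
      rw [h2, ← h1, mul_comm]
    exact Nat.eq_of_mul_eq_mul_left h3 h4
  have hTn' : T ∉ f.range := by
    rintro ⟨Q, hQ⟩
    rw [hfa] at hQ
    exact hTn Q hQ
  by_cases hP : P ∈ f.range
  · obtain ⟨Q, hQ⟩ := hP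
    exact ⟨Q, Or.inl (by rw [← hQ, hfa])⟩
  · have h1 : P - T ∈ f.range := by
      have h2 := AddSubgroup.add_mem_iff_of_index_two hidx (a := P - T) (b := T)
      rw [sub_add_cancel] at h2
      by_contra h3
      exact hP (h2.2 (by tauto))
    obtain ⟨Q, hQ⟩ := h1
    refine ⟨Q, Or.inr ?_⟩
    rw [hfa] at hQ
    rw [hQ]
    abel

/-- a point `Q` with `2 Q = (0, 0)` on `y² = x³ + C x` -/
lemma dbl_T [DecidableEq F] {C : F} (hC : C ≠ 0) (hD : (0 : F) ^ 2 - 4 * C ≠ 0)
    (Q : (Wt (0 : F) C).toAffine.Point)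
    (h : Q + Q = Affine.Point.some 0 0 (ns_of (x := 0) (y := 0) hC hD (by ring))) :
    ∃ x y : F, y ^ 2 = x ^ 3 + C * x ∧ x ^ 2 = C := by
  cases Q with
  | zero =>
    exfalso
    have h1 : (0 : (Wt (0 : F) C).toAffine.Point) + 0 = 0 := add_zero 0
    have h2 : (Affine.Point.zero : (Wt (0 : F) C).toAffine.Point) = 0 := rfl
    rw [h2, h1] at h
    exact Affine.Point.some_ne_zero _ h.symm
  | some x y hn =>
    have he := Wt_eqn.mp hn.1
    by_cases hy : y = (Wt (0 : F) C).toAffine.negY x y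
    · exfalso
      rw [Affine.Point.add_self_of_Y_eq hy] at h
      exact Affine.Point.some_ne_zero _ h.symm
    · rw [Affine.Point.add_self_of_Y_ne hy] at h
      have hy0 : y ≠ 0 := by
        rintro rfl
        apply hy
        simp [Affine.negY, Wt]
      have h1 := (Affine.Point.some.injEq ..).mp h
      have hx := h1.1
      rw [Affine.slope_of_Y_ne rfl hy] at hx
      simp only [Affine.addX, Affine.negY, Wt] at hx
      refine ⟨x, y, by rw [he]; ring, ?_⟩
      have h2y : (2 : F) * y ≠ 0 := mul_ne_zero two_ne_zero hy0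
      have e1 : y - (-y - 0 * x - 0) = 2 * y := by ring
      rw [e1] at hx
      have h3 : (3 * x ^ 2 + C) ^ 2 = 8 * x * y ^ 2 := by
        field_simp at hx
        linear_combination hx
      have h4 : (x ^ 2 - C) ^ 2 = 0 := by
        rw [he] at h3
        linear_combination h3
      have h5 := pow_eq_zero_iff (two_ne_zero) |>.1 h4
      linear_combination h5

end

/-- the classes of the rational points of `y² = x³ + 4 N² x` -/
theorem tor_E {N : ℕ} (hN0 : N ≠ 0) (hN : ¬ IsSquare (N : ℚ)) {d : ℤ}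
    (hfin : Finite (WF ℚ 0 (-(N : ℤ) ^ 2)).toAffine.Point) (hloc : LocI ℚ 0 (-(N : ℤ) ^ 2) d) :
    IsSquare (d : ℚ) := by
  classical
  obtain ⟨X, Y, r, hX, hY, hXd⟩ := hloc
  have hNq : (0 : ℚ) < N := by exact_mod_cast Nat.pos_of_ne_zero hN0
  set C : ℚ := 4 * (N : ℚ) ^ 2 with hCdef
  have hC : C ≠ 0 := by positivity
  have hD : (0 : ℚ) ^ 2 - 4 * C ≠ 0 := by
    have : (0 : ℚ) ^ 2 - 4 * C = -(4 * C) := by ring
    rw [this]
    exact neg_ne_zero.2 (mul_ne_zero four_ne_zero hC)
  have hDs : ¬ IsSquare ((0 : ℚ) ^ 2 - 4 * C) := by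
    rintro ⟨s, hs⟩
    have hC' : 0 < C := by positivity
    nlinarith [mul_self_nonneg s]
  have hb' : ((-(N : ℤ) ^ 2 : ℤ) : ℚ) ≠ 0 := by
    push_cast
    exact neg_ne_zero.2 (pow_ne_zero 2 hNq.ne')
  have hc' : (((0 : ℤ) : ℚ)) ^ 2 - 4 * ((-(N : ℤ) ^ 2 : ℤ) : ℚ) ≠ 0 := by
    push_cast
    have : (0 : ℚ) ^ 2 - 4 * -(N : ℚ) ^ 2 = 4 * (N : ℚ) ^ 2 := by ring
    rw [this]
    positivity
  have hf0 := fin_iso hb' hc' hfin
  have e1 : -2 * (((0 : ℤ) : ℚ)) = 0 := by push_cast; ring
  have e2 : (((0 : ℤ) : ℚ)) ^ 2 - 4 * ((-(N : ℤ) ^ 2 : ℤ) : ℚ) = C := by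
    rw [hCdef]
    push_cast
    ring
  rw [e1, e2] at hf0
  have hY' : Y ^ 2 = X ^ 3 + 0 * X ^ 2 + C * X := by
    rw [hY, hCdef]
    push_cast
    ring
  have hn := ns_of hC hD hY'
  have hr : r ≠ 0 := by
    rintro rfl
    apply hX
    rw [hXd]; ring
  have hal : al (0 : ℚ) C (Affine.Point.some X Y hn) = X := by
    rw [al_some]
    simp [hX]
  have sq_of : ∀ v : ℚ, v ≠ 0 → IsSquare (X * v ^ 2) → IsSquare (d : ℚ) := by
    rintro v hv ⟨s, hs⟩
    refine ⟨s / (r * v), ?_⟩
    rw [hXd] at hs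
    field_simp
    linear_combination hs
  have hTn : ∀ Q : (Wt (0 : ℚ) C).toAffine.Point,
      Q + Q ≠ Affine.Point.some 0 0 (ns_of (x := 0) (y := 0) hC hD (by ring)) := by
    intro Q hQ
    obtain ⟨x, y, hxy, hx2⟩ := dbl_T hC hD Q hQ
    have h3 : (x - 2 * N) * (x + 2 * N) = 0 := by
      rw [hCdef] at hx2
      linear_combination hx2
    rcases mul_eq_zero.1 h3 with h4 | h4
    · apply hN
      have hx : x = 2 * N := by linear_combination h4
      refine ⟨y / (4 * N), ?_⟩
      rw [hx, hCdef] at hxy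
      field_simp
      linear_combination -hxy
    · have hx : x = -(2 * N) := by linear_combination h4
      rw [hx, hCdef] at hxy
      have : (0 : ℚ) < (N : ℚ) ^ 3 := by positivity
      nlinarith [sq_nonneg y]
  obtain ⟨Q, hQ | hQ⟩ := half' hC hD hDs hf0 hTn (Affine.Point.some X Y hn)
  · have h1 := al_add (two_ne_zero (α := ℚ)) Q Q
    rw [← hQ, hal] at h1
    obtain ⟨s, hs⟩ := h1
    exact sq_of (al _ _ Q) (al_ne hC Q) ⟨s, by linear_combination hs⟩
  · have h1 := al_add (two_ne_zero (α := ℚ)) Q Q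
    have h3 := al_add (two_ne_zero (α := ℚ)) (Affine.Point.some 0 0
      (ns_of (x := 0) (y := 0) hC hD (by ring))) (Q + Q)
    rw [← hQ, hal] at h3
    have h4 : al (0 : ℚ) C (Affine.Point.some 0 0
      (ns_of (x := 0) (y := 0) hC hD (by ring))) = C := by
      rw [al_some]
      simp
    rw [h4] at h3
    obtain ⟨s, hs⟩ := h1
    obtain ⟨t, ht⟩ := h3
    set α := al (0 : ℚ) C Q
    set β := al (0 : ℚ) C (Q + Q)
    have hα : α ≠ 0 := al_ne hC Q
    have hβ : β ≠ 0 := al_ne hC (Q + Q)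
    refine sq_of (α * β) (mul_ne_zero hα hβ) ?_
    refine ⟨s * t / (2 * N), ?_⟩
    rw [hCdef] at ht
    field_simp
    linear_combination (4 * (N : ℚ) ^ 2 * X * β) * hs + s * s * ht

end Run7.h843.Conv
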