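import Pool.Agent.Run7.h843.V2
import Pool.Agent.Run7.h843.V4
import Pool.Agent.Run7.h843.S7

/-!
# The converse for `y² = x³ - (2 m s²)² x`
-/

set_option autoImplicit false

open NumberField IsDedekindDomain

namespace Run7.h843.Conv

open Finset
open Pool.Agent.Y698.SG.Cv (LocI WF)
open Pool.Agent.TH841.NF.D (Sha)
open Pool.Agent.Y703.CQ (nr)
open Run7.h843.Desc

/-- scaling of the local condition -/
theorem loc_scale {L : Type} [Field L] [CharZero L] {b d : ℤ} {s : ℕ} (hs : s ≠ 0)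
    (h : LocI L 0 b d) : LocI L 0 (b * (s : ℤ) ^ 4) d := by
  obtain ⟨X, Y, r, hX, hY, hXd⟩ := h
  have hs' : (s : L) ≠ 0 := by exact_mod_cast hs
  refine ⟨X * s ^ 2, Y * s ^ 3, r * s, mul_ne_zero hX (pow_ne_zero 2 hs'), ?_, ?_⟩
  · push_cast at hY ⊢
    linear_combination (s : L) ^ 6 * hY
  · rw [hXd]
    ring

section

variable {m : ℕ}

/-- **the converse for `y² = x³ - (2 m s²)² x`** -/
theorem convE (hm : Squarefree m) (h1 : ∀ p ∈ m.primeFactors, p % 4 = 1) {s : ℕ} (hs0 : s ≠ 0)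
    (hf : Finite (WF ℚ 0 (-((2 * m * s ^ 2 : ℕ) : ℤ) ^ 2)).toAffine.Point)
    (hs : ∀ x : Sha (WF ℚ 0 (-((2 * m * s ^ 2 : ℕ) : ℤ) ^ 2)), x + x = 0 → x = 0) : Nsg m := by
  classical
  intro x hx
  by_contra hcon
  push Not at hcon
  obtain ⟨p0, hp0, hxp0⟩ := hcon
  have hm0 : m ≠ 0 := hm.ne_zero
  have hmz : (m : ℤ) ≠ 0 := by exact_mod_cast hm0
  set T := m.primeFactors.filter fun p => x p = 1 with hT
  have hTm : ∀ p ∈ T, p ∈ m.primeFactors ∧ x p = 1 := fun p hp => mem_filter.1 hp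
  have hx1 : x p0 = 1 := (zmod2_cases (x p0)).resolve_left hxp0
  have hp0T : p0 ∈ T := mem_filter.2 ⟨hp0, hx1⟩
  have hpr : ∀ p ∈ T, p.Prime := fun p hp => Nat.prime_of_mem_primeFactors (hTm p hp).1
  have h4 : ∀ p ∈ T, p % 4 = 1 := fun p hp => h1 p (hTm p hp).1
  set d : ℕ := ∏ p ∈ T, p with hd
  set e : ℕ := ∏ p ∈ m.primeFactors \ T, p with he
  have hde : d * e = m := by
    rw [hd, he, mul_comm, prod_sdiff (filter_subset _ _)]
    exact Nat.prod_primeFactors_of_squarefree hm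
  have hd0 : d ≠ 0 := prod_ne_zero_iff.2 fun p hp => (hpr p hp).ne_zero
  have hdz : (d : ℤ) ≠ 0 := by exact_mod_cast hd0
  have hdf : d.primeFactors = T := Nat.primeFactors_prod hpr
  have hprE : ∀ p ∈ m.primeFactors \ T, p.Prime := fun p hp =>
    Nat.prime_of_mem_primeFactors (mem_sdiff.1 hp).1
  have hef : e.primeFactors = m.primeFactors \ T := Nat.primeFactors_prod hprE
  have hdsq : Squarefree d := hm.squarefree_of_dvd ⟨e, hde.symm⟩
  have hesq : Squarefree e := hm.squarefree_of_dvd ⟨d, by rw [mul_comm]; exact hde.symm⟩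
  have he0 : e ≠ 0 := hesq.ne_zero
  have hez : (e : ℤ) ≠ 0 := by exact_mod_cast he0
  -- modulo eight
  have h8 : (d : ℤ) % 8 = 1 := by
    have h5 := sum_f2 h1 hx
    have h6 : ∑ p ∈ m.primeFactors, f2 p * x p = ∑ p ∈ T, f2 p := by
      rw [hT, sum_filter]
      refine sum_congr rfl fun p _ => ?_
      rcases zmod2_cases (x p) with h | h
      · rw [h, mul_zero, if_neg (by decide)]
      · rw [h, mul_one, if_pos rfl]
    rw [h6] at h5
    rcases mod8 h4 with h7 | h7
    · have := h7.1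
      rw [← hd] at this
      omega
    · rw [h7.2] at h5
      exact absurd h5 (by decide)
  have hb : (-4 * m ^ 2 : ℤ) ≠ 0 := mul_ne_zero (by norm_num) (pow_ne_zero 2 hmz)
  have hab : (0 : ℤ) ^ 2 - 4 * (-4 * m ^ 2) ≠ 0 := by
    have : (0 : ℤ) ^ 2 - 4 * (-4 * m ^ 2) = (4 * m) ^ 2 := by ring
    rw [this]
    exact pow_ne_zero 2 (mul_ne_zero (by norm_num) hmz)
  obtain ⟨lq1, lq2⟩ := Pool.Agent.Y971.SG.Lq.t_LQ 0 (-4 * m ^ 2) d hb hab hdz
  have hnd : ∀ q : ℕ, q.Prime → q ≠ 2 → ¬ q ∣ m → ¬ (q : ℤ) ∣ 2 * m := by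
    intro q hq h2 hqm h
    have h3 : q ∣ 2 * m := by exact_mod_cast h
    rcases hq.dvd_mul.1 h3 with h5 | h5
    · exact h2 ((Nat.prime_dvd_prime_iff_eq hq Nat.prime_two).1 h5)
    · exact hqm h5
  have hloc : ∀ (p : ℕ) [Fact p.Prime], LocI ℚ_[p] 0 (-4 * m ^ 2) d := by
    intro p hp
    have hpp : p.Prime := hp.out
    by_cases hp2 : p = 2
    · subst hp2
      exact lq1 2 (Or.inl (Pool.Agent.Y971.SG.Lq.padic_sq2 h8))
    · by_cases hpm : p ∣ m
      · have hpf : p ∈ m.primeFactors := Nat.mem_primeFactors.2 ⟨hpp, hpm, hm0⟩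
        have hp4 := h1 p hpf
        have hxe := hx p hpf
        by_cases hpT : p ∈ T
        · -- `2 e` is a square
          have hxp := (hTm p hpT).2
          have hpe : ¬ p ∣ e := by
            intro h
            have : p ∈ e.primeFactors := Nat.mem_primeFactors.2 ⟨hpp, h, he0⟩
            rw [hef] at this
            exact (mem_sdiff.1 this).2 hpT
          have h5 : ch p (e : ℤ) = ∑ q ∈ m.primeFactors \ T, nr p q := by
            rw [Fin.ch_prod hp4 hesq hpe, hef]
          have h6 : ∑ q ∈ m.primeFactors, nr p q * (x q + x p) = ∑ q ∈ m.primeFactors \ T, nr p q := by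
            rw [← sum_sdiff (filter_subset (fun p => x p = 1) m.primeFactors), ← hT]
            have h7 : ∑ q ∈ T, nr p q * (x q + x p) = 0 := by
              refine sum_eq_zero fun q hq => ?_
              rw [(hTm q hq).2, hxp]
              have : (1 : ZMod 2) + 1 = 0 := by decide
              rw [this, mul_zero]
            rw [h7, add_zero]
            refine sum_congr rfl fun q hq => ?_
            have h8 : x q = 0 := by
              rcases zmod2_cases (x q) with h | h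
              · exact h
              · exact absurd (mem_filter.2 ⟨(mem_sdiff.1 hq).1, h⟩) (mem_sdiff.1 hq).2
            rw [h8, hxp, zero_add, mul_one]
          rw [h6, hxp, mul_one] at hxe
          have h2p : ¬ (p : ℤ) ∣ 2 := by
            intro h
            have h' : p ∣ 2 := by exact_mod_cast h
            exact hp2 ((Nat.prime_dvd_prime_iff_eq hpp Nat.prime_two).1 h')
          have hpez : ¬ (p : ℤ) ∣ e := by exact_mod_cast hpe
          have h7 : ch p (2 * e : ℤ) = 0 := by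
            rw [ch_mul (cast_ne.2 h2p) (cast_ne.2 hpez), ch_two hp4, h5, add_comm]
            exact hxe
          have h8 : IsSquare ((2 * e : ℤ) : ZMod p) := Fin.ch_zero_iff.1 h7
          have h9 : ¬ (p : ℤ) ∣ 2 * e := by
            intro h
            rcases (Int.Prime.dvd_mul' hpp h) with h | h
            · exact h2p h
            · exact hpez h
          obtain ⟨t, ht⟩ := Pool.Agent.Y971.SG.Lq.t_SQ p _ hp2 h9 h8
          obtain ⟨i, hi⟩ := Run7.h843.Sha.exists_i (p := p) hp4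
          have hmm : (m : ℚ_[p]) = d * e := by
            rw [← hde]
            push_cast
            rfl
          have hmp : (m : ℚ_[p]) ≠ 0 := by exact_mod_cast hm0
          have hi0 : i ≠ 0 := by
            rintro rfl
            rw [zero_pow two_ne_zero] at hi
            have h10 : (1 : ℚ_[p]) = 0 := by linear_combination hi
            exact one_ne_zero h10
          push_cast at ht
          refine ⟨4 * m * i, 0, t * (1 + i), mul_ne_zero (mul_ne_zero (by norm_num) hmp) hi0, ?_, ?_⟩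
          · push_cast
            linear_combination (-64 * (m : ℚ_[p]) ^ 3 * i) * hi
          · rw [hmm]
            push_cast
            linear_combination (2 * (d : ℚ_[p]) * i) * ht - (d : ℚ_[p]) * t ^ 2 * hi
        · refine lq1 p (Or.inl ?_)
          have hxp : x p = 0 := by
            rcases zmod2_cases (x p) with h | h
            · exact h
            · exact absurd (mem_filter.2 ⟨hpf, h⟩) hpT
          have hpd : ¬ p ∣ d := by
            intro h
            have : p ∈ d.primeFactors := Nat.mem_primeFactors.2 ⟨hpp, h, hd0⟩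
            rw [hdf] at this
            exact hpT this
          have h5 : ch p (d : ℤ) = ∑ q ∈ T, nr p q := by
            rw [Fin.ch_prod hp4 hdsq hpd, hdf]
          have h6 : ∑ q ∈ m.primeFactors, nr p q * (x q + x p) = ∑ q ∈ T, nr p q := by
            rw [hT, sum_filter]
            refine sum_congr rfl fun q hq => ?_
            rw [hxp, add_zero]
            rcases zmod2_cases (x q) with h | h
            · rw [h, mul_zero, if_neg (by decide)]
            · rw [h, mul_one, if_pos rfl]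
          rw [h6, hxp, mul_zero, add_zero, ← h5] at hxe
          have hpdz : ¬ (p : ℤ) ∣ d := by exact_mod_cast hpd
          exact Pool.Agent.Y971.SG.Lq.t_SQ p _ hp2 hpdz (Fin.ch_zero_iff.1 hxe)
      · have h5 := hnd p hpp hp2 hpm
        have hpi : Prime (p : ℤ) := Nat.prime_iff_prime_int.1 hpp
        have hk2 : ¬ (p : ℤ) ∣ 2 := fun h => h5 (h.mul_right _)
        have hkm : ¬ (p : ℤ) ∣ m := fun h => h5 (h.mul_left _)
        have hk : ∀ n : ℕ, ¬ (p : ℤ) ∣ 2 ^ n * (m : ℤ) ^ 2 := by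
          intro n h
          rcases hpi.dvd_or_dvd h with h | h
          · exact hk2 (hpi.dvd_of_dvd_pow h)
          · exact hkm (hpi.dvd_of_dvd_pow h)
        refine good_p hb hab hdz p hp2 ?_ ?_ ?_
        · intro h
          apply hk 2
          have e1 : (2 : ℤ) ^ 2 * (m : ℤ) ^ 2 = -(-4 * m ^ 2) := by ring
          rw [e1]
          exact h.neg_right
        · intro h
          apply hk 4
          have e1 : (2 : ℤ) ^ 4 * (m : ℤ) ^ 2 = (0 : ℤ) ^ 2 - 4 * (-4 * m ^ 2) := by ring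
          rw [e1]
          exact h
        · intro h
          have h' : p ∣ d := by exact_mod_cast h
          exact hpm (h'.trans ⟨e, hde.symm⟩)
  have hd1 : 1 < d := by
    have h5 : p0 ∣ d := dvd_prod_of_mem _ hp0T
    exact lt_of_lt_of_le (hpr p0 hp0T).one_lt (Nat.le_of_dvd (Nat.pos_of_ne_zero hd0) h5)
  have hnsq : ∀ {n : ℕ}, Squarefree n → n ≠ 1 → ¬ IsSquare (n : ℚ) := by
    intro n hn hn1 h
    have h5 : IsSquare ((n : ℤ) : ℚ) := by rwa [Int.cast_natCast]
    rw [Rat.isSquare_intCast_iff] at h5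
    obtain ⟨r, hr⟩ := h5
    have h6 : n = r.natAbs * r.natAbs := by
      have := congrArg Int.natAbs hr
      rw [Int.natAbs_mul] at this
      exact this
    have h7 := Nat.isUnit_iff.1 (hn r.natAbs ⟨1, by rw [mul_one]; exact h6⟩)
    rw [h7] at h6
    exact hn1 h6
  have hm2 : m % 2 = 1 := by
    by_contra h
    have h2 : 2 ∈ m.primeFactors := Nat.mem_primeFactors.2 ⟨Nat.prime_two, by omega, hm0⟩
    have := h1 2 h2
    omega
  have hsq2m : Squarefree (2 * m) := by
    rw [Nat.squarefree_mul_iff]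
    exact ⟨(Nat.coprime_two_left).2 (Nat.odd_iff.2 hm2), Nat.prime_two.squarefree, hm⟩
  have hmq : (0 : ℚ) < m := by exact_mod_cast Nat.pos_of_ne_zero hm0
  have hs' : (s : ℚ) ≠ 0 := by exact_mod_cast hs0
  have n0 : ¬ IsSquare (((2 * m * s ^ 2 : ℕ)) : ℚ) := by
    rintro ⟨r, hr⟩
    have := hnsq hsq2m (by omega)
    apply this
    refine ⟨r / s, ?_⟩
    push_cast at hr ⊢
    field_simp
    linear_combination hr
  have n1 : ¬ IsSquare ((d : ℤ) : ℚ) := by
    rw [Int.cast_natCast]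
    exact hnsq hdsq hd1.ne'
  have hN0 : 2 * m * s ^ 2 ≠ 0 := mul_ne_zero (mul_ne_zero two_ne_zero hm0) (pow_ne_zero 2 hs0)
  have hNz : ((2 * m * s ^ 2 : ℕ) : ℤ) ≠ 0 := by exact_mod_cast hN0
  have eb : (-4 * m ^ 2 : ℤ) * (s : ℤ) ^ 4 = -((2 * m * s ^ 2 : ℕ) : ℤ) ^ 2 := by
    push_cast
    ring
  have hb' : -((2 * m * s ^ 2 : ℕ) : ℤ) ^ 2 ≠ 0 := neg_ne_zero.2 (pow_ne_zero 2 hNz)
  have hab' : (0 : ℤ) ^ 2 - 4 * -((2 * m * s ^ 2 : ℕ) : ℤ) ^ 2 ≠ 0 := by
    have : (0 : ℤ) ^ 2 - 4 * -((2 * m * s ^ 2 : ℕ) : ℤ) ^ 2 = (2 * ((2 * m * s ^ 2 : ℕ) : ℤ)) ^ 2 := by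
      ring
    rw [this]
    exact pow_ne_zero 2 (mul_ne_zero two_ne_zero hNz)
  have n2 : ¬ IsSquare (((d : ℤ) : ℚ) * (((0 : ℤ) : ℚ) ^ 2 -
      4 * ((-((2 * m * s ^ 2 : ℕ) : ℤ) ^ 2 : ℤ) : ℚ))) := by
    rintro ⟨r, hr⟩
    apply n1
    have hNq : ((2 * m * s ^ 2 : ℕ) : ℚ) ≠ 0 := by exact_mod_cast hN0
    refine ⟨r / (2 * ((2 * m * s ^ 2 : ℕ) : ℚ)), ?_⟩
    have h6 : ((d : ℤ) : ℚ) * (2 * ((2 * m * s ^ 2 : ℕ) : ℚ)) ^ 2 = r * r := by
      rw [← hr]
      push_cast
      ring
    field_simp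
    linear_combination h6
  have n3 : ¬ LocI ℚ 0 (-((2 * m * s ^ 2 : ℕ) : ℤ) ^ 2) d := fun h =>
    n1 (tor_E hN0 n0 hf h)
  obtain ⟨y, hy0, hy2⟩ := exists_two' hb' hab' hdz
    (fun p hp => by
      have h5 := @loc_scale ℚ_[p] _ _ _ _ s hs0 (hloc p)
      rwa [eb] at h5)
    (by
      have h5 := loc_scale (s := s) hs0 (lq2 (by exact_mod_cast Nat.pos_of_ne_zero hd0))
      rwa [eb] at h5) n1 n2 n3
  exact hy0 (hs y hy2)

end

end Run7.h843.Conv
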